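import Pool.Agent.Work.MP_849ab0_ag.Uni2

/-!
Quantized Hikita-Nakajima conjecture for all quivers (loops allowed) and every generic
stability character, in algebraic form.
The definitions are in `Pool/Agent/Work/MP_849ab0_ag/Defs.lean` and `Defs2.lean`.
-/

namespace Pool.Agent.Work.MP_849ab0_ag.AllQuiversOld

open MvPolynomial Pool.Agent.Work.MP_849ab0_ag

theorem result {k n : ℕ} {E R : Type} [Fintype E] [CommRing R] [IsDomain R] [Algebra ℚ R]
    (D : QD k n E R) (ν : Fin k → ℤ)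
    (hν : ∀ S : Finset (Fin n), S.Nonempty → ∑ a ∈ S, ν (D.col a) ≠ 0) :
    (∀ a ∈ D.Alg (FractionRing (MvPolynomial (Fin n) R)), D.Hom _ ν 0 a →
      ∃ f ∈ Inv R D.col, a - D.cst _ f ∈ D.JJ _ ν) ∧
    ∀ f ∈ Inv R D.col,
      (D.cst (FractionRing (MvPolynomial (Fin n) R)) f ∈ D.JJ _ ν ↔ f ∈ D.IU ν) :=
  D.stmt2 hν

end Pool.Agent.Work.MP_849ab0_ag.AllQuiversOld
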