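import Pool.Agent.Work.MP_849ab0_ag.Basic

/-! Birkhoff factorisation, abstract form, and the recursion on functionals. -/

noncomputable section

set_option linter.unusedSectionVars false

namespace Pool.Agent.Work.MP_849ab0_ag

open MvPolynomial Finset

/-- coefficients of `∏ (1 + s e)`; the head of the list is the rightmost factor -/
def gl {A : Type} [Ring A] : List A → ℕ → A
  | [], 0 => 1
  | [], _ + 1 => 0
  | _ :: L, 0 => gl L 0
  | e :: L, j + 1 => gl L (j + 1) + gl L j * e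

/-- the Euler derivation -/
def thBirk {A : Type} [Ring A] (f : PowerSeries A) : PowerSeries A :=
  PowerSeries.mk fun n => n • PowerSeries.coeff n f

theorem coeff_thBirk {A : Type} [Ring A] (f : PowerSeries A) (n : ℕ) :
    PowerSeries.coeff n (thBirk f) = n • PowerSeries.coeff n f := PowerSeries.coeff_mk _ _

theorem thBirk_mul {A : Type} [Ring A] (f g : PowerSeries A) :
    thBirk (f * g) = thBirk f * g + f * thBirk g := by
  ext n
  simp only [coeff_thBirk, map_add, PowerSeries.coeff_mul, smul_sum, ← sum_add_distrib]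
  refine sum_congr rfl fun p hp => ?_
  rw [← mem_antidiagonal.1 hp, add_smul, smul_mul_assoc, mul_smul_comm]

theorem thBirk_one {A : Type} [Ring A] : thBirk (1 : PowerSeries A) = 0 := by
  ext n
  rw [coeff_thBirk, PowerSeries.coeff_one]
  split_ifs with h <;> simp [h]

theorem coeff_zero_mul_Birk {A : Type} [Ring A] (f g : PowerSeries A) :
    PowerSeries.coeff 0 (f * g) = PowerSeries.coeff 0 f * PowerSeries.coeff 0 g := by
  simp [PowerSeries.coeff_mul]

theorem gl_zero_Birk {A : Type} [Ring A] (L : List A) : gl L 0 = 1 := by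
  induction L with
  | nil => rfl
  | cons e L ih => exact ih

theorem gl_J_Birk {A : Type} [Ring A] (J : A) (L : List A) (h : ∀ e ∈ L, e * J = e) (j : ℕ) :
    gl L (j + 1) * J = gl L (j + 1) := by
  induction L with
  | nil => simp [gl]
  | cons e L ih =>
    rw [gl, add_mul, ih fun e he => h e (List.mem_cons_of_mem _ he), mul_assoc,
      h e List.mem_cons_self]

theorem gl_cons_Birk {A : Type} [Ring A] (e : A) (L : List A) :
    PowerSeries.mk (gl (e :: L)) =
      PowerSeries.mk (gl L) * (1 + PowerSeries.X * PowerSeries.C e) := by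
  rw [mul_add, mul_one, ← mul_assoc, ← PowerSeries.X_mul, mul_assoc]
  ext n
  cases n with
  | zero =>
    rw [map_add, PowerSeries.coeff_zero_X_mul, add_zero, PowerSeries.coeff_mk,
      PowerSeries.coeff_mk, gl]
  | succ n =>
    rw [map_add, PowerSeries.coeff_succ_X_mul, PowerSeries.coeff_mul_C, PowerSeries.coeff_mk,
      PowerSeries.coeff_mk, PowerSeries.coeff_mk, gl]

theorem gl_th_Birk {A : Type} [Ring A] [Algebra ℂ A] (𝔫 : Submodule ℂ A)
    (hbr : ∀ x ∈ 𝔫, ∀ y ∈ 𝔫, x * y - y * x ∈ 𝔫) (L : List A)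
    (hL : ∀ e ∈ L, e ∈ 𝔫 ∧ e * e = 0 ∧ ∀ x ∈ 𝔫, e * x * e = 0) :
    ∃ c : PowerSeries A, PowerSeries.coeff 0 c = 0 ∧ (∀ n, PowerSeries.coeff n c ∈ 𝔫) ∧
      thBirk (PowerSeries.mk (gl L)) = PowerSeries.mk (gl L) * c := by
  induction L with
  | nil =>
    refine ⟨0, by simp, by simp, ?_⟩
    ext n
    cases n <;> simp [coeff_thBirk, gl]
  | cons e L ih =>
    obtain ⟨c, h0, h1, h2⟩ := ih fun e he => hL e (List.mem_cons_of_mem _ he)
    obtain ⟨e1, e2, e3⟩ := hL e List.mem_cons_self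
    have k1 : (PowerSeries.C e : PowerSeries A) * c * PowerSeries.C e = 0 := by
      ext n
      rw [PowerSeries.coeff_mul_C, PowerSeries.coeff_C_mul, e3 _ (h1 n), map_zero]
    have k2 : (PowerSeries.C e : PowerSeries A) * PowerSeries.C e = 0 := by
      rw [← map_mul, e2, map_zero]
    have k3 : thBirk (1 + PowerSeries.X * PowerSeries.C e : PowerSeries A) =
        PowerSeries.X * PowerSeries.C e := by
      ext n
      rw [coeff_thBirk]
      rcases n with _ | _ | n
      · simp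
      · simp [PowerSeries.coeff_one]
      · simp [PowerSeries.coeff_one, PowerSeries.coeff_X]
    refine ⟨c + PowerSeries.X * (c * PowerSeries.C e - PowerSeries.C e * c + PowerSeries.C e),
      by rw [map_add, h0, PowerSeries.coeff_zero_X_mul, add_zero], fun n => ?_, ?_⟩
    · rw [map_add]
      refine 𝔫.add_mem (h1 n) ?_
      cases n with
      | zero =>
        rw [PowerSeries.coeff_zero_X_mul]
        exact 𝔫.zero_mem
      | succ n =>
        rw [PowerSeries.coeff_succ_X_mul, map_add, map_sub, PowerSeries.coeff_mul_C,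
          PowerSeries.coeff_C_mul]
        refine 𝔫.add_mem (hbr _ (h1 n) _ e1) ?_
        rw [PowerSeries.coeff_C]
        split_ifs
        · exact e1
        · exact 𝔫.zero_mem
    · rw [gl_cons_Birk, thBirk_mul, h2, k3]
      have k4 : ∀ f : PowerSeries A, f * PowerSeries.X = PowerSeries.X * f := fun f =>
        PowerSeries.X_mul.symm
      generalize (PowerSeries.C e : PowerSeries A) = E at k1 k2
      generalize (PowerSeries.X : PowerSeries A) = x at k4
      generalize PowerSeries.mk (gl L) = g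
      have k5 : x * E * (x * (c * E - E * c + E)) =
          x * x * (E * c * E) - x * x * (E * E) * c + x * x * (E * E) := by
        rw [mul_assoc x E, ← mul_assoc E x, k4 E]
        noncomm_ring
      rw [k1, k2] at k5
      have k6 : c * (x * E) = x * (c * E) := by rw [← mul_assoc, k4 c, mul_assoc]
      have k7 : (1 + x * E) * (c + x * (c * E - E * c + E)) =
          c + x * (c * E) + x * E + x * E * (x * (c * E - E * c + E)) := by noncomm_ring
      rw [mul_assoc g (1 + x * E), k7, k5, ← k6]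
      noncomm_ring

theorem conj_Birk {A : Type} [Ring A] [Algebra ℂ A] (𝔫 : Submodule ℂ A)
    (hbr : ∀ x ∈ 𝔫, ∀ y ∈ 𝔫, x * y - y * x ∈ 𝔫) {G Wp sg : PowerSeries A}
    (hG0 : PowerSeries.coeff 0 G = 1) (hW0 : PowerSeries.coeff 0 Wp = 1)
    (hs0 : PowerSeries.coeff 0 sg = 0) (hG : thBirk G = sg * G) (hW : thBirk Wp = -(Wp * sg))
    (m : ℕ) : (∀ j ≤ m, PowerSeries.coeff j sg ∈ 𝔫) → ∀ d : PowerSeries A,
      (∀ n, PowerSeries.coeff n d ∈ 𝔫) → PowerSeries.coeff m (G * d * Wp) ∈ 𝔫 := by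
  induction m using Nat.strong_induction_on with
  | _ m ih =>
    intro hs d hd
    cases m with
    | zero =>
      rw [coeff_zero_mul_Birk, coeff_zero_mul_Birk, hG0, hW0, one_mul, mul_one]
      exact hd 0
    | succ m =>
      have h1 : thBirk d = PowerSeries.X *
          PowerSeries.mk fun n => (n + 1) • PowerSeries.coeff (n + 1) d := by
        ext n
        cases n with
        | zero => rw [coeff_thBirk, zero_smul, PowerSeries.coeff_zero_X_mul]
        | succ n => rw [coeff_thBirk, PowerSeries.coeff_succ_X_mul, PowerSeries.coeff_mk]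
      have h2 := ih m (by omega) (fun j hj => hs j (by omega))
        (PowerSeries.mk fun n => (n + 1) • PowerSeries.coeff (n + 1) d) fun n => by
          rw [PowerSeries.coeff_mk]
          exact 𝔫.smul_of_tower_mem _ (hd _)
      generalize (PowerSeries.mk fun n => (n + 1) • PowerSeries.coeff (n + 1) d) = d' at h1 h2
      have h3 : thBirk (G * d * Wp) = sg * (G * d * Wp) - (G * d * Wp) * sg +
          PowerSeries.X * (G * d' * Wp) := by
        rw [thBirk_mul, thBirk_mul, hG, hW, h1, ← mul_assoc G, ← PowerSeries.X_mul]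
        noncomm_ring
      have h4 := congrArg (PowerSeries.coeff (m + 1)) h3
      rw [coeff_thBirk, map_add, map_sub, PowerSeries.coeff_succ_X_mul,
        PowerSeries.coeff_mul (m + 1) sg, PowerSeries.coeff_mul (m + 1) _ sg,
        Finset.Nat.sum_antidiagonal_succ, Finset.Nat.sum_antidiagonal_succ', hs0, zero_mul,
        mul_zero, zero_add, zero_add, ← Finset.Nat.sum_antidiagonal_swap (n := m)
          (f := fun p => PowerSeries.coeff p.1 (G * d * Wp) * PowerSeries.coeff (p.2 + 1) sg),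
        ← sum_sub_distrib] at h4
      have h5 : ((m + 1 : ℕ) : ℂ) • PowerSeries.coeff (m + 1) (G * d * Wp) ∈ 𝔫 := by
        rw [Nat.cast_smul_eq_nsmul, h4]
        refine 𝔫.add_mem (𝔫.sum_mem fun p hp => ?_) h2
        have h6 := mem_antidiagonal.1 hp
        exact hbr _ (hs _ (by omega)) _
          (ih p.2 (by omega) (fun j hj => hs j (by omega)) d hd)
      exact (𝔫.smul_mem_iff (Nat.cast_ne_zero.2 (Nat.succ_ne_zero m))).1 h5

theorem birk {M : Type} [AddCommGroup M] [Module ℂ M] (ε : M →ₗ[ℂ] ℂ)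
    (σ : (M →ₗ[ℂ] ℂ) →ₗ[ℂ] Module.End ℂ M) (J : Module.End ℂ M)
    (hε : ∀ α, ε ∘ₗ σ α = α ∘ₗ J) (hσ : ∀ α, σ α * J = σ α)
    (𝔫 : Submodule ℂ (Module.End ℂ M)) (I : Submodule ℂ M)
    (hbr : ∀ x ∈ 𝔫, ∀ y ∈ 𝔫, x * y - y * x ∈ 𝔫) (hπ : ∀ x ∈ 𝔫, σ (ε ∘ₗ x) ∈ 𝔫)
    (hI : ∀ x ∈ 𝔫, ∀ F ∈ I, x F - σ (ε ∘ₗ x) F ∈ I) (L : List (Module.End ℂ M))
    (hL : ∀ e ∈ L, e ∈ 𝔫 ∧ e * J = e ∧ e * e = 0 ∧ ∀ x ∈ 𝔫, e * x * e = 0)
    (W : ℕ → Module.End ℂ M) (b : ℕ → M →ₗ[ℂ] ℂ) (hW0 : W 0 = 1)
    (hW : ∀ m, ((m + 1 : ℕ) : ℂ) • W (m + 1) = -∑ j ∈ range (m + 1), W (m - j) * σ (b (j + 1)))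
    (hb : ∀ m, b (m + 1) =
      ∑ i ∈ range (m + 1), ((i + 1 : ℕ) : ℂ) • (ε ∘ₗ gl L (i + 1) ∘ₗ W (m - i)))
    (φ : M →ₗ[ℂ] ℂ) (hφ : ∀ F ∈ I, φ F = 0) (m : ℕ) (F : M) (hF : F ∈ I) :
    ∑ j ∈ range (m + 1), φ (gl L j (W (m - j) F)) = 0 := by
  obtain ⟨c, hc0, hc, hgc⟩ := gl_th_Birk 𝔫 hbr L fun e he =>
    ⟨(hL e he).1, (hL e he).2.2.1, (hL e he).2.2.2⟩
  set g : PowerSeries (Module.End ℂ M) := PowerSeries.mk (gl L) with hg
  set Wp : PowerSeries (Module.End ℂ M) := PowerSeries.mk W with hWp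
  set sg : PowerSeries (Module.End ℂ M) :=
    PowerSeries.X * PowerSeries.mk fun j => σ (b (j + 1)) with hsg
  have hsg0 : PowerSeries.coeff 0 sg = 0 := PowerSeries.coeff_zero_X_mul _
  have hsg1 : ∀ j, PowerSeries.coeff (j + 1) sg = σ (b (j + 1)) := fun j => by
    rw [hsg, PowerSeries.coeff_succ_X_mul, PowerSeries.coeff_mk]
  have hW0' : PowerSeries.coeff 0 Wp = 1 := by rw [hWp, PowerSeries.coeff_mk, hW0]
  have hg0 : PowerSeries.coeff 0 g = 1 := by rw [hg, PowerSeries.coeff_mk, gl_zero_Birk]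
  have hthW : thBirk Wp = -(Wp * sg) := by
    ext1 n
    rw [coeff_thBirk, map_neg]
    cases n with
    | zero => rw [zero_smul, coeff_zero_mul_Birk, hsg0, mul_zero, neg_zero]
    | succ n =>
      rw [hWp, PowerSeries.coeff_mk, ← Nat.cast_smul_eq_nsmul ℂ, hW, PowerSeries.coeff_mul,
        Finset.Nat.sum_antidiagonal_succ', hsg0, mul_zero, zero_add,
        ← Finset.Nat.sum_antidiagonal_swap, Finset.Nat.sum_antidiagonal_eq_sum_range_succ_mk]
      simp only [Prod.fst_swap, Prod.snd_swap, PowerSeries.coeff_mk, hsg1]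
  have hu : PowerSeries.constantCoeff Wp = ((1 : (Module.End ℂ M)ˣ) : Module.End ℂ M) := by
    rw [← PowerSeries.coeff_zero_eq_constantCoeff_apply, hW0', Units.val_one]
  have hG1 := PowerSeries.mul_invOfUnit Wp 1 hu
  have hG2 := PowerSeries.invOfUnit_mul Wp 1 hu
  have hG0 : PowerSeries.coeff 0 (PowerSeries.invOfUnit Wp 1) = 1 := by
    rw [PowerSeries.coeff_zero_eq_constantCoeff_apply, PowerSeries.constantCoeff_invOfUnit]
    simp
  generalize PowerSeries.invOfUnit Wp 1 = G at hG1 hG2 hG0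
  have hthG : thBirk G = sg * G := by
    have h1 : thBirk (Wp * G) = 0 := by rw [hG1, thBirk_one]
    rw [thBirk_mul, hthW] at h1
    have h2 : G * (-(Wp * sg) * G + Wp * thBirk G) = 0 := by rw [h1, mul_zero]
    have h3 : G * (-(Wp * sg) * G + Wp * thBirk G) =
        -((G * Wp) * sg * G) + (G * Wp) * thBirk G := by noncomm_ring
    rw [h3, hG2, one_mul, one_mul] at h2
    exact (neg_add_eq_zero.1 h2).symm
  have hWJ : ∀ k, W (k + 1) * J = W (k + 1) := fun k => by
    have h1 : ((k + 1 : ℕ) : ℂ) • (W (k + 1) * J) = ((k + 1 : ℕ) : ℂ) • W (k + 1) := by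
      rw [← smul_mul_assoc, hW, neg_mul, sum_mul]
      simp only [mul_assoc, hσ]
    exact smul_right_injective _ (Nat.cast_ne_zero.2 (Nat.succ_ne_zero k)) h1
  have hgJ := gl_J_Birk J L fun e he => (hL e he).2.1
  have hbJ : ∀ k, b (k + 1) ∘ₗ J = b (k + 1) := fun k => by
    refine LinearMap.ext fun x => ?_
    rw [LinearMap.comp_apply, hb]
    simp only [LinearMap.coe_sum, Finset.sum_apply, LinearMap.smul_apply, LinearMap.comp_apply]
    refine sum_congr rfl fun i _ => ?_
    congr 2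
    cases hk : k - i with
    | zero =>
      rw [hW0]
      exact LinearMap.congr_fun (hgJ i) x
    | succ r => exact congrArg _ (LinearMap.congr_fun (hWJ r) x)
  have hb' : ∀ k x, b (k + 1) x = ε (PowerSeries.coeff (k + 1) (thBirk g * Wp) x) := fun k x => by
    rw [hb, PowerSeries.coeff_mul, Finset.Nat.sum_antidiagonal_succ, coeff_thBirk, zero_smul,
      zero_mul, zero_add, Finset.Nat.sum_antidiagonal_eq_sum_range_succ_mk]
    simp only [LinearMap.coe_sum, Finset.sum_apply, LinearMap.smul_apply, LinearMap.comp_apply,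
      map_sum, coeff_thBirk, hg, hWp, PowerSeries.coeff_mk, Module.End.mul_apply,
      Nat.cast_smul_eq_nsmul, map_nsmul]
  have hP0 : PowerSeries.coeff 0 (g * Wp) = 1 := by rw [coeff_zero_mul_Birk, hg0, hW0', mul_one]
  have hthP : thBirk (g * Wp) = thBirk g * Wp - g * Wp * sg := by
    rw [thBirk_mul, hthW]
    noncomm_ring
  have hεP : ∀ k x, ε (PowerSeries.coeff (k + 1) (g * Wp) x) = 0 := by
    intro k
    induction k using Nat.strong_induction_on with
    | _ k ih =>
      intro x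
      have h1 := congrArg (fun f : PowerSeries (Module.End ℂ M) =>
        ε (PowerSeries.coeff (k + 1) f x)) hthP
      simp only [coeff_thBirk, map_sub, LinearMap.sub_apply, LinearMap.smul_apply, map_nsmul] at h1
      rw [← hb', PowerSeries.coeff_mul (k + 1) (g * Wp) sg, Finset.Nat.sum_antidiagonal_succ,
        hP0, one_mul, hsg1] at h1
      have h2 : ε (σ (b (k + 1)) x) = b (k + 1) x := by
        have h3 := LinearMap.congr_fun (hε (b (k + 1))) x
        rw [hbJ] at h3
        exact h3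
      have h4 : ε ((∑ p ∈ antidiagonal k, PowerSeries.coeff (p.1 + 1) (g * Wp) *
          PowerSeries.coeff p.2 sg) x) = 0 := by
        simp only [LinearMap.coe_sum, Finset.sum_apply, map_sum, Module.End.mul_apply]
        refine sum_eq_zero fun p hp => ?_
        have h5 := mem_antidiagonal.1 hp
        by_cases h6 : p.2 = 0
        · rw [h6, hsg0]
          simp
        · exact ih _ (by omega) _
      rw [LinearMap.add_apply, map_add, h2, h4, add_zero, sub_self] at h1
      exact (smul_eq_zero.1 h1).resolve_left (Nat.succ_ne_zero k)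
  have hξ : thBirk g * Wp = g * Wp * (G * c * Wp) := by
    have h1 : g * Wp * (G * c * Wp) = g * (Wp * G) * c * Wp := by noncomm_ring
    rw [h1, hG1, mul_one, hgc]
  have hbξ : ∀ k, b (k + 1) = ε ∘ₗ PowerSeries.coeff (k + 1) (G * c * Wp) := fun k => by
    refine LinearMap.ext fun x => ?_
    rw [hb', hξ, PowerSeries.coeff_mul (k + 1) (g * Wp), Finset.Nat.sum_antidiagonal_succ, hP0,
      one_mul, LinearMap.add_apply, map_add]
    simp only [LinearMap.coe_sum, Finset.sum_apply, map_sum, Module.End.mul_apply, hεP,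
      sum_const_zero, add_zero, LinearMap.comp_apply]
  obtain ⟨c', rfl⟩ : ∃ c', c = PowerSeries.X * c' :=
    ⟨_, by
      have h1 := PowerSeries.eq_X_mul_shift_add_const c
      rwa [← PowerSeries.coeff_zero_eq_constantCoeff_apply, hc0, map_zero, add_zero] at h1⟩
  have hc' : ∀ n, PowerSeries.coeff n c' ∈ 𝔫 := fun n => by
    have h1 := hc (n + 1)
    rwa [PowerSeries.coeff_succ_X_mul] at h1
  have hX : G * (PowerSeries.X * c') * Wp = PowerSeries.X * (G * c' * Wp) := by
    rw [← mul_assoc G, ← PowerSeries.X_mul]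
    simp only [mul_assoc]
  have hsgn : ∀ k, PowerSeries.coeff k sg ∈ 𝔫 := by
    intro k
    induction k using Nat.strong_induction_on with
    | _ k ih =>
      cases k with
      | zero =>
        rw [hsg0]
        exact 𝔫.zero_mem
      | succ k =>
        rw [hsg1, hbξ, hX, PowerSeries.coeff_succ_X_mul]
        exact hπ _ (conj_Birk 𝔫 hbr hG0 hW0' hsg0 hthG hthW k (fun j hj => ih j (by omega)) c' hc')
  have hξn : ∀ k, PowerSeries.coeff k (G * (PowerSeries.X * c') * Wp) ∈ 𝔫 := fun k =>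
    conj_Birk 𝔫 hbr hG0 hW0' hsg0 hthG hthW k (fun j _ => hsgn j) _ hc
  have hξ0 : PowerSeries.coeff 0 (G * (PowerSeries.X * c') * Wp) = 0 := by
    rw [hX, PowerSeries.coeff_zero_X_mul]
  generalize G * (PowerSeries.X * c') * Wp = ξ at hξ hbξ hξn hξ0
  have hthP' : thBirk (g * Wp) = g * Wp * (ξ - sg) := by rw [hthP, hξ, mul_sub]
  have key : ∀ k, ∀ F ∈ I, φ (PowerSeries.coeff k (g * Wp) F) = 0 := by
    intro k
    induction k using Nat.strong_induction_on with
    | _ k ih =>
      intro F hF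
      cases k with
      | zero =>
        rw [hP0]
        exact hφ F hF
      | succ k =>
        have h1 := congrArg (fun f : PowerSeries (Module.End ℂ M) =>
          φ (PowerSeries.coeff (k + 1) f F)) hthP'
        simp only [coeff_thBirk, LinearMap.smul_apply, map_nsmul] at h1
        rw [PowerSeries.coeff_mul (k + 1) (g * Wp) (ξ - sg), Finset.Nat.sum_antidiagonal_succ',
          map_sub, hξ0, hsg0, sub_zero, mul_zero, zero_add] at h1
        have h4 : φ ((∑ p ∈ antidiagonal k, PowerSeries.coeff p.1 (g * Wp) *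
            PowerSeries.coeff (p.2 + 1) (ξ - sg)) F) = 0 := by
          simp only [LinearMap.coe_sum, Finset.sum_apply, map_sum, Module.End.mul_apply]
          refine sum_eq_zero fun p hp => ?_
          have h5 := mem_antidiagonal.1 hp
          refine ih _ (by omega) _ ?_
          rw [map_sub, hsg1, hbξ, LinearMap.sub_apply]
          exact hI _ (hξn _) F hF
        rw [h4] at h1
        exact (smul_eq_zero.1 h1).resolve_left (Nat.succ_ne_zero k)
  have h1 := key m F hF
  rw [PowerSeries.coeff_mul, Finset.Nat.sum_antidiagonal_eq_sum_range_succ_mk] at h1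
  simpa only [LinearMap.coe_sum, Finset.sum_apply, map_sum, Module.End.mul_apply, hg, hWp,
    PowerSeries.coeff_mk] using h1

section Rec

variable {U U' : Type} [AddCommGroup U] [Module ℂ U] [AddCommGroup U'] [Module ℂ U']

/-- the recursion on functionals -/
def WW (st : U → U → U) (γ : ℕ → U) : ℕ → U → U
  | 0, ψ => ψ
  | m + 1, ψ => -(((m + 1 : ℕ) : ℂ)⁻¹) • ∑ j : Fin (m + 1),
      st (∑ i : Fin (j + 1), ((i + 1 : ℕ) : ℂ) • WW st γ (j - i) (γ (i + 1))) (WW st γ (m - j) ψ)
termination_by m => m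
decreasing_by all_goals omega

/-- `bb st γ m` is `b (m + 1)` -/
def bb (st : U → U → U) (γ : ℕ → U) (m : ℕ) : U :=
  ∑ i ∈ range (m + 1), ((i + 1 : ℕ) : ℂ) • WW st γ (m - i) (γ (i + 1))

theorem WW_zero (st : U → U → U) (γ : ℕ → U) (ψ : U) : WW st γ 0 ψ = ψ := by rw [WW]

theorem WW_succ (st : U → U → U) (γ : ℕ → U) (m : ℕ) (ψ : U) : WW st γ (m + 1) ψ =
    -(((m + 1 : ℕ) : ℂ)⁻¹) • ∑ j ∈ range (m + 1), st (bb st γ j) (WW st γ (m - j) ψ) := by
  rw [WW, sum_range]
  congr 2
  funext j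
  rw [bb, sum_range]

theorem WW_rel {st : U → U → U} {st' : U' → U' → U'} {γ : ℕ → U} {γ' : ℕ → U'}
    (N : Submodule ℂ (U × U')) (hst : ∀ x ∈ N, ∀ y ∈ N, (st x.1 y.1, st' x.2 y.2) ∈ N)
    (hγ : ∀ j, (γ (j + 1), γ' (j + 1)) ∈ N) (m : ℕ) {ψ : U} {ψ' : U'} (h : (ψ, ψ') ∈ N) :
    (WW st γ m ψ, WW st' γ' m ψ') ∈ N := by
  induction m using Nat.strong_induction_on generalizing ψ ψ' with
  | _ m ih =>
    cases m with
    | zero => rwa [WW_zero, WW_zero]
    | succ m =>
      have hb : ∀ j ≤ m, (bb st γ j, bb st' γ' j) ∈ N := fun j hj => by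
        rw [bb, bb, prod_mk_sum]
        refine N.sum_mem fun i _ => ?_
        exact N.smul_mem ((i + 1 : ℕ) : ℂ) (ih (j - i) (by omega) (hγ i))
      rw [WW_succ, WW_succ, ← Prod.smul_mk, prod_mk_sum]
      refine N.smul_mem _ (N.sum_mem fun j hj => ?_)
      have hj' := mem_range.1 hj
      exact hst _ (hb j (by omega)) _ (ih (m - j) (by omega) h)

theorem WW_val {st : U → U → U} {γ : ℕ → U} (N Q Q' : Submodule ℂ U)
    (hN : ∀ x ∈ N, ∀ y ∈ N, st x y ∈ N) (hQ : ∀ x ∈ N, ∀ y ∈ Q, st x y ∈ Q ⊓ Q')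
    (hγ : ∀ j, γ (j + 1) ∈ N) (m : ℕ) {ψ : U} (h : ψ ∈ Q) : WW st γ (m + 1) ψ ∈ Q' := by
  have h1 : ∀ (m : ℕ) (ψ : U), ψ ∈ N → WW st γ m ψ ∈ N := by
    intro m
    induction m using Nat.strong_induction_on with
    | _ m ih =>
      intro ψ hψ
      cases m with
      | zero => rwa [WW_zero]
      | succ m =>
        rw [WW_succ]
        refine N.smul_mem _ (N.sum_mem fun j hj => ?_)
        have hj' := mem_range.1 hj
        exact hN _ (N.sum_mem fun i _ => N.smul_mem _ (ih (j - i) (by omega) _ (hγ i))) _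
          (ih (m - j) (by omega) _ hψ)
  have h2 : ∀ j, bb st γ j ∈ N := fun j => N.sum_mem fun i _ => N.smul_mem _ (h1 _ _ (hγ i))
  have h3 : ∀ m : ℕ, WW st γ m ψ ∈ Q := by
    intro m
    induction m using Nat.strong_induction_on with
    | _ m ih =>
      cases m with
      | zero => rwa [WW_zero]
      | succ m =>
        rw [WW_succ]
        exact Q.smul_mem _ (Q.sum_mem fun j _ => (hQ _ (h2 j) _ (ih (m - j) (by omega))).1)
  rw [WW_succ]
  exact Q'.smul_mem _ (Q'.sum_mem fun j _ => (hQ _ (h2 j) _ (h3 (m - j))).2)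

/-- the recursion on operators -/
def recBirk {A : Type} [Ring A] [Algebra ℂ A] (s : ℕ → A) : ℕ → A
  | 0 => 1
  | m + 1 => -(((m + 1 : ℕ) : ℂ)⁻¹) • ∑ j : Fin (m + 1), recBirk s (m - j) * s j
termination_by m => m
decreasing_by all_goals omega

theorem recBirk_succ {A : Type} [Ring A] [Algebra ℂ A] (s : ℕ → A) (m : ℕ) : recBirk s (m + 1) =
    -(((m + 1 : ℕ) : ℂ)⁻¹) • ∑ j ∈ range (m + 1), recBirk s (m - j) * s j := by
  rw [recBirk, sum_range]

theorem exists_W {M : Type} [AddCommGroup M] [Module ℂ M]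
    (σ : (M →ₗ[ℂ] ℂ) →ₗ[ℂ] Module.End ℂ M) (st : (M →ₗ[ℂ] ℂ) → (M →ₗ[ℂ] ℂ) → M →ₗ[ℂ] ℂ)
    (hst : ∀ α ψ, ψ ∘ₗ σ α = st α ψ) (γ : ℕ → M →ₗ[ℂ] ℂ) :
    ∃ W : ℕ → Module.End ℂ M, W 0 = 1 ∧ (∀ m, ((m + 1 : ℕ) : ℂ) • W (m + 1) =
      -∑ j ∈ range (m + 1), W (m - j) * σ (bb st γ j)) ∧ ∀ m ψ, WW st γ m ψ = ψ ∘ₗ W m := by
  refine ⟨recBirk fun j => σ (bb st γ j), by rw [recBirk], fun m => ?_, fun m => ?_⟩
  · rw [recBirk_succ, smul_smul, mul_neg, mul_inv_cancel₀ (Nat.cast_ne_zero.2 (Nat.succ_ne_zero m)),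
      neg_smul, one_smul]
  · induction m using Nat.strong_induction_on with
    | _ m ih =>
      intro ψ
      cases m with
      | zero =>
        rw [WW_zero, recBirk]
        rfl
      | succ m =>
        rw [WW_succ, recBirk_succ, LinearMap.comp_smul]
        congr 1
        refine LinearMap.ext fun x => ?_
        simp only [LinearMap.coe_sum, Finset.sum_apply, LinearMap.comp_apply, map_sum,
          Module.End.mul_apply]
        refine sum_congr rfl fun j _ => ?_
        rw [← hst, ih (m - j) (by omega)]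
        rfl

end Rec

end Pool.Agent.Work.MP_849ab0_ag
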