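import Mathlib

-- merged part: Pool.Agent.Work.MP_849ab0_ag.Defs
section
/-!
Definitions for the Hikita conjecture hand-in (quiver gauge theories).

Coulomb side: the algebra of difference operators generated by the invariant polynomials and the
dressed fundamental monopole operators.  Higgs side: the radical of the iterated residue
(Hecke word) pairing.
-/

noncomputable section

namespace Pool.Agent.Work.MP_849ab0_ag

open MvPolynomial Finset

/-- Quiver data.  Vertices `Fin k`; the extra vertex `none` is the framing vertex (dimension one,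
coordinate `0`), so an arrow `i → none` is one copy of `Hom (V i, ℂ)`.  The coordinates
`x a`, `a : Fin n`, of the Cartan subalgebra have colours `col a`, so `v i` is the number of
`a` of colour `i`.  `t e` is the flavour weight of the arrow `e`, and `h` is `ħ`. -/
structure QD (k n : ℕ) (E R : Type) where
  col : Fin n → Fin k
  src : E → Option (Fin k)
  tgt : E → Option (Fin k)
  t : E → R
  h : R

/-- Permutations preserving the fibres of `c`. -/
def stab {n : ℕ} {J : Type} (c : Fin n → J) : Subgroup (Equiv.Perm (Fin n)) where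
  carrier := {w | ∀ a, c (w a) = c a}
  mul_mem' := fun {u v} hu hv a => by rw [Equiv.Perm.mul_apply, hu, hv]
  one_mem' := fun _ => rfl
  inv_mem' := fun {u} hu a => by rw [← hu (u⁻¹ a)]; simp

instance {n : ℕ} {J : Type} (c : Fin n → J) : Fintype (stab c) := Fintype.ofFinite _

/-- Polynomials fixed by `stab c`. -/
def Inv {n : ℕ} {J : Type} (R : Type) [CommRing R] (c : Fin n → J) :
    Subalgebra R (MvPolynomial (Fin n) R) where
  carrier := {f | ∀ w ∈ stab c, rename w f = f}
  mul_mem' := fun {f g} hf hg w hw => by rw [map_mul, hf w hw, hg w hw]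
  add_mem' := fun {f g} hf hg w hw => by rw [map_add, hf w hw, hg w hw]
  algebraMap_mem' := fun r w _ => AlgHom.commutes _ r

/-- Coordinate of a point; the framing point has coordinate `0`. -/
def xv {n : ℕ} {R : Type} [CommRing R] (o : Option (Fin n)) : MvPolynomial (Fin n) R :=
  o.elim 0 X

/-- A coweight, extended by `0` to the framing point. -/
def ov {n : ℕ} (μ : Fin n → ℤ) (o : Option (Fin n)) : ℤ := o.elim 0 μ

/-- Exponents of iterated Laurent series in `x 0 ≫ x 1 ≫ …`, ordered lexicographically. -/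
abbrev Gam (n : ℕ) : Type := Lex (Fin n → ℤ)

/-- The large variable number `i`, a Hahn series of order `-e i`. -/
def vv {n : ℕ} (F : Type) [CommRing F] (i : Fin n) : HahnSeries (Gam n) F :=
  HahnSeries.single (toLex (-Pi.single i 1)) 1

/-- Expansion in the region `|x (π⁻¹ 0)| ≫ |x (π⁻¹ 1)| ≫ … ≫` flavours. -/
def expand {n : ℕ} {R F : Type} [CommRing R] [CommRing F] (φ : R →+* F)
    (π : Equiv.Perm (Fin n)) : MvPolynomial (Fin n) R →+* HahnSeries (Gam n) F :=
  eval₂Hom (HahnSeries.C.comp φ) fun a => vv F (π a)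

/-- `outer π o o'`: the point `o` is integrated outside `o'`; the framing point is innermost. -/
def outer {n : ℕ} (π : Equiv.Perm (Fin n)) : Option (Fin n) → Option (Fin n) → Prop
  | some a, some b => π a < π b
  | some _, none => True
  | none, _ => False

namespace QD

variable {k n : ℕ} {E R : Type} [Fintype E] [CommRing R] (D : QD k n E R)

/-- The weights of `N`: an arrow with a point over its source and a point over its target. -/
def Wt : Finset (E × Option (Fin n) × Option (Fin n)) :=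
  open Classical in
  univ.filter fun p => p.2.1.map D.col = D.src p.1 ∧ p.2.2.map D.col = D.tgt p.1

/-- The weight as a linear form. -/
def chi (p : E × Option (Fin n) × Option (Fin n)) : MvPolynomial (Fin n) R :=
  xv p.2.2 - xv p.2.1 + C (D.t p.1)

/-- Ordered pairs of coordinates of the same colour (roots, and the diagonal). -/
def Rt : Finset (Fin n × Fin n) := univ.filter fun q => D.col q.1 = D.col q.2

/-- Matter factor: product of `χ + j ħ` over weights `χ` and `χ(μ) ≤ j < 0`. -/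
def mm (μ : Fin n → ℤ) : MvPolynomial (Fin n) R :=
  ∏ p ∈ D.Wt, ∏ j ∈ Ico (ov μ p.2.2 - ov μ p.2.1) 0, (D.chi p + (j : MvPolynomial (Fin n) R) * C D.h)

/-- Gauge factor: product of `α + j ħ` over roots `α` and `0 ≤ j < α(μ)`. -/
def ee (μ : Fin n → ℤ) : MvPolynomial (Fin n) R :=
  ∏ q ∈ D.Rt, ∏ j ∈ Ico 0 (μ q.1 - μ q.2),
    (X q.1 - X q.2 + (j : MvPolynomial (Fin n) R) * C D.h)

/-- The shift `x ↦ x + ħ μ`. -/
def sh (μ : Fin n → ℤ) : MvPolynomial (Fin n) R →ₐ[R] MvPolynomial (Fin n) R :=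
  aeval fun a => X a + (μ a : MvPolynomial (Fin n) R) * C D.h

/-- The coweight lattice, written multiplicatively; it acts by the shifts `sh`. -/
def Lat (_D : QD k n E R) : Type := Multiplicative (Fin n → ℤ)

instance : CommGroup D.Lat := inferInstanceAs (CommGroup (Multiplicative (Fin n → ℤ)))

/-- The element `u ^ μ`. -/
def u (μ : Fin n → ℤ) : D.Lat := Multiplicative.ofAdd μ

omit [Fintype E] in
theorem sh_zero : D.sh 0 = AlgHom.id R _ := by
  ext a; simp [sh]

omit [Fintype E] in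
theorem sh_add (μ ν : Fin n → ℤ) : D.sh (μ + ν) = (D.sh μ).comp (D.sh ν) := by
  apply MvPolynomial.algHom_ext; intro a
  simp only [sh, aeval_X, AlgHom.comp_apply, map_add, map_mul, map_intCast, aeval_C,
    algebraMap_eq, Pi.add_apply, Int.cast_add]
  ring

instance : MulSemiringAction D.Lat (MvPolynomial (Fin n) R) where
  smul γ f := D.sh (Multiplicative.toAdd γ) f
  one_smul f := by
    change D.sh 0 f = f
    rw [sh_zero]; rfl
  mul_smul γ δ f := by
    change D.sh (Multiplicative.toAdd γ + Multiplicative.toAdd δ) f = _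
    rw [sh_add]; rfl
  smul_zero _ := map_zero (D.sh _)
  smul_add _ := map_add (D.sh _)
  smul_one _ := map_one (D.sh _)
  smul_mul _ := map_mul (D.sh _)

instance [IsDomain R] : MulSemiringAction D.Lat (FractionRing (MvPolynomial (Fin n) R)) :=
  IsFractionRing.mulSemiringAction D.Lat (MvPolynomial (Fin n) R)
    (FractionRing (MvPolynomial (Fin n) R))

section Op

variable (K : Type) [CommRing K] [Algebra (MvPolynomial (Fin n) R) K] [MulSemiringAction D.Lat K]

/-- Difference operators `∑ a μ · u ^ μ` with coefficients in `K`, `u ^ μ g = (sh μ g) u ^ μ`. -/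
abbrev Op : Type := SkewMonoidAlgebra K D.Lat

/-- A polynomial as an operator. -/
def cst (f : MvPolynomial (Fin n) R) : D.Op K := SkewMonoidAlgebra.single 1 (algebraMap _ K f)

/-- Dressed monopole operator: the Weyl group sum of `g · mm μ / ee μ · u ^ μ`. -/
def mon (μ : Fin n → ℤ) (g : MvPolynomial (Fin n) R) : D.Op K :=
  ∑ w : stab D.col, SkewMonoidAlgebra.single (D.u (μ ∘ w.1.symm))
    (algebraMap _ K (rename w.1 (g * D.mm μ)) *
      Ring.inverse (algebraMap _ K (rename w.1 (D.ee μ))))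

/-- The quantized Coulomb branch algebra: generated by the invariant polynomials and the dressed
fundamental monopole operators (`μ` with entries in `{0, 1}` or in `{0, -1}`). -/
def Alg : Subring (D.Op K) :=
  Subring.closure (D.cst K '' Inv R D.col ∪
    {x | ∃ μ g, ((∀ a, μ a = 0 ∨ μ a = 1) ∨ (∀ a, μ a = 0 ∨ μ a = -1)) ∧ x = D.mon K μ g})

/-- `x` has `ν`-weight `m`. -/
def Hom (ν : Fin k → ℤ) (m : ℤ) (x : D.Op K) : Prop :=
  ∀ μ, x.coeff (D.u μ) ≠ 0 → ∑ a, ν (D.col a) * μ a = m

/-- `∑_{m < 0} A_m A_{-m}`. -/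
def JJ (ν : Fin k → ℤ) : AddSubgroup (D.Op K) :=
  AddSubgroup.closure {x | ∃ m < 0, ∃ b ∈ D.Alg K, ∃ a ∈ D.Alg K,
    D.Hom K ν m b ∧ D.Hom K ν (-m) a ∧ x = b * a}

end Op

/-- Denominator of a weight: `χ` if its source point is outside its target point, else `χ - ħ`. -/
def den (π : Equiv.Perm (Fin n)) (p : E × Option (Fin n) × Option (Fin n)) :
    MvPolynomial (Fin n) R :=
  open Classical in if outer π p.2.1 p.2.2 then D.chi p else D.chi p - C D.h

/-- Numerator: `(x a - x b) (x b - x a + ħ)` for `a` outside `b` of the same colour. -/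
def num (π : Equiv.Perm (Fin n)) : MvPolynomial (Fin n) R :=
  ∏ q ∈ D.Rt with π q.1 < π q.2, (X q.1 - X q.2) * (X q.2 - X q.1 + C D.h)

/-- Iterated residue of `f · num / ∏ den`: the coefficient of `∏ (x a)⁻¹` in the expansion. -/
def res {F : Type} [CommRing F] (φ : R →+* F) (π : Equiv.Perm (Fin n))
    (f : MvPolynomial (Fin n) R) : F :=
  (expand φ π (f * D.num π) * Ring.inverse (expand φ π (∏ p ∈ D.Wt, D.den π p))).coeff
    (toLex fun _ => 1)

/-- Invariant polynomials pairing to zero with every Hecke word. -/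
def IH [IsDomain R] : Set (MvPolynomial (Fin n) R) :=
  {f | f ∈ Inv R D.col ∧ ∀ π g, D.res (algebraMap R (FractionRing R)) π (f * g) = 0}

end QD

end Pool.Agent.Work.MP_849ab0_ag
end
end

-- merged part: Pool.Agent.Work.MP_849ab0_ag.Basic
section
/-! Basic interface: coefficients of operators, the localisation at root forms, maps. -/

noncomputable section

set_option linter.unusedSectionVars false

namespace Pool.Agent.Work.MP_849ab0_ag

open MvPolynomial Finset

abbrev Pol (n : ℕ) (R : Type) [CommRing R] : Type := MvPolynomial (Fin n) R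

/-- indicator coweight -/
def ind {n : ℕ} (S : Finset (Fin n)) : Fin n → ℤ := fun a => if a ∈ S then 1 else 0

theorem mem_stab {n : ℕ} {J : Type} {c : Fin n → J} {w : Equiv.Perm (Fin n)} :
    w ∈ stab c ↔ ∀ a, c (w a) = c a := Iff.rfl

theorem mem_Inv {n : ℕ} {J R : Type} [CommRing R] {c : Fin n → J} {f : Pol n R} :
    f ∈ Inv R c ↔ ∀ w ∈ stab c, rename w f = f := Iff.rfl

theorem stab_symm {n : ℕ} {J : Type} {c : Fin n → J} (w : stab c) (a : Fin n) :
    c (w.1.symm a) = c a := (w⁻¹).2 a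

theorem swap_mem_stab {n : ℕ} {J : Type} {c : Fin n → J} {a b : Fin n} (h : c a = c b) :
    Equiv.swap a b ∈ stab c := by
  intro d
  rw [Equiv.swap_apply_def]
  split_ifs with h1 h2
  · rw [h1, h]
  · rw [h2, h]
  · rfl

theorem map_inverse {A B : Type*} [CommRing A] [CommRing B] (φ : A →+* B) {x : A}
    (hx : IsUnit x) : φ (Ring.inverse x) = Ring.inverse (φ x) := by
  obtain ⟨u, rfl⟩ := hx
  rw [Ring.inverse_unit, show φ (u : A) = (Units.map φ.toMonoidHom u : B) from rfl,
    Ring.inverse_unit]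
  rfl

theorem inverse_mul' {A : Type*} [CommRing A] (x y : A) :
    Ring.inverse (x * y) = Ring.inverse x * Ring.inverse y := Ring.mul_inverse_rev x y ▸ mul_comm _ _

theorem inverse_prod {A ι : Type*} [CommRing A] (s : Finset ι) (f : ι → A) :
    Ring.inverse (∏ i ∈ s, f i) = ∏ i ∈ s, Ring.inverse (f i) := by
  classical
  induction s using Finset.induction_on with
  | empty => simp
  | insert a s ha ih => rw [prod_insert ha, prod_insert ha, inverse_mul', ih]

theorem inverse_neg' {A : Type*} [CommRing A] (x : A) :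
    Ring.inverse (-x) = -Ring.inverse x := by
  have : Ring.inverse (-1 : A) = -1 := by
    rw [show (-1 : A) = ((-1 : Aˣ) : A) by simp, Ring.inverse_unit]; simp
  rw [← neg_one_mul x, inverse_mul', this, neg_one_mul]

@[simp] theorem xv_some {n : ℕ} {R : Type} [CommRing R] (a : Fin n) :
    (xv (some a) : Pol n R) = X a := rfl
@[simp] theorem xv_none {n : ℕ} {R : Type} [CommRing R] : (xv none : Pol n R) = 0 := rfl
@[simp] theorem ov_some {n : ℕ} (μ : Fin n → ℤ) (a : Fin n) : ov μ (some a) = μ a := rfl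
@[simp] theorem ov_none {n : ℕ} (μ : Fin n → ℤ) : ov μ none = 0 := rfl

theorem ov_add {n : ℕ} (μ ν : Fin n → ℤ) (o : Option (Fin n)) :
    ov (μ + ν) o = ov μ o + ov ν o := by cases o <;> simp

theorem ov_neg {n : ℕ} (μ : Fin n → ℤ) (o : Option (Fin n)) : ov (-μ) o = -ov μ o := by
  cases o <;> simp

theorem rename_xv {n : ℕ} {R : Type} [CommRing R] (w : Fin n → Fin n) (o : Option (Fin n)) :
    rename w (xv o : Pol n R) = xv (o.map w) := by cases o <;> simp

namespace QD

variable {k n : ℕ} {E R : Type} [Fintype E] [CommRing R] (D : QD k n E R)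

/-- base change of the data -/
def map {R' : Type} [CommRing R'] (φ : R →+* R') : QD k n E R' :=
  ⟨D.col, D.src, D.tgt, fun e => φ (D.t e), φ D.h⟩

/-- no loops -/
def NL : Prop := ∀ e, D.src e ≠ D.tgt e

/-- `ν`-degree of a coweight -/
def dg (ν : Fin k → ℤ) (μ : Fin n → ℤ) : ℤ := ∑ a, ν (D.col a) * μ a

/-- root form -/
def rt (a b : Fin n) (j : ℤ) : Pol n R := X a - X b + (j : Pol n R) * C D.h

theorem mem_Wt {p : E × Option (Fin n) × Option (Fin n)} :
    p ∈ D.Wt ↔ p.2.1.map D.col = D.src p.1 ∧ p.2.2.map D.col = D.tgt p.1 := by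
  simp [Wt]

theorem mem_Rt {q : Fin n × Fin n} : q ∈ D.Rt ↔ D.col q.1 = D.col q.2 := by simp [Rt]

theorem dg_add (ν : Fin k → ℤ) (μ μ' : Fin n → ℤ) : D.dg ν (μ + μ') = D.dg ν μ + D.dg ν μ' := by
  simp [dg, mul_add, sum_add_distrib]

theorem dg_neg (ν : Fin k → ℤ) (μ : Fin n → ℤ) : D.dg ν (-μ) = -D.dg ν μ := by
  simp [dg]

theorem dg_perm (ν : Fin k → ℤ) (μ : Fin n → ℤ) (w : stab D.col) :
    D.dg ν (μ ∘ w.1.symm) = D.dg ν μ := by
  unfold dg
  rw [← Equiv.sum_comp w.1]
  refine sum_congr rfl fun a _ => ?_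
  rw [w.2 a]; simp

theorem sh_X (μ : Fin n → ℤ) (a : Fin n) : D.sh μ (X a) = X a + (μ a : Pol n R) * C D.h := by
  simp [sh]

theorem sh_C (μ : Fin n → ℤ) (r : R) : D.sh μ (C r) = C r := (D.sh μ).commutes r

theorem sh_xv (μ : Fin n → ℤ) (o : Option (Fin n)) :
    D.sh μ (xv o) = xv o + (ov μ o : Pol n R) * C D.h := by
  cases o <;> simp [sh_X]

theorem sh_chi (μ : Fin n → ℤ) (p : E × Option (Fin n) × Option (Fin n)) :
    D.sh μ (D.chi p) = D.chi p + ((ov μ p.2.2 - ov μ p.2.1 : ℤ) : Pol n R) * C D.h := by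
  simp only [chi, map_add, map_sub, sh_xv, sh_C, Int.cast_sub]; ring

theorem sh_rt (μ : Fin n → ℤ) (a b : Fin n) (j : ℤ) :
    D.sh μ (D.rt a b j) = D.rt a b (j + (μ a - μ b)) := by
  simp only [rt, map_add, map_sub, map_mul, sh_X, sh_C, map_intCast, Int.cast_add, Int.cast_sub]
  ring

theorem rename_rt (w : Fin n → Fin n) (a b : Fin n) (j : ℤ) :
    rename w (D.rt a b j) = D.rt (w a) (w b) j := by simp [rt]

theorem rt_swap (a b : Fin n) (j : ℤ) : D.rt b a (-j) = -D.rt a b j := by
  simp only [rt, Int.cast_neg]; ring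

theorem sh_sh (μ ν : Fin n → ℤ) (f : Pol n R) : D.sh μ (D.sh ν f) = D.sh (μ + ν) f := by
  rw [sh_add]; rfl

theorem sh_zero' (f : Pol n R) : D.sh 0 f = f := by rw [sh_zero]; rfl

theorem rename_sh (w : Equiv.Perm (Fin n)) (μ : Fin n → ℤ) (f : Pol n R) :
    rename w (D.sh μ f) = D.sh (μ ∘ w.symm) (rename w f) := by
  have : (rename w).comp (D.sh μ) = (D.sh (μ ∘ w.symm)).comp (rename w) := by
    apply MvPolynomial.algHom_ext; intro a; simp [sh_X]
  exact AlgHom.congr_fun this f

theorem ee_eq (μ : Fin n → ℤ) :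
    D.ee μ = ∏ q ∈ D.Rt, ∏ j ∈ Ico 0 (μ q.1 - μ q.2), D.rt q.1 q.2 j := rfl

theorem rename_ee (w : stab D.col) (μ : Fin n → ℤ) :
    rename w.1 (D.ee μ) = D.ee (μ ∘ w.1.symm) := by
  simp only [ee_eq, map_prod, rename_rt]
  refine prod_equiv (w.1.prodCongr w.1) ?_ ?_
  · intro q; simp [mem_Rt, w.2 q.1, w.2 q.2]
  · intro q _; simp

/-- the permutation of the weights induced by `w` -/
def wtPerm (w : Equiv.Perm (Fin n)) :
    Equiv.Perm (E × Option (Fin n) × Option (Fin n)) :=
  (Equiv.refl E).prodCongr (w.optionCongr.prodCongr w.optionCongr)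

theorem wtPerm_mem (w : stab D.col) (p : E × Option (Fin n) × Option (Fin n)) :
    p ∈ D.Wt ↔ wtPerm w.1 p ∈ D.Wt := by
  have : ∀ o : Option (Fin n), (o.map w.1).map D.col = o.map D.col := by
    intro o; cases o <;> simp [w.2 _]
  simp only [mem_Wt, wtPerm, Equiv.prodCongr_apply, Prod.map_fst, Prod.map_snd, Equiv.coe_refl,
    id_eq, Equiv.optionCongr_apply, this]

theorem rename_chi (w : Equiv.Perm (Fin n)) (p : E × Option (Fin n) × Option (Fin n)) :
    rename w (D.chi p) = D.chi (wtPerm w p) := by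
  simp [chi, wtPerm, rename_xv]

theorem ov_perm (w : Equiv.Perm (Fin n)) (μ : Fin n → ℤ) (o : Option (Fin n)) :
    ov (μ ∘ w.symm) (o.map w) = ov μ o := by cases o <;> simp

theorem rename_mm (w : stab D.col) (μ : Fin n → ℤ) :
    rename w.1 (D.mm μ) = D.mm (μ ∘ w.1.symm) := by
  simp only [mm, map_prod, map_add, map_mul, map_intCast, rename_C, rename_chi]
  refine prod_equiv (wtPerm w.1) (D.wtPerm_mem w) ?_
  intro p _
  simp [wtPerm, ov_perm]

theorem mm_zero : D.mm 0 = 1 := by
  refine prod_eq_one fun p _ => ?_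
  have : ∀ o : Option (Fin n), ov (0 : Fin n → ℤ) o = 0 := by intro o; cases o <;> simp
  simp [this]

theorem ee_zero : D.ee 0 = 1 := by simp [ee]

section Map
variable {R' : Type} [CommRing R'] (φ : R →+* R')

theorem map_xv (o : Option (Fin n)) : MvPolynomial.map φ (xv o : Pol n R) = xv o := by
  cases o <;> simp

theorem map_chi (p : E × Option (Fin n) × Option (Fin n)) :
    MvPolynomial.map φ (D.chi p) = (D.map φ).chi p := by simp [chi, map_xv, map]

theorem map_rt (a b : Fin n) (j : ℤ) : MvPolynomial.map φ (D.rt a b j) = (D.map φ).rt a b j := by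
  simp [rt, map]

theorem map_mm (μ : Fin n → ℤ) : MvPolynomial.map φ (D.mm μ) = (D.map φ).mm μ := by
  simp only [mm, map_prod, map_add, map_mul, map_intCast, map_chi, map_C]; rfl

theorem map_ee (μ : Fin n → ℤ) : MvPolynomial.map φ (D.ee μ) = (D.map φ).ee μ := by
  simp only [ee_eq, map_prod, map_rt]; rfl

theorem map_sh (μ : Fin n → ℤ) (f : Pol n R) :
    MvPolynomial.map φ (D.sh μ f) = (D.map φ).sh μ (MvPolynomial.map φ f) := by
  induction f using MvPolynomial.induction_on with
  | C r => simp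
  | add p q hp hq => simp [hp, hq]
  | mul_X p a hp => simp [hp, sh_X, map]

theorem map_den (π : Equiv.Perm (Fin n)) (p : E × Option (Fin n) × Option (Fin n)) :
    MvPolynomial.map φ (D.den π p) = (D.map φ).den π p := by
  unfold den; split_ifs <;> simp [map_chi, map]

theorem map_num (π : Equiv.Perm (Fin n)) :
    MvPolynomial.map φ (D.num π) = (D.map φ).num π := by
  simp only [num, map_prod, map_mul, map_add, map_sub, map_X, map_C]; rfl

theorem map_mem_Inv {J : Type} {c : Fin n → J} {f : Pol n R} (hf : f ∈ Inv R c) :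
    MvPolynomial.map φ f ∈ Inv R' c := by
  intro w hw; rw [← map_rename, hf w hw]

end Map

section Op

variable {K : Type} [CommRing K] [MulSemiringAction D.Lat K]

/-- coefficient of `u ^ μ` -/
def co (x : D.Op K) (μ : Fin n → ℤ) : K := x.coeff (D.u μ)

/-- the operator `c u ^ μ` -/
def sg (μ : Fin n → ℤ) (c : K) : D.Op K := SkewMonoidAlgebra.single (D.u μ) c

/-- support -/
def sup (x : D.Op K) : Finset (Fin n → ℤ) := x.support

variable (K) in
/-- shift on the coefficient ring -/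
def act (μ : Fin n → ℤ) : K →+* K := MulSemiringAction.toRingHom D.Lat K (D.u μ)

theorem act_act (μ ν : Fin n → ℤ) (c : K) : D.act K μ (D.act K ν c) = D.act K (μ + ν) c :=
  (mul_smul (D.u μ) (D.u ν) c).symm

theorem act_zero (c : K) : D.act K 0 c = c := one_smul D.Lat c

theorem mem_sup {x : D.Op K} {μ : Fin n → ℤ} : μ ∈ D.sup x ↔ D.co x μ ≠ 0 :=
  SkewMonoidAlgebra.mem_support_iff

theorem op_ext {x y : D.Op K} (h : ∀ μ, D.co x μ = D.co y μ) : x = y :=
  SkewMonoidAlgebra.ext h

theorem co_sg (μ ν : Fin n → ℤ) (c : K) : D.co (D.sg μ c) ν = if μ = ν then c else 0 := by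
  exact @SkewMonoidAlgebra.coeff_single_apply _ _ _ (D.u μ) (D.u ν) c
    (inferInstanceAs (Decidable (μ = ν)))

@[simp] theorem co_zero (μ : Fin n → ℤ) : D.co (0 : D.Op K) μ = 0 := rfl

theorem co_add (x y : D.Op K) (μ : Fin n → ℤ) : D.co (x + y) μ = D.co x μ + D.co y μ := by
  simp [co]

theorem co_neg (x : D.Op K) (μ : Fin n → ℤ) : D.co (-x) μ = -D.co x μ := by simp [co]

theorem co_sub (x y : D.Op K) (μ : Fin n → ℤ) : D.co (x - y) μ = D.co x μ - D.co y μ := by
  simp [co]

theorem co_sum {ι : Type*} (s : Finset ι) (x : ι → D.Op K) (μ : Fin n → ℤ) :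
    D.co (∑ i ∈ s, x i) μ = ∑ i ∈ s, D.co (x i) μ := by
  classical
  induction s using Finset.induction_on with
  | empty => simp
  | insert a s ha ih => rw [sum_insert ha, sum_insert ha, co_add, ih]

theorem sum_sg (x : D.Op K) : ∑ μ ∈ D.sup x, D.sg μ (D.co x μ) = x := x.sum_single

theorem sg_mul_sg (μ ν : Fin n → ℤ) (c d : K) :
    D.sg μ c * D.sg ν d = D.sg (μ + ν) (c * D.act K μ d) := SkewMonoidAlgebra.single_mul_single

theorem sg_zero_one : D.sg 0 (1 : K) = 1 := rfl

theorem co_mul (x y : D.Op K) (κ : Fin n → ℤ) :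
    D.co (x * y) κ = ∑ μ ∈ D.sup x, D.co x μ * D.act K μ (D.co y (κ - μ)) := by
  unfold co
  rw [SkewMonoidAlgebra.coeff_mul_left, SkewMonoidAlgebra.sum_def']
  refine sum_congr rfl fun (μ : Fin n → ℤ) _ => ?_
  have : ((D.u μ)⁻¹ * D.u κ : D.Lat) = D.u (κ - μ) := neg_add_eq_sub μ κ
  change _ * D.act K μ (y.coeff ((D.u μ)⁻¹ * D.u κ)) = _
  rw [this]; rfl

/-- the sum in `co_mul` may be taken over any larger finite set -/
theorem co_mul_of_subset (x y : D.Op K) (κ : Fin n → ℤ) {s : Finset (Fin n → ℤ)}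
    (hs : D.sup x ⊆ s) :
    D.co (x * y) κ = ∑ μ ∈ s, D.co x μ * D.act K μ (D.co y (κ - μ)) := by
  rw [co_mul]
  refine sum_subset hs fun μ _ hμ => ?_
  rw [mem_sup, not_not] at hμ
  rw [hμ, zero_mul]

theorem co_sg_mul (μ : Fin n → ℤ) (c : K) (y : D.Op K) (κ : Fin n → ℤ) :
    D.co (D.sg μ c * y) κ = c * D.act K μ (D.co y (κ - μ)) := by
  rw [D.co_mul_of_subset _ _ _ (s := {μ}), sum_singleton, co_sg, if_pos rfl]
  intro ν hν
  rw [mem_sup, co_sg] at hν
  by_contra h
  exact hν (if_neg fun e => h (by simp [e]))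

theorem co_mul_ne {x y : D.Op K} {κ : Fin n → ℤ} (h : D.co (x * y) κ ≠ 0) :
    ∃ μ ν, D.co x μ ≠ 0 ∧ D.co y ν ≠ 0 ∧ κ = μ + ν := by
  rw [co_mul] at h
  obtain ⟨μ, -, hμ⟩ := exists_ne_zero_of_sum_ne_zero h
  refine ⟨μ, κ - μ, left_ne_zero_of_mul hμ, fun e => ?_, by abel⟩
  rw [e, map_zero, mul_zero] at hμ; exact hμ rfl

/-- all exponents are at most `M` -/
def Le (M : ℤ) (x : D.Op K) : Prop := ∀ μ, D.co x μ ≠ 0 → ∀ a, μ a ≤ M

theorem Le.mul {M M' : ℤ} {x y : D.Op K} (hx : D.Le M x) (hy : D.Le M' y) :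
    D.Le (M + M') (x * y) := by
  intro κ h a
  obtain ⟨μ, ν, h1, h2, rfl⟩ := D.co_mul_ne h
  exact add_le_add (hx μ h1 a) (hy ν h2 a)

/-- the part of `ν`-degree `m` -/
def cmp (ν : Fin k → ℤ) (m : ℤ) : D.Op K →+ D.Op K where
  toFun x := ⟨x.coeff.filter fun γ => D.dg ν γ = m⟩
  map_zero' := by apply D.op_ext; intro μ; simp [co, Finsupp.filter_zero]
  map_add' x y := by
    apply D.op_ext; intro μ
    simp only [co, SkewMonoidAlgebra.coeff_add, Finsupp.filter_add]

theorem co_cmp (ν : Fin k → ℤ) (m : ℤ) (x : D.Op K) (μ : Fin n → ℤ) :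
    D.co (D.cmp ν m x) μ = if D.dg ν μ = m then D.co x μ else 0 :=
  Finsupp.filter_apply _ _ _

/-- the map of operator rings induced by an equivariant map of coefficients -/
def opMap {R' K' : Type} [CommRing R'] [CommRing K'] (D' : QD k n E R')
    [MulSemiringAction D'.Lat K'] (ψ : K →+* K')
    (hψ : ∀ μ c, ψ (D.act K μ c) = D'.act K' μ (ψ c)) : D.Op K →+* D'.Op K' :=
  SkewMonoidAlgebra.liftNCRingHom (SkewMonoidAlgebra.singleOneRingHom.comp ψ)
    (SkewMonoidAlgebra.of K' D'.Lat : D'.Lat →* D'.Op K') (by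
      intro x y
      change D'.sg 0 (ψ (D.act K y x)) * D'.sg y 1 = D'.sg y 1 * D'.sg 0 (ψ x)
      rw [sg_mul_sg, sg_mul_sg, hψ, map_one, mul_one, one_mul, zero_add, add_zero])

theorem opMap_sg {R' K' : Type} [CommRing R'] [CommRing K'] (D' : QD k n E R')
    [MulSemiringAction D'.Lat K'] (ψ : K →+* K')
    (hψ : ∀ μ c, ψ (D.act K μ c) = D'.act K' μ (ψ c)) (μ : Fin n → ℤ) (c : K) :
    D.opMap D' ψ hψ (D.sg μ c) = D'.sg μ (ψ c) := by
  have : D.opMap D' ψ hψ (D.sg μ c) = D'.sg 0 (ψ c) * D'.sg μ 1 :=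
    SkewMonoidAlgebra.liftNC_single _ _ _ _
  rw [this, sg_mul_sg, map_one, mul_one, zero_add]

theorem co_opMap {R' K' : Type} [CommRing R'] [CommRing K'] (D' : QD k n E R')
    [MulSemiringAction D'.Lat K'] (ψ : K →+* K')
    (hψ : ∀ μ c, ψ (D.act K μ c) = D'.act K' μ (ψ c)) (x : D.Op K) (μ : Fin n → ℤ) :
    D'.co (D.opMap D' ψ hψ x) μ = ψ (D.co x μ) := by
  conv_lhs => rw [← D.sum_sg x]
  conv_rhs => rw [← D.sum_sg x]
  rw [map_sum, co_sum, co_sum, map_sum]
  refine sum_congr rfl fun ν _ => ?_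
  rw [opMap_sg, co_sg, co_sg]
  split_ifs <;> simp

variable [Algebra (Pol n R) K]

variable (K) in
/-- the action on `K` extends the shifts -/
class Cmp : Prop where
  act_alg : ∀ μ f, D.act K μ (algebraMap (Pol n R) K f) = algebraMap (Pol n R) K (D.sh μ f)

theorem act_alg [D.Cmp K] (μ : Fin n → ℤ) (f : Pol n R) :
    D.act K μ (algebraMap (Pol n R) K f) = algebraMap (Pol n R) K (D.sh μ f) := Cmp.act_alg μ f

theorem cst_eq (f : Pol n R) : D.cst K f = D.sg 0 (algebraMap _ K f) := rfl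

theorem mon_eq (μ : Fin n → ℤ) (g : Pol n R) : D.mon K μ g = ∑ w : stab D.col,
    D.sg (μ ∘ w.1.symm) (algebraMap _ K (rename w.1 g * D.mm (μ ∘ w.1.symm)) *
      Ring.inverse (algebraMap _ K (D.ee (μ ∘ w.1.symm)))) := by
  unfold mon
  refine sum_congr rfl fun w _ => ?_
  rw [map_mul (rename _), rename_mm, rename_ee]; rfl

theorem hom_iff {ν : Fin k → ℤ} {m : ℤ} {x : D.Op K} :
    D.Hom K ν m x ↔ ∀ μ, D.co x μ ≠ 0 → D.dg ν μ = m := Iff.rfl

theorem Hom.mul {ν : Fin k → ℤ} {m m' : ℤ} {x y : D.Op K} (hx : D.Hom K ν m x)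
    (hy : D.Hom K ν m' y) : D.Hom K ν (m + m') (x * y) := by
  rw [hom_iff]
  intro κ h
  obtain ⟨μ, μ', h1, h2, rfl⟩ := D.co_mul_ne h
  rw [dg_add, D.hom_iff.1 hx μ h1, D.hom_iff.1 hy μ' h2]

theorem co_mon_ne {μ κ : Fin n → ℤ} {g : Pol n R} (h : D.co (D.mon K μ g) κ ≠ 0) :
    ∃ w : stab D.col, κ = μ ∘ w.1.symm := by
  rw [mon_eq, co_sum] at h
  obtain ⟨w, -, hw⟩ := exists_ne_zero_of_sum_ne_zero h
  rw [co_sg] at hw
  exact ⟨w, by by_contra e; exact hw (if_neg (Ne.symm e))⟩

theorem hom_mon (ν : Fin k → ℤ) (μ : Fin n → ℤ) (g : Pol n R) :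
    D.Hom K ν (D.dg ν μ) (D.mon K μ g) := by
  rw [hom_iff]
  intro κ h
  obtain ⟨w, rfl⟩ := D.co_mon_ne h
  exact D.dg_perm ν μ w

theorem hom_cst (ν : Fin k → ℤ) (f : Pol n R) : D.Hom K ν 0 (D.cst K f) := by
  rw [hom_iff]
  intro κ h
  rw [cst_eq, co_sg] at h
  have : (0 : Fin n → ℤ) = κ := by by_contra e; exact h (if_neg e)
  subst this; simp [dg]

variable (K) in
/-- `cst` as a ring homomorphism -/
def cstHom : Pol n R →+* D.Op K :=
  SkewMonoidAlgebra.singleOneRingHom.comp (algebraMap (Pol n R) K)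

theorem cstHom_apply (f : Pol n R) : D.cstHom K f = D.cst K f := rfl

theorem cst_mem {f : Pol n R} (hf : f ∈ Inv R D.col) : D.cst K f ∈ D.Alg K :=
  Subring.subset_closure (Or.inl ⟨f, hf, rfl⟩)

theorem mon_mem {μ : Fin n → ℤ} (hμ : (∀ a, μ a = 0 ∨ μ a = 1) ∨ (∀ a, μ a = 0 ∨ μ a = -1))
    (g : Pol n R) : D.mon K μ g ∈ D.Alg K :=
  Subring.subset_closure (Or.inr ⟨μ, g, hμ, rfl⟩)

theorem cst_C_mul_mon (r : R) (μ : Fin n → ℤ) (g : Pol n R) :
    D.cst K (C r) * D.mon K μ g = D.mon K μ (C r * g) := by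
  rw [mon_eq, mon_eq, mul_sum]
  refine sum_congr rfl fun w _ => ?_
  rw [cst_eq, sg_mul_sg, act_zero, zero_add]
  simp only [map_mul, rename_C, mul_assoc]

variable (K) in
/-- `∑ N · A^{≤ M}` in degree zero -/
def JM (ν : Fin k → ℤ) (M : ℤ) : AddSubgroup (D.Op K) :=
  AddSubgroup.closure {x | ∃ (S : Finset (Fin n)) (g : Pol n R) (a : D.Op K), S.Nonempty ∧
    a ∈ D.Alg K ∧ D.Hom K ν (D.dg ν (ind S)) a ∧ D.Le M a ∧ x = D.mon K (-ind S) g * a}

end Op

instance [IsDomain R] : D.Cmp (FractionRing (Pol n R)) :=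
  ⟨fun μ f => IsFractionRing.ringEquivOfRingEquiv_algebraMap
    (MulSemiringAction.toRingEquiv D.Lat (Pol n R) (D.u μ)) f⟩

/-- the multiplicative set generated by the root forms -/
def RS : Submonoid (Pol n R) :=
  Submonoid.closure {x | ∃ a b j, a ≠ b ∧ D.col a = D.col b ∧ x = D.rt a b j}

/-- rational functions with poles on the root forms -/
abbrev Om : Type := Localization D.RS

/-- the structure map -/
abbrev al : Pol n R →+* D.Om := algebraMap (Pol n R) D.Om

theorem isUnit_of_RS {K : Type} [CommRing K] (φ : Pol n R →+* K)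
    (h : ∀ a b j, a ≠ b → D.col a = D.col b → IsUnit (φ (D.rt a b j))) (y : D.RS) :
    IsUnit (φ y) := by
  obtain ⟨y, hy⟩ := y
  induction hy using Submonoid.closure_induction with
  | mem x hx => obtain ⟨a, b, j, h1, h2, rfl⟩ := hx; exact h a b j h1 h2
  | one => simp
  | mul x y _ _ hx hy => simpa using hx.mul hy

/-- extension of a ring map to `Om` -/
def lift {K : Type} [CommRing K] (φ : Pol n R →+* K)
    (h : ∀ a b j, a ≠ b → D.col a = D.col b → IsUnit (φ (D.rt a b j))) : D.Om →+* K :=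
  IsLocalization.lift (D.isUnit_of_RS φ h)

theorem lift_al {K : Type} [CommRing K] (φ : Pol n R →+* K)
    (h : ∀ a b j, a ≠ b → D.col a = D.col b → IsUnit (φ (D.rt a b j))) (f : Pol n R) :
    D.lift φ h (D.al f) = φ f := IsLocalization.lift_eq _ _

theorem om_ext {K : Type} [CommRing K] {φ ψ : D.Om →+* K} (h : ∀ f, φ (D.al f) = ψ (D.al f)) :
    φ = ψ := IsLocalization.ringHom_ext D.RS (RingHom.ext h)

theorem rt_mem {a b : Fin n} (j : ℤ) (h1 : a ≠ b) (h2 : D.col a = D.col b) : D.rt a b j ∈ D.RS :=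
  Submonoid.subset_closure ⟨a, b, j, h1, h2, rfl⟩

theorem isUnit_rt {a b : Fin n} (j : ℤ) (h1 : a ≠ b) (h2 : D.col a = D.col b) :
    IsUnit (D.al (D.rt a b j)) := IsLocalization.map_units D.Om ⟨_, D.rt_mem j h1 h2⟩

theorem ee_mem (μ : Fin n → ℤ) : D.ee μ ∈ D.RS := by
  rw [ee_eq]
  refine prod_mem fun q hq => prod_mem fun j hj => D.rt_mem j ?_ (D.mem_Rt.1 hq)
  intro e
  rw [e, sub_self] at hj; simp at hj

theorem isUnit_ee (μ : Fin n → ℤ) : IsUnit (D.al (D.ee μ)) :=
  IsLocalization.map_units D.Om ⟨_, D.ee_mem μ⟩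

/-- shift on `Om` -/
def shO (μ : Fin n → ℤ) : D.Om →+* D.Om :=
  D.lift (D.al.comp (D.sh μ : Pol n R →+* Pol n R)) fun a b j h1 h2 => by
    simpa [sh_rt] using D.isUnit_rt _ h1 h2

theorem shO_al (μ : Fin n → ℤ) (f : Pol n R) : D.shO μ (D.al f) = D.al (D.sh μ f) :=
  D.lift_al _ _ _

instance : MulSemiringAction D.Lat D.Om where
  smul γ f := D.shO (Multiplicative.toAdd γ) f
  one_smul f := by
    have : D.shO 0 = RingHom.id _ := D.om_ext fun f => by rw [shO_al, sh_zero']; rfl
    change D.shO 0 f = f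
    rw [this]; rfl
  mul_smul γ δ f := by
    have : ∀ μ ν, D.shO (μ + ν) = (D.shO μ).comp (D.shO ν) := fun μ ν =>
      D.om_ext fun f => by rw [RingHom.comp_apply, shO_al, shO_al, shO_al, sh_sh]
    change D.shO (Multiplicative.toAdd γ + Multiplicative.toAdd δ) f = _
    rw [this]; rfl
  smul_zero _ := map_zero (D.shO _)
  smul_add _ := map_add (D.shO _)
  smul_one _ := map_one (D.shO _)
  smul_mul _ := map_mul (D.shO _)

instance : D.Cmp D.Om := ⟨fun μ f => D.shO_al μ f⟩

/-- Weyl group action on `Om` -/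
def rn (w : stab D.col) : D.Om →+* D.Om :=
  D.lift (D.al.comp (rename w.1 : Pol n R →ₐ[R] Pol n R)) fun a b j h1 h2 => by
    simpa [rename_rt] using D.isUnit_rt j (w.1.injective.ne h1) (by rw [w.2, w.2, h2])

theorem rn_al (w : stab D.col) (f : Pol n R) : D.rn w (D.al f) = D.al (rename w.1 f) :=
  D.lift_al _ _ _

theorem rn_act (w : stab D.col) (μ : Fin n → ℤ) (c : D.Om) :
    D.rn w (D.act _ μ c) = D.act _ (μ ∘ w.1.symm) (D.rn w c) := by
  have : (D.rn w).comp (D.act _ μ) = (D.act _ (μ ∘ w.1.symm)).comp (D.rn w) :=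
    D.om_ext fun f => by simp only [RingHom.comp_apply, act_alg, rn_al, rename_sh]
  exact RingHom.congr_fun this c

theorem rn_rn (w w' : stab D.col) (c : D.Om) : D.rn w (D.rn w' c) = D.rn (w * w') c := by
  have : (D.rn w).comp (D.rn w') = D.rn (w * w') :=
    D.om_ext fun f => by simp only [RingHom.comp_apply, rn_al, rename_rename]; rfl
  exact RingHom.congr_fun this c

theorem rn_one (c : D.Om) : D.rn 1 c = c := by
  have : D.rn 1 = RingHom.id _ := D.om_ext fun f => by rw [rn_al]; simp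
  exact RingHom.congr_fun this c

/-- leading coefficient `mm μ / ee μ` -/
def cc (μ : Fin n → ℤ) : D.Om := D.al (D.mm μ) * Ring.inverse (D.al (D.ee μ))

theorem mon_om (μ : Fin n → ℤ) (g : Pol n R) : D.mon D.Om μ g = ∑ w : stab D.col,
    D.sg (μ ∘ w.1.symm) (D.al (rename w.1 g) * D.cc (μ ∘ w.1.symm)) := by
  rw [mon_eq]
  simp only [cc, map_mul, mul_assoc]

theorem rn_cc (w : stab D.col) (μ : Fin n → ℤ) : D.rn w (D.cc μ) = D.cc (μ ∘ w.1.symm) := by
  rw [cc, map_mul, map_inverse _ (D.isUnit_ee μ), rn_al, rn_al, rename_mm, rename_ee, cc]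

/-- how an operator acts on a polynomial -/
def app (x : D.Op D.Om) (f : Pol n R) : D.Om := ∑ μ ∈ D.sup x, D.co x μ * D.al (D.sh μ f)

/-- The three conditions: Weyl invariance, invariant polynomials go to polynomials,
divisibility by the matter factor. -/
structure Good (x : D.Op D.Om) : Prop where
  inv : ∀ (w : stab D.col) μ, D.co x (μ ∘ w.1.symm) = D.rn w (D.co x μ)
  pol : ∀ f ∈ Inv R D.col, ∃ p, D.app x f = D.al p
  dvd : ∀ μ, D.al (D.mm μ) ∣ D.co x μ

end QD

end Pool.Agent.Work.MP_849ab0_ag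
end
end

-- merged part: Pool.Agent.Work.MP_849ab0_ag.Laur
section
/-! Hahn series over a linearly ordered group: coefficient maps, supports, geometric series. -/

noncomputable section

set_option linter.unusedSectionVars false

namespace Pool.Agent.Work.MP_849ab0_ag

open MvPolynomial Finset

section General

variable {Γ F F' : Type} [AddCommGroup Γ] [LinearOrder Γ] [IsOrderedAddMonoid Γ]
  [CommRing F] [CommRing F']

/-- coefficientwise ring map -/
def hmap (Γ : Type) [AddCommGroup Γ] [LinearOrder Γ] [IsOrderedAddMonoid Γ] (ψ : F →+* F') :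
    HahnSeries Γ F →+* HahnSeries Γ F' where
  toFun x := x.map ψ
  map_one' := HahnSeries.map_one ψ.toMonoidWithZeroHom
  map_mul' _ _ := HahnSeries.map_mul (ψ : F →ₙ+* F')
  map_zero' := HahnSeries.map_zero (ψ : ZeroHom F F')
  map_add' _ _ := HahnSeries.map_add (ψ : F →+ F')

@[simp] theorem hmap_coeff (ψ : F →+* F') (x : HahnSeries Γ F) (γ : Γ) :
    (hmap Γ ψ x).coeff γ = ψ (x.coeff γ) := rfl

@[simp] theorem hmap_single (ψ : F →+* F') (γ : Γ) (c : F) :
    hmap Γ ψ (HahnSeries.single γ c) = HahnSeries.single γ (ψ c) :=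
  HahnSeries.map_single (ψ : ZeroHom F F')

@[simp] theorem hmap_C (ψ : F →+* F') (c : F) :
    hmap Γ ψ (HahnSeries.C c) = HahnSeries.C (ψ c) := hmap_single ψ 0 c

theorem coeff_C_mul' (c : F) (x : HahnSeries Γ F) (γ : Γ) :
    (HahnSeries.C c * x).coeff γ = c * x.coeff γ := by
  rw [HahnSeries.C_mul_eq_smul, HahnSeries.coeff_smul, smul_eq_mul]

theorem coeff_single_mul' (δ γ : Γ) (c : F) (x : HahnSeries Γ F) :
    (HahnSeries.single δ c * x).coeff γ = c * x.coeff (γ - δ) := by
  rw [← HahnSeries.coeff_single_mul_add (a := γ - δ) (b := δ), sub_add_cancel]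

theorem Laur_mul {x y : HahnSeries Γ F} {γ : Γ} (h : (x * y).coeff γ ≠ 0) :
    ∃ a b, x.coeff a ≠ 0 ∧ y.coeff b ≠ 0 ∧ a + b = γ :=
  let ⟨a, ha, b, hb, e⟩ := HahnSeries.support_mul_subset (x := x) (y := y) h
  ⟨a, b, ha, hb, e⟩

theorem Laur_add {x y : HahnSeries Γ F} {γ : Γ} (h : (x + y).coeff γ ≠ 0) :
    x.coeff γ ≠ 0 ∨ y.coeff γ ≠ 0 := by
  by_contra! hn
  exact h (by rw [HahnSeries.coeff_add, hn.1, hn.2, add_zero])

theorem Laur_single {γ δ : Γ} {c : F} (h : (HahnSeries.single γ c).coeff δ ≠ 0) : δ = γ :=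
  not_not.1 fun e => h (HahnSeries.coeff_single_of_ne e)

/-- series supported in a submonoid -/
def SR (F : Type) [CommRing F] (M : AddSubmonoid Γ) : Subring (HahnSeries Γ F) where
  carrier := {x | ∀ γ, x.coeff γ ≠ 0 → γ ∈ M}
  mul_mem' := fun hx hy γ h =>
    let ⟨a, b, ha, hb, e⟩ := Laur_mul h
    e ▸ M.add_mem (hx a ha) (hy b hb)
  one_mem' := fun γ h => Laur_single (γ := 0) h ▸ M.zero_mem
  add_mem' := fun hx hy γ h => (Laur_add h).elim (hx γ) (hy γ)
  zero_mem' := fun _ h => (h rfl).elim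
  neg_mem' := fun hx γ h => hx γ fun e => h (by rw [HahnSeries.coeff_neg, e, neg_zero])

theorem mem_SR {M : AddSubmonoid Γ} {x : HahnSeries Γ F} :
    x ∈ SR F M ↔ ∀ γ, x.coeff γ ≠ 0 → γ ∈ M := Iff.rfl

theorem single_mem_SR {M : AddSubmonoid Γ} {γ : Γ} (h : γ ∈ M) (c : F) :
    HahnSeries.single γ c ∈ SR F M := fun _ e => Laur_single e ▸ h

theorem C_mem_SR (M : AddSubmonoid Γ) (c : F) : HahnSeries.C c ∈ SR F M :=
  single_mem_SR M.zero_mem c

/-- `c` is smaller than `single (-e) 1` -/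
def Sm (e : Γ) (c : HahnSeries Γ F) : Prop := ∀ γ, c.coeff γ ≠ 0 → -e < γ

theorem Sm.add {e : Γ} {c d : HahnSeries Γ F} (hc : Sm e c) (hd : Sm e d) : Sm e (c + d) :=
  fun γ h => (Laur_add h).elim (hc γ) (hd γ)

theorem Sm.neg {e : Γ} {c : HahnSeries Γ F} (hc : Sm e c) : Sm e (-c) :=
  fun γ h => hc γ fun e => h (by rw [HahnSeries.coeff_neg, e, neg_zero])

theorem sm_single {e γ : Γ} (h : -e < γ) (c : F) : Sm e (HahnSeries.single γ c) :=
  fun _ e => Laur_single e ▸ h

theorem Sm.isUnit {e : Γ} {c : HahnSeries Γ F} (hc : Sm e c) {u : F} (hu : IsUnit u) :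
    IsUnit (HahnSeries.single (-e) u + c) := by
  obtain ⟨u, rfl⟩ := hu
  have h1 : HahnSeries.single (-e) (u : F) * HahnSeries.single e (↑u⁻¹ : F) = 1 := by
    rw [HahnSeries.single_mul_single, neg_add_cancel, u.mul_inv]
    rfl
  refine isUnit_of_mul_isUnit_left (y := HahnSeries.single e (↑u⁻¹ : F))
    (HahnSeries.isUnit_of_orderTop_pos ?_)
  rw [add_mul, h1, add_sub_cancel_left]
  by_cases h0 : c * HahnSeries.single e (↑u⁻¹ : F) = 0
  · simp [h0]
  obtain ⟨a, b, ha, hb, h2⟩ := Laur_mul (HahnSeries.coeff_order_eq_zero.not.2 h0)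
  refine HahnSeries.zero_lt_orderTop_of_order ?_
  rw [← h2, Laur_single hb]
  exact neg_lt_iff_pos_add.1 (hc a ha)

theorem Laur_rel {e : Γ} {c : HahnSeries Γ F} (hc : Sm e c) {u : F} (hu : IsUnit u) (γ : Γ) :
    u * (Ring.inverse (HahnSeries.single (-e) u + c)).coeff (γ + e) +
      (c * Ring.inverse (HahnSeries.single (-e) u + c)).coeff γ =
      (HahnSeries.single 0 (1 : F)).coeff γ := by
  have := congrArg (HahnSeries.coeff · γ) (Ring.mul_inverse_cancel _ (hc.isUnit hu))
  simp only [add_mul, HahnSeries.coeff_add, coeff_single_mul', sub_neg_eq_add] at this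
  exact this

/-- support of the geometric series -/
theorem Sm.supp_inverse {e : Γ} {c : HahnSeries Γ F} (hc : Sm e c) {u : F} (hu : IsUnit u)
    (M : AddSubmonoid Γ) (hM : ∀ γ, c.coeff γ ≠ 0 → γ + e ∈ M) (γ : Γ)
    (h : (Ring.inverse (HahnSeries.single (-e) u + c)).coeff γ ≠ 0) : γ - e ∈ M := by
  by_contra hn
  set G := Ring.inverse (HahnSeries.single (-e) u + c) with hG
  have hw : {g | G.coeff g ≠ 0 ∧ g - e ∉ M}.IsWF := G.isWF_support.subset fun g hg => hg.1
  have hne : {g | G.coeff g ≠ 0 ∧ g - e ∉ M}.Nonempty := ⟨γ, h, hn⟩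
  obtain ⟨h1, h2⟩ := hw.min_mem hne
  have h3 := Laur_rel hc hu (hw.min hne - e)
  rw [sub_add_cancel, ← hG] at h3
  by_cases h4 : (c * G).coeff (hw.min hne - e) = 0
  · rw [h4, add_zero] at h3
    exact h2 (Laur_single (h3 ▸ hu.mul_right_eq_zero.not.2 h1) ▸ M.zero_mem)
  obtain ⟨a, b, ha, hb, h5⟩ := Laur_mul h4
  have h6 : b - e ∈ M := not_not.1 fun k => hw.not_lt_min hne ⟨hb, k⟩ (by
    rw [eq_sub_iff_add_eq.1 h5 |>.symm, add_right_comm]
    exact lt_add_of_pos_left b (neg_lt_iff_pos_add.1 (hc a ha)))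
  refine h2 ?_
  rw [← h5, show a + b = a + e + (b - e) by abel]
  exact M.add_mem (hM a ha) h6

theorem Sm.coeff_inverse {e : Γ} {c : HahnSeries Γ F} (hc : Sm e c) :
    (Ring.inverse (HahnSeries.single (-e) 1 + c)).coeff e = 1 := by
  have h1 := Laur_rel hc isUnit_one 0
  rw [zero_add, one_mul, HahnSeries.coeff_single_same] at h1
  refine (left_eq_add.2 ?_).trans h1
  by_contra h
  obtain ⟨a, b, ha, hb, h2⟩ := Laur_mul h
  have h3 : 0 ≤ b - e := hc.supp_inverse isUnit_one (AddSubmonoid.nonneg Γ)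
    (fun γ hγ => (neg_lt_iff_pos_add.1 (hc γ hγ)).le) b hb
  exact (add_lt_add_of_lt_of_le (hc a ha) (sub_nonneg.1 h3)).ne ((neg_add_cancel e).trans h2.symm)

end General

section Laurent

variable {B B' : Type} [CommRing B] [CommRing B']

/-- Laurent series in the inverse of a large variable -/
abbrev LS (B : Type) [CommRing B] : Type := HahnSeries ℤ B

/-- the large variable -/
def lv (B : Type) [CommRing B] : LS B := HahnSeries.single (-1) 1

@[simp] theorem hmap_lv (ψ : B →+* B') : hmap ℤ ψ (lv B) = lv B' := by simp [lv]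

theorem Laur_sm (c : B) : Sm 1 (HahnSeries.C c : LS B) := sm_single (by norm_num) c

theorem isUnit_lv_add {u : B} (hu : IsUnit u) (c : B) :
    IsUnit (HahnSeries.C u * lv B + HahnSeries.C c) := by
  have := (Laur_sm c).isUnit hu
  rwa [lv, HahnSeries.C_apply u, HahnSeries.single_mul_single, zero_add, mul_one]

theorem isUnit_lv_add' (c : B) : IsUnit (lv B + HahnSeries.C c) := by
  simpa using isUnit_lv_add isUnit_one c

/-- all exponents are at least `m` -/
def Ge (m : ℤ) (x : LS B) : Prop := ∀ j, x.coeff j ≠ 0 → m ≤ j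

theorem exists_ge (x : LS B) : ∃ m, Ge m x := ⟨x.order, fun _ => HahnSeries.order_le_of_coeff_ne_zero⟩

theorem Ge.mono {m m' : ℤ} {x : LS B} (h : Ge m x) (hm : m' ≤ m) : Ge m' x :=
  fun j hj => hm.trans (h j hj)

theorem Ge.mul {m m' : ℤ} {x y : LS B} (hx : Ge m x) (hy : Ge m' y) : Ge (m + m') (x * y) :=
  fun _ h =>
    let ⟨a, b, ha, hb, e⟩ := Laur_mul h
    e ▸ add_le_add (hx a ha) (hy b hb)

theorem ge_C (c : B) : Ge 0 (HahnSeries.C c : LS B) := fun _ h => (Laur_single h).ge

theorem ge_lv_add (c : B) : Ge (-1) (lv B + HahnSeries.C c) := fun j h =>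
  (Laur_add h).elim (fun k => (Laur_single k).ge) fun k => (Laur_sm c j k).le

theorem ge_inverse (c : B) : Ge 1 (Ring.inverse (lv B + HahnSeries.C c)) := fun j h =>
  sub_nonneg.1 ((Laur_sm c).supp_inverse isUnit_one (AddSubmonoid.nonneg ℤ)
    (fun γ hγ => (neg_lt_iff_pos_add.1 (Laur_sm c γ hγ)).le) j h)

theorem coeff_inverse_lv (c : B) : (Ring.inverse (lv B + HahnSeries.C c)).coeff 1 = 1 :=
  (Laur_sm c).coeff_inverse

/-- integer powers through `Ring.inverse` -/
def pw (x : B) (j : ℤ) : B := x ^ j.toNat * Ring.inverse x ^ (-j).toNat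

theorem pw_zero (x : B) : pw x 0 = 1 := by simp [pw]

theorem pw_succ {x : B} (hx : IsUnit x) (j : ℤ) : pw x (j + 1) = pw x j * x := by
  rcases le_or_gt 0 j with h | h
  · rw [pw, pw, show (j + 1).toNat = j.toNat + 1 by omega,
      show (-(j + 1)).toNat = (-j).toNat by omega]
    ring
  · rw [pw, pw, show (j + 1).toNat = j.toNat by omega,
      show (-j).toNat = (-(j + 1)).toNat + 1 by omega, pow_succ, mul_assoc, mul_assoc,
      Ring.inverse_mul_cancel _ hx, mul_one]

theorem map_pw (ψ : B →+* B') {x : B} (hx : IsUnit x) (j : ℤ) : ψ (pw x j) = pw (ψ x) j := by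
  rw [pw, pw, map_mul, map_pow, map_pow, map_inverse ψ hx]

theorem pw_lv (j : ℤ) : pw (lv B) j = HahnSeries.single (-j) 1 := by
  have h : Ring.inverse (lv B) = HahnSeries.single 1 1 := by
    rw [← one_mul (Ring.inverse _), eq_comm,
      Ring.eq_mul_inverse_iff_mul_eq _ _ _ (by simpa using isUnit_lv_add' (0 : B)), lv,
      HahnSeries.single_mul_single, add_neg_cancel, mul_one]
    rfl
  rw [pw, h, lv, HahnSeries.single_pow, HahnSeries.single_pow, HahnSeries.single_mul_single,
    one_pow, one_pow, mul_one]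
  congr 2
  simp only [nsmul_eq_mul]
  omega

theorem coeff_pw_mul (j i : ℤ) (x : LS B) : (pw (lv B) j * x).coeff i = x.coeff (i + j) := by
  rw [pw_lv, coeff_single_mul', one_mul, sub_neg_eq_add]

theorem Laur_pow {m : ℤ} {x : LS B} (h : Ge m x) (n : ℕ) : Ge (n * m) (x ^ n) := by
  induction n with
  | zero => simpa using ge_C (1 : B)
  | succ n ih =>
    rw [pow_succ]
    exact (ih.mul h).mono (by push_cast; linarith)

theorem ge_pw (c : B) (j : ℤ) : Ge (-j) (pw (lv B + HahnSeries.C c) j) :=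
  ((Laur_pow (ge_lv_add c) _).mul (Laur_pow (ge_inverse c) _)).mono (by omega)

/-- series with coefficients in a subring -/
def CoefIn (S : Subring B) : Subring (LS B) := (hmap ℤ S.subtype).range

theorem CoefIn.coeff_mem {S : Subring B} {x : LS B} (hx : x ∈ CoefIn S) (j : ℤ) :
    x.coeff j ∈ S := by
  obtain ⟨y, rfl⟩ := hx
  exact (y.coeff j).2

theorem C_mem_CoefIn {S : Subring B} {c : B} (hc : c ∈ S) : HahnSeries.C c ∈ CoefIn S :=
  ⟨HahnSeries.C ⟨c, hc⟩, hmap_C _ _⟩

theorem lv_mem_CoefIn (S : Subring B) : lv B ∈ CoefIn S := ⟨lv S, hmap_lv _⟩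

theorem mem_CoefIn_of_coeff {S : Subring B} {x : LS B} (hx : ∀ j, x.coeff j ∈ S) :
    x ∈ CoefIn S :=
  ⟨⟨fun j => ⟨x.coeff j, hx j⟩, x.isPWO_support'.mono fun _ h e => h (Subtype.ext e)⟩, rfl⟩

theorem inverse_mem_CoefIn {S : Subring B} {u u' c : B} (hu : u ∈ S) (hu' : u' ∈ S)
    (h : u * u' = 1) (hc : c ∈ S) :
    Ring.inverse (HahnSeries.C u * lv B + HahnSeries.C c) ∈ CoefIn S := by
  refine ⟨Ring.inverse (HahnSeries.C ⟨u, hu⟩ * lv S + HahnSeries.C ⟨c, hc⟩), ?_⟩
  rw [map_inverse _ (isUnit_lv_add (.of_mul_eq_one ⟨u', hu'⟩ (Subtype.ext h)) _), map_add, map_mul,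
    hmap_C, hmap_C, hmap_lv]
  rfl

end Laurent

end Pool.Agent.Work.MP_849ab0_ag
end
end

-- merged part: Pool.Agent.Work.MP_849ab0_ag.Hahn
section
/-! Expansions of linear forms in iterated Laurent series; the iterated residue. -/

noncomputable section

set_option linter.unusedSectionVars false

namespace Pool.Agent.Work.MP_849ab0_ag

open MvPolynomial Finset

variable {n : ℕ} {R F F' : Type} [CommRing R] [CommRing F] [CommRing F']

@[simp] theorem expand_X (φ : R →+* F) (π : Equiv.Perm (Fin n)) (a : Fin n) :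
    expand φ π (X a) = vv F (π a) := by simp [expand]

@[simp] theorem expand_C (φ : R →+* F) (π : Equiv.Perm (Fin n)) (r : R) :
    expand φ π (C r) = HahnSeries.C (φ r) := by simp [expand]

theorem hmap_expand (φ : R →+* F) (ψ : F →+* F') (π : Equiv.Perm (Fin n)) (f : Pol n R) :
    hmap (Gam n) ψ (expand φ π f) = expand (ψ.comp φ) π f := by
  induction f using MvPolynomial.induction_on with
  | C r => simp
  | add p q hp hq => simp only [map_add, hp, hq]
  | mul_X p a hp => simp [hp, vv]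

theorem expand_map {R' : Type} [CommRing R'] (χ : R →+* R') (φ : R' →+* F)
    (π : Equiv.Perm (Fin n)) (f : Pol n R) :
    expand φ π (MvPolynomial.map χ f) = expand (φ.comp χ) π f := by
  induction f using MvPolynomial.induction_on with
  | C r => simp
  | add p q hp hq => simp only [map_add, hp, hq]
  | mul_X p a hp => simp [hp]

theorem expand_rename (φ : R →+* F) (π w : Equiv.Perm (Fin n)) (f : Pol n R) :
    expand φ π (rename w f) = expand φ (π * w) f := by
  induction f using MvPolynomial.induction_on with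
  | C r => simp
  | add p q hp hq => simp only [map_add, hp, hq]
  | mul_X p a hp => simp [hp]

/-- exponents read through an order of the variables -/
def Hahn_t (π : Equiv.Perm (Fin n)) : (Fin n → ℤ) ≃+ Gam n where
  toFun γ := toLex (γ ∘ π.symm)
  invFun δ := ofLex δ ∘ π
  left_inv γ := by funext i; simp
  right_inv δ := by funext i; simp
  map_add' _ _ := rfl

theorem Hahn_t_single (π : Equiv.Perm (Fin n)) (a : Fin n) :
    Hahn_t π (Pi.single a 1) = toLex (Pi.single (π a) 1) := by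
  funext i
  show (Pi.single a 1 : Fin n → ℤ) (π.symm i) = (Pi.single (π a) 1 : Fin n → ℤ) i
  simp only [Pi.single_apply, Equiv.symm_apply_eq]

theorem Hahn_vv (π : Equiv.Perm (Fin n)) (a : Fin n) :
    vv F (π a) = HahnSeries.single (Hahn_t π (-Pi.single a 1)) 1 := by
  rw [map_neg, Hahn_t_single]; rfl

theorem Hahn_monomial (φ : R →+* F) (π : Equiv.Perm (Fin n)) (m : Fin n →₀ ℕ) (r : R) :
    expand φ π (monomial m r) = HahnSeries.single (Hahn_t π fun i => -(m i : ℤ)) (φ r) := by
  induction m using Finsupp.induction_linear generalizing r with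
  | zero =>
    have e : (fun i => -((0 : Fin n →₀ ℕ) i : ℤ)) = 0 := by funext i; simp
    rw [e, map_zero, ← C_apply, expand_C]; rfl
  | add m m' h h' =>
    have e : (fun i => -((m + m') i : ℤ)) = (fun i => -(m i : ℤ)) + fun i => -(m' i : ℤ) := by
      funext i
      simp [add_comm]
    rw [← mul_one r, ← monomial_mul, map_mul, h, h', HahnSeries.single_mul_single, ← map_add,
      ← map_mul, e]
  | single a j =>
    have e : (fun i => -((Finsupp.single a j) i : ℤ)) = j • (-Pi.single a 1 : Fin n → ℤ) := by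
      funext i
      by_cases h : i = a
      · subst h; simp
      · simp [h]
    rw [← C_mul_X_pow_eq_monomial, map_mul, map_pow, expand_C, expand_X, Hahn_vv,
      HahnSeries.single_pow, HahnSeries.C_apply, HahnSeries.single_mul_single, one_pow, mul_one,
      zero_add, ← map_nsmul, e]

theorem Hahn_coeff (φ : R →+* F) (π : Equiv.Perm (Fin n)) (m : Fin n →₀ ℕ) (f : Pol n R) :
    (expand φ π f).coeff (Hahn_t π fun i => -(m i : ℤ)) = φ (coeff m f) := by
  classical
  induction f using MvPolynomial.induction_on' with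
  | monomial m' r =>
    rw [Hahn_monomial, coeff_monomial, HahnSeries.coeff_single]
    by_cases h : m' = m
    · simp [h]
    · rw [if_neg h, map_zero, if_neg fun e => h ?_]
      ext i
      simpa using (congrFun ((Hahn_t π).injective e) i).symm
  | add p q hp hq => rw [map_add, HahnSeries.coeff_add, hp, hq, coeff_add, map_add]

theorem expand_injective {φ : R →+* F} (hφ : Function.Injective φ) (π : Equiv.Perm (Fin n)) :
    Function.Injective (expand φ π) := fun f g h =>
  MvPolynomial.ext _ _ fun m => hφ (by rw [← Hahn_coeff φ π, ← Hahn_coeff φ π, h])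

/-- only nonnegative powers of the variable number `i` -/
def PP (F : Type) [CommRing F] (i : Fin n) : Subring (HahnSeries (Gam n) F) :=
  SR F
    { carrier := {γ | ofLex γ i ≤ 0}
      add_mem' := fun {a b} ha hb =>
        show ofLex a i + ofLex b i ≤ 0 from add_nonpos (a := ofLex a i) ha hb
      zero_mem' := le_refl (0 : ℤ) }

theorem PP.coeff_one {i : Fin n} {x : HahnSeries (Gam n) F} (hx : x ∈ PP F i) :
    x.coeff (toLex fun _ => 1) = 0 := by
  by_contra h
  exact absurd (show (1 : ℤ) ≤ 0 from hx _ h) (by decide)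

theorem expand_mem_PP (φ : R →+* F) (π : Equiv.Perm (Fin n)) (i : Fin n) (f : Pol n R) :
    expand φ π f ∈ PP F i := by
  induction f using MvPolynomial.induction_on with
  | C r => rw [expand_C]; exact C_mem_SR _ _
  | add p q hp hq => rw [map_add]; exact add_mem hp hq
  | mul_X p a hp =>
    rw [map_mul, expand_X]
    refine mul_mem hp (single_mem_SR ?_ _)
    show -(Pi.single (π a) 1 : Fin n → ℤ) i ≤ 0
    rw [Pi.single_apply]
    split_ifs <;> simp

/-- `l` is a linear form with leading variable `a` for the order `π` -/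
def Fm (π : Equiv.Perm (Fin n)) (a : Fin n) (l : Pol n R) : Prop :=
  ∃ o r, outer π (some a) o ∧ (l = X a - xv o + C r ∨ l = -(X a - xv o + C r))

/-- the lower terms of a linear form -/
def Hahn_c (φ : R →+* F) (π : Equiv.Perm (Fin n)) (o : Option (Fin n)) (r : R) :
    HahnSeries (Gam n) F := -expand φ π (xv o) + HahnSeries.C (φ r)

theorem Hahn_form (φ : R →+* F) (π : Equiv.Perm (Fin n)) (a : Fin n) (o : Option (Fin n)) (r : R) :
    expand φ π (X a - xv o + C r) =
      HahnSeries.single (-toLex (Pi.single (π a) 1)) 1 + Hahn_c φ π o r := by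
  rw [map_add, map_sub, expand_X, expand_C, Hahn_c, sub_eq_add_neg, add_assoc]; rfl

theorem Hahn_c_supp {φ : R →+* F} {π : Equiv.Perm (Fin n)} {o : Option (Fin n)} {r : R}
    {γ : Gam n} (h : (Hahn_c φ π o r).coeff γ ≠ 0) :
    γ = 0 ∨ ∃ b, o = some b ∧ γ = -toLex (Pi.single (π b) 1) := by
  by_contra k
  push Not at k
  refine h ?_
  rw [Hahn_c, HahnSeries.coeff_add, HahnSeries.coeff_neg, HahnSeries.C_apply,
    HahnSeries.coeff_single_of_ne k.1, add_zero, neg_eq_zero]
  cases o with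
  | none => simp
  | some b => rw [xv_some, expand_X]; exact HahnSeries.coeff_single_of_ne (k.2 b rfl)

theorem Hahn_sm (φ : R →+* F) {π : Equiv.Perm (Fin n)} {a : Fin n} {o : Option (Fin n)}
    (ho : outer π (some a) o) (r : R) : Sm (toLex (Pi.single (π a) 1)) (Hahn_c φ π o r) := by
  intro γ h
  rcases Hahn_c_supp h with rfl | ⟨b, rfl, rfl⟩
  · refine ⟨π a, fun j hj => ?_, ?_⟩
    · show -(Pi.single (π a) 1 : Fin n → ℤ) j = 0
      rw [Pi.single_eq_of_ne hj.ne, neg_zero]
    · show -(Pi.single (π a) 1 : Fin n → ℤ) (π a) < 0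
      simp
  · have hab : π a < π b := ho
    refine ⟨π a, fun j hj => ?_, ?_⟩
    · show -(Pi.single (π a) 1 : Fin n → ℤ) j = -(Pi.single (π b) 1 : Fin n → ℤ) j
      rw [Pi.single_eq_of_ne hj.ne, Pi.single_eq_of_ne (hj.trans hab).ne]
    · show -(Pi.single (π a) 1 : Fin n → ℤ) (π a) < -(Pi.single (π b) 1 : Fin n → ℤ) (π a)
      rw [Pi.single_eq_of_ne hab.ne]
      simp

theorem Hahn_unit (φ : R →+* F) {π : Equiv.Perm (Fin n)} {a : Fin n} {o : Option (Fin n)}
    (ho : outer π (some a) o) (r : R) : IsUnit (expand φ π (X a - xv o + C r)) := by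
  rw [Hahn_form]
  exact (Hahn_sm φ ho r).isUnit isUnit_one

theorem Hahn_supp (φ : R →+* F) {π : Equiv.Perm (Fin n)} {a : Fin n} {o : Option (Fin n)}
    (ho : outer π (some a) o) (r : R) (M : AddSubmonoid (Gam n))
    (ha : toLex (Pi.single (π a) 1) ∈ M)
    (hb : ∀ b, o = some b → toLex (Pi.single (π a) 1 - Pi.single (π b) 1) ∈ M) {γ : Gam n}
    (h : (Ring.inverse (expand φ π (X a - xv o + C r))).coeff γ ≠ 0) :
    γ - toLex (Pi.single (π a) 1) ∈ M := by
  rw [Hahn_form] at h
  refine (Hahn_sm φ ho r).supp_inverse isUnit_one M (fun δ hδ => ?_) γ h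
  rcases Hahn_c_supp hδ with rfl | ⟨b, hb', rfl⟩
  · rwa [zero_add]
  · rw [neg_add_eq_sub]
    exact hb b hb'

theorem Fm.isUnit {π : Equiv.Perm (Fin n)} {a : Fin n} {l : Pol n R} (h : Fm π a l)
    (φ : R →+* F) : IsUnit (expand φ π l) := by
  obtain ⟨o, r, ho, rfl | rfl⟩ := h
  · exact Hahn_unit φ ho r
  · rw [map_neg]
    exact (Hahn_unit φ ho r).neg

theorem Fm.inv_mem {π : Equiv.Perm (Fin n)} {a b : Fin n} {l : Pol n R} (h : Fm π a l)
    (φ : R →+* F) (hb : b ≠ a) : Ring.inverse (expand φ π l) ∈ PP F (π b) := by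
  obtain ⟨o, r, ho, h⟩ := h
  have e : (Pi.single (π a) 1 : Fin n → ℤ) (π b) = 0 := Pi.single_eq_of_ne (π.injective.ne hb) _
  have key : Ring.inverse (expand φ π (X a - xv o + C r)) ∈ PP F (π b) := fun γ hγ => by
    have := Hahn_supp φ ho r (M :=
      { carrier := {γ | ofLex γ (π b) ≤ 0}
        add_mem' := fun {x y} hx hy =>
          show ofLex x (π b) + ofLex y (π b) ≤ 0 from add_nonpos (a := ofLex x (π b)) hx hy
        zero_mem' := le_refl (0 : ℤ) }) e.le (fun c _ => by
      show (Pi.single (π a) 1 : Fin n → ℤ) (π b) - (Pi.single (π c) 1 : Fin n → ℤ) (π b) ≤ 0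
      rw [e, Pi.single_apply]
      split_ifs <;> simp) hγ
    have h2 : ofLex γ (π b) - (Pi.single (π a) 1 : Fin n → ℤ) (π b) ≤ 0 := this
    rwa [e, sub_zero] at h2
  rcases h with rfl | rfl
  · exact key
  · rw [map_neg, inverse_neg']
    exact neg_mem key

/-- the inverse involves only the variables of `S` -/
theorem inv_mem_SR (φ : R →+* F) (π : Equiv.Perm (Fin n)) {a : Fin n} {o : Option (Fin n)}
    (ho : outer π (some a) o) (r : R) (M : AddSubmonoid (Gam n))
    (ha : toLex (Pi.single (π a) 1) ∈ M)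
    (hb : ∀ b, o = some b → toLex (Pi.single (π a) 1 - Pi.single (π b) 1) ∈ M) :
    Ring.inverse (expand φ π (X a - xv o + C r)) ∈ SR F M := fun γ hγ => by
  simpa using M.add_mem (Hahn_supp φ ho r M ha hb hγ) ha

theorem Hahn_mul (τ : Gam n ≃+ Gam n) {x y x' y' : HahnSeries (Gam n) F}
    (hx : ∀ δ, x.coeff δ = x'.coeff (τ δ)) (hy : ∀ δ, y.coeff δ = y'.coeff (τ δ)) (δ : Gam n) :
    (x * y).coeff δ = (x' * y').coeff (τ δ) := by
  rw [HahnSeries.coeff_mul, HahnSeries.coeff_mul]
  refine sum_equiv (τ.toEquiv.prodCongr τ.toEquiv) (fun q => ?_) fun q _ => by simp [hx, hy]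
  simp [hx, hy, ← map_add]

theorem Hahn_single (π π' : Equiv.Perm (Fin n)) (γ₀ γ : Fin n → ℤ) (c : F) :
    (HahnSeries.single (Hahn_t π γ₀) c).coeff (Hahn_t π γ) =
      (HahnSeries.single (Hahn_t π' γ₀) c).coeff (Hahn_t π' γ) := by
  by_cases h : γ = γ₀
  · rw [h, HahnSeries.coeff_single_same, HahnSeries.coeff_single_same]
  · rw [HahnSeries.coeff_single_of_ne ((Hahn_t π).injective.ne h),
      HahnSeries.coeff_single_of_ne ((Hahn_t π').injective.ne h)]

/-- pairs of series with the same coefficients, read through two orders -/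
def Rel (F : Type) [CommRing F] (π π' : Equiv.Perm (Fin n)) :
    Subring (HahnSeries (Gam n) F × HahnSeries (Gam n) F) where
  carrier := {x | ∀ γ : Fin n → ℤ,
    x.1.coeff (toLex (γ ∘ π.symm)) = x.2.coeff (toLex (γ ∘ π'.symm))}
  mul_mem' := fun {x y} hx hy γ => by
    have k : ∀ {z : HahnSeries (Gam n) F × HahnSeries (Gam n) F},
        (∀ γ, z.1.coeff (Hahn_t π γ) = z.2.coeff (Hahn_t π' γ)) →
        ∀ δ, z.1.coeff δ = z.2.coeff (((Hahn_t π).symm.trans (Hahn_t π')) δ) := fun h δ => by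
      simpa using h ((Hahn_t π).symm δ)
    have := Hahn_mul _ (k hx) (k hy) (Hahn_t π γ)
    rwa [AddEquiv.trans_apply, AddEquiv.symm_apply_apply] at this
  one_mem' := fun γ => Hahn_single π π' 0 γ 1
  add_mem' := fun {x y} hx hy γ => by
    rw [Prod.fst_add, Prod.snd_add, HahnSeries.coeff_add, HahnSeries.coeff_add, hx γ, hy γ]
  zero_mem' := fun _ => rfl
  neg_mem' := fun {x} hx γ => by
    rw [Prod.fst_neg, Prod.snd_neg, HahnSeries.coeff_neg, HahnSeries.coeff_neg, hx γ]

theorem Rel.coeff_one {π π' : Equiv.Perm (Fin n)} {x y : HahnSeries (Gam n) F}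
    (h : (x, y) ∈ Rel F π π') : x.coeff (toLex fun _ => 1) = y.coeff (toLex fun _ => 1) :=
  h fun _ => 1

theorem expand_mem_Rel (φ : R →+* F) (π π' : Equiv.Perm (Fin n)) (f : Pol n R) :
    (expand φ π f, expand φ π' f) ∈ Rel F π π' := by
  induction f using MvPolynomial.induction_on' with
  | monomial m r =>
    rw [Hahn_monomial, Hahn_monomial]
    exact fun γ => Hahn_single π π' _ γ _
  | add p q hp hq => rw [map_add, map_add]; exact add_mem hp hq

theorem Hahn_rec (φ : R →+* F) {π : Equiv.Perm (Fin n)} {a : Fin n} {o : Option (Fin n)}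
    (ho : outer π (some a) o) (r : R) (g : (Fin n → ℤ) → F)
    (hg : ∀ γ, g γ = (Ring.inverse (expand φ π (X a - xv o + C r))).coeff (Hahn_t π γ)) :
    (∀ γ, γ a ≤ 0 → g γ = 0) ∧ ∀ γ, g (γ + Pi.single a 1) = (if γ = 0 then 1 else 0) +
      o.elim 0 (fun b => g (γ + Pi.single b 1)) - φ r * g γ := by
  refine ⟨fun γ hγ => not_not.1 fun h => ?_, fun γ => ?_⟩
  · rw [hg] at h
    have := Hahn_supp φ ho r (M :=
      { carrier := {γ | 0 ≤ ofLex γ (π a)}
        add_mem' := fun {x y} hx hy =>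
          show 0 ≤ ofLex x (π a) + ofLex y (π a) from add_nonneg (a := ofLex x (π a)) hx hy
        zero_mem' := le_refl (0 : ℤ) })
      (show 0 ≤ (Pi.single (π a) 1 : Fin n → ℤ) (π a) by simp) (fun c _ => by
        show 0 ≤ (Pi.single (π a) 1 : Fin n → ℤ) (π a) - (Pi.single (π c) 1 : Fin n → ℤ) (π a)
        rw [Pi.single_eq_same, Pi.single_apply]
        split_ifs <;> simp) h
    have h2 : 0 ≤ γ (π.symm (π a)) - (Pi.single (π a) 1 : Fin n → ℤ) (π a) := this
    rw [Pi.single_eq_same, Equiv.symm_apply_apply] at h2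
    omega
  · have e1 : (1 : HahnSeries (Gam n) F).coeff (Hahn_t π γ) = if γ = 0 then 1 else 0 := by
      simp [HahnSeries.coeff_one]
    have e2 : ∀ b, (vv F (π b) * Ring.inverse (expand φ π (X a - xv o + C r))).coeff
        (Hahn_t π γ) = g (γ + Pi.single b 1) := fun b => by
      rw [Hahn_vv, coeff_single_mul', one_mul, ← map_sub, sub_neg_eq_add, hg]
    have h := Ring.mul_inverse_cancel _ (Hahn_unit φ ho r)
    generalize Ring.inverse (expand φ π (X a - xv o + C r)) = G at h e2 hg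
    rw [map_add, map_sub, expand_X, expand_C, add_mul, sub_mul] at h
    rw [← e1, ← h, HahnSeries.coeff_add, HahnSeries.coeff_sub, coeff_C_mul', e2, ← hg]
    cases o with
    | none => simp
    | some b => rw [xv_some, expand_X, e2, Option.elim_some]; ring

theorem Hahn_uniq {a : Fin n} {o : Option (Fin n)} (ho : o ≠ some a) {c : F}
    {g g' : (Fin n → ℤ) → F}
    (h : (∀ γ, γ a ≤ 0 → g γ = 0) ∧ ∀ γ, g (γ + Pi.single a 1) = (if γ = 0 then 1 else 0) +
      o.elim 0 (fun b => g (γ + Pi.single b 1)) - c * g γ)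
    (h' : (∀ γ, γ a ≤ 0 → g' γ = 0) ∧ ∀ γ, g' (γ + Pi.single a 1) = (if γ = 0 then 1 else 0) +
      o.elim 0 (fun b => g' (γ + Pi.single b 1)) - c * g' γ) (γ : Fin n → ℤ) : g γ = g' γ := by
  have key : ∀ (m : ℕ) (γ : Fin n → ℤ), γ a ≤ m → g γ = g' γ := by
    intro m
    induction m with
    | zero => exact fun γ hγ => (h.1 γ hγ).trans (h'.1 γ hγ).symm
    | succ m ih =>
      intro γ hγ
      obtain ⟨δ, rfl⟩ : ∃ δ, γ = δ + Pi.single a 1 := ⟨γ - Pi.single a 1, by simp⟩
      have hδ : δ a ≤ m := by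
        simp only [Pi.add_apply, Pi.single_eq_same] at hγ
        omega
      rw [h.2, h'.2, ih δ hδ]
      cases o with
      | none => rfl
      | some b =>
        have hab : a ≠ b := fun e => ho (by rw [e])
        simp only [Option.elim_some]
        rw [ih (δ + Pi.single b 1) (by rwa [Pi.add_apply, Pi.single_eq_of_ne hab, add_zero])]
  exact key (γ a).toNat γ (Int.self_le_toNat _)

theorem inv_mem_Rel (φ : R →+* F) {π π' : Equiv.Perm (Fin n)} {a : Fin n} {o : Option (Fin n)}
    (h : outer π (some a) o) (h' : outer π' (some a) o) (r : R) :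
    (Ring.inverse (expand φ π (X a - xv o + C r)), Ring.inverse (expand φ π' (X a - xv o + C r)))
      ∈ Rel F π π' := fun γ =>
  Hahn_uniq (by rintro rfl; exact lt_irrefl (π a) h)
    (Hahn_rec φ h r
      (fun γ => (Ring.inverse (expand φ π (X a - xv o + C r))).coeff (Hahn_t π γ)) fun _ => rfl)
    (Hahn_rec φ h' r
      (fun γ => (Ring.inverse (expand φ π' (X a - xv o + C r))).coeff (Hahn_t π' γ)) fun _ => rfl) γ

namespace QD

variable {k : ℕ} {E : Type} [Fintype E] (D : QD k n E R)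

theorem fm_rt (π : Equiv.Perm (Fin n)) {a b : Fin n} (h : π a < π b) (j : ℤ) :
    Fm π a (D.rt a b j) ∧ Fm π a (D.rt b a j) :=
  ⟨⟨some b, j * D.h, h, Or.inl (by simp [rt])⟩,
    ⟨some b, -(j * D.h), h, Or.inr (by simp [rt]; ring)⟩⟩

theorem isUnit_expand_rt (φ : R →+* F) (π : Equiv.Perm (Fin n)) {a b : Fin n} (h : a ≠ b)
    (j : ℤ) : IsUnit (expand φ π (D.rt a b j)) := by
  rcases lt_or_gt_of_ne (π.injective.ne h) with k | k
  · exact (D.fm_rt π k j).1.isUnit φ
  · exact (D.fm_rt π k j).2.isUnit φ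

theorem wt_cases (hl : D.NL) (π : Equiv.Perm (Fin n)) {p : E × Option (Fin n) × Option (Fin n)}
    (hp : p ∈ D.Wt) : (∃ a, p.2.1 = some a ∧ outer π p.2.1 p.2.2) ∨
      (∃ b, p.2.2 = some b ∧ outer π p.2.2 p.2.1 ∧ ¬ outer π p.2.1 p.2.2) := by
  obtain ⟨e, o, o'⟩ := p
  obtain ⟨h1, h2⟩ := D.mem_Wt.1 hp
  have hne : o ≠ o' := fun k => hl e (by rw [← h1, ← h2, k])
  rcases o with _ | a <;> rcases o' with _ | b
  · exact (hne rfl).elim
  · exact Or.inr ⟨b, rfl, trivial, id⟩
  · exact Or.inl ⟨a, rfl, trivial⟩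
  · rcases lt_or_gt_of_ne (π.injective.ne fun k : a = b => hne (congrArg some k)) with k | k
    · exact Or.inl ⟨a, rfl, k⟩
    · exact Or.inr ⟨b, rfl, k, not_lt.2 k.le⟩

theorem chi_src {p : E × Option (Fin n) × Option (Fin n)} {a : Fin n} (h : p.2.1 = some a)
    (r : R) : D.chi p + C r = -(X a - xv p.2.2 + C (-(D.t p.1 + r))) := by
  simp only [chi, h, xv_some, map_neg, map_add]; ring

theorem chi_tgt {p : E × Option (Fin n) × Option (Fin n)} {b : Fin n} (h : p.2.2 = some b)
    (r : R) : D.chi p + C r = X b - xv p.2.1 + C (D.t p.1 + r) := by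
  simp only [chi, h, xv_some, map_add]; ring

theorem isUnit_expand_chi (hl : D.NL) (φ : R →+* F) (π : Equiv.Perm (Fin n))
    {p : E × Option (Fin n) × Option (Fin n)} (hp : p ∈ D.Wt) (r : R) :
    IsUnit (expand φ π (D.chi p + C r)) := by
  rcases D.wt_cases hl π hp with ⟨a, h1, h2⟩ | ⟨b, h1, h2, -⟩
  · exact Fm.isUnit ⟨_, _, h1 ▸ h2, Or.inr (D.chi_src h1 r)⟩ φ
  · exact Fm.isUnit ⟨_, _, h1 ▸ h2, Or.inl (D.chi_tgt h1 r)⟩ φ

theorem isUnit_expand_den (hl : D.NL) (φ : R →+* F) (π : Equiv.Perm (Fin n)) :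
    IsUnit (expand φ π (∏ p ∈ D.Wt, D.den π p)) := by
  rw [map_prod]
  refine IsUnit.prod_iff.2 fun p hp => ?_
  unfold den
  split_ifs
  · simpa using D.isUnit_expand_chi hl φ π hp 0
  · rw [sub_eq_add_neg, ← C_neg]
    exact D.isUnit_expand_chi hl φ π hp _

theorem res_add (φ : R →+* F) (π : Equiv.Perm (Fin n)) (f g : Pol n R) :
    D.res φ π (f + g) = D.res φ π f + D.res φ π g := by
  simp only [res, add_mul, map_add, HahnSeries.coeff_add]

theorem res_C_mul (φ : R →+* F) (π : Equiv.Perm (Fin n)) (r : R) (f : Pol n R) :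
    D.res φ π (C r * f) = φ r * D.res φ π f := by
  rw [res, res, mul_assoc, map_mul, expand_C, mul_assoc, coeff_C_mul']

theorem res_sum {ι : Type} (s : Finset ι) (φ : R →+* F) (π : Equiv.Perm (Fin n))
    (f : ι → Pol n R) : D.res φ π (∑ i ∈ s, f i) = ∑ i ∈ s, D.res φ π (f i) := by
  classical
  induction s using Finset.induction_on with
  | empty => simp [res]
  | insert i s hi ih => rw [sum_insert hi, sum_insert hi, res_add, ih]

theorem res_map (hl : D.NL) (φ : R →+* F) (ψ : F →+* F') (π : Equiv.Perm (Fin n)) (f : Pol n R) :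
    ψ (D.res φ π f) = D.res (ψ.comp φ) π f := by
  rw [res, res, ← hmap_coeff, map_mul, map_inverse _ (D.isUnit_expand_den hl φ π), hmap_expand,
    hmap_expand]

theorem res_base {R' : Type} [CommRing R'] (χ : R →+* R') (φ : R' →+* F)
    (π : Equiv.Perm (Fin n)) (f : Pol n R) :
    (D.map χ).res φ π (MvPolynomial.map χ f) = D.res (φ.comp χ) π f := by
  have e : ∏ p ∈ (D.map χ).Wt, (D.map χ).den π p = MvPolynomial.map χ (∏ p ∈ D.Wt, D.den π p) := by
    rw [map_prod]
    exact prod_congr rfl fun p _ => (D.map_den χ π p).symm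
  rw [res, res, e, ← map_num, ← map_mul, expand_map, expand_map]

/-- product of all roots -/
def NUM : Pol n R := ∏ q ∈ D.Rt with q.1 ≠ q.2, (X q.1 - X q.2)

theorem num_eq (hh : D.h = 0) (π : Equiv.Perm (Fin n)) : D.num π = D.NUM := by
  rw [num, NUM, ← prod_filter_mul_prod_filter_not (D.Rt.filter fun q => q.1 ≠ q.2)
    (fun q => π q.1 < π q.2), filter_filter, filter_filter, prod_mul_distrib, hh]
  congr 1
  · refine prod_congr (filter_congr fun q _ => ⟨fun h => ⟨fun e => ?_, h⟩, fun h => h.2⟩)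
      fun _ _ => rfl
    rw [e] at h
    exact lt_irrefl _ h
  · refine prod_equiv (Equiv.prodComm _ _) (fun q => ?_) fun q _ => by simp
    simp only [mem_filter, mem_Rt, Equiv.prodComm_apply, Prod.fst_swap, Prod.snd_swap]
    refine and_congr eq_comm ⟨fun h => ⟨fun e => ?_, not_lt.2 h.le⟩, fun h => ?_⟩
    · rw [e] at h
      exact lt_irrefl _ h
    · exact lt_of_le_of_ne (not_lt.1 h.2) (π.injective.ne h.1.symm)

theorem den_eq (hh : D.h = 0) (π : Equiv.Perm (Fin n))
    (p : E × Option (Fin n) × Option (Fin n)) : D.den π p = D.chi p := by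
  unfold den
  split_ifs <;> simp [hh]

theorem rename_NUM (w : stab D.col) : rename w.1 D.NUM = D.NUM := by
  simp only [NUM, map_prod, map_sub, rename_X]
  refine prod_equiv (w.1.prodCongr w.1) ?_ ?_
  · intro q; simp [mem_Rt, w.2 q.1, w.2 q.2]
  · intro q _; simp

theorem rename_prod_chi (w : stab D.col) :
    rename w.1 (∏ p ∈ D.Wt, D.chi p) = ∏ p ∈ D.Wt, D.chi p := by
  simp only [map_prod, rename_chi]
  exact prod_equiv (wtPerm w.1) (D.wtPerm_mem w) fun _ _ => rfl

end QD

end Pool.Agent.Work.MP_849ab0_ag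
end
end

-- merged part: Pool.Agent.Work.MP_849ab0_ag.Defs2
section
/-!
Higgs side for all quivers and all generic characters: the common kernel of the
Jeffrey-Kirwan integrals over the compact flag type cycles, for the universal flavour torus.
-/

noncomputable section

namespace Pool.Agent.Work.MP_849ab0_ag

open MvPolynomial Finset

/-- The point after `a` in the order `π`; the last point is followed by the framing point. -/
def nxt {n : ℕ} (π : Equiv.Perm (Fin n)) (a : Fin n) : Option (Fin n) :=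
  if h : (π a).1 + 1 < n then some (π.symm ⟨(π a).1 + 1, h⟩) else none

/-- Coefficient of the iterated residue in the order `π` in the Jeffrey-Kirwan residue with
respect to `ν`, for the cone given by the order `s` of the points and the framing point. -/
def jk {n : ℕ} (ν : Fin n → ℤ) (s : Option (Fin n) → ℤ) (π : Equiv.Perm (Fin n)) : ℤ :=
  ∏ a, ((if s (some a) < s (nxt π a) then 1 else 0) -
    if ∑ b with π b ≤ π a, ν b < 0 then 1 else 0)

namespace QD

variable {k n : ℕ} {E R : Type} [Fintype E] [CommRing R] (D : QD k n E R)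

/-- The weights of `N` that are nonzero on the Cartan subalgebra. -/
def W2 : Finset (E × Option (Fin n) × Option (Fin n)) := D.Wt.filter fun p => p.2.1 ≠ p.2.2

/-- `χ` if the source point comes before the target point, else `χ - ħ`. -/
def den2 (s : Option (Fin n) → ℤ) (p : E × Option (Fin n) × Option (Fin n)) :
    MvPolynomial (Fin n) R :=
  if s p.2.1 < s p.2.2 then D.chi p else D.chi p - C D.h

/-- `(x a - x b) (x b - x a + ħ)` for `a` before `b` of the same colour. -/
def num2 (s : Option (Fin n) → ℤ) : MvPolynomial (Fin n) R :=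
  ∏ q ∈ D.Rt with s (some q.1) < s (some q.2), (X q.1 - X q.2) * (X q.2 - X q.1 + C D.h)

/-- Jeffrey-Kirwan residue of `f · num2 / ∏ den2`. -/
def res2 (ν : Fin k → ℤ) (s : Option (Fin n) → ℤ) (f : MvPolynomial (Fin n) R) : R :=
  ∑ π : Equiv.Perm (Fin n), jk (ν ∘ D.col) s π •
    (expand (RingHom.id R) π (f * D.num2 s) *
      Ring.inverse (expand (RingHom.id R) π (∏ p ∈ D.W2, D.den2 s p))).coeff (toLex fun _ => 1)

/-- Invariant polynomials killed by all these residues. -/
def IT (ν : Fin k → ℤ) : Set (MvPolynomial (Fin n) R) :=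
  {f | f ∈ Inv R D.col ∧ ∀ s, Function.Injective s → ∀ g, D.res2 ν s (f * g) = 0}

/-- The same quiver with independent flavours and `ħ`. -/
def uni : QD k n E (Polynomial (MvPolynomial E R)) :=
  ⟨D.col, D.src, D.tgt, fun e => Polynomial.C (X e), Polynomial.X⟩

/-- Specialisation of the universal parameters. -/
def ev : Polynomial (MvPolynomial E R) →+* R := Polynomial.eval₂RingHom (eval D.t) D.h

/-- The image of the universal kernel. -/
def IU (ν : Fin k → ℤ) : Set (MvPolynomial (Fin n) R) := MvPolynomial.map D.ev '' D.uni.IT ν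

end QD

end Pool.Agent.Work.MP_849ab0_ag
end
end

-- merged part: Pool.Agent.Work.MP_849ab0_ag.Inv
section
/-! Invariants of Young subgroups, dominant coweights. -/

noncomputable section

set_option linter.unusedSectionVars false

namespace Pool.Agent.Work.MP_849ab0_ag

open MvPolynomial Finset

variable {n : ℕ} {J R : Type} [CommRing R]

/-- sum over the group -/
def Av (c : Fin n → J) (f : Pol n R) : Pol n R := ∑ w : stab c, rename w.1 f

theorem Av_mem (c : Fin n → J) (f : Pol n R) : Av c f ∈ Inv R c := by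
  intro v hv
  unfold Av
  rw [map_sum]
  refine Eq.trans ?_ (Equiv.sum_comp (Equiv.mulLeft (⟨v, hv⟩ : stab c))
    (fun w : stab c => rename w.1 f))
  refine sum_congr rfl fun w _ => ?_
  rw [rename_rename]
  rfl

theorem Av_rename (c : Fin n → J) (w : stab c) (f : Pol n R) : Av c (rename w.1 f) = Av c f := by
  unfold Av
  refine Eq.trans ?_ (Equiv.sum_comp (Equiv.mulRight w) (fun v : stab c => rename v.1 f))
  refine sum_congr rfl fun v _ => ?_
  rw [rename_rename]
  rfl

theorem Av_mul (c : Fin n → J) {f : Pol n R} (hf : f ∈ Inv R c) (g : Pol n R) :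
    Av c (f * g) = f * Av c g := by
  unfold Av
  rw [mul_sum]
  refine sum_congr rfl fun v _ => ?_
  rw [map_mul, hf v.1 v.2]

theorem Av_of_mem (c : Fin n → J) {f : Pol n R} (hf : f ∈ Inv R c) :
    Av c f = (Fintype.card (stab c) : Pol n R) * f := by
  unfold Av
  rw [sum_congr rfl fun (v : stab c) _ => hf v.1 v.2]
  simp

theorem inv_C_inv_mul [Algebra ℚ R] (N : ℕ) (hN : N ≠ 0) :
    (C (algebraMap ℚ R (N : ℚ)⁻¹) : Pol n R) * (N : Pol n R) = 1 := by
  have h : (N : ℚ) ≠ 0 := Nat.cast_ne_zero.2 hN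
  rw [← map_natCast (C : R →+* Pol n R) N, ← map_natCast (algebraMap ℚ R) N, ← map_mul, ← map_mul,
    inv_mul_cancel₀ h, map_one, map_one]

theorem inv_C_mem (c : Fin n → J) (r : R) : (C r : Pol n R) ∈ Inv R c := fun _ _ => rename_C _ _

theorem inv_Av_sum {ι : Type} (c : Fin n → J) (s : Finset ι) (f : ι → Pol n R) :
    Av c (∑ i ∈ s, f i) = ∑ i ∈ s, Av c (f i) := by
  unfold Av
  simp only [map_sum]
  exact sum_comm

/-- an invariant is a combination of fixed invariants with its own coefficients -/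
theorem inv_decomp [Algebra ℚ R] (c : Fin n → J) {g : Pol n R} (hg : g ∈ Inv R c) :
    g = ∑ m ∈ g.support, C (coeff m g) *
      (C (algebraMap ℚ R (Fintype.card (stab c) : ℚ)⁻¹) * Av c (monomial m 1)) := by
  have hN : (Fintype.card (stab c) : ℚ) ≠ 0 := Nat.cast_ne_zero.2 Fintype.card_ne_zero
  have h1 : (C (algebraMap ℚ R (Fintype.card (stab c) : ℚ)⁻¹) : Pol n R) *
      (Fintype.card (stab c) : Pol n R) = 1 := inv_C_inv_mul _ Fintype.card_ne_zero
  have h2 : Av c g = ∑ m ∈ g.support, C (coeff m g) * Av c (monomial m 1) := by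
    conv_lhs => rw [g.as_sum]
    rw [inv_Av_sum]
    refine sum_congr rfl fun m _ => ?_
    rw [← Av_mul c (inv_C_mem c _), C_mul_monomial, mul_one]
  calc g = C (algebraMap ℚ R (Fintype.card (stab c) : ℚ)⁻¹) * Av c g := by
        rw [Av_of_mem c hg, ← mul_assoc, h1, one_mul]
    _ = _ := by
        rw [h2, mul_sum]
        exact sum_congr rfl fun m _ => by ring

/-- power sum -/
def ps (R : Type) [CommRing R] (U : Finset (Fin n)) (j : ℕ) : Pol n R := ∑ a ∈ U, X a ^ j

theorem ps_mem (c : Fin n → J) (Q : J → Prop) [DecidablePred fun a => Q (c a)] (j : ℕ) :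
    ps R (univ.filter fun a => Q (c a)) j ∈ Inv R c := by
  intro w hw
  unfold ps
  rw [map_sum]
  simp only [map_pow, rename_X]
  refine sum_bij' (fun a _ => w a) (fun a _ => w.symm a) ?_ ?_ ?_ ?_ ?_
  · intro a ha
    simp only [mem_filter, mem_univ, true_and] at ha ⊢
    rwa [hw a]
  · intro a ha
    simp only [mem_filter, mem_univ, true_and] at ha ⊢
    rwa [stab_symm ⟨w, hw⟩ a]
  · intro a _; simp
  · intro a _; simp
  · intro a _; rfl

theorem inv_le_adjoin [Algebra ℚ R] [DecidableEq J] (c : Fin n → J) {f : Pol n R}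
    (hf : f ∈ Inv R c) :
    f ∈ Algebra.adjoin R {p | ∃ y j, p = ps R (univ.filter fun a => c a = y) j} := by
  set A : Subalgebra R (Pol n R) :=
    Algebra.adjoin R {p | ∃ y j, p = ps R (univ.filter fun a => c a = y) j} with hA
  have hC : ∀ r : R, (C r : Pol n R) ∈ A := fun r => A.algebraMap_mem r
  have key : ∀ (k : ℕ) (m : Fin n →₀ ℕ), m.support.card = k → Av c (monomial m (1 : R)) ∈ A := by
    intro k
    induction k using Nat.strong_induction_on with
    | _ k ih =>
    intro m hm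
    by_cases h0 : m = 0
    · subst h0
      have : (monomial (0 : Fin n →₀ ℕ) (1 : R) : Pol n R) = 1 := rfl
      rw [this, Av_of_mem c (Inv R c).one_mem, mul_one]
      exact natCast_mem A _
    obtain ⟨a, ha⟩ := Finsupp.support_nonempty_iff.2 h0
    set m' := m.erase a with hm'
    have hsupp : m'.support = m.support.erase a := Finsupp.support_erase
    have hcard : m'.support.card < k := by
      rw [hsupp, ← hm]; exact card_erase_lt_of_mem ha
    have hmm : m' + Finsupp.single a (m a) = m := Finsupp.erase_add_single a m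
    have hps : ps R (univ.filter fun b => c b = c a) (m a) ∈ A :=
      Algebra.subset_adjoin ⟨c a, m a, rfl⟩
    have h1 : ps R (univ.filter fun b => c b = c a) (m a) * Av c (monomial m' 1) =
        ∑ b ∈ univ.filter fun b => c b = c a,
          Av c (monomial (m' + Finsupp.single b (m a)) (1 : R)) := by
      rw [← Av_mul c (ps_mem c (fun y => y = c a) (m a)), ps, sum_mul, inv_Av_sum]
      refine sum_congr rfl fun b _ => ?_
      rw [X_pow_eq_monomial, monomial_mul, one_mul, add_comm]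
    have h2 : ∀ b, c b = c a → b ∉ m'.support →
        Av c (monomial (m' + Finsupp.single b (m a)) (1 : R)) = Av c (monomial m 1) := by
      intro b hb hb'
      have ha' : a ∉ m'.support := by rw [hsupp]; simp
      rw [← Av_rename c ⟨Equiv.swap a b, swap_mem_stab hb.symm⟩ (monomial m 1), rename_monomial]
      have e1 : Finsupp.mapDomain (Equiv.swap a b) m' = m' := by
        have e0 : ∀ d ∈ m'.support, Equiv.swap a b d = id d := fun d hd =>
          Equiv.swap_apply_of_ne_of_ne (fun h => ha' (h ▸ hd)) (fun h => hb' (h ▸ hd))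
        rw [Finsupp.mapDomain_congr e0]
        exact Finsupp.mapDomain_id
      have e2 : Finsupp.mapDomain (Equiv.swap a b) m = m' + Finsupp.single b (m a) := by
        conv_lhs => rw [← hmm]
        rw [Finsupp.mapDomain_add, Finsupp.mapDomain_single, e1, Equiv.swap_apply_left]
      exact congrArg (fun z => Av c (monomial z (1 : R))) e2.symm
    rw [← sum_filter_add_sum_filter_not _ (fun b => b ∈ m'.support)] at h1
    rw [sum_congr rfl (s₁ := (univ.filter fun b => c b = c a).filter fun b => b ∉ m'.support)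
      (g := fun _ => Av c (monomial m (1 : R))) (fun b hb => by
        simp only [mem_filter, mem_univ, true_and] at hb
        exact h2 b hb.1 hb.2), sum_const, nsmul_eq_mul] at h1
    set N := ((univ.filter fun b => c b = c a).filter fun b => b ∉ m'.support).card with hN
    have hN0 : N ≠ 0 := by
      rw [hN, card_ne_zero]
      exact ⟨a, by rw [hsupp]; simp⟩
    have h3 : (N : Pol n R) * Av c (monomial m 1) ∈ A := by
      rw [← sub_eq_iff_eq_add'] at h1
      rw [← h1]
      refine A.sub_mem (A.mul_mem hps (ih _ hcard m' rfl)) (A.sum_mem fun b hb => ?_)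
      simp only [mem_filter, mem_univ, true_and] at hb
      refine ih (m' + Finsupp.single b (m a)).support.card
        (lt_of_le_of_lt (card_le_card ?_) hcard) _ rfl
      refine Finsupp.support_add.trans (union_subset subset_rfl ?_)
      exact Finsupp.support_single_subset.trans (singleton_subset_iff.2 hb.2)
    have h4 := A.mul_mem (hC (algebraMap ℚ R (N : ℚ)⁻¹)) h3
    rwa [← mul_assoc, inv_C_inv_mul N hN0, one_mul] at h4
  rw [inv_decomp c hf]
  exact A.sum_mem fun m _ => A.mul_mem (hC _) (A.mul_mem (hC _) (key _ m rfl))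

/-- dominant -/
def Dom (c : Fin n → J) (l : Fin n → ℤ) : Prop := ∀ a b, a < b → c a = c b → l b ≤ l a

theorem Dom.lex_le {c : Fin n → J} {l : Fin n → ℤ} (h : Dom c l) (w : stab c) :
    toLex (l ∘ w.1.symm) ≤ toLex l := by
  classical
  by_contra hlt
  rw [not_le] at hlt
  obtain ⟨a, hbelow, ha⟩ := hlt
  change ∀ j, j < a → l j = l (w.1.symm j) at hbelow
  change l a < l (w.1.symm a) at ha
  set th := l (w.1.symm a) with hth
  have hcard : (univ.filter fun b => c b = c a ∧ th ≤ l (w.1.symm b)).card =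
      (univ.filter fun b => c b = c a ∧ th ≤ l b).card := by
    refine card_bij' (fun b _ => w.1.symm b) (fun b _ => w.1 b) ?_ ?_ ?_ ?_
    · intro b hb
      simp only [mem_filter, mem_univ, true_and] at hb ⊢
      exact ⟨(stab_symm w b).trans hb.1, hb.2⟩
    · intro b hb
      simp only [mem_filter, mem_univ, true_and, Equiv.symm_apply_apply] at hb ⊢
      exact ⟨(w.2 b).trans hb.1, hb.2⟩
    · intro b _; simp
    · intro b _; simp
  have hss : (univ.filter fun b => c b = c a ∧ th ≤ l b) ⊂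
      (univ.filter fun b => c b = c a ∧ th ≤ l (w.1.symm b)) := by
    refine ⟨fun b hb => ?_, fun hsub => ?_⟩
    · simp only [mem_filter, mem_univ, true_and] at hb ⊢
      refine ⟨hb.1, ?_⟩
      have hba : b < a := by
        rcases lt_trichotomy b a with h1 | h1 | h1
        · exact h1
        · subst h1; omega
        · have := h a b h1 hb.1.symm
          omega
      rw [← hbelow b hba]; exact hb.2
    · have := hsub (x := a) (by simp [hth])
      simp only [mem_filter, mem_univ, true_and] at this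
      omega
  exact absurd hcard (card_lt_card hss).ne'

theorem dom_of_max {c : Fin n → J} {l : Fin n → ℤ}
    (h : ∀ w : stab c, toLex (l ∘ w.1.symm) ≤ toLex l) : Dom c l := by
  intro a b hab hc
  by_contra hlt
  rw [not_le] at hlt
  refine absurd (h ⟨Equiv.swap a b, swap_mem_stab hc⟩) (not_le.2 ⟨a, fun j hj => ?_, ?_⟩)
  · change l j = l ((Equiv.swap a b).symm j)
    rw [Equiv.symm_swap, Equiv.swap_apply_of_ne_of_ne hj.ne (hj.trans hab).ne]
  · change l a < l ((Equiv.swap a b).symm a)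
    rwa [Equiv.symm_swap, Equiv.swap_apply_left]

theorem exists_extend (c : Fin n → J) (S : Finset (Fin n)) (φ : Fin n → Fin n)
    (hi : Set.InjOn φ S) (hc : ∀ a ∈ S, c (φ a) = c a) :
    ∃ w : stab c, ∀ a ∈ S, w.1 a = φ a := by
  induction S using Finset.induction_on with
  | empty => exact ⟨1, by simp⟩
  | insert a S ha ih =>
    obtain ⟨w, hw⟩ := ih (hi.mono (by simp)) fun b hb => hc b (mem_insert_of_mem hb)
    have hca : c (w.1 a) = c (φ a) := by rw [w.2 a, hc a (mem_insert_self _ _)]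
    refine ⟨⟨Equiv.swap (w.1 a) (φ a), swap_mem_stab hca⟩ * w, fun b hb => ?_⟩
    change Equiv.swap (w.1 a) (φ a) (w.1 b) = φ b
    rcases mem_insert.1 hb with rfl | hb'
    · exact Equiv.swap_apply_left _ _
    · have hne : b ≠ a := fun h => ha (h ▸ hb')
      rw [Equiv.swap_apply_of_ne_of_ne (w.1.injective.ne hne), hw b hb']
      rw [hw b hb']
      intro h
      exact hne (hi (by simp [hb']) (by simp) h)

/-- colour preserving maps that are the identity outside `S` -/
def Maps [DecidableEq J] (c : Fin n → J) (S : Finset (Fin n)) : Finset (Fin n → Fin n) :=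
  Fintype.piFinset fun a => if a ∈ S then univ.filter fun b => c b = c a else {a}

theorem mem_Maps [DecidableEq J] {c : Fin n → J} {S : Finset (Fin n)} {φ : Fin n → Fin n} :
    φ ∈ Maps c S ↔ (∀ a, c (φ a) = c a) ∧ ∀ a ∉ S, φ a = a := by
  unfold Maps
  rw [Fintype.mem_piFinset]
  constructor
  · intro h
    refine ⟨fun a => ?_, fun a ha => ?_⟩
    · have := h a
      split_ifs at this with ha
      · simpa using this
      · rw [mem_singleton.1 this]
    · have := h a
      rw [if_neg ha] at this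
      exact mem_singleton.1 this
  · rintro ⟨h1, h2⟩ a
    split_ifs with ha
    · simp [h1 a]
    · exact mem_singleton.2 (h2 a ha)

/-- a sum over the group of a function of the restriction to `S` -/
theorem sum_restrict [DecidableEq J] (c : Fin n → J) (S : Finset (Fin n)) :
    ∃ N : ℕ, N ≠ 0 ∧ ∀ {A : Type} [AddCommMonoid A] (F : (Fin n → Fin n) → A),
      ∑ w : stab c, F (S.piecewise w.1 id) =
        N • ∑ φ ∈ (Maps c S).filter fun φ => Set.InjOn φ S, F φ := by
  classical
  refine ⟨(univ.filter fun w : stab c => ∀ a ∈ S, w.1 a = a).card, ?_, fun {A} _ F => ?_⟩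
  · rw [card_ne_zero]
    exact ⟨1, by simp⟩
  have hmaps : ∀ w ∈ (univ : Finset (stab c)),
      S.piecewise w.1 id ∈ (Maps c S).filter fun φ => Set.InjOn φ S := by
    intro w _
    rw [mem_filter, mem_Maps]
    refine ⟨⟨fun a => ?_, fun a ha => ?_⟩, fun a ha b hb hab => ?_⟩
    · by_cases ha : a ∈ S
      · rw [piecewise_eq_of_mem _ _ _ ha, w.2 a]
      · rw [piecewise_eq_of_notMem _ _ _ ha]; rfl
    · rw [piecewise_eq_of_notMem _ _ _ ha]; rfl
    · rw [piecewise_eq_of_mem _ _ _ (mem_coe.1 ha), piecewise_eq_of_mem _ _ _ (mem_coe.1 hb)] at hab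
      exact w.1.injective hab
  rw [← sum_fiberwise_of_maps_to hmaps, smul_sum]
  refine sum_congr rfl fun φ hφ => ?_
  rw [mem_filter, mem_Maps] at hφ
  obtain ⟨v, hv⟩ := exists_extend c S φ hφ.2 fun a _ => hφ.1.1 a
  rw [sum_congr rfl (g := fun _ => F φ) (fun w hw => by rw [(mem_filter.1 hw).2]), sum_const]
  congr 1
  refine card_bij' (fun w _ => v⁻¹ * w) (fun w _ => v * w) ?_ ?_ ?_ ?_
  · intro w hw
    simp only [mem_filter, mem_univ, true_and] at hw ⊢
    intro a ha
    have h1 : w.1 a = φ a := by rw [← hw, piecewise_eq_of_mem _ _ _ ha]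
    change v.1.symm (w.1 a) = a
    rw [h1, ← hv a ha, Equiv.symm_apply_apply]
  · intro w hw
    simp only [mem_filter, mem_univ, true_and] at hw ⊢
    funext a
    by_cases ha : a ∈ S
    · rw [piecewise_eq_of_mem _ _ _ ha]
      change v.1 (w.1 a) = φ a
      rw [hw a ha, hv a ha]
    · rw [piecewise_eq_of_notMem _ _ _ ha, hφ.1.2 a ha]; rfl
  · intro w _; simp
  · intro w _; simp

theorem sum_Maps_union [DecidableEq J] (c : Fin n → J) {S T : Finset (Fin n)} (h : Disjoint S T)
    {A : Type} [AddCommMonoid A] (F : (Fin n → Fin n) → (Fin n → Fin n) → A) :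
    ∑ φ ∈ Maps c (S ∪ T), F (S.piecewise φ id) (T.piecewise φ id) =
      ∑ φ ∈ Maps c S, ∑ ψ ∈ Maps c T, F φ ψ := by
  rw [← sum_product']
  have hm : ∀ (U : Finset (Fin n)) (φ : Fin n → Fin n), (∀ a, c (φ a) = c a) →
      U.piecewise φ id ∈ Maps c U := by
    intro U φ hφ
    rw [mem_Maps]
    refine ⟨fun a => ?_, fun a ha => ?_⟩
    · by_cases ha : a ∈ U
      · rw [piecewise_eq_of_mem _ _ _ ha, hφ a]
      · rw [piecewise_eq_of_notMem _ _ _ ha]; rfl
    · rw [piecewise_eq_of_notMem _ _ _ ha]; rfl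
  refine sum_bij' (fun φ _ => (S.piecewise φ id, T.piecewise φ id))
    (fun p _ => S.piecewise p.1 p.2) ?_ ?_ ?_ ?_ ?_
  · intro φ hφ
    rw [mem_Maps] at hφ
    exact mem_product.2 ⟨hm S φ hφ.1, hm T φ hφ.1⟩
  · intro p hp
    rw [mem_product, mem_Maps, mem_Maps] at hp
    rw [mem_Maps]
    refine ⟨fun a => ?_, fun a ha => ?_⟩
    · by_cases ha : a ∈ S
      · rw [piecewise_eq_of_mem _ _ _ ha, hp.1.1 a]
      · rw [piecewise_eq_of_notMem _ _ _ ha, hp.2.1 a]
    · rw [mem_union, not_or] at ha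
      rw [piecewise_eq_of_notMem _ _ _ ha.1, hp.2.2 a ha.2]
  · intro φ hφ
    rw [mem_Maps] at hφ
    funext a
    by_cases ha : a ∈ S
    · simp [ha]
    · by_cases hb : a ∈ T
      · simp [ha, hb]
      · have := hφ.2 a (by simp [ha, hb])
        simp [ha, hb, this]
  · intro p hp
    rw [mem_product, mem_Maps, mem_Maps] at hp
    refine Prod.ext (funext fun a => ?_) (funext fun a => ?_)
    · by_cases ha : a ∈ S
      · simp [ha]
      · simp [ha, hp.1.2 a ha]
    · by_cases hb : a ∈ T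
      · have ha : a ∉ S := fun ha => disjoint_left.1 h ha hb
        simp [ha, hb]
      · simp [hb, hp.2.2 a hb]
  · intro φ _; rfl

end Pool.Agent.Work.MP_849ab0_ag
end
end

-- merged part: Pool.Agent.Work.MP_849ab0_ag.Defs3
section
/-! The Tits form, used to define regular characters. -/

noncomputable section

namespace Pool.Agent.Work.MP_849ab0_ag.QD

open Finset

variable {k n : ℕ} {E R : Type} [Fintype E] (D : QD k n E R)

/-- The number of coordinates in `S` over a vertex; it is `0` over the framing vertex. -/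
def mlt (S : Finset (Fin n)) (o : Option (Fin k)) : ℤ :=
  (S.filter fun a => some (D.col a) = o).card

/-- The Tits form `∑ i, m i ^ 2 - ∑ e, m (src e) * m (tgt e)` of the unframed quiver at the
dimension vector `m ≤ v` of `S`. -/
def qf (S : Finset (Fin n)) : ℤ :=
  ∑ i, D.mlt S (some i) ^ 2 - ∑ e, D.mlt S (D.src e) * D.mlt S (D.tgt e)

end Pool.Agent.Work.MP_849ab0_ag.QD
end
end

-- merged part: Pool.Agent.Work.MP_849ab0_ag.ZQ
section
/-! Combinatorics for regular characters. -/

noncomputable section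

set_option linter.unusedSectionVars false

namespace Pool.Agent.Work.MP_849ab0_ag

open MvPolynomial Finset

/-- an order refining a key -/
theorem exists_key {n : ℕ} (κ : Fin n → ℤ) :
    ∃ π : Equiv.Perm (Fin n), ∀ a b, κ a < κ b → π a < π b := by
  refine ⟨(Tuple.sort κ).symm, fun a b hab => ?_⟩
  by_contra hh
  have := Tuple.monotone_sort κ (not_lt.1 hh)
  simp only [Function.comp_apply, Equiv.apply_symm_apply] at this
  omega

/-- an order in which a given list is increasing -/
theorem exists_list {n : ℕ} (L : List (Fin n)) (h : L.Nodup) :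
    ∃ π : Equiv.Perm (Fin n), L.Pairwise fun a b => π a < π b := by
  obtain ⟨π, hπ⟩ := exists_key fun a => (L.idxOf a : ℤ)
  refine ⟨π, List.pairwise_iff_getElem.2 fun i j hi hj hij => hπ _ _ ?_⟩
  rw [h.idxOf_getElem, h.idxOf_getElem]
  exact_mod_cast hij

/-- functions on `Z` are combinations of indicators of upper sets -/
theorem exists_up {n : ℕ} (π : Equiv.Perm (Fin n)) (Z : Finset (Fin n)) (ω : Fin n → ℤ) :
    ∃ c : Fin n → ℤ, ∀ b ∈ Z, ω b = ∑ j ∈ Z, c j * if π j ≤ π b then 1 else 0 := by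
  induction Z using Finset.induction_on_max_value π with
  | empty => exact ⟨0, by simp⟩
  | insert a s ha hmax ih =>
    obtain ⟨c, hc⟩ := ih
    refine ⟨Function.update c a (ω a - ∑ j ∈ s, c j), fun b hb => ?_⟩
    have hs : ∀ x : Fin n, ∑ j ∈ s, Function.update c a (ω a - ∑ j ∈ s, c j) j *
        (if π j ≤ π x then 1 else 0) = ∑ j ∈ s, c j * if π j ≤ π x then 1 else 0 := by
      intro x
      refine Finset.sum_congr rfl fun j hj => ?_
      rw [Function.update_of_ne (by rintro rfl; exact ha hj)]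
    rw [Finset.sum_insert ha, hs, Function.update_self]
    rcases Finset.mem_insert.1 hb with rfl | hb
    · have h2 : ∑ j ∈ s, c j * (if π j ≤ π b then 1 else 0) = ∑ j ∈ s, c j :=
        Finset.sum_congr rfl fun j hj => by rw [if_pos (hmax j hj), mul_one]
      rw [if_pos le_rfl, h2]
      ring
    · have h1 : ¬ π a ≤ π b := fun h =>
        ha (π.injective (le_antisymm h (hmax b hb)) ▸ hb)
      rw [if_neg h1, mul_zero, zero_add]
      exact hc b hb

/-- a map with prescribed fibre sizes -/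
theorem exists_fib {n : ℕ} (A : Finset (Fin n)) (d : Fin n → ℕ) (h : ∑ b, d b = A.card) :
    ∃ β : Fin n → Fin n, ∀ b, (A.filter fun a => β a = b).card = d b := by
  induction A using Finset.induction_on generalizing d with
  | empty =>
    refine ⟨id, fun b => ?_⟩
    rw [Finset.card_empty, Finset.sum_eq_zero_iff] at h
    rw [h b (mem_univ b)]
    simp
  | insert a s ha ih =>
    rw [Finset.card_insert_of_notMem ha] at h
    obtain ⟨b0, -, hb0⟩ := Finset.exists_ne_zero_of_sum_ne_zero (s := univ) (f := d)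
      (by rw [h]; omega)
    obtain ⟨β, hβ⟩ := ih (Function.update d b0 (d b0 - 1)) (by
      rw [Finset.sum_update_of_mem (mem_univ b0)]
      rw [← Finset.add_sum_erase _ _ (mem_univ b0), ← Finset.sdiff_singleton_eq_erase] at h
      omega)
    refine ⟨Function.update β a b0, fun b => ?_⟩
    have hs : (s.filter fun x => Function.update β a b0 x = b) = s.filter fun x => β x = b := by
      refine Finset.filter_congr fun x hx => ?_
      rw [Function.update_of_ne (by rintro rfl; exact ha hx)]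
    rw [Finset.filter_insert, Function.update_self, hs]
    have hb := hβ b
    split_ifs with h1
    · subst h1
      rw [Function.update_self] at hb
      rw [Finset.card_insert_of_notMem (fun h2 => ha (Finset.mem_filter.1 h2).1), hb]
      omega
    · rw [Function.update_of_ne (Ne.symm h1)] at hb
      exact hb

theorem zq_true {n : ℕ} {J : Type} [DecidableEq J] (c : Fin n → J) (S : Finset (Fin n)) (i : J) :
    (univ.filter fun a => (c a, decide (a ∈ S)) = (i, true)) = S.filter fun a => c a = i := by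
  ext a
  simp [and_comm]

theorem zq_card {n : ℕ} {J : Type} [DecidableEq J] (c : Fin n → J) (S : Finset (Fin n)) (i : J) :
    (univ.filter fun a => (c a, decide (a ∈ S)) = (i, false)).card +
      (S.filter fun a => c a = i).card = (univ.filter fun a => c a = i).card := by
  rw [← Finset.card_union_of_disjoint]
  · congr 1
    ext a
    by_cases ha : a ∈ S <;> simp [ha]
  · rw [Finset.disjoint_left]
    intro a ha hb
    have := (Finset.mem_filter.1 hb).1
    simp [this] at ha

theorem zq_digits (B : ℤ) : ∀ (k : ℕ) (x y : Fin k → ℤ), (∀ i, 0 ≤ x i ∧ x i < B) →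
    (∀ i, 0 ≤ y i ∧ y i < B) → ∑ i : Fin k, B ^ (i : ℕ) * x i = ∑ i : Fin k, B ^ (i : ℕ) * y i →
    x = y := by
  intro k
  induction k with
  | zero => intro x y _ _ _; exact Subsingleton.elim _ _
  | succ k ih =>
    intro x y hx hy h
    have key : ∀ z : Fin (k + 1) → ℤ, ∑ i : Fin (k + 1), B ^ (i : ℕ) * z i =
        z 0 + B * ∑ i : Fin k, B ^ (i : ℕ) * z i.succ := by
      intro z
      rw [Fin.sum_univ_succ, Finset.mul_sum]
      simp only [Fin.val_zero, pow_zero, one_mul, Fin.val_succ, pow_succ]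
      congr 1
      exact Finset.sum_congr rfl fun i _ => by ring
    rw [key, key] at h
    have h0 : x 0 = y 0 := by
      have h1 := congrArg (· % B) h
      simp only [Int.add_mul_emod_self_left] at h1
      rwa [Int.emod_eq_of_lt (hx 0).1 (hx 0).2, Int.emod_eq_of_lt (hy 0).1 (hy 0).2] at h1
    have hB : B ≠ 0 := by have := hx 0; omega
    rw [h0, add_right_inj, mul_right_inj' hB] at h
    have h2 := ih (fun i => x i.succ) (fun i => y i.succ) (fun i => hx _) (fun i => hy _) h
    funext i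
    induction i using Fin.cases with
    | zero => exact h0
    | succ i => exact congrFun h2 i

/-- two sets with the same numbers of points of each colour are conjugate -/
theorem exists_conj {n : ℕ} {J : Type} [DecidableEq J] (c : Fin n → J) {S S' : Finset (Fin n)}
    (h : ∀ i, (S.filter fun a => c a = i).card = (S'.filter fun a => c a = i).card) :
    ∃ w : stab c, ind S' = ind S ∘ w.1.symm := by
  have hcard : ∀ y : J × Bool, Fintype.card {a // (c a, decide (a ∈ S)) = y} =
      Fintype.card {a // (c a, decide (a ∈ S')) = y} := by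
    rintro ⟨i, b⟩
    rw [Fintype.card_subtype, Fintype.card_subtype]
    cases b
    · have h1 := zq_card c S i
      have h2 := zq_card c S' i
      have h3 := h i
      omega
    · rw [zq_true, zq_true, h]
  let e : Fin n ≃ Fin n := Equiv.ofFiberEquiv (f := fun a => (c a, decide (a ∈ S)))
    (g := fun a => (c a, decide (a ∈ S'))) fun y => Fintype.equivOfCardEq (hcard y)
  have he : ∀ a, (c (e a), decide (e a ∈ S')) = (c a, decide (a ∈ S)) := fun a =>
    Equiv.ofFiberEquiv_map (f := fun a => (c a, decide (a ∈ S)))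
      (g := fun a => (c a, decide (a ∈ S'))) (fun y => Fintype.equivOfCardEq (hcard y)) a
  refine ⟨⟨e, fun a => congrArg Prod.fst (he a)⟩, funext fun x => ?_⟩
  have h1 : decide (e (e.symm x) ∈ S') = decide (e.symm x ∈ S) := congrArg Prod.snd (he (e.symm x))
  rw [Equiv.apply_symm_apply, decide_eq_decide] at h1
  change (if x ∈ S' then (1 : ℤ) else 0) = if e.symm x ∈ S then 1 else 0
  simp only [h1]

variable (R : Type) [CommRing R] in
/-- kill the variables outside `S` -/
def kl {n : ℕ} (S : Finset (Fin n)) : Pol n R →ₐ[R] Pol n R :=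
  aeval fun a => if a ∈ S then X a else 0

theorem zq_kl {n : ℕ} {R : Type} [CommRing R] {S T : Finset (Fin n)} (h : T ⊆ S) (j : ℕ) :
    kl R S (ps R T j) = ps R T j := by
  rw [ps, map_sum]
  refine Finset.sum_congr rfl fun a ha => ?_
  rw [map_pow, kl, aeval_X, if_pos (h ha)]

theorem all_of_supp {n : ℕ} {J R : Type} [CommRing R] [Algebra ℚ R] (c : Fin n → J)
    (S : Finset (Fin n)) (U : Submodule R (Pol n R)) (h1 : ∀ f ∈ Inv R c, ∀ g ∈ U, f * g ∈ U)
    (h2 : ∀ g, kl R S g ∈ U)
    (h3 : ∀ g, ∀ w ∈ stab fun a => (c a, ind S a), g - rename w g ∈ U) (g : Pol n R) : g ∈ U := by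
  classical
  obtain ⟨W, hW⟩ : ∃ W : Submodule R (Pol n R),
      W = Submodule.span R {x | ∃ f ∈ Inv R c, ∃ g, x = f * kl R S g} := ⟨_, rfl⟩
  have hWU : W ≤ U := by
    rw [hW, Submodule.span_le]
    rintro _ ⟨f, hf, g, rfl⟩
    exact h1 f hf _ (h2 g)
  have hgen : ∀ f ∈ Inv R c, ∀ g, f * kl R S g ∈ W := fun f hf g =>
    hW ▸ Submodule.subset_span ⟨f, hf, g, rfl⟩
  have hgood : ∀ p : Pol n R, (∀ f ∈ Inv R c, ∀ g, p * (f * kl R S g) ∈ W) →
      ∀ x ∈ W, p * x ∈ W := by
    intro p hp x hx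
    rw [hW] at hx
    induction hx using Submodule.span_induction with
    | mem x hx =>
      obtain ⟨f, hf, g, rfl⟩ := hx
      exact hp f hf g
    | zero => rw [mul_zero]; exact W.zero_mem
    | add x y _ _ hx hy => rw [mul_add]; exact W.add_mem hx hy
    | smul r x _ hx => rw [mul_smul_comm]; exact W.smul_mem r hx
  have hA : ∀ p ∈ Inv R c, ∀ x ∈ W, p * x ∈ W := fun p hp => hgood p fun f hf g => by
    rw [← mul_assoc]
    exact hgen _ ((Inv R c).mul_mem hp hf) g
  have hB : ∀ T : Finset (Fin n), T ⊆ S → ∀ j, ∀ x ∈ W, ps R T j * x ∈ W := fun T hT j =>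
    hgood _ fun f hf g => by
      have := hgen f hf (ps R T j * g)
      rwa [map_mul, zq_kl hT, mul_left_comm] at this
  have hadj : ∀ p ∈ Algebra.adjoin R
      {p | ∃ y j, p = ps R (univ.filter fun a => (c a, ind S a) = y) j}, ∀ x ∈ W, p * x ∈ W := by
    intro p hp
    induction hp using Algebra.adjoin_induction with
    | mem p hp =>
      obtain ⟨⟨i, z⟩, j, rfl⟩ := hp
      by_cases hz : z = 0
      · subst hz
        intro x hx
        have h4 : ps R (univ.filter fun a => (c a, ind S a) = (i, 0)) j =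
            ps R (univ.filter fun a => c a = i) j - ps R (S.filter fun a => c a = i) j := by
          rw [eq_sub_iff_add_eq, ps, ps, ps, ← Finset.sum_union]
          · congr 1
            ext a
            by_cases ha : a ∈ S <;> simp [ind, ha]
          · rw [Finset.disjoint_left]
            intro a ha hb
            have := (Finset.mem_filter.1 hb).1
            simp [ind, this] at ha
        rw [h4, sub_mul]
        exact W.sub_mem (hA _ (ps_mem c (fun y => y = i) j) x hx)
          (hB _ (Finset.filter_subset _ _) j x hx)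
      · refine hB _ (fun a ha => ?_) j
        by_contra hS
        have := congrArg Prod.snd (Finset.mem_filter.1 ha).2
        simp only [ind, if_neg hS] at this
        exact hz this.symm
    | algebraMap r =>
      intro x hx
      rw [← Algebra.smul_def]
      exact W.smul_mem r hx
    | add p q _ _ hp hq =>
      intro x hx
      rw [add_mul]
      exact W.add_mem (hp x hx) (hq x hx)
    | mul p q _ _ hp hq =>
      intro x hx
      rw [mul_assoc]
      exact hp _ (hq x hx)
  have hAv : Av (fun a => (c a, ind S a)) g ∈ U := by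
    have h5 := hadj _ (inv_le_adjoin _ (Av_mem (fun a => (c a, ind S a)) g)) _
      (hgen 1 (Inv R c).one_mem 1)
    rw [map_one, mul_one, mul_one] at h5
    exact hWU h5
  have hsum : ∑ w : stab fun a => (c a, ind S a), (g - rename w.1 g) ∈ U :=
    U.sum_mem fun w _ => h3 g w.1 w.2
  have hN : (Fintype.card (stab fun a => (c a, ind S a)) : Pol n R) * g ∈ U := by
    have h6 := U.add_mem hsum hAv
    rwa [Finset.sum_sub_distrib, Av, sub_add_cancel, Finset.sum_const, Finset.card_univ,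
      nsmul_eq_mul] at h6
  have h7 := U.smul_mem
    (algebraMap ℚ R (Fintype.card (stab fun a => (c a, ind S a)) : ℚ)⁻¹) hN
  rwa [smul_eq_C_mul, ← mul_assoc, inv_C_inv_mul _ Fintype.card_ne_zero, one_mul] at h7

namespace QD

variable {k n : ℕ} {E R : Type} [Fintype E] [CommRing R] (D : QD k n E R)

/-- no loop at the vertex `i` -/
def NLi (i : Fin k) : Prop := ∀ e, ¬(D.src e = some i ∧ D.tgt e = some i)

/-- the number of neighbours of the vertex `i` -/
def nb (i : Fin k) (Z : Finset (Fin n)) : ℤ :=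
  ∑ e, ((if D.src e = some i then D.mlt Z (D.tgt e) else 0) +
    if D.tgt e = some i then D.mlt Z (D.src e) else 0)

theorem zq_nn (S : Finset (Fin n)) (o : Option (Fin k)) : 0 ≤ D.mlt S o := Nat.cast_nonneg _

theorem zq_ite (S : Finset (Fin n)) (o : Option (Fin k)) (x : ℤ) :
    ∑ i, D.mlt S (some i) * (if o = some i then x else 0) = D.mlt S o * x := by
  cases o with
  | none => simp [mlt]
  | some j => simp

theorem zq_union {i : Fin k} {Z A : Finset (Fin n)} (hZ : ∀ b ∈ Z, D.col b ≠ i)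
    (hA : ∀ a ∈ A, D.col a = i) (o : Option (Fin k)) :
    D.mlt (Z ∪ A) o = D.mlt Z o + if o = some i then (A.card : ℤ) else 0 := by
  have hd : Disjoint Z A := Finset.disjoint_left.2 fun a h1 h2 => hZ a h1 (hA a h2)
  rw [mlt, mlt, Finset.filter_union,
    Finset.card_union_of_disjoint (Finset.disjoint_filter_filter hd), Nat.cast_add]
  congr 1
  split_ifs with h
  · rw [Finset.filter_true_of_mem fun a ha => by rw [hA a ha, h]]
  · rw [Finset.filter_eq_empty_iff.2 fun a ha h' => h (by rw [← h', hA a ha])]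
    rfl

theorem q_pick {S : Finset (Fin n)} (h : 1 ≤ D.qf S) :
    ∃ i, D.NLi i ∧ D.nb i S < 2 * D.mlt S (some i) := by
  have h1 : ∑ i, D.mlt S (some i) * D.nb i S =
      2 * ∑ e, D.mlt S (D.src e) * D.mlt S (D.tgt e) := by
    simp only [nb, Finset.mul_sum, mul_add]
    rw [Finset.sum_comm]
    refine Finset.sum_congr rfl fun e _ => ?_
    rw [Finset.sum_add_distrib, zq_ite, zq_ite]
    ring
  have h2 : ∑ i, D.mlt S (some i) * (2 * D.mlt S (some i) - D.nb i S) = 2 * D.qf S := by
    simp only [mul_sub, Finset.sum_sub_distrib, h1, qf, Finset.mul_sum]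
    congr 1
    exact Finset.sum_congr rfl fun i _ => by ring
  obtain ⟨i, -, hi⟩ := Finset.exists_lt_of_sum_lt (s := univ) (f := fun _ => (0 : ℤ))
    (g := fun i => D.mlt S (some i) * (2 * D.mlt S (some i) - D.nb i S))
    (by rw [h2, Finset.sum_const_zero]; omega)
  have h3 : D.nb i S < 2 * D.mlt S (some i) := by
    by_contra h4
    have := mul_nonpos_of_nonneg_of_nonpos (D.zq_nn S (some i))
      (by omega : 2 * D.mlt S (some i) - D.nb i S ≤ 0)
    omega
  refine ⟨i, fun e he => ?_, h3⟩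
  have h5 := Finset.single_le_sum (s := univ) (f := fun e =>
    (if D.src e = some i then D.mlt S (D.tgt e) else 0) +
      if D.tgt e = some i then D.mlt S (D.src e) else 0) (fun e _ => by
        have h6 := D.zq_nn S (D.src e)
        have h7 := D.zq_nn S (D.tgt e)
        split_ifs <;> omega) (mem_univ e)
  rw [if_pos he.1, if_pos he.2, he.1, he.2] at h5
  rw [nb] at h3
  omega

theorem q_split {i : Fin k} (hi : D.NLi i) {Z A : Finset (Fin n)} (hZ : ∀ b ∈ Z, D.col b ≠ i)
    (hA : ∀ a ∈ A, D.col a = i) :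
    D.qf (Z ∪ A) = D.qf Z + (A.card : ℤ) ^ 2 - A.card * D.nb i Z ∧
      D.nb i (Z ∪ A) = D.nb i Z ∧ D.mlt (Z ∪ A) (some i) = A.card := by
  have h0 : D.mlt Z (some i) = 0 := by
    rw [mlt, Finset.filter_eq_empty_iff.2 fun b hb h => hZ b hb (Option.some.inj h)]
    rfl
  have hm := D.zq_union hZ hA
  refine ⟨?_, ?_, ?_⟩
  · have h1 : ∑ j, D.mlt (Z ∪ A) (some j) ^ 2 = ∑ j, D.mlt Z (some j) ^ 2 + (A.card : ℤ) ^ 2 := by
      have : ∀ j, D.mlt (Z ∪ A) (some j) ^ 2 =
          D.mlt Z (some j) ^ 2 + if j = i then (A.card : ℤ) ^ 2 else 0 := by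
        intro j
        rw [hm]
        by_cases hj : j = i
        · subst hj
          rw [h0, if_pos rfl, if_pos rfl]
          ring
        · rw [if_neg hj, if_neg fun h => hj (Option.some.inj h)]
          ring
      simp only [this, Finset.sum_add_distrib, Finset.sum_ite_eq', mem_univ, if_true]
    have h2 : ∑ e, D.mlt (Z ∪ A) (D.src e) * D.mlt (Z ∪ A) (D.tgt e) =
        ∑ e, D.mlt Z (D.src e) * D.mlt Z (D.tgt e) + A.card * D.nb i Z := by
      rw [nb, Finset.mul_sum, ← Finset.sum_add_distrib]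
      refine Finset.sum_congr rfl fun e _ => ?_
      rw [hm, hm]
      have h3 := hi e
      split_ifs with h4 h5 h5
      · exact absurd ⟨h4, h5⟩ h3
      all_goals ring
    rw [qf, qf, h1, h2]
    ring
  · rw [nb, nb]
    refine Finset.sum_congr rfl fun e _ => ?_
    rw [hm, hm]
    have h3 := hi e
    split_ifs with h4 h5 h5
    · exact absurd ⟨h4, h5⟩ h3
    all_goals ring
  · rw [hm, h0, if_pos rfl, zero_add]

theorem q_refl {S : Finset (Fin n)} (h : 1 ≤ D.qf S) : ∃ i Z A, D.NLi i ∧ S = Z ∪ A ∧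
    (∀ b ∈ Z, D.col b ≠ i) ∧ (∀ a ∈ A, D.col a = i) ∧ (D.nb i Z < A.card ∨
      ∃ A' ⊆ A, A'.card < A.card ∧ (A.card : ℤ) + A'.card = D.nb i Z ∧
        D.qf (Z ∪ A') = D.qf S) := by
  obtain ⟨i, hi, hlt⟩ := D.q_pick h
  have hS : S = (S.filter fun a => D.col a ≠ i) ∪ S.filter fun a => D.col a = i := by
    ext a
    by_cases ha : D.col a = i <;> simp [ha]
  have hZ : ∀ b ∈ S.filter fun a => D.col a ≠ i, D.col b ≠ i := fun b hb =>
    (Finset.mem_filter.1 hb).2
  have hA : ∀ b ∈ S.filter fun a => D.col a = i, D.col b = i := fun b hb =>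
    (Finset.mem_filter.1 hb).2
  refine ⟨i, _, _, hi, hS, hZ, hA, ?_⟩
  generalize (S.filter fun a => D.col a ≠ i) = Z at hS hZ ⊢
  generalize (S.filter fun a => D.col a = i) = A at hS hA ⊢
  subst hS
  obtain ⟨e1, e2, e3⟩ := D.q_split hi hZ hA
  rw [e2, e3] at hlt
  by_cases hc : D.nb i Z < A.card
  · exact Or.inl hc
  · right
    obtain ⟨A', hA', hcard⟩ := Finset.exists_subset_card_eq (s := A)
      (n := (D.nb i Z - A.card).toNat) (by omega)
    have h1 : (A.card : ℤ) + A'.card = D.nb i Z := by omega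
    refine ⟨A', hA', by omega, h1, ?_⟩
    rw [(D.q_split hi hZ fun a ha => hA a (hA' ha)).1, e1, ← h1]
    ring

theorem q_single (a : Fin n) : D.qf {a} ≤ 1 := by
  have h1 : ∑ i, D.mlt {a} (some i) ^ 2 = 1 := by
    have : ∀ i, D.mlt {a} (some i) ^ 2 = if D.col a = i then 1 else 0 := by
      intro i
      rw [mlt, Finset.filter_singleton]
      by_cases hi : D.col a = i <;> simp [hi]
    simp only [this, Finset.sum_ite_eq, mem_univ, if_true]
  have h2 : 0 ≤ ∑ e, D.mlt {a} (D.src e) * D.mlt {a} (D.tgt e) :=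
    Finset.sum_nonneg fun e _ => mul_nonneg (D.zq_nn _ _) (D.zq_nn _ _)
  rw [qf, h1]
  omega

theorem q_empty : D.qf ∅ = 0 := by
  simp [qf, mlt]

/-- a character separating the multidegrees of bounded negative coweights -/
theorem exists_star : ∃ ρ : Fin k → ℤ, ∀ μ μ' : Fin n → ℤ, (∀ a, μ a ≤ 0) → (∀ a, μ' a ≤ 0) →
    -(n : ℤ) ≤ D.dg 1 μ → -(n : ℤ) ≤ D.dg 1 μ' → D.dg ρ μ = D.dg ρ μ' →
      ∀ ν, D.dg ν μ = D.dg ν μ' := by
  have hdg : ∀ (ν : Fin k → ℤ) (μ : Fin n → ℤ),
      D.dg ν μ = -∑ i, ν i * -∑ a with D.col a = i, μ a := by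
    intro ν μ
    rw [dg, ← Finset.sum_fiberwise univ D.col, ← Finset.sum_neg_distrib]
    refine Finset.sum_congr rfl fun i _ => ?_
    rw [mul_neg, neg_neg, Finset.mul_sum]
    refine Finset.sum_congr rfl fun a ha => ?_
    rw [(Finset.mem_filter.1 ha).2]
  have hb : ∀ μ : Fin n → ℤ, (∀ a, μ a ≤ 0) → -(n : ℤ) ≤ D.dg 1 μ → ∀ i,
      0 ≤ -∑ a with D.col a = i, μ a ∧ -∑ a with D.col a = i, μ a < (n : ℤ) + 1 := by
    intro μ h1 h2 i
    have h3 : ∀ i, 0 ≤ -∑ a with D.col a = i, μ a := fun i =>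
      neg_nonneg.2 (Finset.sum_nonpos fun a _ => h1 a)
    refine ⟨h3 i, ?_⟩
    rw [hdg] at h2
    simp only [Pi.one_apply, one_mul] at h2
    have h4 := Finset.single_le_sum (s := univ) (f := fun i => -∑ a with D.col a = i, μ a)
      (fun i _ => h3 i) (mem_univ i)
    omega
  refine ⟨fun i => ((n : ℤ) + 1) ^ (i : ℕ), fun μ μ' h1 h2 h3 h4 h5 ν => ?_⟩
  rw [hdg, hdg, neg_inj] at h5
  have h6 := zq_digits ((n : ℤ) + 1) k _ _ (hb μ h1 h3) (hb μ' h2 h4) h5
  rw [hdg, hdg]
  congr 1
  exact Finset.sum_congr rfl fun i _ => by rw [congrFun h6 i]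

end QD

end Pool.Agent.Work.MP_849ab0_ag
end
end

-- merged part: Pool.Agent.Work.MP_849ab0_ag.Forms
section
/-! Root forms are prime; divisibility between linear forms; the local criterion for polynomiality. -/

noncomputable section

set_option linter.unusedSectionVars false

namespace Pool.Agent.Work.MP_849ab0_ag

open MvPolynomial Finset

namespace QD

variable {k n : ℕ} {E R : Type} [Fintype E] [CommRing R] [IsDomain R] (D : QD k n E R)

theorem Forms_iff {a b : Fin n} (j : ℤ) (h : a ≠ b) (p : Pol n R) : D.rt a b j ∣ p ↔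
    aeval (fun c => if c = a then X b - (j : Pol n R) * C D.h else X c) p = (0 : Pol n R) := by
  constructor
  · rintro ⟨q, rfl⟩
    simp [rt, h.symm]
  · have key : D.rt a b j ∣
        p - aeval (fun c => if c = a then X b - (j : Pol n R) * C D.h else X c) p := by
      induction p using MvPolynomial.induction_on with
      | C r => simp
      | add p q hp hq =>
        rw [map_add, add_sub_add_comm]
        exact dvd_add hp hq
      | mul_X p c hp =>
        rw [map_mul, aeval_X, ← sub_add_sub_cancel _ (_ * X c), ← sub_mul, ← mul_sub]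
        refine dvd_add (hp.mul_right _) (Dvd.dvd.mul_left ?_ _)
        split_ifs with e
        · rw [e, ← sub_add]
          exact dvd_rfl
        · simp
    intro e
    rwa [e, sub_zero] at key

theorem Forms_eval {a b : Fin n} {j : ℤ} (h : a ≠ b) {p : Pol n R} (hp : D.rt a b j ∣ p)
    {y : Fin n → R} (hy : y a = y b) : eval (Pi.single a (-(j * D.h)) + y) p = 0 := by
  obtain ⟨q, rfl⟩ := hp
  simp [rt, h.symm, hy]

theorem Forms_chi (hl : D.NL) {p : E × Option (Fin n) × Option (Fin n)} (hp : p ∈ D.Wt) (r : R)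
    (x : Fin n → R) : ∃ y : Fin k → R,
      eval (x + y ∘ D.col) (D.chi p + C r) ≠ eval (x + 0) (D.chi p + C r) := by
  obtain ⟨e, o, o'⟩ := p
  obtain ⟨h1, h2⟩ := D.mem_Wt.1 hp
  have h3 := hl e
  rw [← h1, ← h2] at h3
  rcases o with _ | c <;> rcases o' with _ | d
  · exact absurd rfl h3
  · exact ⟨1, by simp [chi]⟩
  · exact ⟨1, by simp [chi]⟩
  · have h4 : D.col c ≠ D.col d := fun e => h3 (congrArg some e)
    exact ⟨Pi.single (D.col d) 1, by simp [chi, h4]⟩

theorem prime_rt {a b : Fin n} (j : ℤ) (h : a ≠ b) : Prime (D.rt a b j) := by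
  have key := D.Forms_iff j h
  refine ⟨fun e => ?_, fun u => ?_, fun p q hpq => ?_⟩
  · have h1 := congrArg (eval (Pi.single a 1)) e
    have h2 := congrArg (eval 0) e
    simp only [rt, map_add, map_sub, map_mul, map_intCast, eval_C, eval_X, Pi.single_eq_same,
      Pi.single_eq_of_ne h.symm, map_zero, Pi.zero_apply] at h1 h2
    exact one_ne_zero (α := R) (by linear_combination h1 - h2)
  · simpa using (key 1).1 u.dvd
  · simpa only [key, map_mul, mul_eq_zero] using hpq

theorem not_rt_dvd_C {a b : Fin n} (j : ℤ) (h : a ≠ b) {r : R} (hr : r ≠ 0) :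
    ¬ D.rt a b j ∣ C r := fun e => hr (by simpa using D.Forms_eval h e (y := 0) rfl)

theorem not_rt_dvd_chi (hl : D.NL) {a b : Fin n} (j : ℤ) (h1 : a ≠ b) (h2 : D.col a = D.col b)
    {p : E × Option (Fin n) × Option (Fin n)} (hp : p ∈ D.Wt) (r : R) :
    ¬ D.rt a b j ∣ D.chi p + C r := fun e => by
  obtain ⟨y, hy⟩ := D.Forms_chi hl hp r (Pi.single a (-(j * D.h)))
  exact hy ((D.Forms_eval h1 e (congrArg y h2)).trans (D.Forms_eval h1 e rfl).symm)

theorem not_rt_dvd_mm (hl : D.NL) {a b : Fin n} (j : ℤ) (h1 : a ≠ b) (h2 : D.col a = D.col b)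
    (μ : Fin n → ℤ) : ¬ D.rt a b j ∣ D.mm μ := fun e => by
  obtain ⟨p, hp, e⟩ := (D.prime_rt j h1).exists_mem_finset_dvd e
  obtain ⟨i, -, e⟩ := (D.prime_rt j h1).exists_mem_finset_dvd e
  exact D.not_rt_dvd_chi hl j h1 h2 hp (i * D.h) (by simpa using e)

theorem chi_add_ne_zero (hl : D.NL) {p : E × Option (Fin n) × Option (Fin n)} (hp : p ∈ D.Wt)
    (r : R) : D.chi p + C r ≠ 0 := fun e => by
  obtain ⟨y, hy⟩ := D.Forms_chi hl hp r 0
  simp [e] at hy

theorem mm_ne_zero (hl : D.NL) (μ : Fin n → ℤ) : D.mm μ ≠ 0 :=   prod_ne_zero_iff.2 fun p hp => prod_ne_zero_iff.2 fun i _ => by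
    simpa using D.chi_add_ne_zero hl hp (i * D.h)

theorem RS_ne_zero {y : Pol n R} (hy : y ∈ D.RS) : y ≠ 0 := by
  induction hy using Submonoid.closure_induction with
  | mem x hx =>
    obtain ⟨a, b, j, h1, -, rfl⟩ := hx
    exact (D.prime_rt j h1).ne_zero
  | one => exact one_ne_zero
  | mul x y _ _ hx hy => exact mul_ne_zero hx hy

theorem al_injective : Function.Injective D.al :=   IsLocalization.injective D.Om fun _ hy => mem_nonZeroDivisors_of_ne_zero (D.RS_ne_zero hy)

instance : IsDomain D.Om :=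
  IsLocalization.isDomain_localization fun _ hy => mem_nonZeroDivisors_of_ne_zero (D.RS_ne_zero hy)

theorem rt_dvd_rt [CharZero R] (hh : D.h ≠ 0) {a b c d : Fin n} {j i : ℤ} (h1 : a ≠ b)
    (h2 : c ≠ d) (h : D.rt a b j ∣ D.rt c d i) :
    (c = a ∧ d = b ∧ i = j) ∨ (c = b ∧ d = a ∧ i = -j) := by
  have h0 := D.Forms_eval h1 h (y := 0) rfl
  have key : ∀ y : Fin n → R, y a = y b → y c = y d := fun y hy => by
    have := D.Forms_eval h1 h hy
    simp only [rt, map_add, map_sub, map_mul, map_intCast, eval_C, eval_X, Pi.add_apply,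
      add_zero] at h0 this
    linear_combination this - h0
  have hc : c = a ∨ c = b := by
    by_contra e
    rw [not_or] at e
    simpa [h2.symm] using key (Pi.single c 1) (by simp [Ne.symm e.1, Ne.symm e.2])
  have hd : d = a ∨ d = b := by
    by_contra e
    rw [not_or] at e
    simpa [h2] using key (Pi.single d 1) (by simp [Ne.symm e.1, Ne.symm e.2])
  rcases hc with rfl | rfl <;> rcases hd with rfl | rfl
  · exact absurd rfl h2
  · refine .inl ⟨rfl, rfl, Int.cast_injective (α := R) (mul_right_cancel₀ hh ?_)⟩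
    simp [rt, h2.symm] at h0
    linear_combination h0
  · refine .inr ⟨rfl, rfl, Int.cast_injective (α := R) (mul_right_cancel₀ hh ?_)⟩
    simp [rt, h2] at h0
    push_cast
    linear_combination h0
  · exact absurd rfl h2

/-- `h * LL μ ν = sh ν p₂ - sh μ p₂` for the second power sum `p₂` -/
def LL (μ ν : Fin n → ℤ) : Pol n R :=
  ∑ c, ((ν c - μ c : ℤ) : Pol n R) * (2 * X c + ((ν c + μ c : ℤ) : Pol n R) * C D.h)

theorem sh_p2 (μ ν : Fin n → ℤ) :
    D.sh ν (∑ c, X c ^ 2) - D.sh μ (∑ c, X c ^ 2) = C D.h * D.LL μ ν := by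
  simp only [LL, map_sum, map_pow, sh_X, mul_sum, ← sum_sub_distrib]
  refine sum_congr rfl fun c _ => ?_
  push_cast
  ring

theorem rt_dvd_LL [CharZero R] (hh : D.h ≠ 0) {a b : Fin n} {j : ℤ} (h1 : a ≠ b)
    {μ ν : Fin n → ℤ} (hν : ν ≠ μ) (h : D.rt a b j ∣ D.LL μ ν) :
    j - (μ a - μ b) ≠ 0 ∧
      ν = μ + Pi.single a (j - (μ a - μ b)) - Pi.single b (j - (μ a - μ b)) ∧
      D.LL μ ν = C ((2 * (j - (μ a - μ b)) : ℤ) : R) * D.rt a b j := by
  have h0 := D.Forms_eval h1 h (y := 0) rfl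
  have key : ∀ y : Fin n → R, y a = y b → ∑ c, ((ν c - μ c : ℤ) : R) * y c = 0 := fun y hy => by
    have := D.Forms_eval h1 h hy
    simp only [LL, map_sum, map_mul, map_add, map_intCast, eval_X, Pi.add_apply, eval_C, map_ofNat,
      Pi.zero_apply] at h0 this
    refine mul_left_cancel₀ (two_ne_zero (α := R)) ?_
    rw [mul_zero, ← sub_eq_zero.2 (this.trans h0.symm), ← sum_sub_distrib, mul_sum]
    exact sum_congr rfl fun c _ => by ring
  obtain ⟨t, rfl⟩ : ∃ t, ν = μ + Pi.single a t - Pi.single b t := by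
    refine ⟨ν a - μ a, funext fun c => ?_⟩
    by_cases ha : c = a
    · simp [ha, h1]
    by_cases hb : c = b
    · have := key (Pi.single a 1 + Pi.single b 1) (by simp [h1, h1.symm])
      simp only [Pi.add_apply, mul_add, sum_add_distrib, Pi.single_apply, mul_ite, mul_one,
        mul_zero, sum_ite_eq', mem_univ, if_true] at this
      norm_cast at this
      simp [hb, h1.symm]
      omega
    · have := key (Pi.single c 1) (by simp [Ne.symm ha, Ne.symm hb])
      simp only [Pi.single_apply, mul_ite, mul_one, mul_zero, sum_ite_eq', mem_univ, if_true] at this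
      norm_cast at this
      simp [ha, hb]
      omega
  have ht : t ≠ 0 := fun e => hν (by simp [e])
  have e : D.LL μ (μ + Pi.single a t - Pi.single b t) =
      C ((2 * t : ℤ) : R) * D.rt a b (t + (μ a - μ b)) := by
    rw [LL, Fintype.sum_eq_add a b h1 fun c hc => by simp [hc.1, hc.2]]
    simp [h1, h1.symm, rt, map_ofNat]
    ring
  rw [e] at h ⊢
  obtain ⟨-, -, rfl⟩ | ⟨e', -⟩ := D.rt_dvd_rt hh h1 h1 (((D.prime_rt j h1).dvd_or_dvd h).resolve_left
    (D.not_rt_dvd_C j h1 (Int.cast_ne_zero.2 (mul_ne_zero two_ne_zero ht))))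
  · rw [add_sub_cancel_right]
    exact ⟨ht, rfl, rfl⟩
  · exact absurd e' h1

/-- An element of `Om` with no pole along any root form is a polynomial. -/
theorem om_local (q : D.Om) (h : ∀ a b j, a ≠ b → D.col a = D.col b →
    ∃ c r, ¬ D.rt a b j ∣ c ∧ q * D.al c = D.al r) : ∃ p, q = D.al p := by
  obtain ⟨⟨p, y, hy⟩, e⟩ := IsLocalization.surj D.RS q
  change q * D.al y = D.al p at e
  induction hy using Submonoid.closure_induction_left generalizing p with
  | one => exact ⟨p, by rwa [map_one, mul_one] at e⟩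
  | mul_left x hx y _ ih =>
    obtain ⟨a, b, j, h1, h2, rfl⟩ := hx
    obtain ⟨c, r, h3, h4⟩ := h a b j h1 h2
    have h5 : p * c = D.rt a b j * (r * y) := D.al_injective (by
      simp only [map_mul] at e ⊢
      rw [← e, ← h4]
      ring)
    obtain ⟨p', rfl⟩ := ((D.prime_rt j h1).dvd_or_dvd ⟨_, h5⟩).resolve_right h3
    refine ih p' ((D.isUnit_rt j h1 h2).mul_left_cancel ?_)
    rw [← map_mul, ← e, map_mul]
    ring

end QD

end Pool.Agent.Work.MP_849ab0_ag
end
end

-- merged part: Pool.Agent.Work.MP_849ab0_ag.Grade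
section
/-! Gradings, specialisation maps, the commutative case. -/

noncomputable section

set_option linter.unusedSectionVars false

namespace Pool.Agent.Work.MP_849ab0_ag

open MvPolynomial Finset

namespace QD

variable {k n : ℕ} {E R : Type} [Fintype E] [CommRing R] (D : QD k n E R)

section Op

variable {K : Type} [CommRing K] [MulSemiringAction D.Lat K] [Algebra (Pol n R) K]

theorem hom_cmp (ν : Fin k → ℤ) (m : ℤ) (x : D.Op K) : D.Hom K ν m (D.cmp ν m x) := by
  rw [hom_iff]
  intro μ h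
  rw [co_cmp] at h
  by_contra e
  exact h (if_neg e)

theorem cmp_of_hom {ν : Fin k → ℤ} {m : ℤ} {x : D.Op K} (h : D.Hom K ν m x) : D.cmp ν m x = x := by
  apply D.op_ext; intro μ
  rw [co_cmp]
  split_ifs with e
  · rfl
  · by_contra e'
    exact e (D.hom_iff.1 h μ (Ne.symm e'))

theorem cmp_of_hom_ne {ν : Fin k → ℤ} {m m' : ℤ} {x : D.Op K} (h : D.Hom K ν m x) (hm : m ≠ m') :
    D.cmp ν m' x = 0 := by
  apply D.op_ext; intro μ
  rw [co_cmp, co_zero]
  split_ifs with e
  · by_contra e'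
    exact hm ((D.hom_iff.1 h μ e').symm.trans e)
  · rfl

theorem cmp_mul {ν : Fin k → ℤ} {m : ℤ} {x : D.Op K} (h : D.Hom K ν m x) (m' : ℤ) (y : D.Op K) :
    D.cmp ν m' (x * y) = x * D.cmp ν (m' - m) y := by
  apply D.op_ext; intro κ
  rw [co_cmp, co_mul, co_mul]
  have : ∀ μ ∈ D.sup x, (D.dg ν (κ - μ) = m' - m ↔ D.dg ν κ = m') := by
    intro μ hμ
    have h1 := D.hom_iff.1 h μ (D.mem_sup.1 hμ)
    have h2 := D.dg_add ν μ (κ - μ)
    rw [add_sub_cancel] at h2
    omega
  split_ifs with e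
  · refine sum_congr rfl fun μ hμ => ?_
    rw [co_cmp, if_pos ((this μ hμ).2 e)]
  · symm
    refine sum_eq_zero fun μ hμ => ?_
    rw [co_cmp, if_neg fun e' => e ((this μ hμ).1 e'), map_zero, mul_zero]

theorem Le.cmp {M : ℤ} {x : D.Op K} (h : D.Le M x) (ν : Fin k → ℤ) (m : ℤ) :
    D.Le M (D.cmp ν m x) := by
  intro μ hμ
  rw [co_cmp] at hμ
  split_ifs at hμ with e
  · exact h μ hμ
  · exact absurd rfl hμ

theorem Le.sub {M : ℤ} {x y : D.Op K} (hx : D.Le M x) (hy : D.Le M y) : D.Le M (x - y) := by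
  intro μ hμ
  rw [co_sub] at hμ
  by_cases e : D.co x μ = 0
  · exact hy μ fun e' => hμ (by rw [e, e', sub_zero])
  · exact hx μ e

theorem Hom.sub {ν : Fin k → ℤ} {m : ℤ} {x y : D.Op K} (hx : D.Hom K ν m x) (hy : D.Hom K ν m y) :
    D.Hom K ν m (x - y) := by
  rw [← D.cmp_of_hom hx, ← D.cmp_of_hom hy, ← map_sub]; exact D.hom_cmp ν m _

theorem le_cst {M : ℤ} (hM : 0 ≤ M) (f : Pol n R) : D.Le M (D.cst K f) := by
  intro κ h a
  rw [cst_eq, co_sg] at h
  have : (0 : Fin n → ℤ) = κ := by by_contra e; exact h (if_neg e)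
  subst this; exact hM

theorem le_mon {M : ℤ} {μ : Fin n → ℤ} (h : ∀ a, μ a ≤ M) (g : Pol n R) :
    D.Le M (D.mon K μ g) := by
  intro κ hκ a
  obtain ⟨w, rfl⟩ := D.co_mon_ne hκ
  exact h _

theorem exists_le (x : D.Op K) : ∃ M, 0 ≤ M ∧ D.Le M x := by
  refine ⟨∑ μ ∈ D.sup x, ∑ a, |μ a|, sum_nonneg fun _ _ => sum_nonneg fun _ _ => abs_nonneg _, ?_⟩
  intro μ hμ a
  calc μ a ≤ |μ a| := le_abs_self _
    _ ≤ ∑ a, |μ a| := single_le_sum (f := fun a => |μ a|) (fun _ _ => abs_nonneg _) (mem_univ a)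
    _ ≤ _ := single_le_sum (f := fun μ : Fin n → ℤ => ∑ a, |μ a|)
      (fun _ _ => sum_nonneg fun _ _ => abs_nonneg _) (D.mem_sup.2 hμ)

theorem cmp_mem (ν : Fin k → ℤ) {x : D.Op K} (hx : x ∈ D.Alg K) (m : ℤ) :
    D.cmp ν m x ∈ D.Alg K := by
  let s : Set (D.Op K) := {b | b ∈ D.Alg K ∧ ∃ m, D.Hom K ν m b}
  have h1 : x ∈ AddSubgroup.closure s := by
    induction hx using Subring.closure_induction with
    | mem x hx =>
      refine AddSubgroup.subset_closure ⟨Subring.subset_closure hx, ?_⟩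
      rcases hx with ⟨f, -, rfl⟩ | ⟨μ, g, -, rfl⟩
      · exact ⟨0, D.hom_cst ν f⟩
      · exact ⟨_, D.hom_mon ν μ g⟩
    | zero => exact zero_mem _
    | one =>
      refine AddSubgroup.subset_closure ⟨one_mem _, 0, ?_⟩
      simpa [← cstHom_apply] using D.hom_cst (K := K) ν 1
    | add x y _ _ hx hy => exact add_mem hx hy
    | neg x _ hx => exact neg_mem hx
    | mul x y _ _ hx hy =>
      clear * - hx hy
      induction hx using AddSubgroup.closure_induction with
      | mem x hx =>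
        induction hy using AddSubgroup.closure_induction with
        | mem y hy =>
          obtain ⟨h1, m, h2⟩ := hx
          obtain ⟨h3, m', h4⟩ := hy
          exact AddSubgroup.subset_closure ⟨mul_mem h1 h3, _, h2.mul D h4⟩
        | zero => simp
        | add y z _ _ hy hz => rw [mul_add]; exact add_mem hy hz
        | neg y _ hy => rw [mul_neg]; exact neg_mem hy
      | zero => simp
      | add x z _ _ hx hz => rw [add_mul]; exact add_mem hx hz
      | neg x _ hx => rw [neg_mul]; exact neg_mem hx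
  clear hx
  induction h1 using AddSubgroup.closure_induction with
  | mem x hx =>
    obtain ⟨h1, m', h2⟩ := hx
    by_cases e : m' = m
    · subst e; rwa [D.cmp_of_hom h2]
    · rw [D.cmp_of_hom_ne h2 e]; exact zero_mem _
  | zero => simp
  | add y z _ _ hy hz => rw [map_add]; exact add_mem hy hz
  | neg y _ hy => rw [map_neg]; exact neg_mem hy

theorem neg_ind_min (S : Finset (Fin n)) : (∀ a, (-ind S) a = 0 ∨ (-ind S) a = 1) ∨
    ∀ a, (-ind S) a = 0 ∨ (-ind S) a = -1 :=
  Or.inr fun a => by simp only [Pi.neg_apply, ind]; split_ifs <;> simp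

theorem ind_min (S : Finset (Fin n)) : (∀ a, ind S a = 0 ∨ ind S a = 1) ∨
    ∀ a, ind S a = 0 ∨ ind S a = -1 :=
  Or.inl fun a => by simp only [ind]; split_ifs <;> simp

theorem dg_ind (ν : Fin k → ℤ) (S : Finset (Fin n)) :
    D.dg ν (ind S) = ∑ a ∈ S, ν (D.col a) := by
  simp [dg, ind, sum_ite_mem]

theorem dg_ind_pos {ν : Fin k → ℤ} (hν : ∀ i, 0 < ν i) {S : Finset (Fin n)} (hS : S.Nonempty) :
    0 < D.dg ν (ind S) := by
  rw [dg_ind]; exact sum_pos (fun a _ => hν _) hS

theorem JM_le {ν : Fin k → ℤ} (hν : ∀ i, 0 < ν i) (M : ℤ) : D.JM K ν M ≤ D.JJ K ν := by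
  refine AddSubgroup.closure_mono ?_
  rintro x ⟨S, g, a, hS, ha, hh, -, rfl⟩
  refine ⟨_, ?_, _, D.mon_mem (neg_ind_min S) g, a, ha, D.hom_mon ν _ g, ?_, rfl⟩
  · rw [dg_neg]; linarith [D.dg_ind_pos hν hS]
  · rwa [dg_neg, neg_neg]

theorem JJ_mem {ν : Fin k → ℤ} {x : D.Op K} (hx : x ∈ D.JJ K ν) :
    x ∈ D.Alg K ∧ D.Hom K ν 0 x := by
  induction hx using AddSubgroup.closure_induction with
  | mem x hx =>
    obtain ⟨m, -, b, hb, a, ha, h1, h2, rfl⟩ := hx
    exact ⟨mul_mem hb ha, by simpa using h1.mul D h2⟩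
  | zero => exact ⟨zero_mem _, fun μ h => absurd rfl h⟩
  | add y z _ _ hy hz =>
    refine ⟨add_mem hy.1 hz.1, ?_⟩
    rw [← D.cmp_of_hom hy.2, ← D.cmp_of_hom hz.2, ← map_add]; exact D.hom_cmp ν 0 _
  | neg y _ hy =>
    refine ⟨neg_mem hy.1, ?_⟩
    rw [← D.cmp_of_hom hy.2, ← map_neg]; exact D.hom_cmp ν 0 _

theorem mon_zero (g : Pol n R) : D.mon K 0 g = D.cst K (Av D.col g) := by
  rw [mon_eq, Av, ← cstHom_apply, map_sum]
  refine sum_congr rfl fun w _ => ?_
  have : (0 : Fin n → ℤ) ∘ w.1.symm = 0 := rfl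
  rw [this, mm_zero, ee_zero, map_one, Ring.inverse_one, mul_one, mul_one]; rfl

section Maps

variable {R' K' : Type} [CommRing R'] [CommRing K'] (D' : QD k n E R')
  [MulSemiringAction D'.Lat K'] [Algebra (Pol n R') K'] (ψ : K →+* K')
  (hψ : ∀ μ c, ψ (D.act K μ c) = D'.act K' μ (ψ c))

theorem co_opMap_ne {x : D.Op K} {μ : Fin n → ℤ} (h : D'.co (D.opMap D' ψ hψ x) μ ≠ 0) :
    D.co x μ ≠ 0 := fun e => h (by rw [co_opMap, e, map_zero])

theorem Le.opMap {M : ℤ} {x : D.Op K} (h : D.Le M x) : D'.Le M (D.opMap D' ψ hψ x) :=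
  fun μ hμ => h μ (D.co_opMap_ne D' ψ hψ hμ)

end Maps

/-! the commutative case -/

theorem mul_comm_of_act (h : ∀ μ c, D.act K μ c = c) (x y : D.Op K) : x * y = y * x := by
  rw [← D.sum_sg x, ← D.sum_sg y, sum_mul_sum, sum_mul_sum, sum_comm]
  refine sum_congr rfl fun μ _ => sum_congr rfl fun ν _ => ?_
  rw [sg_mul_sg, sg_mul_sg, h, h, add_comm, mul_comm]

variable (K) in
/-- the ideal of the nontrivial monopole operators -/
def AA0 : AddSubgroup (D.Op K) :=
  AddSubgroup.closure {x | ∃ (μ : Fin n → ℤ) (g : Pol n R) (a : D.Op K), μ ≠ 0 ∧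
    ((∀ a, μ a = 0 ∨ μ a = 1) ∨ (∀ a, μ a = 0 ∨ μ a = -1)) ∧ a ∈ D.Alg K ∧ x = D.mon K μ g * a}

theorem AA0_mul {x a : D.Op K} (hx : x ∈ D.AA0 K) (ha : a ∈ D.Alg K) : x * a ∈ D.AA0 K := by
  induction hx using AddSubgroup.closure_induction with
  | mem x hx =>
    obtain ⟨μ, g, b, h0, h1, hb, rfl⟩ := hx
    exact AddSubgroup.subset_closure ⟨μ, g, b * a, h0, h1, mul_mem hb ha, mul_assoc _ _ _⟩
  | zero => simp
  | add y z _ _ hy hz => rw [add_mul]; exact add_mem hy hz
  | neg y _ hy => rw [neg_mul]; exact neg_mem hy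

theorem AA0_cmp (ν : Fin k → ℤ) (m : ℤ) {x : D.Op K} (hx : x ∈ D.AA0 K) :
    D.cmp ν m x ∈ D.AA0 K := by
  induction hx using AddSubgroup.closure_induction with
  | mem x hx =>
    obtain ⟨μ, g, b, h0, h1, hb, rfl⟩ := hx
    rw [D.cmp_mul (D.hom_mon ν μ g)]
    exact AddSubgroup.subset_closure ⟨μ, g, _, h0, h1, D.cmp_mem ν hb _, rfl⟩
  | zero => simp
  | add y z _ _ hy hz => rw [map_add]; exact add_mem hy hz
  | neg y _ hy => rw [map_neg]; exact neg_mem hy

theorem exists_AA0 (h : ∀ μ c, D.act K μ c = c) {x : D.Op K} (hx : x ∈ D.Alg K) :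
    ∃ f ∈ Inv R D.col, x - D.cst K f ∈ D.AA0 K := by
  induction hx using Subring.closure_induction with
  | mem x hx =>
    rcases hx with ⟨f, hf, rfl⟩ | ⟨μ, g, hμ, rfl⟩
    · exact ⟨f, hf, by simp⟩
    · by_cases h0 : μ = 0
      · subst h0; exact ⟨_, Av_mem D.col g, by rw [mon_zero]; simp⟩
      · refine ⟨0, zero_mem _, ?_⟩
        rw [← cstHom_apply, map_zero, sub_zero]
        exact AddSubgroup.subset_closure ⟨μ, g, 1, h0, hμ, one_mem _, (mul_one _).symm⟩
  | zero => exact ⟨0, zero_mem _, by rw [← cstHom_apply]; simp⟩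
  | one => exact ⟨1, one_mem _, by rw [← cstHom_apply]; simp⟩
  | add x y _ _ hx hy =>
    obtain ⟨f, hf, hx⟩ := hx
    obtain ⟨g, hg, hy⟩ := hy
    refine ⟨f + g, add_mem hf hg, ?_⟩
    simp only [← cstHom_apply, map_add] at hx hy ⊢
    convert add_mem hx hy using 1; abel
  | neg x _ hx =>
    obtain ⟨f, hf, hx⟩ := hx
    refine ⟨-f, neg_mem hf, ?_⟩
    simp only [← cstHom_apply, map_neg] at hx ⊢
    convert neg_mem hx using 1; abel
  | mul x y hx' hy' hx hy =>
    obtain ⟨f, hf, hx⟩ := hx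
    obtain ⟨g, hg, hy⟩ := hy
    refine ⟨f * g, mul_mem hf hg, ?_⟩
    have h1 := D.AA0_mul hx hy'
    have h2 := D.AA0_mul hy (D.cst_mem hf)
    rw [D.mul_comm_of_act h] at h2
    simp only [← cstHom_apply, map_mul] at h1 h2 ⊢
    convert add_mem h1 h2 using 1; noncomm_ring

theorem JJ_le_AA0 (h : ∀ μ c, D.act K μ c = c) (ν : Fin k → ℤ) : D.JJ K ν ≤ D.AA0 K := by
  refine (AddSubgroup.closure_le _).2 ?_
  rintro x ⟨m, hm, b, hb, a, ha, h1, -, rfl⟩
  obtain ⟨f, -, hf⟩ := D.exists_AA0 h hb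
  have := D.AA0_cmp ν m hf
  rw [map_sub, D.cmp_of_hom h1, D.cmp_of_hom_ne (D.hom_cst ν f) hm.ne', sub_zero] at this
  exact D.AA0_mul this ha

theorem cmp_AA0 (h : ∀ μ c, D.act K μ c = c) {ν : Fin k → ℤ}
    (hν : ∀ S : Finset (Fin n), S.Nonempty → ∑ a ∈ S, ν (D.col a) ≠ 0) {x : D.Op K}
    (hx : x ∈ D.AA0 K) : D.cmp ν 0 x ∈ D.JJ K ν := by
  induction hx using AddSubgroup.closure_induction with
  | mem x hx =>
    obtain ⟨μ, g, b, h0, h1, hb, rfl⟩ := hx
    have hS : (univ.filter fun a => μ a ≠ 0).Nonempty := by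
      obtain ⟨a, ha⟩ := Function.ne_iff.1 h0
      exact ⟨a, mem_filter.2 ⟨mem_univ _, ha⟩⟩
    have hd : D.dg ν μ ≠ 0 := by
      have := hν _ hS
      rw [← dg_ind] at this
      rcases h1 with h1 | h1
      · have e : ind (univ.filter fun a => μ a ≠ 0) = μ := by
          funext a; rcases h1 a with e | e <;> simp [ind, e]
        rwa [e] at this
      · have e : ind (univ.filter fun a => μ a ≠ 0) = -μ := by
          funext a; rcases h1 a with e | e <;> simp [ind, e]
        rwa [e, dg_neg, neg_ne_zero] at this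
    rw [D.cmp_mul (D.hom_mon ν μ g), zero_sub]
    rcases hd.lt_or_gt with hd | hd
    · exact AddSubgroup.subset_closure ⟨_, hd, _, D.mon_mem h1 g, _, D.cmp_mem ν hb _,
        D.hom_mon ν μ g, D.hom_cmp ν _ _, rfl⟩
    · refine AddSubgroup.subset_closure ⟨_, neg_neg_of_pos hd, _, D.cmp_mem ν hb _, _,
        D.mon_mem h1 g, D.hom_cmp ν _ _, ?_, D.mul_comm_of_act h _ _⟩
      rw [neg_neg]; exact D.hom_mon ν μ g
  | zero => simp
  | add y z _ _ hy hz => rw [map_add]; exact add_mem hy hz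
  | neg y _ hy => rw [map_neg]; exact neg_mem hy

end Op

theorem act_of_h_zero [IsDomain R] (hh : D.h = 0) (μ : Fin n → ℤ) (c : FractionRing (Pol n R)) :
    D.act _ μ c = c := by
  have : D.act (FractionRing (Pol n R)) μ = RingHom.id _ := by
    apply IsLocalization.ringHom_ext (nonZeroDivisors (Pol n R))
    refine RingHom.ext fun f => ?_
    have : D.sh μ = AlgHom.id R _ := by ext a; simp [sh, hh]
    rw [RingHom.comp_apply, act_alg, this]; rfl
  rw [this]; rfl

section Sp

variable {R' : Type} [CommRing R'] [IsDomain R'] (χ : R →+* R')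

/-- specialisation of coefficients -/
def sp : D.Om →+* FractionRing (Pol n R') :=
  D.lift ((algebraMap (Pol n R') _).comp (MvPolynomial.map χ)) fun a b j h1 h2 => by
    rw [RingHom.comp_apply, map_rt, isUnit_iff_ne_zero]
    exact (map_ne_zero_iff _ (IsFractionRing.injective _ _)).2
      ((D.map χ).RS_ne_zero ((D.map χ).rt_mem j h1 h2))

theorem sp_al (f : Pol n R) :
    D.sp χ (D.al f) = algebraMap (Pol n R') _ (MvPolynomial.map χ f) := D.lift_al _ _ _

theorem sp_act (μ : Fin n → ℤ) (c : D.Om) :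
    D.sp χ (D.act _ μ c) = (D.map χ).act _ μ (D.sp χ c) := by
  have : (D.sp χ).comp (D.act _ μ) = ((D.map χ).act _ μ).comp (D.sp χ) :=
    D.om_ext fun f => by simp only [RingHom.comp_apply, act_alg, sp_al, map_sh]
  exact RingHom.congr_fun this c

theorem sp_cc (μ : Fin n → ℤ) : D.sp χ (D.cc μ) =
    algebraMap _ _ ((D.map χ).mm μ) * Ring.inverse (algebraMap _ _ ((D.map χ).ee μ)) := by
  rw [cc, map_mul, map_inverse _ (D.isUnit_ee μ), sp_al, sp_al, map_mm, map_ee]

theorem sp_ker (hl : D.NL) (l : Fin n → ℤ) (g : Pol n R)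
    (h : D.al g * D.cc l ∈ RingHom.ker (D.sp χ)) (m : Fin n →₀ ℕ) :
    D.al (C (coeff m g)) ∈ RingHom.ker (D.sp χ) := by
  have hi := IsFractionRing.injective (Pol n R') (FractionRing (Pol n R'))
  rw [RingHom.mem_ker, map_mul, sp_cc, sp_al, Ring.inverse_eq_inv'] at h
  have h1 := (map_ne_zero_iff _ hi).2 ((D.map χ).mm_ne_zero hl l)
  have h2 := (map_ne_zero_iff _ hi).2 ((D.map χ).RS_ne_zero ((D.map χ).ee_mem l))
  have h3 := (map_eq_zero_iff _ hi).1
    ((mul_eq_zero.1 h).resolve_right (mul_ne_zero h1 (inv_ne_zero h2)))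
  rw [RingHom.mem_ker, sp_al, map_C, ← coeff_map, h3]; simp

/-- specialisation of operators -/
def spOp : D.Op D.Om →+* (D.map χ).Op (FractionRing (Pol n R')) :=
  D.opMap (D.map χ) (D.sp χ) (D.sp_act χ)

theorem co_spOp (x : D.Op D.Om) (μ : Fin n → ℤ) :
    (D.map χ).co (D.spOp χ x) μ = D.sp χ (D.co x μ) := D.co_opMap _ _ _ _ _

theorem spOp_cst (f : Pol n R) :
    D.spOp χ (D.cst _ f) = (D.map χ).cst _ (MvPolynomial.map χ f) := by
  rw [cst_eq, cst_eq, spOp, opMap_sg, sp_al]

theorem spOp_mon (μ : Fin n → ℤ) (g : Pol n R) :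
    D.spOp χ (D.mon _ μ g) = (D.map χ).mon _ μ (MvPolynomial.map χ g) := by
  rw [mon_om, mon_eq, map_sum]
  refine sum_congr rfl fun w _ => ?_
  rw [spOp, opMap_sg, map_mul, sp_al, sp_cc, map_mul, map_rename, mul_assoc]

theorem spOp_mem {x : D.Op D.Om} (hx : x ∈ D.Alg _) : D.spOp χ x ∈ (D.map χ).Alg _ := by
  have : D.Alg _ ≤ ((D.map χ).Alg _).comap (D.spOp χ) := by
    refine Subring.closure_le.2 ?_
    rintro x (⟨f, hf, rfl⟩ | ⟨μ, g, hμ, rfl⟩)
    · rw [SetLike.mem_coe, Subring.mem_comap, spOp_cst]; exact (D.map χ).cst_mem (map_mem_Inv χ hf)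
    · rw [SetLike.mem_coe, Subring.mem_comap, spOp_mon]; exact (D.map χ).mon_mem hμ _
  exact this hx

theorem spOp_hom {ν : Fin k → ℤ} {m : ℤ} {x : D.Op D.Om} (hx : D.Hom _ ν m x) :
    (D.map χ).Hom _ ν m (D.spOp χ x) :=
  fun μ hμ => hx μ (D.co_opMap_ne _ _ _ hμ)

theorem spOp_cmp (ν : Fin k → ℤ) (m : ℤ) (x : D.Op D.Om) :
    D.spOp χ (D.cmp ν m x) = (D.map χ).cmp ν m (D.spOp χ x) := by
  apply (D.map χ).op_ext; intro μ
  rw [co_spOp, co_cmp, co_cmp, co_spOp]
  change _ = if D.dg ν μ = m then _ else _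
  split_ifs <;> simp

theorem spOp_JJ {ν : Fin k → ℤ} {x : D.Op D.Om} (hx : x ∈ D.JJ _ ν) :
    D.spOp χ x ∈ (D.map χ).JJ _ ν := by
  induction hx using AddSubgroup.closure_induction with
  | mem x hx =>
    obtain ⟨m, hm, b, hb, a, ha, h1, h2, rfl⟩ := hx
    exact AddSubgroup.subset_closure ⟨m, hm, _, D.spOp_mem χ hb, _, D.spOp_mem χ ha,
      D.spOp_hom χ h1, D.spOp_hom χ h2, map_mul _ _ _⟩
  | zero => simp
  | add y z _ _ hy hz => rw [map_add]; exact add_mem hy hz
  | neg y _ hy => rw [map_neg]; exact neg_mem hy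

variable (s : R' →+* R) (hs : ∀ r, χ (s r) = r)
include hs

theorem map_map_sec (f : Pol n R') : MvPolynomial.map χ (MvPolynomial.map s f) = f := by
  rw [MvPolynomial.map_map, show χ.comp s = RingHom.id _ from RingHom.ext hs,
    MvPolynomial.map_id]

theorem lift_alg {y : (D.map χ).Op (FractionRing (Pol n R'))} (hy : y ∈ (D.map χ).Alg _) :
    ∃ x ∈ D.Alg D.Om, D.spOp χ x = y := by
  have : (D.map χ).Alg _ ≤ (D.Alg D.Om).map (D.spOp χ) := by
    refine Subring.closure_le.2 ?_
    rintro x (⟨f, hf, rfl⟩ | ⟨μ, g, hμ, rfl⟩)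
    · exact ⟨_, D.cst_mem (map_mem_Inv s hf), by rw [spOp_cst, map_map_sec χ s hs]⟩
    · exact ⟨_, D.mon_mem hμ (MvPolynomial.map s g), by rw [spOp_mon, map_map_sec χ s hs]⟩
  exact this hy

theorem lift_hom {ν : Fin k → ℤ} {m : ℤ} {y : (D.map χ).Op (FractionRing (Pol n R'))}
    (hy : y ∈ (D.map χ).Alg _) (hm : (D.map χ).Hom _ ν m y) :
    ∃ x ∈ D.Alg D.Om, D.Hom _ ν m x ∧ D.spOp χ x = y := by
  obtain ⟨x, hx, rfl⟩ := D.lift_alg χ s hs hy
  exact ⟨_, D.cmp_mem ν hx m, D.hom_cmp ν m x, by rw [spOp_cmp, (D.map χ).cmp_of_hom hm]⟩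

theorem lift_JJ {ν : Fin k → ℤ} {y : (D.map χ).Op (FractionRing (Pol n R'))}
    (hy : y ∈ (D.map χ).JJ _ ν) : ∃ x ∈ D.JJ D.Om ν, D.spOp χ x = y := by
  induction hy using AddSubgroup.closure_induction with
  | mem x hx =>
    obtain ⟨m, hm, b, hb, a, ha, h1, h2, rfl⟩ := hx
    obtain ⟨b', hb', h3, rfl⟩ := D.lift_hom χ s hs hb h1
    obtain ⟨a', ha', h4, rfl⟩ := D.lift_hom χ s hs ha h2
    exact ⟨_, AddSubgroup.subset_closure ⟨m, hm, b', hb', a', ha', h3, h4, rfl⟩, map_mul _ _ _⟩
  | zero => exact ⟨0, zero_mem _, map_zero _⟩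
  | add y z _ _ hy hz =>
    obtain ⟨y, hy, rfl⟩ := hy
    obtain ⟨z, hz, rfl⟩ := hz
    exact ⟨y + z, add_mem hy hz, map_add _ _ _⟩
  | neg y _ hy =>
    obtain ⟨y, hy, rfl⟩ := hy
    exact ⟨-y, neg_mem hy, map_neg _ _⟩

end Sp

end QD

end Pool.Agent.Work.MP_849ab0_ag
end
end
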