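import Pool.Agent.Work.MP_849ab0_ag.Grade

-- merged part: Pool.Agent.Work.MP_849ab0_ag.JK
section
/-! Combinatorics of the Jeffrey-Kirwan coefficients. -/

noncomputable section

namespace Pool.Agent.Work.MP_849ab0_ag

open Finset

variable {n : ℕ}

/-- generic character -/
def Gen (ν : Fin n → ℤ) : Prop := ∀ S : Finset (Fin n), S.Nonempty → ∑ a ∈ S, ν a ≠ 0

/-- the position of a point -/
def JK_pos (π : Equiv.Perm (Fin n)) (o : Option (Fin n)) : ℤ := o.elim (n : ℤ) fun a => ((π a).1 : ℤ)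

theorem JK_pos_some (π : Equiv.Perm (Fin n)) (a : Fin n) : JK_pos π (some a) = (π a).1 := rfl

theorem JK_pos_none (π : Equiv.Perm (Fin n)) : JK_pos π none = n := rfl

theorem JK_pos_lt (π : Equiv.Perm (Fin n)) (a : Fin n) : JK_pos π (some a) < n :=
  Int.ofNat_lt.2 (π a).2

theorem JK_pos_le (π : Equiv.Perm (Fin n)) (o : Option (Fin n)) : JK_pos π o ≤ n := by
  cases o
  exacts [le_rfl, (JK_pos_lt π _).le]

theorem JK_pos_inj (π : Equiv.Perm (Fin n)) : Function.Injective (JK_pos π) := by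
  rintro (_ | a) (_ | b) h
  · rfl
  · exact absurd h (JK_pos_lt π b).ne'
  · exact absurd h (JK_pos_lt π a).ne
  · exact congrArg some (π.injective (Fin.ext (Int.natCast_inj.1 h)))

theorem JK_pos_nxt (π : Equiv.Perm (Fin n)) (a : Fin n) :
    JK_pos π (nxt π a) = JK_pos π (some a) + 1 := by
  have := (π a).2
  unfold nxt
  split_ifs with h
  · simp [JK_pos]
  · rw [JK_pos_none, JK_pos_some]
    omega

theorem JK_nxt_iff {π : Equiv.Perm (Fin n)} {a : Fin n} {o : Option (Fin n)} :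
    nxt π a = o ↔ JK_pos π o = JK_pos π (some a) + 1 :=
  ⟨fun h => h ▸ JK_pos_nxt π a, fun h => JK_pos_inj π ((JK_pos_nxt π a).trans h.symm)⟩

theorem JK_le_iff (π : Equiv.Perm (Fin n)) (a b : Fin n) :
    π a ≤ π b ↔ JK_pos π (some a) ≤ JK_pos π (some b) := Int.ofNat_le.symm

theorem JK_outer (π : Equiv.Perm (Fin n)) (o o' : Option (Fin n)) :
    outer π o o' ↔ JK_pos π o < JK_pos π o' := by
  rcases o with _ | a
  · exact iff_of_false id (JK_pos_le π o').not_gt
  rcases o' with _ | b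
  · exact iff_of_true trivial (JK_pos_lt π a)
  · exact Int.ofNat_lt.symm

theorem JK_pos_mul (π w : Equiv.Perm (Fin n)) (o : Option (Fin n)) :
    JK_pos (π * w) o = JK_pos π (o.map w) := by
  cases o <;> rfl

theorem JK_nxt_mul (π w : Equiv.Perm (Fin n)) (a : Fin n) :
    (nxt (π * w) a).map w = nxt π (w a) := by
  rw [eq_comm, JK_nxt_iff, ← JK_pos_mul, JK_pos_nxt]
  rfl

theorem JK_mul (ν : Fin n → ℤ) (s : Option (Fin n) → ℤ) (π w : Equiv.Perm (Fin n)) :
    jk ν (s ∘ Option.map w) (π * w) = ∏ a, ((if s (some a) < s (nxt π a) then 1 else 0) -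
      if ∑ b with π (w b) ≤ π a, ν b < 0 then 1 else 0) := by
  rw [← Equiv.prod_comp w]
  refine prod_congr rfl fun a _ => ?_
  rw [← JK_nxt_mul]
  rfl

theorem jk_congr (ν : Fin n → ℤ) {s s' : Option (Fin n) → ℤ}
    (h : ∀ o o', s o < s o' ↔ s' o < s' o') (π : Equiv.Perm (Fin n)) : jk ν s π = jk ν s' π := by
  simp only [jk, h]

theorem jk_perm (ν : Fin n → ℤ) (w : Equiv.Perm (Fin n)) (hw : ∀ a, ν (w a) = ν a)
    (s : Option (Fin n) → ℤ) (π : Equiv.Perm (Fin n)) :
    jk ν (s ∘ Option.map w.symm) (π * w⁻¹) = jk ν s π := by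
  refine (JK_mul ν s π w⁻¹).trans (prod_congr rfl fun a _ => ?_)
  rw [sum_filter, sum_filter, ← Equiv.sum_comp w]
  simp only [Equiv.Perm.coe_inv, Equiv.symm_apply_apply, hw]

theorem JK_swap {α : Type} [DecidableEq α] {u : α → ℤ} (hu : Function.Injective u) {x y : α}
    (h : u x < u y) (hb : ∀ c, u x < u c → u y ≤ u c) {o o' : α} (h1 : ¬(o = x ∧ o' = y))
    (h2 : ¬(o = y ∧ o' = x)) : u o < u o' ↔ u (Equiv.swap x y o) < u (Equiv.swap x y o') := by
  have e1 := hu.ne_iff (x := o) (y := x)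
  have e2 := hu.ne_iff (x := o) (y := y)
  have e3 := hu.ne_iff (x := o') (y := x)
  have e4 := hu.ne_iff (x := o') (y := y)
  have e5 := hb o
  have e6 := hb o'
  rw [← hu.eq_iff, ← hu.eq_iff (a := o')] at h1 h2
  simp only [Equiv.swap_apply_def, ← hu.eq_iff]
  split_ifs <;> omega

theorem JK_same (ν : Fin n → ℤ) {s : Option (Fin n) → ℤ} {x y : Option (Fin n)}
    (hsw : ∀ o o', ¬(o = x ∧ o' = y) → ¬(o = y ∧ o' = x) →
      (s o < s o' ↔ s (Equiv.swap x y o) < s (Equiv.swap x y o'))) {π : Equiv.Perm (Fin n)}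
    (h1 : ∀ a, some a = x → nxt π a ≠ y) (h2 : ∀ a, some a = y → nxt π a ≠ x) :
    jk ν s π = jk ν (s ∘ Equiv.swap x y) π :=
  prod_congr rfl fun a _ => by
    simp only [Function.comp_apply, hsw _ _ (fun h => h1 a h.1 h.2) fun h => h2 a h.1 h.2]

theorem JK_adj (ν : Fin n → ℤ) {s : Option (Fin n) → ℤ} {a b : Fin n}
    (hsw : ∀ o o', ¬(o = some a ∧ o' = some b) → ¬(o = some b ∧ o' = some a) →
      (s o < s o' ↔ s (Equiv.swap (some a) (some b) o) < s (Equiv.swap (some a) (some b) o')))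
    {π : Equiv.Perm (Fin n)} (h : nxt π a = some b) :
    jk ν s π - jk ν (s ∘ Equiv.swap (some a) (some b)) π +
      (jk ν s (π * Equiv.swap a b) -
        jk ν (s ∘ Equiv.swap (some a) (some b)) (π * Equiv.swap a b)) = 0 := by
  have e : ⇑(Equiv.swap (some a) (some b)) = Option.map (Equiv.swap a b) := by
    rw [← Equiv.optionCongr_swap]
    rfl
  have e' : s = (s ∘ Equiv.swap (some a) (some b)) ∘ Option.map (Equiv.swap a b) := by
    rw [← e]
    funext o
    simp
  have h1 := JK_mul ν (s ∘ Equiv.swap (some a) (some b)) π (Equiv.swap a b)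
  have h2 := JK_mul ν s π (Equiv.swap a b)
  rw [← e'] at h1
  rw [← e] at h2
  rw [h1, h2, jk, jk]
  rw [JK_nxt_iff] at h
  have h3 : ∀ c ∈ univ.erase a, s (some c) < s (nxt π c) ↔
      (s ∘ Equiv.swap (some a) (some b)) (some c) < (s ∘ Equiv.swap (some a) (some b)) (nxt π c) :=
    fun c hc => hsw _ _ (fun h4 => ne_of_mem_erase hc (Option.some_injective _ h4.1)) fun h4 => by
      have h5 := JK_nxt_iff.1 h4.2
      rw [h4.1] at h5
      omega
  have h4 : ∀ c ∈ univ.erase a, ∀ d, π (Equiv.swap a b d) ≤ π c ↔ π d ≤ π c := fun c hc d => by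
    have h5 := (JK_pos_inj π).ne ((Option.some_injective _).ne (ne_of_mem_erase hc))
    rw [Equiv.swap_apply_def, JK_le_iff, JK_le_iff]
    split_ifs with h6 h7
    · rw [h6]
      omega
    · rw [h7]
      omega
    · rfl
  simp only [← mul_prod_erase _ _ (mem_univ a)]
  rw [prod_congr rfl fun c hc => congrArg₂ (· - ·) (if_congr (h3 c hc) rfl rfl) rfl,
    prod_congr rfl (g := fun c => (if (s ∘ Equiv.swap (some a) (some b)) (some c) <
      (s ∘ Equiv.swap (some a) (some b)) (nxt π c) then 1 else 0) -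
        if ∑ d with π d ≤ π c, ν d < 0 then (1 : ℤ) else 0)
      (f := fun c => _ - if ∑ d with π (Equiv.swap a b d) ≤ π c, ν d < 0 then 1 else 0)
      fun c hc => by simp only [h4 c hc],
    prod_congr rfl (g := fun c => (if (s ∘ Equiv.swap (some a) (some b)) (some c) <
      (s ∘ Equiv.swap (some a) (some b)) (nxt π c) then 1 else 0) -
        if ∑ d with π d ≤ π c, ν d < 0 then (1 : ℤ) else 0)
      (f := fun c => (if s (some c) < s (nxt π c) then 1 else 0) -
        if ∑ d with π (Equiv.swap a b d) ≤ π c, ν d < 0 then 1 else 0)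
      fun c hc => by simp only [h4 c hc, h3 c hc]]
  ring

theorem JK_step {A : Type} [AddCommGroup A] (ν : Fin n → ℤ) (G : Equiv.Perm (Fin n) → A)
    (Fr : Option (Fin n) → Option (Fin n) → Prop) (hs : ∀ o o', Fr o o' → Fr o' o)
    (H1 : ∀ π π', (∀ o o', ¬ Fr o o' → (outer π o o' ↔ outer π' o o')) → G π = G π')
    (H2 : ∀ π a, (∀ o, outer π (some a) o → Fr (some a) o) → G π = 0)
    {s : Option (Fin n) → ℤ} {x y : Option (Fin n)} (hf : Fr x y)
    (hsw : ∀ o o', ¬(o = x ∧ o' = y) → ¬(o = y ∧ o' = x) →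
      (s o < s o' ↔ s (Equiv.swap x y o) < s (Equiv.swap x y o'))) :
    ∑ π, jk ν s π • G π = ∑ π, jk ν (s ∘ Equiv.swap x y) π • G π := by
  have h0 : ∀ π a, nxt π a = none → Fr (some a) none → G π = 0 := fun π a h1 h2 =>
    H2 π a fun o h3 => by
      rw [JK_outer] at h3
      have h4 := JK_nxt_iff.1 h1
      have h5 := JK_pos_le π o
      rw [← JK_pos_none π] at h5
      rwa [JK_pos_inj π (show JK_pos π o = JK_pos π none by omega)]
  rcases x with _ | a
  · refine sum_congr rfl fun π _ => ?_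
    by_cases h : ∀ a, some a = y → nxt π a ≠ none
    · rw [JK_same ν hsw (fun a h1 => absurd h1 (Option.some_ne_none a)) h]
    · push Not at h
      obtain ⟨a, rfl, h⟩ := h
      rw [h0 π a h (hs _ _ hf), smul_zero, smul_zero]
  rcases y with _ | b
  · refine sum_congr rfl fun π _ => ?_
    by_cases h : nxt π a = none
    · rw [h0 π a h hf, smul_zero, smul_zero]
    · rw [JK_same ν hsw (fun c h1 => Option.some_injective _ h1 ▸ h)
        fun a h1 => absurd h1 (Option.some_ne_none a)]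
  rcases eq_or_ne a b with rfl | hab
  · rw [Equiv.swap_self]
    rfl
  have key : ∀ π, nxt π a = some b →
      (jk ν s π - jk ν (s ∘ Equiv.swap (some a) (some b)) π) • G π +
      (jk ν s (π * Equiv.swap a b) - jk ν (s ∘ Equiv.swap (some a) (some b))
        (π * Equiv.swap a b)) • G (π * Equiv.swap a b) = 0 := fun π h => by
    rw [← H1 π (π * Equiv.swap a b) fun o o' h1 => ?_, ← add_smul, JK_adj ν hsw h, zero_smul]
    have h2 := JK_nxt_iff.1 h
    rw [JK_outer, JK_outer, JK_pos_mul, JK_pos_mul, JK_swap (JK_pos_inj π) (x := some a)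
      (y := some b) (o := o) (o' := o') (by omega) (fun c => by omega)
      (fun h3 => h1 (h3.1 ▸ h3.2 ▸ hf)) (fun h3 => h1 (h3.1 ▸ h3.2 ▸ hs _ _ hf)),
      ← Equiv.optionCongr_swap]
    rfl
  have e : ∀ π : Equiv.Perm (Fin n), π * Equiv.swap a b * Equiv.swap a b = π := fun π => by
    rw [mul_assoc, Equiv.swap_mul_self, mul_one]
  have e1 : ∀ π : Equiv.Perm (Fin n), nxt (π * Equiv.swap a b) a = some b ↔ nxt π b = some a :=
    fun π => by simp [JK_nxt_iff, JK_pos_mul]
  have e2 : ∀ π : Equiv.Perm (Fin n), nxt (π * Equiv.swap a b) b = some a ↔ nxt π a = some b :=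
    fun π => by simp [JK_nxt_iff, JK_pos_mul]
  have e3 : ∀ π : Equiv.Perm (Fin n), nxt π a ≠ some b → nxt π b ≠ some a →
      jk ν s π = jk ν (s ∘ Equiv.swap (some a) (some b)) π := fun π h1 h2 =>
    JK_same ν hsw (fun c h3 => Option.some_injective _ h3 ▸ h1)
      fun c h3 => Option.some_injective _ h3 ▸ h2
  rw [← sub_eq_zero, ← sum_sub_distrib]
  simp only [← sub_smul]
  refine sum_ninvolution (· * Equiv.swap a b) (fun π => ?_) (fun π _ h => ?_)
    (fun _ => mem_univ _) e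
  · by_cases h1 : nxt π a = some b
    · exact key π h1
    by_cases h2 : nxt π b = some a
    · have := key _ ((e1 π).2 h2)
      rwa [e, add_comm] at this
    · rw [e3 π h1 h2, e3 _ (mt (e1 π).1 h2) (mt (e2 π).1 h1), sub_self, sub_self, zero_smul,
        zero_smul, add_zero]
  · exact hab (Equiv.swap_eq_one_iff.1 (mul_eq_left.1 h))

/-- moving free pairs past each other -/
theorem jk_free {A : Type} [AddCommGroup A] (ν : Fin n → ℤ) (G : Equiv.Perm (Fin n) → A)
    (Fr : Option (Fin n) → Option (Fin n) → Prop) (hs : ∀ o o', Fr o o' → Fr o' o)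
    (H1 : ∀ π π', (∀ o o', ¬ Fr o o' → (outer π o o' ↔ outer π' o o')) → G π = G π')
    (H2 : ∀ π a, (∀ o, outer π (some a) o → Fr (some a) o) → G π = 0)
    {s s' : Option (Fin n) → ℤ} (hi : Function.Injective s) (hi' : Function.Injective s')
    (h : ∀ o o', ¬ Fr o o' → (s o < s o' ↔ s' o < s' o')) :
    ∑ π, jk ν s π • G π = ∑ π, jk ν s' π • G π := by
  classical
  generalize hm : #{p : Option (Fin n) × Option (Fin n) | s p.1 < s p.2 ∧ s' p.2 < s' p.1} = m
  induction m using Nat.strong_induction_on generalizing s with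
  | _ m ih =>
  rcases ({p : Option (Fin n) × Option (Fin n) | s p.1 < s p.2 ∧ s' p.2 < s' p.1} :
    Finset _).eq_empty_or_nonempty with e | e
  · have e' : ∀ o o', s o < s o' → s' o ≤ s' o' := fun o o' h1 => not_lt.1 fun h2 =>
      filter_eq_empty_iff.1 e (mem_univ (o, o')) ⟨h1, h2⟩
    refine sum_congr rfl fun π _ => congrArg (· • G π) (jk_congr ν (fun o o' => ⟨fun h1 => ?_,
      fun h1 => ?_⟩) π)
    · exact (e' o o' h1).lt_of_ne fun h2 => h1.ne (congrArg s (hi' h2))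
    · exact (not_lt.1 fun h2 => (e' _ _ h2).not_gt h1).lt_of_ne fun h2 =>
        h1.ne (congrArg s' (hi h2))
  obtain ⟨⟨x, y⟩, h1, h2⟩ := exists_min_image _ (fun p => s p.2 - s p.1) e
  simp only [mem_filter, mem_univ, true_and, Prod.forall] at h1 h2
  have hb : ∀ c, s x < s c → s y ≤ s c := fun c h3 => not_lt.1 fun h4 => by
    rcases lt_or_ge (s' c) (s' x) with h5 | h5
    · have := h2 x c ⟨h3, h5⟩
      omega
    · have := h2 c y ⟨h4, h1.2.trans_le h5⟩
      omega
  have hf : Fr x y := not_not.1 fun h3 => h1.2.not_gt ((h x y h3).1 h1.1)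
  have hsw := fun o o' => JK_swap hi h1.1 hb (o := o) (o' := o')
  rw [JK_step ν G Fr hs H1 H2 hf hsw]
  refine ih _ ((card_lt_card ⟨fun p hp => ?_, fun hp => ?_⟩).trans_eq hm)
    (hi.comp (Equiv.swap x y).injective) (fun o o' h3 => ?_) rfl
  · simp only [mem_filter, mem_univ, true_and, Function.comp_apply] at hp ⊢
    refine ⟨(hsw _ _ ?_ ?_).2 hp.1, hp.2⟩
    · rintro ⟨e1, e2⟩
      rw [e1, e2, Equiv.swap_apply_left, Equiv.swap_apply_right] at hp
      exact hp.1.not_gt h1.1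
    · rintro ⟨e1, e2⟩
      rw [e1, e2] at hp
      exact hp.2.not_gt h1.2
  · have := (mem_filter.1 (hp (mem_filter.2 ⟨mem_univ (x, y), h1⟩))).2.1
    simp only [Function.comp_apply, Equiv.swap_apply_left, Equiv.swap_apply_right] at this
    exact this.not_gt h1.1
  · refine (hsw o o' ?_ ?_).symm.trans (h o o' h3)
    · rintro ⟨rfl, rfl⟩
      exact h3 hf
    · rintro ⟨rfl, rfl⟩
      exact h3 (hs _ _ hf)

theorem JK_tele (π : Equiv.Perm (Fin n)) (u : Option (Fin n) → ℤ) (o : Option (Fin n)) :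
    ∑ a with JK_pos π o ≤ JK_pos π (some a), (u (some a) - u (nxt π a)) = u o - u none := by
  generalize hm : (n - JK_pos π o).toNat = m
  induction m generalizing o with
  | zero =>
    have h1 := JK_pos_le π o
    rw [JK_pos_inj π (show JK_pos π o = JK_pos π none by rw [JK_pos_none]; omega), sub_self]
    exact sum_eq_zero fun a ha => absurd (mem_filter.1 ha).2 (JK_pos_lt π a).not_ge
  | succ m ih =>
    rcases o with _ | b
    · simp [JK_pos_none] at hm
    have h1 := JK_pos_nxt π b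
    have h2 : (univ.filter fun a => JK_pos π (some b) ≤ JK_pos π (some a)) =
        insert b (univ.filter fun a => JK_pos π (nxt π b) ≤ JK_pos π (some a)) := by
      ext a
      simp only [mem_filter, mem_univ, true_and, mem_insert]
      rw [← Option.some_inj, ← (JK_pos_inj π).eq_iff]
      omega
    rw [h2, sum_insert (fun h => by have := (mem_filter.1 h).2; omega), ih _ (by omega)]
    ring

theorem JK_abel (ν : Fin n → ℤ) (π : Equiv.Perm (Fin n)) (S : Finset (Fin n)) :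
    ∑ a ∈ S, ν a =
      ∑ a, (∑ b with π b ≤ π a, ν b) * (ov (ind S) (some a) - ov (ind S) (nxt π a)) := by
  simp only [sum_filter, sum_mul, ite_mul, zero_mul]
  rw [sum_comm, ← univ_inter S, ← sum_ite_mem, univ_inter]
  refine sum_congr rfl fun b _ => ?_
  simp only [JK_le_iff]
  rw [← sum_filter, ← mul_sum, JK_tele]
  simp [ind]

theorem JK_fac {ν : Fin n → ℤ} {s : Option (Fin n) → ℤ} {π : Equiv.Perm (Fin n)}
    (h : jk ν s π ≠ 0) (a : Fin n) :
    s (some a) < s (nxt π a) ↔ ¬∑ b with π b ≤ π a, ν b < 0 := by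
  have := prod_ne_zero_iff.1 h a (mem_univ a)
  split_ifs at this with h1 h2 h2 <;> simp_all

theorem JK_mem (S : Finset (Fin n)) (o : Option (Fin n)) :
    (∃ b ∈ S, o = some b ∧ ov (ind S) o = 1) ∨ (∀ b ∈ S, o ≠ some b) ∧ ov (ind S) o = 0 := by
  rcases o with _ | a
  · exact Or.inr ⟨fun b _ => (Option.some_ne_none b).symm, rfl⟩
  by_cases h : a ∈ S
  · exact Or.inl ⟨a, h, rfl, if_pos h⟩
  · exact Or.inr ⟨fun b hb e => h (Option.some_injective _ e ▸ hb), if_neg h⟩

theorem jk_inner {ν : Fin n → ℤ} {s : Option (Fin n) → ℤ} {π : Equiv.Perm (Fin n)}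
    (h : jk ν s π ≠ 0) {S : Finset (Fin n)} (hS : S.Nonempty)
    (hin : ∀ a ∈ S, ∀ o, (∀ b ∈ S, o ≠ some b) → s o < s (some a)) : ∑ a ∈ S, ν a < 0 := by
  rw [JK_abel ν π]
  have key : ∀ a ∈ S, (∀ b ∈ S, nxt π a ≠ some b) → ∑ b with π b ≤ π a, ν b < 0 :=
    fun a ha h1 => not_not.1 fun h2 => (hin a ha _ h1).not_gt ((JK_fac h a).2 h2)
  refine sum_neg' (fun a _ => ?_) ?_
  · rcases JK_mem S (some a) with ⟨c, hc, e1, e2⟩ | ⟨e1, e2⟩ <;>
      rcases JK_mem S (nxt π a) with ⟨d, hd, e3, e4⟩ | ⟨e3, e4⟩ <;> rw [e2, e4]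
    · simp
    · simpa using (key a (Option.some_injective _ e1 ▸ hc) e3).le
    · simpa using (JK_fac h a).1 (e3 ▸ hin d hd _ e1)
    · simp
  · obtain ⟨a, ha, h1⟩ := exists_max_image S π hS
    have h2 : ∀ b ∈ S, nxt π a ≠ some b := fun b hb e => by
      have h3 := JK_nxt_iff.1 e
      have h4 := (JK_le_iff π _ _).1 (h1 b hb)
      omega
    refine ⟨a, mem_univ a, ?_⟩
    rcases JK_mem S (nxt π a) with ⟨d, hd, e3, -⟩ | ⟨-, e4⟩
    · exact absurd e3 (h2 d hd)
    · simpa [e4, ind, ha] using key a ha h2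

theorem jk_outer {ν : Fin n → ℤ} {s : Option (Fin n) → ℤ} {π : Equiv.Perm (Fin n)}
    (h : jk ν s π ≠ 0) {S : Finset (Fin n)}
    (hout : ∀ a ∈ S, ∀ o, (∀ b ∈ S, o ≠ some b) → s (some a) < s o) : 0 ≤ ∑ a ∈ S, ν a := by
  rw [JK_abel ν π]
  refine sum_nonneg fun a _ => ?_
  rcases JK_mem S (some a) with ⟨c, hc, e1, e2⟩ | ⟨e1, e2⟩ <;>
    rcases JK_mem S (nxt π a) with ⟨d, hd, e3, e4⟩ | ⟨e3, e4⟩ <;> rw [e2, e4]
  · simp
  · simpa using (JK_fac h a).1 (e1 ▸ hout c hc _ e3)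
  · have := not_not.1 (mt (JK_fac h a).2 (e3 ▸ (hout d hd _ e1).not_gt))
    simpa using this.le
  · simp

/-- signed distances from the end -/
def JK_v (π : Equiv.Perm (Fin n)) (ε : Fin n → Bool) (o : Option (Fin n)) : ℤ :=
  if o.elim false ε then JK_pos π o - n else n - JK_pos π o

theorem JK_cmp (π : Equiv.Perm (Fin n)) (ε : Fin n → Bool) {o o' : Option (Fin n)}
    (h : JK_pos π o < JK_pos π o') : (JK_v π ε o < JK_v π ε o' ↔ o.elim false ε = true) ∧
      (JK_v π ε o' < JK_v π ε o ↔ ¬o.elim false ε = true) := by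
  have := JK_pos_le π o'
  unfold JK_v
  split_ifs with h1 h2 h2 <;> simp only [h1, iff_true, iff_false, not_true, not_false_iff,
    Bool.false_eq_true] <;> omega

theorem JK_v_inj (π : Equiv.Perm (Fin n)) (ε : Fin n → Bool) : Function.Injective (JK_v π ε) := by
  intro o o' h
  rcases lt_trichotomy (JK_pos π o) (JK_pos π o') with e | e | e
  · have := JK_cmp π ε e
    simp [h] at this
  · exact JK_pos_inj π e
  · have := JK_cmp π ε e
    simp [h] at this

theorem JK_diag (ν : Fin n → ℤ) (π : Equiv.Perm (Fin n)) :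
    ∑ ε : Fin n → Bool, (∏ a, if ε a then (1 : ℤ) else -1) * jk ν (JK_v π ε) π = 1 := by
  have h : ∀ ε a, JK_v π ε (some a) < JK_v π ε (nxt π a) ↔ ε a = true := fun ε a =>
    (JK_cmp π ε (by rw [JK_pos_nxt]; omega)).1
  simp only [jk, h, ← prod_mul_distrib]
  rw [← Fintype.prod_sum fun a (e : Bool) => (if e then (1 : ℤ) else -1) *
    ((if e then 1 else 0) - if ∑ b with π b ≤ π a, ν b < 0 then 1 else 0)]
  exact prod_eq_one fun a _ => by simp

theorem JK_off (ν : Fin n → ℤ) {π π' : Equiv.Perm (Fin n)} (h : π' ≠ π) :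
    ∑ ε : Fin n → Bool, (∏ a, if ε a then (1 : ℤ) else -1) * jk ν (JK_v π ε) π' = 0 := by
  obtain ⟨a, ha, h1⟩ := exists_max_image {a | π' a ≠ π a} π (by
    by_contra h1
    exact h (Equiv.ext fun a => not_not.1 fun h2 => h1 ⟨a, mem_filter.2 ⟨mem_univ a, h2⟩⟩))
  have h2 : ∀ o, JK_pos π (some a) < JK_pos π o → JK_pos π' o = JK_pos π o := by
    rintro (_ | c) hc
    · rfl
    · have h3 : π' c = π c := not_not.1 fun h3 =>
        hc.not_ge ((JK_le_iff π _ _).1 (h1 c (mem_filter.2 ⟨mem_univ c, h3⟩)))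
      rw [JK_pos_some, JK_pos_some, h3]
  have h3 : JK_pos π' (some a) < JK_pos π (some a) := by
    have h4 : JK_pos π (some (π.symm (π' a))) = JK_pos π' (some a) := by simp [JK_pos_some]
    rcases lt_trichotomy (JK_pos π' (some a)) (JK_pos π (some a)) with e | e | e
    · exact e
    · exact absurd (Fin.ext (Int.natCast_inj.1 e)) (mem_filter.1 ha).2
    · have h5 := JK_pos_inj π' ((h2 _ (h4 ▸ e)).trans h4)
      rw [h5] at h4
      omega
  refine sum_ninvolution (fun ε => Function.update ε a (!ε a)) (fun ε => ?_) (fun ε _ e => ?_)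
    (fun _ => mem_univ _) fun ε => by simp
  · have h4 : ∀ o, o ≠ some a → o.elim false (Function.update ε a (!ε a)) = o.elim false ε := by
      rintro (_ | c) hc
      · rfl
      · exact Function.update_of_ne (fun e => hc (congrArg some e)) _ _
    have h5 : jk ν (JK_v π (Function.update ε a (!ε a))) π' = jk ν (JK_v π ε) π' := by
      refine prod_congr rfl fun c _ => congrArg₂ (· - ·) (if_congr ?_ rfl rfl) rfl
      have h6 := JK_pos_nxt π' c
      rcases lt_trichotomy (JK_pos π (some c)) (JK_pos π (nxt π' c)) with e | e | e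
      · rw [(JK_cmp π _ e).1, (JK_cmp π _ e).1, h4]
        intro e'
        rw [e'] at e h6
        have := h2 _ e
        omega
      · rw [← JK_pos_inj π e, lt_self_iff_false, lt_self_iff_false]
      · rw [(JK_cmp π _ e).2, (JK_cmp π _ e).2, h4]
        intro e'
        rw [e'] at e h6
        have := h2 _ e
        omega
    have h6 : ∏ c ∈ univ.erase a, (if Function.update ε a (!ε a) c then (1 : ℤ) else -1) =
        ∏ c ∈ univ.erase a, if ε c then 1 else -1 :=
      prod_congr rfl fun c hc => by rw [Function.update_of_ne (ne_of_mem_erase hc)]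
    rw [h5, ← mul_prod_erase _ _ (mem_univ a), ← mul_prod_erase _ _ (mem_univ a), h6,
      Function.update_self]
    cases ε a <;> simp
  · simpa using congrFun e a

theorem jk_inj {A : Type} [AddCommGroup A] (ν : Fin n → ℤ) (G : Equiv.Perm (Fin n) → A)
    (h : ∀ s, Function.Injective s → ∑ π, jk ν s π • G π = 0) (π : Equiv.Perm (Fin n)) :
    G π = 0 := by
  have h1 : ∑ ε : Fin n → Bool, (∏ a, if ε a then (1 : ℤ) else -1) •
      ∑ π', jk ν (JK_v π ε) π' • G π' = 0 :=
    sum_eq_zero fun ε _ => by rw [h _ (JK_v_inj π ε), smul_zero]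
  simp only [smul_sum, smul_smul] at h1
  rw [sum_comm, sum_eq_single π (fun π' _ e => by rw [← sum_smul, JK_off ν e, zero_smul])
    fun e => absurd (mem_univ π) e, ← sum_smul, JK_diag, one_smul] at h1
  exact h1

theorem JK_count (c : ℤ) {t N : ℤ} (h : t ≤ N) :
    ∑ j ∈ Icc 1 N, (if j ≤ t then c else 0) = c * t.toNat := by
  have : {j ∈ Icc 1 N | j ≤ t} = Icc 1 t := by
    ext j
    simp only [mem_filter, mem_Icc]
    omega
  rw [← sum_filter, this, sum_const, Int.card_Icc, add_sub_cancel_right, nsmul_eq_mul, mul_comm]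

theorem JK_abs_le (l : Fin n → ℤ) (a : Fin n) : |l a| ≤ ∑ b, |l b| :=
  single_le_sum (f := fun b => |l b|) (fun _ _ => abs_nonneg _) (mem_univ a)

theorem level_sum (ν l : Fin n → ℤ) (N : ℤ) (hN : ∀ a, |l a| ≤ N) :
    ∑ a, ν a * l a = ∑ j ∈ Icc 1 N,
      (∑ a with j ≤ l a, ν a - ∑ a with j ≤ -l a, ν a) := by
  simp only [sum_filter, ← sum_sub_distrib]
  rw [sum_comm]
  refine sum_congr rfl fun a _ => ?_
  rw [sum_sub_distrib, JK_count _ (abs_le.1 (hN a)).2, JK_count _ (neg_le.1 (abs_le.1 (hN a)).1),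
    ← mul_sub, Int.toNat_sub_toNat_neg]

theorem level_exists {ν l : Fin n → ℤ} (hν : Gen ν) (hl : l ≠ 0) (h0 : ∑ a, ν a * l a = 0) :
    ∃ j, 1 ≤ j ∧ (∑ a with j ≤ l a, ν a < 0 ∨ 0 < ∑ a with j ≤ -l a, ν a) := by
  by_contra h
  push Not at h
  obtain ⟨a, ha⟩ := Function.ne_iff.1 hl
  have h1 := JK_abs_le l a
  have h2 : 0 < |l a| := abs_pos.2 ha
  rw [level_sum ν l _ (JK_abs_le l), sum_eq_zero_iff_of_nonneg fun j hj => by
    have := h j (mem_Icc.1 hj).1
    omega] at h0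
  have h3 := h0 1 (mem_Icc.2 ⟨le_rfl, by omega⟩)
  have h4 := h 1 le_rfl
  rcases lt_abs.1 h2 with e | e
  · exact hν {a | 1 ≤ l a} ⟨a, mem_filter.2 ⟨mem_univ a, e⟩⟩ (by omega)
  · exact hν {a | 1 ≤ -l a} ⟨a, mem_filter.2 ⟨mem_univ a, e⟩⟩ (by omega)

theorem jk_bound {ν q : Fin n → ℤ} (hν : Gen ν) {s : Option (Fin n) → ℤ}
    (hq : ∀ o o', ov q o' < ov q o → s o < s o') {π : Equiv.Perm (Fin n)} (h : jk ν s π ≠ 0)
    (a : Fin n) : |q a| ≤ ∑ b, ν b * q b := by
  rw [level_sum ν q _ (JK_abs_le q), ← Int.toNat_of_nonneg (abs_nonneg (q a)),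
    ← one_mul ((|q a|).toNat : ℤ), ← JK_count 1 (JK_abs_le q a)]
  refine sum_le_sum fun j hj => ?_
  have h0 := (mem_Icc.1 hj).1
  have h1 : 0 ≤ ∑ b with j ≤ q b, ν b := jk_outer h fun b hb o ho => hq _ _ <| by
    have h2 := (mem_filter.1 hb).2
    rcases o with _ | c
    · exact h0.trans h2
    · exact (not_le.1 fun h3 => ho c (mem_filter.2 ⟨mem_univ c, h3⟩) rfl).trans_le h2
  have h2 : ({b | j ≤ -q b} : Finset _).Nonempty → ∑ b with j ≤ -q b, ν b < 0 := fun hS =>
    jk_inner h hS fun b hb o ho => hq _ _ <| by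
      have h2 := (mem_filter.1 hb).2
      rcases o with _ | c
      · simp only [ov_some, ov_none]
        omega
      · have := not_le.1 fun h3 => ho c (mem_filter.2 ⟨mem_univ c, h3⟩) rfl
        simp only [ov_some]
        omega
  have h3 : ∑ b with j ≤ -q b, ν b ≤ 0 := by
    rcases ({b | j ≤ -q b} : Finset _).eq_empty_or_nonempty with e | e
    · rw [e, sum_empty]
    · exact (h2 e).le
  split_ifs with h4
  · rcases le_abs.1 h4 with e | e
    · have := hν {b | j ≤ q b} ⟨a, mem_filter.2 ⟨mem_univ a, e⟩⟩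
      omega
    · have := h2 ⟨a, mem_filter.2 ⟨mem_univ a, e⟩⟩
      omega
  · omega

theorem JK_shift (s : Option (Fin n) → ℤ) (hi : Function.Injective s) (χ : Option (Fin n) → ℤ) :
    ∃ s' : Option (Fin n) → ℤ, Function.Injective s' ∧ (∀ o o', χ o < χ o' → s' o < s' o') ∧
      ∀ o o', χ o = χ o' → (s o < s o' ↔ s' o < s' o') := by
  obtain ⟨M, hM⟩ : ∃ M, ∀ o, |s o| ≤ M :=
    ⟨_, fun o => single_le_sum (f := fun o => |s o|) (fun _ _ => abs_nonneg _) (mem_univ o)⟩
  have h : ∀ o o', χ o < χ o' → s o + (2 * M + 1) * χ o < s o' + (2 * M + 1) * χ o' := by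
    intro o o' h
    have h1 := abs_le.1 (hM o)
    have h2 := abs_le.1 (hM o')
    have h3 := mul_le_mul_of_nonneg_left (Int.add_one_le_of_lt h) (show 0 ≤ 2 * M + 1 by omega)
    linarith
  refine ⟨fun o => s o + (2 * M + 1) * χ o, fun o o' e => ?_, h, fun o o' e => by simp [e]⟩
  rcases lt_trichotomy (χ o) (χ o') with h1 | h1 | h1
  · exact absurd e (h _ _ h1).ne
  · exact hi (by simpa [h1] using e)
  · exact absurd e (h _ _ h1).ne'

/-- an order with `S` moved to the end -/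
theorem exists_inner (s : Option (Fin n) → ℤ) (hi : Function.Injective s) (S : Finset (Fin n)) :
    ∃ s' : Option (Fin n) → ℤ, Function.Injective s' ∧
      (∀ a ∈ S, ∀ o, (∀ b ∈ S, o ≠ some b) → s' o < s' (some a)) ∧
      ∀ o o', (ov (ind S) o = ov (ind S) o') → (s o < s o' ↔ s' o < s' o') := by
  obtain ⟨s', h1, h2, h3⟩ := JK_shift s hi (ov (ind S))
  refine ⟨s', h1, fun a ha o ho => h2 _ _ ?_, h3⟩
  rcases JK_mem S o with ⟨b, hb, e, -⟩ | ⟨-, e⟩
  · exact absurd e (ho b hb)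
  · simp [e, ind, ha]

/-- an order with `S` moved to the front -/
theorem exists_outer (s : Option (Fin n) → ℤ) (hi : Function.Injective s) (S : Finset (Fin n)) :
    ∃ s' : Option (Fin n) → ℤ, Function.Injective s' ∧
      (∀ a ∈ S, ∀ o, (∀ b ∈ S, o ≠ some b) → s' (some a) < s' o) ∧
      ∀ o o', (ov (ind S) o = ov (ind S) o') → (s o < s o' ↔ s' o < s' o') := by
  obtain ⟨s', h1, h2, h3⟩ := JK_shift s hi fun o => -ov (ind S) o
  refine ⟨s', h1, fun a ha o ho => h2 _ _ ?_, fun o o' e => h3 o o' (by rw [e])⟩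
  rcases JK_mem S o with ⟨b, hb, e, -⟩ | ⟨-, e⟩
  · exact absurd e (ho b hb)
  · simp [e, ind, ha]

/-- the order attached to a pair of lattice points -/
def key (q r : Fin n → ℤ) (o : Option (Fin n)) : ℤ :=
  (-ov q o * (2 * n + 2) - ov r o) * (n + 1) + o.elim (n : ℤ) fun a => (a.1 : ℤ)

theorem JK_key {q r : Fin n → ℤ} (hr : ∀ a, |r a| ≤ n) {o o' : Option (Fin n)}
    (h : ov q o' < ov q o ∨ (ov q o = ov q o' ∧ ov r o' < ov r o)) : key q r o < key q r o' := by
  have h1 : ∀ o, -(n : ℤ) ≤ ov r o ∧ ov r o ≤ n := by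
    rintro (_ | a)
    · simp
    · exact abs_le.1 (hr a)
  have h2 : ∀ o : Option (Fin n), 0 ≤ o.elim (n : ℤ) fun a => (a.1 : ℤ) := by
    rintro (_ | a) <;> simp
  have h3 : (o.elim (n : ℤ) fun a => (a.1 : ℤ)) ≤ n := JK_pos_le 1 o
  have h4 : -ov q o * (2 * n + 2) - ov r o + 1 ≤ -ov q o' * (2 * n + 2) - ov r o' := by
    rcases h with h | h
    · have := mul_le_mul_of_nonneg_right (Int.add_one_le_of_lt h)
        (show (0 : ℤ) ≤ 2 * n + 2 by omega)
      linarith [h1 o, h1 o']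
    · rw [h.1]
      omega
  have := mul_le_mul_of_nonneg_right h4 (show (0 : ℤ) ≤ n + 1 by omega)
  unfold key
  linarith [h2 o']

theorem key_inj (q : Fin n → ℤ) {r : Fin n → ℤ} (hr : ∀ a, |r a| ≤ n) :
    Function.Injective (key q r) := by
  intro o o' e
  rcases lt_trichotomy (ov q o) (ov q o') with h1 | h1 | h1
  · exact absurd e (JK_key hr (Or.inl h1)).ne'
  · rcases lt_trichotomy (ov r o) (ov r o') with h2 | h2 | h2
    · exact absurd e (JK_key hr (Or.inr ⟨h1.symm, h2⟩)).ne'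
    · rw [key, key, h1, h2] at e
      exact JK_pos_inj 1 (add_left_cancel e)
    · exact absurd e (JK_key hr (Or.inr ⟨h1, h2⟩)).ne
  · exact absurd e (JK_key hr (Or.inl h1)).ne

theorem key_lt {q r : Fin n → ℤ} (hr : ∀ a, |r a| ≤ n) {o o' : Option (Fin n)}
    (h : ov q o' < ov q o ∨ (ov q o = ov q o' ∧ ov r o' < ov r o)) : key q r o < key q r o' := by
  exact JK_key hr h

end Pool.Agent.Work.MP_849ab0_ag
end
end

-- merged part: Pool.Agent.Work.MP_849ab0_ag.FP
section
/-! Rational functions without poles on the free pairs. -/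

noncomputable section

namespace Pool.Agent.Work.MP_849ab0_ag

open MvPolynomial Finset

variable (n : ℕ) (R : Type) [CommRing R]

/-- products of linear forms -/
def FS : Submonoid (Pol n R) :=
  Submonoid.closure {x | ∃ o o' c, o ≠ o' ∧ x = xv o - xv o' + C c}

/-- rational functions with poles on the linear forms -/
abbrev O2 : Type := Localization (FS n R)

variable {n R}

theorem FP_total (π : Equiv.Perm (Fin n)) {o o' : Option (Fin n)} (h : o ≠ o') :
    outer π o o' ∨ outer π o' o := by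
  cases o with
  | none =>
    cases o' with
    | none => exact absurd rfl h
    | some b => exact Or.inr trivial
  | some a =>
    cases o' with
    | none => exact Or.inl trivial
    | some b => exact lt_or_gt_of_ne fun e => h (congrArg some (π.injective e))

theorem FP_asymm {π : Equiv.Perm (Fin n)} {o o' : Option (Fin n)} (h : outer π o o') :
    ¬ outer π o' o := by
  cases o with
  | none => exact h.elim
  | some a =>
    cases o' with
    | none => exact id
    | some b => exact lt_asymm (a := π a) (b := π b) h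

theorem FP_some {π : Equiv.Perm (Fin n)} {o o' : Option (Fin n)} (h : outer π o o') :
    ∃ a, o = some a := by
  cases o with
  | none => exact h.elim
  | some a => exact ⟨a, rfl⟩

theorem FP_neg (o : Option (Fin n)) (a : Fin n) (c : R) :
    (xv o - xv (some a) + C c : Pol n R) = -(X a - xv o + C (-c)) := by
  rw [xv_some, map_neg]
  ring

theorem FP_fm (π : Equiv.Perm (Fin n)) {o o' : Option (Fin n)} (h : o ≠ o') (c : R) :
    (∃ a, o = some a ∧ outer π o o' ∧ Fm π a (xv o - xv o' + C c : Pol n R)) ∨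
      ∃ a, o' = some a ∧ outer π o' o ∧ Fm π a (xv o - xv o' + C c : Pol n R) := by
  rcases FP_total π h with k | k
  · obtain ⟨a, rfl⟩ := FP_some k
    exact Or.inl ⟨a, rfl, k, o', c, k, Or.inl rfl⟩
  · obtain ⟨a, rfl⟩ := FP_some k
    exact Or.inr ⟨a, rfl, k, o, -c, k, Or.inr (FP_neg o a c)⟩

theorem isUnit_form {F : Type} [CommRing F] (φ : R →+* F) (π : Equiv.Perm (Fin n))
    {o o' : Option (Fin n)} (h : o ≠ o') (c : R) : IsUnit (expand φ π (xv o - xv o' + C c)) := by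
  obtain ⟨a, -, -, hf⟩ | ⟨a, -, -, hf⟩ := FP_fm π h c <;> exact hf.isUnit φ

theorem isUnit_FS (π : Equiv.Perm (Fin n)) (y : FS n R) :
    IsUnit (expand (RingHom.id R) π y.1) := by
  obtain ⟨y, hy⟩ := y
  induction hy using Submonoid.closure_induction with
  | mem x hx =>
    obtain ⟨o, o', c, h, rfl⟩ := hx
    exact isUnit_form _ π h c
  | one => rw [map_one]; exact isUnit_one
  | mul x y _ _ h1 h2 => rw [map_mul]; exact h1.mul h2

/-- expansion -/
def exF (π : Equiv.Perm (Fin n)) : O2 n R →+* HahnSeries (Gam n) R :=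
  IsLocalization.lift (isUnit_FS π)

theorem exF_al (π : Equiv.Perm (Fin n)) (f : Pol n R) :
    exF π (algebraMap _ _ f) = expand (RingHom.id R) π f := IsLocalization.lift_eq _ _

theorem isUnit_O2 {o o' : Option (Fin n)} (h : o ≠ o') (c : R) :
    IsUnit (algebraMap (Pol n R) (O2 n R) (xv o - xv o' + C c)) :=
  IsLocalization.map_units (M := FS n R) (O2 n R) ⟨_, Submonoid.subset_closure ⟨o, o', c, h, rfl⟩⟩

variable (R) in
/-- no poles on free pairs -/
def AF (Fr : Option (Fin n) → Option (Fin n) → Prop) : Subring (O2 n R) :=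
  Subring.closure (Set.range (algebraMap (Pol n R) (O2 n R)) ∪
    {x | ∃ o o' c, o ≠ o' ∧ ¬ Fr o o' ∧
      x = Ring.inverse (algebraMap (Pol n R) (O2 n R) (xv o - xv o' + C c))})

/-- the inverse of a form is regular in `a` unless `a` is its outer point -/
theorem form_PP {F : Type} [CommRing F] (φ : R →+* F) (π : Equiv.Perm (Fin n))
    {o o' : Option (Fin n)} (h : o ≠ o') (c : R) (a : Fin n)
    (h1 : o = some a → ¬ outer π o o') (h2 : o' = some a → ¬ outer π o' o) :
    Ring.inverse (expand φ π (xv o - xv o' + C c)) ∈ PP F (π a) := by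
  obtain ⟨b, e, k, hf⟩ | ⟨b, e, k, hf⟩ := FP_fm π h c
  · exact hf.inv_mem φ fun e' => h1 (e' ▸ e) k
  · exact hf.inv_mem φ fun e' => h2 (e' ▸ e) k

/-- the inverse of a form depends only on the order of its two points -/
theorem form_Rel {F : Type} [CommRing F] (φ : R →+* F) {π π' : Equiv.Perm (Fin n)}
    {o o' : Option (Fin n)} (h : o ≠ o') (c : R) (h1 : outer π o o' ↔ outer π' o o') :
    (Ring.inverse (expand φ π (xv o - xv o' + C c)),
      Ring.inverse (expand φ π' (xv o - xv o' + C c))) ∈ Rel F π π' := by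
  rcases FP_total π h with k | k
  · obtain ⟨a, rfl⟩ := FP_some k
    exact inv_mem_Rel φ k (h1.1 k) c
  · have k' : outer π' o' o := (FP_total π' h).resolve_left fun j => FP_asymm k (h1.2 j)
    obtain ⟨a, rfl⟩ := FP_some k
    rw [FP_neg, map_neg (expand φ π), map_neg (expand φ π'), inverse_neg', inverse_neg']
    exact neg_mem (inv_mem_Rel φ k k' (-c))

theorem fp (ν : Fin n → ℤ) {Fr : Option (Fin n) → Option (Fin n) → Prop}
    (hs : ∀ o o', Fr o o' → Fr o' o) {z : O2 n R} (hz : z ∈ AF R Fr)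
    {s s' : Option (Fin n) → ℤ} (hi : Function.Injective s) (hi' : Function.Injective s')
    (h : ∀ o o', ¬ Fr o o' → (s o < s o' ↔ s' o < s' o')) :
    ∑ π, jk ν s π • (exF π z).coeff (toLex fun _ => 1) =
      ∑ π, jk ν s' π • (exF π z).coeff (toLex fun _ => 1) := by
  refine jk_free ν (fun π => (exF π z).coeff (toLex fun _ => 1)) Fr hs (fun π π' H => ?_)
    (fun π a H => ?_) hi hi' h
  · have key : AF R Fr ≤ (Rel R π π').comap ((exF π).prod (exF π')) := by
      refine Subring.closure_le.2 ?_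
      rintro _ (⟨f, rfl⟩ | ⟨o, o', c, h1, h2, rfl⟩)
      · change (exF π _, exF π' _) ∈ Rel R π π'
        rw [exF_al, exF_al]
        exact expand_mem_Rel _ π π' f
      · change (exF π _, exF π' _) ∈ Rel R π π'
        rw [map_inverse _ (isUnit_O2 h1 c), map_inverse _ (isUnit_O2 h1 c), exF_al, exF_al]
        exact form_Rel _ h1 c (H o o' h2)
    exact Rel.coeff_one (key hz)
  · have key : AF R Fr ≤ (PP R (π a)).comap (exF π) := by
      refine Subring.closure_le.2 ?_
      rintro _ (⟨f, rfl⟩ | ⟨o, o', c, h1, h2, rfl⟩)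
      · change exF π _ ∈ PP R (π a)
        rw [exF_al]
        exact expand_mem_PP _ π _ f
      · change exF π _ ∈ PP R (π a)
        rw [map_inverse _ (isUnit_O2 h1 c), exF_al]
        refine form_PP _ π h1 c a ?_ ?_
        · rintro rfl k
          exact h2 (H _ k)
        · rintro rfl k
          exact h2 (hs _ _ (H _ k))
    exact PP.coeff_one (key hz)

end Pool.Agent.Work.MP_849ab0_ag
end
end

-- merged part: Pool.Agent.Work.MP_849ab0_ag.Good
section
/-! The conditions Good define a subring; cocycle identities for mm and ee. -/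

noncomputable section

set_option linter.unusedSectionVars false

namespace Pool.Agent.Work.MP_849ab0_ag

open MvPolynomial Finset

section GoodAux

variable {A : Type} [CommRing A] (f : ℤ → A) {m m' : ℤ}

theorem good_neg_dvd (m m' : ℤ) :
    ∏ j ∈ Ico (m + m') 0, f j ∣ (∏ j ∈ Ico m 0, f j) * ∏ j ∈ Ico m' 0, f (j + m) := by
  rw [prod_Ico_add' f, ← prod_union_inter]
  refine (prod_dvd_prod_of_subset _ _ _ fun j hj => ?_).mul_right _
  simp only [mem_union, mem_Ico] at hj ⊢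
  omega

theorem good_neg_eq (h : (0 ≤ m ∧ 0 ≤ m') ∨ (m ≤ 0 ∧ m' ≤ 0)) :
    ∏ j ∈ Ico (m + m') 0, f j = (∏ j ∈ Ico m 0, f j) * ∏ j ∈ Ico m' 0, f (j + m) := by
  rw [prod_Ico_add' f, ← prod_union (disjoint_left.2 fun j h1 h2 => by
    simp only [mem_Ico] at h1 h2; omega)]
  refine prod_congr (Finset.ext fun j => ?_) fun _ _ => rfl
  simp only [mem_union, mem_Ico]
  omega

theorem good_pos_eq (h : (0 ≤ m ∧ 0 ≤ m') ∨ (m ≤ 0 ∧ m' ≤ 0)) :
    ∏ j ∈ Ico 0 (m + m'), f j = (∏ j ∈ Ico 0 m, f j) * ∏ j ∈ Ico 0 m', f (j + m) := by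
  rw [prod_Ico_add' f, ← prod_union (disjoint_left.2 fun j h1 h2 => by
    simp only [mem_Ico] at h1 h2; omega)]
  refine prod_congr (Finset.ext fun j => ?_) fun _ _ => rfl
  simp only [mem_union, mem_Ico]
  omega

end GoodAux

namespace QD

variable {k n : ℕ} {E R : Type} [Fintype E] [CommRing R] (D : QD k n E R)

theorem good_mm (μ ν : Fin n → ℤ) : D.mm (μ + ν) = ∏ p ∈ D.Wt,
    ∏ j ∈ Ico (ov μ p.2.2 - ov μ p.2.1 + (ov ν p.2.2 - ov ν p.2.1)) 0,
      (D.chi p + (j : Pol n R) * C D.h) :=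
  prod_congr rfl fun p _ => by rw [ov_add, ov_add, add_sub_add_comm]

theorem good_sh_mm (μ ν : Fin n → ℤ) : D.sh μ (D.mm ν) = ∏ p ∈ D.Wt,
    ∏ j ∈ Ico (ov ν p.2.2 - ov ν p.2.1) 0,
      (D.chi p + ((j + (ov μ p.2.2 - ov μ p.2.1) : ℤ) : Pol n R) * C D.h) := by
  simp only [mm, map_prod, map_add, map_mul, map_intCast, sh_chi, sh_C, Int.cast_add]
  exact prod_congr rfl fun p _ => prod_congr rfl fun j _ => by ring

theorem mm_add_dvd (μ ν : Fin n → ℤ) : D.mm (μ + ν) ∣ D.mm μ * D.sh μ (D.mm ν) := by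
  rw [good_mm, good_sh_mm, mm, ← prod_mul_distrib]
  exact prod_dvd_prod_of_dvd _ _ fun p _ =>
    good_neg_dvd (fun j : ℤ => D.chi p + (j : Pol n R) * C D.h) _ _

/-- `μ` and `ν` lie in a common chamber (framing point included) -/
def Coh (μ ν : Fin n → ℤ) : Prop :=
  ∀ o o' : Option (Fin n), (ov μ o ≤ ov μ o' ∧ ov ν o ≤ ov ν o') ∨
    (ov μ o' ≤ ov μ o ∧ ov ν o' ≤ ov ν o)

theorem mm_add {μ ν : Fin n → ℤ} (h : Coh μ ν) :
    D.mm (μ + ν) = D.mm μ * D.sh μ (D.mm ν) := by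
  rw [good_mm, good_sh_mm, mm, ← prod_mul_distrib]
  refine prod_congr rfl fun p _ =>
    good_neg_eq (fun j : ℤ => D.chi p + (j : Pol n R) * C D.h) ?_
  have := h p.2.1 p.2.2
  omega

theorem ee_add {μ ν : Fin n → ℤ} (h : Coh μ ν) :
    D.ee (μ + ν) = D.ee μ * D.sh μ (D.ee ν) := by
  simp only [ee_eq, map_prod, sh_rt, ← prod_mul_distrib, Pi.add_apply, add_sub_add_comm (μ _)]
  refine prod_congr rfl fun q _ => good_pos_eq (D.rt q.1 q.2) ?_
  have := h (some q.1) (some q.2)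
  simp only [ov_some] at this
  omega

theorem cc_add {μ ν : Fin n → ℤ} (h : Coh μ ν) :
    D.cc (μ + ν) = D.cc μ * D.act _ μ (D.cc ν) := by
  simp only [cc, D.mm_add h, D.ee_add h, map_mul, inverse_mul', map_inverse _ (D.isUnit_ee ν),
    act_alg]
  ring

theorem app_of_subset (x : D.Op D.Om) (f : Pol n R) {s : Finset (Fin n → ℤ)} (hs : D.sup x ⊆ s) :
    D.app x f = ∑ μ ∈ s, D.co x μ * D.al (D.sh μ f) := by
  refine sum_subset hs fun μ _ hμ => ?_
  rw [mem_sup, not_not] at hμ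
  rw [hμ, zero_mul]

theorem app_add (x y : D.Op D.Om) (f : Pol n R) : D.app (x + y) f = D.app x f + D.app y f := by
  rw [D.app_of_subset (x + y) f (s := D.sup (x + y) ∪ (D.sup x ∪ D.sup y)) subset_union_left,
    D.app_of_subset x f (subset_union_left.trans subset_union_right),
    D.app_of_subset y f (subset_union_right.trans subset_union_right), ← sum_add_distrib]
  exact sum_congr rfl fun μ _ => by rw [co_add, add_mul]

theorem good_sup_sg (μ : Fin n → ℤ) (c : D.Om) : D.sup (D.sg μ c) ⊆ {μ} := fun ν hν => by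
  rw [mem_sup, co_sg] at hν
  by_contra h
  exact hν (if_neg fun e => h (by simp [e]))

theorem app_sg (μ : Fin n → ℤ) (c : D.Om) (f : Pol n R) :
    D.app (D.sg μ c) f = c * D.al (D.sh μ f) := by
  rw [D.app_of_subset _ f (D.good_sup_sg μ c), sum_singleton, co_sg, if_pos rfl]

theorem good_app_zero (f : Pol n R) : D.app 0 f = 0 :=
  sum_eq_zero fun μ _ => by rw [co_zero, zero_mul]

theorem app_sum {ι : Type} (s : Finset ι) (x : ι → D.Op D.Om) (f : Pol n R) :
    D.app (∑ i ∈ s, x i) f = ∑ i ∈ s, D.app (x i) f := by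
  classical
  induction s using Finset.induction_on with
  | empty => exact D.good_app_zero f
  | insert a s ha ih => rw [sum_insert ha, sum_insert ha, app_add, ih]

theorem app_mul (x y : D.Op D.Om) (f p : Pol n R) (h : D.app y f = D.al p) :
    D.app (x * y) f = D.app x p := by
  conv_lhs => rw [← D.sum_sg x, ← D.sum_sg y, sum_mul_sum]
  rw [app_sum]
  refine sum_congr rfl fun μ _ => ?_
  rw [app_sum, ← act_alg, ← h, app, map_sum, mul_sum]
  refine sum_congr rfl fun ν _ => ?_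
  rw [sg_mul_sg, app_sg, map_mul, act_alg, sh_sh, mul_assoc]

/-- the permutation of the coweights induced by `w` -/
def goodPerm (w : Equiv.Perm (Fin n)) : Equiv.Perm (Fin n → ℤ) := w.arrowCongr (Equiv.refl ℤ)

theorem good_sum {x : D.Op D.Om}
    (hx : ∀ (w : stab D.col) μ, D.co x (μ ∘ w.1.symm) = D.rn w (D.co x μ)) (w : stab D.col)
    (F : (Fin n → ℤ) → D.Om) : ∑ μ ∈ D.sup x, F (μ ∘ w.1.symm) = ∑ μ ∈ D.sup x, F μ := by
  refine sum_equiv (goodPerm w.1) (fun μ => ?_) fun _ _ => rfl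
  rw [mem_sup, mem_sup, show goodPerm w.1 μ = μ ∘ w.1.symm from rfl, hx]
  refine not_congr ⟨fun h => by rw [h, map_zero], fun h => ?_⟩
  rw [← D.rn_one (D.co x μ), ← inv_mul_cancel w, ← rn_rn, h, map_zero]

theorem good_mul [IsDomain R] {x y : D.Op D.Om} (hx : D.Good x) (hy : D.Good y) :
    D.Good (x * y) := by
  refine ⟨fun w κ => ?_, fun f hf => ?_, fun κ => ?_⟩
  · rw [co_mul, co_mul, map_sum, ← D.good_sum hx.inv w]
    refine sum_congr rfl fun μ _ => ?_
    rw [map_mul, rn_act, ← hx.inv, ← hy.inv]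
    rfl
  · obtain ⟨p, hp⟩ := hy.pol f hf
    rw [D.app_mul x y f p hp]
    refine hx.pol p fun w hw => D.al_injective ?_
    rw [← D.rn_al ⟨w, hw⟩, ← hp, app, map_sum]
    refine .trans (sum_congr rfl fun μ _ => ?_) (D.good_sum hy.inv ⟨w, hw⟩ _)
    rw [map_mul, ← hy.inv, rn_al, rename_sh, hf w hw]
  · rw [co_mul]
    refine dvd_sum fun μ _ => ?_
    have h := map_dvd D.al (D.mm_add_dvd μ (κ - μ))
    rw [add_sub_cancel, map_mul, ← act_alg] at h
    exact h.trans (mul_dvd_mul (hx.dvd μ) (map_dvd _ (hy.dvd _)))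

theorem good_one : D.Good 1 := by
  rw [← sg_zero_one]
  refine ⟨fun w μ => ?_, fun f _ => ⟨f, by rw [app_sg, one_mul, sh_zero']⟩, fun μ => ?_⟩
  · have h : 0 = μ ∘ w.1.symm ↔ 0 = μ := (goodPerm w.1).apply_eq_iff_eq (x := 0)
    simp only [co_sg, h]
    split_ifs
    · rw [map_one]
    · rw [map_zero]
  · rw [co_sg]
    split_ifs with h
    · rw [← h, mm_zero, map_one]
    · exact dvd_zero _

theorem good_add {x y : D.Op D.Om} (hx : D.Good x) (hy : D.Good y) : D.Good (x + y) := by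
  refine ⟨fun w μ => by rw [co_add, co_add, map_add, hx.inv, hy.inv], fun f hf => ?_,
    fun μ => by rw [co_add]; exact dvd_add (hx.dvd μ) (hy.dvd μ)⟩
  obtain ⟨p, hp⟩ := hx.pol f hf
  obtain ⟨q, hq⟩ := hy.pol f hf
  exact ⟨p + q, by rw [app_add, hp, hq, map_add]⟩

theorem good_zero : D.Good 0 :=
  ⟨fun w μ => by simp, fun f _ => ⟨0, by rw [D.good_app_zero, map_zero]⟩, fun μ => by simp⟩

theorem good_neg {x : D.Op D.Om} (hx : D.Good x) : D.Good (-x) := by
  refine ⟨fun w μ => by rw [co_neg, co_neg, map_neg, hx.inv], fun f hf => ?_,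
    fun μ => by rw [co_neg]; exact (hx.dvd μ).neg_right⟩
  obtain ⟨p, hp⟩ := hx.pol f hf
  refine ⟨-p, ?_⟩
  rw [map_neg, ← hp, eq_neg_iff_add_eq_zero, ← app_add, neg_add_cancel, good_app_zero]

/-- the operators satisfying `Good` -/
def GG [IsDomain R] : Subring (D.Op D.Om) where
  carrier := {x | D.Good x}
  mul_mem' := D.good_mul
  one_mem' := D.good_one
  add_mem' := D.good_add
  zero_mem' := D.good_zero
  neg_mem' := D.good_neg

theorem mem_GG [IsDomain R] {x : D.Op D.Om} : x ∈ D.GG ↔ D.Good x := Iff.rfl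

end QD

end Pool.Agent.Work.MP_849ab0_ag
end
end

-- merged part: Pool.Agent.Work.MP_849ab0_ag.Ex
section
/-! Existence of operators with prescribed leading term. -/

noncomputable section

set_option linter.unusedSectionVars false

namespace Pool.Agent.Work.MP_849ab0_ag

open MvPolynomial Finset

namespace QD

variable {k n : ℕ} {E R : Type} [Fintype E] [CommRing R] [Algebra ℚ R] (D : QD k n E R)

/-- `x` has leading term `c u ^ l` for the lexicographic order -/
def Lead (x : D.Op D.Om) (l : Fin n → ℤ) (c : D.Om) : Prop :=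
  D.co x l = c ∧ ∀ μ, D.co x μ ≠ 0 → toLex μ ≤ toLex l

theorem Lead.mul {x y : D.Op D.Om} {l l' : Fin n → ℤ} {c c' : D.Om} (hx : D.Lead x l c)
    (hy : D.Lead y l' c') : D.Lead (x * y) (l + l') (c * D.act _ l c') := by
  classical
  refine ⟨?_, fun κ h => ?_⟩
  · rw [D.co_mul_of_subset x y _ (subset_insert l (D.sup x)), sum_eq_single l]
    · rw [add_sub_cancel_left, hx.1, hy.1]
    · intro μ _ hμ
      by_contra h
      have h1 := hx.2 μ (left_ne_zero_of_mul h)
      have h2 := hy.2 (l + l' - μ) fun e => h (by rw [e, map_zero, mul_zero])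
      have h3 : toLex l + toLex l' ≤ toLex μ + toLex l' := by
        have e : toLex l + toLex l' = toLex μ + toLex (l + l' - μ) := by
          rw [← toLex_add, ← toLex_add, add_sub_cancel]
        rw [e]
        exact add_le_add le_rfl h2
      exact hμ (toLex.injective (le_antisymm h1 (le_of_add_le_add_right h3)))
    · intro h
      exact absurd (mem_insert_self l _) h
  · obtain ⟨μ, ν, h1, h2, rfl⟩ := D.co_mul_ne h
    rw [toLex_add, toLex_add]
    exact add_le_add (hx.2 μ h1) (hy.2 ν h2)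

theorem lead_mon {μ : Fin n → ℤ} (hμ : Dom D.col μ) {g : Pol n R}
    (hg : g ∈ Inv R fun a => (D.col a, μ a)) :
    ∃ g', D.Lead (D.mon D.Om μ g') μ (D.al g * D.cc μ) := by
  classical
  set N := (univ.filter fun w : stab D.col => μ ∘ w.1.symm = μ).card with hN
  have hN0 : N ≠ 0 := by
    rw [hN]
    exact card_ne_zero.2 ⟨1, by simp only [mem_filter, mem_univ, true_and]; rfl⟩
  refine ⟨C (algebraMap ℚ R (N : ℚ)⁻¹) * g, ?_, fun κ h => ?_⟩
  · rw [mon_om, co_sum]
    have e : ∀ w : stab D.col, D.co (D.sg (μ ∘ w.1.symm)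
        (D.al (rename w.1 (C (algebraMap ℚ R (N : ℚ)⁻¹) * g)) * D.cc (μ ∘ w.1.symm))) μ =
        if μ ∘ w.1.symm = μ then D.al (C (algebraMap ℚ R (N : ℚ)⁻¹) * g) * D.cc μ else 0 := by
      intro w
      rw [co_sg]
      split_ifs with h
      · have hw : w.1 ∈ stab fun a => (D.col a, μ a) := fun a => by
          have h1 := congrFun h (w.1 a)
          rw [Function.comp_apply, Equiv.symm_apply_apply] at h1
          exact Prod.ext (w.2 a) h1.symm
        rw [h, map_mul (rename w.1), rename_C, hg w.1 hw]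
      · rfl
    rw [sum_congr rfl fun w _ => e w, ← sum_filter, sum_const, ← hN, nsmul_eq_mul, ← mul_assoc,
      ← map_natCast D.al, ← map_mul, ← mul_assoc, ← map_natCast (C : R →+* Pol n R), ← map_mul,
      ← map_natCast (algebraMap ℚ R), ← map_mul, mul_inv_cancel₀ (Nat.cast_ne_zero.2 hN0), map_one,
      map_one, one_mul]
  · obtain ⟨w, rfl⟩ := D.co_mon_ne h
    exact hμ.lex_le w

theorem Ex_ps_mem {J : Type} (c : Fin n → J) (Q : J → Prop) (U : Finset (Fin n))
    (h : ∀ a, a ∈ U ↔ Q (c a)) (j : ℕ) : ps R U j ∈ Inv R c := by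
  classical
  have e : U = univ.filter fun a => Q (c a) := by
    ext a
    simp only [h, mem_filter, mem_univ, true_and]
  rw [e]
  exact ps_mem c Q j

theorem Ex_ps_split (U V W : Finset (Fin n)) (h : ∀ a, a ∈ U ↔ a ∈ V ∨ a ∈ W)
    (h' : ∀ a, a ∈ V → a ∉ W) (j : ℕ) : ps R V j = ps R U j - ps R W j := by
  have e : U = V ∪ W := by
    ext a
    rw [h, mem_union]
  rw [e, ps, ps, ps, sum_union (disjoint_left.2 h'), add_sub_cancel_right]

theorem Ex_sh_ps (μ : Fin n → ℤ) (U : Finset (Fin n)) (h : ∀ a ∈ U, μ a = 0) (j : ℕ) :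
    D.sh μ (ps R U j) = ps R U j := by
  rw [ps, map_sum]
  refine sum_congr rfl fun a ha => ?_
  rw [map_pow, sh_X, h a ha, Int.cast_zero, zero_mul, add_zero]

theorem Ex_block (l : Fin n → ℤ) {s : ℤ} (hs : s = 1 ∨ s = -1) (μ : Fin n → ℤ)
    (hμ : ∀ a, μ a = if 0 < s * l a then s else 0) (i : Fin k) (y : ℤ) (j : ℕ) :
    D.sh μ (ps R (univ.filter fun a => D.col a = i ∧ l a = y) j) ∈
      (Inv R fun a => (D.col a, μ a)) ⊔ (Inv R fun a => (D.col a, (l - μ) a)).map (D.sh μ) := by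
  have hT : ∀ (Q : ℤ → Prop) (U : Finset (Fin n)), (∀ a, a ∈ U ↔ D.col a = i ∧ Q (l a - μ a)) →
      D.sh μ (ps R U j) ∈ (Inv R fun a => (D.col a, μ a)) ⊔
        (Inv R fun a => (D.col a, (l - μ) a)).map (D.sh μ) := fun Q U h =>
    (le_sup_right : _ ≤ (Inv R fun a => (D.col a, μ a)) ⊔ _)
      ⟨_, Ex_ps_mem (fun a => (D.col a, (l - μ) a)) (fun z => z.1 = i ∧ Q z.2) U h j, rfl⟩
  have h0 : D.sh μ (ps R (univ.filter fun a => D.col a = i ∧ l a = 0) j) ∈
      (Inv R fun a => (D.col a, μ a)) ⊔ (Inv R fun a => (D.col a, (l - μ) a)).map (D.sh μ) := by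
    rw [Ex_ps_split (univ.filter fun a => D.col a = i ∧ μ a = 0) _
      (univ.filter fun a => D.col a = i ∧ s * (l a - μ a) < 0), map_sub, D.Ex_sh_ps μ]
    · refine sub_mem ((le_sup_left : (Inv R fun a => (D.col a, μ a)) ≤ _)
        (Ex_ps_mem (fun a => (D.col a, μ a)) (fun z => z.1 = i ∧ z.2 = 0) _ (fun a => ?_) j))
        (hT (fun z => s * z < 0) _ fun a => ?_)
      · simp only [mem_filter, mem_univ, true_and]
      · simp only [mem_filter, mem_univ, true_and]
    · intro a ha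
      exact (mem_filter.1 ha).2.2
    · intro a
      simp only [mem_filter, mem_univ, true_and, ← and_or_left]
      refine and_congr_right fun _ => ?_
      have := hμ a
      rcases hs with rfl | rfl <;> split_ifs at this <;> omega
    · intro a
      simp only [mem_filter, mem_univ, true_and]
      have := hμ a
      rcases hs with rfl | rfl <;> split_ifs at this <;> omega
  by_cases hy0 : y = 0
  · rw [hy0]; exact h0
  by_cases hys : y = s
  · rw [Ex_ps_split (univ.filter fun a => D.col a = i ∧ l a - μ a = 0) _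
      (univ.filter fun a => D.col a = i ∧ l a = 0), map_sub]
    · refine sub_mem (hT (fun z => z = 0) _ fun a => ?_) h0
      simp only [mem_filter, mem_univ, true_and]
    · intro a
      simp only [mem_filter, mem_univ, true_and, ← and_or_left]
      refine and_congr_right fun _ => ?_
      have := hμ a
      rcases hs with rfl | rfl <;> split_ifs at this <;> omega
    · intro a
      simp only [mem_filter, mem_univ, true_and]
      omega
  by_cases hy : 0 < s * y
  · refine hT (fun z => z = y - s) _ fun a => ?_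
    simp only [mem_filter, mem_univ, true_and]
    refine and_congr_right fun _ => ?_
    have := hμ a
    rcases hs with rfl | rfl <;> split_ifs at this <;> omega
  · refine hT (fun z => z = y) _ fun a => ?_
    simp only [mem_filter, mem_univ, true_and]
    refine and_congr_right fun _ => ?_
    have := hμ a
    rcases hs with rfl | rfl <;> split_ifs at this <;> omega

/-- splitting of dressings; `s = 1` or `s = -1` -/
theorem inv_split (l : Fin n → ℤ) {s : ℤ} (hs : s = 1 ∨ s = -1) (μ : Fin n → ℤ)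
    (hμ : ∀ a, μ a = if 0 < s * l a then s else 0) {g : Pol n R}
    (hg : g ∈ Inv R fun a => (D.col a, l a)) :
    g ∈ AddSubgroup.closure {p | ∃ g₁ ∈ Inv R fun a => (D.col a, μ a),
      ∃ g₂ ∈ Inv R fun a => (D.col a, (l - μ) a), p = g₁ * D.sh μ g₂} := by
  have h1 : D.sh (-μ) g ∈ Inv R fun a => (D.col a, l a) := by
    intro w hw
    have e : (-μ) ∘ w.symm = -μ := by
      funext a
      have h2 : l (w.symm a) = l a := congrArg Prod.snd (stab_symm ⟨w, hw⟩ a)
      rw [Function.comp_apply, Pi.neg_apply, Pi.neg_apply, hμ, hμ, h2]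
    rw [rename_sh, e, hg w hw]
  have h2 : Algebra.adjoin R
      {p | ∃ y j, p = ps R (univ.filter fun a => (D.col a, l a) = y) j} ≤
      ((Inv R fun a => (D.col a, μ a)) ⊔
        (Inv R fun a => (D.col a, (l - μ) a)).map (D.sh μ)).comap (D.sh μ) := by
    refine Algebra.adjoin_le ?_
    rintro _ ⟨⟨i, y⟩, j, rfl⟩
    have e : (univ.filter fun a => (D.col a, l a) = (i, y)) =
        univ.filter fun a => D.col a = i ∧ l a = y := by
      ext a
      simp only [mem_filter, Prod.mk.injEq]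
    rw [e]
    exact D.Ex_block l hs μ hμ i y j
  have h3 := h2 (inv_le_adjoin _ h1)
  rw [Subalgebra.mem_comap, sh_sh, add_neg_cancel, sh_zero', ← Subalgebra.mem_toSubmodule,
    ← Subalgebra.mul_toSubmodule] at h3
  refine Submodule.mul_induction_on h3 ?_ fun x y hx hy => add_mem hx hy
  rintro p hp _ ⟨q, hq, rfl⟩
  exact AddSubgroup.subset_closure ⟨p, hp, q, hq, rfl⟩

theorem Ex_ne_add {x y : D.Op D.Om} {μ : Fin n → ℤ} (h : D.co (x + y) μ ≠ 0) :
    D.co x μ ≠ 0 ∨ D.co y μ ≠ 0 := by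
  by_contra h1
  rw [not_or, not_not, not_not] at h1
  rw [co_add, h1.1, h1.2, add_zero] at h
  exact h rfl

theorem Ex_ne_neg {x : D.Op D.Om} {μ : Fin n → ℤ} (h : D.co (-x) μ ≠ 0) : D.co x μ ≠ 0 := by
  rwa [co_neg, neg_ne_zero] at h

theorem Ex_coh (l : Fin n → ℤ) {s : ℤ} (hs : s = 1 ∨ s = -1) (μ : Fin n → ℤ)
    (hμ : ∀ a, μ a = if 0 < s * l a then s else 0) : Coh μ (l - μ) := by
  have h1 : ∀ o, ov μ o = if 0 < s * ov l o then s else 0 := by
    rintro (_ | a)
    · simp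
    · exact hμ a
  have h2 : ∀ o, ov (l - μ) o = ov l o - ov μ o := by
    rintro (_ | a)
    · simp
    · rfl
  intro o o'
  have e1 := h1 o
  have e2 := h1 o'
  rw [h2, h2]
  rcases hs with rfl | rfl <;> split_ifs at e1 e2 <;> omega

theorem Ex_step (ν : Fin k → ℤ) (l : Fin n → ℤ) (hl : Dom D.col l) {s : ℤ} (hs : s = 1 ∨ s = -1)
    (μ : Fin n → ℤ) (hμ : ∀ a, μ a = if 0 < s * l a then s else 0) (M M₁ M₂ : ℤ)
    (hM : M = M₁ + M₂) (hμM : ∀ a, μ a ≤ M₁) (Q : Prop)
    (ih : Dom D.col (l - μ) → ∀ g ∈ Inv R fun a => (D.col a, (l - μ) a), ∃ r ∈ D.Alg D.Om,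
      D.Hom D.Om ν (D.dg ν (l - μ)) r ∧ D.Le M₂ r ∧ D.Lead r (l - μ) (D.al g * D.cc (l - μ)))
    (hJ : Q → ∀ g, ∀ r ∈ D.Alg D.Om, D.Hom D.Om ν (D.dg ν (l - μ)) r → D.Le M₂ r →
      D.mon D.Om μ g * r ∈ D.JM D.Om ν M)
    (g : Pol n R) (hg : g ∈ Inv R fun a => (D.col a, l a)) :
    ∃ r ∈ D.Alg D.Om, D.Hom D.Om ν (D.dg ν l) r ∧ D.Le M r ∧ D.Lead r l (D.al g * D.cc l) ∧
      (Q → r ∈ D.JM D.Om ν M) := by
  have hd1 : Dom D.col μ := by
    intro a b hab hc
    have h1 := hl a b hab hc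
    have e1 := hμ a
    have e2 := hμ b
    rcases hs with rfl | rfl <;> split_ifs at e1 e2 <;> omega
  have hd2 : Dom D.col (l - μ) := by
    intro a b hab hc
    have h1 := hl a b hab hc
    have e1 := hμ a
    have e2 := hμ b
    rw [Pi.sub_apply, Pi.sub_apply]
    rcases hs with rfl | rfl <;> split_ifs at e1 e2 <;> omega
  have hv : (∀ a, μ a = 0 ∨ μ a = 1) ∨ (∀ a, μ a = 0 ∨ μ a = -1) := by
    refine hs.imp (fun h a => ?_) fun h a => ?_
    · have e1 := hμ a
      split_ifs at e1 <;> omega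
    · have e1 := hμ a
      split_ifs at e1 <;> omega
  have el : μ + (l - μ) = l := add_sub_cancel μ l
  have hg' := D.inv_split l hs μ hμ hg
  clear hg
  induction hg' using AddSubgroup.closure_induction with
  | mem p hp =>
    obtain ⟨g₁, hg₁, g₂, hg₂, rfl⟩ := hp
    obtain ⟨g', hg'⟩ := D.lead_mon hd1 hg₁
    obtain ⟨r, hr, h1, h2, h3⟩ := ih hd2 g₂ hg₂
    refine ⟨D.mon D.Om μ g' * r, mul_mem (D.mon_mem hv g') hr, ?_, ?_, ?_,
      fun hQ => hJ hQ g' r hr h1 h2⟩
    · have h4 := Hom.mul D (D.hom_mon ν μ g') h1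
      rwa [← dg_add, el] at h4
    · rw [hM]
      refine Le.mul D (fun κ hκ a => ?_) h2
      obtain ⟨w, rfl⟩ := D.co_mon_ne hκ
      exact hμM _
    · have h4 := Lead.mul D hg' h3
      have h5 := D.cc_add (Ex_coh l hs μ hμ)
      rw [el] at h4 h5
      rw [h5, map_mul D.al, ← D.act_alg μ g₂, mul_mul_mul_comm, ← map_mul]
      exact h4
  | zero =>
    exact ⟨0, zero_mem _, fun κ h => absurd rfl h, fun κ h => absurd rfl h,
      ⟨by rw [map_zero, zero_mul]; rfl, fun κ h => absurd rfl h⟩, fun _ => zero_mem _⟩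
  | add p q _ _ hp hq =>
    obtain ⟨r, hr, h1, h2, h3, h4⟩ := hp
    obtain ⟨r', hr', h1', h2', h3', h4'⟩ := hq
    refine ⟨r + r', add_mem hr hr', D.hom_iff.2 fun κ h => ?_, fun κ h => ?_,
      ⟨?_, fun κ h => ?_⟩, fun hQ => add_mem (h4 hQ) (h4' hQ)⟩
    · exact (D.Ex_ne_add h).elim (D.hom_iff.1 h1 κ) (D.hom_iff.1 h1' κ)
    · exact (D.Ex_ne_add h).elim (h2 κ) (h2' κ)
    · rw [co_add, h3.1, h3'.1, map_add, add_mul]
    · exact (D.Ex_ne_add h).elim (h3.2 κ) (h3'.2 κ)
  | neg p _ hp =>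
    obtain ⟨r, hr, h1, h2, h3, h4⟩ := hp
    refine ⟨-r, neg_mem hr, D.hom_iff.2 fun κ h => D.hom_iff.1 h1 κ (D.Ex_ne_neg h),
      fun κ h => h2 κ (D.Ex_ne_neg h), ⟨?_, fun κ h => h3.2 κ (D.Ex_ne_neg h)⟩,
      fun hQ => neg_mem (h4 hQ)⟩
    rw [co_neg, h3.1, map_neg]
    ring

theorem Ex_zero (ν : Fin k → ℤ) (M : ℤ) (hM : 0 ≤ M) (g : Pol n R)
    (hg : g ∈ Inv R fun a => (D.col a, (0 : Fin n → ℤ) a)) :
    ∃ r ∈ D.Alg D.Om, D.Hom D.Om ν (D.dg ν 0) r ∧ D.Le M r ∧ D.Lead r 0 (D.al g * D.cc 0) := by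
  have h0 : ∀ κ, D.co (D.cst D.Om g) κ ≠ 0 → κ = 0 := by
    intro κ h
    rw [cst_eq, co_sg] at h
    by_contra e
    exact h (if_neg (Ne.symm e))
  refine ⟨D.cst D.Om g, D.cst_mem fun w hw => hg w fun a => Prod.ext (hw a) rfl,
    D.hom_iff.2 fun κ h => by rw [h0 κ h], fun κ h a => by rw [h0 κ h]; exact hM, ?_,
    fun κ h => by rw [h0 κ h]⟩
  rw [cst_eq, co_sg, if_pos rfl, cc, mm_zero, ee_zero, map_one, Ring.inverse_one, mul_one, mul_one]

theorem ex (ν : Fin k → ℤ) (l : Fin n → ℤ) (hl : Dom D.col l) (M : ℤ) (hM : 0 ≤ M)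
    (hlM : ∀ a, l a ≤ M) (g : Pol n R) (hg : g ∈ Inv R fun a => (D.col a, l a)) :
    ∃ r ∈ D.Alg D.Om, D.Hom D.Om ν (D.dg ν l) r ∧ D.Le M r ∧ D.Lead r l (D.al g * D.cc l) ∧
      ((∃ a, l a < 0) → D.dg ν l = 0 → r ∈ D.JM D.Om ν M) := by
  induction hN : ∑ a, (l a).natAbs using Nat.strong_induction_on generalizing l M g with
  | _ N ih =>
    by_cases h1 : ∃ a, l a < 0
    · obtain ⟨a₀, ha₀⟩ := h1
      have hμ : ∀ a, (-ind (univ.filter fun a => l a < 0)) a =
          if 0 < -1 * l a then -1 else 0 := by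
        intro a
        simp only [Pi.neg_apply, ind, mem_filter, mem_univ, true_and]
        split_ifs <;> omega
      refine (D.Ex_step ν l hl (Or.inr rfl) _ hμ M 0 M (zero_add M).symm
        (fun a => by rw [hμ]; split_ifs <;> omega) (D.dg ν l = 0) ?_ ?_ g hg).imp
        fun r h => ⟨h.1, h.2.1, h.2.2.1, h.2.2.2.1, fun _ => h.2.2.2.2⟩
      · intro hd g' hg'
        refine (ih _ ?_ _ hd M hM ?_ g' hg' rfl).imp fun r h => ⟨h.1, h.2.1, h.2.2.1, h.2.2.2.1⟩
        · rw [← hN]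
          refine sum_lt_sum (fun a _ => ?_) ⟨a₀, mem_univ _, ?_⟩
          · rw [Pi.sub_apply, hμ]
            split_ifs <;> omega
          · rw [Pi.sub_apply, hμ]
            split_ifs <;> omega
        · intro a
          have := hlM a
          rw [Pi.sub_apply, hμ]
          split_ifs <;> omega
      · intro hQ g' r hr h2 h3
        refine AddSubgroup.subset_closure ⟨_, g', r, ⟨a₀, ?_⟩, hr, ?_, h3, rfl⟩
        · exact mem_filter.2 ⟨mem_univ _, ha₀⟩
        · rwa [sub_neg_eq_add, dg_add, hQ, zero_add] at h2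
    by_cases h0 : l = 0
    · subst h0
      obtain ⟨r, hr, h2, h3, h4⟩ := D.Ex_zero ν M hM g hg
      exact ⟨r, hr, h2, h3, h4, fun h => absurd h h1⟩
    have h1' : ∀ a, 0 ≤ l a := fun a => not_lt.1 fun h => h1 ⟨a, h⟩
    obtain ⟨a₀, ha₀⟩ : ∃ a, l a ≠ 0 := Function.ne_iff.1 h0
    have h6 := h1' a₀
    have h7 := hlM a₀
    refine (D.Ex_step ν l hl (Or.inl rfl)
      (fun a => if 0 < 1 * l a then 1 else 0) (fun _ => rfl) M 1 (M - 1) (by omega)
      (fun a => by split_ifs <;> omega) False ?_ (fun h => h.elim) g hg).imp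
      fun r h => ⟨h.1, h.2.1, h.2.2.1, h.2.2.2.1, fun h => absurd h h1⟩
    intro hd g' hg'
    refine (ih _ ?_ _ hd (M - 1) (by omega) ?_ g' hg' rfl).imp
      fun r h => ⟨h.1, h.2.1, h.2.2.1, h.2.2.2.1⟩
    · rw [← hN]
      refine sum_lt_sum (fun a _ => ?_) ⟨a₀, mem_univ _, ?_⟩
      · rw [Pi.sub_apply]
        split_ifs <;> omega
      · rw [Pi.sub_apply]
        split_ifs <;> omega
    · intro a
      have := hlM a
      have := h1' a
      rw [Pi.sub_apply]
      split_ifs <;> omega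

end QD

end Pool.Agent.Work.MP_849ab0_ag
end
end

-- merged part: Pool.Agent.Work.MP_849ab0_ag.Pole
section
/-! Where the coefficients of a Good operator can have poles. -/

noncomputable section

set_option linter.unusedSectionVars false

namespace Pool.Agent.Work.MP_849ab0_ag

open MvPolynomial Finset

namespace QD

variable {k n : ℕ} {E R : Type} [Fintype E] [CommRing R] [IsDomain R] [CharZero R]
  (D : QD k n E R)

theorem pole_p2 : (∑ c, X c ^ 2 : Pol n R) ∈ Inv R D.col := fun w _ => by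
  simp only [map_sum, map_pow, rename_X]
  exact Equiv.sum_comp w fun c => (X c ^ 2 : Pol n R)

theorem pole_clr {x : D.Op D.Om} (hx : D.Good x) (T : Finset (Fin n → ℤ)) :
    ∀ f ∈ Inv R D.col, ∃ p, ∑ κ ∈ D.sup x, D.co x κ *
      D.al (∏ ν ∈ T, (D.sh ν (∑ c, X c ^ 2) - D.sh κ (∑ c, X c ^ 2))) * D.al (D.sh κ f) =
        D.al p := by
  induction T using Finset.induction_on with
  | empty =>
    intro f hf
    simp only [prod_empty, map_one, mul_one]
    exact hx.pol f hf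
  | insert ν T hν ih =>
    intro f hf
    obtain ⟨p, hp⟩ := ih f hf
    obtain ⟨q, hq⟩ := ih _ (mul_mem D.pole_p2 hf)
    refine ⟨D.sh ν (∑ c, X c ^ 2) * p - q, ?_⟩
    rw [map_sub, map_mul, ← hp, ← hq, mul_sum, ← sum_sub_distrib]
    refine sum_congr rfl fun κ _ => ?_
    rw [prod_insert hν, map_mul D.al, map_sub D.al, map_mul (D.sh κ), map_mul D.al]
    ring

/-- clearing all other exponents with the second power sum -/
theorem clear {x : D.Op D.Om} (hx : D.Good x) (μ : Fin n → ℤ) :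
    ∃ p, D.co x μ * D.al (∏ ν ∈ (D.sup x).erase μ, (C D.h * D.LL μ ν)) = D.al p := by
  obtain ⟨p, hp⟩ := D.pole_clr hx ((D.sup x).erase μ) 1 (one_mem _)
  refine ⟨p, ?_⟩
  rw [← hp, sum_eq_single μ]
  · simp only [sh_p2, map_one, mul_one]
  · intro ν hν hne
    rw [prod_eq_zero (f := fun κ => D.sh κ (∑ c, X c ^ 2) - D.sh ν (∑ c, X c ^ 2))
      (mem_erase.2 ⟨hne, hν⟩) (sub_self _), map_zero, mul_zero, zero_mul]
  · intro h
    rw [mem_sup, not_not] at h
    rw [h, zero_mul, zero_mul]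

theorem pole (hl : D.NL) (hh : D.h ≠ 0) {x : D.Op D.Om} (hx : D.Good x) (μ : Fin n → ℤ)
    (Q : Pol n R) (hQ : ∀ a b i, a ≠ b → D.col a = D.col b → i ≠ 0 →
      D.co x (μ + Pi.single a i - Pi.single b i) ≠ 0 → D.rt a b (μ a - μ b + i) ∣ Q) :
    ∃ p, D.co x μ * D.al Q = D.al (D.mm μ * p) := by
  obtain ⟨w, hw⟩ := hx.dvd μ
  obtain ⟨p, hp⟩ := D.clear hx μ
  obtain ⟨p', hp'⟩ := D.om_local (w * D.al Q) fun a b j h1 h2 => by
    have hpr := D.prime_rt j h1
    have key : ∀ S : Finset (Fin n → ℤ), (∀ ν ∈ S, ¬ D.rt a b j ∣ D.LL μ ν) →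
        ¬ D.rt a b j ∣ D.mm μ * ∏ ν ∈ S, (C D.h * D.LL μ ν) := fun S hS h => by
      rcases hpr.dvd_or_dvd h with h | h
      · exact D.not_rt_dvd_mm hl j h1 h2 μ h
      · obtain ⟨ν, hν, h⟩ := (hpr.dvd_finsetProd_iff _).1 h
        rcases hpr.dvd_or_dvd h with h | h
        · exact D.not_rt_dvd_C j h1 hh h
        · exact hS ν hν h
    by_cases hc : ∃ ν ∈ (D.sup x).erase μ, D.rt a b j ∣ D.LL μ ν
    · obtain ⟨ν, hν, h⟩ := hc
      obtain ⟨h3, h4, h5⟩ := D.rt_dvd_LL hh h1 (mem_erase.1 hν).1 h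
      obtain ⟨Q', hQ'⟩ := hQ a b _ h1 h2 h3 (h4 ▸ D.mem_sup.1 (mem_erase.1 hν).2)
      rw [add_sub_cancel] at hQ'
      refine ⟨C (D.h * ((2 * (j - (μ a - μ b)) : ℤ) : R)) *
        (D.mm μ * ∏ ν ∈ ((D.sup x).erase μ).erase ν, (C D.h * D.LL μ ν)), Q' * p, fun h6 => ?_, ?_⟩
      · rcases hpr.dvd_or_dvd h6 with h6 | h6
        · exact D.not_rt_dvd_C j h1
            (mul_ne_zero hh (Int.cast_ne_zero.2 (mul_ne_zero two_ne_zero h3))) h6
        · refine key _ (fun κ hκ h7 => (mem_erase.1 hκ).1 ?_) h6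
          rw [h4]
          exact (D.rt_dvd_LL hh h1 (mem_erase.1 (mem_erase.1 hκ).2).1 h7).2.1
      · rw [map_mul D.al Q', ← hp, hw, ← mul_prod_erase _ _ hν, h5, hQ', C_mul]
        simp only [map_mul D.al]
        ring
    · refine ⟨_, Q * p, key ((D.sup x).erase μ) fun ν hν h => hc ⟨ν, hν, h⟩, ?_⟩
      rw [map_mul D.al Q, ← hp, hw, map_mul D.al (D.mm μ)]
      ring
  exact ⟨p', by rw [hw, mul_assoc, hp', map_mul]⟩

/-- simple poles only -/
theorem simple (hl : D.NL) (hh : D.h ≠ 0) {x : D.Op D.Om} (hx : D.Good x) (μ : Fin n → ℤ) :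
    ∃ (Z : Finset (Fin n × Fin n × ℤ)) (p : Pol n R),
      (∀ z ∈ Z, z.1 < z.2.1 ∧ D.col z.1 = D.col z.2.1) ∧
      D.co x μ * D.al (∏ z ∈ Z, D.rt z.1 z.2.1 z.2.2) = D.al (D.mm μ * p) := by
  let Z : Finset (Fin n × Fin n × ℤ) :=
    ((univ ×ˢ univ ×ˢ D.sup x).filter fun t : Fin n × Fin n × (Fin n → ℤ) =>
      t.1 < t.2.1 ∧ D.col t.1 = D.col t.2.1).image
      fun t => (t.1, t.2.1, μ t.1 - μ t.2.1 + (t.2.2 t.1 - μ t.1))
  have hZ : ∀ a b ν, a < b → D.col a = D.col b → D.co x ν ≠ 0 →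
      D.rt a b (μ a - μ b + (ν a - μ a)) ∣ ∏ z ∈ Z, D.rt z.1 z.2.1 z.2.2 := fun a b ν h1 h2 h3 =>
    dvd_prod_of_mem (fun z : Fin n × Fin n × ℤ => D.rt z.1 z.2.1 z.2.2)
      (a := (a, b, μ a - μ b + (ν a - μ a))) (mem_image.2 ⟨(a, b, ν), mem_filter.2
        ⟨mem_product.2 ⟨mem_univ _, mem_product.2 ⟨mem_univ _, D.mem_sup.2 h3⟩⟩, h1, h2⟩, rfl⟩)
  obtain ⟨p, hp⟩ := D.pole hl hh hx μ (∏ z ∈ Z, D.rt z.1 z.2.1 z.2.2) fun a b i h1 h2 _ h3 => by
    rcases lt_or_gt_of_ne h1 with h | h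
    · have := hZ a b _ h h2 h3
      rwa [Pi.sub_apply, Pi.add_apply, Pi.single_eq_same, Pi.single_eq_of_ne h1, sub_zero,
        add_sub_cancel_left] at this
    · have := hZ b a _ h h2.symm h3
      rw [Pi.sub_apply, Pi.add_apply, Pi.single_eq_same, Pi.single_eq_of_ne h1.symm,
        show μ b - μ a + (μ b + 0 - i - μ b) = -(μ a - μ b + i) by ring, rt_swap] at this
      exact neg_dvd.1 this
  refine ⟨Z, p, fun z hz => ?_, hp⟩
  obtain ⟨t, ht, rfl⟩ := mem_image.1 hz
  exact (mem_filter.1 ht).2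

end QD

end Pool.Agent.Work.MP_849ab0_ag
end
end

-- merged part: Pool.Agent.Work.MP_849ab0_ag.MonGood
section
/-! The generators are Good. -/

noncomputable section

set_option linter.unusedSectionVars false

namespace Pool.Agent.Work.MP_849ab0_ag

open MvPolynomial Finset

namespace QD

variable {k n : ℕ} {E R : Type} [Fintype E] [CommRing R] [IsDomain R] [CharZero R]
  (D : QD k n E R)

theorem mongood_iff (w : Equiv.Perm (Fin n)) (μ ν : Fin n → ℤ) :
    μ ∘ w.symm = ν ∘ w.symm ↔ μ = ν :=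
  w.symm.surjective.injective_comp_right.eq_iff

theorem good_cst {f : Pol n R} (hf : f ∈ Inv R D.col) : D.Good (D.cst D.Om f) := by
  refine ⟨fun w μ => ?_, fun f' _ => ⟨f * D.sh 0 f', ?_⟩, fun μ => ?_⟩
  · rw [cst_eq, co_sg, co_sg]
    have h : 0 = μ ∘ w.1.symm ↔ 0 = μ := mongood_iff w.1 0 μ
    by_cases h1 : 0 = μ
    · rw [if_pos h1, if_pos (h.2 h1), rn_al, hf w.1 w.2]
    · rw [if_neg h1, if_neg fun h2 => h1 (h.1 h2), map_zero]
  · rw [cst_eq, app_sg, map_mul]
  · rw [cst_eq, co_sg]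
    split_ifs with h
    · rw [← h, mm_zero, map_one]
      exact one_dvd _
    · exact dvd_zero _

theorem mongood_ee {ν : Fin n → ℤ} (hν : ∀ a b, ν a - ν b ≤ 1) :
    D.ee ν = ∏ q ∈ D.Rt with ν q.1 - ν q.2 = 1, D.rt q.1 q.2 0 := by
  rw [ee_eq, prod_filter]
  refine prod_congr rfl fun q _ => ?_
  split_ifs with h
  · rw [h, show Ico (0 : ℤ) 1 = {0} from rfl, prod_singleton]
  · rw [Ico_eq_empty (by have := hν q.1 q.2; omega), prod_empty]

theorem mongood_swap (a b : Fin n) (p : Pol n R) :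
    D.rt a b 0 ∣ rename (Equiv.swap a b) p - p := by
  induction p using MvPolynomial.induction_on with
  | C r => rw [rename_C, sub_self]; exact dvd_zero _
  | add p q hp hq =>
    rw [map_add, add_sub_add_comm]
    exact dvd_add hp hq
  | mul_X p i hp =>
    have h : D.rt a b 0 ∣ X (Equiv.swap a b i) - X i := by
      rw [Equiv.swap_apply_def]
      split_ifs with h1 h2
      · exact ⟨-1, by simp [rt, h1]⟩
      · exact ⟨1, by simp [rt, h2]⟩
      · rw [sub_self]; exact dvd_zero _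
    have e : rename (Equiv.swap a b) (p * X i) - p * X i =
        (rename (Equiv.swap a b) p - p) * X (Equiv.swap a b i) +
          p * (X (Equiv.swap a b i) - X i) := by
      rw [map_mul, rename_X]; ring
    rw [e]
    exact dvd_add (hp.mul_right _) (h.mul_left _)

theorem mongood_anti {a b : Fin n} (h : a ≠ b) {p : Pol n R}
    (hp : rename (Equiv.swap a b) p = -p) : D.rt a b 0 ∣ p := by
  have h1 := D.mongood_swap a b p
  rw [hp, show -p - p = C (-2 : R) * p by rw [map_neg, map_ofNat]; ring] at h1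
  exact ((D.prime_rt 0 h).dvd_or_dvd h1).resolve_left
    (D.not_rt_dvd_C 0 h (neg_ne_zero.2 two_ne_zero))

/-- an invariant element whose denominators are minuscule gauge factors is a polynomial -/
theorem mongood_pol (hh : D.h ≠ 0) (q : D.Om) (hq : ∀ s, D.rn s q = q)
    (hd : ∀ c, (∀ ν : Fin n → ℤ, (∀ a b, ν a - ν b ≤ 1) → D.ee ν ∣ c) →
      ∃ r, q * D.al c = D.al r) : ∃ p, q = D.al p := by
  refine D.om_local q fun a b j hab hc => ?_
  have hs : ∀ (ν : Fin n → ℤ) (x : Fin n × Fin n), ν x.1 - ν x.2 = 1 → x.1 ≠ x.2 :=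
    fun ν x h1 h2 => by rw [h2, sub_self] at h1; exact zero_ne_one h1
  by_cases hj : j = 0
  · subst hj
    set B := D.Rt.filter fun x => x.1 ≠ x.2 ∧ x ≠ (a, b) ∧ x ≠ (b, a) with hB
    have hn : D.rt b a 0 = -D.rt a b 0 := D.rt_swap a b 0
    obtain ⟨p, hp⟩ := hd (D.rt a b 0 * ∏ x ∈ B, D.rt x.1 x.2 0) fun ν hν => by
      rw [D.mongood_ee hν]
      by_cases h1 : ν b - ν a = 1
      · have h2 : (b, a) ∉ B := fun h2 => (mem_filter.1 h2).2.2.2 rfl
        rw [← dvd_neg, ← neg_mul, ← hn]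
        refine (prod_dvd_prod_of_subset _ (insert (b, a) B) _ fun x hx => ?_).trans
          (dvd_of_eq (prod_insert h2))
        obtain ⟨k1, k2⟩ := mem_filter.1 hx
        refine mem_insert.2 (or_iff_not_imp_left.2 fun k3 =>
          mem_filter.2 ⟨k1, hs ν x k2, ?_, k3⟩)
        rintro rfl
        dsimp only at k2
        omega
      · have h2 : (a, b) ∉ B := fun h2 => (mem_filter.1 h2).2.2.1 rfl
        refine (prod_dvd_prod_of_subset _ (insert (a, b) B) _ fun x hx => ?_).trans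
          (dvd_of_eq (prod_insert h2))
        obtain ⟨k1, k2⟩ := mem_filter.1 hx
        refine mem_insert.2 (or_iff_not_imp_left.2 fun k3 =>
          mem_filter.2 ⟨k1, hs ν x k2, k3, ?_⟩)
        rintro rfl
        exact h1 k2
    have hw := swap_mem_stab hc
    have h1 : rename (Equiv.swap a b) (∏ x ∈ B, D.rt x.1 x.2 0) = ∏ x ∈ B, D.rt x.1 x.2 0 := by
      simp only [map_prod, rename_rt]
      refine prod_equiv ((Equiv.swap a b).prodCongr (Equiv.swap a b)) (fun x => ?_)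
        fun x _ => rfl
      have e1 : ∀ y, Equiv.swap a b y = a ↔ y = b := fun y => by
        rw [Equiv.swap_apply_eq_iff, Equiv.swap_apply_left]
      have e2 : ∀ y, Equiv.swap a b y = b ↔ y = a := fun y => by
        rw [Equiv.swap_apply_eq_iff, Equiv.swap_apply_right]
      simp only [hB, mem_filter, mem_Rt, Equiv.prodCongr_apply, Prod.map_fst, Prod.map_snd,
        hw x.1, hw x.2, Ne, Prod.ext_iff, e1, e2, (Equiv.swap a b).injective.eq_iff]
      tauto
    have h2 := congrArg (D.rn ⟨_, hw⟩) hp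
    rw [map_mul, hq, rn_al, rn_al, map_mul (rename _)] at h2
    dsimp only at h2
    rw [h1, rename_rt, Equiv.swap_apply_left, Equiv.swap_apply_right, hn, neg_mul, map_neg] at h2
    have h4 : D.al (rename (Equiv.swap a b) p) = D.al (-p) := by
      rw [map_neg, ← hp, ← h2]
      ring
    obtain ⟨p', rfl⟩ := D.mongood_anti hab (D.al_injective h4)
    refine ⟨∏ x ∈ B, D.rt x.1 x.2 0, p', fun h3 => ?_, ?_⟩
    · obtain ⟨x, k1, k2⟩ := ((D.prime_rt 0 hab).dvd_finsetProd_iff _).1 h3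
      obtain ⟨-, k3, k4, k5⟩ := mem_filter.1 k1
      rcases D.rt_dvd_rt hh hab k3 k2 with k6 | k6
      · exact k4 (Prod.ext k6.1 k6.2.1)
      · exact k5 (Prod.ext k6.1 k6.2.1)
    · rw [map_mul, map_mul, mul_left_comm] at hp
      exact (D.isUnit_rt 0 hab hc).mul_left_cancel hp
  · obtain ⟨p, hp⟩ := hd (∏ x ∈ D.Rt with x.1 ≠ x.2, D.rt x.1 x.2 0) fun ν hν => by
      rw [D.mongood_ee hν]
      exact prod_dvd_prod_of_subset _ _ _ fun x hx =>
        mem_filter.2 ⟨(mem_filter.1 hx).1, hs ν x (mem_filter.1 hx).2⟩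
    refine ⟨_, p, fun h3 => ?_, hp⟩
    obtain ⟨x, k1, k2⟩ := ((D.prime_rt j hab).dvd_finsetProd_iff _).1 h3
    rcases D.rt_dvd_rt hh hab (mem_filter.1 k1).2 k2 with k6 | k6
    · exact hj k6.2.2.symm
    · exact hj (neg_eq_zero.1 k6.2.2.symm)

theorem good_mon (hh : D.h ≠ 0) {μ : Fin n → ℤ}
    (hμ : (∀ a, μ a = 0 ∨ μ a = 1) ∨ (∀ a, μ a = 0 ∨ μ a = -1)) (g : Pol n R) :
    D.Good (D.mon D.Om μ g) := by
  refine ⟨fun w ν => ?_, fun f hf => ?_, fun ν => ?_⟩
  · rw [mon_om, co_sum, co_sum, map_sum, ← Equiv.sum_comp (Equiv.mulLeft w)]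
    refine sum_congr rfl fun w' _ => ?_
    rw [co_sg, co_sg]
    have e : μ ∘ (Equiv.mulLeft w w').1.symm = (μ ∘ w'.1.symm) ∘ w.1.symm := rfl
    rw [e]
    have h := mongood_iff w.1 (μ ∘ w'.1.symm) ν
    by_cases h1 : μ ∘ w'.1.symm = ν
    · rw [if_pos h1, if_pos (h.2 h1), map_mul, rn_al, rn_cc, rename_rename]
      rfl
    · rw [if_neg h1, if_neg fun h2 => h1 (h.1 h2), map_zero]
  · have hm : ∀ a b, μ a - μ b ≤ 1 := fun a b => by
      rcases hμ with h | h <;> rcases h a with h1 | h1 <;> rcases h b with h2 | h2 <;> omega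
    have e : D.app (D.mon D.Om μ g) f =
        ∑ w : stab D.col, D.rn w (D.al g * D.cc μ * D.al (D.sh μ f)) := by
      rw [mon_om, app_sum]
      refine sum_congr rfl fun w _ => ?_
      rw [app_sg, map_mul, map_mul, rn_al, rn_al, rn_cc, rename_sh, hf w.1 w.2]
    refine D.mongood_pol hh _ (fun s => ?_) fun c hc => ?_
    · rw [e, map_sum]
      simp only [rn_rn]
      exact Equiv.sum_comp (Equiv.mulLeft s) fun w => D.rn w (D.al g * D.cc μ * D.al (D.sh μ f))
    · choose c' hc' using fun w : stab D.col => hc (μ ∘ w.1.symm) fun a b => hm _ _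
      refine ⟨∑ w : stab D.col, rename w.1 g * D.mm (μ ∘ w.1.symm) * rename w.1 (D.sh μ f) * c' w,
        ?_⟩
      rw [e, sum_mul, map_sum]
      refine sum_congr rfl fun w _ => ?_
      have h1 := Ring.inverse_mul_cancel _ (D.isUnit_ee (μ ∘ w.1.symm))
      rw [map_mul, map_mul, rn_al, rn_al, rn_cc, cc, hc' w, map_mul, map_mul, map_mul, map_mul]
      linear_combination (D.al (rename w.1 g) * D.al (D.mm (μ ∘ w.1.symm)) *
        D.al (rename w.1 (D.sh μ f)) * D.al (c' w)) * h1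
  · rw [mon_om, co_sum]
    refine dvd_sum fun w _ => ?_
    rw [co_sg]
    split_ifs with h
    · rw [h, cc]
      exact (dvd_mul_right _ _).mul_left _
    · exact dvd_zero _

theorem good_of_mem (hh : D.h ≠ 0) {x : D.Op D.Om} (hx : x ∈ D.Alg D.Om) : D.Good x := by
  have : D.Alg D.Om ≤ D.GG := by
    refine Subring.closure_le.2 ?_
    rintro x (⟨f, hf, rfl⟩ | ⟨μ, g, hμ, rfl⟩)
    · exact D.good_cst hf
    · exact D.good_mon hh hμ g
  exact this hx

end QD

end Pool.Agent.Work.MP_849ab0_ag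
end
end

-- merged part: Pool.Agent.Work.MP_849ab0_ag.Dec
section
/-! Reduction of a degree zero operator to an invariant polynomial. -/

noncomputable section

set_option linter.unusedSectionVars false

namespace Pool.Agent.Work.MP_849ab0_ag

open MvPolynomial Finset

theorem dec_lex_lt {n : ℕ} {μ ν : Fin n → ℤ} (a : Fin n) (h1 : ∀ c, c < a → μ c = ν c)
    (h2 : μ a < ν a) : toLex μ < toLex ν := ⟨a, h1, h2⟩

namespace QD

variable {k n : ℕ} {E R : Type} [Fintype E] [CommRing R] [IsDomain R] [Algebra ℚ R]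
  (D : QD k n E R)

theorem dec_rn_ne (w : stab D.col) {c : D.Om} (hc : c ≠ 0) : D.rn w c ≠ 0 := by
  intro h
  apply hc
  have := D.rn_rn w⁻¹ w c
  rw [h, map_zero, inv_mul_cancel, rn_one] at this
  exact this.symm

theorem dec_rt_dvd {x : D.Op D.Om} (hx : D.Good x) {l : Fin n → ℤ}
    (hm : ∀ μ, D.co x μ ≠ 0 → toLex μ ≤ toLex l) {a b : Fin n} {i : ℤ} (hab : a < b)
    (hc : D.col a = D.col b) (hi : i ≠ 0)
    (h : D.co x (l + Pi.single a i - Pi.single b i) ≠ 0) :
    D.rt a b (l a - l b + i) ∣ D.ee l := by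
  have hne : a ≠ b := hab.ne
  have e1 : ∀ c, c < a → (l + Pi.single a i - Pi.single b i : Fin n → ℤ) c = l c := by
    intro c hca
    have h1 : c ≠ a := hca.ne
    have h2 : c ≠ b := (hca.trans hab).ne
    simp [h1, h2]
  have ea : (l + Pi.single a i - Pi.single b i : Fin n → ℤ) a = l a + i := by simp [hne]
  have eb : (l + Pi.single a i - Pi.single b i : Fin n → ℤ) b = l b - i := by simp [hne.symm]
  have hi0 : i < 0 := by
    by_contra hh
    have : toLex l < toLex (l + Pi.single a i - Pi.single b i : Fin n → ℤ) :=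
      dec_lex_lt a (fun c hca => (e1 c hca).symm) (by rw [ea]; omega)
    exact absurd (hm _ h) (not_le.2 this)
  have hi1 : l b - i ≤ l a := by
    by_contra hh
    let w : stab D.col := ⟨Equiv.swap a b, swap_mem_stab hc⟩
    have h' : D.co x ((l + Pi.single a i - Pi.single b i : Fin n → ℤ) ∘ w.1.symm) ≠ 0 := by
      rw [hx.inv]; exact D.dec_rn_ne w h
    have : toLex l < toLex ((l + Pi.single a i - Pi.single b i : Fin n → ℤ) ∘ w.1.symm) := by
      refine dec_lex_lt a (fun c hca => ?_) ?_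
      · have h1 : c ≠ a := hca.ne
        have h2 : c ≠ b := (hca.trans hab).ne
        change l c = (l + Pi.single a i - Pi.single b i : Fin n → ℤ) ((Equiv.swap a b).symm c)
        rw [Equiv.symm_swap, Equiv.swap_apply_of_ne_of_ne h1 h2, e1 c hca]
      · change l a < (l + Pi.single a i - Pi.single b i : Fin n → ℤ) ((Equiv.swap a b).symm a)
        rw [Equiv.symm_swap, Equiv.swap_apply_left, eb]; omega
    exact absurd (hm _ h') (not_le.2 this)
  rw [ee_eq]
  refine Dvd.dvd.trans ?_ (dvd_prod_of_mem _ (a := (a, b)) (D.mem_Rt.2 hc))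
  exact dvd_prod_of_mem (fun j => D.rt a b j) (mem_Ico.2 ⟨by omega, show _ < l a - l b by omega⟩)

theorem dec_cc_ne (hl : D.NL) (l : Fin n → ℤ) : D.cc l ≠ 0 := by
  unfold cc
  refine mul_ne_zero (fun h => D.mm_ne_zero hl l (D.al_injective (by rw [h, map_zero]))) ?_
  exact (D.isUnit_ee l).ringInverse.ne_zero

theorem dec_cc_zero : D.cc 0 = 1 := by
  rw [cc, mm_zero, ee_zero, map_one, Ring.inverse_one, mul_one]

/-- the leading coefficient -/
theorem lc (hl : D.NL) (hh : D.h ≠ 0) {x : D.Op D.Om} (hx : D.Good x) {l : Fin n → ℤ}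
    (h0 : D.co x l ≠ 0) (hm : ∀ μ, D.co x μ ≠ 0 → toLex μ ≤ toLex l) :
    Dom D.col l ∧ ∃ g ∈ Inv R fun a => (D.col a, l a), D.co x l = D.al g * D.cc l := by
  have : CharZero R := algebraRat.charZero R
  refine ⟨dom_of_max fun w => hm _ (by rw [hx.inv]; exact D.dec_rn_ne w h0), ?_⟩
  obtain ⟨p, hp⟩ := D.pole hl hh hx l (D.ee l) (by
    intro a b i hab hc hi h
    rcases lt_or_gt_of_ne hab with h1 | h1
    · exact D.dec_rt_dvd hx hm h1 hc hi h
    · have e : (l + Pi.single a i - Pi.single b i : Fin n → ℤ) =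
          l + Pi.single b (-i) - Pi.single a (-i) := by
        rw [Pi.single_neg, Pi.single_neg]; abel
      rw [e] at h
      have := D.dec_rt_dvd hx hm h1 hc.symm (neg_ne_zero.2 hi) h
      rw [show l b - l a + -i = -(l a - l b + i) by ring, rt_swap] at this
      exact neg_dvd.1 this)
  have hco : D.co x l = D.al p * D.cc l := by
    have hu := D.isUnit_ee l
    calc D.co x l = D.co x l * D.al (D.ee l) * Ring.inverse (D.al (D.ee l)) := by
          rw [mul_assoc, Ring.mul_inverse_cancel _ hu, mul_one]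
      _ = D.al p * D.cc l := by rw [hp, cc, map_mul]; ring
  refine ⟨p, ?_, hco⟩
  intro w hw
  let w' : stab D.col := ⟨w, fun a => congrArg Prod.fst (hw a)⟩
  have hlw : l ∘ w'.1.symm = l := by
    funext a
    have := congrArg Prod.snd (hw (w.symm a))
    simpa using this.symm
  have h1 := hx.inv w' l
  rw [hlw, hco, map_mul, rn_cc, hlw, rn_al] at h1
  exact (D.al_injective (mul_right_cancel₀ (D.dec_cc_ne hl l) h1)).symm

theorem C_mul_mem_JM {K : Type} [CommRing K] [MulSemiringAction D.Lat K] [Algebra (Pol n R) K]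
    (ν : Fin k → ℤ) (M : ℤ) (r : R) {x : D.Op K} (hx : x ∈ D.JM K ν M) :
    D.cst K (C r) * x ∈ D.JM K ν M := by
  induction hx using AddSubgroup.closure_induction with
  | mem x hx =>
    obtain ⟨S, g, a, h1, h2, h3, h4, rfl⟩ := hx
    refine AddSubgroup.subset_closure ⟨S, C r * g, a, h1, h2, h3, h4, ?_⟩
    rw [← mul_assoc, cst_C_mul_mon]
  | zero => rw [mul_zero]; exact zero_mem _
  | add x y _ _ hx hy => rw [mul_add]; exact add_mem hx hy
  | neg x _ hx => rw [mul_neg]; exact neg_mem hx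

theorem dec_co_cst_mul (f : Pol n R) (y : D.Op D.Om) (μ : Fin n → ℤ) :
    D.co (D.cst D.Om f * y) μ = D.al f * D.co y μ := by
  rw [cst_eq, co_sg_mul, act_zero, sub_zero]

theorem dec_co_cst (f : Pol n R) (μ : Fin n → ℤ) :
    D.co (D.cst D.Om f) μ = if 0 = μ then D.al f else 0 := by
  rw [cst_eq, co_sg]

theorem dec_bound {ν : Fin k → ℤ} (hν : ∀ i, 0 < ν i) {M : ℤ} (hM : 0 ≤ M) {μ : Fin n → ℤ}
    (h0 : D.dg ν μ = 0) (hle : ∀ a, μ a ≤ M) (a : Fin n) :
    -(M * ∑ b, ν (D.col b)) ≤ μ a := by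
  have hS : 0 ≤ M * ∑ b, ν (D.col b) := mul_nonneg hM (sum_nonneg fun b _ => (hν _).le)
  by_cases ha : 0 ≤ μ a
  · omega
  · have h1 : ν (D.col a) * (M - μ a) ≤ ∑ b, ν (D.col b) * (M - μ b) :=
      single_le_sum (f := fun b => ν (D.col b) * (M - μ b))
        (fun b _ => mul_nonneg (hν _).le (sub_nonneg.2 (hle b))) (mem_univ a)
    have h2 : ∑ b, ν (D.col b) * (M - μ b) = M * ∑ b, ν (D.col b) - D.dg ν μ := by
      rw [dg, mul_sum, ← sum_sub_distrib]
      exact sum_congr rfl fun b _ => by ring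
    have h3 : M - μ a ≤ ν (D.col a) * (M - μ a) :=
      le_mul_of_one_le_left (sub_nonneg.2 (hle a)) (hν _)
    rw [h2, h0] at h1
    omega

theorem dec_neg {ν : Fin k → ℤ} (hν : ∀ i, 0 < ν i) {l : Fin n → ℤ} (h0 : D.dg ν l = 0)
    (hl : l ≠ 0) : ∃ a, l a < 0 := by
  by_contra h
  push Not at h
  apply hl
  funext a
  have := (sum_eq_zero_iff_of_nonneg (fun b _ => mul_nonneg (hν (D.col b)).le (h b))).1 h0 a
    (mem_univ a)
  exact (mul_eq_zero.1 this).resolve_left (hν _).ne'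

/-- removing the leading term -/
theorem dec_step {ν : Fin k → ℤ} (hν : ∀ i, 0 < ν i) (𝔎 : Ideal D.Om)
    (h𝔎 : ∀ l g, D.al g * D.cc l ∈ 𝔎 → ∀ m, D.al (C (coeff m g)) ∈ 𝔎) (M : ℤ) (hM : 0 ≤ M)
    {l : Fin n → ℤ} (hd : Dom D.col l) (h0 : D.dg ν l = 0) (hle : ∀ a, l a ≤ M) {g : Pol n R}
    (hg : g ∈ Inv R fun a => (D.col a, l a)) (hk : D.al g * D.cc l ∈ 𝔎) :
    ∃ r ∈ D.Alg D.Om, D.Hom D.Om ν 0 r ∧ D.Le M r ∧ D.Lead r l (D.al g * D.cc l) ∧
      (∀ μ, D.co r μ ∈ 𝔎) ∧
      ∃ f ∈ Inv R D.col, D.al f ∈ 𝔎 ∧ r - D.cst D.Om f ∈ D.JM D.Om ν M := by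
  by_cases hl0 : l = 0
  · subst hl0
    rw [dec_cc_zero, mul_one] at hk ⊢
    have hg' : g ∈ Inv R D.col := fun w hw => hg w fun a => Prod.ext (hw a) rfl
    have hz : ∀ μ, D.co (D.cst D.Om g) μ ≠ 0 → μ = 0 := by
      intro μ h
      rw [dec_co_cst] at h
      by_contra e
      exact h (if_neg (Ne.symm e))
    refine ⟨D.cst D.Om g, D.cst_mem hg', D.hom_cst ν g, ?_, ⟨?_, ?_⟩, ?_, g, hg', hk, ?_⟩
    · intro μ h a
      rw [hz μ h]; exact hM
    · rw [dec_co_cst, if_pos rfl]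
    · intro μ h
      rw [hz μ h]
    · intro μ
      rw [dec_co_cst]
      split_ifs
      · exact hk
      · exact zero_mem _
    · rw [sub_self]; exact zero_mem _
  · have hG : ∀ m : Fin n →₀ ℕ, (C (algebraMap ℚ R
        (Fintype.card (stab fun a => (D.col a, l a)) : ℚ)⁻¹) *
        Av (fun a => (D.col a, l a)) (monomial m 1) : Pol n R) ∈
          Inv R fun a => (D.col a, l a) := fun m =>
      mul_mem ((Inv R _).algebraMap_mem _) (Av_mem _ _)
    choose r hr1 hr2 hr3 hr4 hr5 using fun m => D.ex ν l hd M hM hle _ (hG m)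
    have hco : ∀ μ, D.co (∑ m ∈ g.support, D.cst D.Om (C (coeff m g)) * r m) μ =
        ∑ m ∈ g.support, D.al (C (coeff m g)) * D.co (r m) μ := by
      intro μ
      rw [co_sum]
      exact sum_congr rfl fun m _ => D.dec_co_cst_mul _ _ _
    have hne : ∀ μ, D.co (∑ m ∈ g.support, D.cst D.Om (C (coeff m g)) * r m) μ ≠ 0 →
        ∃ m, D.co (r m) μ ≠ 0 := by
      intro μ h
      rw [hco] at h
      obtain ⟨m, -, hm⟩ := exists_ne_zero_of_sum_ne_zero h
      exact ⟨m, right_ne_zero_of_mul hm⟩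
    refine ⟨∑ m ∈ g.support, D.cst D.Om (C (coeff m g)) * r m, ?_, ?_, ?_, ⟨?_, ?_⟩, ?_,
      0, zero_mem _, by rw [map_zero]; exact zero_mem _, ?_⟩
    · exact sum_mem fun m _ => mul_mem (D.cst_mem ((Inv R _).algebraMap_mem _)) (hr1 m)
    · rw [hom_iff]
      intro μ h
      obtain ⟨m, hm⟩ := hne μ h
      rw [D.hom_iff.1 (hr2 m) μ hm, h0]
    · intro μ h
      obtain ⟨m, hm⟩ := hne μ h
      exact hr3 m μ hm
    · rw [hco]
      conv_rhs => rw [inv_decomp _ hg, map_sum, sum_mul]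
      refine sum_congr rfl fun m _ => ?_
      rw [(hr4 m).1, map_mul D.al (C (coeff m g)), mul_assoc]
    · intro μ h
      obtain ⟨m, hm⟩ := hne μ h
      exact (hr4 m).2 μ hm
    · intro μ
      rw [hco]
      exact sum_mem fun m _ => Ideal.mul_mem_right _ _ (h𝔎 l g hk m)
    · rw [← cstHom_apply, map_zero, sub_zero]
      exact sum_mem fun m _ => D.C_mul_mem_JM ν M _ (hr5 m (D.dec_neg hν h0 hl0) h0)

theorem dec (hl : D.NL) (hh : D.h ≠ 0) {ν : Fin k → ℤ} (hν : ∀ i, 0 < ν i) (𝔎 : Ideal D.Om)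
    (h𝔎 : ∀ l g, D.al g * D.cc l ∈ 𝔎 → ∀ m, D.al (C (coeff m g)) ∈ 𝔎) (M : ℤ) (hM : 0 ≤ M)
    (x : D.Op D.Om) (hx : x ∈ D.Alg D.Om) (h0 : D.Hom D.Om ν 0 x) (hle : D.Le M x)
    (hk : ∀ μ, D.co x μ ∈ 𝔎) :
    ∃ f ∈ Inv R D.col, D.al f ∈ 𝔎 ∧ x - D.cst D.Om f ∈ D.JM D.Om ν M := by
  classical
  have : CharZero R := algebraRat.charZero R
  obtain ⟨T, hT⟩ : ∃ T : Finset (Fin n → ℤ), ∀ μ, D.dg ν μ = 0 → (∀ a, μ a ≤ M) → μ ∈ T :=
    ⟨Fintype.piFinset fun _ => Icc (-(M * ∑ b, ν (D.col b))) M, fun μ h1 h2 =>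
      Fintype.mem_piFinset.2 fun a => mem_Icc.2 ⟨D.dec_bound hν hM h1 h2 a, h2 a⟩⟩
  obtain ⟨N, hN⟩ : ∃ N, (T.filter fun μ => ∃ μ', D.co x μ' ≠ 0 ∧ toLex μ ≤ toLex μ').card = N :=
    ⟨_, rfl⟩
  induction N using Nat.strong_induction_on generalizing x with
  | _ N ih =>
    rcases (D.sup x).eq_empty_or_nonempty with he | he
    · have : x = 0 := D.op_ext fun μ => by
        by_contra h
        have := D.mem_sup.2 h
        rw [he] at this
        simp at this
      refine ⟨0, zero_mem _, by rw [map_zero]; exact zero_mem _, ?_⟩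
      rw [this, ← cstHom_apply, map_zero, sub_zero]
      exact zero_mem _
    · obtain ⟨l, hl1, hl2⟩ := exists_max_image (D.sup x) (fun μ => toLex μ) he
      have hl1' := D.mem_sup.1 hl1
      have hm : ∀ μ, D.co x μ ≠ 0 → toLex μ ≤ toLex l := fun μ h => hl2 μ (D.mem_sup.2 h)
      obtain ⟨hd, g, hg, hco⟩ := D.lc hl hh (D.good_of_mem hh hx) hl1' hm
      have hdg : D.dg ν l = 0 := D.hom_iff.1 h0 l hl1'
      obtain ⟨r, r1, r2, r3, r4, r5, f, f1, f2, f3⟩ :=
        D.dec_step hν 𝔎 h𝔎 M hM hd hdg (hle l hl1') hg (hco ▸ hk l)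
      have hne : ∀ μ, D.co (x - r) μ ≠ 0 → D.co x μ ≠ 0 ∨ D.co r μ ≠ 0 := by
        intro μ h
        by_contra h'
        push Not at h'
        rw [co_sub, h'.1, h'.2, sub_zero] at h
        exact h rfl
      have hlt : ∀ μ, D.co (x - r) μ ≠ 0 → toLex μ < toLex l := by
        intro μ h
        refine lt_of_le_of_ne ((hne μ h).elim (hm μ) (r4.2 μ)) fun e => ?_
        have e' : μ = l := toLex.injective e
        rw [e', co_sub, r4.1, hco, sub_self] at h
        exact h rfl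
      have c1 : (T.filter fun μ => ∃ μ', D.co (x - r) μ' ≠ 0 ∧ toLex μ ≤ toLex μ').card < N := by
        rw [← hN]
        refine card_lt_card ⟨?_, fun hsub => ?_⟩
        · intro μ hμ
          obtain ⟨h1, μ', h2, h3⟩ := mem_filter.1 hμ
          exact mem_filter.2 ⟨h1, l, hl1', h3.trans (hlt μ' h2).le⟩
        · obtain ⟨-, μ', h2, h3⟩ := mem_filter.1
            (hsub (mem_filter.2 ⟨hT l hdg (hle l hl1'), l, hl1', le_rfl⟩))
          exact absurd (hlt μ' h2) (not_lt.2 h3)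
      have c2 : D.Hom D.Om ν 0 (x - r) := by
        rw [hom_iff]
        intro μ h
        exact (hne μ h).elim (D.hom_iff.1 h0 μ) (D.hom_iff.1 r2 μ)
      have c3 : D.Le M (x - r) := fun μ h => (hne μ h).elim (hle μ) (r3 μ)
      have c4 : ∀ μ, D.co (x - r) μ ∈ 𝔎 := fun μ => by
        rw [co_sub]
        exact sub_mem (hk μ) (r5 μ)
      obtain ⟨f', g1, g2, g3⟩ := ih _ c1 (x - r) (sub_mem hx r1) c2 c3 c4 rfl
      refine ⟨f + f', add_mem f1 g1, by rw [map_add]; exact add_mem f2 g2, ?_⟩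
      have : x - D.cst D.Om (f + f') =
          (x - r - D.cst D.Om f') + (r - D.cst D.Om f) := by
        rw [← cstHom_apply, map_add, cstHom_apply, cstHom_apply]; abel
      rw [this]
      exact add_mem g3 f3

end QD

end Pool.Agent.Work.MP_849ab0_ag
end
end

-- merged part: Pool.Agent.Work.MP_849ab0_ag.Basic2
section
/-! Quivers with loops: basic definitions and the pole lemmas. -/

noncomputable section

set_option linter.unusedSectionVars false

namespace Pool.Agent.Work.MP_849ab0_ag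

open MvPolynomial Finset

open scoped Polynomial

namespace QD

section A

variable {k n : ℕ} {E R : Type} [Fintype E] [CommRing R] (D : QD k n E R)

/-- no root form divides a matter factor -/
def GN : Prop := ∀ a b j μ, a ≠ b → D.col a = D.col b → ¬ D.rt a b j ∣ D.mm μ

/-- loops have nonzero flavours -/
def LG : Prop := ∀ e, D.src e = D.tgt e → D.t e ≠ 0

/-- the deformation over `R[X]` with `ħ = X` -/
def up : QD k n E R[X] := ⟨D.col, D.src, D.tgt, fun e => Polynomial.C (D.t e), Polynomial.X⟩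

/-- the iterated residue at `ħ = 0` -/
def r0 (π : Equiv.Perm (Fin n)) (f : Pol n R) : R :=
  (expand (RingHom.id R) π (f * D.NUM) *
    Ring.inverse (expand (RingHom.id R) π (∏ p ∈ D.W2, D.chi p))).coeff (toLex fun _ => 1)

/-- one step ideal -/
def JM2 (K : Type) [CommRing K] [MulSemiringAction D.Lat K] [Algebra (Pol n R) K]
    (ν : Fin k → ℤ) : AddSubgroup (D.Op K) :=
  AddSubgroup.closure {x | ∃ (S : Finset (Fin n)) (g : Pol n R) (a : D.Op K), a ∈ D.Alg K ∧
    D.Hom K ν 0 x ∧ D.Hom K 1 0 x ∧ ((0 < D.dg ν (ind S) ∧ D.Le 1 a ∧ x = D.mon K (-ind S) g * a) ∨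
      (D.dg ν (ind S) < 0 ∧ D.Le 0 a ∧ x = D.mon K (ind S) g * a))}

theorem mem_W2 {p : E × Option (Fin n) × Option (Fin n)} :
    p ∈ D.W2 ↔ p ∈ D.Wt ∧ p.2.1 ≠ p.2.2 := mem_filter

theorem up_chi (p : E × Option (Fin n) × Option (Fin n)) :
    D.up.chi p = MvPolynomial.map Polynomial.C (D.chi p) := by
  simp only [chi, up, map_add, map_sub, map_xv, map_C]

theorem up_map (hh : D.h = 0) : D.up.map (Polynomial.evalRingHom 0) = D := by
  cases D; simp_all [up, map]

theorem mm_W2 (μ : Fin n → ℤ) : D.mm μ = ∏ p ∈ D.W2,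
    ∏ j ∈ Ico (ov μ p.2.2 - ov μ p.2.1) 0, (D.chi p + (j : Pol n R) * C D.h) := by
  rw [mm, W2, prod_filter]
  refine prod_congr rfl fun p _ => ?_
  split_ifs with h
  · rfl
  · rw [not_not.1 h, sub_self, Ico_self, prod_empty]

theorem rename_prod_chi2 (w : stab D.col) :
    rename w.1 (∏ p ∈ D.W2, D.chi p) = ∏ p ∈ D.W2, D.chi p := by
  simp only [map_prod, rename_chi]
  refine prod_equiv (wtPerm w.1) (fun p => ?_) fun _ _ => rfl
  rw [mem_W2, mem_W2, D.wtPerm_mem w p]
  exact and_congr Iff.rfl w.1.optionCongr.injective.ne_iff.symm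

theorem isUnit_chi2 {F : Type} [CommRing F] (φ : R →+* F) (π : Equiv.Perm (Fin n)) :
    IsUnit (expand φ π (∏ p ∈ D.W2, D.chi p)) := by
  rw [map_prod]
  exact IsUnit.prod_iff.2 fun p hp => isUnit_form φ π (D.mem_W2.1 hp).2.symm _

theorem isUnit_den2 {F : Type} [CommRing F] (φ : R →+* F) (π : Equiv.Perm (Fin n))
    (s : Option (Fin n) → ℤ) : IsUnit (expand φ π (∏ p ∈ D.W2, D.den2 s p)) := by
  rw [map_prod]
  refine IsUnit.prod_iff.2 fun p hp => ?_
  unfold den2
  split_ifs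
  · exact isUnit_form φ π (D.mem_W2.1 hp).2.symm _
  · rw [chi, add_sub_assoc, ← C_sub]
    exact isUnit_form φ π (D.mem_W2.1 hp).2.symm _

theorem r0_add (π : Equiv.Perm (Fin n)) (f g : Pol n R) :
    D.r0 π (f + g) = D.r0 π f + D.r0 π g := by
  simp only [r0, add_mul, map_add, HahnSeries.coeff_add]

theorem r0_C_mul (π : Equiv.Perm (Fin n)) (r : R) (f : Pol n R) :
    D.r0 π (C r * f) = r * D.r0 π f := by
  rw [r0, r0, mul_assoc, map_mul, expand_C, mul_assoc, coeff_C_mul']; rfl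

theorem r0_sum {ι : Type} (s : Finset ι) (π : Equiv.Perm (Fin n)) (f : ι → Pol n R) :
    D.r0 π (∑ i ∈ s, f i) = ∑ i ∈ s, D.r0 π (f i) := by
  classical
  induction s using Finset.induction_on with
  | empty => simp [r0]
  | insert i s hi ih => rw [sum_insert hi, sum_insert hi, r0_add, ih]

theorem r0_rename (π : Equiv.Perm (Fin n)) (w : stab D.col) (f : Pol n R) :
    D.r0 π (rename w.1 f) = D.r0 (π * w.1) f := by
  unfold r0
  conv_lhs => rw [← D.rename_NUM w, ← D.rename_prod_chi2 w, ← map_mul (rename w.1), expand_rename,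
    expand_rename]

theorem res2_add (ν : Fin k → ℤ) (s : Option (Fin n) → ℤ) (f g : Pol n R) :
    D.res2 ν s (f + g) = D.res2 ν s f + D.res2 ν s g := by
  simp only [res2, add_mul, map_add, HahnSeries.coeff_add, smul_add, sum_add_distrib]

theorem res2_C_mul (ν : Fin k → ℤ) (s : Option (Fin n) → ℤ) (r : R) (f : Pol n R) :
    D.res2 ν s (C r * f) = r * D.res2 ν s f := by
  unfold res2
  rw [mul_sum]
  refine sum_congr rfl fun π _ => ?_
  rw [mul_assoc, map_mul, expand_C, mul_assoc, coeff_C_mul', mul_smul_comm]; rfl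

theorem res2_map {R' : Type} [CommRing R'] (χ : R →+* R') (ν : Fin k → ℤ)
    (s : Option (Fin n) → ℤ) (f : Pol n R) :
    (D.map χ).res2 ν s (MvPolynomial.map χ f) = χ (D.res2 ν s f) := by
  have e : ∏ p ∈ (D.map χ).W2, (D.map χ).den2 s p =
      MvPolynomial.map χ (∏ p ∈ D.W2, D.den2 s p) := by
    rw [map_prod]
    refine prod_congr rfl fun p _ => ?_
    unfold den2
    split_ifs <;> simp [map_chi, map]
  have e2 : (D.map χ).num2 s = MvPolynomial.map χ (D.num2 s) := by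
    simp only [num2, map_prod, map_mul, map_add, map_sub, map_X, map_C]; rfl
  unfold res2
  rw [map_sum]
  refine sum_congr rfl fun π _ => ?_
  rw [map_zsmul, ← hmap_coeff, map_mul (hmap (Gam n) χ), map_inverse _ (D.isUnit_den2 _ π s),
    hmap_expand, hmap_expand, e, e2, ← map_mul, expand_map, expand_map, RingHom.id_comp,
    RingHom.comp_id]
  rfl

theorem res2_zero (hh : D.h = 0) (ν : Fin k → ℤ) {s : Option (Fin n) → ℤ}
    (hs : Function.Injective s) (f : Pol n R) :
    D.res2 ν s f = ∑ π, jk (ν ∘ D.col) s π • D.r0 π f := by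
  have e : ∀ p, D.den2 s p = D.chi p := fun p => by
    unfold den2
    split_ifs <;> simp [hh]
  have e2 : D.num2 s = D.NUM := by
    rw [num2, NUM, ← prod_filter_mul_prod_filter_not (D.Rt.filter fun q => q.1 ≠ q.2)
      (fun q => s (some q.1) < s (some q.2)), filter_filter, filter_filter, prod_mul_distrib, hh]
    congr 1
    · refine prod_congr (filter_congr fun q _ => ⟨fun h => ⟨fun e => ?_, h⟩, fun h => h.2⟩)
        fun _ _ => rfl
      rw [e] at h
      exact lt_irrefl _ h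
    · refine prod_equiv (Equiv.prodComm _ _) (fun q => ?_) fun q _ => by simp
      simp only [mem_filter, mem_Rt, Equiv.prodComm_apply, Prod.fst_swap, Prod.snd_swap]
      refine and_congr eq_comm ⟨fun h => ⟨fun e => ?_, not_lt.2 h.le⟩, fun h => ?_⟩
      · rw [e] at h
        exact lt_irrefl _ h
      · exact lt_of_le_of_ne (not_lt.1 h.2) (hs.ne fun e => h.1 (Option.some.inj e).symm)
  simp only [res2, r0, e, e2]

theorem C_mul_mem_JM2 {K : Type} [CommRing K] [MulSemiringAction D.Lat K] [Algebra (Pol n R) K]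
    (ν : Fin k → ℤ) (r : R) {x : D.Op K} (hx : x ∈ D.JM2 K ν) :
    D.cst K (C r) * x ∈ D.JM2 K ν := by
  induction hx using AddSubgroup.closure_induction with
  | mem x hx =>
    obtain ⟨S, g, a, h1, h2, h3, h4⟩ := hx
    refine AddSubgroup.subset_closure ⟨S, C r * g, a, h1, ?_, ?_, ?_⟩
    · simpa using (D.hom_cst ν (C r)).mul D h2
    · simpa using (D.hom_cst 1 (C r)).mul D h3
    · rcases h4 with ⟨h5, h6, rfl⟩ | ⟨h5, h6, rfl⟩
      · exact Or.inl ⟨h5, h6, by rw [← mul_assoc, cst_C_mul_mon]⟩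
      · exact Or.inr ⟨h5, h6, by rw [← mul_assoc, cst_C_mul_mon]⟩
  | zero => rw [mul_zero]; exact zero_mem _
  | add x y _ _ hx hy => rw [mul_add]; exact add_mem hx hy
  | neg x _ hx => rw [mul_neg]; exact neg_mem hx

theorem C_mul_mem_JJ {K : Type} [CommRing K] [MulSemiringAction D.Lat K] [Algebra (Pol n R) K]
    (ν : Fin k → ℤ) (r : R) {x : D.Op K} (hx : x ∈ D.JJ K ν) :
    D.cst K (C r) * x ∈ D.JJ K ν := by
  induction hx using AddSubgroup.closure_induction with
  | mem x hx =>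
    obtain ⟨m, hm, b, hb, a, ha, h1, h2, rfl⟩ := hx
    refine AddSubgroup.subset_closure ⟨m, hm, D.cst K (C r) * b,
      mul_mem (D.cst_mem (inv_C_mem _ r)) hb, a, ha, ?_, h2, (mul_assoc _ _ _).symm⟩
    simpa using (D.hom_cst ν (C r)).mul D h1
  | zero => rw [mul_zero]; exact zero_mem _
  | add x y _ _ hx hy => rw [mul_add]; exact add_mem hx hy
  | neg x _ hx => rw [mul_neg]; exact neg_mem hx

theorem JM2_le {K : Type} [CommRing K] [MulSemiringAction D.Lat K] [Algebra (Pol n R) K]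
    (ν : Fin k → ℤ) : D.JM2 K ν ≤ D.JJ K ν := by
  refine (AddSubgroup.closure_le _).2 ?_
  have key : ∀ (μ : Fin n → ℤ) (g : Pol n R) (a : D.Op K),
      ((∀ a, μ a = 0 ∨ μ a = 1) ∨ (∀ a, μ a = 0 ∨ μ a = -1)) → D.dg ν μ < 0 → a ∈ D.Alg K →
      D.Hom K ν 0 (D.mon K μ g * a) → D.mon K μ g * a ∈ D.JJ K ν := by
    intro μ g a hμ hd ha h
    rw [← D.cmp_of_hom h, D.cmp_mul (D.hom_mon ν μ g), zero_sub]
    exact AddSubgroup.subset_closure ⟨_, hd, _, D.mon_mem hμ g, _, D.cmp_mem ν ha _,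
      D.hom_mon ν μ g, D.hom_cmp ν _ _, rfl⟩
  rintro x ⟨S, g, a, h1, h2, -, ⟨h5, -, rfl⟩ | ⟨h5, -, rfl⟩⟩
  · exact key _ g a (neg_ind_min S) (by rw [dg_neg]; omega) h1 h2
  · exact key _ g a (ind_min S) h5 h1 h2

theorem JM2_mem {K : Type} [CommRing K] [MulSemiringAction D.Lat K] [Algebra (Pol n R) K]
    {ν : Fin k → ℤ} {x : D.Op K} (hx : x ∈ D.JM2 K ν) :
    x ∈ D.Alg K ∧ D.Hom K ν 0 x ∧ D.Hom K 1 0 x ∧ D.Le 1 x := by
  have hadd : ∀ {ν : Fin k → ℤ} {y z : D.Op K}, D.Hom K ν 0 y → D.Hom K ν 0 z →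
      D.Hom K ν 0 (y + z) := fun hy hz => by
    rw [← D.cmp_of_hom hy, ← D.cmp_of_hom hz, ← map_add]; exact D.hom_cmp _ 0 _
  have hneg : ∀ {ν : Fin k → ℤ} {y : D.Op K}, D.Hom K ν 0 y → D.Hom K ν 0 (-y) := fun hy => by
    rw [← D.cmp_of_hom hy, ← map_neg]; exact D.hom_cmp _ 0 _
  have lneg : ∀ {y : D.Op K}, D.Le 1 y → D.Le 1 (-y) := fun hy μ hμ =>
    hy μ fun e => hμ (by rw [co_neg, e, neg_zero])
  induction hx using AddSubgroup.closure_induction with
  | mem x hx =>
    obtain ⟨S, g, a, h1, h2, h3, ⟨-, h6, rfl⟩ | ⟨-, h6, rfl⟩⟩ := hx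
    · refine ⟨mul_mem (D.mon_mem (neg_ind_min S) g) h1, h2, h3, ?_⟩
      have := (D.le_mon (K := K) (M := 0) (μ := -ind S) (fun a => by
        simp only [Pi.neg_apply, ind]; split_ifs <;> simp) g).mul D h6
      rwa [zero_add] at this
    · refine ⟨mul_mem (D.mon_mem (ind_min S) g) h1, h2, h3, ?_⟩
      have := (D.le_mon (K := K) (M := 1) (μ := ind S) (fun a => by
        simp only [ind]; split_ifs <;> simp) g).mul D h6
      rwa [add_zero] at this
  | zero => exact ⟨zero_mem _, fun _ h => absurd rfl h, fun _ h => absurd rfl h,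
      fun _ h => absurd rfl h⟩
  | add y z _ _ hy hz =>
    refine ⟨add_mem hy.1 hz.1, hadd hy.2.1 hz.2.1, hadd hy.2.2.1 hz.2.2.1, ?_⟩
    have := hy.2.2.2.sub D (lneg hz.2.2.2)
    rwa [sub_neg_eq_add] at this
  | neg y _ hy => exact ⟨neg_mem hy.1, hneg hy.2.1, hneg hy.2.2.1, lneg hy.2.2.2⟩

theorem mm_ne2 [IsDomain R] (μ : Fin n → ℤ) : D.mm μ ≠ 0 := by
  rw [mm_W2]
  refine prod_ne_zero_iff.2 fun p hp => prod_ne_zero_iff.2 fun j _ e => ?_
  have h := isUnit_form (RingHom.id R) 1 (D.mem_W2.1 hp).2.symm (D.t p.1 + j * D.h)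
  rw [C_add, ← add_assoc, C_mul, map_intCast] at h
  change IsUnit (expand _ _ (D.chi p + _)) at h
  rw [e, map_zero] at h
  exact not_isUnit_zero h

theorem up_GN [IsDomain R] [CharZero R] (hl : D.LG) : D.up.GN := by
  intro a b j μ h1 h2 e
  obtain ⟨p, hp, e⟩ := (D.up.prime_rt j h1).exists_mem_finset_dvd e
  obtain ⟨i, -, e⟩ := (D.up.prime_rt j h1).exists_mem_finset_dvd e
  obtain ⟨f, o, o'⟩ := p
  obtain ⟨h3, h4⟩ := D.mem_Wt.1 hp
  have h0 := D.up.Forms_eval h1 e (y := 0) rfl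
  have key : ∀ y : Fin k → R[X], eval (y ∘ D.col) (xv o') = eval (y ∘ D.col) (xv o) := fun y => by
    have := D.up.Forms_eval h1 e (y := y ∘ D.col) (congrArg y h2)
    have h0 := h0
    rcases o with _ | c <;> rcases o' with _ | d <;>
      simp only [chi, map_add, map_sub, xv_some, xv_none, eval_X, map_zero, Pi.add_apply,
        Pi.zero_apply, map_mul, map_intCast, eval_C] at this h0 ⊢ <;>
      linear_combination this - h0
  have h5 : D.src f = D.tgt f := by
    rw [← h3, ← h4]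
    rcases o with _ | c <;> rcases o' with _ | d
    · rfl
    · simpa using key 1
    · simpa using key 1
    · by_contra h6
      have h7 : D.col c ≠ D.col d := fun e => h6 (congrArg some e)
      simpa [h7] using key (Pi.single (D.col d) 1)
  refine hl f h5 ?_
  have h8 : ∀ o : Option (Fin n), Polynomial.eval 0
      (eval (Pi.single a (-((j : R[X]) * Polynomial.X)) + 0 : Fin n → R[X]) (xv o)) = 0 :=
      fun o => by
    rcases o with _ | c
    · simp
    · by_cases h : c = a <;> simp [h]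
  have h9 := congrArg (Polynomial.eval 0) h0
  simp only [chi, up, map_add, map_sub, map_mul, eval_C, map_intCast, Polynomial.eval_add,
    Polynomial.eval_sub, Polynomial.eval_mul, Polynomial.eval_X, Polynomial.eval_C, h8] at h9
  simpa using h9

end A

section B

variable {k n : ℕ} {E R : Type} [Fintype E] [CommRing R] [IsDomain R] [CharZero R]
  (D : QD k n E R)

theorem pole2 (hl : D.GN) (hh : D.h ≠ 0) {x : D.Op D.Om} (hx : D.Good x) (μ : Fin n → ℤ)
    (Q : Pol n R) (hQ : ∀ a b i, a ≠ b → D.col a = D.col b → i ≠ 0 →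
      D.co x (μ + Pi.single a i - Pi.single b i) ≠ 0 → D.rt a b (μ a - μ b + i) ∣ Q) :
    ∃ p, D.co x μ * D.al Q = D.al (D.mm μ * p) := by
  obtain ⟨w, hw⟩ := hx.dvd μ
  obtain ⟨p, hp⟩ := D.clear hx μ
  obtain ⟨p', hp'⟩ := D.om_local (w * D.al Q) fun a b j h1 h2 => by
    have hpr := D.prime_rt j h1
    have key : ∀ S : Finset (Fin n → ℤ), (∀ ν ∈ S, ¬ D.rt a b j ∣ D.LL μ ν) →
        ¬ D.rt a b j ∣ D.mm μ * ∏ ν ∈ S, (C D.h * D.LL μ ν) := fun S hS h => by
      rcases hpr.dvd_or_dvd h with h | h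
      · exact hl a b j μ h1 h2 h
      · obtain ⟨ν, hν, h⟩ := (hpr.dvd_finsetProd_iff _).1 h
        rcases hpr.dvd_or_dvd h with h | h
        · exact D.not_rt_dvd_C j h1 hh h
        · exact hS ν hν h
    by_cases hc : ∃ ν ∈ (D.sup x).erase μ, D.rt a b j ∣ D.LL μ ν
    · obtain ⟨ν, hν, h⟩ := hc
      obtain ⟨h3, h4, h5⟩ := D.rt_dvd_LL hh h1 (mem_erase.1 hν).1 h
      obtain ⟨Q', hQ'⟩ := hQ a b _ h1 h2 h3 (h4 ▸ D.mem_sup.1 (mem_erase.1 hν).2)
      rw [add_sub_cancel] at hQ'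
      refine ⟨C (D.h * ((2 * (j - (μ a - μ b)) : ℤ) : R)) *
        (D.mm μ * ∏ ν ∈ ((D.sup x).erase μ).erase ν, (C D.h * D.LL μ ν)), Q' * p, fun h6 => ?_, ?_⟩
      · rcases hpr.dvd_or_dvd h6 with h6 | h6
        · exact D.not_rt_dvd_C j h1
            (mul_ne_zero hh (Int.cast_ne_zero.2 (mul_ne_zero two_ne_zero h3))) h6
        · refine key _ (fun κ hκ h7 => (mem_erase.1 hκ).1 ?_) h6
          rw [h4]
          exact (D.rt_dvd_LL hh h1 (mem_erase.1 (mem_erase.1 hκ).2).1 h7).2.1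
      · rw [map_mul D.al Q', ← hp, hw, ← mul_prod_erase _ _ hν, h5, hQ', C_mul]
        simp only [map_mul D.al]
        ring
    · refine ⟨_, Q * p, key ((D.sup x).erase μ) fun ν hν h => hc ⟨ν, hν, h⟩, ?_⟩
      rw [map_mul D.al Q, ← hp, hw, map_mul D.al (D.mm μ)]
      ring
  exact ⟨p', by rw [hw, mul_assoc, hp', map_mul]⟩

/-- simple poles only -/
theorem simple2 (hl : D.GN) (hh : D.h ≠ 0) {x : D.Op D.Om} (hx : D.Good x) (μ : Fin n → ℤ) :
    ∃ (Z : Finset (Fin n × Fin n × ℤ)) (p : Pol n R),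
      (∀ z ∈ Z, z.1 < z.2.1 ∧ D.col z.1 = D.col z.2.1) ∧
      D.co x μ * D.al (∏ z ∈ Z, D.rt z.1 z.2.1 z.2.2) = D.al (D.mm μ * p) := by
  let Z : Finset (Fin n × Fin n × ℤ) :=
    ((univ ×ˢ univ ×ˢ D.sup x).filter fun t : Fin n × Fin n × (Fin n → ℤ) =>
      t.1 < t.2.1 ∧ D.col t.1 = D.col t.2.1).image
      fun t => (t.1, t.2.1, μ t.1 - μ t.2.1 + (t.2.2 t.1 - μ t.1))
  have hZ : ∀ a b ν, a < b → D.col a = D.col b → D.co x ν ≠ 0 →
      D.rt a b (μ a - μ b + (ν a - μ a)) ∣ ∏ z ∈ Z, D.rt z.1 z.2.1 z.2.2 := fun a b ν h1 h2 h3 =>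
    dvd_prod_of_mem (fun z : Fin n × Fin n × ℤ => D.rt z.1 z.2.1 z.2.2)
      (a := (a, b, μ a - μ b + (ν a - μ a))) (mem_image.2 ⟨(a, b, ν), mem_filter.2
        ⟨mem_product.2 ⟨mem_univ _, mem_product.2 ⟨mem_univ _, D.mem_sup.2 h3⟩⟩, h1, h2⟩, rfl⟩)
  obtain ⟨p, hp⟩ := D.pole2 hl hh hx μ (∏ z ∈ Z, D.rt z.1 z.2.1 z.2.2) fun a b i h1 h2 _ h3 => by
    rcases lt_or_gt_of_ne h1 with h | h
    · have := hZ a b _ h h2 h3
      rwa [Pi.sub_apply, Pi.add_apply, Pi.single_eq_same, Pi.single_eq_of_ne h1, sub_zero,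
        add_sub_cancel_left] at this
    · have := hZ b a _ h h2.symm h3
      rw [Pi.sub_apply, Pi.add_apply, Pi.single_eq_same, Pi.single_eq_of_ne h1.symm,
        show μ b - μ a + (μ b + 0 - i - μ b) = -(μ a - μ b + i) by ring, rt_swap] at this
      exact neg_dvd.1 this
  refine ⟨Z, p, fun z hz => ?_, hp⟩
  obtain ⟨t, ht, rfl⟩ := mem_image.1 hz
  exact (mem_filter.1 ht).2

end B

section C

variable {k n : ℕ} {E R : Type} [Fintype E] [CommRing R] [IsDomain R] [Algebra ℚ R]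
  (D : QD k n E R)

theorem cc_ne2 (l : Fin n → ℤ) : D.cc l ≠ 0 := by
  unfold cc
  refine mul_ne_zero (fun h => D.mm_ne2 l (D.al_injective (by rw [h, map_zero]))) ?_
  exact (D.isUnit_ee l).ringInverse.ne_zero

/-- the leading coefficient -/
theorem lc2 (hl : D.GN) (hh : D.h ≠ 0) {x : D.Op D.Om} (hx : D.Good x) {l : Fin n → ℤ}
    (h0 : D.co x l ≠ 0) (hm : ∀ μ, D.co x μ ≠ 0 → toLex μ ≤ toLex l) :
    Dom D.col l ∧ ∃ g ∈ Inv R fun a => (D.col a, l a), D.co x l = D.al g * D.cc l := by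
  have : CharZero R := algebraRat.charZero R
  refine ⟨dom_of_max fun w => hm _ (by rw [hx.inv]; exact D.dec_rn_ne w h0), ?_⟩
  obtain ⟨p, hp⟩ := D.pole2 hl hh hx l (D.ee l) (by
    intro a b i hab hc hi h
    rcases lt_or_gt_of_ne hab with h1 | h1
    · exact D.dec_rt_dvd hx hm h1 hc hi h
    · have e : (l + Pi.single a i - Pi.single b i : Fin n → ℤ) =
          l + Pi.single b (-i) - Pi.single a (-i) := by
        rw [Pi.single_neg, Pi.single_neg]; abel
      rw [e] at h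
      have := D.dec_rt_dvd hx hm h1 hc.symm (neg_ne_zero.2 hi) h
      rw [show l b - l a + -i = -(l a - l b + i) by ring, rt_swap] at this
      exact neg_dvd.1 this)
  have hco : D.co x l = D.al p * D.cc l := by
    have hu := D.isUnit_ee l
    calc D.co x l = D.co x l * D.al (D.ee l) * Ring.inverse (D.al (D.ee l)) := by
          rw [mul_assoc, Ring.mul_inverse_cancel _ hu, mul_one]
      _ = D.al p * D.cc l := by rw [hp, cc, map_mul]; ring
  refine ⟨p, ?_, hco⟩
  intro w hw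
  let w' : stab D.col := ⟨w, fun a => congrArg Prod.fst (hw a)⟩
  have hlw : l ∘ w'.1.symm = l := by
    funext a
    have := congrArg Prod.snd (hw (w.symm a))
    simpa using this.symm
  have h1 := hx.inv w' l
  rw [hlw, hco, map_mul, rn_cc, hlw, rn_al] at h1
  exact (D.al_injective (mul_right_cancel₀ (D.cc_ne2 l) h1)).symm

theorem sp_ker2 {R' : Type} [CommRing R'] [IsDomain R'] (χ : R →+* R') (l : Fin n → ℤ) (g : Pol n R)
    (h : D.al g * D.cc l ∈ RingHom.ker (D.sp χ)) (m : Fin n →₀ ℕ) :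
    D.al (C (coeff m g)) ∈ RingHom.ker (D.sp χ) := by
  have hi := IsFractionRing.injective (Pol n R') (FractionRing (Pol n R'))
  rw [RingHom.mem_ker, map_mul, sp_cc, sp_al, Ring.inverse_eq_inv'] at h
  have h1 := (map_ne_zero_iff _ hi).2 ((D.map χ).mm_ne2 l)
  have h2 := (map_ne_zero_iff _ hi).2 ((D.map χ).RS_ne_zero ((D.map χ).ee_mem l))
  have h3 := (map_eq_zero_iff _ hi).1
    ((mul_eq_zero.1 h).resolve_right (mul_ne_zero h1 (inv_ne_zero h2)))
  rw [RingHom.mem_ker, sp_al, map_C, ← coeff_map, h3]; simp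

end C

end QD

end Pool.Agent.Work.MP_849ab0_ag
end
end

-- merged part: Pool.Agent.Work.MP_849ab0_ag.Ex2
section
/-! Extraction of an arbitrary level factor. -/

noncomputable section

set_option linter.unusedSectionVars false

namespace Pool.Agent.Work.MP_849ab0_ag

open MvPolynomial Finset

namespace QD

variable {k n : ℕ} {E R : Type} [Fintype E] [CommRing R] [Algebra ℚ R] (D : QD k n E R)

theorem Ex2_block (l : Fin n → ℤ) {s : ℤ} (hs : s = 1 ∨ s = -1) {j : ℤ} (μ : Fin n → ℤ)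
    (hμ : ∀ a, μ a = if j ≤ s * l a then s else 0) (i : Fin k) (y : ℤ) (e : ℕ) :
    D.sh μ (ps R (univ.filter fun a => D.col a = i ∧ l a = y) e) ∈
      (Inv R fun a => (D.col a, μ a)) ⊔ (Inv R fun a => (D.col a, (l - μ) a)).map (D.sh μ) := by
  have hT : ∀ (Q : ℤ → Prop) (U : Finset (Fin n)), (∀ a, a ∈ U ↔ D.col a = i ∧ Q (l a - μ a)) →
      D.sh μ (ps R U e) ∈ (Inv R fun a => (D.col a, μ a)) ⊔
        (Inv R fun a => (D.col a, (l - μ) a)).map (D.sh μ) := fun Q U h =>
    (le_sup_right : _ ≤ (Inv R fun a => (D.col a, μ a)) ⊔ _)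
      ⟨_, Ex_ps_mem (fun a => (D.col a, (l - μ) a)) (fun z => z.1 = i ∧ Q z.2) U h e, rfl⟩
  have h0 : D.sh μ (ps R (univ.filter fun a => D.col a = i ∧ l a = s * (j - 1)) e) ∈
      (Inv R fun a => (D.col a, μ a)) ⊔ (Inv R fun a => (D.col a, (l - μ) a)).map (D.sh μ) := by
    rw [Ex_ps_split (univ.filter fun a => D.col a = i ∧ μ a = 0) _
      (univ.filter fun a => D.col a = i ∧ s * (l a - μ a) < j - 1), map_sub, D.Ex_sh_ps μ]
    · refine sub_mem ((le_sup_left : (Inv R fun a => (D.col a, μ a)) ≤ _)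
        (Ex_ps_mem (fun a => (D.col a, μ a)) (fun z => z.1 = i ∧ z.2 = 0) _ (fun a => ?_) e))
        (hT (fun z => s * z < j - 1) _ fun a => ?_)
      · simp only [mem_filter, mem_univ, true_and]
      · simp only [mem_filter, mem_univ, true_and]
    · intro a ha
      exact (mem_filter.1 ha).2.2
    · intro a
      simp only [mem_filter, mem_univ, true_and, ← and_or_left]
      refine and_congr_right fun _ => ?_
      have := hμ a
      rcases hs with rfl | rfl <;> split_ifs at this <;> omega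
    · intro a
      simp only [mem_filter, mem_univ, true_and]
      have := hμ a
      rcases hs with rfl | rfl <;> split_ifs at this <;> omega
  by_cases hy0 : y = s * (j - 1)
  · rw [hy0]; exact h0
  by_cases hys : y = s * j
  · rw [Ex_ps_split (univ.filter fun a => D.col a = i ∧ l a - μ a = s * (j - 1)) _
      (univ.filter fun a => D.col a = i ∧ l a = s * (j - 1)), map_sub]
    · refine sub_mem (hT (fun z => z = s * (j - 1)) _ fun a => ?_) h0
      simp only [mem_filter, mem_univ, true_and]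
    · intro a
      simp only [mem_filter, mem_univ, true_and, ← and_or_left]
      refine and_congr_right fun _ => ?_
      have := hμ a
      rcases hs with rfl | rfl <;> split_ifs at this <;> omega
    · intro a
      simp only [mem_filter, mem_univ, true_and]
      omega
  by_cases hy : j ≤ s * y
  · refine hT (fun z => z = y - s) _ fun a => ?_
    simp only [mem_filter, mem_univ, true_and]
    refine and_congr_right fun _ => ?_
    have := hμ a
    rcases hs with rfl | rfl <;> split_ifs at this <;> omega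
  · refine hT (fun z => z = y) _ fun a => ?_
    simp only [mem_filter, mem_univ, true_and]
    refine and_congr_right fun _ => ?_
    have := hμ a
    rcases hs with rfl | rfl <;> split_ifs at this <;> omega

theorem Ex2_coh (l : Fin n → ℤ) {s : ℤ} (hs : s = 1 ∨ s = -1) {j : ℤ} (hj : 1 ≤ j)
    (μ : Fin n → ℤ) (hμ : ∀ a, μ a = if j ≤ s * l a then s else 0) : Coh μ (l - μ) := by
  have h1 : ∀ o, ov μ o = if j ≤ s * ov l o then s else 0 := by
    rintro (_ | a)
    · rw [ov_none, ov_none, mul_zero, if_neg (by omega)]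
    · exact hμ a
  have h2 : ∀ o, ov (l - μ) o = ov l o - ov μ o := by
    rintro (_ | a)
    · simp
    · rfl
  intro o o'
  have e1 := h1 o
  have e2 := h1 o'
  rw [h2, h2]
  rcases hs with rfl | rfl <;> split_ifs at e1 e2 <;> omega

theorem inv_split2 (l : Fin n → ℤ) {s : ℤ} (hs : s = 1 ∨ s = -1) {j : ℤ} (hj : 1 ≤ j)
    (μ : Fin n → ℤ) (hμ : ∀ a, μ a = if j ≤ s * l a then s else 0) {g : Pol n R}
    (hg : g ∈ Inv R fun a => (D.col a, l a)) :
    g ∈ AddSubgroup.closure {p | ∃ g₁ ∈ Inv R fun a => (D.col a, μ a),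
      ∃ g₂ ∈ Inv R fun a => (D.col a, (l - μ) a), p = g₁ * D.sh μ g₂} := by
  have _ := hj
  have h1 : D.sh (-μ) g ∈ Inv R fun a => (D.col a, l a) := by
    intro w hw
    have e : (-μ) ∘ w.symm = -μ := by
      funext a
      have h2 : l (w.symm a) = l a := congrArg Prod.snd (stab_symm ⟨w, hw⟩ a)
      rw [Function.comp_apply, Pi.neg_apply, Pi.neg_apply, hμ, hμ, h2]
    rw [rename_sh, e, hg w hw]
  have h2 : Algebra.adjoin R
      {p | ∃ y j, p = ps R (univ.filter fun a => (D.col a, l a) = y) j} ≤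
      ((Inv R fun a => (D.col a, μ a)) ⊔
        (Inv R fun a => (D.col a, (l - μ) a)).map (D.sh μ)).comap (D.sh μ) := by
    refine Algebra.adjoin_le ?_
    rintro _ ⟨⟨i, y⟩, m, rfl⟩
    have e : (univ.filter fun a => (D.col a, l a) = (i, y)) =
        univ.filter fun a => D.col a = i ∧ l a = y := by
      ext a
      simp only [mem_filter, Prod.mk.injEq]
    rw [e]
    exact D.Ex2_block l hs μ hμ i y m
  have h3 := h2 (inv_le_adjoin _ h1)
  rw [Subalgebra.mem_comap, sh_sh, add_neg_cancel, sh_zero', ← Subalgebra.mem_toSubmodule,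
    ← Subalgebra.mul_toSubmodule] at h3
  refine Submodule.mul_induction_on h3 ?_ fun x y hx hy => add_mem hx hy
  rintro p hp _ ⟨q, hq, rfl⟩
  exact AddSubgroup.subset_closure ⟨p, hp, q, hq, rfl⟩

theorem ex_two (ν : Fin k → ℤ) (l : Fin n → ℤ) (hl : Dom D.col l) (M : ℤ) (hM : 0 ≤ M)
    (hlM : ∀ a, l a ≤ M) (g : Pol n R) (hg : g ∈ Inv R fun a => (D.col a, l a)) :
    ∃ r ∈ D.Alg D.Om, D.Hom D.Om ν (D.dg ν l) r ∧ D.Hom D.Om 1 (D.dg 1 l) r ∧ D.Le M r ∧
      D.Lead r l (D.al g * D.cc l) := by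
  obtain ⟨r, hr, h1, h2, h3, -⟩ := D.ex ν l hl M hM hlM g hg
  have key : ∀ κ, D.co (D.cmp 1 (D.dg 1 l) r) κ ≠ 0 → D.co r κ ≠ 0 := fun κ h e => h (by
    rw [co_cmp, e, ite_self])
  refine ⟨D.cmp 1 (D.dg 1 l) r, D.cmp_mem 1 hr _,
    D.hom_iff.2 fun κ h => D.hom_iff.1 h1 κ (key κ h), D.hom_cmp _ _ _, Le.cmp D h2 _ _, ?_,
    fun κ h => h3.2 κ (key κ h)⟩
  rw [co_cmp, if_pos rfl, h3.1]

theorem ex_level (ν : Fin k → ℤ) (l : Fin n → ℤ) (hl : Dom D.col l) {s : ℤ} (hs : s = 1 ∨ s = -1)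
    {j : ℤ} (hj : 1 ≤ j) (μ : Fin n → ℤ) (hμ : ∀ a, μ a = if j ≤ s * l a then s else 0) (M : ℤ)
    (hM : 0 ≤ M) (hlM : ∀ a, (l - μ) a ≤ M) (g : Pol n R)
    (hg : g ∈ Inv R fun a => (D.col a, l a)) :
    ∃ r ∈ AddSubgroup.closure {x | ∃ g' a, a ∈ D.Alg D.Om ∧ D.Hom D.Om ν (D.dg ν (l - μ)) a ∧
      D.Hom D.Om 1 (D.dg 1 (l - μ)) a ∧ D.Le M a ∧ x = D.mon D.Om μ g' * a},
      D.Lead r l (D.al g * D.cc l) := by
  have hd1 : Dom D.col μ := by
    intro a b hab hc
    have h1 := hl a b hab hc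
    have e1 := hμ a
    have e2 := hμ b
    rcases hs with rfl | rfl <;> split_ifs at e1 e2 <;> omega
  have hd2 : Dom D.col (l - μ) := by
    intro a b hab hc
    have h1 := hl a b hab hc
    have e1 := hμ a
    have e2 := hμ b
    rw [Pi.sub_apply, Pi.sub_apply]
    rcases hs with rfl | rfl <;> split_ifs at e1 e2 <;> omega
  have el : μ + (l - μ) = l := add_sub_cancel μ l
  have hg' := D.inv_split2 l hs hj μ hμ hg
  clear hg
  induction hg' using AddSubgroup.closure_induction with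
  | mem p hp =>
    obtain ⟨g₁, hg₁, g₂, hg₂, rfl⟩ := hp
    obtain ⟨g', hg'⟩ := D.lead_mon hd1 hg₁
    obtain ⟨r, hr, h1, h1', h2, h3⟩ := D.ex_two ν (l - μ) hd2 M hM hlM g₂ hg₂
    refine ⟨D.mon D.Om μ g' * r, AddSubgroup.subset_closure ⟨g', r, hr, h1, h1', h2, rfl⟩, ?_⟩
    have h4 := Lead.mul D hg' h3
    have h5 := D.cc_add (Ex2_coh l hs hj μ hμ)
    rw [el] at h4 h5
    rw [h5, map_mul D.al, ← D.act_alg μ g₂, mul_mul_mul_comm, ← map_mul]
    exact h4
  | zero =>
    exact ⟨0, zero_mem _, by rw [map_zero, zero_mul]; rfl, fun κ h => absurd rfl h⟩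
  | add p q _ _ hp hq =>
    obtain ⟨r, hr, h3⟩ := hp
    obtain ⟨r', hr', h3'⟩ := hq
    refine ⟨r + r', add_mem hr hr', ?_, fun κ h => ?_⟩
    · rw [co_add, h3.1, h3'.1, map_add, add_mul]
    · exact (D.Ex_ne_add h).elim (h3.2 κ) (h3'.2 κ)
  | neg p _ hp =>
    obtain ⟨r, hr, h3⟩ := hp
    refine ⟨-r, neg_mem hr, ?_, fun κ h => h3.2 κ (D.Ex_ne_neg h)⟩
    rw [co_neg, h3.1, map_neg]
    ring

end QD

end Pool.Agent.Work.MP_849ab0_ag
end
end

-- merged part: Pool.Agent.Work.MP_849ab0_ag.JI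
section
/-! The ideal of the one-step operators pairs to zero with all Hecke words. -/

noncomputable section

set_option linter.unusedSectionVars false

namespace Pool.Agent.Work.MP_849ab0_ag

open MvPolynomial Finset

namespace QD

variable {k n : ℕ} {E R : Type} [Fintype E] [CommRing R] [IsDomain R] [CharZero R]
  (D : QD k n E R)

/-- expansion on `Om` -/
def exO (π : Equiv.Perm (Fin n)) : D.Om →+* HahnSeries (Gam n) R :=
  D.lift (expand (RingHom.id R) π) fun _ _ j h _ => D.isUnit_expand_rt _ π h j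

theorem ji_al (π : Equiv.Perm (Fin n)) (f : Pol n R) :
    D.exO π (D.al f) = expand (RingHom.id R) π f := D.lift_al _ _ _

/-- the denominator attached to a pair of coordinates -/
def jiQ (S : Finset (Fin n)) (q : Fin n × Fin n) : Pol n R :=
  if q.2 ∈ S ∨ q.1 = q.2 then 1 else D.rt q.1 q.2 (1 - ind S q.1)

theorem ji_pole (hl : D.NL) (hh : D.h ≠ 0) (S : Finset (Fin n)) {x : D.Op D.Om} (hx : D.Good x)
    (hle : D.Le 1 x) :
    ∃ p, D.co x (ind S) * D.al (∏ q ∈ D.Rt, D.jiQ S q) = D.al (D.mm (ind S) * p) := by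
  refine D.pole hl hh hx _ _ fun a b i hab hc hi h => ?_
  have h1 := hle _ h a
  have h2 := hle _ h b
  rw [Pi.sub_apply, Pi.add_apply, Pi.single_eq_same, Pi.single_eq_of_ne hab] at h1
  rw [Pi.sub_apply, Pi.add_apply, Pi.single_eq_same, Pi.single_eq_of_ne hab.symm] at h2
  have key : (b ∉ S ∧ ind S a - ind S b + i = 1 - ind S a) ∨
      (a ∉ S ∧ ind S a - ind S b + i = -(1 - ind S b)) := by
    unfold ind at h1 h2 ⊢
    by_cases ha : a ∈ S <;> by_cases hb : b ∈ S <;>
      simp only [ha, hb, if_true, if_false, not_true, not_false_iff, true_and, false_and,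
        or_false, false_or] at h1 h2 ⊢ <;> omega
  rcases key with ⟨hb, e⟩ | ⟨ha, e⟩
  · refine Dvd.dvd.trans (dvd_of_eq ?_) (dvd_prod_of_mem _ (a := (a, b)) (D.mem_Rt.2 hc))
    rw [e, jiQ, if_neg (not_or.2 ⟨hb, hab⟩)]
  · rw [e, rt_swap, neg_dvd]
    refine Dvd.dvd.trans (dvd_of_eq ?_) (dvd_prod_of_mem _ (a := (b, a)) (D.mem_Rt.2 hc.symm))
    rw [jiQ, if_neg (not_or.2 ⟨ha, hab.symm⟩)]

theorem ji_unit (S : Finset (Fin n)) (μ : Fin n → ℤ) :
    IsUnit (D.al (D.sh μ (∏ q ∈ D.Rt, D.jiQ S q))) := by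
  rw [map_prod, map_prod]
  refine Finset.prod_induction _ IsUnit (fun _ _ => IsUnit.mul) isUnit_one fun q hq => ?_
  unfold jiQ
  split_ifs with h
  · rw [map_one, map_one]; exact isUnit_one
  · rw [sh_rt]; exact D.isUnit_rt _ (not_or.1 h).2 (D.mem_Rt.1 hq)

theorem ji_ee (μ : Fin n → ℤ) :
    D.ee μ = ∏ q ∈ D.Rt, ∏ j ∈ Ico 0 (μ q.2 - μ q.1), D.rt q.2 q.1 j := by
  rw [ee_eq]
  refine prod_equiv (Equiv.prodComm _ _) (fun q => ?_) fun q _ => rfl
  rw [mem_Rt, mem_Rt]; exact eq_comm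

theorem ji_rt (π : Equiv.Perm (Fin n)) {a b c : Fin n} (hbc : b ≠ c)
    (h1 : π b < π c → a ≠ b) (h2 : π c < π b → a ≠ c) (j : ℤ) :
    Ring.inverse (expand (RingHom.id R) π (D.rt b c j)) ∈ PP R (π a) := by
  rcases lt_or_gt_of_ne (π.injective.ne hbc) with h | h
  · exact (D.fm_rt π h j).1.inv_mem _ (h1 h)
  · exact (D.fm_rt π h j).2.inv_mem _ (h2 h)

theorem ji_pair (π : Equiv.Perm (Fin n)) {S : Finset (Fin n)} {a : Fin n} (ha : a ∈ S)
    (b c : Fin n) :
    expand (RingHom.id R) π (if π b < π c then (X b - X c) * (X c - X b + C D.h) else 1) *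
      (Ring.inverse (expand (RingHom.id R) π
        (∏ j ∈ Ico 0 ((-ind S) c - (-ind S) b), D.rt c b j)) *
      Ring.inverse (expand (RingHom.id R) π (D.sh (-ind S) (D.jiQ S (b, c))))) ∈ PP R (π a) := by
  have hone : Ring.inverse (expand (RingHom.id R) π (1 : Pol n R)) ∈ PP R (π a) := by
    rw [map_one, Ring.inverse_one]; exact one_mem _
  by_cases hc : c ∈ S
  · rw [Ico_eq_empty (by simp only [Pi.neg_apply, ind, if_pos hc]; split_ifs <;> omega),
      prod_empty, jiQ, if_pos (Or.inl hc), map_one (D.sh _)]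
    exact mul_mem (expand_mem_PP _ _ _ _) (mul_mem hone hone)
  have hac : a ≠ c := fun e => hc (e ▸ ha)
  by_cases hb : b ∈ S
  · have hbc : b ≠ c := fun e => hc (e ▸ hb)
    have e1 : (-ind S) c - (-ind S) b = 1 := by simp [ind, hb, hc]
    have e2 : 1 - ind S b + ((-ind S) b - (-ind S) c) = -1 := by simp [ind, hb, hc]
    rw [e1, show Ico (0 : ℤ) 1 = {0} from rfl, prod_singleton, jiQ, if_neg (not_or.2 ⟨hc, hbc⟩),
      sh_rt, e2]
    by_cases h : π b < π c
    · have e3 : (X b - X c) * (X c - X b + C D.h) = D.rt c b 0 * D.rt b c (-1) := by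
        simp only [rt, Int.cast_zero, Int.cast_neg, Int.cast_one]; ring
      have u1 := Ring.mul_inverse_cancel _ (D.isUnit_expand_rt (RingHom.id R) π hbc.symm 0)
      have u2 := Ring.mul_inverse_cancel _ (D.isUnit_expand_rt (RingHom.id R) π hbc (-1))
      rw [if_pos h, e3, map_mul, mul_mul_mul_comm, u1, u2, one_mul]
      exact one_mem _
    · exact mul_mem (expand_mem_PP _ _ _ _) (mul_mem
        (D.ji_rt π hbc.symm (fun _ => hac) (fun h' => absurd h' h) _)
        (D.ji_rt π hbc (fun h' => absurd h' h) (fun _ => hac) _))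
  · rw [Ico_eq_empty (by simp [ind, hb, hc]), prod_empty]
    refine mul_mem (expand_mem_PP _ _ _ _) (mul_mem hone ?_)
    unfold jiQ
    split_ifs with h
    · rw [map_one (D.sh _)]; exact hone
    · rw [sh_rt]
      exact D.ji_rt π (not_or.1 h).2 (fun _ (e : a = b) => hb (e ▸ ha)) (fun _ => hac) _

theorem ji_ov (π : Equiv.Perm (Fin n)) {S : Finset (Fin n)} {a : Fin n}
    (hmax : ∀ b ∈ S, π b ≤ π a) {o : Option (Fin n)} (h : outer π (some a) o) :
    ov (ind S) o = 0 := by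
  cases o with
  | none => rfl
  | some b => exact if_neg fun hb => absurd (hmax b hb) (not_le.2 h)

theorem ji_wt (hl : D.NL) (π : Equiv.Perm (Fin n)) {S : Finset (Fin n)} {a : Fin n} (ha : a ∈ S)
    (hmax : ∀ b ∈ S, π b ≤ π a) {p : E × Option (Fin n) × Option (Fin n)} (hp : p ∈ D.Wt) :
    expand (RingHom.id R) π
      ((∏ j ∈ Ico (ov (-ind S) p.2.2 - ov (-ind S) p.2.1) 0, (D.chi p + (j : Pol n R) * C D.h)) *
        ∏ j ∈ Ico (ov (ind S) p.2.2 - ov (ind S) p.2.1) 0,
          (D.chi p + ((j + (ov (-ind S) p.2.2 - ov (-ind S) p.2.1) : ℤ) : Pol n R) * C D.h)) *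
      Ring.inverse (expand (RingHom.id R) π (D.den π p)) ∈ PP R (π a) := by
  have h1 : ind S a = 1 := if_pos ha
  rcases D.wt_cases hl π hp with ⟨b, hb, ho⟩ | ⟨b, hb, ho, hn⟩
  · have e : D.den π p = D.chi p + C 0 := by rw [den, if_pos ho, map_zero, add_zero]
    rw [e]
    rw [hb] at ho
    by_cases hab : a = b
    · subst hab
      rw [ov_neg, ov_neg, ji_ov π hmax ho, hb, ov_some, h1,
        show Ico (-0 - -1 : ℤ) 0 = ∅ from rfl, show Ico (0 - 1 : ℤ) 0 = {-1} from rfl, prod_empty,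
        prod_singleton, one_mul, show (-1 + (-0 - -1) : ℤ) = 0 from rfl, Int.cast_zero, zero_mul,
        ← C_0, Ring.mul_inverse_cancel _ (D.isUnit_expand_chi hl _ π hp 0)]
      exact one_mem _
    · exact mul_mem (expand_mem_PP _ _ _ _)
        (Fm.inv_mem ⟨_, _, ho, Or.inr (D.chi_src hb 0)⟩ _ hab)
  · have e : D.den π p = D.chi p + C (-D.h) := by rw [den, if_neg hn, map_neg, sub_eq_add_neg]
    rw [e]
    rw [hb] at ho
    by_cases hab : a = b
    · subst hab
      rw [ov_neg, ov_neg, ji_ov π hmax ho, hb, ov_some, h1,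
        show Ico (-1 - -0 : ℤ) 0 = {-1} from rfl, show Ico (1 - 0 : ℤ) 0 = ∅ from rfl, prod_empty,
        prod_singleton, mul_one, Int.cast_neg, Int.cast_one, neg_one_mul, ← C_neg,
        Ring.mul_inverse_cancel _ (D.isUnit_expand_chi hl _ π hp _)]
      exact one_mem _
    · exact mul_mem (expand_mem_PP _ _ _ _)
        (Fm.inv_mem ⟨_, _, ho, Or.inl (D.chi_tgt hb _)⟩ _ hab)

theorem ji_term (hl : D.NL) (hh : D.h ≠ 0) (π : Equiv.Perm (Fin n)) {S : Finset (Fin n)}
    {a : Fin n} (ha : a ∈ S) (hmax : ∀ b ∈ S, π b ≤ π a) {x : D.Op D.Om} (hx : D.Good x)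
    (hle : D.Le 1 x) :
    D.exO π (D.cc (-ind S) * D.act _ (-ind S) (D.co x (ind S))) *
      (expand (RingHom.id R) π (D.num π) *
        Ring.inverse (expand (RingHom.id R) π (∏ p ∈ D.Wt, D.den π p))) ∈ PP R (π a) := by
  obtain ⟨p, hp⟩ := D.ji_pole hl hh S hx hle
  have hu := D.ji_unit S (-ind S)
  have h1 : D.act _ (-ind S) (D.co x (ind S)) = D.al (D.sh (-ind S) (D.mm (ind S) * p)) *
      Ring.inverse (D.al (D.sh (-ind S) (∏ q ∈ D.Rt, D.jiQ S q))) := by
    rw [← act_alg, ← hp, map_mul, act_alg, mul_assoc, Ring.mul_inverse_cancel _ hu, mul_one]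
  have hA := prod_mem fun p hp => D.ji_wt hl π ha hmax (p := p) hp
  have hB := prod_mem (t := D.Rt) fun q _ => D.ji_pair π ha q.1 q.2
  rw [prod_mul_distrib, ← inverse_prod, ← map_prod, ← map_prod, prod_mul_distrib, ← good_sh_mm,
    ← mm] at hA
  rw [prod_mul_distrib, prod_mul_distrib, ← inverse_prod, ← inverse_prod, ← map_prod, ← map_prod,
    ← map_prod, ← map_prod, ← ji_ee, ← prod_filter, ← num] at hB
  have := mul_mem (expand_mem_PP (RingHom.id R) π (π a) (D.sh (-ind S) p)) (mul_mem hA hB)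
  convert this using 1
  rw [h1, cc, map_mul, map_mul, map_mul, map_inverse _ hu, map_inverse _ (D.isUnit_ee _), ji_al,
    ji_al, ji_al, ji_al, map_mul (D.sh _), map_mul, map_mul]
  ring

theorem ji_ind (S : Finset (Fin n)) (w : Equiv.Perm (Fin n)) :
    (-ind S) ∘ w.symm = -ind (S.map w.toEmbedding) := by
  funext a
  simp only [Function.comp_apply, Pi.neg_apply, ind, mem_map_equiv]

theorem ji (hl : D.NL) (hh : D.h ≠ 0) (ν : Fin k → ℤ) {f : Pol n R}
    (hf : D.cst D.Om f ∈ D.JM D.Om ν 1) (π : Equiv.Perm (Fin n)) (g : Pol n R) :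
    D.res (RingHom.id R) π (f * g) = 0 := by
  have key : ∀ x ∈ D.JM D.Om ν 1, (D.exO π (D.co x 0) * (expand (RingHom.id R) π g *
      (expand (RingHom.id R) π (D.num π) *
        Ring.inverse (expand (RingHom.id R) π (∏ p ∈ D.Wt, D.den π p))))).coeff
          (toLex fun _ => 1) = 0 := by
    intro x hx
    induction hx using AddSubgroup.closure_induction with
    | mem x hx =>
      obtain ⟨S, g', y, hS, hy, -, hle, rfl⟩ := hx
      rw [mon_om, sum_mul, co_sum, map_sum, sum_mul, HahnSeries.coeff_sum]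
      refine sum_eq_zero fun w _ => ?_
      obtain ⟨a, ha, hmax⟩ := exists_max_image (S.map w.1.toEmbedding) π (hS.map)
      have := mul_mem (mul_mem (expand_mem_PP (RingHom.id R) π (π a) (rename w.1 g'))
        (expand_mem_PP (RingHom.id R) π (π a) g))
        (D.ji_term hl hh π ha hmax (D.good_of_mem hh hy) hle)
      refine PP.coeff_one (i := π a) ?_
      convert this using 1
      rw [co_sg_mul, ji_ind, zero_sub, neg_neg, mul_assoc, map_mul, ji_al]
      ring
    | zero => simp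
    | add x y _ _ hx hy =>
      rw [co_add, map_add, add_mul, HahnSeries.coeff_add, hx, hy, add_zero]
    | neg x _ hx => rw [co_neg, map_neg, neg_mul, HahnSeries.coeff_neg, hx, neg_zero]
  have := key _ hf
  rw [cst_eq, co_sg, if_pos rfl, ji_al] at this
  rw [res, map_mul, map_mul, mul_assoc, mul_assoc]
  exact this

end QD

end Pool.Agent.Work.MP_849ab0_ag
end
end
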