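import Pool.Agent.Work.MP_849ab0_ag.Kill2
import Pool.Agent.Work.MP_849ab0_ag.Grade
import Pool.Agent.Work.MP_849ab0_ag.JI

-- merged part: Pool.Agent.Work.MP_849ab0_ag.TDefs2
section
/-! Twisted traces for all quivers and all generic characters. -/

noncomputable section

set_option linter.unusedSectionVars false

namespace Pool.Agent.Work.MP_849ab0_ag

open MvPolynomial Finset

open scoped Polynomial

namespace QD

variable {k n : ℕ} {E R F : Type} [Fintype E] [CommRing R] [IsDomain R] [Algebra ℚ R] [Field F]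
  [Algebra ℚ F] (D : QD k n E R) (i1 : R →+* LS F)

theorem TDefs2_rt {B : Type} [CommRing B] (e : Pol n R →+* B) (a b : Fin n) (j : ℤ) :
    trEx e (D.up.rt a b j) = HahnSeries.C (j : B) * lv B + HahnSeries.C (e (X a - X b)) := by
  rw [← trEx_map, ← trEx_h e, map_intCast, ← map_intCast (trEx e), ← map_mul, ← map_add]
  congr 1
  simp only [rt, up, map_sub, map_X]
  ring

theorem isUnit_ex3_rt (r : Fin n → ℤ) (π : Equiv.Perm (Fin n)) {a b : Fin n} (h : a ≠ b) (j : ℤ) :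
    IsUnit (ex3 i1 r π (D.up.rt a b j)) := by
  rw [ex3, TDefs2_rt]
  by_cases hj : j = 0
  · have h1 := isUnit_eL (i1 := i1) r π (o := some a) (o' := some b)
      (fun e => h (Option.some.inj e)) (c := 0) (m := 0) (c₀ := 0) (by simp)
    rw [xv_some, xv_some, C_0, add_zero] at h1
    rw [hj, Int.cast_zero, map_zero, zero_mul, zero_add]
    exact h1.map _
  · have : CharZero F := algebraRat.charZero F
    have hu : IsUnit (j : H1 n F) := by
      have := ((Int.cast_ne_zero (α := F).2 hj).isUnit.map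
        (HahnSeries.C (Γ := Gam n))).map (HahnSeries.C (Γ := ℤ))
      rwa [map_intCast, map_intCast] at this
    exact isUnit_lv_add hu _

/-- expansion on `Om` -/
def LO2 (r : Fin n → ℤ) (π : Equiv.Perm (Fin n)) : D.up.Om →+* LS (H1 n F) :=
  D.up.lift (ex3 i1 r π) fun _ _ j h _ => D.isUnit_ex3_rt i1 r π h j

theorem LO2_al (r : Fin n → ℤ) (π : Equiv.Perm (Fin n)) (f : Pol n R[X]) :
    D.LO2 i1 r π (D.up.al f) = ex3 i1 r π f := D.up.lift_al _ _ _

/-- the local functional -/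
def tl2 (r : Fin n → ℤ) (π : Equiv.Perm (Fin n)) (θ : Pol n R) : D.up.Om →+ LS (LS F) where
  toFun c := Res2 (D.LO2 i1 r π c * ex3 i1 r π (MvPolynomial.map Polynomial.C (θ * D.NUM)) *
    D.Kz2 i1 r π)
  map_zero' := by simp
  map_add' c c' := by simp only [map_add, add_mul]

theorem tl2_apply (r : Fin n → ℤ) (π : Equiv.Perm (Fin n)) (θ : Pol n R) (c : D.up.Om) :
    D.tl2 i1 r π θ c = Res2 (D.LO2 i1 r π c *
      ex3 i1 r π (MvPolynomial.map Polynomial.C (θ * D.NUM)) * D.Kz2 i1 r π) := rfl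

theorem tl2_al (r : Fin n → ℤ) (π : Equiv.Perm (Fin n)) (θ : Pol n R) (f : Pol n R[X]) :
    D.tl2 i1 r π θ (D.up.al f) =
      D.kL i1 r π (f * MvPolynomial.map Polynomial.C (θ * D.NUM)) := by
  rw [tl2_apply, LO2_al, kL_apply, map_mul (ex3 i1 r π)]

/-- the functional at the lattice point `q` -/
def TT (ν : Fin k → ℤ) (q : Fin n → ℤ) (θ : Pol n R) : D.up.Om →+ LS (LS F) :=
  ∑ r ∈ box n, ∑ π : Equiv.Perm (Fin n), jk (ν ∘ D.col) (key q r) π • D.tl2 i1 r π θ

theorem TT_apply (ν : Fin k → ℤ) (q : Fin n → ℤ) (θ : Pol n R) (c : D.up.Om) :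
    D.TT i1 ν q θ c = ∑ r ∈ box n, ∑ π : Equiv.Perm (Fin n),
      jk (ν ∘ D.col) (key q r) π • D.tl2 i1 r π θ c := by
  simp only [TT, AddMonoidHom.finsetSum_apply, AddMonoidHom.smul_apply]

/-- lattice points of degree `d` -/
def Qd2 (ν : Fin k → ℤ) (d : ℤ) : Finset (Fin n → ℤ) :=
  (Fintype.piFinset fun _ => Icc (-d) d).filter fun q => D.dg ν q = d

theorem mem_Qd2 {ν : Fin k → ℤ} {d : ℤ} {q : Fin n → ℤ} :
    q ∈ D.Qd2 ν d ↔ (∀ a, |q a| ≤ d) ∧ D.dg ν q = d := by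
  simp [Qd2, abs_le]

theorem TT_bound {ν : Fin k → ℤ} (hν : Gen (ν ∘ D.col)) {q : Fin n → ℤ} {θ : Pol n R}
    {c : D.up.Om} (h : D.TT i1 ν q θ c ≠ 0) : q ∈ D.Qd2 ν (D.dg ν q) := by
  rw [TT_apply] at h
  obtain ⟨r, hr, h⟩ := exists_ne_zero_of_sum_ne_zero h
  obtain ⟨π, -, h⟩ := exists_ne_zero_of_sum_ne_zero h
  have h1 : jk (ν ∘ D.col) (key q r) π ≠ 0 := fun e => h (by rw [e, zero_smul])
  exact D.mem_Qd2.2 ⟨fun a => jk_bound hν (fun o o' ho => key_lt (mem_box.1 hr) (Or.inl ho)) h1 a,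
    rfl⟩

/-- the trace of degree `d` -/
def tau2 (ν : Fin k → ℤ) (d : ℤ) (θ : Pol n R) (x : D.up.Op D.up.Om) : LS (LS F) :=
  ∑ q ∈ D.Qd2 ν d, D.TT i1 ν q θ (D.up.act _ q (D.up.co x 0))

theorem tau2_neg (ν : Fin k → ℤ) {d : ℤ} (hd : d < 0) (θ : Pol n R) (x : D.up.Op D.up.Om) :
    D.tau2 i1 ν d θ x = 0 := by
  refine sum_eq_zero fun q hq => absurd (D.mem_Qd2.1 hq) ?_
  rintro ⟨h1, h2⟩
  have h3 : D.dg ν q = 0 := sum_eq_zero fun a _ => absurd ((abs_nonneg _).trans (h1 a)) hd.not_ge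
  omega

theorem tau2_cst (ν : Fin k → ℤ) (d : ℤ) (θ : Pol n R) (p : Pol n R[X]) :
    D.tau2 i1 ν d θ (D.up.cst _ p) = ∑ q ∈ D.Qd2 ν d, ∑ r ∈ box n, ∑ π : Equiv.Perm (Fin n),
      jk (ν ∘ D.col) (key q r) π •
        D.kL i1 r π (D.up.sh q p * MvPolynomial.map Polynomial.C (θ * D.NUM)) := by
  refine sum_congr rfl fun q _ => ?_
  rw [cst_eq, co_sg, if_pos rfl, act_alg, TT_apply]
  exact sum_congr rfl fun r _ => sum_congr rfl fun π _ => congrArg _ (D.tl2_al i1 r π θ _)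

/-- factor of one weight in `mm μ * sh μ (mm (-μ))`, shifted by `q` -/
def wf2 (μ q : Fin n → ℤ) (p : E × Option (Fin n) × Option (Fin n)) : Pol n R[X] :=
  D.up.sh q ((∏ j ∈ Ico (ov μ p.2.2 - ov μ p.2.1) 0, (D.up.chi p + (j : Pol n R[X]) * C D.up.h)) *
    D.up.sh μ (∏ j ∈ Ico (ov (-μ) p.2.2 - ov (-μ) p.2.1) 0,
      (D.up.chi p + (j : Pol n R[X]) * C D.up.h)))

theorem chi_dvd_wf2 (μ q : Fin n → ℤ) (p : E × Option (Fin n) × Option (Fin n))
    (h : ¬ (ov q p.2.1 < ov q p.2.2 ↔ ov (q + μ) p.2.1 < ov (q + μ) p.2.2)) :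
    MvPolynomial.map Polynomial.C (D.chi p) ∣ D.wf2 μ q p := by
  have e : D.up.h = Polynomial.X := rfl
  simp only [ov_add] at h
  by_cases h1 : ov q p.2.1 < ov q p.2.2
  · refine (dvd_of_eq ?_).trans (map_dvd _ ((dvd_prod_of_mem _
      (a := -(ov q p.2.2 - ov q p.2.1)) (mem_Ico.2 (by omega))).mul_right _))
    rw [map_add, map_mul, map_intCast, sh_C, sh_chi, up_chi, e]
    push_cast
    ring
  · refine (dvd_of_eq ?_).trans (map_dvd _ ((map_dvd _ (dvd_prod_of_mem _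
      (a := -(ov q p.2.2 - ov q p.2.1 + (ov μ p.2.2 - ov μ p.2.1)))
      (mem_Ico.2 (by simp only [ov_neg]; omega)))).mul_left _))
    rw [sh_sh, map_add, map_mul, map_intCast, sh_C, sh_chi, up_chi, e, ov_add, ov_add]
    push_cast
    ring

/-- normal form of the integrand -/
theorem integrand2 (hl : D.LG) {a b : D.up.Op D.up.Om} (ha : D.up.Good a) (hb : D.up.Good b)
    (μ q : Fin n → ℤ) (θ : Pol n R) :
    ∃ (g : Pol n R[X]) (s : Multiset (Fin n × Fin n × ℤ)), (∀ z ∈ s, z.2.2 ≠ 0) ∧ ∀ r π,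
      D.tl2 i1 r π θ (D.up.act _ q (D.up.co a μ * D.up.act _ μ (D.up.co b (-μ)))) =
        Res2 (ex3 i1 r π g *
          (s.map fun z => Ring.inverse (ex3 i1 r π (D.up.rt z.1 z.2.1 z.2.2))).prod *
          ∏ p ∈ D.W2, (ex3 i1 r π (D.wf2 μ q p) *
            HahnSeries.C (Ring.inverse (eL i1 r π (D.chi p))))) := by
  have : CharZero R := algebraRat.charZero R
  obtain ⟨Z, p, hZ, h1⟩ := D.up.simple2 (D.up_GN hl) Polynomial.X_ne_zero ha μ
  obtain ⟨Z', p', hZ', h2⟩ := D.up.simple2 (D.up_GN hl) Polynomial.X_ne_zero hb (-μ)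
  obtain ⟨s, u, hs, e1, d1⟩ := D.up.tdefs_split hZ q
  obtain ⟨s', u', hs', e2, d2⟩ := D.up.tdefs_split hZ' (q + μ)
  obtain ⟨v, hv⟩ := (mul_dvd_mul d1 d2).trans D.up.tdefs_num
  have e3 : MvPolynomial.map Polynomial.C D.NUM = D.up.NUM := by
    simp only [NUM, map_prod, map_sub, map_X]
    rfl
  have e4 : ∏ p ∈ D.W2, D.wf2 μ q p =
      D.up.sh q (D.up.mm μ) * D.up.sh (q + μ) (D.up.mm (-μ)) := by
    rw [← sh_sh, ← map_mul, mm_W2, mm_W2, map_prod (D.up.sh μ), ← prod_mul_distrib, map_prod]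
    rfl
  have h3 := congrArg (D.up.act _ q) h1
  have h4 := congrArg (D.up.act _ (q + μ)) h2
  rw [map_mul, act_alg, act_alg, e1, map_mul (D.up.sh _)] at h3
  rw [map_mul, act_alg, act_alg, e2, map_mul (D.up.sh _)] at h4
  refine ⟨D.up.sh q p * D.up.sh (q + μ) p' * MvPolynomial.map Polynomial.C θ * v, s + s',
    fun z hz => (Multiset.mem_add.1 hz).elim (fun h => (hs z h).1) fun h => (hs' z h).1,
    fun r π => congrArg Res2 ?_⟩
  have key : ∀ t : Multiset (Fin n × Fin n × ℤ), (∀ z ∈ t, z.2.2 ≠ 0 ∧ z.1 ≠ z.2.1) →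
      (t.map fun z => Ring.inverse (ex3 i1 r π (D.up.rt z.1 z.2.1 z.2.2))).prod *
        ex3 i1 r π (t.map fun z => D.up.rt z.1 z.2.1 z.2.2).prod = 1 := fun t ht => by
    rw [map_multiset_prod, Multiset.map_map, ← Multiset.prod_map_mul]
    refine Multiset.prod_eq_one fun y hy => ?_
    obtain ⟨z, hz, rfl⟩ := Multiset.mem_map.1 hy
    exact Ring.inverse_mul_cancel _ (D.isUnit_ex3_rt i1 r π (ht z hz).2 _)
  have h5 := congrArg (D.LO2 i1 r π) h3
  have h6 := congrArg (D.LO2 i1 r π) h4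
  have k1 := key s hs
  have k2 := key s' hs'
  rw [map_mul, LO2_al, LO2_al, map_mul, map_mul] at h5 h6
  rw [prod_mul_distrib, ← map_prod, ← map_prod, ← inverse_prod, ← map_prod, ← Kz2, e4,
    Multiset.map_add, Multiset.prod_add, map_mul (MvPolynomial.map _), e3, hv,
    map_mul (D.up.act _ q), act_act]
  simp only [map_mul]
  exact tdefs_alg h5 h6 k1 k2

end QD

end Pool.Agent.Work.MP_849ab0_ag
end
end

-- merged part: Pool.Agent.Work.MP_849ab0_ag.Trace2
section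
/-! The trace identity for all quivers. -/

noncomputable section

set_option linter.unusedSectionVars false

namespace Pool.Agent.Work.MP_849ab0_ag

open MvPolynomial Finset

open scoped Polynomial

namespace QD

variable {k n : ℕ} {E R F : Type} [Fintype E] [CommRing R] [IsDomain R] [Algebra ℚ R] [Field F]
  [Algebra ℚ F] (D : QD k n E R) {i1 : R →+* LS F}

/-- free pairs: every active weight between the two points changes side -/
def Fr2 (r q q' : Fin n → ℤ) (o o' : Option (Fin n)) : Prop :=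
  ∀ p ∈ D.W2, (p.2 = (o, o') ∨ p.2 = (o', o)) → ov r p.2.2 - ov r p.2.1 + 1 = 0 →
    ¬ (ov q p.2.1 < ov q p.2.2 ↔ ov q' p.2.1 < ov q' p.2.2)

section Aux

variable {B B' : Type} [CommRing B] [CommRing B']

/-- expansion around `r · lv` attached to a map of the polynomials over `F` -/
def tr2G (i1 : R →+* LS F) (r : Fin n → ℤ) (e : Pol n F →+* B) : Pol n R →+* LS B :=
  eval₂Hom ((hmap ℤ (e.comp C)).comp i1) fun a => (r a : LS B) * lv B + HahnSeries.C (e (X a))

theorem tr2G_X (r : Fin n → ℤ) (e : Pol n F →+* B) (a : Fin n) :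
    tr2G i1 r e (X a) = (r a : LS B) * lv B + HahnSeries.C (e (X a)) := by simp [tr2G]

theorem tr2G_C (r : Fin n → ℤ) (e : Pol n F →+* B) (c : R) :
    tr2G i1 r e (C c) = hmap ℤ (e.comp C) (i1 c) := by simp [tr2G]

theorem tr2G_eL (r : Fin n → ℤ) (π : Equiv.Perm (Fin n)) :
    tr2G i1 r (expand (RingHom.id F) π) = eL i1 r π := by
  refine MvPolynomial.ringHom_ext (fun c => ?_) fun a => ?_
  · rw [tr2G_C, eL_C]
    ext1
    funext j
    simp [expand]
  · rw [tr2G_X, eL_X]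
    simp [expand]

theorem tr2G_hmap (r : Fin n → ℤ) (ψ : B →+* B') (e : Pol n F →+* B) :
    (hmap ℤ ψ).comp (tr2G i1 r e) = tr2G i1 r (ψ.comp e) := by
  refine MvPolynomial.ringHom_ext (fun c => ?_) fun a => ?_
  · rw [RingHom.comp_apply, tr2G_C, tr2G_C]
    rfl
  · rw [RingHom.comp_apply, tr2G_X, tr2G_X, map_add, map_mul, map_intCast, hmap_lv, hmap_C]
    rfl

theorem tr2G_mem (r : Fin n → ℤ) {S : Subring B} {e : Pol n F →+* B} (he : ∀ f, e f ∈ S)
    (f : Pol n R) : tr2G i1 r e f ∈ CoefIn S := by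
  induction f using MvPolynomial.induction_on with
  | C c =>
    rw [tr2G_C]
    exact mem_CoefIn_of_coeff fun j => he _
  | add p q hp hq => rw [map_add]; exact add_mem hp hq
  | mul_X p a hp =>
    rw [map_mul, tr2G_X]
    exact mul_mem hp (add_mem (mul_mem (intCast_mem _ _) (lv_mem_CoefIn S)) (C_mem_CoefIn (he _)))

theorem tr2G_xv (r : Fin n → ℤ) (e : Pol n F →+* B) (o : Option (Fin n)) :
    tr2G i1 r e (xv o) = (ov r o : LS B) * lv B + HahnSeries.C (e (xv o)) := by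
  cases o with
  | none => simp
  | some a => exact tr2G_X r e a

theorem tr2G_chi (r : Fin n → ℤ) (e : Pol n F →+* B) (p : E × Option (Fin n) × Option (Fin n))
    {c : F} (hc : i1 (D.t p.1) = lv F + HahnSeries.C c) :
    tr2G i1 r e (D.chi p) = HahnSeries.C ((ov r p.2.2 - ov r p.2.1 + 1 : ℤ) : B) * lv B +
      HahnSeries.C (e (xv p.2.2 - xv p.2.1 + C c)) := by
  rw [chi, map_add, map_sub, tr2G_xv, tr2G_xv, tr2G_C, hc, map_add, hmap_lv, hmap_C, map_intCast]
  simp only [map_add, map_sub, RingHom.comp_apply]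
  push_cast
  ring

theorem tr2_inv (e : Pol n F →+* B) {j : ℤ} (hj : j ≠ 0) : (j : B) * e (C (j : F)⁻¹) = 1 := by
  have : CharZero F := algebraRat.charZero F
  rw [← map_intCast (e.comp C), RingHom.comp_apply, ← map_mul, ← C_mul,
    mul_inv_cancel₀ (Int.cast_ne_zero.2 hj), C_1, map_one]

theorem tr2_invL (e : Pol n F →+* B) {j : ℤ} (hj : j ≠ 0) :
    (j : LS B) * HahnSeries.C (e (C (j : F)⁻¹)) = 1 := by
  rw [← map_intCast (HahnSeries.C : B →+* LS B), ← map_mul, tr2_inv e hj, map_one]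

theorem tr2_unit (ht : D.Tau i1) (r : Fin n → ℤ) {e : Pol n F →+* B}
    (hu : ∀ o o', o ≠ o' → ∀ c, IsUnit (e (xv o - xv o' + C c)))
    {p : E × Option (Fin n) × Option (Fin n)} (hp : p ∈ D.W2) :
    IsUnit (tr2G i1 r e (D.chi p)) := by
  obtain ⟨c, hc⟩ := ht p.1
  rw [D.tr2G_chi r e p hc]
  by_cases h : ov r p.2.2 - ov r p.2.1 + 1 = 0
  · rw [h, Int.cast_zero, map_zero, zero_mul, zero_add]
    exact (hu _ _ (D.mem_W2.1 hp).2.symm c).map _
  · exact isUnit_lv_add (IsUnit.of_mul_eq_one _ (tr2_inv e h)) _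

/-- the integrand -/
def trI2 (e : Pol n R →+* B) (g : Pol n R[X]) (s : Multiset (Fin n × Fin n × ℤ))
    (μ q : Fin n → ℤ) : LS B :=
  trEx e g * (s.map fun z => Ring.inverse (trEx e (D.up.rt z.1 z.2.1 z.2.2))).prod *
    ∏ p ∈ D.W2, (trEx e (D.wf2 μ q p) * HahnSeries.C (Ring.inverse (e (D.chi p))))

theorem tr2_rt (e : Pol n R →+* B) (a b : Fin n) (j : ℤ) : trEx e (D.up.rt a b j) =
    HahnSeries.C (j : B) * lv B + HahnSeries.C (e (X a - X b)) := D.trEx_rt e a b j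

theorem trI2_hmap (ψ : B →+* B') {e : Pol n R →+* B} (g : Pol n R[X])
    {s : Multiset (Fin n × Fin n × ℤ)} (μ q : Fin n → ℤ) (hs : ∀ z ∈ s, IsUnit (z.2.2 : B))
    (hu : ∀ p ∈ D.W2, IsUnit (e (D.chi p))) :
    hmap ℤ ψ (D.trI2 e g s μ q) = D.trI2 (ψ.comp e) g s μ q := by
  rw [trI2, trI2, map_mul, map_mul, map_multiset_prod, map_prod, Multiset.map_map, trEx_hmap]
  refine congrArg₂ _ (congrArg _ (congrArg Multiset.prod
    (Multiset.map_congr rfl fun z hz => ?_))) ?_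
  · rw [Function.comp_apply, map_inverse, trEx_hmap]
    rw [tr2_rt]
    exact isUnit_lv_add (hs z hz) _
  · refine prod_congr rfl fun p hp => ?_
    rw [map_mul, trEx_hmap, hmap_C, map_inverse _ (hu p hp), RingHom.comp_apply]

theorem trI2_mem (ht : D.Tau i1) (r : Fin n → ℤ) {S : Subring B} {e : Pol n F →+* B}
    (he : ∀ f, e f ∈ S) (g : Pol n R[X]) {s : Multiset (Fin n × Fin n × ℤ)} (μ q : Fin n → ℤ)
    (hs : ∀ z ∈ s, z.2.2 ≠ 0) (hu : ∀ o o', o ≠ o' → ∀ c, IsUnit (e (xv o - xv o' + C c)))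
    (hw : ∀ o o', o ≠ o' → ¬ D.Fr2 r q (q + μ) o o' → ∀ c,
      Ring.inverse (e (xv o - xv o' + C c)) ∈ S) :
    D.trI2 (tr2G i1 r e) g s μ q ∈ CoefIn (CoefIn S) := by
  have he' := tr2G_mem (i1 := i1) r he
  refine mul_mem (mul_mem (trEx_mem he' g) (multiset_prod_mem _ fun x hx => ?_))
    (prod_mem fun p hp => ?_)
  · obtain ⟨z, hz, rfl⟩ := Multiset.mem_map.1 hx
    rw [tr2_rt]
    exact inverse_mem_CoefIn (intCast_mem _ _) (C_mem_CoefIn (he _)) (tr2_invL e (hs z hz)) (he' _)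
  · by_cases h : ov q p.2.1 < ov q p.2.2 ↔ ov (q + μ) p.2.1 < ov (q + μ) p.2.2
    · refine mul_mem (trEx_mem he' _) (C_mem_CoefIn ?_)
      obtain ⟨c, hc⟩ := ht p.1
      have hn := (D.mem_W2.1 hp).2.symm
      rw [D.tr2G_chi r e p hc]
      by_cases h0 : ov r p.2.2 - ov r p.2.1 + 1 = 0
      · rw [h0, Int.cast_zero, map_zero, zero_mul, zero_add, ← map_inverse _ (hu _ _ hn c)]
        exact C_mem_CoefIn (hw _ _ hn (fun k => k p hp (Or.inr rfl) h0 h) c)
      · exact inverse_mem_CoefIn (intCast_mem _ _) (he _) (tr2_inv e h0) (he _)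
    · obtain ⟨w, hw⟩ := D.chi_dvd_wf2 μ q p h
      rw [hw, map_mul, trEx_map, mul_right_comm, ← map_mul,
        Ring.mul_inverse_cancel _ (D.tr2_unit ht r hu hp), map_one, one_mul]
      exact trEx_mem he' w

end Aux

theorem tr2_symm {r q q' : Fin n → ℤ} {o o' : Option (Fin n)} (h : D.Fr2 r q q' o o') :
    D.Fr2 r q q' o' o := fun p hp k => h p hp k.symm

theorem tr2_key {r : Fin n → ℤ} (hr : ∀ a, |r a| ≤ n) (q : Fin n → ℤ) {o o' : Option (Fin n)}
    (h : ov r o' - ov r o + 1 = 0) : (key q r o' < key q r o ↔ ov q o < ov q o') ∧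
      (key q r o < key q r o' ↔ ¬ ov q o < ov q o') := by
  by_cases h1 : ov q o < ov q o'
  · have := key_lt (q := q) hr (Or.inl h1)
    exact ⟨iff_of_true this h1, iff_of_false this.not_gt (not_not.2 h1)⟩
  · have := key_lt (q := q) (o := o) (o' := o') hr (by omega)
    exact ⟨iff_of_false this.not_gt h1, iff_of_true this h1⟩

theorem tr2_ord (ht : D.Tau i1) (r : Fin n → ℤ) (g : Pol n R[X])
    {s : Multiset (Fin n × Fin n × ℤ)} (μ q : Fin n → ℤ) (hs : ∀ z ∈ s, z.2.2 ≠ 0)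
    {π π' : Equiv.Perm (Fin n)}
    (H : ∀ o o', ¬ D.Fr2 r q (q + μ) o o' → (outer π o o' ↔ outer π' o o')) :
    Res2 (D.trI2 (eL i1 r π) g s μ q) = Res2 (D.trI2 (eL i1 r π') g s μ q) := by
  let e := (expand (RingHom.id F) π).prod (expand (RingHom.id F) π')
  have hu : ∀ o o', o ≠ o' → ∀ c, IsUnit (e (xv o - xv o' + C c)) := fun o o' h c =>
    Prod.isUnit_iff.2 ⟨isUnit_form _ π h c, isUnit_form _ π' h c⟩
  have hm := D.trI2_mem ht r (S := Rel F π π') (e := e) (expand_mem_Rel _ π π') g μ q hs hu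
    fun o o' h hf c => by
      have e1 : Ring.inverse (e (xv o - xv o' + C c)) =
          (Ring.inverse (expand (RingHom.id F) π (xv o - xv o' + C c)),
            Ring.inverse (expand (RingHom.id F) π' (xv o - xv o' + C c))) :=
        Prod.ext (map_inverse (RingHom.fst _ _) (hu o o' h c))
          (map_inverse (RingHom.snd _ _) (hu o o' h c))
      rw [e1]
      exact form_Rel _ h c (H o o' hf)
  have hs' : ∀ z ∈ s, IsUnit (z.2.2 : LS (HahnSeries (Gam n) F × HahnSeries (Gam n) F)) :=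
    fun z hz => IsUnit.of_mul_eq_one _ (tr2_invL e (hs z hz))
  have h1 := D.trI2_hmap (hmap ℤ (RingHom.fst _ _)) g μ q hs' fun p hp => D.tr2_unit ht r hu hp
  have h2 := D.trI2_hmap (hmap ℤ (RingHom.snd _ _)) g μ q hs' fun p hp => D.tr2_unit ht r hu hp
  rw [tr2G_hmap, RingHom.fst_comp_prod, tr2G_eL] at h1
  rw [tr2G_hmap, RingHom.snd_comp_prod, tr2G_eL] at h2
  rw [← h1, ← h2]
  ext1
  funext j
  ext1
  funext i
  exact Rel.coeff_one (CoefIn.coeff_mem (CoefIn.coeff_mem hm j) i)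

theorem tr2_van (ht : D.Tau i1) (r : Fin n → ℤ) (g : Pol n R[X])
    {s : Multiset (Fin n × Fin n × ℤ)} (μ q : Fin n → ℤ) (hs : ∀ z ∈ s, z.2.2 ≠ 0)
    {π : Equiv.Perm (Fin n)} {a : Fin n}
    (H : ∀ o, outer π (some a) o → D.Fr2 r q (q + μ) (some a) o) :
    Res2 (D.trI2 (eL i1 r π) g s μ q) = 0 := by
  rw [← tr2G_eL]
  refine Res2_eq_zero (i := π a) (D.trI2_mem ht r (expand_mem_PP _ π _) g μ q hs
    (fun o o' h c => isUnit_form _ π h c) fun o o' h hf c => form_PP _ π h c a ?_ ?_)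
  · rintro rfl k
    exact hf (H _ k)
  · rintro rfl k
    exact hf (D.tr2_symm (H _ k))

theorem TT_shift (ht : D.Tau i1) (ν : Fin k → ℤ) {a b : D.up.Op D.up.Om} (ha : D.up.Good a)
    (hb : D.up.Good b) (μ q : Fin n → ℤ) (θ : Pol n R) :
    D.TT i1 ν q θ (D.up.act _ q (D.up.co a μ * D.up.act _ μ (D.up.co b (-μ)))) =
      D.TT i1 ν (q + μ) θ (D.up.act _ q (D.up.co a μ * D.up.act _ μ (D.up.co b (-μ)))) := by
  obtain ⟨g, s, hs, h⟩ := D.integrand2 i1 ht.lg ha hb μ q θ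
  rw [TT_apply, TT_apply]
  refine sum_congr rfl fun r hr => ?_
  have hr := mem_box.1 hr
  simp only [h]
  refine jk_free (ν ∘ D.col) (fun π => Res2 (D.trI2 (eL i1 r π) g s μ q)) (D.Fr2 r q (q + μ))
    (fun _ _ => D.tr2_symm) (fun _ _ H => D.tr2_ord ht r g μ q hs H)
    (fun _ _ H => D.tr2_van ht r g μ q hs H) (key_inj q hr) (key_inj (q + μ) hr) fun o o' hf => ?_
  simp only [Fr2, not_forall, not_not] at hf
  obtain ⟨p, -, h1, h2, h3⟩ := hf
  have a1 := tr2_key hr q h2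
  have a2 := tr2_key hr (q + μ) h2
  rcases h1 with h1 | h1 <;> rw [h1] at a1 a2 h3
  · rw [a1.2, a2.2, h3]
  · rw [a1.1, a2.1, h3]

theorem trace2 (ht : D.Tau i1) {ν : Fin k → ℤ} (hν : Gen (ν ∘ D.col)) {a b : D.up.Op D.up.Om}
    (ha : D.up.Good a) (hb : D.up.Good b) {m : ℤ} (hm : D.up.Hom _ ν m a) (d : ℤ) (θ : Pol n R) :
    D.tau2 i1 ν d θ (b * a) = D.tau2 i1 ν (d - m) θ (a * b) := by
  classical
  have h1 : D.up.co (b * a) 0 =
      ∑ μ ∈ D.up.sup a, D.up.co b (-μ) * D.up.act _ (-μ) (D.up.co a μ) := by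
    rw [D.up.co_mul_of_subset b a 0 (s := D.up.sup b ∪ (D.up.sup a).image Neg.neg)
      subset_union_left, ← sum_subset subset_union_right,
      sum_image fun _ _ _ _ => neg_injective.eq_iff.1]
    · simp
    · intro κ _ hκ
      have : D.up.co a (0 - κ) = 0 := by_contra fun h =>
        hκ (mem_image.2 ⟨_, D.up.mem_sup.2 h, by simp⟩)
      rw [this, map_zero, mul_zero]
  have h2 : ∀ μ q, D.up.act _ q (D.up.co b (-μ) * D.up.act _ (-μ) (D.up.co a μ)) =
      D.up.act _ (q - μ) (D.up.co a μ * D.up.act _ μ (D.up.co b (-μ))) := fun μ q => by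
    rw [map_mul, map_mul, act_act, act_act, sub_add_cancel, sub_eq_add_neg, mul_comm]
  rw [tau2, tau2, h1, co_mul]
  simp only [map_sum, h2, zero_sub]
  rw [sum_comm, sum_comm (s := D.Qd2 ν (d - m))]
  refine sum_congr rfl fun μ hμ => ?_
  have h3 : D.dg ν μ = m := D.up.hom_iff.1 hm μ (D.up.mem_sup.1 hμ)
  have h4 : ∀ q, D.TT i1 ν q θ
      (D.up.act _ (q - μ) (D.up.co a μ * D.up.act _ μ (D.up.co b (-μ)))) = D.TT i1 ν (q - μ) θ
        (D.up.act _ (q - μ) (D.up.co a μ * D.up.act _ μ (D.up.co b (-μ)))) := fun q => by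
    rw [D.TT_shift ht ν ha hb, sub_add_cancel]
  simp only [h4]
  refine sum_bij_ne_zero (fun q _ _ => q - μ) (fun q hq h => ?_)
    (fun _ _ _ _ _ _ => sub_left_injective.eq_iff.1) (fun q hq h => ?_) fun _ _ _ => rfl
  · have a1 := D.TT_bound i1 hν h
    have a2 : D.dg ν (q - μ) = d - m := by
      rw [sub_eq_add_neg, dg_add, dg_neg, (D.mem_Qd2.1 hq).2, h3, sub_eq_add_neg]
    rwa [a2] at a1
  · refine ⟨q + μ, ?_, ?_, add_sub_cancel_right q μ⟩
    · rw [D.TT_shift ht ν ha hb] at h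
      have a1 := D.TT_bound i1 hν h
      rwa [dg_add, (D.mem_Qd2.1 hq).2, h3, sub_add_cancel] at a1
    · rwa [add_sub_cancel_right]

end QD

end Pool.Agent.Work.MP_849ab0_ag
end
end

-- merged part: Pool.Agent.Work.MP_849ab0_ag.Deep
section
/-! Deep lattice points recover the Hecke words. -/

noncomputable section

set_option linter.unusedSectionVars false

namespace Pool.Agent.Work.MP_849ab0_ag

open MvPolynomial Finset

open scoped Polynomial

namespace QD

variable {k n : ℕ} {E R : Type} [Fintype E] [CommRing R] [IsDomain R] [Algebra ℚ R]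
  (D : QD k n E R)

theorem deep_ord (q : Fin n → ℤ) (τ : Equiv.Perm (Fin n))
    (h : ∀ a b, τ a < τ b → q b < q a) : D.ordq q = τ := by
  have h1 : StrictMono fun i => D.ordq q (τ.symm i) := by
    intro i j hij
    refine (D.ordq_lt q _ _).2 (Prod.Lex.toLex_lt_toLex.2 (Or.inl ?_))
    have := h (τ.symm i) (τ.symm j) (by simpa using hij)
    simpa using this
  have h2 : (fun i => D.ordq q (τ.symm i)) = id := by
    refine (StrictMono.range_inj h1 strictMono_id).1 ?_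
    rw [Set.range_id]
    exact ((D.ordq q).surjective.comp τ.symm.surjective).range_eq
  ext a
  have := congrFun h2 (τ a)
  simp only [Equiv.symm_apply_apply, id] at this
  rw [this]

omit [IsDomain R] [Algebra ℚ R] in
theorem deep_aeval (φ : Pol n R[X] →ₐ[R[X]] Pol n R[X]) (y : Pol n R[X]) (P : R[X]) :
    φ (Polynomial.aeval y P) = Polynomial.aeval (φ y) P :=
  (Polynomial.aeval_algHom_apply (φ.restrictScalars R) y P).symm

theorem deep_sh (μ : Fin n → ℤ) (a : Fin n) (j : ℤ) (P : R[X]) :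
    D.df.sh μ (Polynomial.aeval (X a + ((-j : ℤ) : Pol n R[X]) * C Polynomial.X) P) =
      Polynomial.aeval (X a + ((μ a - j : ℤ) : Pol n R[X]) * C Polynomial.X) P := by
  rw [deep_aeval]
  congr 2
  rw [map_add, map_mul, sh_X, sh_C, map_intCast]
  change _ + _ * C Polynomial.X + _ = _
  push_cast
  ring

theorem deep_Kz (π : Equiv.Perm (Fin n)) (w : stab D.col) : D.Kz (π * w.1⁻¹) = D.Kz π := by
  have h : rename w.1 (∏ p ∈ D.Wt, D.fl.chi p) = ∏ p ∈ D.Wt, D.fl.chi p :=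
    D.fl.rename_prod_chi w
  unfold Kz
  conv_lhs => rw [← h, expand_rename, inv_mul_cancel_right]

theorem deep_tau {ν : Fin k → ℤ} (hν : ∀ i, 0 < ν i) (π : Equiv.Perm (Fin n)) {q : Fin n → ℤ}
    (hq0 : ∀ a, 0 ≤ q a) (hq : ∀ a b, π a < π b → q b < q a) {P : R[X]}
    (hP : ∀ a, Polynomial.aeval (X a : Pol n R[X]) P ∈ D.QQ) {θ : Pol n R}
    (hθ : θ ∈ Inv R D.col) (G U : Pol n R[X])
    (hU : U = ∏ a, ∏ j ∈ (Icc 0 (D.dg ν q)).erase (q a),
      Polynomial.aeval (X a + ((-j : ℤ) : Pol n R[X]) * C Polynomial.X) P) :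
    D.tau ν (D.dg ν q) θ (D.df.cst _ (Av D.col (D.df.sh (-q) G * U))) =
      (Fintype.card (stab D.col) : FF R) *
        Res (ex2 (R := R) π (G * D.df.sh q U * MvPolynomial.map Polynomial.C (θ * D.NUM)) * D.Kz π) := by
  classical
  have h1 : ∀ q' : Fin n → ℤ, D.tl (D.ordq q') θ (D.df.act _ q'
      (D.df.co (D.df.cst D.df.Om (Av D.col (D.df.sh (-q) G * U))) 0)) =
      ∑ w : stab D.col, Res (ex2 (R := R) (D.ordq q') (rename w.1 (D.df.sh (q' ∘ w.1)
        (D.df.sh (-q) G * U)) * MvPolynomial.map Polynomial.C (θ * D.NUM)) * D.Kz (D.ordq q')) := by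
    intro q'
    rw [cst_eq, co_sg, if_pos rfl, act_alg, tl_al, Av, map_sum, sum_mul, map_sum, sum_mul, map_sum]
    refine sum_congr rfl fun w _ => ?_
    have : (q' ∘ w.1) ∘ w.1.symm = q' := by funext a; simp
    rw [rename_sh, this]
  unfold tau
  simp only [h1]
  rw [sum_comm, ← nsmul_eq_mul, ← card_univ, ← sum_const]
  refine sum_congr rfl fun w _ => ?_
  rw [sum_eq_single_of_mem (q ∘ w.1.symm)]
  · have e1 : (q ∘ w.1.symm) ∘ w.1 = q := by funext a; simp
    have e2 : D.ordq (q ∘ w.1.symm) = π * w.1⁻¹ :=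
      D.deep_ord _ _ fun a b hab => hq _ _ hab
    have e3 : MvPolynomial.map Polynomial.C (θ * D.NUM) =
        rename w.1 (MvPolynomial.map Polynomial.C (θ * D.NUM)) := by
      rw [← map_rename, map_mul (rename w.1), hθ w.1 w.2, rename_NUM]
    rw [e1, e2, deep_Kz]
    conv_lhs => rw [e3, ← map_mul (rename w.1), ex2_rename, inv_mul_cancel_right,
      map_mul (D.df.sh q), sh_sh, add_neg_cancel, sh_zero']
  · exact (D.mem_Qd hν).2 ⟨fun a => hq0 _, D.dg_perm ν q w⟩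
  · intro q' hq' hne
    obtain ⟨a, ha⟩ : ∃ a, q' (w.1 a) ≠ q a := by
      by_contra hh
      push Not at hh
      exact hne (funext fun b => by simpa using hh (w.1.symm b))
    have hj : q' (w.1 a) ∈ (Icc 0 (D.dg ν q)).erase (q a) :=
      mem_erase.2 ⟨ha, Fintype.mem_piFinset.1 (mem_filter.1 hq').1 _⟩
    have hd : Polynomial.aeval (X a + ((-q' (w.1 a) : ℤ) : Pol n R[X]) * C Polynomial.X) P ∣ U := by
      rw [hU]
      exact (dvd_prod_of_mem (fun j : ℤ => Polynomial.aeval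
        (X a + ((-j : ℤ) : Pol n R[X]) * C Polynomial.X) P) hj).trans
        (dvd_prod_of_mem (fun a => ∏ j ∈ (Icc 0 (D.dg ν q)).erase (q a), Polynomial.aeval
          (X a + ((-j : ℤ) : Pol n R[X]) * C Polynomial.X) P) (mem_univ a))
    obtain ⟨V, hV⟩ := hd
    have hm : rename w.1 (D.df.sh (q' ∘ w.1) (D.df.sh (-q) G * U)) ∈ D.QQ := by
      rw [hV, map_mul, map_mul, map_mul, map_mul, deep_sh, Function.comp_apply, sub_self,
        Int.cast_zero, zero_mul, add_zero, deep_aeval, rename_X]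
      exact Ideal.mul_mem_left _ _ (Ideal.mul_mem_right _ _ (hP _))
    exact D.mem_QQ.1 hm _ _

theorem deep (hl : D.NL) {ν : Fin k → ℤ} (hν : ∀ i, 0 < ν i) {ι : Type} [Fintype ι]
    (f : ι → Pol n R) (hf : ∀ i, f i ∈ Inv R D.col) (c : ι → FF R)
    (hc : ∀ d, ∀ p ∈ Inv R[X] D.col, ∑ i, c i * D.tau ν d (f i) (D.df.cst _ p) = 0)
    (π : Equiv.Perm (Fin n)) (g : Pol n R) :
    ∑ i, c i * HahnSeries.C (D.fl.res (algebraMap R (FractionRing R)) π (g * f i)) = 0 := by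
  classical
  have : CharZero R := algebraRat.charZero R
  choose Pa hPa hPq using fun a : Fin n => D.kill hl (X a)
  have hP : (∏ a, Pa a).Monic := Polynomial.monic_prod_of_monic _ _ fun a _ => hPa a
  have hPQ : ∀ a, Polynomial.aeval (X a : Pol n R[X]) (∏ a, Pa a) ∈ D.QQ := by
    intro a
    obtain ⟨V, hV⟩ := dvd_prod_of_mem Pa (mem_univ a)
    have := hPq a
    rw [map_X] at this
    rw [hV, map_mul]
    exact Ideal.mul_mem_right _ _ this
  generalize ∏ a, Pa a = P at hP hPQ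
  obtain ⟨q, hq0, hq⟩ : ∃ q : Fin n → ℤ, (∀ a, 0 ≤ q a) ∧ ∀ a b, π a < π b → q b < q a :=
    ⟨fun a => (n : ℤ) - ((π a).1 : ℤ), fun a => by have := (π a).2; dsimp only; omega,
      fun a b h => by
        have : (π a).1 < (π b).1 := h
        dsimp only; omega⟩
  obtain ⟨U, hU⟩ : ∃ U : Pol n R[X], U = ∏ a, ∏ j ∈ (Icc 0 (D.dg ν q)).erase (q a),
      Polynomial.aeval (X a + ((-j : ℤ) : Pol n R[X]) * C Polynomial.X) P := ⟨_, rfl⟩
  obtain ⟨r, hr, hrU⟩ : ∃ r : R[X], r ≠ 0 ∧ C r ∈ D.QQ ⊔ Ideal.span {D.df.sh q U} := by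
    rw [hU, map_prod]
    refine sep_prod _ _ _ fun a _ => ?_
    rw [map_prod]
    refine sep_prod _ _ _ fun j hj => ?_
    obtain ⟨r, hr, h⟩ := sep hP (X a : Pol n R[X]) (i := 0) (j := q a - j)
      (fun e => (mem_erase.1 hj).1 (by omega))
    refine ⟨r, hr, ?_⟩
    rw [deep_sh]
    rw [Ideal.span_insert] at h
    refine (sup_le_sup_right (b := D.QQ) ?_ _ :) h
    rw [Ideal.span_singleton_le_iff_mem, Int.cast_zero, zero_mul, add_zero]
    exact hPQ a
  obtain ⟨x, hx, y, hy, hxy⟩ := Submodule.mem_sup.1 hrU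
  obtain ⟨u, rfl⟩ := Ideal.mem_span_singleton'.1 hy
  have h1 := hc (D.dg ν q) _
    (Av_mem D.col (D.df.sh (-q) (MvPolynomial.map Polynomial.C g * u) * U))
  have h2 : ∀ i, Res (ex2 (R := R) π (MvPolynomial.map Polynomial.C g * u * D.df.sh q U *
      MvPolynomial.map Polynomial.C (f i * D.NUM)) * D.Kz π) =
      i0 R r * HahnSeries.C (D.fl.res (algebraMap R (FractionRing R)) π (g * f i)) := by
    intro i
    have e : MvPolynomial.map Polynomial.C g * u * D.df.sh q U *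
        MvPolynomial.map Polynomial.C (f i * D.NUM) =
        C r * MvPolynomial.map Polynomial.C (g * f i * D.NUM) -
          x * MvPolynomial.map Polynomial.C (g * f i * D.NUM) := by
      rw [← hxy]
      simp only [map_mul]
      ring
    rw [e, map_sub, sub_mul, map_sub, D.mem_QQ.1 hx, sub_zero, map_mul (ex2 (R := R) π), mul_assoc,
      Res_ex2_C, Res_fl]
  have h3 : i0 R ((Fintype.card (stab D.col) : R[X]) * r) *
      ∑ i, c i * HahnSeries.C (D.fl.res (algebraMap R (FractionRing R)) π (g * f i)) = 0 := by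
    rw [← h1, mul_sum]
    refine sum_congr rfl fun i _ => ?_
    rw [D.deep_tau hν π hq0 hq hPQ (hf i) _ U hU, h2, map_mul, map_natCast]
    ring
  refine (mul_eq_zero.1 h3).resolve_left fun h0 => ?_
  exact mul_ne_zero (Nat.cast_ne_zero.2 Fintype.card_ne_zero) hr
    (i0_injective R (h0.trans (map_zero _).symm))

end QD

end Pool.Agent.Work.MP_849ab0_ag
end
end

-- merged part: Pool.Agent.Work.MP_849ab0_ag.Count
section
/-! The dimension count. -/

noncomputable section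

set_option linter.unusedSectionVars false

namespace Pool.Agent.Work.MP_849ab0_ag

open MvPolynomial Finset

open scoped Polynomial

/-- additive semilinear functions vanishing on `Z` -/
def count_S {S L F : Type} [CommRing S] [AddCommGroup L] [Module S L] [Field F] (i0 : S →+* F)
    (Z : Set L) : Submodule F (L → F) where
  carrier := {l | (∀ p q, l (p + q) = l p + l q) ∧ (∀ (r : S) p, l (r • p) = i0 r * l p) ∧
    ∀ p ∈ Z, l p = 0}
  add_mem' := fun {a b} ha hb => ⟨fun p q => by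
      rw [Pi.add_apply, Pi.add_apply, Pi.add_apply, ha.1, hb.1, add_add_add_comm],
    fun r p => by rw [Pi.add_apply, Pi.add_apply, ha.2.1, hb.2.1, mul_add],
    fun p hp => by rw [Pi.add_apply, ha.2.2 p hp, hb.2.2 p hp, add_zero]⟩
  zero_mem' := ⟨fun _ _ => (add_zero _).symm, fun _ _ => (mul_zero _).symm, fun _ _ => rfl⟩
  smul_mem' := fun c a ha => ⟨fun p q => by
      rw [Pi.smul_apply, Pi.smul_apply, Pi.smul_apply, ha.1, smul_add],
    fun r p => by rw [Pi.smul_apply, Pi.smul_apply, ha.2.1, smul_eq_mul, smul_eq_mul,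
      mul_left_comm],
    fun p hp => by rw [Pi.smul_apply, ha.2.2 p hp, smul_zero]⟩

theorem count_sum {S L F ι : Type} [CommRing S] [AddCommGroup L] [Module S L] [Field F]
    {i0 : S →+* F} {Z : Set L} {l : L → F} (hl : l ∈ count_S i0 Z) (s : Finset ι) (r : ι → S)
    (v : ι → L) : l (∑ i ∈ s, r i • v i) = ∑ i ∈ s, i0 (r i) * l (v i) := by
  classical
  induction s using Finset.induction_on with
  | empty =>
    have h := hl.2.1 0 0
    rw [zero_smul, map_zero, zero_mul] at h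
    rw [sum_empty, sum_empty, h]
  | insert a s ha ih => rw [sum_insert ha, sum_insert ha, hl.1, hl.2.1, ih]

theorem count_indep {S L F : Type} [CommRing S] [CommRing L] [Algebra S L] [Field F]
    {i0 : S →+* F} (hi : Function.Injective i0) (y : ℕ → L)
    (hy : ∀ (s : Finset ℕ) (d : ℕ), d ∉ s → ∃ r : S, r ≠ 0 ∧ ∃ u v : L,
      u * y d + v * ∏ j ∈ s, y j = algebraMap S L r) :
    iSupIndep fun d => count_S i0 {x | y d ∣ x} := by
  rw [iSupIndep_iff_finsetSum_eq_zero_imp_eq_zero]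
  intro s l hl h0 d hd
  obtain ⟨r, hr, u, v, h⟩ := hy (s.erase d) d (notMem_erase d s)
  funext p
  have h1 : l d (v * (∏ j ∈ s.erase d, y j) * p) = 0 := by
    have h2 := congrFun h0 (v * (∏ j ∈ s.erase d, y j) * p)
    rw [Finset.sum_apply, ← add_sum_erase s _ hd, sum_eq_zero, add_zero] at h2
    · exact h2
    · exact fun j hj => (hl j (mem_of_mem_erase hj)).2.2 _
        (((dvd_prod_of_mem y hj).mul_left v).mul_right p)
  have h2 := (hl d hd).2.1 r p
  rw [Algebra.smul_def, ← h, add_mul, (hl d hd).1, h1,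
    (hl d hd).2.2 _ ((dvd_mul_left _ u).mul_right p), add_zero] at h2
  exact (mul_eq_zero.1 h2.symm).resolve_left fun h3 => hr (hi (h3.trans (map_zero _).symm))

theorem count_sep {R L : Type} [CommRing R] [IsDomain R] [Algebra ℚ R] [CommRing L]
    [Algebra R[X] L] {P : R[X]} (hP : P.Monic) (φ : Pol 1 R[X] →ₐ[R[X]] L) (s : Finset ℕ) (d : ℕ)
    (hd : d ∉ s) : ∃ r : R[X], r ≠ 0 ∧ ∃ u v : L,
      u * φ (Polynomial.aeval (X 0 + ((-d : ℤ) : Pol 1 R[X]) * C Polynomial.X) P) +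
        v * ∏ j ∈ s, φ (Polynomial.aeval (X 0 + ((-j : ℤ) : Pol 1 R[X]) * C Polynomial.X) P) =
          algebraMap R[X] L r := by
  obtain ⟨r, hr, h⟩ := sep_prod s
    (Ideal.span {Polynomial.aeval (X 0 + ((-d : ℤ) : Pol 1 R[X]) * C Polynomial.X) P})
    (fun j : ℕ => Polynomial.aeval (X 0 + ((-j : ℤ) : Pol 1 R[X]) * C Polynomial.X) P)
    fun j hj => by
      rw [← Ideal.span_insert]
      exact sep hP (X 0) fun h => hd (by rwa [show d = j by omega])
  rw [← Ideal.span_insert, Ideal.mem_span_pair] at h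
  obtain ⟨u, v, h⟩ := h
  refine ⟨r, hr, φ u, φ v, ?_⟩
  rw [← map_prod, ← map_mul, ← map_mul, ← map_add, h]
  exact φ.commutes r

/-- Linear algebra: a filtration by leading terms gives enough independent functionals. -/
theorem count_abs {F ι A L : Type} [Field F] [Fintype ι] (τ : ℕ → (ι → F) →ₗ[F] (A → F))
    (e : L → A) (ev : ι → L) (𝓛 : Submodule F (L → F)) (𝓔 : ℕ → Submodule F (L → F))
    (h1 : ∀ d c, (∀ d' < d, τ d' c = 0) → (τ d c) ∘ e ∈ 𝓛 ⊓ 𝓔 d)
    (h2 : ∀ d c, (∀ d' < d, τ d' c = 0) → (τ d c) ∘ e = 0 → τ d c = 0)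
    (h3 : iSupIndep 𝓔) (h4 : ∀ c, (∀ d, τ d c = 0) → c = 0)
    (h5 : ∀ l ∈ 𝓛, (∀ i, l (ev i) = 0) → l = 0) (r : ι → F)
    (hr : ∀ l ∈ 𝓛, ∑ i, r i * l (ev i) = 0) : r = 0 := by
  classical
  let Th : ℕ → Submodule F (ι → F) := fun d => ⨅ d' ∈ Set.Iio d, LinearMap.ker (τ d')
  have hT : ∀ d c, c ∈ Th d ↔ ∀ d' < d, τ d' c = 0 := fun d c => by
    simp only [Th, Submodule.mem_iInf, LinearMap.mem_ker, Set.mem_Iio]
  obtain ⟨N, hN⟩ := IsArtinian.monotone_stabilizes (R := F) (M := ι → F)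
    ⟨fun d => OrderDual.toDual (Th d), fun a b hab c hc =>
      (hT a c).2 fun d hd => (hT b c).1 hc d (hd.trans_le hab)⟩
  have hN' : ∀ c ∈ Th N, c = 0 := fun c hc => h4 c fun d => by
    have h : Th N = Th (max N (d + 1)) := hN _ (le_max_left _ _)
    exact (hT _ c).1 (h ▸ hc) d (lt_max_of_lt_right d.lt_succ_self)
  choose π hπ using fun d =>
    LinearMap.exists_leftInverse_of_injective (Th d).subtype (Th d).ker_subtype
  let v : ℕ → (ι → F) →ₗ[F] (L → F) := fun d =>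
    LinearMap.funLeft F F e ∘ₗ τ d ∘ₗ (Th d).subtype ∘ₗ π d
  have hv : ∀ d c, v d c ∈ 𝓛 ⊓ 𝓔 d := fun d c => h1 d _ ((hT d _).1 (π d c).2)
  let Φ : (ι → F) →ₗ[F] (L → F) := ∑ d ∈ range N, v d
  have hΦ : ∀ c, Φ c = ∑ d ∈ range N, v d c := fun c => LinearMap.sum_apply _ _ _
  have hL : ∀ c, Φ c ∈ 𝓛 := fun c => hΦ c ▸ sum_mem fun d _ => (hv d c).1
  have hinj : Function.Injective (LinearMap.funLeft F F ev ∘ₗ Φ) := by
    refine (injective_iff_map_eq_zero _).2 fun c hc => hN' c ?_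
    have h0 := (iSupIndep_iff_finsetSum_eq_zero_imp_eq_zero 𝓔).1 h3 (range N) (fun d => v d c)
      (fun d _ => (hv d c).2) (hΦ c ▸ h5 _ (hL c) fun i => congrFun hc i)
    have key : ∀ d ≤ N, c ∈ Th d := fun d hd => by
      induction d with
      | zero => exact (hT 0 c).2 fun d hd => absurd hd (Nat.not_lt_zero d)
      | succ d ih =>
        have h6 := ih (Nat.le_of_succ_le hd)
        have h7 : π d c = ⟨c, h6⟩ := LinearMap.congr_fun (hπ d) ⟨c, h6⟩
        have h8 : τ d (π d c).1 ∘ e = 0 := h0 d (mem_range.2 hd)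
        rw [h7] at h8
        refine (hT _ c).2 fun d' hd' => ?_
        rcases (Nat.lt_succ_iff.1 hd').lt_or_eq with h9 | rfl
        · exact (hT d c).1 h6 d' h9
        · exact h2 _ c ((hT _ c).1 h6) h8
    exact key N le_rfl
  funext i
  obtain ⟨c, hc⟩ := LinearMap.injective_iff_surjective.1 hinj (Pi.single i 1)
  have h6 := hr _ (hL c)
  have h7 : ∀ j, Φ c (ev j) = (Pi.single i 1 : ι → F) j := fun j => congrFun hc j
  simp only [h7, Pi.single_apply, mul_ite, mul_one, mul_zero, sum_ite_eq', mem_univ, if_true] at h6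
  exact h6

namespace QD

variable {k n : ℕ} {E R : Type} [Fintype E] [CommRing R] [IsDomain R] [Algebra ℚ R]
  (D : QD k n E R)

theorem count_add (ν : Fin k → ℤ) (d : ℤ) (θ : Pol n R) (x y : D.df.Op D.df.Om) :
    D.tau ν d θ (x + y) = D.tau ν d θ x + D.tau ν d θ y := by
  simp only [tau, co_add, map_add, tl_add, sum_add_distrib]

theorem count_neg {ν : Fin k → ℤ} (hν : ∀ i, 0 < ν i) {d : ℤ} (hd : d < 0) (θ : Pol n R)
    (x : D.df.Op D.df.Om) : D.tau ν d θ x = 0 := by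
  refine sum_eq_zero fun q hq => ?_
  obtain ⟨h1, h2⟩ := (D.mem_Qd hν).1 hq
  have h3 : 0 ≤ D.dg ν q := sum_nonneg fun a _ => mul_nonneg (hν _).le (h1 a)
  omega

theorem count_cst (ν : Fin k → ℤ) (d : ℤ) (θ : Pol n R) (p : Pol n R[X]) :
    D.tau ν d θ (D.df.cst _ p) = ∑ q ∈ D.Qd ν d, Res (ex2 (R := R) (D.ordq q)
      (D.df.sh q p * MvPolynomial.map Polynomial.C (θ * D.NUM)) * D.Kz (D.ordq q)) := by
  refine sum_congr rfl fun q _ => ?_
  rw [cst_eq, co_sg, if_pos rfl, act_alg]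
  exact D.tl_al _ _ _

theorem count_smul (ν : Fin k → ℤ) (d : ℤ) (θ : Pol n R) (r : R[X]) (p : Pol n R[X]) :
    D.tau ν d θ (D.df.cst _ (r • p)) = i0 R r * D.tau ν d θ (D.df.cst _ p) := by
  rw [count_cst, count_cst, mul_sum]
  refine sum_congr rfl fun q _ => ?_
  rw [← Res_ex2_C (D.ordq q), smul_eq_C_mul, map_mul (D.df.sh q), sh_C, mul_assoc (C r),
    map_mul (ex2 (R := R) _) (C r), mul_assoc]

/-- the combination of traces -/
def count_T (ν : Fin k → ℤ) {ι : Type} [Fintype ι] (f : ι → Pol n R) (d : ℤ) (c : ι → FF R) :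
    D.df.Op D.df.Om →+ FF R :=
  AddMonoidHom.mk' (fun x => ∑ i, c i * D.tau ν d (f i) x) fun x y => by
    simp only [count_add, mul_add, sum_add_distrib]

theorem count_T_apply (ν : Fin k → ℤ) {ι : Type} [Fintype ι] (f : ι → Pol n R) (d : ℤ)
    (c : ι → FF R) (x : D.df.Op D.df.Om) :
    D.count_T ν f d c x = ∑ i, c i * D.tau ν d (f i) x := rfl

theorem count_JJ (hl : D.NL) {ν : Fin k → ℤ} (hν : ∀ i, 0 < ν i) {ι : Type} [Fintype ι]
    (f : ι → Pol n R) (d : ℕ) (c : ι → FF R)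
    (h : ∀ d' < d, ∀ a ∈ D.df.Alg D.df.Om, D.df.Hom _ ν 0 a → D.count_T ν f (d' : ℕ) c a = 0)
    {x : D.df.Op D.df.Om} (hx : x ∈ D.df.JJ _ ν) : D.count_T ν f d c x = 0 := by
  have : CharZero R := algebraRat.charZero R
  refine (AddSubgroup.closure_le (D.count_T ν f d c).ker).2 ?_ hx
  rintro _ ⟨m, hm, b, hb, a, ha, h1, h2, rfl⟩
  have h3 : D.count_T ν f d c (b * a) = D.count_T ν f (d - -m) c (a * b) :=
    sum_congr rfl fun i _ => congrArg (c i * ·) (D.trace hl hν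
      (D.df.good_of_mem Polynomial.X_ne_zero ha) (D.df.good_of_mem Polynomial.X_ne_zero hb) h2 d _)
  change D.count_T ν f d c (b * a) = 0
  rw [h3]
  rcases lt_or_ge ((d : ℤ) - -m) 0 with h4 | h4
  · exact sum_eq_zero fun i _ => by rw [D.count_neg hν h4, mul_zero]
  · obtain ⟨d', h5⟩ := Int.eq_ofNat_of_zero_le h4
    rw [h5]
    have h6 := Hom.mul D.df h2 h1
    rw [neg_add_cancel] at h6
    exact h d' (by omega) _ (mul_mem ha hb) h6

/-- the linear form attached to `ν` -/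
def count_p (ν : Fin k → ℤ) : Pol n R := ∑ a, (ν (D.col a) : Pol n R) * X a

theorem count_p_mem (ν : Fin k → ℤ) : D.count_p ν ∈ Inv R D.col := by
  intro w hw
  rw [count_p, map_sum, ← Equiv.sum_comp w fun a => (ν (D.col a) : Pol n R) * X a]
  refine sum_congr rfl fun a _ => ?_
  rw [map_mul, map_intCast, rename_X, hw a]

theorem count_p_sh (ν : Fin k → ℤ) (q : Fin n → ℤ) :
    D.df.sh q (MvPolynomial.map Polynomial.C (D.count_p ν)) =
      MvPolynomial.map Polynomial.C (D.count_p ν) + (D.dg ν q : Pol n R[X]) * C Polynomial.X := by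
  simp only [count_p, dg, map_sum, map_mul, map_intCast, map_X, sh_X, Int.cast_sum, Int.cast_mul,
    sum_mul, ← sum_add_distrib, mul_add, mul_assoc]
  rfl

theorem count_kill {ν : Fin k → ℤ} (hν : ∀ i, 0 < ν i) {P : R[X]}
    (hP : Polynomial.aeval (MvPolynomial.map Polynomial.C (D.count_p ν)) P ∈ D.QQ) (d : ℤ)
    (θ : Pol n R) (p : Pol n R[X]) :
    D.tau ν d θ (D.df.cst _ (Polynomial.aeval (MvPolynomial.map Polynomial.C (D.count_p ν) +
      ((-d : ℤ) : Pol n R[X]) * C Polynomial.X) P * p)) = 0 := by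
  rw [count_cst]
  refine sum_eq_zero fun q hq => ?_
  have h1 := Polynomial.aeval_algHom_apply ((D.df.sh q).restrictScalars R)
    (MvPolynomial.map Polynomial.C (D.count_p ν) + ((-d : ℤ) : Pol n R[X]) * C Polynomial.X) P
  rw [AlgHom.restrictScalars_apply, AlgHom.restrictScalars_apply, map_add, map_mul, map_intCast,
    sh_C, count_p_sh, ((D.mem_Qd hν).1 hq).2, add_assoc, ← add_mul, ← Int.cast_add,
    add_neg_cancel, Int.cast_zero, zero_mul, add_zero] at h1
  rw [map_mul (D.df.sh q), ← h1, mul_assoc]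
  exact D.mem_QQ.1 hP _ _

theorem count (hl : D.NL) {ν : Fin k → ℤ} (hν : ∀ i, 0 < ν i) {ι : Type} [Fintype ι]
    (f : ι → Pol n R) (hf : ∀ i, f i ∈ Inv R D.col)
    (hinj : ∀ c : ι → FF R, (∀ π g, ∑ i, c i *
      HahnSeries.C (D.fl.res (algebraMap R (FractionRing R)) π (g * f i)) = 0) → c = 0)
    (hgen : ∀ p ∈ Inv R[X] D.col, ∃ r : ι → R[X],
      D.df.cst D.df.Om (p - ∑ i, C (r i) * MvPolynomial.map Polynomial.C (f i)) ∈ D.df.JJ _ ν)
    (hdec : ∀ a ∈ D.df.Alg D.df.Om, D.df.Hom _ ν 0 a →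
      ∃ p ∈ Inv R[X] D.col, a - D.df.cst _ p ∈ D.df.JJ _ ν)
    (r : ι → R[X])
    (hr : D.df.cst D.df.Om (∑ i, C (r i) * MvPolynomial.map Polynomial.C (f i)) ∈ D.df.JJ _ ν) :
    r = 0 := by
  obtain ⟨P, hP, hk⟩ := D.kill hl (D.count_p ν)
  let ev : ι → Inv R[X] D.col := fun i => ⟨_, map_mem_Inv Polynomial.C (hf i)⟩
  let φ : Pol 1 R[X] →ₐ[R[X]] Inv R[X] D.col :=
    aeval fun _ => ⟨_, map_mem_Inv Polynomial.C (D.count_p_mem ν)⟩
  let y : ℕ → Inv R[X] D.col := fun d =>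
    φ (Polynomial.aeval (X 0 + ((-d : ℤ) : Pol 1 R[X]) * C Polynomial.X) P)
  have hy : ∀ d, (y d).1 = Polynomial.aeval (MvPolynomial.map Polynomial.C (D.count_p ν) +
      ((-d : ℤ) : Pol n R[X]) * C Polynomial.X) P := fun d => by
    have h := Polynomial.aeval_algHom_apply (((Inv R[X] D.col).val.comp φ).restrictScalars R)
      (X 0 + ((-d : ℤ) : Pol 1 R[X]) * C Polynomial.X) P
    refine h.symm.trans (congrArg (fun z => Polynomial.aeval z P) ?_)
    rw [AlgHom.restrictScalars_apply, map_add, map_mul, map_intCast, AlgHom.comp_apply,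
      AlgHom.comp_apply, aeval_X, aeval_C, AlgHom.commutes]
    rfl
  have hev : ∀ s : ι → R[X], (∑ i, s i • ev i).1 =
      ∑ i, C (s i) * MvPolynomial.map Polynomial.C (f i) := fun s => by
    rw [AddSubmonoidClass.coe_finsetSum]
    exact sum_congr rfl fun i _ => smul_eq_C_mul _ _
  let τ : ℕ → (ι → FF R) →ₗ[FF R] ({a // a ∈ D.df.Alg D.df.Om ∧ D.df.Hom _ ν 0 a} → FF R) :=
    fun d => Fintype.linearCombination (FF R) fun i a => D.tau ν d (f i) a.1
  have hτ : ∀ (d : ℕ) c a, τ d c a = D.count_T ν f d c a.1 := fun d c a => by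
    simp only [τ, Fintype.linearCombination_apply, Finset.sum_apply, Pi.smul_apply, smul_eq_mul,
      count_T_apply]
  have hJ : ∀ (d : ℕ) c, (∀ d' < d, τ d' c = 0) → ∀ x ∈ D.df.JJ _ ν, D.count_T ν f d c x = 0 :=
    fun d c h x hx => D.count_JJ hl hν f d c
      (fun d' hd a h1 h2 => (hτ d' c ⟨a, h1, h2⟩).symm.trans (congrFun (h d' hd) _)) hx
  have key := count_abs τ
    (fun p : Inv R[X] D.col => ⟨D.df.cst _ p.1, D.df.cst_mem p.2, D.df.hom_cst ν _⟩) ev
    (count_S (i0 R) {p | D.df.cst _ p.1 ∈ D.df.JJ D.df.Om ν})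
    (fun d => count_S (i0 R) {x | y d ∣ x}) (fun d c h => ?_) (fun d c h h0 => ?_)
    (count_indep (i0_injective R) y (count_sep hP φ)) (fun c h => ?_) (fun l h h0 => ?_)
    (fun i => i0 R (r i)) fun l h => ?_
  · funext i
    exact i0_injective R ((congrFun key i).trans (map_zero _).symm)
  · have h1 : ∀ p q : Inv R[X] D.col, D.count_T ν f d c (D.df.cst _ (p + q).1) =
        D.count_T ν f d c (D.df.cst _ p.1) + D.count_T ν f d c (D.df.cst _ q.1) := fun p q => by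
      rw [← map_add]
      exact congrArg _ (map_add (D.df.cstHom D.df.Om) p.1 q.1)
    have h2 : ∀ (s : R[X]) (p : Inv R[X] D.col), D.count_T ν f d c (D.df.cst _ (s • p).1) =
        i0 R s * D.count_T ν f d c (D.df.cst _ p.1) := fun s p => by
      rw [count_T_apply, count_T_apply, mul_sum]
      exact sum_congr rfl fun i _ => by
        rw [mul_left_comm, ← count_smul]
        rfl
    refine ⟨⟨fun p q => ?_, fun s p => ?_, fun p hp => ?_⟩, fun p q => ?_, fun s p => ?_, ?_⟩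
    · simp only [Function.comp_apply, hτ, h1]
    · simp only [Function.comp_apply, hτ, h2]
    · exact (hτ d c _).trans (hJ d c h _ hp)
    · simp only [Function.comp_apply, hτ, h1]
    · simp only [Function.comp_apply, hτ, h2]
    · rintro _ ⟨p, rfl⟩
      refine (hτ d c _).trans (sum_eq_zero fun i _ => mul_eq_zero_of_right _ ?_)
      have h3 := D.count_kill hν hk d (f i) p.1
      rw [← hy] at h3
      exact h3
  · funext a
    obtain ⟨p, h1, h2⟩ := hdec a.1 a.2.1 a.2.2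
    have h3 := hJ d c h _ h2
    have h4 : D.count_T ν f d c (D.df.cst _ p) = 0 :=
      (hτ d c ⟨_, D.df.cst_mem h1, D.df.hom_cst ν _⟩).symm.trans (congrFun h0 ⟨p, h1⟩)
    rw [map_sub, h4, sub_zero] at h3
    exact (hτ d c a).trans h3
  · refine hinj c (D.deep hl hν f hf c fun d p hp => ?_)
    rcases lt_or_ge d 0 with h1 | h1
    · exact sum_eq_zero fun i _ => by rw [D.count_neg hν h1, mul_zero]
    · obtain ⟨d', rfl⟩ := Int.eq_ofNat_of_zero_le h1
      exact (hτ d' c ⟨_, D.df.cst_mem hp, D.df.hom_cst ν _⟩).symm.trans (congrFun (h d') _)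
  · funext p
    obtain ⟨s, hs⟩ := hgen p.1 p.2
    have h1 := h.1 (p - ∑ i, s i • ev i) (∑ i, s i • ev i)
    rw [← hev] at hs
    rw [sub_add_cancel, count_sum h, h.2.2 (p - ∑ i, s i • ev i) hs, zero_add] at h1
    exact h1.trans (sum_eq_zero fun i _ => by rw [h0, mul_zero])
  · rw [← count_sum h]
    refine h.2.2 _ ?_
    rw [← hev] at hr
    exact hr

end QD

end Pool.Agent.Work.MP_849ab0_ag
end
end
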