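import Pool.Agent.Work.MP_849ab0_ag.Grade

/-! The three-term residue identity in two variables and the Taylor identity. -/

noncomputable section

set_option linter.unusedSectionVars false

namespace Pool.Agent.Work.MP_849ab0_ag

open MvPolynomial Finset

variable {B : Type} [CommRing B]

/-- inner large variable -/
def vi (B : Type) [CommRing B] : LS (LS B) := HahnSeries.C (lv B)

/-- outer large variable -/
def vo (B : Type) [CommRing B] : LS (LS B) := lv (LS B)

/-- constants -/
def cc2 (B : Type) [CommRing B] : B →+* LS (LS B) := HahnSeries.C.comp HahnSeries.C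

/-- double residue -/
def r2 (G : LS (LS B)) : B := (G.coeff 1).coeff 1

/-- three expansions side by side -/
abbrev T3 (B : Type) [CommRing B] : Type := LS (LS B) × LS (LS B) × LS (LS B)

/-- the variable `y`: outer, inner, inner plus outer -/
def y3 (B : Type) [CommRing B] : T3 B := (vo B, vi B, vi B + vo B)

/-- the variable `z`: inner, outer, outer -/
def z3 (B : Type) [CommRing B] : T3 B := (vi B, vo B, vo B)

/-- constants -/
def c3 (B : Type) [CommRing B] : B →+* T3 B := (cc2 B).prod ((cc2 B).prod (cc2 B))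

/-- componentwise inverse -/
def inv3 (x : T3 B) : T3 B := (Ring.inverse x.1, Ring.inverse x.2.1, Ring.inverse x.2.2)

/-- rational functions with poles on `y = c`, `y - z = c`, `z = c` -/
def R3 (B : Type) [CommRing B] : Subring (T3 B) :=
  Subring.closure ({y3 B, z3 B} ∪ Set.range (c3 B) ∪ Set.range (fun c => inv3 (y3 B + c3 B c)) ∪
    Set.range (fun c => inv3 (y3 B - z3 B + c3 B c)) ∪ Set.range fun c => inv3 (z3 B + c3 B c))

theorem three_mul_ind {A : Type} [CommRing A] (s : Set A) (V : AddSubgroup A) (h1 : (1 : A) ∈ V)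
    (hs : ∀ x ∈ s, ∀ b ∈ V, x * b ∈ V) {x : A} (hx : x ∈ Subring.closure s) : x ∈ V := by
  have : ∀ b ∈ V, x * b ∈ V := by
    induction hx using Subring.closure_induction with
    | mem x hx => exact hs x hx
    | zero => intro b _; rw [zero_mul]; exact V.zero_mem
    | one => intro b hb; rwa [one_mul]
    | add x y _ _ hx hy => intro b hb; rw [add_mul]; exact V.add_mem (hx b hb) (hy b hb)
    | neg x _ hx => intro b hb; rw [neg_mul]; exact V.neg_mem (hx b hb)
    | mul x y _ _ hx hy => intro b hb; rw [mul_assoc]; exact hx _ (hy b hb)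
  simpa using this 1 h1

theorem three_cross {A : Type} [CommRing A] (g I J : Set A) (M : AddSubgroup A)
    (h1 : ∀ x ∈ Subring.closure (g ∪ I), x ∈ M) (h2 : ∀ x ∈ Subring.closure (g ∪ J), x ∈ M)
    {a : A} (ha : a ∈ I) (h : ∀ b ∈ J, ∃ s ∈ Subring.closure g, a * b = s * (b - a))
    {b : A} (hb : b ∈ Subring.closure (g ∪ J)) : a * b ∈ M := by
  have m1 : Subring.closure g ≤ Subring.closure (g ∪ I) := Subring.closure_mono Set.subset_union_left
  have m2 : Subring.closure g ≤ Subring.closure (g ∪ J) := Subring.closure_mono Set.subset_union_left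
  let V : AddSubgroup A :=
    { carrier := {b | b ∈ Subring.closure (g ∪ J) ∧ ∀ s ∈ Subring.closure g, a * s * b ∈ M}
      add_mem' := fun {x y} hx hy => ⟨add_mem hx.1 hy.1, fun s hs => by
        rw [mul_add]; exact M.add_mem (hx.2 s hs) (hy.2 s hs)⟩
      zero_mem' := ⟨zero_mem _, fun s _ => by rw [mul_zero]; exact M.zero_mem⟩
      neg_mem' := fun {x} hx => ⟨neg_mem hx.1, fun s hs => by
        rw [mul_neg]; exact M.neg_mem (hx.2 s hs)⟩ }
  have hV : b ∈ V := by
    refine three_mul_ind (g ∪ J) V ⟨one_mem _, fun s hs => ?_⟩ ?_ hb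
    · rw [mul_one]
      exact h1 _ (mul_mem (Subring.subset_closure (Or.inr ha)) (m1 hs))
    · rintro x hx y ⟨hy1, hy2⟩
      refine ⟨mul_mem (Subring.subset_closure hx) hy1, fun s hs => ?_⟩
      rcases hx with hx | hx
      · have := hy2 (s * x) (mul_mem hs (Subring.subset_closure hx))
        convert this using 1; ring
      · obtain ⟨t, ht, e⟩ := h x hx
        have e2 : a * s * (x * y) = s * t * x * y - a * (s * t) * y := by
          linear_combination (s * y) * e
        rw [e2]
        refine M.sub_mem (h2 _ ?_) (hy2 _ (mul_mem hs ht))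
        exact mul_mem (mul_mem (m2 (mul_mem hs ht)) (Subring.subset_closure (Or.inr hx))) hy1
  simpa using hV.2 1 (one_mem _)

theorem three_pf {A : Type} [CommRing A] (φ : B →+* A) (x : A) (iv : B → A)
    (h : ∀ c, (x + φ c) * iv c = 1) (V : AddSubgroup A)
    (h0 : ∀ p : Polynomial B, Polynomial.eval₂ φ x p ∈ V)
    (h1 : ∀ r c (L : List B), φ r * (iv c * (L.map iv).prod) ∈ V) (L : List B)
    (p : Polynomial B) : Polynomial.eval₂ φ x p * (L.map iv).prod ∈ V := by
  induction L generalizing p with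
  | nil => simpa using h0 p
  | cons c L ih =>
    obtain ⟨q, hq⟩ := Polynomial.X_sub_C_dvd_sub_C_eval (p := p) (a := -c)
    have e : p = Polynomial.C (p.eval (-c)) + (Polynomial.X + Polynomial.C c) * q := by
      rw [Polynomial.C_neg, sub_neg_eq_add] at hq
      rw [← hq]; ring
    have e2 : Polynomial.eval₂ φ x p * ((c :: L).map iv).prod =
        φ (p.eval (-c)) * (iv c * (L.map iv).prod) + Polynomial.eval₂ φ x q * (L.map iv).prod := by
      conv_lhs => rw [e]
      simp only [Polynomial.eval₂_add, Polynomial.eval₂_mul, Polynomial.eval₂_C, Polynomial.eval₂_X,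
        List.map_cons, List.prod_cons]
      linear_combination (Polynomial.eval₂ φ x q * (L.map iv).prod) * h c
    rw [e2]
    exact V.add_mem (h1 _ _ _) (ih q)

theorem three_prod_pair {A A' : Type} [CommRing A] [CommRing A'] (f : B → A) (g : B → A')
    (L : List B) : (L.map fun c => (f c, g c)).prod = ((L.map f).prod, (L.map g).prod) := by
  induction L with
  | nil => rfl
  | cons c L ih => simp [ih]

theorem three_eval_pair {A A' : Type} [CommRing A] [CommRing A'] (f : B →+* A) (g : B →+* A')
    (x : A) (y : A') (p : Polynomial B) :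
    Polynomial.eval₂ (f.prod g) (x, y) p = (Polynomial.eval₂ f x p, Polynomial.eval₂ g y p) := by
  induction p using Polynomial.induction_on' with
  | add p q hp hq => simp [Polynomial.eval₂_add, hp, hq]
  | monomial n a => simp [Polynomial.eval₂_monomial]

/-- series without negative powers of the large variable -/
def Pz3 (B : Type) [CommRing B] : Subring (LS B) :=
  SR B
    { carrier := {j | j ≤ 0}
      add_mem' := fun {a _} ha hb => add_nonpos (a := a) ha hb
      zero_mem' := le_refl (0 : ℤ) }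

theorem Pz3_coeff {x : LS B} (hx : x ∈ Pz3 B) : x.coeff 1 = 0 := by
  by_contra h
  exact absurd (mem_SR.1 hx 1 h) (by change ¬ (1 : ℤ) ≤ 0; omega)

theorem Pz3_C (c : B) : HahnSeries.C c ∈ Pz3 B := C_mem_SR _ c

theorem Pz3_lv : lv B ∈ Pz3 B := single_mem_SR (by change (-1 : ℤ) ≤ 0; omega) 1

theorem Pz3_eval (s : B) (p : Polynomial B) :
    Polynomial.eval₂ HahnSeries.C (lv B + HahnSeries.C s) p ∈ Pz3 B := by
  induction p using Polynomial.induction_on' with
  | add p q hp hq => rw [Polynomial.eval₂_add]; exact add_mem hp hq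
  | monomial n a =>
    rw [Polynomial.eval₂_monomial]
    exact mul_mem (Pz3_C a) (pow_mem (add_mem Pz3_lv (Pz3_C s)) n)

theorem three_ge_prod {α : Type} (f : α → B) (L : List α) :
    Ge 0 (L.map fun c => Ring.inverse (lv B + HahnSeries.C (f c))).prod := by
  induction L with
  | nil => simpa using ge_C (1 : B)
  | cons c L ih =>
    rw [List.map_cons, List.prod_cons]
    exact ((ge_inverse (f c)).mul ih).mono (by omega)

theorem three_ge_zero {m j : ℤ} {x : LS B} (h : Ge m x) (hj : j < m) : x.coeff j = 0 := by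
  by_contra e
  exact absurd (h j e) (by omega)

theorem three_coeff_one {α : Type} (f : α → B) (r : B) (c : α) (L : List α) :
    (HahnSeries.C r * (Ring.inverse (lv B + HahnSeries.C (f c)) *
      (L.map fun c => Ring.inverse (lv B + HahnSeries.C (f c))).prod)).coeff 1 =
      if L = [] then r else 0 := by
  rw [coeff_C_mul']
  cases L with
  | nil => rw [if_pos rfl, List.map_nil, List.prod_nil, mul_one, coeff_inverse_lv, mul_one]
  | cons d L =>
    rw [if_neg (by simp), List.map_cons, List.prod_cons,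
      three_ge_zero ((ge_inverse (f c)).mul ((ge_inverse (f d)).mul (three_ge_prod f L))) (by omega),
      mul_zero]

/-- translation invariance of the residue -/
theorem coeff_one_translate (s : B) (p : Polynomial B) (L : List B) :
    (Polynomial.eval₂ HahnSeries.C (lv B + HahnSeries.C s) p *
      (L.map fun c => Ring.inverse (lv B + HahnSeries.C (s + c))).prod).coeff 1 =
    (Polynomial.eval₂ HahnSeries.C (lv B) p *
      (L.map fun c => Ring.inverse (lv B + HahnSeries.C c)).prod).coeff 1 := by
  let V : AddSubgroup (LS B × LS B) :=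
    { carrier := {G | G.1.coeff 1 = G.2.coeff 1}
      add_mem' := fun {a b} ha hb => by
        simp only [Set.mem_ofPred_eq, Prod.fst_add, Prod.snd_add, HahnSeries.coeff_add] at *
        rw [ha, hb]
      zero_mem' := rfl
      neg_mem' := fun {a} ha => by
        simp only [Set.mem_ofPred_eq, Prod.fst_neg, Prod.snd_neg, HahnSeries.coeff_neg] at *
        rw [ha] }
  have key := three_pf (HahnSeries.C.prod HahnSeries.C) (lv B + HahnSeries.C s, lv B)
    (fun c => (Ring.inverse (lv B + HahnSeries.C (s + c)), Ring.inverse (lv B + HahnSeries.C c)))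
    (fun c => ?_) V (fun p => ?_) (fun r c L => ?_) L p
  · rw [three_eval_pair, three_prod_pair] at key
    exact key
  · refine Prod.ext ?_ ?_
    · change (lv B + HahnSeries.C s + HahnSeries.C c) * _ = 1
      rw [add_assoc, ← map_add]
      exact Ring.mul_inverse_cancel _ (isUnit_lv_add' _)
    · exact Ring.mul_inverse_cancel _ (isUnit_lv_add' _)
  · rw [three_eval_pair]
    have := Pz3_eval 0 p
    rw [map_zero, add_zero] at this
    exact (Pz3_coeff (Pz3_eval s p)).trans (Pz3_coeff this).symm
  · rw [three_prod_pair]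
    exact (three_coeff_one (fun c => s + c) r c L).trans (three_coeff_one (fun c => c) r c L).symm

/-- functions of `z` alone -/
def lam3 (B : Type) [CommRing B] : LS B →+* T3 B :=
  HahnSeries.C.prod ((hmap ℤ HahnSeries.C).prod (hmap ℤ HahnSeries.C))

theorem lam3_apply (g : LS B) :
    lam3 B g = (HahnSeries.C g, hmap ℤ HahnSeries.C g, hmap ℤ HahnSeries.C g) := rfl

theorem lam3_lv : lam3 B (lv B) = z3 B := by simp [lam3_apply, z3, vi, vo]

theorem lam3_C (c : B) : lam3 B (HahnSeries.C c) = c3 B c := by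
  rw [lam3_apply, hmap_C]; rfl

theorem inv3_lam {g : LS B} (hg : IsUnit g) : inv3 (lam3 B g) = lam3 B (Ring.inverse g) := by
  rw [lam3_apply, lam3_apply, map_inverse _ hg, map_inverse _ hg]; rfl

theorem r2_add (x y : LS (LS B)) : r2 (x + y) = r2 x + r2 y := by simp [r2]

theorem r2_neg (x y : LS (LS B)) : r2 (x * -y) = -r2 (x * y) := by
  rw [show x * -y = -(x * y) by ring]; simp [r2]

theorem r2_mul (x y : LS B) :
    r2 (HahnSeries.C x * hmap ℤ HahnSeries.C y) = x.coeff 1 * y.coeff 1 := by
  rw [r2, coeff_C_mul', hmap_coeff, mul_comm, coeff_C_mul', mul_comm]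

theorem r2_CoefIn {x : LS (LS B)} (hx : x ∈ CoefIn (Pz3 B)) : r2 x = 0 :=
  Pz3_coeff (CoefIn.coeff_mem hx 1)

theorem hmap_CoefIn (g : LS B) : hmap ℤ HahnSeries.C g ∈ CoefIn (Pz3 B) :=
  mem_CoefIn_of_coeff fun _ => Pz3_C _

theorem y3_add (c : B) : y3 B + c3 B c = (hmap ℤ HahnSeries.C (lv B + HahnSeries.C c),
    HahnSeries.C (lv B + HahnSeries.C c), lv (LS B) + HahnSeries.C (lv B + HahnSeries.C c)) := by
  refine Prod.ext ?_ (Prod.ext ?_ ?_)
  · rw [map_add, hmap_lv, hmap_C]; rfl
  · exact (map_add _ _ _).symm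
  · change vi B + vo B + cc2 B c = lv (LS B) + HahnSeries.C (lv B + HahnSeries.C c)
    rw [map_add, ← add_assoc, add_comm (vi B)]; rfl

theorem y3_sub (c : B) : y3 B - z3 B + c3 B c =
    (lv (LS B) + HahnSeries.C (-lv B + HahnSeries.C c),
      HahnSeries.C (-1) * lv (LS B) + HahnSeries.C (lv B + HahnSeries.C c),
      HahnSeries.C (lv B + HahnSeries.C c)) := by
  refine Prod.ext ?_ (Prod.ext ?_ ?_)
  · change vo B - vi B + cc2 B c = _
    rw [map_add, map_neg, ← add_assoc, sub_eq_add_neg]; rfl
  · change vi B - vo B + cc2 B c =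
      HahnSeries.C (-1) * lv (LS B) + HahnSeries.C (lv B + HahnSeries.C c)
    rw [map_add, map_neg, map_one]
    change vi B - vo B + cc2 B c = -1 * vo B + (vi B + cc2 B c)
    ring
  · change vi B + vo B - vo B + cc2 B c = HahnSeries.C (lv B + HahnSeries.C c)
    rw [map_add, add_sub_cancel_right]; rfl

theorem mul_inv3 {x : T3 B} (h1 : IsUnit x.1) (h2 : IsUnit x.2.1) (h3 : IsUnit x.2.2) :
    x * inv3 x = 1 :=
  Prod.ext (Ring.mul_inverse_cancel _ h1)
    (Prod.ext (Ring.mul_inverse_cancel _ h2) (Ring.mul_inverse_cancel _ h3))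

theorem mul_inv3_add (c : B) : (y3 B + c3 B c) * inv3 (y3 B + c3 B c) = 1 := by
  rw [y3_add]
  exact mul_inv3 ((isUnit_lv_add' c).map _) ((isUnit_lv_add' c).map _) (isUnit_lv_add' _)

theorem mul_inv3_sub (c : B) : (y3 B - z3 B + c3 B c) * inv3 (y3 B - z3 B + c3 B c) = 1 := by
  rw [y3_sub]
  exact mul_inv3 (isUnit_lv_add' _) (isUnit_lv_add isUnit_one.neg _) ((isUnit_lv_add' c).map _)

/-- polynomial generators -/
def gen3 (B : Type) [CommRing B] : Set (T3 B) := {y3 B} ∪ Set.range (lam3 B)

theorem three_S1 {G : T3 B}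
    (h : G ∈ Subring.closure (gen3 B ∪ Set.range fun c => inv3 (y3 B + c3 B c))) :
    r2 G.1 - r2 G.2.1 = r2 G.2.2 := by
  let V : AddSubgroup (T3 B) :=
    { carrier := {G | G.2.2 ∈ CoefIn (Pz3 B) ∧ ∀ g f : LS B,
        r2 (HahnSeries.C g * hmap ℤ HahnSeries.C f * G.1) =
          r2 (HahnSeries.C f * hmap ℤ HahnSeries.C g * G.2.1)}
      add_mem' := fun {a b} ha hb => ⟨add_mem ha.1 hb.1, fun g f => by
        simp only [Prod.fst_add, Prod.snd_add, mul_add, r2_add, ha.2 g f, hb.2 g f]⟩
      zero_mem' := ⟨zero_mem _, fun g f => by simp⟩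
      neg_mem' := fun {a} ha => ⟨neg_mem ha.1, fun g f => by
        simp only [Prod.fst_neg, Prod.snd_neg, r2_neg, ha.2 g f]⟩ }
  have aux : ∀ (g' f' : LS B) (w : LS (LS B)), w ∈ CoefIn (Pz3 B) → ∀ b ∈ V,
      ((HahnSeries.C g' * hmap ℤ HahnSeries.C f', HahnSeries.C f' * hmap ℤ HahnSeries.C g', w) :
        T3 B) * b ∈ V := by
    intro g' f' w hw b hb
    refine ⟨mul_mem hw hb.1, fun g f => ?_⟩
    have := hb.2 (g * g') (f * f')
    simp only [map_mul, Prod.fst_mul, Prod.snd_mul] at this ⊢
    convert this using 2 <;> ring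
  have hV : G ∈ V := by
    refine three_mul_ind _ V ⟨one_mem _, fun g f => ?_⟩ ?_ h
    · simp only [Prod.fst_one, Prod.snd_one, mul_one, r2_mul]
      exact mul_comm _ _
    · rintro x ((rfl | ⟨g, rfl⟩) | ⟨c, rfl⟩)
      · have := aux 1 (lv B) (vi B + vo B) (add_mem (C_mem_CoefIn Pz3_lv) (lv_mem_CoefIn _))
        simp only [map_one, one_mul, mul_one, hmap_lv] at this
        exact this
      · have := aux g 1 _ (hmap_CoefIn g)
        simp only [map_one, one_mul, mul_one] at this
        exact this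
      · have h3 : Ring.inverse (lv (LS B) + HahnSeries.C (lv B + HahnSeries.C c)) ∈
            CoefIn (Pz3 B) := by
          simpa only [map_one, one_mul] using inverse_mem_CoefIn (S := Pz3 B) (one_mem _) (one_mem _)
            (mul_one 1) (add_mem Pz3_lv (Pz3_C c))
        have := aux 1 (Ring.inverse (lv B + HahnSeries.C c)) _ h3
        simp only [map_one, one_mul, mul_one, map_inverse _ (isUnit_lv_add' c)] at this
        simp only [y3_add]
        exact this
  have := hV.2 1 1
  simp only [map_one, one_mul] at this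
  rw [this, sub_self, r2_CoefIn hV.1]

theorem three_S2 {G : T3 B}
    (h : G ∈ Subring.closure (gen3 B ∪ Set.range fun c => inv3 (y3 B - z3 B + c3 B c))) :
    r2 G.1 - r2 G.2.1 = r2 G.2.2 := by
  let V : AddSubgroup (T3 B) :=
    { carrier := {G | G.2.1 ∈ CoefIn (Pz3 B) ∧ ∀ (g : LS B) (i : ℕ) (L : List B),
        r2 (HahnSeries.C g * ((lv (LS B) + HahnSeries.C (-lv B)) ^ i * (L.map fun c =>
            Ring.inverse (lv (LS B) + HahnSeries.C (-lv B + HahnSeries.C c))).prod) * G.1) =
          r2 (HahnSeries.C (lv B ^ i * (L.map fun c =>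
            Ring.inverse (lv B + HahnSeries.C c)).prod) * hmap ℤ HahnSeries.C g * G.2.2)}
      add_mem' := fun {a b} ha hb => ⟨add_mem ha.1 hb.1, fun g i L => by
        simp only [Prod.fst_add, Prod.snd_add, mul_add, r2_add, ha.2 g i L, hb.2 g i L]⟩
      zero_mem' := ⟨zero_mem _, fun g i L => by simp⟩
      neg_mem' := fun {a} ha => ⟨neg_mem ha.1, fun g i L => by
        simp only [Prod.fst_neg, Prod.snd_neg, r2_neg, ha.2 g i L]⟩ }
  have hlam : ∀ g', ∀ b ∈ V, lam3 B g' * b ∈ V := by
    intro g' b hb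
    refine ⟨mul_mem (hmap_CoefIn g') hb.1, fun g i L => ?_⟩
    have := hb.2 (g * g') i L
    simp only [lam3_apply, map_mul, Prod.fst_mul, Prod.snd_mul] at this ⊢
    convert this using 2 <;> ring
  have hV : G ∈ V := by
    refine three_mul_ind _ V ⟨one_mem _, fun g i L => ?_⟩ ?_ h
    · have h1 := coeff_one_translate (-lv B) (Polynomial.X ^ i) (L.map HahnSeries.C)
      simp only [Polynomial.eval₂_X_pow, List.map_map, Function.comp_def] at h1
      have h2 : hmap ℤ HahnSeries.C (lv B ^ i * (L.map fun c =>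
          Ring.inverse (lv B + HahnSeries.C c)).prod) = lv (LS B) ^ i * (L.map fun c =>
            Ring.inverse (lv (LS B) + HahnSeries.C (HahnSeries.C c))).prod := by
        simp only [map_mul, map_pow, map_list_prod, List.map_map, Function.comp_def, hmap_lv,
          map_inverse _ (isUnit_lv_add' _), map_add, hmap_C]
      simp only [Prod.fst_one, Prod.snd_one, mul_one]
      rw [r2_mul, mul_comm (HahnSeries.coeff _ 1), ← r2_mul, h2, r2, r2, coeff_C_mul', coeff_C_mul',
        h1]
    · rintro x ((rfl | ⟨g, rfl⟩) | ⟨c, rfl⟩)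
      · intro b hb
        have e : y3 B * b = (y3 B - z3 B + c3 B 0) * b + lam3 B (lv B) * b := by
          rw [lam3_lv, map_zero]; ring
        rw [e]
        refine V.add_mem ?_ (hlam _ b hb)
        rw [y3_sub]
        refine ⟨mul_mem (add_mem (mul_mem (C_mem_CoefIn (neg_mem (one_mem _))) (lv_mem_CoefIn _))
          (C_mem_CoefIn (add_mem Pz3_lv (Pz3_C 0)))) hb.1, fun g i L => ?_⟩
        have := hb.2 g (i + 1) L
        simp only [map_mul, map_zero, add_zero, pow_succ, Prod.fst_mul, Prod.snd_mul] at this ⊢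
        convert this using 2 <;> ring
      · exact hlam g
      · intro b hb
        simp only [y3_sub, inv3]
        refine ⟨mul_mem (inverse_mem_CoefIn (u' := -1) (neg_mem (one_mem _)) (neg_mem (one_mem _))
          (by ring) (add_mem Pz3_lv (Pz3_C c))) hb.1, fun g i L => ?_⟩
        have := hb.2 g i (c :: L)
        simp only [map_mul, List.map_cons, List.prod_cons, Prod.fst_mul, Prod.snd_mul,
          map_inverse _ (isUnit_lv_add' c)] at this ⊢
        convert this using 2 <;> ring
  have := hV.2 1 0 []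
  simp only [map_one, one_mul, pow_zero, List.map_nil, List.prod_nil] at this
  rw [this, r2_CoefIn hV.1, sub_zero]

theorem three_diff (c d : B) : ∃ s ∈ Subring.closure (gen3 B),
    inv3 (y3 B + c3 B c) * inv3 (y3 B - z3 B + c3 B d) =
      s * (inv3 (y3 B - z3 B + c3 B d) - inv3 (y3 B + c3 B c)) := by
  refine ⟨lam3 B (Ring.inverse (lv B + HahnSeries.C (c - d))),
    Subring.subset_closure (Or.inr ⟨_, rfl⟩), ?_⟩
  have h1 := mul_inv3_add c
  have h2 := mul_inv3_sub d
  have h3 := congrArg (lam3 B) (Ring.mul_inverse_cancel _ (isUnit_lv_add' (c - d)))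
  rw [map_mul, map_add, lam3_lv, lam3_C, map_sub, map_one] at h3
  generalize inv3 (y3 B + c3 B c) = a at *
  generalize inv3 (y3 B - z3 B + c3 B d) = b at *
  generalize lam3 B (Ring.inverse (lv B + HahnSeries.C (c - d))) = s at *
  linear_combination (s * b) * h1 - (s * a) * h2 - (a * b) * h3

theorem three {G : T3 B} (h : G ∈ R3 B) : r2 G.1 - r2 G.2.1 = r2 G.2.2 := by
  let I : Set (T3 B) := Set.range fun c => inv3 (y3 B + c3 B c)
  let J : Set (T3 B) := Set.range fun c => inv3 (y3 B - z3 B + c3 B c)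
  let M : AddSubgroup (T3 B) :=
    (Subring.closure (gen3 B ∪ I)).toAddSubgroup ⊔ (Subring.closure (gen3 B ∪ J)).toAddSubgroup
  have h1 : ∀ x ∈ Subring.closure (gen3 B ∪ I), x ∈ M := fun x hx =>
    AddSubgroup.mem_sup_left hx
  have h2 : ∀ x ∈ Subring.closure (gen3 B ∪ J), x ∈ M := fun x hx =>
    AddSubgroup.mem_sup_right hx
  have hg : ∀ x ∈ gen3 B, ∀ b ∈ M, x * b ∈ M := by
    intro x hx b hb
    obtain ⟨b1, hb1, b2, hb2, rfl⟩ := AddSubgroup.mem_sup.1 hb
    rw [mul_add]
    exact M.add_mem (h1 _ (mul_mem (Subring.subset_closure (Or.inl hx)) hb1))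
      (h2 _ (mul_mem (Subring.subset_closure (Or.inl hx)) hb2))
  have hM : G ∈ M := by
    refine three_mul_ind _ M (h1 _ (one_mem _)) ?_ h
    rintro x (((((rfl | rfl) | ⟨c, rfl⟩) | ⟨c, rfl⟩) | ⟨c, rfl⟩) | ⟨c, rfl⟩)
    · exact hg _ (Or.inl rfl)
    · exact hg _ (Or.inr ⟨_, lam3_lv⟩)
    · exact hg _ (Or.inr ⟨_, lam3_C c⟩)
    · intro b hb
      obtain ⟨b1, hb1, b2, hb2, rfl⟩ := AddSubgroup.mem_sup.1 hb
      rw [mul_add]
      refine M.add_mem (h1 _ (mul_mem (Subring.subset_closure (Or.inr ⟨c, rfl⟩)) hb1)) ?_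
      refine three_cross (gen3 B) I J M h1 h2 ⟨c, rfl⟩ ?_ hb2
      rintro _ ⟨d, rfl⟩
      exact three_diff c d
    · intro b hb
      obtain ⟨b1, hb1, b2, hb2, rfl⟩ := AddSubgroup.mem_sup.1 hb
      rw [mul_add]
      refine M.add_mem ?_ (h2 _ (mul_mem (Subring.subset_closure (Or.inr ⟨c, rfl⟩)) hb2))
      refine three_cross (gen3 B) J I M h2 h1 ⟨c, rfl⟩ ?_ hb1
      rintro _ ⟨d, rfl⟩
      obtain ⟨s, hs, e⟩ := three_diff d c
      exact ⟨-s, neg_mem hs, by linear_combination e⟩
    · refine hg _ (Or.inr ⟨Ring.inverse (lv B + HahnSeries.C c), ?_⟩)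
      rw [← inv3_lam (isUnit_lv_add' c), map_add, lam3_lv, lam3_C]
  obtain ⟨b1, hb1, b2, hb2, rfl⟩ := AddSubgroup.mem_sup.1 hM
  have e1 := three_S1 hb1
  have e2 := three_S2 hb2
  simp only [Prod.fst_add, Prod.snd_add, r2_add]
  linear_combination e1 + e2

/-- rational functions of `s` with poles on `s = c`, at `s = vi + vo` and at `s = lv` -/
def R2 (B : Type) [CommRing B] : Subring (LS (LS B) × LS B) :=
  Subring.closure ({(vi B + vo B, lv B)} ∪ Set.range (fun c => (cc2 B c, HahnSeries.C c)) ∪
    Set.range fun c => (Ring.inverse (vi B + vo B + cc2 B c), Ring.inverse (lv B + HahnSeries.C c)))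

theorem taylor_poly (p : Polynomial B) :
    Polynomial.eval₂ (cc2 B) (vi B + vo B) p ∈ Pz3 (LS B) ∧
      (Polynomial.eval₂ (cc2 B) (vi B + vo B) p).coeff 0 = Polynomial.eval₂ HahnSeries.C (lv B) p := by
  induction p using Polynomial.induction_on with
  | C a =>
    rw [Polynomial.eval₂_C, Polynomial.eval₂_C]
    exact ⟨Pz3_C _, by simp [cc2]⟩
  | add p q hp hq =>
    rw [Polynomial.eval₂_add, Polynomial.eval₂_add]
    exact ⟨add_mem hp.1 hq.1, by rw [HahnSeries.coeff_add, hp.2, hq.2]⟩
  | monomial n a ih =>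
    rw [pow_succ, ← mul_assoc, Polynomial.eval₂_mul, Polynomial.eval₂_mul _ _ (q := Polynomial.X),
      Polynomial.eval₂_X, Polynomial.eval₂_X]
    refine ⟨mul_mem ih.1 (add_mem (Pz3_C _) Pz3_lv), ?_⟩
    obtain ⟨i1, i2⟩ := ih
    generalize Polynomial.eval₂ (cc2 B) (vi B + vo B) (Polynomial.C a * Polynomial.X ^ n) = w at *
    have a1 : (vi B * w).coeff 0 = lv B * w.coeff 0 := coeff_C_mul' _ _ _
    have a2 : (vo B * w).coeff 0 = 1 * w.coeff (0 - -1) := coeff_single_mul' _ _ _ _
    rw [mul_comm, add_mul, HahnSeries.coeff_add, a1, a2, i2, one_mul,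
      show (0 : ℤ) - -1 = 1 by norm_num, Pz3_coeff i1, add_zero, mul_comm]

theorem taylor {G : LS (LS B) × LS B} (h : G ∈ R2 B) {l : ℤ} (hl : l ≤ 0) :
    (G.1.coeff 0).coeff l = G.2.coeff l := by
  let V : AddSubgroup (LS (LS B) × LS B) :=
    { carrier := {G | (G.1.coeff 0).coeff l = G.2.coeff l}
      add_mem' := fun {a b} ha hb => by
        simp only [Set.mem_ofPred_eq, Prod.fst_add, Prod.snd_add, HahnSeries.coeff_add] at *
        rw [ha, hb]
      zero_mem' := rfl
      neg_mem' := fun {a} ha => by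
        simp only [Set.mem_ofPred_eq, Prod.fst_neg, Prod.snd_neg, HahnSeries.coeff_neg] at *
        rw [ha] }
  have e0 : ∀ c, vi B + vo B + cc2 B c = lv (LS B) + HahnSeries.C (lv B + HahnSeries.C c) :=
    fun c => congrArg (fun x : T3 B => x.2.2) (y3_add c)
  let φ : B →+* LS (LS B) × LS B := (cc2 B).prod HahnSeries.C
  let iv : B → LS (LS B) × LS B := fun c =>
    (Ring.inverse (vi B + vo B + cc2 B c), Ring.inverse (lv B + HahnSeries.C c))
  have key := three_pf φ (vi B + vo B, lv B) iv (fun c => ?_) V (fun p => ?_) (fun r c L => ?_)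
  · let W : AddSubgroup (LS (LS B) × LS B) :=
      { carrier := {b | ∀ (L : List B) (p : Polynomial B),
          Polynomial.eval₂ φ (vi B + vo B, lv B) p * (L.map iv).prod * b ∈ V}
        add_mem' := fun {a b} ha hb L p => by
          rw [mul_add]; exact V.add_mem (ha L p) (hb L p)
        zero_mem' := fun L p => by rw [mul_zero]; exact V.zero_mem
        neg_mem' := fun {a} ha L p => by rw [mul_neg]; exact V.neg_mem (ha L p) }
    have hW : G ∈ W := by
      refine three_mul_ind _ W (fun L p => by rw [mul_one]; exact key L p) ?_ h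
      rintro x ((rfl | ⟨c, rfl⟩) | ⟨c, rfl⟩) b hb L p
      · have := hb L (p * Polynomial.X)
        rw [Polynomial.eval₂_mul, Polynomial.eval₂_X] at this
        convert this using 1; ring
      · have := hb L (p * Polynomial.C c)
        rw [Polynomial.eval₂_mul, Polynomial.eval₂_C] at this
        convert this using 1
        change _ * (φ c * b) = _
        ring
      · have := hb (c :: L) p
        rw [List.map_cons, List.prod_cons] at this
        convert this using 1
        change _ * (iv c * b) = _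
        ring
    have := hW [] 1
    simp only [Polynomial.eval₂_one, List.map_nil, List.prod_nil, one_mul] at this
    exact this
  · refine Prod.ext ?_ (Ring.mul_inverse_cancel _ (isUnit_lv_add' _))
    refine Ring.mul_inverse_cancel (vi B + vo B + cc2 B c) ?_
    rw [e0]; exact isUnit_lv_add' _
  · rw [three_eval_pair]
    exact congrArg (fun x : LS B => x.coeff l) (taylor_poly p).2
  · rw [three_prod_pair]
    have g1 := (ge_C (HahnSeries.C r : LS B)).mul ((ge_inverse (lv B + HahnSeries.C c)).mul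
      (three_ge_prod (fun c : B => lv B + HahnSeries.C c) L))
    have g2 := (ge_C r).mul ((ge_inverse c).mul (three_ge_prod (fun c : B => c) L))
    simp only [← e0] at g1
    have a1 := three_ge_zero g1 (j := 0) (by omega)
    have a2 := three_ge_zero g2 (j := l) (by omega)
    exact (congrArg (fun x : LS B => x.coeff l) a1).trans a2.symm

end Pool.Agent.Work.MP_849ab0_ag
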