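import Pool.Agent.Work.MP_849ab0_ag.WLink
import Pool.Agent.Work.MP_849ab0_ag.Three

/-! The commutator formula. -/

noncomputable section

set_option linter.unusedSectionVars false

namespace Pool.Agent.Work.MP_849ab0_ag.W

variable {𝕜 : Type} [CommRing 𝕜]

open MvPolynomial Finset

open scoped TensorProduct

section Aux

variable {B : Type} [CommRing B]

theorem vc_cf2 {B' : Type} [CommRing B'] (J : B' →+* LS B) (Ψ : LS B') (K : LS B) (p q : ℤ) :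
    (J (Ψ.coeff p) * K).coeff q = ((hmap ℤ J Ψ * HahnSeries.C K).coeff p).coeff q := by
  rw [mul_comm (hmap ℤ J Ψ), coeff_C_mul', hmap_coeff, mul_comm]

theorem vc_unit_lv : IsUnit (lv B) := by simpa using isUnit_lv_add' (0 : B)

theorem vc_unit_sub (c e : B) : IsUnit (lv B - HahnSeries.C c + HahnSeries.C e) := by
  convert isUnit_lv_add' (e - c) using 1
  rw [map_sub]; ring

theorem vc_unit_sub' (c d e : B) :
    IsUnit (lv B + HahnSeries.C c - HahnSeries.C d + HahnSeries.C e) := by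
  convert isUnit_lv_add' (c - d + e) using 1
  rw [map_add, map_sub]; ring

theorem vc_r2 (i m : ℤ) (G : LS (LS B)) :
    r2 (pw (vo B) i * pw (vi B) m * G) = (G.coeff (i + 1)).coeff (m + 1) := by
  rw [r2, mul_assoc, vo, coeff_pw_mul, vi, 
    ← map_pw (HahnSeries.C : LS B →+* LS (LS B)) vc_unit_lv, coeff_C_mul', coeff_pw_mul,
    add_comm 1 i, add_comm 1 m]

theorem vc_r2_sub (G H : LS (LS B)) : r2 (G - H) = r2 G - r2 H := by simp [r2]

theorem vc_uo (c : LS B) : IsUnit (vo B + HahnSeries.C c) := isUnit_lv_add' c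

theorem vc_ui (c : B) : IsUnit (vi B + cc2 B c) := by
  have := (isUnit_lv_add' c).map (HahnSeries.C : LS B →+* LS (LS B))
  rwa [map_add] at this

/-- the three projections -/
def vcP1 (B : Type) [CommRing B] : T3 B →+* LS (LS B) := RingHom.fst _ _
def vcP2 (B : Type) [CommRing B] : T3 B →+* LS (LS B) := (RingHom.fst _ _).comp (RingHom.snd _ _)
def vcP3 (B : Type) [CommRing B] : T3 B →+* LS (LS B) := (RingHom.snd _ _).comp (RingHom.snd _ _)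

theorem vc_inv3 {x : T3 B} (hx : IsUnit x) : Ring.inverse x = inv3 x :=
  Prod.ext (map_inverse (vcP1 B) hx) (Prod.ext (map_inverse (vcP2 B) hx) (map_inverse (vcP3 B) hx))

/-- units of the subring -/
def VcN (u : T3 B) : Prop := IsUnit u ∧ u ∈ R3 B ∧ Ring.inverse u ∈ R3 B

theorem vc_y_mem : y3 B ∈ R3 B := Subring.subset_closure (by simp)

theorem vc_z_mem : z3 B ∈ R3 B := Subring.subset_closure (by simp)

theorem vc_c_mem (c : B) : c3 B c ∈ R3 B :=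
  Subring.subset_closure (Or.inl (Or.inl (Or.inl (Or.inr ⟨c, rfl⟩))))

theorem vc_y (c : B) : VcN (y3 B + c3 B c) := by
  have hu : IsUnit (y3 B + c3 B c) := by
    refine Prod.isUnit_iff.2 ⟨vc_uo (HahnSeries.C c), Prod.isUnit_iff.2 ⟨vc_ui c, ?_⟩⟩
    have := vc_uo (lv B + HahnSeries.C c)
    rw [map_add, ← add_assoc, add_comm (vo B)] at this
    exact this
  refine ⟨hu, add_mem vc_y_mem (vc_c_mem c), ?_⟩
  rw [vc_inv3 hu]
  exact Subring.subset_closure (Or.inl (Or.inl (Or.inr ⟨c, rfl⟩)))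

theorem vc_z (c : B) : VcN (z3 B + c3 B c) := by
  have hu : IsUnit (z3 B + c3 B c) :=
    Prod.isUnit_iff.2 ⟨vc_ui c, Prod.isUnit_iff.2 ⟨vc_uo (HahnSeries.C c), vc_uo (HahnSeries.C c)⟩⟩
  refine ⟨hu, add_mem vc_z_mem (vc_c_mem c), ?_⟩
  rw [vc_inv3 hu]
  exact Subring.subset_closure (Or.inr ⟨c, rfl⟩)

theorem vc_yz (c : B) : VcN (y3 B - z3 B + c3 B c) := by
  have hu : IsUnit (y3 B - z3 B + c3 B c) := by
    refine Prod.isUnit_iff.2 ⟨?_, Prod.isUnit_iff.2 ⟨?_, ?_⟩⟩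
    · have := vc_uo (HahnSeries.C c - lv B)
      rw [map_sub] at this
      convert this using 1
      change vo B - vi B + cc2 B c = vo B + (cc2 B c - vi B)
      ring
    · have := (vc_uo (B := B) (-HahnSeries.C c - lv B)).neg
      rw [map_sub, map_neg] at this
      convert this using 1
      change vi B - vo B + cc2 B c = -(vo B + (-cc2 B c - vi B))
      ring
    · convert vc_ui c using 1
      change vi B + vo B - vo B + cc2 B c = _
      ring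
  refine ⟨hu, add_mem (sub_mem vc_y_mem vc_z_mem) (vc_c_mem c), ?_⟩
  rw [vc_inv3 hu]
  exact Subring.subset_closure (Or.inl (Or.inr ⟨c, rfl⟩))

theorem vc_pw_mem {u : T3 B} (h : VcN u) (j : ℤ) : pw u j ∈ R3 B :=
  mul_mem (pow_mem h.2.1 _) (pow_mem h.2.2 _)

theorem vc_three {G : T3 B} (hG : G ∈ R3 B) (i m : ℤ) :
    (G.1.coeff (i + 1)).coeff (m + 1) - (G.2.1.coeff (m + 1)).coeff (i + 1) =
      r2 (pw (vi B + vo B) i * pw (vo B) m * G.2.2) := by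
  have hy : VcN (y3 B) := by simpa using vc_y (0 : B)
  have hz : VcN (z3 B) := by simpa using vc_z (0 : B)
  have h := three (mul_mem (mul_mem (vc_pw_mem hy i) (vc_pw_mem hz m)) hG)
  have e : ∀ π : T3 B →+* LS (LS B), π (pw (y3 B) i * pw (z3 B) m * G) =
      pw (π (y3 B)) i * pw (π (z3 B)) m * π G := fun π => by
    rw [map_mul, map_mul, map_pw π hy.1, map_pw π hz.1]
  have e1 : (pw (y3 B) i * pw (z3 B) m * G).1 = pw (vo B) i * pw (vi B) m * G.1 := e (vcP1 B)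
  have e2 : (pw (y3 B) i * pw (z3 B) m * G).2.1 = pw (vi B) i * pw (vo B) m * G.2.1 := e (vcP2 B)
  have e3 : (pw (y3 B) i * pw (z3 B) m * G).2.2 = pw (vi B + vo B) i * pw (vo B) m * G.2.2 :=
    e (vcP3 B)
  rw [e1, e2, e3, mul_comm (pw (vi B) i), vc_r2, vc_r2] at h
  exact h

theorem vc_vanish {G : LS (LS B)} {N : ℤ} (hG : Ge N G) (j : ℕ) {i m : ℤ} (h : i + m ≤ N - 2) :
    r2 (pw (vi B + vo B) i * vi B ^ j * pw (vo B) m * G) = 0 := by
  have h1 : Ge (-i) (pw (vi B + vo B) i) := by rw [add_comm]; exact ge_pw (lv B) i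
  have h2 : Ge 0 (vi B ^ j) := by rw [vi, ← map_pow]; exact ge_C _
  have h3 : Ge (-m) (pw (vo B) m) := by simpa [vo] using ge_pw (0 : LS B) m
  have h4 := ((h1.mul h2).mul h3).mul hG
  have h5 : (pw (vi B + vo B) i * vi B ^ j * pw (vo B) m * G).coeff 1 = 0 := by
    by_contra h6
    have := h4 1 h6
    omega
  rw [r2, h5, HahnSeries.coeff_zero]

end Aux

section Pos

variable {P : Type} [Fintype P] [DecidableEq P]

/-- two copies of the polynomial ring -/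
abbrev VcB (𝕜 P : Type) [CommRing 𝕜] : Type := AA 𝕜 P ⊗[𝕜] AA 𝕜 P

/-- the two inclusions -/
def vcL (𝕜 P : Type) [CommRing 𝕜] : AA 𝕜 P →+* VcB 𝕜 P := Algebra.TensorProduct.includeLeftRingHom
def vcR (𝕜 P : Type) [CommRing 𝕜] : AA 𝕜 P →+* VcB 𝕜 P :=
  (Algebra.TensorProduct.includeRight : AA 𝕜 P →ₐ[𝕜] VcB 𝕜 P).toRingHom

theorem vcL_apply (p : AA 𝕜 P) : vcL 𝕜 P p = p ⊗ₜ 1 := rfl
theorem vcR_apply (p : AA 𝕜 P) : vcR 𝕜 P p = 1 ⊗ₜ p := rfl

theorem vcL_C (c : 𝕜) : vcL 𝕜 P (C c) = algebraMap 𝕜 (VcB 𝕜 P) c := rfl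
theorem vcR_C (c : 𝕜) : vcR 𝕜 P (C c) = algebraMap 𝕜 (VcB 𝕜 P) c :=
  (Algebra.TensorProduct.includeRight : AA 𝕜 P →ₐ[𝕜] VcB 𝕜 P).commutes c

theorem vc_exJ (φ ψ : AA 𝕜 P →+* LS (VcB 𝕜 P))
    (hφ : ∀ c, φ (C c) = HahnSeries.C (algebraMap 𝕜 (VcB 𝕜 P) c))
    (hψ : ∀ c, ψ (C c) = HahnSeries.C (algebraMap 𝕜 (VcB 𝕜 P) c)) :
    ∃ J : VcB 𝕜 P →+* LS (VcB 𝕜 P), ∀ p q, J (p ⊗ₜ q) = φ p * ψ q := by
  let _ : Algebra 𝕜 (LS (VcB 𝕜 P)) := (HahnSeries.C.comp (algebraMap 𝕜 (VcB 𝕜 P))).toAlgebra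
  let φ' : AA 𝕜 P →ₐ[𝕜] LS (VcB 𝕜 P) := { φ with commutes' := fun c => hφ c }
  let ψ' : AA 𝕜 P →ₐ[𝕜] LS (VcB 𝕜 P) := { ψ with commutes' := fun c => hψ c }
  exact ⟨(Algebra.TensorProduct.productMap φ' ψ').toRingHom, fun _ _ => rfl⟩

variable (𝕜) in
/-- positions in the three expansions -/
def vcPos (a : P) (T Z : Finset P) (b : P) : T3 (VcB 𝕜 P) :=
  if b = a then y3 _ else if b ∈ T then z3 _ + c3 (VcB 𝕜 P) (X b ⊗ₜ 1) else
    if b ∈ Z then c3 (VcB 𝕜 P) (1 ⊗ₜ X b) else 0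

variable (𝕜 P) in
/-- the constants in the three expansions -/
abbrev vcC3 : 𝕜 →+* T3 (VcB 𝕜 P) := (c3 _).comp (algebraMap 𝕜 (VcB 𝕜 P))

variable (𝕜 P) in
/-- the constants in one expansion -/
abbrev vcC2 : 𝕜 →+* LS (LS (VcB 𝕜 P)) := (cc2 _).comp (algebraMap 𝕜 (VcB 𝕜 P))

variable {a : P} {T Z : Finset P}

theorem vcPos_a : vcPos 𝕜 a T Z a = y3 _ := if_pos rfl

theorem vcPos_T (ha : a ∉ T) {b : P} (hb : b ∈ T) :
    vcPos 𝕜 a T Z b = z3 _ + c3 (VcB 𝕜 P) (X b ⊗ₜ 1) := by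
  rw [vcPos, if_neg (ne_of_mem_of_not_mem hb ha), if_pos hb]

theorem vcPos_Z (ha : a ∉ Z) (hd : Disjoint T Z) {b : P} (hb : b ∈ Z) :
    vcPos 𝕜 a T Z b = c3 (VcB 𝕜 P) (1 ⊗ₜ X b) := by
  rw [vcPos, if_neg (ne_of_mem_of_not_mem hb ha), if_neg (disjoint_right.1 hd hb), if_pos hb]

theorem vcPos_0 {b : P} (h1 : b ≠ a) (h2 : b ∉ T) (h3 : b ∉ Z) : vcPos 𝕜 a T Z b = 0 := by
  rw [vcPos, if_neg h1, if_neg h2, if_neg h3]

theorem vcN_aT (ha : a ∉ T) : ∀ x ∈ ({a} : Finset P), ∀ b ∈ T, ∀ c,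
    VcN (vcPos 𝕜 a T Z x - vcPos 𝕜 a T Z b + vcC3 𝕜 P c) := by
  intro x hx b hb c
  rw [mem_singleton.1 hx, vcPos_a, vcPos_T ha hb, RingHom.comp_apply]
  convert vc_yz (algebraMap 𝕜 (VcB 𝕜 P) c - (X b ⊗ₜ 1) : VcB 𝕜 P) using 1
  rw [map_sub]; ring

theorem vcN_aZ (ha : a ∉ Z) (hd : Disjoint T Z) : ∀ x ∈ ({a} : Finset P), ∀ b ∈ Z, ∀ c,
    VcN (vcPos 𝕜 a T Z x - vcPos 𝕜 a T Z b + vcC3 𝕜 P c) := by
  intro x hx b hb c
  rw [mem_singleton.1 hx, vcPos_a, vcPos_Z ha hd hb, RingHom.comp_apply]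
  convert vc_y (algebraMap 𝕜 (VcB 𝕜 P) c - (1 ⊗ₜ X b) : VcB 𝕜 P) using 1
  rw [map_sub]; ring

theorem vcN_TZ (ha : a ∉ T) (ha' : a ∉ Z) (hd : Disjoint T Z) : ∀ x ∈ T, ∀ b ∈ Z, ∀ c,
    VcN (vcPos 𝕜 a T Z x - vcPos 𝕜 a T Z b + vcC3 𝕜 P c) := by
  intro x hx b hb c
  rw [vcPos_T ha hx, vcPos_Z ha' hd hb, RingHom.comp_apply]
  convert vc_z (X x ⊗ₜ 1 - 1 ⊗ₜ X b + algebraMap 𝕜 (VcB 𝕜 P) c : VcB 𝕜 P) using 1
  rw [map_add, map_sub]; ring

theorem vcPos_mem (b : P) : vcPos 𝕜 a T Z b ∈ R3 (VcB 𝕜 P) := by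
  unfold vcPos
  split_ifs
  · exact vc_y_mem
  · exact add_mem vc_z_mem (vc_c_mem _)
  · exact vc_c_mem _
  · exact zero_mem _

theorem vc_unit_E (ha : a ∉ Z) : ∀ x ∈ ({a} : Finset P), ∀ b ∈ Z, ∀ c,
    IsUnit (posE 𝕜 a Z x - posE 𝕜 a Z b + (HahnSeries.C.comp (algebraMap 𝕜 (AA 𝕜 P))) c) := by
  intro x hx b hb c
  rw [mem_singleton.1 hx, posE, if_pos rfl, posE, if_neg (ne_of_mem_of_not_mem hb ha), if_pos hb]
  exact vc_unit_sub _ _

theorem vc_unit_S (hd : Disjoint T Z) : ∀ x ∈ T, ∀ b ∈ Z, ∀ c,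
    IsUnit (posS 𝕜 T Z x - posS 𝕜 T Z b + (HahnSeries.C.comp (algebraMap 𝕜 (VcB 𝕜 P))) c) := by
  intro x hx b hb c
  rw [posS, if_pos hx, posS, if_neg (disjoint_right.1 hd hb), if_pos hb]
  exact vc_unit_sub' _ _ _

end Pos

namespace VD

variable {P : Type} [Fintype P] [DecidableEq P] (V : VD 𝕜 P)

theorem vc_KK_mem {B : Type} [CommRing B] (φ : 𝕜 →+* T3 B) {T Z : Finset P} {pos : P → T3 B}
    (h : ∀ x ∈ T, ∀ b ∈ Z, ∀ c, VcN (pos x - pos b + φ c)) : V.KK φ T Z pos ∈ R3 B :=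
  V.KK_mem φ (fun x hx b hb => by simpa using (h x hx b hb 0).2.1)
    fun x hx b hb c => (h x hx b hb c).2.2

theorem vc_KK_sub {B : Type} [CommRing B] (φ : 𝕜 →+* B) {T Z : Finset P} {pos pos' : P → B}
    (h : ∀ x ∈ T, ∀ b ∈ Z, pos x - pos b = pos' x - pos' b) : V.KK φ T Z pos = V.KK φ T Z pos' :=
  prod_congr rfl fun x hx => prod_congr rfl fun b hb => by
    rw [← neg_sub (pos x), ← neg_sub (pos' x), h x hx b hb]

/-- the rational function in its three expansions -/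
def vcG (a : P) (T Z : Finset P) (f : AA 𝕜 P) : T3 (VcB 𝕜 P) :=
  eval₂Hom (vcC3 𝕜 P) (vcPos 𝕜 a T Z) f *
    (V.KK (vcC3 𝕜 P) {a} T (vcPos 𝕜 a T Z) * V.KK (vcC3 𝕜 P) {a} Z (vcPos 𝕜 a T Z) *
      V.KK (vcC3 𝕜 P) T Z (vcPos 𝕜 a T Z))

section G

variable {a : P} {T Z : Finset P} (ha : a ∉ T) (ha' : a ∉ Z) (hd : Disjoint T Z)

include ha ha' hd

theorem vcG_mem (f : AA 𝕜 P) : V.vcG a T Z f ∈ R3 (VcB 𝕜 P) := by
  refine mul_mem ?_ (mul_mem (mul_mem (V.vc_KK_mem _ (vcN_aT ha)) (V.vc_KK_mem _ (vcN_aZ ha' hd)))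
    (V.vc_KK_mem _ (vcN_TZ ha ha' hd)))
  induction f using MvPolynomial.induction_on with
  | C c => rw [eval₂Hom_C]; exact vc_c_mem _
  | add p q hp hq => rw [map_add]; exact add_mem hp hq
  | mul_X p b hp => rw [map_mul, eval₂Hom_X']; exact mul_mem hp (vcPos_mem b)

theorem vcG_map (π : T3 (VcB 𝕜 P) →+* LS (LS (VcB 𝕜 P))) (hπ : π.comp (c3 _) = cc2 _) (f : AA 𝕜 P)
    {pos : P → LS (LS (VcB 𝕜 P))} (h : ∀ b, pos b = π (vcPos 𝕜 a T Z b)) :
    π (V.vcG a T Z f) = eval₂Hom (vcC2 𝕜 P) pos f *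
      (V.KK (vcC2 𝕜 P) {a} T pos * V.KK (vcC2 𝕜 P) {a} Z pos * V.KK (vcC2 𝕜 P) T Z pos) := by
  obtain rfl : pos = fun b => π (vcPos 𝕜 a T Z b) := funext h
  rw [vcG, map_mul, map_mul, map_mul, map_eval₂Hom,
    V.map_KK π _ fun x hx b hb c => (vcN_aT ha x hx b hb c).1,
    V.map_KK π _ fun x hx b hb c => (vcN_aZ ha' hd x hx b hb c).1,
    V.map_KK π _ fun x hx b hb c => (vcN_TZ ha ha' hd x hx b hb c).1, ← RingHom.comp_assoc, hπ]

theorem vc_one (i m : ℤ) (f : AA 𝕜 P) : V.DP T Z m (V.eP a (T ∪ Z) i f) =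
    ((V.vcG a T Z f).1.coeff (i + 1)).coeff (m + 1) := by
  have hU : a ∉ T ∪ Z := by simp [ha, ha']
  set ev : AA 𝕜 P →+* LS (VcB 𝕜 P) :=
    eval₂Hom (HahnSeries.C.comp (algebraMap 𝕜 (VcB 𝕜 P))) (posS 𝕜 T Z) with hev
  have hT : ∀ b ∈ T, HahnSeries.C (posS 𝕜 T Z b) = vcP1 _ (vcPos 𝕜 a T Z b) := fun b hb => by
    rw [vcPos_T ha hb, posS, if_pos hb, map_add]; rfl
  have hZ : ∀ b ∈ Z, HahnSeries.C (posS 𝕜 T Z b) = vcP1 _ (vcPos 𝕜 a T Z b) := fun b hb => by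
    rw [vcPos_Z ha' hd hb, posS, if_neg (disjoint_right.1 hd hb), if_pos hb]; rfl
  have hp : ∀ b, hmap ℤ ev (posE 𝕜 a (T ∪ Z) b) = vcP1 _ (vcPos 𝕜 a T Z b) := by
    intro b
    unfold posE
    split_ifs with h1 h2
    · rw [h1, vcPos_a, hmap_lv]; rfl
    · rw [hmap_C, hev, eval₂Hom_X']
      exact (mem_union.1 h2).elim (hT b) (hZ b)
    · rw [vcPos_0 h1 (fun h => h2 (mem_union_left _ h)) (fun h => h2 (mem_union_right _ h)),
        map_zero, map_zero]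
  have hc : (hmap ℤ ev).comp (HahnSeries.C.comp (algebraMap 𝕜 (AA 𝕜 P))) =
      vcC2 𝕜 P := RingHom.ext fun c => by
    simp only [RingHom.comp_apply, hmap_C, algebraMap_eq, hev, eval₂Hom_C]; rfl
  have e := V.vcG_map ha ha' hd (vcP1 _) rfl f hp
  have hc' : (HahnSeries.C : LS (VcB 𝕜 P) →+* LS (LS (VcB 𝕜 P))).comp
      (HahnSeries.C.comp (algebraMap 𝕜 (VcB 𝕜 P))) = vcC2 𝕜 P := rfl
  rw [DP, cf_apply, eP, cf_apply, vc_cf2 ev, map_mul, map_eval₂Hom, V.map_KK _ _ (vc_unit_E hU), hc,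
    V.map_KK (HahnSeries.C : LS (VcB 𝕜 P) →+* LS (LS (VcB 𝕜 P))) _ (vc_unit_S hd), hc',
    V.KK_union _ _ hd,
    V.KK_congr _ (T := T) (Z := Z) (fun b hb => (hT b hb).trans (hp b).symm)
      (fun b hb => (hZ b hb).trans (hp b).symm), mul_assoc, ← e]
  rfl

theorem vc_two (i m : ℤ) (f : AA 𝕜 P) : (V.eP a Z i).lTensor (AA 𝕜 P) (V.DP T (insert a Z) m f) =
    ((V.vcG a T Z f).2.1.coeff (m + 1)).coeff (i + 1) := by
  have hd' : Disjoint T (insert a Z) := disjoint_insert_right.2 ⟨ha, hd⟩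
  obtain ⟨J, hJ⟩ := vc_exJ (HahnSeries.C.comp (vcL 𝕜 P)) ((hmap ℤ (vcR 𝕜 P)).comp
    (eval₂Hom (HahnSeries.C.comp (algebraMap 𝕜 (AA 𝕜 P))) (posE 𝕜 a Z))) (fun c => rfl) (fun c => by
      simp only [RingHom.comp_apply, eval₂Hom_C, hmap_C, algebraMap_eq, vcR_C])
  have hl : ∀ t, (V.eP a Z i).lTensor (AA 𝕜 P) t =
      (J t * hmap ℤ (vcR 𝕜 P) (V.KK (HahnSeries.C.comp (algebraMap 𝕜 (AA 𝕜 P))) {a} Z
        (posE 𝕜 a Z))).coeff (i + 1) := by
    intro t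
    induction t using TensorProduct.induction_on with
    | zero => simp
    | tmul p q =>
      rw [LinearMap.lTensor_tmul, hJ, eP, cf_apply, RingHom.comp_apply, RingHom.comp_apply, mul_assoc,
        ← map_mul, coeff_C_mul', hmap_coeff, vcL_apply, vcR_apply, Algebra.TensorProduct.tmul_mul_tmul,
        mul_one, one_mul]
    | add s t hs ht => rw [map_add, map_add, add_mul, HahnSeries.coeff_add, hs, ht]
  have hA : HahnSeries.C (hmap ℤ (vcR 𝕜 P) (posE 𝕜 a Z a)) = vcP2 _ (vcPos 𝕜 a T Z a) := by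
    rw [vcPos_a, posE, if_pos rfl, hmap_lv]; rfl
  have hZ : ∀ b ∈ Z, HahnSeries.C (hmap ℤ (vcR 𝕜 P) (posE 𝕜 a Z b)) = vcP2 _ (vcPos 𝕜 a T Z b) :=
    fun b hb => by
      rw [vcPos_Z ha' hd hb, posE, if_neg (ne_of_mem_of_not_mem hb ha'), if_pos hb, hmap_C]; rfl
  have hp : ∀ b, hmap ℤ J (posS 𝕜 T (insert a Z) b) = vcP2 _ (vcPos 𝕜 a T Z b) := by
    intro b
    unfold posS
    split_ifs with h1 h2
    · rw [vcPos_T ha h1, map_add, hmap_lv, hmap_C, hJ, map_one, mul_one]; rfl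
    · rw [hmap_C, hJ, map_one, one_mul, RingHom.comp_apply, eval₂Hom_X']
      rcases mem_insert.1 h2 with rfl | h3
      · exact hA
      · exact hZ b h3
    · rw [vcPos_0 (fun h => h2 (mem_insert.2 (Or.inl h))) h1 (fun h => h2 (mem_insert_of_mem h)),
        map_zero, map_zero]
  have hc : (hmap ℤ J).comp (HahnSeries.C.comp (algebraMap 𝕜 (VcB 𝕜 P))) =
      vcC2 𝕜 P := RingHom.ext fun c => by
    simp only [RingHom.comp_apply, hmap_C]
    rw [← vcL_C, vcL_apply, hJ, map_one, mul_one]; rfl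
  have e := V.vcG_map ha ha' hd (vcP2 _) rfl f hp
  have hc' : ((HahnSeries.C : LS (VcB 𝕜 P) →+* LS (LS (VcB 𝕜 P))).comp (hmap ℤ (vcR 𝕜 P))).comp
      (HahnSeries.C.comp (algebraMap 𝕜 (AA 𝕜 P))) = vcC2 𝕜 P := RingHom.ext fun c => by
    simp only [RingHom.comp_apply, hmap_C, algebraMap_eq, vcR_C]; rfl
  have hK : HahnSeries.C (hmap ℤ (vcR 𝕜 P)
      (V.KK (HahnSeries.C.comp (algebraMap 𝕜 (AA 𝕜 P))) {a} Z (posE 𝕜 a Z))) =
      V.KK (vcC2 𝕜 P) {a} Z fun b => hmap ℤ J (posS 𝕜 T (insert a Z) b) := by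
    rw [← RingHom.comp_apply, V.map_KK _ _ (vc_unit_E ha'), hc']
    exact V.KK_congr _ (fun b hb => by rw [mem_singleton.1 hb]; exact hA.trans (hp a).symm)
      (fun b hb => (hZ b hb).trans (hp b).symm)
  rw [hl, DP, cf_apply, vc_cf2 J, map_mul, map_eval₂Hom, V.map_KK _ _ (vc_unit_S hd'), hc, hK]
  have e' : (V.vcG a T Z f).2.1 = _ := e
  rw [e', insert_eq a Z, V.KK_union _ _ (disjoint_singleton_left.2 ha'), V.KK_comm _ T {a}]
  congr 2
  ring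

theorem vc_thr (j m : ℤ) (f : AA 𝕜 P) : (V.eP a T j).rTensor (AA 𝕜 P) (V.DP (insert a T) Z m f) =
    ((V.vcG a T Z f).2.2.coeff (m + 1)).coeff (j + 1) := by
  have hd' : Disjoint (insert a T) Z := disjoint_insert_left.2 ⟨ha', hd⟩
  obtain ⟨J, hJ⟩ := vc_exJ ((hmap ℤ (vcL 𝕜 P)).comp
    (eval₂Hom (HahnSeries.C.comp (algebraMap 𝕜 (AA 𝕜 P))) (posE 𝕜 a T))) (HahnSeries.C.comp (vcR 𝕜 P))
    (fun c => by simp only [RingHom.comp_apply, eval₂Hom_C, hmap_C, algebraMap_eq, vcL_C])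
    (fun c => by rw [RingHom.comp_apply, vcR_C])
  have hl : ∀ t, (V.eP a T j).rTensor (AA 𝕜 P) t =
      (J t * hmap ℤ (vcL 𝕜 P) (V.KK (HahnSeries.C.comp (algebraMap 𝕜 (AA 𝕜 P))) {a} T
        (posE 𝕜 a T))).coeff (j + 1) := by
    intro t
    induction t using TensorProduct.induction_on with
    | zero => simp
    | tmul p q =>
      rw [LinearMap.rTensor_tmul, hJ, eP, cf_apply, RingHom.comp_apply, RingHom.comp_apply,
        mul_right_comm, ← map_mul, mul_comm (hmap _ _ _), coeff_C_mul', hmap_coeff, vcL_apply,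
        vcR_apply, Algebra.TensorProduct.tmul_mul_tmul, mul_one, one_mul]
    | add s t hs ht => rw [map_add, map_add, add_mul, HahnSeries.coeff_add, hs, ht]
  have hA : vo _ + HahnSeries.C (hmap ℤ (vcL 𝕜 P) (posE 𝕜 a T a)) = vcP3 _ (vcPos 𝕜 a T Z a) := by
    rw [vcPos_a, posE, if_pos rfl, hmap_lv, add_comm]; rfl
  have hT : ∀ b ∈ T, vo _ + HahnSeries.C (hmap ℤ (vcL 𝕜 P) (posE 𝕜 a T b)) = vcP3 _ (vcPos 𝕜 a T Z b) :=
    fun b hb => by
      rw [vcPos_T ha hb, posE, if_neg (ne_of_mem_of_not_mem hb ha), if_pos hb, hmap_C]; rfl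
  have hp : ∀ b, hmap ℤ J (posS 𝕜 (insert a T) Z b) = vcP3 _ (vcPos 𝕜 a T Z b) := by
    intro b
    unfold posS
    split_ifs with h1 h2
    · rw [map_add, hmap_lv, hmap_C, hJ, map_one, mul_one, RingHom.comp_apply, eval₂Hom_X']
      rcases mem_insert.1 h1 with rfl | h3
      · exact hA
      · exact hT b h3
    · rw [vcPos_Z ha' hd h2, hmap_C, hJ, map_one, one_mul]; rfl
    · rw [vcPos_0 (fun h => h1 (mem_insert.2 (Or.inl h))) (fun h => h1 (mem_insert_of_mem h)) h2,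
        map_zero, map_zero]
  have hc : (hmap ℤ J).comp (HahnSeries.C.comp (algebraMap 𝕜 (VcB 𝕜 P))) =
      vcC2 𝕜 P := RingHom.ext fun c => by
    simp only [RingHom.comp_apply, hmap_C]
    rw [← vcR_C, vcR_apply, hJ, map_one, one_mul]; rfl
  have e := V.vcG_map ha ha' hd (vcP3 _) rfl f hp
  have hc' : ((HahnSeries.C : LS (VcB 𝕜 P) →+* LS (LS (VcB 𝕜 P))).comp (hmap ℤ (vcL 𝕜 P))).comp
      (HahnSeries.C.comp (algebraMap 𝕜 (AA 𝕜 P))) = vcC2 𝕜 P := RingHom.ext fun c => by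
    simp only [RingHom.comp_apply, hmap_C, algebraMap_eq, vcL_C]; rfl
  have hK : HahnSeries.C (hmap ℤ (vcL 𝕜 P)
      (V.KK (HahnSeries.C.comp (algebraMap 𝕜 (AA 𝕜 P))) {a} T (posE 𝕜 a T))) =
      V.KK (vcC2 𝕜 P) {a} T fun b => hmap ℤ J (posS 𝕜 (insert a T) Z b) := by
    rw [← RingHom.comp_apply, V.map_KK _ _ (vc_unit_E ha), hc']
    refine V.vc_KK_sub _ fun x hx b hb => ?_
    rw [mem_singleton.1 hx, hp, hp, ← hA, ← hT b hb, add_sub_add_left_eq_sub]; rfl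
  rw [hl, DP, cf_apply, vc_cf2 J, map_mul, map_eval₂Hom, V.map_KK _ _ (vc_unit_S hd'), hc, hK]
  have e' : (V.vcG a T Z f).2.2 = _ := e
  rw [e', V.KK_comm _ (insert a T), insert_eq a T, V.KK_union _ _ (disjoint_singleton_left.2 ha),
    V.KK_comm _ Z {a}, V.KK_comm _ Z T]
  congr 2
  ring

end G

/-- contraction of the first factor -/
def vcl (α : MM 𝕜 P →ₗ[𝕜] 𝕜) (T : Finset P) : VcB 𝕜 P →ₗ[𝕜] AA 𝕜 P :=
  (TensorProduct.lid 𝕜 (AA 𝕜 P)).toLinearMap ∘ₗ (cpt α T).rTensor (AA 𝕜 P)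

theorem vc_sig (j : ℤ) (α : MM 𝕜 P →ₗ[𝕜] 𝕜) (F : MM 𝕜 P) (Z : Finset P) :
    V.sig j α F Z = ∑ T ∈ univ.filter fun T => Disjoint T Z, vcl α T (V.DP T Z j (F (T ∪ Z))) :=
  V.sig_apply j α F Z

theorem vcl_comm (α : MM 𝕜 P →ₗ[𝕜] 𝕜) (T : Finset P) (e : AA 𝕜 P →ₗ[𝕜] AA 𝕜 P) (t : VcB 𝕜 P) :
    e (vcl α T t) = vcl α T (e.lTensor (AA 𝕜 P) t) := by
  induction t using TensorProduct.induction_on with
  | zero => simp
  | tmul p q => simp [vcl]
  | add s t hs ht => simp only [map_add, hs, ht]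

theorem vc_cpt (a : P) (α : MM 𝕜 P →ₗ[𝕜] 𝕜) (j : ℤ) (T : Finset P) (p : AA 𝕜 P) :
    cpt (α ∘ₗ V.eM a j) T p = if a ∈ T then cpt α (T.erase a) (V.eP a (T.erase a) j p) else 0 := by
  simp only [cpt, LinearMap.comp_apply, LinearMap.coe_single]
  split_ifs with h
  · congr 1
    funext W
    rw [eM_apply]
    by_cases hW : W = T.erase a
    · subst hW
      rw [if_neg (notMem_erase a T), insert_erase h, Pi.single_eq_same, Pi.single_eq_same]
    · rw [Pi.single_eq_of_ne hW]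
      split_ifs with h2
      · rfl
      · rw [Pi.single_eq_of_ne (fun e => hW (by rw [← e, erase_insert h2])), map_zero]
  · rw [← map_zero α]
    congr 1
    funext W
    rw [eM_apply]
    split_ifs with h2
    · rfl
    · rw [Pi.single_eq_of_ne (fun e => h (by rw [← e]; exact mem_insert_self a W)), map_zero]; rfl

theorem vcl_eM (a : P) (α : MM 𝕜 P →ₗ[𝕜] 𝕜) (j : ℤ) (T : Finset P) (t : VcB 𝕜 P) :
    vcl (α ∘ₗ V.eM a j) T t =
      if a ∈ T then vcl α (T.erase a) ((V.eP a (T.erase a) j).rTensor (AA 𝕜 P) t) else 0 := by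
  induction t using TensorProduct.induction_on with
  | zero => simp
  | tmul p q =>
    simp only [vcl, LinearMap.comp_apply, LinearMap.rTensor_tmul, vc_cpt]
    split_ifs <;> simp
  | add s t hs ht =>
    rw [map_add, hs, ht]
    split_ifs <;> simp

theorem vc_OO_mem (a : P) (α : MM 𝕜 P →ₗ[𝕜] 𝕜) (F : MM 𝕜 P) {Z : Finset P} (ha : a ∈ Z) (j : ℕ) :
    ∀ i m, V.OO a α j i m F Z = 0 := by
  induction j with
  | zero =>
    intro i m
    change V.sig m α (V.eM a i F) Z - V.eM a i (V.sig m α F) Z = 0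
    rw [eM_apply, if_pos ha, sub_zero, vc_sig]
    refine sum_eq_zero fun T _ => ?_
    rw [eM_apply, if_pos (mem_union_right _ ha), map_zero, map_zero]
  | succ j ih =>
    intro i m
    change V.OO a α j (i + 1) m F Z - V.OO a α j i (m + 1) F Z = 0
    rw [ih, ih, sub_zero]

theorem vc_OO (a : P) (α : MM 𝕜 P →ₗ[𝕜] 𝕜) (F : MM 𝕜 P) {Z : Finset P} (ha : a ∉ Z) (j : ℕ) :
    ∀ i m, V.OO a α j i m F Z = ∑ T ∈ univ.filter fun T => Disjoint T (insert a Z),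
      vcl α T (r2 (pw (vi _ + vo _) i * vi _ ^ j * pw (vo _) m *
        (V.vcG a T Z (F (insert a (T ∪ Z)))).2.2)) := by
  induction j with
  | zero =>
    intro i m
    change V.sig m α (V.eM a i F) Z - V.eM a i (V.sig m α F) Z = _
    rw [eM_apply, if_neg ha, vc_sig, vc_sig, map_sum]
    rw [← sum_subset (s₁ := univ.filter fun T => Disjoint T (insert a Z)), ← sum_sub_distrib]
    · refine sum_congr rfl fun T hT => ?_
      obtain ⟨h1, h2⟩ := disjoint_insert_right.1 (mem_filter.1 hT).2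
      rw [eM_apply, if_neg (by simp [h1, ha]), V.vc_one h1 ha h2, vcl_comm, union_insert,
        V.vc_two h1 ha h2, ← map_sub, vc_three (V.vcG_mem h1 ha h2 _), pow_zero, mul_one]
    · intro T hT
      exact mem_filter.2 ⟨mem_univ _, (disjoint_insert_right.1 (mem_filter.1 hT).2).2⟩
    · intro T hT hT'
      have : a ∈ T := by
        by_contra h
        exact hT' (mem_filter.2 ⟨mem_univ _, disjoint_insert_right.2 ⟨h, (mem_filter.1 hT).2⟩⟩)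
      rw [eM_apply, if_pos (mem_union_left _ this), map_zero, map_zero]
  | succ j ih =>
    intro i m
    change V.OO a α j (i + 1) m F Z - V.OO a α j i (m + 1) F Z = _
    rw [ih, ih, ← sum_sub_distrib]
    refine sum_congr rfl fun T _ => ?_
    have h1 : IsUnit (vi (VcB 𝕜 P) + vo _) := by rw [add_comm]; exact vc_uo _
    have h2 : IsUnit (vo (VcB 𝕜 P)) := vc_unit_lv
    rw [← map_sub, ← vc_r2_sub, pw_succ h1, pw_succ h2]
    congr 2
    ring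

theorem OO_eq (a : P) (α : MM 𝕜 P →ₗ[𝕜] 𝕜) (j : ℕ) (m : ℤ) :
    V.OO a α j 0 m = V.sig m (α ∘ₗ V.eM a j) := by
  refine LinearMap.ext fun F => funext fun Z => ?_
  rw [vc_sig]
  by_cases ha : a ∈ Z
  · rw [V.vc_OO_mem a α F ha]
    refine (sum_eq_zero fun T hT => ?_).symm
    rw [vcl_eM, if_neg (disjoint_right.1 (mem_filter.1 hT).2 ha)]
  · rw [V.vc_OO a α F ha]
    simp only [vcl_eM]
    rw [← sum_filter]
    refine sum_nbij' (fun T => insert a T) (fun T => T.erase a) (fun T hT => ?_) (fun T hT => ?_)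
      (fun T hT => ?_) (fun T hT => ?_) (fun T hT => ?_)
    · obtain ⟨_, h2⟩ := disjoint_insert_right.1 (mem_filter.1 hT).2
      exact mem_filter.2 ⟨mem_filter.2 ⟨mem_univ _, disjoint_insert_left.2 ⟨ha, h2⟩⟩,
        mem_insert_self _ _⟩
    · exact mem_filter.2 ⟨mem_univ _, disjoint_insert_right.2 ⟨notMem_erase _ _,
        (mem_filter.1 (mem_filter.1 hT).1).2.mono_left (erase_subset _ _)⟩⟩
    · exact erase_insert (disjoint_insert_right.1 (mem_filter.1 hT).2).1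
    · exact insert_erase (mem_filter.1 hT).2
    · obtain ⟨h1, h2⟩ := disjoint_insert_right.1 (mem_filter.1 hT).2
      rw [erase_insert h1, V.vc_thr h1 ha h2, insert_union, ← vc_r2, pw_zero, one_mul,
        mul_comm (pw (vo _) m)]
      simp [pw]

theorem OO_vanish (a : P) (α : MM 𝕜 P →ₗ[𝕜] 𝕜) (F : MM 𝕜 P) :
    ∃ L : ℤ, ∀ j i m, i + m ≤ L → V.OO a α j i m F = 0 := by
  choose n hn using fun p : Finset P × Finset P =>
    exists_ge (V.vcG a p.1 p.2 (F (insert a (p.1 ∪ p.2)))).2.2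
  obtain ⟨N, hN⟩ := (Set.finite_range n).bddBelow
  refine ⟨N - 2, fun j i m h => funext fun Z => ?_⟩
  by_cases ha : a ∈ Z
  · exact V.vc_OO_mem a α F ha j i m
  · rw [V.vc_OO a α F ha]
    refine sum_eq_zero fun T _ => ?_
    rw [vc_vanish ((hn (T, Z)).mono (hN ⟨_, rfl⟩)) j h, map_zero]

end VD

end Pool.Agent.Work.MP_849ab0_ag.W
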