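import Pool.Agent.Work.MP_849ab0_ag.Grade

-- merged part: Pool.Agent.Work.MP_849ab0_ag.WDefs
section
/-! Point removing operators and the products of functionals (a lattice vertex algebra
with one colour per point). -/

noncomputable section

set_option linter.unusedSectionVars false

namespace Pool.Agent.Work.MP_849ab0_ag.W

variable {𝕜 : Type} [CommRing 𝕜]

open MvPolynomial Finset

open scoped TensorProduct

/-- orders of zeros and poles of the pair kernel -/
structure VD (𝕜 P : Type) where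
  pp : P → P → ℕ
  rr : P → P → Multiset 𝕜

/-- polynomials in all points -/
abbrev AA (𝕜 P : Type) [CommRing 𝕜] : Type := MvPolynomial P 𝕜

/-- one polynomial for each set of points -/
abbrev MM (𝕜 P : Type) [CommRing 𝕜] : Type := Finset P → AA 𝕜 P

variable {P : Type} [Fintype P] [DecidableEq P]

variable (𝕜) in
/-- evaluation of the constant term at the label `S` -/
def phi (S : Finset P) : MM 𝕜 P →ₗ[𝕜] 𝕜 := (lcoeff 𝕜 0).comp (LinearMap.proj S)

variable (𝕜) in
/-- kill the variables outside the label -/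
def JK : MM 𝕜 P →ₗ[𝕜] MM 𝕜 P :=
  LinearMap.pi fun S => (aeval fun b => if b ∈ S then X b else 0 : AA 𝕜 P →ₐ[𝕜] AA 𝕜 P).toLinearMap.comp
    (LinearMap.proj S)

/-- the component of a functional at the label `S` -/
def cpt {T : Type} [AddCommMonoid T] [Module 𝕜 T] (α : MM 𝕜 P →ₗ[𝕜] T) (S : Finset P) :
    AA 𝕜 P →ₗ[𝕜] T := α.comp (LinearMap.single 𝕜 (fun _ => AA 𝕜 P) S)

/-- `f ↦ coeff j (f(pos) * K)` -/
def cf {B : Type} [CommRing B] [Algebra 𝕜 B] (pos : P → LS B) (K : LS B) (j : ℤ) :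
    AA 𝕜 P →ₗ[𝕜] B where
  toFun f := (eval₂Hom (HahnSeries.C.comp (algebraMap 𝕜 B)) pos f * K).coeff j
  map_add' f g := by simp [add_mul]
  map_smul' c f := by
    rw [smul_eq_C_mul, map_mul, eval₂Hom_C, mul_assoc, RingHom.comp_apply, coeff_C_mul',
      Algebra.smul_def]; rfl

theorem cf_apply {B : Type} [CommRing B] [Algebra 𝕜 B] (pos : P → LS B) (K : LS B) (j : ℤ)
    (f : AA 𝕜 P) :
    cf pos K j f = (eval₂Hom (HahnSeries.C.comp (algebraMap 𝕜 B)) pos f * K).coeff j := rfl

variable (𝕜) in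
/-- one point at the large variable -/
def posE (a : P) (Z : Finset P) (b : P) : LS (AA 𝕜 P) :=
  if b = a then lv _ else if b ∈ Z then HahnSeries.C (X b) else 0

variable (𝕜) in
/-- a cluster translated by the large variable -/
def posS (T Z : Finset P) (b : P) : LS (AA 𝕜 P ⊗[𝕜] AA 𝕜 P) :=
  if b ∈ T then lv _ + HahnSeries.C (X b ⊗ₜ 1) else if b ∈ Z then HahnSeries.C (1 ⊗ₜ X b) else 0

namespace VD

variable (V : VD 𝕜 P)

/-- pair kernel -/
def kap {B : Type} [CommRing B] (φ : 𝕜 →+* B) (a b : P) (u : B) : B :=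
  u ^ V.pp a b * ((V.rr a b).map fun c => Ring.inverse (u + φ c)).prod

/-- cross kernel of two sets of points -/
def KK {B : Type} [CommRing B] (φ : 𝕜 →+* B) (T Z : Finset P) (pos : P → B) : B :=
  ∏ a ∈ T, ∏ b ∈ Z, V.kap φ a b (pos a - pos b) * V.kap φ b a (pos b - pos a)

/-- kernel of a set of points -/
def KS {B : Type} [CommRing B] (φ : 𝕜 →+* B) (S : Finset P) (pos : P → B) : B :=
  ∏ a ∈ S, ∏ b ∈ S.erase a, V.kap φ a b (pos a - pos b)

theorem map_kap {B B' : Type} [CommRing B] [CommRing B'] (ψ : B →+* B') (φ : 𝕜 →+* B) {a b : P}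
    {u : B} (h : ∀ c ∈ V.rr a b, IsUnit (u + φ c)) :
    ψ (V.kap φ a b u) = V.kap (ψ.comp φ) a b (ψ u) := by
  rw [kap, kap, map_mul, map_pow, map_multiset_prod, Multiset.map_map]
  refine congrArg _ (congrArg _ (Multiset.map_congr rfl fun c hc => ?_))
  rw [Function.comp_apply, map_inverse ψ (h c hc), map_add, RingHom.comp_apply]

theorem kap_mem {B : Type} [CommRing B] {S : Subring B} (φ : 𝕜 →+* B) {a b : P} {u : B}
    (hu : u ∈ S) (h : ∀ c, Ring.inverse (u + φ c) ∈ S) : V.kap φ a b u ∈ S :=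
  mul_mem (pow_mem hu _) (multiset_prod_mem _ fun x hx => by
    obtain ⟨c, -, rfl⟩ := Multiset.mem_map.1 hx
    exact h c)

omit V in
theorem neg_form {B : Type} [CommRing B] (φ : 𝕜 →+* B) (x y : B) (c : 𝕜) :
    y - x + φ c = -(x - y + φ (-c)) := by rw [map_neg]; ring

theorem KK_mem {B : Type} [CommRing B] {S : Subring B} (φ : 𝕜 →+* B) {T Z : Finset P}
    {pos : P → B} (hu : ∀ a ∈ T, ∀ b ∈ Z, pos a - pos b ∈ S)
    (h : ∀ a ∈ T, ∀ b ∈ Z, ∀ c, Ring.inverse (pos a - pos b + φ c) ∈ S) : V.KK φ T Z pos ∈ S :=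
  prod_mem fun a ha => prod_mem fun b hb => mul_mem (V.kap_mem φ (hu a ha b hb) (h a ha b hb))
    (V.kap_mem φ (by rw [← neg_sub]; exact neg_mem (hu a ha b hb)) fun c => by
      rw [neg_form, inverse_neg']; exact neg_mem (h a ha b hb _))

theorem map_KK {B B' : Type} [CommRing B] [CommRing B'] (ψ : B →+* B') (φ : 𝕜 →+* B)
    {T Z : Finset P} {pos : P → B} (h : ∀ a ∈ T, ∀ b ∈ Z, ∀ c, IsUnit (pos a - pos b + φ c)) :
    ψ (V.KK φ T Z pos) = V.KK (ψ.comp φ) T Z (fun b => ψ (pos b)) := by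
  simp only [KK, map_prod, map_mul]
  refine prod_congr rfl fun a ha => prod_congr rfl fun b hb => ?_
  rw [V.map_kap ψ φ fun c _ => h a ha b hb c,
    V.map_kap ψ φ fun c _ => by rw [neg_form]; exact (h a ha b hb _).neg, map_sub, map_sub]

theorem KK_congr {B : Type} [CommRing B] (φ : 𝕜 →+* B) {T Z : Finset P} {pos pos' : P → B}
    (h1 : ∀ a ∈ T, pos a = pos' a) (h2 : ∀ a ∈ Z, pos a = pos' a) :
    V.KK φ T Z pos = V.KK φ T Z pos' :=
  prod_congr rfl fun a ha => prod_congr rfl fun b hb => by rw [h1 a ha, h2 b hb]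

theorem KK_comm {B : Type} [CommRing B] (φ : 𝕜 →+* B) (T Z : Finset P) (pos : P → B) :
    V.KK φ T Z pos = V.KK φ Z T pos := by
  unfold KK; rw [prod_comm]; simp only [mul_comm]

theorem KK_union {B : Type} [CommRing B] (φ : 𝕜 →+* B) (T : Finset P) {Z Z' : Finset P}
    (h : Disjoint Z Z') (pos : P → B) :
    V.KK φ T (Z ∪ Z') pos = V.KK φ T Z pos * V.KK φ T Z' pos := by
  unfold KK; rw [← prod_mul_distrib]
  exact prod_congr rfl fun a _ => prod_union h

theorem KS_insert {B : Type} [CommRing B] (φ : 𝕜 →+* B) {a : P} {S : Finset P} (h : a ∉ S)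
    (pos : P → B) : V.KS φ (insert a S) pos = V.KS φ S pos * V.KK φ {a} S pos := by
  unfold KS KK
  have : ∀ x ∈ S, ∏ b ∈ (insert a S).erase x, V.kap φ x b (pos x - pos b) =
      V.kap φ x a (pos x - pos a) * ∏ b ∈ S.erase x, V.kap φ x b (pos x - pos b) := by
    intro x hx
    rw [erase_insert_of_ne (fun e : a = x => h (e ▸ hx)), prod_insert fun e => h (mem_of_mem_erase e)]
  rw [prod_insert h, erase_insert h, prod_singleton, prod_mul_distrib, prod_congr rfl this,
    prod_mul_distrib]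
  ring

/-- remove the point `a` -/
def eP (a : P) (Z : Finset P) (j : ℤ) : AA 𝕜 P →ₗ[𝕜] AA 𝕜 P :=
  cf (posE 𝕜 a Z) (V.KK (HahnSeries.C.comp (algebraMap 𝕜 _)) {a} Z (posE 𝕜 a Z)) (j + 1)

/-- the mode `e_{a, j}` -/
def eM (a : P) (j : ℤ) : Module.End 𝕜 (MM 𝕜 P) :=
  LinearMap.pi fun Z => if a ∈ Z then 0 else (V.eP a Z j).comp (LinearMap.proj (insert a Z))

/-- remove the cluster `T` -/
def DP (T Z : Finset P) (j : ℤ) : AA 𝕜 P →ₗ[𝕜] AA 𝕜 P ⊗[𝕜] AA 𝕜 P :=
  cf (posS 𝕜 T Z) (V.KK (HahnSeries.C.comp (algebraMap 𝕜 _)) T Z (posS 𝕜 T Z)) (j + 1)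

/-- the modes of the state `α` -/
def sig (j : ℤ) (α : MM 𝕜 P →ₗ[𝕜] 𝕜) : Module.End 𝕜 (MM 𝕜 P) :=
  LinearMap.pi fun Z => ∑ T ∈ univ.filter fun T => Disjoint T Z,
    (TensorProduct.lid 𝕜 (AA 𝕜 P)).toLinearMap ∘ₗ (cpt α T).rTensor (AA 𝕜 P) ∘ₗ V.DP T Z j ∘ₗ
      LinearMap.proj (T ∪ Z)

/-- the product of functionals with values in a commutative algebra -/
def star {T : Type} [CommRing T] [Algebra 𝕜 T] (α ψ : MM 𝕜 P →ₗ[𝕜] T) : MM 𝕜 P →ₗ[𝕜] T :=
  ∑ S : Finset P, ∑ U ∈ S.powerset, LinearMap.mul' 𝕜 T ∘ₗ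
    TensorProduct.map (cpt α U) (cpt ψ (S \ U)) ∘ₗ V.DP U (S \ U) (-1) ∘ₗ LinearMap.proj S

theorem eM_apply (a : P) (j : ℤ) (F : MM 𝕜 P) (Z : Finset P) :
    V.eM a j F Z = if a ∈ Z then 0 else V.eP a Z j (F (insert a Z)) := by
  simp only [eM, LinearMap.pi_apply]; split_ifs <;> rfl

theorem sig_apply (j : ℤ) (α : MM 𝕜 P →ₗ[𝕜] 𝕜) (F : MM 𝕜 P) (Z : Finset P) :
    V.sig j α F Z = ∑ T ∈ univ.filter fun T => Disjoint T Z,
      TensorProduct.lid 𝕜 (AA 𝕜 P) ((cpt α T).rTensor (AA 𝕜 P) (V.DP T Z j (F (T ∪ Z)))) := by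
  simp only [sig, LinearMap.pi_apply, LinearMap.sum_apply]; rfl

theorem star_apply {T : Type} [CommRing T] [Algebra 𝕜 T] (α ψ : MM 𝕜 P →ₗ[𝕜] T) (F : MM 𝕜 P) :
    V.star α ψ F = ∑ S : Finset P, ∑ U ∈ S.powerset, LinearMap.mul' 𝕜 T
      (TensorProduct.map (cpt α U) (cpt ψ (S \ U)) (V.DP U (S \ U) (-1) (F S))) := by
  simp only [star, LinearMap.sum_apply]; rfl

/-- iterated commutators computing `(z + u) ^ i u ^ j z ^ m` -/
def OO (a : P) (α : MM 𝕜 P →ₗ[𝕜] 𝕜) : ℕ → ℤ → ℤ → Module.End 𝕜 (MM 𝕜 P)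
  | 0, i, m => V.sig m α * V.eM a i - V.eM a i * V.sig m α
  | j + 1, i, m => OO a α j (i + 1) m - OO a α j i (m + 1)

/-- a word in the nonnegative modes; the head is applied first -/
def word : List (P × ℕ) → Module.End 𝕜 (MM 𝕜 P)
  | [] => 1
  | x :: L => word L * V.eM x.1 x.2

/-- the radical of `phi S₀` for words in the points of `X₀` -/
def II (X₀ : Set P) (S₀ : Finset P) : Submodule 𝕜 (MM 𝕜 P) where
  carrier := {F | ∀ L : List (P × ℕ), (∀ x ∈ L, x.1 ∈ X₀) → phi 𝕜 S₀ (V.word L F) = 0}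
  add_mem' := fun {F G} hF hG L hL => by rw [map_add, map_add, hF L hL, hG L hL, add_zero]
  zero_mem' := fun L _ => by simp
  smul_mem' := fun c F hF L hL => by rw [map_smul, map_smul, hF L hL, smul_zero]

end VD

end Pool.Agent.Work.MP_849ab0_ag.W
end
end

-- merged part: Pool.Agent.Work.MP_849ab0_ag.WBirk
section
/-! Birkhoff factorisation, abstract form, and the recursion on functionals. -/

noncomputable section

set_option linter.unusedSectionVars false

namespace Pool.Agent.Work.MP_849ab0_ag.W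

variable {𝕜 : Type} [CommRing 𝕜] [Algebra ℚ 𝕜]

open MvPolynomial Finset

theorem birk_inv (m : ℕ) :
    ((m + 1 : ℕ) : 𝕜) * algebraMap ℚ 𝕜 ((m + 1 : ℕ) : ℚ)⁻¹ = 1 := by
  rw [← map_natCast (algebraMap ℚ 𝕜), ← map_mul,
    mul_inv_cancel₀ (Nat.cast_ne_zero.2 (Nat.succ_ne_zero m)), map_one]

theorem birk_cancel {M : Type} [AddCommGroup M] [Module 𝕜 M] (N : Submodule 𝕜 M) (m : ℕ) {x : M}
    (h : ((m + 1 : ℕ) : 𝕜) • x ∈ N) : x ∈ N := by
  have := N.smul_mem (algebraMap ℚ 𝕜 ((m + 1 : ℕ) : ℚ)⁻¹) h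
  rwa [smul_smul, mul_comm, birk_inv, one_smul] at this

theorem birk_zero (m : ℕ) {x : 𝕜} (h : (m + 1) • x = 0) : x = 0 := by
  have := birk_cancel (⊥ : Submodule 𝕜 𝕜) m (x := x) (by rwa [Nat.cast_smul_eq_nsmul])
  exact this

/-- coefficients of `∏ (1 + s e)`; the head of the list is the rightmost factor -/
def gl {A : Type} [Ring A] : List A → ℕ → A
  | [], 0 => 1
  | [], _ + 1 => 0
  | _ :: L, 0 => gl L 0
  | e :: L, j + 1 => gl L (j + 1) + gl L j * e

/-- the Euler derivation -/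
def thBirk {A : Type} [Ring A] (f : PowerSeries A) : PowerSeries A :=
  PowerSeries.mk fun n => n • PowerSeries.coeff n f

theorem coeff_thBirk {A : Type} [Ring A] (f : PowerSeries A) (n : ℕ) :
    PowerSeries.coeff n (thBirk f) = n • PowerSeries.coeff n f := PowerSeries.coeff_mk _ _

theorem thBirk_mul {A : Type} [Ring A] (f g : PowerSeries A) :
    thBirk (f * g) = thBirk f * g + f * thBirk g := by
  ext n
  simp only [coeff_thBirk, map_add, PowerSeries.coeff_mul, smul_sum, ← sum_add_distrib]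
  refine sum_congr rfl fun p hp => ?_
  rw [← mem_antidiagonal.1 hp, add_smul, smul_mul_assoc, mul_smul_comm]

theorem thBirk_one {A : Type} [Ring A] : thBirk (1 : PowerSeries A) = 0 := by
  ext n
  rw [coeff_thBirk, PowerSeries.coeff_one]
  split_ifs with h <;> simp [h]

theorem coeff_zero_mul_Birk {A : Type} [Ring A] (f g : PowerSeries A) :
    PowerSeries.coeff 0 (f * g) = PowerSeries.coeff 0 f * PowerSeries.coeff 0 g := by
  simp [PowerSeries.coeff_mul]

theorem gl_zero_Birk {A : Type} [Ring A] (L : List A) : gl L 0 = 1 := by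
  induction L with
  | nil => rfl
  | cons e L ih => exact ih

theorem gl_J_Birk {A : Type} [Ring A] (J : A) (L : List A) (h : ∀ e ∈ L, e * J = e) (j : ℕ) :
    gl L (j + 1) * J = gl L (j + 1) := by
  induction L with
  | nil => simp [gl]
  | cons e L ih =>
    rw [gl, add_mul, ih fun e he => h e (List.mem_cons_of_mem _ he), mul_assoc,
      h e List.mem_cons_self]

theorem gl_cons_Birk {A : Type} [Ring A] (e : A) (L : List A) :
    PowerSeries.mk (gl (e :: L)) =
      PowerSeries.mk (gl L) * (1 + PowerSeries.X * PowerSeries.C e) := by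
  rw [mul_add, mul_one, ← mul_assoc, ← PowerSeries.X_mul, mul_assoc]
  ext n
  cases n with
  | zero =>
    rw [map_add, PowerSeries.coeff_zero_X_mul, add_zero, PowerSeries.coeff_mk,
      PowerSeries.coeff_mk, gl]
  | succ n =>
    rw [map_add, PowerSeries.coeff_succ_X_mul, PowerSeries.coeff_mul_C, PowerSeries.coeff_mk,
      PowerSeries.coeff_mk, PowerSeries.coeff_mk, gl]

theorem gl_th_Birk {A : Type} [Ring A] [Algebra 𝕜 A] (𝔫 : Submodule 𝕜 A)
    (hbr : ∀ x ∈ 𝔫, ∀ y ∈ 𝔫, x * y - y * x ∈ 𝔫) (L : List A)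
    (hL : ∀ e ∈ L, e ∈ 𝔫 ∧ e * e = 0 ∧ ∀ x ∈ 𝔫, e * x * e = 0) :
    ∃ c : PowerSeries A, PowerSeries.coeff 0 c = 0 ∧ (∀ n, PowerSeries.coeff n c ∈ 𝔫) ∧
      thBirk (PowerSeries.mk (gl L)) = PowerSeries.mk (gl L) * c := by
  induction L with
  | nil =>
    refine ⟨0, by simp, by simp, ?_⟩
    ext n
    cases n <;> simp [coeff_thBirk, gl]
  | cons e L ih =>
    obtain ⟨c, h0, h1, h2⟩ := ih fun e he => hL e (List.mem_cons_of_mem _ he)
    obtain ⟨e1, e2, e3⟩ := hL e List.mem_cons_self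
    have k1 : (PowerSeries.C e : PowerSeries A) * c * PowerSeries.C e = 0 := by
      ext n
      rw [PowerSeries.coeff_mul_C, PowerSeries.coeff_C_mul, e3 _ (h1 n), map_zero]
    have k2 : (PowerSeries.C e : PowerSeries A) * PowerSeries.C e = 0 := by
      rw [← map_mul, e2, map_zero]
    have k3 : thBirk (1 + PowerSeries.X * PowerSeries.C e : PowerSeries A) =
        PowerSeries.X * PowerSeries.C e := by
      ext n
      rw [coeff_thBirk]
      rcases n with _ | _ | n
      · simp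
      · simp [PowerSeries.coeff_one]
      · simp [PowerSeries.coeff_one, PowerSeries.coeff_X]
    refine ⟨c + PowerSeries.X * (c * PowerSeries.C e - PowerSeries.C e * c + PowerSeries.C e),
      by rw [map_add, h0, PowerSeries.coeff_zero_X_mul, add_zero], fun n => ?_, ?_⟩
    · rw [map_add]
      refine 𝔫.add_mem (h1 n) ?_
      cases n with
      | zero =>
        rw [PowerSeries.coeff_zero_X_mul]
        exact 𝔫.zero_mem
      | succ n =>
        rw [PowerSeries.coeff_succ_X_mul, map_add, map_sub, PowerSeries.coeff_mul_C,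
          PowerSeries.coeff_C_mul]
        refine 𝔫.add_mem (hbr _ (h1 n) _ e1) ?_
        rw [PowerSeries.coeff_C]
        split_ifs
        · exact e1
        · exact 𝔫.zero_mem
    · rw [gl_cons_Birk, thBirk_mul, h2, k3]
      have k4 : ∀ f : PowerSeries A, f * PowerSeries.X = PowerSeries.X * f := fun f =>
        PowerSeries.X_mul.symm
      generalize (PowerSeries.C e : PowerSeries A) = E at k1 k2
      generalize (PowerSeries.X : PowerSeries A) = x at k4
      generalize PowerSeries.mk (gl L) = g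
      have k5 : x * E * (x * (c * E - E * c + E)) =
          x * x * (E * c * E) - x * x * (E * E) * c + x * x * (E * E) := by
        rw [mul_assoc x E, ← mul_assoc E x, k4 E]
        noncomm_ring
      rw [k1, k2] at k5
      have k6 : c * (x * E) = x * (c * E) := by rw [← mul_assoc, k4 c, mul_assoc]
      have k7 : (1 + x * E) * (c + x * (c * E - E * c + E)) =
          c + x * (c * E) + x * E + x * E * (x * (c * E - E * c + E)) := by noncomm_ring
      rw [mul_assoc g (1 + x * E), k7, k5, ← k6]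
      noncomm_ring

theorem conj_Birk {A : Type} [Ring A] [Algebra 𝕜 A] (𝔫 : Submodule 𝕜 A)
    (hbr : ∀ x ∈ 𝔫, ∀ y ∈ 𝔫, x * y - y * x ∈ 𝔫) {G Wp sg : PowerSeries A}
    (hG0 : PowerSeries.coeff 0 G = 1) (hW0 : PowerSeries.coeff 0 Wp = 1)
    (hs0 : PowerSeries.coeff 0 sg = 0) (hG : thBirk G = sg * G) (hW : thBirk Wp = -(Wp * sg))
    (m : ℕ) : (∀ j ≤ m, PowerSeries.coeff j sg ∈ 𝔫) → ∀ d : PowerSeries A,
      (∀ n, PowerSeries.coeff n d ∈ 𝔫) → PowerSeries.coeff m (G * d * Wp) ∈ 𝔫 := by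
  induction m using Nat.strong_induction_on with
  | _ m ih =>
    intro hs d hd
    cases m with
    | zero =>
      rw [coeff_zero_mul_Birk, coeff_zero_mul_Birk, hG0, hW0, one_mul, mul_one]
      exact hd 0
    | succ m =>
      have h1 : thBirk d = PowerSeries.X *
          PowerSeries.mk fun n => (n + 1) • PowerSeries.coeff (n + 1) d := by
        ext n
        cases n with
        | zero => rw [coeff_thBirk, zero_smul, PowerSeries.coeff_zero_X_mul]
        | succ n => rw [coeff_thBirk, PowerSeries.coeff_succ_X_mul, PowerSeries.coeff_mk]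
      have h2 := ih m (by omega) (fun j hj => hs j (by omega))
        (PowerSeries.mk fun n => (n + 1) • PowerSeries.coeff (n + 1) d) fun n => by
          rw [PowerSeries.coeff_mk]
          exact 𝔫.smul_of_tower_mem _ (hd _)
      generalize (PowerSeries.mk fun n => (n + 1) • PowerSeries.coeff (n + 1) d) = d' at h1 h2
      have h3 : thBirk (G * d * Wp) = sg * (G * d * Wp) - (G * d * Wp) * sg +
          PowerSeries.X * (G * d' * Wp) := by
        rw [thBirk_mul, thBirk_mul, hG, hW, h1, ← mul_assoc G, ← PowerSeries.X_mul]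
        noncomm_ring
      have h4 := congrArg (PowerSeries.coeff (m + 1)) h3
      rw [coeff_thBirk, map_add, map_sub, PowerSeries.coeff_succ_X_mul,
        PowerSeries.coeff_mul (m + 1) sg, PowerSeries.coeff_mul (m + 1) _ sg,
        Finset.Nat.sum_antidiagonal_succ, Finset.Nat.sum_antidiagonal_succ', hs0, zero_mul,
        mul_zero, zero_add, zero_add, ← Finset.Nat.sum_antidiagonal_swap (n := m)
          (f := fun p => PowerSeries.coeff p.1 (G * d * Wp) * PowerSeries.coeff (p.2 + 1) sg),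
        ← sum_sub_distrib] at h4
      have h5 : ((m + 1 : ℕ) : 𝕜) • PowerSeries.coeff (m + 1) (G * d * Wp) ∈ 𝔫 := by
        rw [Nat.cast_smul_eq_nsmul, h4]
        refine 𝔫.add_mem (𝔫.sum_mem fun p hp => ?_) h2
        have h6 := mem_antidiagonal.1 hp
        exact hbr _ (hs _ (by omega)) _
          (ih p.2 (by omega) (fun j hj => hs j (by omega)) d hd)
      exact birk_cancel 𝔫 m h5

theorem birk {M : Type} [AddCommGroup M] [Module 𝕜 M] (ε : M →ₗ[𝕜] 𝕜)
    (σ : (M →ₗ[𝕜] 𝕜) →ₗ[𝕜] Module.End 𝕜 M) (J : Module.End 𝕜 M)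
    (hε : ∀ α, ε ∘ₗ σ α = α ∘ₗ J) (hσ : ∀ α, σ α * J = σ α)
    (𝔫 : Submodule 𝕜 (Module.End 𝕜 M)) (I : Submodule 𝕜 M)
    (hbr : ∀ x ∈ 𝔫, ∀ y ∈ 𝔫, x * y - y * x ∈ 𝔫) (hπ : ∀ x ∈ 𝔫, σ (ε ∘ₗ x) ∈ 𝔫)
    (hI : ∀ x ∈ 𝔫, ∀ F ∈ I, x F - σ (ε ∘ₗ x) F ∈ I) (L : List (Module.End 𝕜 M))
    (hL : ∀ e ∈ L, e ∈ 𝔫 ∧ e * J = e ∧ e * e = 0 ∧ ∀ x ∈ 𝔫, e * x * e = 0)
    (W : ℕ → Module.End 𝕜 M) (b : ℕ → M →ₗ[𝕜] 𝕜) (hW0 : W 0 = 1)
    (hW : ∀ m, ((m + 1 : ℕ) : 𝕜) • W (m + 1) = -∑ j ∈ range (m + 1), W (m - j) * σ (b (j + 1)))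
    (hb : ∀ m, b (m + 1) =
      ∑ i ∈ range (m + 1), ((i + 1 : ℕ) : 𝕜) • (ε ∘ₗ gl L (i + 1) ∘ₗ W (m - i)))
    (φ : M →ₗ[𝕜] 𝕜) (hφ : ∀ F ∈ I, φ F = 0) (m : ℕ) (F : M) (hF : F ∈ I) :
    ∑ j ∈ range (m + 1), φ (gl L j (W (m - j) F)) = 0 := by
  obtain ⟨c, hc0, hc, hgc⟩ := gl_th_Birk 𝔫 hbr L fun e he =>
    ⟨(hL e he).1, (hL e he).2.2.1, (hL e he).2.2.2⟩
  set g : PowerSeries (Module.End 𝕜 M) := PowerSeries.mk (gl L) with hg
  set Wp : PowerSeries (Module.End 𝕜 M) := PowerSeries.mk W with hWp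
  set sg : PowerSeries (Module.End 𝕜 M) :=
    PowerSeries.X * PowerSeries.mk fun j => σ (b (j + 1)) with hsg
  have hsg0 : PowerSeries.coeff 0 sg = 0 := PowerSeries.coeff_zero_X_mul _
  have hsg1 : ∀ j, PowerSeries.coeff (j + 1) sg = σ (b (j + 1)) := fun j => by
    rw [hsg, PowerSeries.coeff_succ_X_mul, PowerSeries.coeff_mk]
  have hW0' : PowerSeries.coeff 0 Wp = 1 := by rw [hWp, PowerSeries.coeff_mk, hW0]
  have hg0 : PowerSeries.coeff 0 g = 1 := by rw [hg, PowerSeries.coeff_mk, gl_zero_Birk]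
  have hthW : thBirk Wp = -(Wp * sg) := by
    ext1 n
    rw [coeff_thBirk, map_neg]
    cases n with
    | zero => rw [zero_smul, coeff_zero_mul_Birk, hsg0, mul_zero, neg_zero]
    | succ n =>
      rw [hWp, PowerSeries.coeff_mk, ← Nat.cast_smul_eq_nsmul 𝕜, hW, PowerSeries.coeff_mul,
        Finset.Nat.sum_antidiagonal_succ', hsg0, mul_zero, zero_add,
        ← Finset.Nat.sum_antidiagonal_swap, Finset.Nat.sum_antidiagonal_eq_sum_range_succ_mk]
      simp only [Prod.fst_swap, Prod.snd_swap, PowerSeries.coeff_mk, hsg1]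
  have hu : PowerSeries.constantCoeff Wp = ((1 : (Module.End 𝕜 M)ˣ) : Module.End 𝕜 M) := by
    rw [← PowerSeries.coeff_zero_eq_constantCoeff_apply, hW0', Units.val_one]
  have hG1 := PowerSeries.mul_invOfUnit Wp 1 hu
  have hG2 := PowerSeries.invOfUnit_mul Wp 1 hu
  have hG0 : PowerSeries.coeff 0 (PowerSeries.invOfUnit Wp 1) = 1 := by
    rw [PowerSeries.coeff_zero_eq_constantCoeff_apply, PowerSeries.constantCoeff_invOfUnit]
    simp
  generalize PowerSeries.invOfUnit Wp 1 = G at hG1 hG2 hG0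
  have hthG : thBirk G = sg * G := by
    have h1 : thBirk (Wp * G) = 0 := by rw [hG1, thBirk_one]
    rw [thBirk_mul, hthW] at h1
    have h2 : G * (-(Wp * sg) * G + Wp * thBirk G) = 0 := by rw [h1, mul_zero]
    have h3 : G * (-(Wp * sg) * G + Wp * thBirk G) =
        -((G * Wp) * sg * G) + (G * Wp) * thBirk G := by noncomm_ring
    rw [h3, hG2, one_mul, one_mul] at h2
    exact (neg_add_eq_zero.1 h2).symm
  have hWJ : ∀ k, W (k + 1) * J = W (k + 1) := fun k => by
    have h1 : ((k + 1 : ℕ) : 𝕜) • (W (k + 1) * J) = ((k + 1 : ℕ) : 𝕜) • W (k + 1) := by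
      rw [← smul_mul_assoc, hW, neg_mul, sum_mul]
      simp only [mul_assoc, hσ]
    exact sub_eq_zero.1 (birk_cancel (⊥ : Submodule 𝕜 _) k
      (by rw [smul_sub, h1, sub_self]; exact zero_mem _))
  have hgJ := gl_J_Birk J L fun e he => (hL e he).2.1
  have hbJ : ∀ k, b (k + 1) ∘ₗ J = b (k + 1) := fun k => by
    refine LinearMap.ext fun x => ?_
    rw [LinearMap.comp_apply, hb]
    simp only [LinearMap.coe_sum, Finset.sum_apply, LinearMap.smul_apply, LinearMap.comp_apply]
    refine sum_congr rfl fun i _ => ?_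
    congr 2
    cases hk : k - i with
    | zero =>
      rw [hW0]
      exact LinearMap.congr_fun (hgJ i) x
    | succ r => exact congrArg _ (LinearMap.congr_fun (hWJ r) x)
  have hb' : ∀ k x, b (k + 1) x = ε (PowerSeries.coeff (k + 1) (thBirk g * Wp) x) := fun k x => by
    rw [hb, PowerSeries.coeff_mul, Finset.Nat.sum_antidiagonal_succ, coeff_thBirk, zero_smul,
      zero_mul, zero_add, Finset.Nat.sum_antidiagonal_eq_sum_range_succ_mk]
    simp only [LinearMap.coe_sum, Finset.sum_apply, LinearMap.smul_apply, LinearMap.comp_apply,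
      map_sum, coeff_thBirk, hg, hWp, PowerSeries.coeff_mk, Module.End.mul_apply,
      Nat.cast_smul_eq_nsmul, map_nsmul]
  have hP0 : PowerSeries.coeff 0 (g * Wp) = 1 := by rw [coeff_zero_mul_Birk, hg0, hW0', mul_one]
  have hthP : thBirk (g * Wp) = thBirk g * Wp - g * Wp * sg := by
    rw [thBirk_mul, hthW]
    noncomm_ring
  have hεP : ∀ k x, ε (PowerSeries.coeff (k + 1) (g * Wp) x) = 0 := by
    intro k
    induction k using Nat.strong_induction_on with
    | _ k ih =>
      intro x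
      have h1 := congrArg (fun f : PowerSeries (Module.End 𝕜 M) =>
        ε (PowerSeries.coeff (k + 1) f x)) hthP
      simp only [coeff_thBirk, map_sub, LinearMap.sub_apply, LinearMap.smul_apply, map_nsmul] at h1
      rw [← hb', PowerSeries.coeff_mul (k + 1) (g * Wp) sg, Finset.Nat.sum_antidiagonal_succ,
        hP0, one_mul, hsg1] at h1
      have h2 : ε (σ (b (k + 1)) x) = b (k + 1) x := by
        have h3 := LinearMap.congr_fun (hε (b (k + 1))) x
        rw [hbJ] at h3
        exact h3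
      have h4 : ε ((∑ p ∈ antidiagonal k, PowerSeries.coeff (p.1 + 1) (g * Wp) *
          PowerSeries.coeff p.2 sg) x) = 0 := by
        simp only [LinearMap.coe_sum, Finset.sum_apply, map_sum, Module.End.mul_apply]
        refine sum_eq_zero fun p hp => ?_
        have h5 := mem_antidiagonal.1 hp
        by_cases h6 : p.2 = 0
        · rw [h6, hsg0]
          simp
        · exact ih _ (by omega) _
      rw [LinearMap.add_apply, map_add, h2, h4, add_zero, sub_self] at h1
      exact birk_zero k h1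
  have hξ : thBirk g * Wp = g * Wp * (G * c * Wp) := by
    have h1 : g * Wp * (G * c * Wp) = g * (Wp * G) * c * Wp := by noncomm_ring
    rw [h1, hG1, mul_one, hgc]
  have hbξ : ∀ k, b (k + 1) = ε ∘ₗ PowerSeries.coeff (k + 1) (G * c * Wp) := fun k => by
    refine LinearMap.ext fun x => ?_
    rw [hb', hξ, PowerSeries.coeff_mul (k + 1) (g * Wp), Finset.Nat.sum_antidiagonal_succ, hP0,
      one_mul, LinearMap.add_apply, map_add]
    simp only [LinearMap.coe_sum, Finset.sum_apply, map_sum, Module.End.mul_apply, hεP,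
      sum_const_zero, add_zero, LinearMap.comp_apply]
  obtain ⟨c', rfl⟩ : ∃ c', c = PowerSeries.X * c' :=
    ⟨_, by
      have h1 := PowerSeries.eq_X_mul_shift_add_const c
      rwa [← PowerSeries.coeff_zero_eq_constantCoeff_apply, hc0, map_zero, add_zero] at h1⟩
  have hc' : ∀ n, PowerSeries.coeff n c' ∈ 𝔫 := fun n => by
    have h1 := hc (n + 1)
    rwa [PowerSeries.coeff_succ_X_mul] at h1
  have hX : G * (PowerSeries.X * c') * Wp = PowerSeries.X * (G * c' * Wp) := by
    rw [← mul_assoc G, ← PowerSeries.X_mul]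
    simp only [mul_assoc]
  have hsgn : ∀ k, PowerSeries.coeff k sg ∈ 𝔫 := by
    intro k
    induction k using Nat.strong_induction_on with
    | _ k ih =>
      cases k with
      | zero =>
        rw [hsg0]
        exact 𝔫.zero_mem
      | succ k =>
        rw [hsg1, hbξ, hX, PowerSeries.coeff_succ_X_mul]
        exact hπ _ (conj_Birk 𝔫 hbr hG0 hW0' hsg0 hthG hthW k (fun j hj => ih j (by omega)) c' hc')
  have hξn : ∀ k, PowerSeries.coeff k (G * (PowerSeries.X * c') * Wp) ∈ 𝔫 := fun k =>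
    conj_Birk 𝔫 hbr hG0 hW0' hsg0 hthG hthW k (fun j _ => hsgn j) _ hc
  have hξ0 : PowerSeries.coeff 0 (G * (PowerSeries.X * c') * Wp) = 0 := by
    rw [hX, PowerSeries.coeff_zero_X_mul]
  generalize G * (PowerSeries.X * c') * Wp = ξ at hξ hbξ hξn hξ0
  have hthP' : thBirk (g * Wp) = g * Wp * (ξ - sg) := by rw [hthP, hξ, mul_sub]
  have key : ∀ k, ∀ F ∈ I, φ (PowerSeries.coeff k (g * Wp) F) = 0 := by
    intro k
    induction k using Nat.strong_induction_on with
    | _ k ih =>
      intro F hF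
      cases k with
      | zero =>
        rw [hP0]
        exact hφ F hF
      | succ k =>
        have h1 := congrArg (fun f : PowerSeries (Module.End 𝕜 M) =>
          φ (PowerSeries.coeff (k + 1) f F)) hthP'
        simp only [coeff_thBirk, LinearMap.smul_apply, map_nsmul] at h1
        rw [PowerSeries.coeff_mul (k + 1) (g * Wp) (ξ - sg), Finset.Nat.sum_antidiagonal_succ',
          map_sub, hξ0, hsg0, sub_zero, mul_zero, zero_add] at h1
        have h4 : φ ((∑ p ∈ antidiagonal k, PowerSeries.coeff p.1 (g * Wp) *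
            PowerSeries.coeff (p.2 + 1) (ξ - sg)) F) = 0 := by
          simp only [LinearMap.coe_sum, Finset.sum_apply, map_sum, Module.End.mul_apply]
          refine sum_eq_zero fun p hp => ?_
          have h5 := mem_antidiagonal.1 hp
          refine ih _ (by omega) _ ?_
          rw [map_sub, hsg1, hbξ, LinearMap.sub_apply]
          exact hI _ (hξn _) F hF
        rw [h4] at h1
        exact birk_zero k h1
  have h1 := key m F hF
  rw [PowerSeries.coeff_mul, Finset.Nat.sum_antidiagonal_eq_sum_range_succ_mk] at h1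
  simpa only [LinearMap.coe_sum, Finset.sum_apply, map_sum, Module.End.mul_apply, hg, hWp,
    PowerSeries.coeff_mk] using h1

section Rec

variable {U U' : Type} [AddCommGroup U] [Module 𝕜 U] [AddCommGroup U'] [Module 𝕜 U']

variable (𝕜) in
/-- the recursion on functionals -/
def WW (st : U → U → U) (γ : ℕ → U) : ℕ → U → U
  | 0, ψ => ψ
  | m + 1, ψ => -(algebraMap ℚ 𝕜 ((m + 1 : ℕ) : ℚ)⁻¹) • ∑ j : Fin (m + 1),
      st (∑ i : Fin (j + 1), ((i + 1 : ℕ) : 𝕜) • WW st γ (j - i) (γ (i + 1))) (WW st γ (m - j) ψ)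
termination_by m => m
decreasing_by all_goals omega

variable (𝕜) in
/-- `bb 𝕜 st γ m` is `b (m + 1)` -/
def bb (st : U → U → U) (γ : ℕ → U) (m : ℕ) : U :=
  ∑ i ∈ range (m + 1), ((i + 1 : ℕ) : 𝕜) • WW 𝕜 st γ (m - i) (γ (i + 1))

theorem WW_zero (st : U → U → U) (γ : ℕ → U) (ψ : U) : WW 𝕜 st γ 0 ψ = ψ := by rw [WW]

theorem WW_succ (st : U → U → U) (γ : ℕ → U) (m : ℕ) (ψ : U) : WW 𝕜 st γ (m + 1) ψ =
    -(algebraMap ℚ 𝕜 ((m + 1 : ℕ) : ℚ)⁻¹) • ∑ j ∈ range (m + 1), st (bb 𝕜 st γ j) (WW 𝕜 st γ (m - j) ψ) := by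
  rw [WW, sum_range]
  congr 2
  funext j
  rw [bb, sum_range]

theorem WW_rel {st : U → U → U} {st' : U' → U' → U'} {γ : ℕ → U} {γ' : ℕ → U'}
    (N : Submodule 𝕜 (U × U')) (hst : ∀ x ∈ N, ∀ y ∈ N, (st x.1 y.1, st' x.2 y.2) ∈ N)
    (hγ : ∀ j, (γ (j + 1), γ' (j + 1)) ∈ N) (m : ℕ) {ψ : U} {ψ' : U'} (h : (ψ, ψ') ∈ N) :
    (WW 𝕜 st γ m ψ, WW 𝕜 st' γ' m ψ') ∈ N := by
  induction m using Nat.strong_induction_on generalizing ψ ψ' with
  | _ m ih =>
    cases m with
    | zero => rwa [WW_zero, WW_zero]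
    | succ m =>
      have hb : ∀ j ≤ m, (bb 𝕜 st γ j, bb 𝕜 st' γ' j) ∈ N := fun j hj => by
        rw [bb, bb, prod_mk_sum]
        refine N.sum_mem fun i _ => ?_
        exact N.smul_mem ((i + 1 : ℕ) : 𝕜) (ih (j - i) (by omega) (hγ i))
      rw [WW_succ, WW_succ, ← Prod.smul_mk, prod_mk_sum]
      refine N.smul_mem _ (N.sum_mem fun j hj => ?_)
      have hj' := mem_range.1 hj
      exact hst _ (hb j (by omega)) _ (ih (m - j) (by omega) h)

theorem WW_val {st : U → U → U} {γ : ℕ → U} (N Q Q' : Submodule 𝕜 U)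
    (hN : ∀ x ∈ N, ∀ y ∈ N, st x y ∈ N) (hQ : ∀ x ∈ N, ∀ y ∈ Q, st x y ∈ Q ⊓ Q')
    (hγ : ∀ j, γ (j + 1) ∈ N) (m : ℕ) {ψ : U} (h : ψ ∈ Q) : WW 𝕜 st γ (m + 1) ψ ∈ Q' := by
  have h1 : ∀ (m : ℕ) (ψ : U), ψ ∈ N → WW 𝕜 st γ m ψ ∈ N := by
    intro m
    induction m using Nat.strong_induction_on with
    | _ m ih =>
      intro ψ hψ
      cases m with
      | zero => rwa [WW_zero]
      | succ m =>
        rw [WW_succ]
        refine N.smul_mem _ (N.sum_mem fun j hj => ?_)
        have hj' := mem_range.1 hj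
        exact hN _ (N.sum_mem fun i _ => N.smul_mem _ (ih (j - i) (by omega) _ (hγ i))) _
          (ih (m - j) (by omega) _ hψ)
  have h2 : ∀ j, bb 𝕜 st γ j ∈ N := fun j => N.sum_mem fun i _ => N.smul_mem _ (h1 _ _ (hγ i))
  have h3 : ∀ m : ℕ, WW 𝕜 st γ m ψ ∈ Q := by
    intro m
    induction m using Nat.strong_induction_on with
    | _ m ih =>
      cases m with
      | zero => rwa [WW_zero]
      | succ m =>
        rw [WW_succ]
        exact Q.smul_mem _ (Q.sum_mem fun j _ => (hQ _ (h2 j) _ (ih (m - j) (by omega))).1)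
  rw [WW_succ]
  exact Q'.smul_mem _ (Q'.sum_mem fun j _ => (hQ _ (h2 j) _ (h3 (m - j))).2)

variable (𝕜) in
/-- the recursion on operators -/
def recBirk {A : Type} [Ring A] [Algebra 𝕜 A] (s : ℕ → A) : ℕ → A
  | 0 => 1
  | m + 1 => -(algebraMap ℚ 𝕜 ((m + 1 : ℕ) : ℚ)⁻¹) • ∑ j : Fin (m + 1), recBirk s (m - j) * s j
termination_by m => m
decreasing_by all_goals omega

theorem recBirk_succ {A : Type} [Ring A] [Algebra 𝕜 A] (s : ℕ → A) (m : ℕ) : recBirk 𝕜 s (m + 1) =
    -(algebraMap ℚ 𝕜 ((m + 1 : ℕ) : ℚ)⁻¹) • ∑ j ∈ range (m + 1), recBirk 𝕜 s (m - j) * s j := by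
  rw [recBirk, sum_range]

theorem exists_W {M : Type} [AddCommGroup M] [Module 𝕜 M]
    (σ : (M →ₗ[𝕜] 𝕜) →ₗ[𝕜] Module.End 𝕜 M) (st : (M →ₗ[𝕜] 𝕜) → (M →ₗ[𝕜] 𝕜) → M →ₗ[𝕜] 𝕜)
    (hst : ∀ α ψ, ψ ∘ₗ σ α = st α ψ) (γ : ℕ → M →ₗ[𝕜] 𝕜) :
    ∃ W : ℕ → Module.End 𝕜 M, W 0 = 1 ∧ (∀ m, ((m + 1 : ℕ) : 𝕜) • W (m + 1) =
      -∑ j ∈ range (m + 1), W (m - j) * σ (bb 𝕜 st γ j)) ∧ ∀ m ψ, WW 𝕜 st γ m ψ = ψ ∘ₗ W m := by
  refine ⟨recBirk 𝕜 fun j => σ (bb 𝕜 st γ j), by rw [recBirk], fun m => ?_, fun m => ?_⟩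
  · rw [recBirk_succ, smul_smul, mul_neg, birk_inv,
      neg_smul, one_smul]
  · induction m using Nat.strong_induction_on with
    | _ m ih =>
      intro ψ
      cases m with
      | zero =>
        rw [WW_zero, recBirk]
        rfl
      | succ m =>
        rw [WW_succ, recBirk_succ, LinearMap.comp_smul]
        congr 1
        refine LinearMap.ext fun x => ?_
        simp only [LinearMap.coe_sum, Finset.sum_apply, LinearMap.comp_apply, map_sum,
          Module.End.mul_apply]
        refine sum_congr rfl fun j _ => ?_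
        rw [← hst, ih (m - j) (by omega)]
        rfl

end Rec

end Pool.Agent.Work.MP_849ab0_ag.W
end
end

-- merged part: Pool.Agent.Work.MP_849ab0_ag.WLink
section
/-! Words in the modes are coefficients of iterated Laurent expansions. -/

noncomputable section

set_option linter.unusedSectionVars false

namespace Pool.Agent.Work.MP_849ab0_ag.W

variable {𝕜 : Type} [CommRing 𝕜]

open MvPolynomial Finset

variable {n : ℕ} (V : VD 𝕜 (Option (Fin n)))

variable (𝕜) in
/-- positions in iterated Laurent series; points outside `S` and the framing point sit at `0` -/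
def posH (π : Equiv.Perm (Fin n)) (S : Finset (Option (Fin n))) (b : Option (Fin n)) :
    HahnSeries (Gam n) 𝕜 := if b ∈ S then expand (RingHom.id 𝕜) π (xv b) else 0

/-- the series `KS S * f (pos S)` -/
def serH (π : Equiv.Perm (Fin n)) (S : Finset (Option (Fin n))) (f : AA 𝕜 (Option (Fin n))) :
    HahnSeries (Gam n) 𝕜 := V.KS HahnSeries.C S (posH 𝕜 π S) * eval₂Hom HahnSeries.C (posH 𝕜 π S) f

/-- the exponent attached to modes `kk` on the points of `S` -/
def expo (π : Equiv.Perm (Fin n)) (kk : Fin n → ℤ) (S : Finset (Option (Fin n))) : Gam n :=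
  toLex fun i => if some (π.symm i) ∈ S then kk (π.symm i) + 1 else 0

variable (𝕜) in
/-- series involving only the variables of `S` -/
def HS (π : Equiv.Perm (Fin n)) (S : Finset (Option (Fin n))) : Subring (HahnSeries (Gam n) 𝕜) :=
  SR 𝕜
    { carrier := {γ | ∀ a, some a ∉ S → ofLex γ (π a) = 0}
      add_mem' := fun {x y} hx hy a ha =>
        show ofLex x (π a) + ofLex y (π a) = 0 by rw [hx a ha, hy a ha, add_zero]
      zero_mem' := fun _ _ => rfl }

theorem link_mem_HS {π : Equiv.Perm (Fin n)} {S : Finset (Option (Fin n))}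
    {x : HahnSeries (Gam n) 𝕜} :
    x ∈ HS 𝕜 π S ↔ ∀ γ, x.coeff γ ≠ 0 → ∀ a, some a ∉ S → ofLex γ (π a) = 0 := Iff.rfl

theorem link_single_ne (π : Equiv.Perm (Fin n)) {S : Finset (Option (Fin n))} {a c : Fin n}
    (ha : some a ∈ S) (hc : some c ∉ S) (m : ℤ) :
    (Pi.single (π a) m : Fin n → ℤ) (π c) = 0 :=
  Pi.single_eq_of_ne (fun e => hc (by rw [π.injective e]; exact ha)) _

theorem link_pos_mem (π : Equiv.Perm (Fin n)) (S : Finset (Option (Fin n)))
    (b : Option (Fin n)) : posH 𝕜 π S b ∈ HS 𝕜 π S := by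
  unfold posH
  split_ifs with hb
  · cases b with
    | none => rw [xv_none, map_zero]; exact zero_mem _
    | some b =>
      rw [xv_some, expand_X]
      refine single_mem_SR (fun c hc => ?_) _
      show -(Pi.single (π b) 1 : Fin n → ℤ) (π c) = 0
      rw [link_single_ne π hb hc, neg_zero]
  · exact zero_mem _

theorem link_pos_sub (π : Equiv.Perm (Fin n)) {S : Finset (Option (Fin n))} {a : Fin n}
    {b : Option (Fin n)} (ha : some a ∈ S) (hb : b ∈ S) :
    posH 𝕜 π S (some a) - posH 𝕜 π S b = expand (RingHom.id 𝕜) π (X a - xv b + C 0) := by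
  simp [posH, ha, hb]

theorem link_inv_mem_aux (π : Equiv.Perm (Fin n)) {S : Finset (Option (Fin n))} {a : Fin n}
    {b : Option (Fin n)} (ha : some a ∈ S) (hb : b ∈ S) (ho : outer π (some a) b) :
    Ring.inverse (posH 𝕜 π S (some a) - posH 𝕜 π S b) ∈ HS 𝕜 π S := by
  rw [link_pos_sub π ha hb]
  refine inv_mem_SR _ π ho 0 _ (fun c hc => link_single_ne π ha hc 1) ?_
  rintro b rfl c hc
  show (Pi.single (π a) 1 : Fin n → ℤ) (π c) - (Pi.single (π b) 1 : Fin n → ℤ) (π c) = 0
  rw [link_single_ne π ha hc, link_single_ne π hb hc, sub_zero]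

theorem link_inv_mem (π : Equiv.Perm (Fin n)) {S : Finset (Option (Fin n))}
    {a b : Option (Fin n)} (ha : a ∈ S) (hb : b ∈ S) (hab : b ≠ a) :
    Ring.inverse (posH 𝕜 π S a - posH 𝕜 π S b) ∈ HS 𝕜 π S := by
  have key : ∀ c, b = some c → outer π (some c) a →
      Ring.inverse (posH 𝕜 π S a - posH 𝕜 π S b) ∈ HS 𝕜 π S := by
    rintro c rfl ho
    rw [← neg_sub, inverse_neg']
    exact neg_mem (link_inv_mem_aux π hb ha ho)
  cases a with
  | none =>
    cases b with
    | none => exact absurd rfl hab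
    | some c => exact key c rfl trivial
  | some a =>
    cases b with
    | none => exact link_inv_mem_aux π ha hb trivial
    | some c =>
      rcases lt_trichotomy (π a) (π c) with h | h | h
      · exact link_inv_mem_aux π ha hb h
      · exact absurd (by rw [π.injective h]) hab
      · exact key c rfl h

theorem wlink_pos_sub (π : Equiv.Perm (Fin n)) {S : Finset (Option (Fin n))} {a : Fin n}
    {b : Option (Fin n)} (ha : some a ∈ S) (hb : b ∈ S) (r : 𝕜) :
    posH 𝕜 π S (some a) - posH 𝕜 π S b + HahnSeries.C r =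
      expand (RingHom.id 𝕜) π (X a - xv b + C r) := by
  simp [posH, ha, hb]

theorem wlink_inv_mem_aux (π : Equiv.Perm (Fin n)) {S : Finset (Option (Fin n))} {a : Fin n}
    {b : Option (Fin n)} (ha : some a ∈ S) (hb : b ∈ S) (ho : outer π (some a) b) (r : 𝕜) :
    Ring.inverse (posH 𝕜 π S (some a) - posH 𝕜 π S b + HahnSeries.C r) ∈ HS 𝕜 π S := by
  rw [wlink_pos_sub π ha hb]
  refine inv_mem_SR _ π ho r _ (fun c hc => link_single_ne π ha hc 1) ?_
  rintro b rfl c hc
  show (Pi.single (π a) 1 : Fin n → ℤ) (π c) - (Pi.single (π b) 1 : Fin n → ℤ) (π c) = 0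
  rw [link_single_ne π ha hc, link_single_ne π hb hc, sub_zero]

theorem wlink_inv_mem (π : Equiv.Perm (Fin n)) {S : Finset (Option (Fin n))}
    {a b : Option (Fin n)} (ha : a ∈ S) (hb : b ∈ S) (hab : b ≠ a) (r : 𝕜) :
    Ring.inverse (posH 𝕜 π S a - posH 𝕜 π S b + HahnSeries.C r) ∈ HS 𝕜 π S := by
  have key : ∀ c, b = some c → outer π (some c) a →
      Ring.inverse (posH 𝕜 π S a - posH 𝕜 π S b + HahnSeries.C r) ∈ HS 𝕜 π S := by
    rintro c rfl ho
    rw [VD.neg_form, inverse_neg']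
    exact neg_mem (wlink_inv_mem_aux π hb ha ho _)
  cases a with
  | none =>
    cases b with
    | none => exact absurd rfl hab
    | some c => exact key c rfl trivial
  | some a =>
    cases b with
    | none => exact wlink_inv_mem_aux π ha hb trivial r
    | some c =>
      rcases lt_trichotomy (π a) (π c) with h | h | h
      · exact wlink_inv_mem_aux π ha hb h r
      · exact absurd (by rw [π.injective h]) hab
      · exact key c rfl h

theorem link_KS_mem (π : Equiv.Perm (Fin n)) (S : Finset (Option (Fin n))) :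
    V.KS HahnSeries.C S (posH 𝕜 π S) ∈ HS 𝕜 π S := by
  exact prod_mem fun a ha => prod_mem fun b hb =>
    V.kap_mem _ (sub_mem (link_pos_mem π S a) (link_pos_mem π S b))
      (wlink_inv_mem π ha (mem_of_mem_erase hb) (ne_of_mem_erase hb))

theorem serH_mem (π : Equiv.Perm (Fin n)) (S : Finset (Option (Fin n)))
    (f : AA 𝕜 (Option (Fin n))) : serH V π S f ∈ HS 𝕜 π S := by
  refine mul_mem (link_KS_mem V π S) ?_
  induction f using MvPolynomial.induction_on with
  | C r => rw [eval₂Hom_C]; exact C_mem_SR _ r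
  | add p q hp hq => rw [map_add]; exact add_mem hp hq
  | mul_X p b hp => rw [map_mul, eval₂Hom_X']; exact mul_mem hp (link_pos_mem π S b)

theorem coeff_mul_HS (π : Equiv.Perm (Fin n)) (kk : Fin n → ℤ) {S U : Finset (Option (Fin n))}
    (h : Disjoint S U) {x y : HahnSeries (Gam n) 𝕜} (hx : x ∈ HS 𝕜 π S) (hy : y ∈ HS 𝕜 π U) :
    (x * y).coeff (expo π kk (S ∪ U)) = x.coeff (expo π kk S) * y.coeff (expo π kk U) := by
  have hsum : expo π kk S + expo π kk U = expo π kk (S ∪ U) := by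
    funext i
    show (if _ then _ else _) + (if _ then _ else _) = (if _ then _ else _ : ℤ)
    by_cases h1 : some (π.symm i) ∈ S
    · have h2 : some (π.symm i) ∉ U := disjoint_left.1 h h1
      simp [h1, h2]
    · by_cases h2 : some (π.symm i) ∈ U <;> simp [h1, h2]
  rw [HahnSeries.coeff_mul, sum_eq_single (expo π kk S, expo π kk U)]
  · rintro ⟨i, j⟩ hij hne
    rw [Finset.mem_antidiagonal] at hij
    obtain ⟨hi, hj, e⟩ := hij
    have hi' := link_mem_HS.1 hx i hi
    have hj' := link_mem_HS.1 hy j hj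
    have e1 : i = expo π kk S := by
      funext c
      obtain ⟨c, rfl⟩ := π.surjective c
      have e2 : ofLex i (π c) + ofLex j (π c) =
          if some (π.symm (π c)) ∈ S ∪ U then kk (π.symm (π c)) + 1 else 0 := congrFun e (π c)
      show ofLex i (π c) = if some (π.symm (π c)) ∈ S then kk (π.symm (π c)) + 1 else 0
      rw [Equiv.symm_apply_apply] at e2 ⊢
      split_ifs with h1
      · rw [hj' c (disjoint_left.1 h h1), add_zero, if_pos (mem_union_left _ h1)] at e2
        exact e2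
      · exact hi' c h1
    refine absurd ?_ hne
    subst e1
    rw [← hsum] at e
    exact Prod.ext rfl (add_left_cancel e)
  · intro hn
    by_contra hne
    exact hn (Finset.mem_antidiagonal.2 ⟨left_ne_zero_of_mul hne, right_ne_zero_of_mul hne, hsum⟩)

section Slice

variable (K : HahnSeries (Gam n) 𝕜) (ev : AA 𝕜 (Option (Fin n)) →+* HahnSeries (Gam n) 𝕜)
  (i : Fin n)

/-- the slice of `G` at level `m` of the variable `i` is read off from `Φ` -/
def LinkAt (m : ℤ) (G : HahnSeries (Gam n) 𝕜) (Φ : LS (AA 𝕜 (Option (Fin n)))) : Prop :=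
  ∀ γ : Gam n, ofLex γ i = 0 →
    G.coeff (γ + toLex (Pi.single i m)) = (K * ev (Φ.coeff m)).coeff γ

/-- pairs of multipliers preserving the slice relation -/
def LinkGd (x : HahnSeries (Gam n) 𝕜) (y : LS (AA 𝕜 (Option (Fin n)))) : Prop :=
  ∀ G Φ, (∀ m, LinkAt K ev i m G Φ) → ∀ m, LinkAt K ev i m (x * G) (y * Φ)

variable {K ev i}

theorem LinkAt.add {m : ℤ} {G G' : HahnSeries (Gam n) 𝕜} {Φ Φ' : LS (AA 𝕜 (Option (Fin n)))}
    (h : LinkAt K ev i m G Φ) (h' : LinkAt K ev i m G' Φ') :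
    LinkAt K ev i m (G + G') (Φ + Φ') := fun γ hγ => by
  rw [HahnSeries.coeff_add, HahnSeries.coeff_add, map_add, mul_add, HahnSeries.coeff_add, h γ hγ,
    h' γ hγ]

theorem LinkAt.single {m : ℤ} {G : HahnSeries (Gam n) 𝕜} {Φ : LS (AA 𝕜 (Option (Fin n)))}
    (h : LinkAt K ev i m G Φ) {x : AA 𝕜 (Option (Fin n))} {δ : Gam n} {c : 𝕜}
    (hx : ev x = HahnSeries.single δ c) (hδ : ofLex δ i = 0) :
    LinkAt K ev i m (ev x * G) (HahnSeries.C x * Φ) := fun γ hγ => by
  rw [coeff_C_mul', map_mul, mul_left_comm, hx, coeff_single_mul', coeff_single_mul',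
    add_sub_right_comm, h (γ - δ) (show ofLex γ i - ofLex δ i = 0 by rw [hγ, hδ, sub_zero])]

theorem LinkAt.shift {m : ℤ} {G : HahnSeries (Gam n) 𝕜} {Φ : LS (AA 𝕜 (Option (Fin n)))} :
    LinkAt K ev i m (vv 𝕜 i * G) (lv _ * Φ) ↔ LinkAt K ev i (m + 1) G Φ := by
  refine forall_congr' fun γ => forall_congr' fun _ => ?_
  have e : γ + toLex (Pi.single i m) - toLex (-Pi.single i 1) =
      γ + toLex (Pi.single i (m + 1) : Fin n → ℤ) := by
    rw [Pi.single_add, toLex_add, toLex_neg, sub_neg_eq_add, add_assoc]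
  rw [vv, lv, coeff_single_mul', coeff_single_mul', one_mul, one_mul, e, sub_neg_eq_add]

theorem LinkGd.zero : LinkGd K ev i 0 0 := fun G Φ _ m γ _ => by simp

theorem LinkGd.one : LinkGd K ev i 1 1 := fun G Φ h m => by simpa using h m

theorem LinkGd.add {x x' : HahnSeries (Gam n) 𝕜} {y y' : LS (AA 𝕜 (Option (Fin n)))}
    (h : LinkGd K ev i x y) (h' : LinkGd K ev i x' y') : LinkGd K ev i (x + x') (y + y') :=
  fun G Φ hG m => by rw [add_mul, add_mul]; exact (h G Φ hG m).add (h' G Φ hG m)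

theorem LinkGd.mul {x x' : HahnSeries (Gam n) 𝕜} {y y' : LS (AA 𝕜 (Option (Fin n)))}
    (h : LinkGd K ev i x y) (h' : LinkGd K ev i x' y') : LinkGd K ev i (x * x') (y * y') :=
  fun G Φ hG m => by rw [mul_assoc, mul_assoc]; exact h _ _ (h' G Φ hG) m

theorem LinkGd.neg {x : HahnSeries (Gam n) 𝕜} {y : LS (AA 𝕜 (Option (Fin n)))}
    (h : LinkGd K ev i x y) : LinkGd K ev i (-x) (-y) := fun G Φ hG m γ hγ => by
  rw [neg_mul x, neg_mul y, HahnSeries.coeff_neg, HahnSeries.coeff_neg, map_neg, mul_neg K,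
    HahnSeries.coeff_neg, h G Φ hG m γ hγ]

theorem LinkGd.pow {x : HahnSeries (Gam n) 𝕜} {y : LS (AA 𝕜 (Option (Fin n)))}
    (h : LinkGd K ev i x y) (k : ℕ) : LinkGd K ev i (x ^ k) (y ^ k) := by
  induction k with
  | zero => rw [pow_zero, pow_zero]; exact LinkGd.one
  | succ k ih => rw [pow_succ, pow_succ]; exact ih.mul h

theorem LinkGd.prod {ι : Type} (s : Finset ι) {x : ι → HahnSeries (Gam n) 𝕜}
    {y : ι → LS (AA 𝕜 (Option (Fin n)))} (h : ∀ b ∈ s, LinkGd K ev i (x b) (y b)) :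
    LinkGd K ev i (∏ b ∈ s, x b) (∏ b ∈ s, y b) := by
  classical
  induction s using Finset.induction_on with
  | empty => rw [prod_empty, prod_empty]; exact LinkGd.one
  | insert b s hb ih =>
    rw [prod_insert hb, prod_insert hb]
    exact (h b (mem_insert_self _ _)).mul (ih fun c hc => h c (mem_insert_of_mem hc))

theorem LinkGd.vv : LinkGd K ev i (vv 𝕜 i) (lv _) := fun _ _ hG m => LinkAt.shift.2 (hG (m + 1))

theorem LinkGd.mprod {ι : Type} (s : Multiset ι) {x : ι → HahnSeries (Gam n) 𝕜}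
    {y : ι → LS (AA 𝕜 (Option (Fin n)))} (h : ∀ b, LinkGd K ev i (x b) (y b)) :
    LinkGd K ev i (s.map x).prod (s.map y).prod := by
  induction s using Multiset.induction_on with
  | empty => exact LinkGd.one
  | cons b s ih =>
    rw [Multiset.map_cons, Multiset.map_cons, Multiset.prod_cons, Multiset.prod_cons]
    exact (h b).mul ih

theorem LinkGd.inv' {x : AA 𝕜 (Option (Fin n))}
    (hx : ∀ m G Φ, LinkAt K ev i m G Φ → LinkAt K ev i m (ev x * G) (HahnSeries.C x * Φ))
    (hu : IsUnit (MP_849ab0_ag.vv 𝕜 i - ev x))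
    (hs : ∀ γ, (Ring.inverse (MP_849ab0_ag.vv 𝕜 i - ev x)).coeff γ ≠ 0 → 0 ≤ ofLex γ i) :
    LinkGd K ev i (Ring.inverse (MP_849ab0_ag.vv 𝕜 i - ev x))
      (Ring.inverse (lv _ - HahnSeries.C x)) := by
  intro G Φ hG
  have hw : IsUnit (lv (AA 𝕜 (Option (Fin n))) - HahnSeries.C x) := by
    have := isUnit_lv_add' (-x)
    rwa [map_neg, ← sub_eq_add_neg] at this
  set G' := Ring.inverse (MP_849ab0_ag.vv 𝕜 i - ev x) * G with hG'
  set Φ' := Ring.inverse (lv (AA 𝕜 (Option (Fin n))) - HahnSeries.C x) * Φ with hΦ'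
  have e1 : MP_849ab0_ag.vv 𝕜 i * G' = G + ev x * G' := by
    have : (MP_849ab0_ag.vv 𝕜 i - ev x) * G' = G := by
      rw [hG', ← mul_assoc, Ring.mul_inverse_cancel _ hu, one_mul]
    rw [← this, ← add_mul, sub_add_cancel]
  have e2 : lv _ * Φ' = Φ + HahnSeries.C x * Φ' := by
    have : (lv _ - HahnSeries.C x) * Φ' = Φ := by
      rw [hΦ', ← mul_assoc, Ring.mul_inverse_cancel _ hw, one_mul]
    rw [← this, ← add_mul, sub_add_cancel]
  have step : ∀ m, LinkAt K ev i m G' Φ' → LinkAt K ev i (m + 1) G' Φ' := fun m hm => by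
    rw [← LinkAt.shift, e1, e2]
    exact (hG m).add (hx m _ _ hm)
  obtain ⟨m₁, h₁⟩ := exists_ge Φ
  obtain ⟨m₂, h₂⟩ := exists_ge Φ'
  have hGs : ∀ γ, G.coeff γ ≠ 0 → m₁ ≤ ofLex γ i := fun γ hγ => by
    refine h₁ _ fun e => hγ ?_
    have := hG (ofLex γ i) (γ - toLex (Pi.single i (ofLex γ i)))
      (show ofLex γ i - (Pi.single i (ofLex γ i) : Fin n → ℤ) i = 0 by simp)
    rwa [sub_add_cancel, e, map_zero, mul_zero, HahnSeries.coeff_zero] at this
  have low : ∀ m, m < min m₁ m₂ → LinkAt K ev i m G' Φ' := fun m hm γ hγ => by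
    have z : Φ'.coeff m = 0 := by
      by_contra e
      have := h₂ m e
      omega
    rw [z, map_zero, mul_zero, HahnSeries.coeff_zero]
    by_contra e
    obtain ⟨p, hp, q, hq, hpq⟩ := HahnSeries.support_mul_subset (show _ ∈ G'.support from e)
    have e3 : ofLex p i + ofLex q i = ofLex γ i + (Pi.single i m : Fin n → ℤ) i := congrFun hpq i
    have := hs p hp
    have := hGs q hq
    rw [hγ, Pi.single_eq_same] at e3
    omega
  intro m
  by_cases hm : m < min m₁ m₂
  · exact low m hm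
  · exact Int.leInduction (low (min m₁ m₂ - 1) (by omega)) (fun k _ => step k) m (by omega)

theorem LinkGd.inv {x : AA 𝕜 (Option (Fin n))} {δ : Gam n} {c : 𝕜}
    (hx : ev x = HahnSeries.single δ c) (hδ : ofLex δ i = 0)
    (hu : IsUnit (MP_849ab0_ag.vv 𝕜 i - ev x))
    (hs : ∀ γ, (Ring.inverse (MP_849ab0_ag.vv 𝕜 i - ev x)).coeff γ ≠ 0 → 0 ≤ ofLex γ i) :
    LinkGd K ev i (Ring.inverse (MP_849ab0_ag.vv 𝕜 i - ev x))
      (Ring.inverse (lv _ - HahnSeries.C x)) :=
  LinkGd.inv' (fun _ _ _ h => h.single hx hδ) hu hs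

end Slice

/-- removing the outermost point -/
theorem link_step (π : Equiv.Perm (Fin n)) (kk : Fin n → ℤ) {S : Finset (Option (Fin n))}
    {a : Fin n} (ha : some a ∉ S) (hout : ∀ b, some b ∈ S → π a < π b)
    (f : AA 𝕜 (Option (Fin n))) :
    (serH V π (insert (some a) S) f).coeff (expo π kk (insert (some a) S)) =
      (serH V π S (V.eP (some a) S (kk a) f)).coeff (expo π kk S) := by
  set ev : AA 𝕜 (Option (Fin n)) →+* HahnSeries (Gam n) 𝕜 := eval₂Hom HahnSeries.C (posH 𝕜 π S)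
    with hev
  set K := V.KS HahnSeries.C S (posH 𝕜 π S) with hK
  have hne : ∀ b ∈ S, b ≠ some a := fun b hb e => ha (e ▸ hb)
  have hS : ∀ b ∈ S, posH 𝕜 π (insert (some a) S) b = ev (X b) := fun b hb => by
    simp [hev, posH, hb]
  have hE : ∀ b ∈ S, posE 𝕜 (some a) S b = HahnSeries.C (X b) := fun b hb => by
    simp [posE, hb, hne b hb]
  have ha1 : posH 𝕜 π (insert (some a) S) (some a) = vv 𝕜 (π a) := by simp [posH]
  have ha2 : posE 𝕜 (some a) S (some a) = lv _ := by simp [posE]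
  have hX : ∀ b ∈ S, ∃ δ c, ev (X b) = HahnSeries.single δ c ∧ ofLex δ (π a) = 0 := by
    intro b hb
    cases b with
    | none => exact ⟨0, 0, by simp [hev, posH], rfl⟩
    | some b =>
      refine ⟨toLex (-Pi.single (π b) 1), 1, by simp [hev, posH, hb, vv], ?_⟩
      show -(Pi.single (π b) 1 : Fin n → ℤ) (π a) = 0
      rw [link_single_ne π hb ha, neg_zero]
  have hpos : ∀ b, LinkGd K ev (π a) (posH 𝕜 π (insert (some a) S) b) (posE 𝕜 (some a) S b) := by
    intro b
    by_cases hb : b ∈ S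
    · obtain ⟨δ, c, h1, h2⟩ := hX b hb
      rw [hS b hb, hE b hb]
      exact fun G Φ hG m => (hG m).single h1 h2
    · by_cases e : b = some a
      · rw [e, ha1, ha2]; exact LinkGd.vv
      · have e1 : posH 𝕜 π (insert (some a) S) b = 0 := by simp [posH, hb, e]
        have e2 : posE 𝕜 (some a) S b = 0 := by simp [posE, hb, e]
        rw [e1, e2]; exact LinkGd.zero
  have hinv : ∀ b ∈ S, ∀ r : 𝕜, LinkGd K ev (π a)
      (Ring.inverse (posH 𝕜 π (insert (some a) S) (some a) - posH 𝕜 π (insert (some a) S) b +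
        HahnSeries.C r))
      (Ring.inverse (posE 𝕜 (some a) S (some a) - posE 𝕜 (some a) S b +
        (HahnSeries.C.comp (algebraMap 𝕜 _)) r)) := by
    intro b hb r
    obtain ⟨δ, c, h1, h2⟩ := hX b hb
    have ho : outer π (some a) b := by
      cases b with
      | none => trivial
      | some b => exact hout b hb
    have hC : ∀ t : 𝕜, ev (C t) = HahnSeries.C t := fun t => by rw [hev, eval₂Hom_C]
    have e := wlink_pos_sub π (mem_insert_self (some a) S) (mem_insert_of_mem hb) r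
    have e1 : vv 𝕜 (π a) - ev (X b) + HahnSeries.C r = vv 𝕜 (π a) - ev (X b + C (-r)) := by
      rw [map_add, hC, map_neg]; ring
    have e2 : lv (AA 𝕜 (Option (Fin n))) - HahnSeries.C (X b) +
        (HahnSeries.C.comp (algebraMap 𝕜 _)) r = lv _ - HahnSeries.C (X b + C (-r)) := by
      rw [map_add, map_neg, map_neg, RingHom.comp_apply, algebraMap_eq]; ring
    rw [ha1, hS b hb, e1] at e
    rw [ha1, ha2, hS b hb, hE b hb, e1, e2]
    refine LinkGd.inv' (fun m G Φ h => ?_) ?_ ?_
    · rw [map_add, map_add, add_mul, add_mul]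
      exact (h.single h1 h2).add (h.single (hC _) rfl)
    · rw [e]; exact Fm.isUnit ⟨b, r, ho, Or.inl rfl⟩ _
    · rw [e]
      refine inv_mem_SR _ π ho r
        { carrier := {γ | 0 ≤ ofLex γ (π a)}
          add_mem' := fun {x y} hx hy =>
            show 0 ≤ ofLex x (π a) + ofLex y (π a) from add_nonneg (a := ofLex x (π a)) hx hy
          zero_mem' := le_refl (0 : ℤ) } ?_ ?_
      · show 0 ≤ (Pi.single (π a) 1 : Fin n → ℤ) (π a)
        simp
      · rintro b rfl
        show 0 ≤ (Pi.single (π a) 1 : Fin n → ℤ) (π a) - (Pi.single (π b) 1 : Fin n → ℤ) (π a)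
        rw [link_single_ne π hb ha]; simp
  have hKK : LinkGd K ev (π a) (V.KK HahnSeries.C {some a} S (posH 𝕜 π (insert (some a) S)))
      (V.KK (HahnSeries.C.comp (algebraMap 𝕜 _)) {some a} S (posE 𝕜 (some a) S)) := by
    unfold VD.KK
    rw [prod_singleton, prod_singleton]
    refine LinkGd.prod _ fun b hb => ?_
    have d := (hpos (some a)).add (hpos b).neg
    rw [← sub_eq_add_neg, ← sub_eq_add_neg] at d
    have d' := d.neg
    rw [neg_sub, neg_sub] at d'
    refine ((d.pow _).mul (LinkGd.mprod _ (hinv b hb))).mul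
      ((d'.pow _).mul (LinkGd.mprod _ fun r => ?_))
    have i' := (hinv b hb (-r)).neg
    rwa [← inverse_neg', ← inverse_neg', ← VD.neg_form, ← VD.neg_form] at i'
  have hf : ∀ f : AA 𝕜 (Option (Fin n)), LinkGd K ev (π a)
      (eval₂Hom HahnSeries.C (posH 𝕜 π (insert (some a) S)) f)
      (eval₂Hom (HahnSeries.C.comp (algebraMap 𝕜 _)) (posE 𝕜 (some a) S) f) := by
    intro f
    induction f using MvPolynomial.induction_on with
    | C r =>
      have h1 : ev (C r) = HahnSeries.single 0 r := by rw [hev, eval₂Hom_C]; rfl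
      intro G Φ hG m
      have := (hG m).single h1 rfl
      rw [hev, eval₂Hom_C] at this
      rw [eval₂Hom_C, eval₂Hom_C]
      exact this
    | add p q hp hq => rw [map_add, map_add]; exact hp.add hq
    | mul_X p b hp => rw [map_mul, map_mul, eval₂Hom_X', eval₂Hom_X']; exact hp.mul (hpos b)
  have hbase : ∀ m, LinkAt K ev (π a) m K 1 := by
    intro m γ hγ
    by_cases hm : m = 0
    · subst hm; simp
    · rw [HahnSeries.coeff_one, if_neg hm, map_zero, mul_zero, HahnSeries.coeff_zero]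
      by_contra e
      have e1 : ofLex γ (π a) + (Pi.single (π a) m : Fin n → ℤ) (π a) = 0 :=
        link_mem_HS.1 (link_KS_mem V π S) _ e a ha
      rw [hγ, Pi.single_eq_same, zero_add] at e1
      exact hm e1
  have hexp : expo π kk (insert (some a) S) =
      expo π kk S + toLex (Pi.single (π a) (kk a + 1)) := by
    funext c
    obtain ⟨c, rfl⟩ := π.surjective c
    show (if some (π.symm (π c)) ∈ insert (some a) S then kk (π.symm (π c)) + 1 else 0) =
      (if some (π.symm (π c)) ∈ S then kk (π.symm (π c)) + 1 else 0) +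
        (Pi.single (π a) (kk a + 1) : Fin n → ℤ) (π c)
    rw [Equiv.symm_apply_apply]
    by_cases e : c = a
    · subst e; simp [ha]
    · simp [e]
  have hKS : V.KS HahnSeries.C S (posH 𝕜 π (insert (some a) S)) = K := by
    refine prod_congr rfl fun x hx => prod_congr rfl fun y hy => ?_
    rw [hS x hx, hS y (mem_of_mem_erase hy), hev, eval₂Hom_X', eval₂Hom_X']
  have := ((hf f).mul hKK) K 1 hbase (kk a + 1) (expo π kk S) (by simp [expo, ha])
  rw [mul_one] at this
  rw [hexp, serH, serH, V.KS_insert _ ha, hKS, VD.eP, cf_apply, ← this]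
  congr 1
  ring

theorem link_base (π : Equiv.Perm (Fin n)) (kk : Fin n → ℤ) {S : Finset (Option (Fin n))}
    (hS : S ⊆ {none}) (f : AA 𝕜 (Option (Fin n))) :
    (serH V π S f).coeff (expo π kk S) = coeff 0 f := by
  have h1 : posH 𝕜 π S = 0 := by
    funext b
    unfold posH
    split_ifs with hb
    · rw [mem_singleton.1 (hS hb)]; simp
    · rfl
  have h2 : V.KS HahnSeries.C S (posH 𝕜 π S) = 1 := by
    refine prod_eq_one fun x hx => prod_eq_one fun y hy => ?_
    exact absurd ((mem_singleton.1 (hS (mem_of_mem_erase hy))).trans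
      (mem_singleton.1 (hS hx)).symm) (ne_of_mem_erase hy)
  have h3 : expo π kk S = 0 := by
    funext c
    exact if_neg fun e => by simpa using hS e
  rw [serH, h2, h1, h3, one_mul, eval₂Hom_zero]
  simp [constantCoeff_eq]

theorem link_eM_single (a : Option (Fin n)) (j : ℤ) (S : Finset (Option (Fin n)))
    (f : AA 𝕜 (Option (Fin n))) : V.eM a j (Pi.single S f) =
      if a ∈ S then Pi.single (S.erase a) (V.eP a (S.erase a) j f) else 0 := by
  funext Z
  rw [VD.eM_apply]
  by_cases hZ : a ∈ Z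
  · rw [if_pos hZ]
    split_ifs with hS
    · rw [Pi.single_eq_of_ne]
      rintro rfl
      simp at hZ
    · rfl
  · rw [if_neg hZ]
    by_cases e : insert a Z = S
    · subst e
      rw [if_pos (mem_insert_self _ _), erase_insert hZ, Pi.single_eq_same, Pi.single_eq_same]
    · rw [Pi.single_eq_of_ne e, map_zero]
      split_ifs with hS
      · rw [Pi.single_eq_of_ne]
        rintro rfl
        exact e (insert_erase hS)
      · rfl

theorem link_phi_single (S₀ S : Finset (Option (Fin n))) (f : AA 𝕜 (Option (Fin n))) :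
    phi 𝕜 S₀ (Pi.single S f : MM 𝕜 (Option (Fin n))) = if S = S₀ then coeff 0 f else 0 := by
  show coeff 0 ((Pi.single S f : MM 𝕜 (Option (Fin n))) S₀) = _
  split_ifs with e
  · rw [e, Pi.single_eq_same]
  · rw [Pi.single_eq_of_ne (Ne.symm e), coeff_zero]

theorem link_gl_list (kk : Fin n → ℤ) {S₀ : Finset (Option (Fin n))} (hS₀ : S₀ ⊆ {none})
    (L : List (Fin n)) (hL : L.Pairwise (· < ·)) (S : Finset (Option (Fin n))) (j : ℕ)
    (f : AA 𝕜 (Option (Fin n))) :
    phi 𝕜 S₀ (gl (L.map fun a => V.eM (some a) (kk a)) j (Pi.single S f)) =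
      if (S ∩ {none} = S₀ ∧ (S.erase none).card = j) ∧ ∀ b, some b ∈ S → b ∈ L then
        (serH V 1 S f).coeff (expo 1 kk S) else 0 := by
  induction L generalizing S j f with
  | nil =>
    have hsub : (∀ b, some b ∈ S → b ∈ ([] : List (Fin n))) → S ⊆ {none} := fun h b hb => by
      cases b with
      | none => simp
      | some b => simpa using h b hb
    cases j with
    | zero =>
      rw [List.map_nil, gl, Module.End.one_apply, link_phi_single]
      by_cases e : S = S₀
      · subst e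
        rw [if_pos rfl, if_pos, link_base V 1 kk hS₀]
        refine ⟨⟨inter_eq_left.2 hS₀, ?_⟩, fun b hb => by simpa using hS₀ hb⟩
        rw [card_eq_zero, erase_eq_empty_iff]
        exact subset_singleton_iff.1 hS₀
      · rw [if_neg e, if_neg]
        rintro ⟨⟨h1, -⟩, h2⟩
        exact e ((inter_eq_left.2 (hsub h2)).symm.trans h1)
    | succ j =>
      rw [List.map_nil, gl, LinearMap.zero_apply, map_zero, if_neg]
      rintro ⟨⟨-, h1⟩, h2⟩
      rw [(erase_eq_empty_iff _ _).2 (subset_singleton_iff.1 (hsub h2))] at h1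
      simp at h1
  | cons a L ih =>
    rw [List.pairwise_cons] at hL
    have ih := ih hL.2
    cases j with
    | zero =>
      rw [List.map_cons, gl, ih]
      refine if_congr (and_congr_right fun h => ?_) rfl rfl
      have : ∀ b, some b ∉ S := fun b hb => by
        have : some b ∈ S.erase none := by simpa using hb
        rw [card_eq_zero.1 h.2] at this
        simp at this
      simp [this]
    | succ j =>
      rw [List.map_cons, gl, LinearMap.add_apply, map_add, Module.End.mul_apply, link_eM_single, ih]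
      by_cases ha : some a ∈ S
      · rw [if_pos ha, ih, if_neg fun h => lt_irrefl a (hL.1 a (h.2 a ha)), zero_add]
        have c1 : S.erase (some a) ∩ {none} = S ∩ {none} := by
          ext b; cases b <;> simp
        have c2 : (S.erase none).card = ((S.erase (some a)).erase none).card + 1 := by
          rw [erase_right_comm, card_erase_add_one (by simpa using ha)]
        have c3 : (∀ b, some b ∈ S.erase (some a) → b ∈ L) ↔ ∀ b, some b ∈ S → b ∈ a :: L := by
          refine forall_congr' fun b => ?_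
          by_cases e : b = a
          · simp [e]
          · simp [e]
        refine if_ctx_congr (by rw [c1, c2, c3, Nat.add_right_cancel_iff]) (fun h => ?_)
          fun _ => rfl
        have := link_step V 1 kk (notMem_erase (some a) S)
          (fun b hb => hL.1 b (c3.2 h.2 b hb)) f
        rw [insert_erase ha] at this
        exact this.symm
      · rw [if_neg ha, map_zero, map_zero, add_zero]
        refine if_congr (and_congr_right fun _ => forall_congr' fun b => ?_) rfl rfl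
        by_cases e : b = a
        · simp [e, ha]
        · simp [e]

theorem link_gl (kk : Fin n → ℤ) {S₀ : Finset (Option (Fin n))} (hS₀ : S₀ ⊆ {none})
    (S : Finset (Option (Fin n))) (j : ℕ) (f : AA 𝕜 (Option (Fin n))) :
    phi 𝕜 S₀ (gl ((List.finRange n).map fun a => V.eM (some a) (kk a)) j (Pi.single S f)) =
      if S ∩ {none} = S₀ ∧ (S.erase none).card = j then
        (serH V 1 S f).coeff (expo 1 kk S) else 0 := by
  rw [link_gl_list V kk hS₀ _ (List.pairwise_lt_finRange n)]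
  simp

theorem link_word_ne (L : List (Fin n × ℕ)) (S : Finset (Option (Fin n)))
    (f : AA 𝕜 (Option (Fin n)))
    (h : phi 𝕜 {none} (V.word (L.map fun x => (some x.1, x.2)) (Pi.single S f)) ≠ 0) :
    (L.map Prod.fst).Nodup ∧ ∀ b, some b ∈ S ↔ b ∈ L.map Prod.fst := by
  induction L generalizing S f with
  | nil =>
    rw [List.map_nil, VD.word, Module.End.one_apply, link_phi_single] at h
    have e : S = {none} := by
      by_contra e
      exact h (if_neg e)
    simp [e]
  | cons x L ih =>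
    rw [List.map_cons, VD.word, Module.End.mul_apply, link_eM_single] at h
    by_cases ha : some x.1 ∈ S
    · rw [if_pos ha] at h
      obtain ⟨h1, h2⟩ := ih _ _ h
      rw [List.map_cons, List.nodup_cons]
      refine ⟨⟨fun e => notMem_erase _ _ ((h2 _).2 e), h1⟩, fun b => ?_⟩
      rw [List.mem_cons, ← h2]
      by_cases e : b = x.1
      · simp [e, ha]
      · simp [e]
    · rw [if_neg ha, map_zero, map_zero] at h
      exact absurd rfl h

theorem link_word_eq (π : Equiv.Perm (Fin n)) (kk : Fin n → ℕ) (L : List (Fin n × ℕ))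
    (hL : (L.map Prod.fst).Pairwise fun a b => π a < π b) (hk : ∀ x ∈ L, kk x.1 = x.2)
    (S : Finset (Option (Fin n))) (h0 : none ∈ S) (hS : ∀ b, some b ∈ S ↔ b ∈ L.map Prod.fst)
    (f : AA 𝕜 (Option (Fin n))) :
    phi 𝕜 {none} (V.word (L.map fun x => (some x.1, x.2)) (Pi.single S f)) =
      (serH V π S f).coeff (expo π (fun a => kk a) S) := by
  induction L generalizing S f with
  | nil =>
    have e : S = {none} := by
      ext b
      cases b with
      | none => simp [h0]
      | some b => simp [hS]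
    rw [List.map_nil, VD.word, Module.End.one_apply, link_phi_single, if_pos e,
      link_base V π _ e.subset]
  | cons x L ih =>
    rw [List.map_cons, List.pairwise_cons] at hL
    have ha : some x.1 ∈ S := (hS _).2 (by simp)
    have hS' : ∀ b, some b ∈ S.erase (some x.1) ↔ b ∈ L.map Prod.fst := fun b => by
      rw [mem_erase, hS, List.map_cons, List.mem_cons]
      constructor
      · rintro ⟨h1, rfl | h2⟩
        · exact absurd rfl h1
        · exact h2
      · intro h
        refine ⟨fun e => ?_, Or.inr h⟩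
        have := hL.1 b h
        rw [Option.some.inj e] at this
        exact lt_irrefl _ this
    rw [List.map_cons, VD.word, Module.End.mul_apply, link_eM_single, if_pos ha,
      ih hL.2 (fun y hy => hk y (List.mem_cons_of_mem _ hy)) _ (by simpa using h0) hS']
    have := link_step V π (fun a => kk a) (notMem_erase (some x.1) S)
      (fun b hb => hL.1 b ((hS' b).1 hb)) f
    rw [insert_erase ha, hk x List.mem_cons_self] at this
    exact this.symm

theorem link_II (f : AA 𝕜 (Option (Fin n)))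
    (h : ∀ (π : Equiv.Perm (Fin n)) (kk : Fin n → ℕ),
      (serH V π univ f).coeff (expo π (fun a => kk a) univ) = 0) :
    (Pi.single univ f : MM 𝕜 (Option (Fin n))) ∈ V.II (Set.range some) {none} := by
  intro L hL
  obtain ⟨L, rfl⟩ : ∃ L' : List (Fin n × ℕ), L = L'.map fun x => (some x.1, x.2) := by
    induction L with
    | nil => exact ⟨[], rfl⟩
    | cons x L ih =>
      obtain ⟨L', rfl⟩ := ih fun y hy => hL y (List.mem_cons_of_mem _ hy)
      obtain ⟨a, ha⟩ := hL x List.mem_cons_self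
      exact ⟨(a, x.2) :: L', by simp [ha]⟩
  by_contra hne
  obtain ⟨nd, hall⟩ := link_word_ne V L univ f hne
  have hall' : ∀ b, b ∈ L.map Prod.fst := fun b => (hall b).1 (mem_univ _)
  have hlen : (L.map Prod.fst).length = n := by
    simpa using Fintype.card_congr (List.Nodup.getEquivOfForallMemList _ nd hall')
  have hex : ∀ b, ∃ k, (b, k) ∈ L := fun b => by simpa using hall' b
  choose kk hkk using hex
  refine hne ((link_word_eq V
    ((List.Nodup.getEquivOfForallMemList _ nd hall').symm.trans (finCongr hlen)) kk L ?_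
    (fun x hx => ?_) univ (mem_univ _) hall f).trans (h _ kk))
  · rw [List.pairwise_iff_getElem]
    intro i j hi hj hij
    show List.idxOf _ _ < List.idxOf _ _
    rwa [nd.idxOf_getElem, nd.idxOf_getElem]
  · exact congrArg Prod.snd (List.inj_on_of_nodup_map nd (hkk x.1) hx rfl)

end Pool.Agent.Work.MP_849ab0_ag.W
end
end
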