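import Pool.Agent.Work.MP_849ab0_ag.WOps
import Pool.Agent.Work.MP_849ab0_ag.WComm
import Pool.Agent.Work.MP_849ab0_ag.WLink
import Pool.Agent.Work.MP_849ab0_ag.JI

-- merged part: Pool.Agent.Work.MP_849ab0_ag.WLie
section
/-! The Lie algebra of modes and its triangular decomposition. -/

noncomputable section

set_option linter.unusedSectionVars false

namespace Pool.Agent.Work.MP_849ab0_ag.W

variable {𝕜 : Type} [CommRing 𝕜]

open MvPolynomial Finset

section LieCl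

variable {M : Type} [AddCommGroup M] [Module 𝕜 M]

/-- pointwise closure -/
def lieCl (Q : Submodule 𝕜 (Module.End 𝕜 M)) : Submodule 𝕜 (Module.End 𝕜 M) where
  carrier := {x | ∀ s : Finset M, ∃ x' ∈ Q, ∀ F ∈ s, x F = x' F}
  add_mem' := fun {x y} hx hy s => by
    obtain ⟨x', h1, h2⟩ := hx s
    obtain ⟨y', h3, h4⟩ := hy s
    exact ⟨x' + y', Q.add_mem h1 h3, fun F hF => by
      rw [LinearMap.add_apply, LinearMap.add_apply, h2 F hF, h4 F hF]⟩
  zero_mem' := fun _ => ⟨0, Q.zero_mem, fun _ _ => rfl⟩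
  smul_mem' := fun c x hx s => by
    obtain ⟨x', h1, h2⟩ := hx s
    exact ⟨c • x', Q.smul_mem c h1, fun F hF => by
      rw [LinearMap.smul_apply, LinearMap.smul_apply, h2 F hF]⟩

variable {Q : Submodule 𝕜 (Module.End 𝕜 M)} {x : Module.End 𝕜 M}

theorem lieCl_le (hx : x ∈ Q) : x ∈ lieCl Q := fun _ => ⟨x, hx, fun _ _ => rfl⟩

theorem lieCl_cl (h : ∀ s : Finset M, ∃ x' ∈ lieCl Q, ∀ F ∈ s, x F = x' F) : x ∈ lieCl Q :=
  fun s => by
    obtain ⟨x', h1, h2⟩ := h s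
    obtain ⟨y, h3, h4⟩ := h1 s
    exact ⟨y, h3, fun F hF => (h2 F hF).trans (h4 F hF)⟩

theorem lieCl_map (T : Module.End 𝕜 M →ₗ[𝕜] Module.End 𝕜 M) {G : Set (Module.End 𝕜 M)}
    (hT : ∀ F, ∃ s : Finset M, ∀ x x', (∀ H ∈ s, x H = x' H) → T x F = T x' F)
    (h : ∀ y ∈ G, T y ∈ lieCl Q) (hx : x ∈ lieCl (Submodule.span 𝕜 G)) : T x ∈ lieCl Q := by
  classical
  choose t ht using hT
  refine lieCl_cl fun s => ?_
  obtain ⟨x', h1, h2⟩ := hx (s.biUnion t)
  exact ⟨T x', (Submodule.span_le.2 h : _ ≤ (lieCl Q).comap T) h1,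
    fun F hF => ht F _ _ fun H hH => h2 H (mem_biUnion.2 ⟨F, hF, hH⟩)⟩

theorem lieCl_ad (y : Module.End 𝕜 M) {G : Set (Module.End 𝕜 M)}
    (h : ∀ z ∈ G, z * y - y * z ∈ lieCl Q) (hx : x ∈ lieCl (Submodule.span 𝕜 G)) :
    x * y - y * x ∈ lieCl Q := by
  classical
  refine lieCl_map (LinearMap.mulRight 𝕜 y - LinearMap.mulLeft 𝕜 y)
    (fun F => ⟨{F, y F}, fun x x' h1 => ?_⟩) h hx
  show x (y F) - y (x F) = x' (y F) - y (x' F)
  rw [h1 F (by simp), h1 (y F) (by simp)]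

theorem lieCl_val (T : Module.End 𝕜 M →ₗ[𝕜] M) {G : Set (Module.End 𝕜 M)} (N : Submodule 𝕜 M)
    (hT : ∃ s : Finset M, ∀ x x', (∀ H ∈ s, x H = x' H) → T x = T x')
    (h : ∀ y ∈ G, T y ∈ N) (hx : x ∈ lieCl (Submodule.span 𝕜 G)) : T x ∈ N := by
  obtain ⟨s, hs⟩ := hT
  obtain ⟨x', h1, h2⟩ := hx s
  rw [hs _ _ h2]
  exact (Submodule.span_le.2 h : _ ≤ N.comap T) h1

theorem lie_mod (x A B : M) (ε : 𝕜) : x - ε • B + ε • A = x - -ε • (A - B) := by module

theorem lie_jac {A : Type} [Ring A] (x s e : A) :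
    (x * s - s * x) * e - e * (x * s - s * x) - ((x * e - e * x) * s - s * (x * e - e * x)) =
      x * (s * e - e * s) - (s * e - e * s) * x := by noncomm_ring

theorem lie_sub {A : Type} [Ring A] (x a b : A) :
    x * a - a * x - (x * b - b * x) = x * (a - b) - (a - b) * x := by noncomm_ring

end LieCl

namespace VD

variable {P : Type} [Fintype P] [DecidableEq P] (V : VD 𝕜 P)

/-- states generated by the points of `X₀` -/
inductive LieS (X₀ : Set P) : (MM 𝕜 P →ₗ[𝕜] 𝕜) → Prop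
  | pt (a : P) : a ∈ X₀ → LieS X₀ (phi 𝕜 {a})
  | step (a : P) (j : ℕ) (α : MM 𝕜 P →ₗ[𝕜] 𝕜) : a ∈ X₀ → LieS X₀ α → LieS X₀ (α ∘ₗ V.eM a j)

/-- modes of the generated states -/
def lieG (X₀ : Set P) : Set (Module.End 𝕜 (MM 𝕜 P)) := {x | ∃ m α, V.LieS X₀ α ∧ x = V.sig m α}

/-- the closed span of the modes -/
def lieN (X₀ : Set P) : Submodule 𝕜 (Module.End 𝕜 (MM 𝕜 P)) := lieCl (Submodule.span 𝕜 (V.lieG X₀))

variable {V} {X₀ : Set P} {α : MM 𝕜 P →ₗ[𝕜] 𝕜} {a : P}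

theorem lie_sig (h : V.LieS X₀ α) (m : ℤ) : V.sig m α ∈ V.lieN X₀ :=
  lieCl_le (Submodule.subset_span ⟨m, α, h, rfl⟩)

theorem lie_OO (ha : a ∈ X₀) (h : V.LieS X₀ α) (i : ℤ) : ∀ j m, V.OO a α j i m ∈ V.lieN X₀ := by
  induction i using Int.induction_on with
  | zero => exact fun j m => by rw [OO_eq]; exact lie_sig (.step a j α ha h) m
  | succ i ih =>
    intro j m
    have h1 := add_mem (ih (j + 1) m) (ih j (m + 1))
    rwa [OO, sub_add_cancel] at h1
  | pred i ih =>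
    intro j m
    have key : ∀ L : ℕ, ∃ ε : 𝕜, V.OO a α j (-i - 1) m - ε • V.OO a α (j + L) (-i - 1) (m - L)
        ∈ V.lieN X₀ := fun L => by
      induction L with
      | zero => exact ⟨1, by simp⟩
      | succ L ihL =>
        obtain ⟨ε, hε⟩ := ihL
        refine ⟨-ε, ?_⟩
        have h1 := add_mem hε (Submodule.smul_mem _ ε (ih (j + L) (m - (L + 1 : ℕ))))
        rw [← add_assoc, OO, sub_add_cancel, show m - (L + 1 : ℕ) + 1 = m - L by push_cast; ring]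
        exact (congrArg (· ∈ V.lieN X₀) (lie_mod _ _ _ _)).mp h1
    choose L hL using V.OO_vanish a α
    refine lieCl_cl fun s => ?_
    obtain ⟨ε, hε⟩ := key (s.sup fun F => (-i - 1 + m - L F).toNat)
    refine ⟨_, hε, fun F hF => ?_⟩
    have h1 := le_sup (f := fun F => (-i - 1 + m - L F).toNat) hF
    rw [LinearMap.sub_apply, LinearMap.smul_apply, hL F (j + _) _ _ (by omega), smul_zero, sub_zero]

theorem lie_ad (h : V.LieS X₀ α) : ∀ m, ∀ x ∈ V.lieN X₀,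
    x * V.sig m α - V.sig m α * x ∈ V.lieN X₀ := by
  have h0 : ∀ a ∈ X₀, ∀ i, ∀ x ∈ V.lieN X₀, x * V.eM a i - V.eM a i * x ∈ V.lieN X₀ :=
    fun a ha i x hx => lieCl_ad _ (by rintro _ ⟨m, β, hβ, rfl⟩; exact lie_OO ha hβ i 0 m) hx
  induction h with
  | pt a ha => exact fun m => by rw [sig_phi]; exact h0 a ha m
  | step a j α ha _ ih =>
    intro m x hx
    rw [← OO_eq]
    generalize (0 : ℤ) = i
    induction j generalizing i m with
    | zero =>
      exact (congrArg (· ∈ V.lieN X₀) (lie_jac _ _ _)).mp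
        (sub_mem (h0 a ha i _ (ih m x hx)) (ih m _ (h0 a ha i x hx)))
    | succ j ihj =>
      exact (congrArg (· ∈ V.lieN X₀) (lie_sub _ _ _)).mp
        (sub_mem (ihj m (i + 1)) (ihj (m + 1) i))

theorem lie_pr (S₀ : Finset P) (h : V.LieS X₀ α) : ∀ m, 0 ≤ m → ∀ F ∈ V.II X₀ S₀,
    V.sig m α F ∈ V.II X₀ S₀ := by
  have h0 : ∀ a ∈ X₀, ∀ i, 0 ≤ i → ∀ F ∈ V.II X₀ S₀, V.eM a i F ∈ V.II X₀ S₀ := by
    intro a ha i hi F hF L hL
    obtain ⟨i, rfl⟩ := Int.eq_ofNat_of_zero_le hi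
    exact hF ((a, i) :: L) (List.forall_mem_cons.2 ⟨ha, hL⟩)
  induction h with
  | pt a ha => exact fun m => by rw [sig_phi]; exact h0 a ha m
  | step a j α ha _ ih =>
    intro m hm F hF
    rw [← OO_eq]
    suffices H : ∀ (j : ℕ) (i m : ℤ), 0 ≤ i → 0 ≤ m → V.OO a α j i m F ∈ V.II X₀ S₀ from
      H j 0 m le_rfl hm
    intro j
    induction j with
    | zero =>
      exact fun i m hi hm => sub_mem (ih m hm _ (h0 a ha i hi F hF)) (h0 a ha i hi _ (ih m hm F hF))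
    | succ j ihj =>
      exact fun i m hi hm => sub_mem (ihj (i + 1) m (by omega) hm) (ihj i (m + 1) hi (by omega))

theorem lie_kill {F : MM 𝕜 P} (h : ∀ S, a ∈ S → F S = 0) (i : ℤ) : V.eM a i F = 0 := by
  funext Z
  rw [eM_apply, h _ (mem_insert_self _ _), map_zero, ite_self, Pi.zero_apply]

theorem lie_lab (j : ℤ) (F : MM 𝕜 P) (S : Finset P) (h : a ∈ S) : V.eM a j F S = 0 := by
  rw [eM_apply, if_pos h]

theorem lie_pi (m : ℤ) (α : MM 𝕜 P →ₗ[𝕜] 𝕜) :
    V.sig (-1) (phi 𝕜 ∅ ∘ₗ V.sig m α) = if m < 0 then V.sig m α else 0 := by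
  split_ifs with h
  · exact V.sig_phi_sig h α
  · rw [V.phi_sig_nonneg (not_lt.1 h)]
    exact map_zero V.sigL

theorem lie_cont (F : MM 𝕜 P) : ∃ s : Finset (MM 𝕜 P), ∀ x x' : Module.End 𝕜 (MM 𝕜 P),
    (∀ H ∈ s, x H = x' H) → V.sig (-1) (phi 𝕜 ∅ ∘ₗ x) F = V.sig (-1) (phi 𝕜 ∅ ∘ₗ x') F := by
  obtain ⟨s, hs⟩ := V.sig_finite (-1) F
  exact ⟨s, fun x x' h => hs _ _ fun G hG => congrArg (phi 𝕜 ∅) (h G hG)⟩

variable (V)

theorem exists_lie (X₀ : Set P) (S₀ : Finset P) : ∃ 𝔫 : Submodule 𝕜 (Module.End 𝕜 (MM 𝕜 P)),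
    (∀ x ∈ 𝔫, ∀ y ∈ 𝔫, x * y - y * x ∈ 𝔫) ∧ (∀ a ∈ X₀, ∀ j, V.eM a j ∈ 𝔫) ∧
    (∀ x ∈ 𝔫, V.sig (-1) (phi 𝕜 ∅ ∘ₗ x) ∈ 𝔫) ∧
    (∀ x ∈ 𝔫, ∀ F ∈ V.II X₀ S₀, x F - V.sig (-1) (phi 𝕜 ∅ ∘ₗ x) F ∈ V.II X₀ S₀) ∧
    (∀ x ∈ 𝔫, ∀ a i j, V.eM a i * x * V.eM a j = 0) ∧ ∀ a i j, V.eM a i * V.eM a j = 0 := by
  classical
  let T : Module.End 𝕜 (MM 𝕜 P) →ₗ[𝕜] Module.End 𝕜 (MM 𝕜 P) :=
    V.sigL ∘ₗ LinearMap.llcomp 𝕜 (MM 𝕜 P) (MM 𝕜 P) 𝕜 (phi 𝕜 ∅)
  refine ⟨V.lieN X₀, fun x hx y hy => ?_, fun a ha j => V.sig_phi a j ▸ lie_sig (.pt a ha) j,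
    fun x hx => lieCl_map T lie_cont ?_ hx, fun x hx F hF => ?_, fun x hx a i j => ?_,
    fun a i j => LinearMap.ext fun F => lie_kill (lie_lab j F) i⟩
  · refine lieCl_ad y ?_ hx
    rintro _ ⟨m, α, hα, rfl⟩
    rw [← neg_sub]
    exact neg_mem (lie_ad hα m y hy)
  · rintro _ ⟨m, α, hα, rfl⟩
    refine (congrArg (· ∈ V.lieN X₀) (lie_pi m α)).mpr ?_
    split_ifs
    · exact lie_sig hα m
    · exact zero_mem _
  · refine lieCl_val (LinearMap.applyₗ F ∘ₗ (LinearMap.id - T)) _ ?_ ?_ hx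
    · obtain ⟨s, hs⟩ := lie_cont (V := V) F
      exact ⟨insert F s, fun x x' h => congrArg₂ (· - ·) (h F (mem_insert_self _ _))
        (hs x x' fun H hH => h H (mem_insert_of_mem hH))⟩
    · rintro _ ⟨m, α, hα, rfl⟩
      show V.sig m α F - V.sig (-1) (phi 𝕜 ∅ ∘ₗ V.sig m α) F ∈ _
      rw [lie_pi]
      split_ifs with h
      · rw [sub_self]
        exact zero_mem _
      · rw [LinearMap.zero_apply, sub_zero]
        exact lie_pr S₀ hα m (not_lt.1 h) F hF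
  · refine LinearMap.ext fun F => ?_
    refine lieCl_val (V.eM a i ∘ₗ LinearMap.applyₗ (V.eM a j F)) ⊥
      ⟨{V.eM a j F}, fun x x' h => congrArg (V.eM a i) (h _ (mem_singleton_self _))⟩ ?_ hx
    rintro _ ⟨m, α, -, rfl⟩
    exact lie_kill (V.sig_label m α a _ (lie_lab j F)) i

end VD

end Pool.Agent.Work.MP_849ab0_ag.W
end
end

-- merged part: Pool.Agent.Work.MP_849ab0_ag.ZL
section
/-! Fewer generators for the Lie algebra of modes. -/

noncomputable section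

set_option linter.unusedSectionVars false

namespace Pool.Agent.Work.MP_849ab0_ag.W

variable {𝕜 : Type} [CommRing 𝕜]

open MvPolynomial Finset

namespace VD

variable {P : Type} [Fintype P] [DecidableEq P] (V : VD 𝕜 P)

/-- all modes vanish on the label `S` -/
def Van (X₀ : Set P) (S : Finset P) : Prop :=
  ∀ ξ ∈ V.lieN X₀, ∀ f, phi 𝕜 ∅ (ξ (Pi.single S f)) = 0

theorem zl_OO {Q : Submodule 𝕜 (Module.End 𝕜 (MM 𝕜 P))} (a : P) (α : MM 𝕜 P →ₗ[𝕜] 𝕜)
    (h : ∀ (j : ℕ) m, V.sig m (α ∘ₗ V.eM a j) ∈ lieCl Q) (i : ℤ) (j : ℕ) (m : ℤ) :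
    V.OO a α j i m ∈ lieCl Q := by
  induction i using Int.induction_on generalizing j m with
  | zero => rw [OO_eq]; exact h j m
  | succ i ih =>
    have h1 := add_mem (ih (j + 1) m) (ih j (m + 1))
    rwa [OO, sub_add_cancel] at h1
  | pred i ih =>
    have key : ∀ L : ℕ, ∃ ε : 𝕜, V.OO a α j (-i - 1) m - ε • V.OO a α (j + L) (-i - 1) (m - L)
        ∈ lieCl Q := fun L => by
      induction L with
      | zero => exact ⟨1, by simp⟩
      | succ L ihL =>
        obtain ⟨ε, hε⟩ := ihL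
        refine ⟨-ε, ?_⟩
        have h1 := add_mem hε (Submodule.smul_mem _ ε (ih (j + L) (m - (L + 1 : ℕ))))
        rw [← add_assoc, OO, sub_add_cancel, show m - (L + 1 : ℕ) + 1 = m - L by push_cast; ring]
        exact (congrArg (· ∈ lieCl Q) (lie_mod _ _ _ _)).mp h1
    choose L hL using V.OO_vanish a α
    refine lieCl_cl fun s => ?_
    obtain ⟨ε, hε⟩ := key (s.sup fun F => (-i - 1 + m - L F).toNat)
    refine ⟨_, hε, fun F hF => ?_⟩
    have h1 := le_sup (f := fun F => (-i - 1 + m - L F).toNat) hF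
    rw [LinearMap.sub_apply, LinearMap.smul_apply, hL F (j + _) _ _ (by omega), smul_zero, sub_zero]

theorem lieS_word {X₀ : Set P} {a : P} (ha : a ∈ X₀) (L : List (P × ℕ)) (hL : ∀ x ∈ L, x.1 ∈ X₀) :
    V.LieS X₀ (phi 𝕜 {a} ∘ₗ V.word L) := by
  induction L with
  | nil => exact .pt a ha
  | cons x L ih =>
    exact .step x.1 x.2 _ (hL x List.mem_cons_self) (ih fun y hy => hL y (List.mem_cons_of_mem _ hy))

theorem van_of_words {X₀ X₁ : Set P} (h1 : ∀ a ∈ X₀, ∀ b ∈ X₀, a ∉ X₁ → b ∉ X₁ →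
      ∀ j : ℕ, phi 𝕜 {a} ∘ₗ V.eM b j = 0) {S : Finset P} (hS : ∀ a, S ≠ {a})
    (h : ∀ a ∈ X₀, a ∈ X₁ → ∀ L : List (P × ℕ), (∀ x ∈ L, x.1 ∈ X₀) →
      ∀ f, phi 𝕜 {a} (V.word L (Pi.single S f)) = 0) : V.Van X₀ S := by
  obtain ⟨G, hG⟩ : ∃ G : Set (Module.End 𝕜 (MM 𝕜 P)), ∀ z, z ∈ G ↔
      (∃ a ∈ X₀, ∃ m, z = V.eM a m) ∨ ∃ a ∈ X₀, a ∈ X₁ ∧ ∃ L : List (P × ℕ),
        (∀ x ∈ L, x.1 ∈ X₀) ∧ ∃ m, z = V.sig m (phi 𝕜 {a} ∘ₗ V.word L) :=
    ⟨{z | _}, fun _ => Iff.rfl⟩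
  have hin : ∀ z ∈ G, z ∈ lieCl (Submodule.span 𝕜 G) := fun z hz =>
    lieCl_le (Submodule.subset_span hz)
  have hOO : ∀ c ∈ X₀, ∀ a ∈ X₀, a ∈ X₁ → ∀ L : List (P × ℕ), (∀ x ∈ L, x.1 ∈ X₀) → ∀ i m,
      V.OO c (phi 𝕜 {a} ∘ₗ V.word L) 0 i m ∈ lieCl (Submodule.span 𝕜 G) :=
    fun c hc a ha ha' L hL i m => by
      refine V.zl_OO c _ (fun j m => hin _ ((hG _).2 (Or.inr
        ⟨a, ha, ha', (c, j) :: L, List.forall_mem_cons.2 ⟨hc, hL⟩, m, ?_⟩))) i 0 m
      rw [word, Module.End.mul_eq_comp, LinearMap.comp_assoc]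
  have hO1 : ∀ c ∈ X₀, ∀ a ∈ X₀, a ∈ X₁ → ∀ i m,
      V.eM a m * V.eM c i - V.eM c i * V.eM a m ∈ lieCl (Submodule.span 𝕜 G) :=
    fun c hc a ha ha' i m => by
      rw [← V.sig_phi a m]
      exact hOO c hc a ha ha' [] (fun _ hx => absurd hx List.not_mem_nil) i m
  have had : ∀ c ∈ X₀, ∀ i, ∀ x ∈ lieCl (Submodule.span 𝕜 G),
      x * V.eM c i - V.eM c i * x ∈ lieCl (Submodule.span 𝕜 G) := fun c hc i x hx => by
    refine lieCl_ad _ (fun z hz => ?_) hx
    rcases (hG z).1 hz with ⟨a, ha, m, rfl⟩ | ⟨a, ha, ha', L, hL, m, rfl⟩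
    · by_cases h2 : a ∈ X₁
      · exact hO1 c hc a ha h2 i m
      by_cases h3 : c ∈ X₁
      · rw [← neg_sub]
        exact neg_mem (hO1 a ha c hc h3 m i)
      rw [← V.sig_phi a m]
      refine V.zl_OO c (phi 𝕜 {a}) (fun j m => ?_) i 0 m
      rw [h1 a ha c hc h2 h3 j, ← zero_smul 𝕜 (0 : MM 𝕜 P →ₗ[𝕜] 𝕜), sig_smul, zero_smul]
      exact zero_mem _
    · exact hOO c hc a ha ha' L hL i m
  have hsig : ∀ α, V.LieS X₀ α → ∀ m, V.sig m α ∈ lieCl (Submodule.span 𝕜 G) := fun α hα => by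
    induction hα with
    | pt a ha => exact fun m => hin _ ((hG _).2 (Or.inl ⟨a, ha, m, V.sig_phi a m⟩))
    | step a j α ha _ ih =>
      intro m
      rw [← OO_eq]
      generalize (0 : ℤ) = i
      induction j generalizing i m with
      | zero => exact had a ha i _ (ih m)
      | succ j ihj => exact sub_mem (ihj m (i + 1)) (ihj (m + 1) i)
  intro ξ hξ f
  have hM : ξ ∈ lieCl (Submodule.span 𝕜 G) := lieCl_cl fun s => by
    obtain ⟨x', k1, k2⟩ := hξ s
    refine ⟨x', Submodule.span_le.2 ?_ k1, k2⟩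
    rintro _ ⟨m, α, hα, rfl⟩
    exact hsig α hα m
  refine lieCl_val (LinearMap.applyₗ (Pi.single S f : MM 𝕜 P)) (LinearMap.ker (phi 𝕜 ∅))
    ⟨{Pi.single S f}, fun x x' k => k _ (mem_singleton_self _)⟩ (fun z hz => ?_) hM
  show phi 𝕜 ∅ (z (Pi.single S f)) = 0
  rcases (hG z).1 hz with ⟨a, -, m, rfl⟩ | ⟨a, ha, ha', L, hL, m, rfl⟩
  · show coeff 0 (V.eM a m (Pi.single S f) ∅) = 0
    rw [eM_apply, if_neg (notMem_empty a), insert_empty_eq, Pi.single_eq_of_ne (hS a).symm, map_zero,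
      coeff_zero]
  · rw [VOps_phi]
    refine sum_eq_zero fun T _ => ?_
    by_cases hT : T = S
    · subst hT
      exact h a ha ha' L hL _
    · rw [Pi.single_eq_of_ne hT, map_zero, map_zero]

theorem words_of_van {X₀ : Set P} {S : Finset P} (h : V.Van X₀ S) {a : P} (ha : a ∈ X₀)
    (L : List (P × ℕ)) (hL : ∀ x ∈ L, x.1 ∈ X₀) (f : AA 𝕜 P) :
    phi 𝕜 {a} (V.word L (JK 𝕜 (Pi.single S f))) = 0 := by
  exact (LinearMap.congr_fun (V.phi_sig _) _).symm.trans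
    (h _ (lie_sig (V.lieS_word ha L hL) (-1)) f)

open Pointwise in
theorem phi_eM_zero {a b : P} (h1 : V.rr a b = 0) (h2 : V.rr b a = 0) (j : ℕ) :
    phi 𝕜 {a} ∘ₗ V.eM b j = 0 := by
  refine LinearMap.ext fun F => ?_
  show coeff 0 (V.eM b j F {a}) = 0
  rw [eM_apply]
  split_ifs with hb
  · exact coeff_zero _
  have hp : ∀ c, posE 𝕜 b {a} c ∈ SR (AA 𝕜 P) (-AddSubmonoid.nonneg ℤ) := fun c => by
    unfold posE
    split_ifs
    · exact single_mem_SR (show (0 : ℤ) ≤ - -1 by decide) 1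
    · exact C_mem_SR _ _
    · exact zero_mem _
  have hK : V.KK (HahnSeries.C.comp (algebraMap 𝕜 _)) {b} {a} (posE 𝕜 b {a}) ∈
      SR (AA 𝕜 P) (-AddSubmonoid.nonneg ℤ) := by
    rw [KK, prod_singleton, prod_singleton, kap, kap, h1, h2, Multiset.map_zero, Multiset.map_zero,
      Multiset.prod_zero, mul_one, mul_one]
    exact mul_mem (pow_mem (sub_mem (hp _) (hp _)) _) (pow_mem (sub_mem (hp _) (hp _)) _)
  have h3 : V.eP b {a} j (F (insert b {a})) = 0 := by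
    by_contra h3
    have h4 : (0 : ℤ) ≤ -(j + 1) :=
      mul_mem (eval₂_mem (fun _ _ => C_mem_SR _ _) hp) hK _ h3
    omega
  rw [h3, coeff_zero]

theorem lieN_props (X₀ : Set P) :
    (∀ x ∈ V.lieN X₀, ∀ y ∈ V.lieN X₀, x * y - y * x ∈ V.lieN X₀) ∧
    (∀ a ∈ X₀, ∀ j, V.eM a j ∈ V.lieN X₀) ∧
    (∀ x ∈ V.lieN X₀, V.sig (-1) (phi 𝕜 ∅ ∘ₗ x) ∈ V.lieN X₀) ∧
    (∀ x ∈ V.lieN X₀, ∀ a i j, V.eM a i * x * V.eM a j = 0) ∧
    ∀ a i j, V.eM a i * V.eM a j = 0 := by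
  obtain ⟨T, hT⟩ : ∃ T : Module.End 𝕜 (MM 𝕜 P) →ₗ[𝕜] Module.End 𝕜 (MM 𝕜 P),
      ∀ x, T x = V.sig (-1) (phi 𝕜 ∅ ∘ₗ x) :=
    ⟨V.sigL ∘ₗ LinearMap.llcomp 𝕜 (MM 𝕜 P) (MM 𝕜 P) 𝕜 (phi 𝕜 ∅), fun _ => rfl⟩
  refine ⟨fun x hx y hy => ?_, fun a ha j => V.sig_phi a j ▸ lie_sig (.pt a ha) j,
    fun x hx => hT x ▸ lieCl_map T (by simpa only [hT] using lie_cont) ?_ hx,
    fun x hx a i j => ?_, fun a i j => LinearMap.ext fun F => lie_kill (lie_lab j F) i⟩
  · refine lieCl_ad y ?_ hx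
    rintro _ ⟨m, α, hα, rfl⟩
    rw [← neg_sub]
    exact neg_mem (lie_ad hα m y hy)
  · rintro _ ⟨m, α, hα, rfl⟩
    rw [hT, lie_pi]
    split_ifs
    · exact lie_sig hα m
    · exact zero_mem _
  · refine LinearMap.ext fun F => ?_
    refine lieCl_val (V.eM a i ∘ₗ LinearMap.applyₗ (V.eM a j F)) ⊥
      ⟨{V.eM a j F}, fun x x' h => congrArg (V.eM a i) (h _ (mem_singleton_self _))⟩ ?_ hx
    rintro _ ⟨m, α, -, rfl⟩
    exact lie_kill (V.sig_label m α a _ (lie_lab j F)) i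

end VD

end Pool.Agent.Work.MP_849ab0_ag.W
end
end

-- merged part: Pool.Agent.Work.MP_849ab0_ag.WGen
section
/-! The identity for generic positions of the points, with flavours. -/

noncomputable section

set_option linter.unusedSectionVars false

namespace Pool.Agent.Work.MP_849ab0_ag.W

open MvPolynomial Finset

variable {k n : ℕ} {E 𝕜 : Type} [Fintype E] [CommRing 𝕜] [Algebra ℚ 𝕜] (D : QD k n E 𝕜)

/-- the pair kernel of a quiver -/
def vd : VD 𝕜 (Option (Fin n)) where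
  pp a b := if a.map D.col = b.map D.col then 1 else 0
  rr a b := open Classical in
    (univ.filter fun e => D.tgt e = a.map D.col ∧ D.src e = b.map D.col).val.map D.t

/-- products of weights -/
def GS : Submonoid (Pol n 𝕜) := Submonoid.closure {x | ∃ p ∈ D.W2, x = D.chi p}

/-- the ring of generic positions -/
abbrev TG : Type := Localization (GS D)

/-- generic positions -/
def posG (S : Finset (Option (Fin n))) (b : Option (Fin n)) : TG D :=
  if b ∈ S then algebraMap (Pol n 𝕜) (TG D) (xv b) else 0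

/-- `f ↦ KS S * f (pos S)` -/
def evG (S : Finset (Option (Fin n))) : AA 𝕜 (Option (Fin n)) →ₗ[𝕜] TG D :=
  LinearMap.mulLeft 𝕜 ((vd D).KS (algebraMap 𝕜 (TG D)) S (posG D S)) ∘ₗ
    (aeval (posG D S)).toLinearMap

/-- the generic states with `j` points -/
def gam (S₀ : Finset (Option (Fin n))) (j : ℕ) : MM 𝕜 (Option (Fin n)) →ₗ[𝕜] TG D :=
  ∑ S ∈ univ.filter fun S => S ∩ {none} = S₀ ∧ (S.erase none).card = j,
    evG D S ∘ₗ LinearMap.proj S

theorem cpt_gam (S₀ S : Finset (Option (Fin n))) (j : ℕ) (f : AA 𝕜 (Option (Fin n))) :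
    cpt (gam D S₀ j) S f =
      if S ∩ {none} = S₀ ∧ (S.erase none).card = j then evG D S f else 0 := by
  unfold cpt gam
  rw [LinearMap.comp_apply, LinearMap.sum_apply, sum_filter, sum_eq_single S]
  · simp
  · intro U _ hU
    simp [Pi.single_eq_of_ne hU]
  · simp

theorem WGen_rr (a b : Option (Fin n)) : (vd D).rr a b =
    (open Classical in univ.filter fun e => (e, b, a) ∈ D.Wt).val.map D.t := by
  classical
  refine congrArg (fun s : Finset E => s.val.map D.t) (Finset.ext fun e => ?_)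
  simp only [mem_filter, mem_univ, true_and, QD.mem_Wt]
  exact ⟨fun h => ⟨h.2.symm, h.1.symm⟩, fun h => ⟨h.2.symm, h.1.symm⟩⟩

theorem WGen_mem_rr {a b : Option (Fin n)} {c : 𝕜} :
    c ∈ (vd D).rr a b ↔ ∃ e, (e, b, a) ∈ D.Wt ∧ D.t e = c := by
  rw [WGen_rr, Multiset.mem_map]
  simp only [mem_val, mem_filter, mem_univ, true_and]

theorem unit_pos {S : Finset (Option (Fin n))} {a b : Option (Fin n)} (ha : a ∈ S)
    (hb : b ∈ S.erase a) {c : 𝕜} (hc : c ∈ (vd D).rr a b) :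
    IsUnit (posG D S a - posG D S b + algebraMap 𝕜 (TG D) c) := by
  obtain ⟨e, he, rfl⟩ := (WGen_mem_rr D).1 hc
  rw [posG, posG, if_pos ha, if_pos (mem_of_mem_erase hb),
    IsScalarTower.algebraMap_apply 𝕜 (Pol n 𝕜) (TG D), ← map_sub, ← map_add]
  exact IsLocalization.map_units (TG D) (⟨_, Submonoid.subset_closure
    ⟨(e, b, a), D.mem_W2.2 ⟨he, ne_of_mem_erase hb⟩, rfl⟩⟩ : GS D)

theorem WGen_num : ∏ a : Option (Fin n), ∏ b ∈ univ.erase a,
    (xv a - xv b : Pol n 𝕜) ^ (vd D).pp a b = D.NUM := by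
  simp only [QD.NUM, QD.Rt, vd, ← filter_ne', prod_filter, Fintype.prod_prod_type,
    Fintype.prod_option]
  simp only [Option.map_none, Option.map_some, reduceCtorEq, if_false, pow_zero, ite_self,
    prod_const_one, mul_one, one_mul, xv_some, Option.some.injEq, ne_eq, not_true_eq_false]
  refine prod_congr rfl fun a _ => prod_congr rfl fun b _ => ?_
  by_cases h1 : D.col a = D.col b <;> by_cases h2 : a = b <;> simp [h1, h2, eq_comm]

theorem WGen_den {M : Type} [CommMonoid M] (F : Option (Fin n) → Option (Fin n) → 𝕜 → M) :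
    ∏ a : Option (Fin n), ∏ b ∈ univ.erase a, (((vd D).rr a b).map (F a b)).prod =
      ∏ p ∈ D.W2, F p.2.2 p.2.1 (D.t p.1) := by
  classical
  have h2 : ∀ a b : Option (Fin n), (if b ≠ a then (((vd D).rr a b).map (F a b)).prod else 1) =
      ∏ e, if (e, b, a) ∈ D.W2 then F a b (D.t e) else 1 := fun a b => by
    split_ifs with h
    · rw [← prod_filter, WGen_rr, Multiset.map_map]
      refine prod_congr (Finset.ext fun e => ?_) fun _ _ => rfl
      simp only [mem_filter, mem_univ, true_and, QD.mem_W2]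
      exact ⟨fun h' => ⟨h', h⟩, fun h' => h'.1⟩
    · refine (prod_eq_one fun e _ => if_neg fun h' => h (D.mem_W2.1 h').2).symm
  have h3 : ∏ p ∈ D.W2, F p.2.2 p.2.1 (D.t p.1) =
      ∏ p, if p ∈ D.W2 then F p.2.2 p.2.1 (D.t p.1) else 1 := by
    rw [prod_ite_mem, univ_inter]
  rw [h3, Fintype.prod_prod_type_right, Fintype.prod_prod_type_right]
  refine prod_congr rfl fun a _ => ?_
  rw [← filter_ne', prod_filter]
  exact prod_congr rfl fun b _ => h2 a b

theorem WGen_mono (π : Equiv.Perm (Fin n)) (kk : Fin n → ℕ) :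
    expand (RingHom.id 𝕜) π (∏ a, X a ^ kk a) =
      HahnSeries.single (toLex fun i => -(kk (π.symm i) : ℤ)) 1 := by
  have h : ∀ s : Finset (Fin n), expand (RingHom.id 𝕜) π (∏ a ∈ s, X a ^ kk a) =
      HahnSeries.single (∑ a ∈ s, kk a • toLex (-Pi.single (π a) 1 : Fin n → ℤ)) 1 := by
    intro s
    induction s using Finset.induction_on with
    | empty => simp
    | insert a s ha ih =>
      rw [prod_insert ha, sum_insert ha, map_mul, ih, map_pow, expand_X, vv, HahnSeries.single_pow,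
        HahnSeries.single_mul_single, one_pow, mul_one]
  rw [h]
  congr 2
  funext i
  obtain ⟨c, rfl⟩ := π.surjective i
  change (∑ a, kk a • (-Pi.single (π a) 1 : Fin n → ℤ)) (π c) = -(kk (π.symm (π c)) : ℤ)
  rw [Finset.sum_apply, sum_eq_single c]
  · simp
  · intro b _ hb
    simp [Pi.single_eq_of_ne (π.injective.ne hb.symm)]
  · simp

/-- the kernel of all points is the kernel of the residue pairing -/
theorem WGen_serH (π : Equiv.Perm (Fin n)) (kk : Fin n → ℕ) (f : Pol n 𝕜) :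
    (serH (vd D) π univ (rename some f)).coeff (expo π (fun a => kk a) univ) =
      D.r0 π (f * ∏ a, X a ^ kk a) := by
  have h0 : posH 𝕜 π univ = fun b => expand (RingHom.id 𝕜) π (xv b) := by
    funext b; simp [posH]
  have h1 : eval₂Hom HahnSeries.C (posH 𝕜 π univ) (rename some f) =
      expand (RingHom.id 𝕜) π f := by
    rw [h0]
    induction f using MvPolynomial.induction_on with
    | C r => simp
    | add p q hp hq => rw [map_add, map_add, map_add, hp, hq]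
    | mul_X p a hp => rw [map_mul, map_mul, map_mul, hp, rename_X, eval₂Hom_X', xv_some]
  have h2 : (vd D).KS HahnSeries.C univ (posH 𝕜 π univ) = expand (RingHom.id 𝕜) π D.NUM *
      Ring.inverse (expand (RingHom.id 𝕜) π (∏ p ∈ D.W2, D.chi p)) := by
    rw [← WGen_num, map_prod, map_prod, inverse_prod, h0]
    simp only [VD.KS, VD.kap, prod_mul_distrib, map_prod, map_pow, map_sub]
    rw [WGen_den D fun a b c => Ring.inverse (expand (RingHom.id 𝕜) π (xv a) -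
      expand (RingHom.id 𝕜) π (xv b) + HahnSeries.C c)]
    congr 1
    refine prod_congr rfl fun p _ => ?_
    rw [QD.chi, map_add, map_sub, expand_C]
    rfl
  have h3 : expo π (fun a => kk a) univ =
      (toLex fun _ => 1) - toLex fun i => -(kk (π.symm i) : ℤ) := by
    funext i
    change (if some (π.symm i) ∈ univ then (kk (π.symm i) : ℤ) + 1 else 0) =
      1 - -(kk (π.symm i) : ℤ)
    rw [if_pos (mem_univ _)]
    ring
  rw [serH, h1, h2, h3, QD.r0, map_mul, map_mul, WGen_mono,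
    ← one_mul (HahnSeries.coeff _ (_ - _)), ← coeff_single_mul']
  congr 1
  ring

theorem WGen_units (y : GS D) : IsUnit (expand (RingHom.id 𝕜) 1 y.1) := by
  obtain ⟨y, hy⟩ := y
  induction hy using Submonoid.closure_induction with
  | mem x hx =>
    obtain ⟨p, hp, rfl⟩ := hx
    exact isUnit_form _ 1 (D.mem_W2.1 hp).2.symm _
  | one => simp
  | mul x y _ _ hx hy => simpa using hx.mul hy

/-- expansion of generic positions -/
def WGen_io : TG D →+* HahnSeries (Gam n) 𝕜 := IsLocalization.lift (WGen_units D)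

theorem WGen_io_al (f : Pol n 𝕜) :
    WGen_io D (algebraMap (Pol n 𝕜) (TG D) f) = expand (RingHom.id 𝕜) 1 f :=
  IsLocalization.lift_eq _ _

theorem WGen_io_inj : Function.Injective (WGen_io D) :=
  (IsLocalization.lift_injective_iff (WGen_units D)).2 fun x y =>
    ⟨fun h => by rw [← WGen_io_al D, ← WGen_io_al D, h],
      fun h => by rw [expand_injective (φ := RingHom.id 𝕜) Function.injective_id 1 h]⟩

theorem WGen_io_C (c : 𝕜) : WGen_io D (algebraMap 𝕜 (TG D) c) = HahnSeries.C c := by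
  rw [IsScalarTower.algebraMap_apply 𝕜 (Pol n 𝕜) (TG D), WGen_io_al, algebraMap_eq, expand_C]
  rfl

theorem WGen_io_smul (c : 𝕜) (x : TG D) : WGen_io D (c • x) = HahnSeries.C c * WGen_io D x := by
  rw [Algebra.smul_def, map_mul, WGen_io_C]

theorem WGen_io_pos (S : Finset (Option (Fin n))) (b : Option (Fin n)) :
    WGen_io D (posG D S b) = posH 𝕜 1 S b := by
  unfold posG posH
  split_ifs
  · exact WGen_io_al D _
  · exact map_zero _

theorem WGen_io_evG (S : Finset (Option (Fin n))) (f : AA 𝕜 (Option (Fin n))) :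
    WGen_io D (evG D S f) = serH (vd D) 1 S f := by
  have h1 : WGen_io D (aeval (posG D S) f) = eval₂Hom HahnSeries.C (posH 𝕜 1 S) f := by
    induction f using MvPolynomial.induction_on with
    | C r => rw [aeval_C, WGen_io_C, eval₂Hom_C]
    | add p q hp hq => rw [map_add, map_add, map_add, hp, hq]
    | mul_X p a hp => rw [map_mul, map_mul, map_mul, hp, aeval_X, eval₂Hom_X', WGen_io_pos]
  have h0 : (WGen_io D).comp (algebraMap 𝕜 (TG D)) = HahnSeries.C :=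
    RingHom.ext (WGen_io_C D)
  have h2 : WGen_io D ((vd D).KS (algebraMap 𝕜 (TG D)) S (posG D S)) =
      (vd D).KS HahnSeries.C S (posH 𝕜 1 S) := by
    unfold VD.KS
    rw [map_prod]
    refine prod_congr rfl fun a ha => ?_
    rw [map_prod]
    refine prod_congr rfl fun b hb => ?_
    rw [(vd D).map_kap _ _ fun c hc => unit_pos D ha hb hc, map_sub, WGen_io_pos, WGen_io_pos, h0]
  change WGen_io D ((vd D).KS (algebraMap 𝕜 (TG D)) S (posG D S) * aeval (posG D S) f) = _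
  rw [map_mul, h1, h2, serH]

/-- coefficient extraction is multiplicative -/
def WGen_mult (kk : Fin n → ℤ) : VD.Mult 𝕜 (Option (Fin n)) (TG D) 𝕜 where
  Q S :=
    { carrier := {x | WGen_io D x ∈ HS 𝕜 1 S}
      add_mem' := fun {x y} hx hy => by
        change WGen_io D (x + y) ∈ HS 𝕜 1 S
        rw [map_add]; exact add_mem hx hy
      zero_mem' := by
        change WGen_io D 0 ∈ HS 𝕜 1 S
        rw [map_zero]; exact zero_mem _
      smul_mem' := fun c x hx => by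
        change WGen_io D (c • x) ∈ HS 𝕜 1 S
        rw [WGen_io_smul]; exact mul_mem (C_mem_SR _ c) hx }
  L S :=
    { toFun := fun x => (WGen_io D x).coeff (expo 1 kk S)
      map_add' := fun x y => by rw [map_add, HahnSeries.coeff_add]
      map_smul' := fun c x => by rw [WGen_io_smul, coeff_C_mul']; rfl }
  mul_mem S U _ x hx y hy := by
    have mono : ∀ {A B : Finset (Option (Fin n))}, A ⊆ B → ∀ z ∈ HS 𝕜 1 A, z ∈ HS 𝕜 1 B :=
      fun h z hz => link_mem_HS.2 fun γ hγ a ha => link_mem_HS.1 hz γ hγ a fun e => ha (h e)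
    change WGen_io D (x * y) ∈ HS 𝕜 1 (S ∪ U)
    rw [map_mul]
    exact mul_mem (mono subset_union_left _ hx) (mono subset_union_right _ hy)
  map_mul S U h x hx y hy := by
    change (WGen_io D (x * y)).coeff _ = _
    rw [map_mul]
    exact coeff_mul_HS 1 kk h hx hy

/-- related pairs of functionals -/
def WGen_rel (kk : Fin n → ℤ) :
    Submodule 𝕜 ((MM 𝕜 (Option (Fin n)) →ₗ[𝕜] TG D) × (MM 𝕜 (Option (Fin n)) →ₗ[𝕜] 𝕜)) where
  carrier := {x | (WGen_mult D kk).Rl x.1 x.2}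
  add_mem' := fun {x y} hx hy S f =>
    ⟨add_mem (hx S f).1 (hy S f).1, by
      change cpt x.2 S f + cpt y.2 S f = (WGen_mult D kk).L S (cpt x.1 S f + cpt y.1 S f)
      rw [map_add, (hx S f).2, (hy S f).2]⟩
  zero_mem' := fun S f => ⟨zero_mem _, (map_zero ((WGen_mult D kk).L S)).symm⟩
  smul_mem' := fun c x hx S f =>
    ⟨Submodule.smul_mem _ c (hx S f).1, by
      change c • cpt x.2 S f = (WGen_mult D kk).L S (c • cpt x.1 S f)
      rw [map_smul, (hx S f).2]⟩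

theorem WGen_rl (kk : Fin n → ℤ) {S₀ : Finset (Option (Fin n))} (hS₀ : S₀ ⊆ {none})
    (j : ℕ) : (gam D S₀ j, phi 𝕜 S₀ ∘ₗ
      gl ((List.finRange n).map fun a => (vd D).eM (some a) (kk a)) j) ∈ WGen_rel D kk := by
  intro S f
  have h := link_gl (vd D) kk hS₀ S j f
  refine ⟨?_, h.trans ?_⟩
  · change WGen_io D (cpt (gam D S₀ j) S f) ∈ HS 𝕜 1 S
    rw [cpt_gam]
    split_ifs
    · rw [WGen_io_evG]; exact serH_mem _ _ _ _
    · rw [map_zero]; exact zero_mem _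
  · change _ = (WGen_io D (cpt (gam D S₀ j) S f)).coeff _
    rw [cpt_gam]
    split_ifs
    · rw [WGen_io_evG]
    · rw [map_zero, HahnSeries.coeff_zero]

theorem gen_zero (f : Pol n 𝕜) (hf : ∀ π g, D.r0 π (f * g) = 0) :
    ∑ j ∈ range (n + 1), WW 𝕜 (vd D).star (gam D ∅) (n - j) (gam D {none} j)
      (Pi.single univ (rename some f)) = 0 := by
  apply WGen_io_inj D
  rw [map_zero]
  ext γ
  obtain ⟨kk, rfl⟩ : ∃ kk : Fin n → ℤ, γ = expo 1 kk univ :=
    ⟨fun a => ofLex γ a - 1, by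
      funext i
      change ofLex γ i = if some i ∈ univ then ofLex γ i - 1 + 1 else 0
      rw [if_pos (mem_univ _), sub_add_cancel]⟩
  obtain ⟨L, hL⟩ : ∃ L, L = (List.finRange n).map fun a => (vd D).eM (some a) (kk a) := ⟨_, rfl⟩
  obtain ⟨W, hW0, hW, hWW⟩ := exists_W (vd D).sigL (vd D).star (vd D).comp_sig
    fun j => phi 𝕜 ∅ ∘ₗ gl L j
  obtain ⟨𝔫, h1, h2, h3, h4, h5, h6⟩ := (vd D).exists_lie (Set.range some) {none}
  have hB := birk (phi 𝕜 ∅) (vd D).sigL (JK 𝕜) (vd D).phi_sig ((vd D).sig_JK (-1)) 𝔫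
    ((vd D).II (Set.range some) {none}) h1 h3 h4 L (by
      intro e he
      rw [hL] at he
      obtain ⟨a, -, rfl⟩ := List.mem_map.1 he
      refine ⟨h2 _ ⟨a, rfl⟩ _, ?_, h6 _ _ _, fun x hx => h5 x hx _ _ _⟩
      rw [← (vd D).sig_phi, (vd D).sig_JK]) W
    (fun m => bb 𝕜 (vd D).star (fun j => phi 𝕜 ∅ ∘ₗ gl L j) (m - 1)) hW0 hW (fun m => by
      simp only [Nat.add_sub_cancel, bb, hWW, LinearMap.comp_assoc]) (phi 𝕜 {none})
    (fun F hF => hF [] (by simp)) n (Pi.single univ (rename some f))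
    (link_II (vd D) _ fun π kk => by rw [WGen_serH, hf])
  rw [HahnSeries.coeff_zero, ← hB]
  change (WGen_mult D kk).L univ _ = _
  rw [map_sum]
  refine sum_congr rfl fun j _ => ?_
  have h := WW_rel (st := (vd D).star) (st' := (vd D).star) (γ := gam D ∅)
    (γ' := fun j => phi 𝕜 ∅ ∘ₗ gl L j) (WGen_rel D kk)
    (fun x hx y hy => (vd D).star_rl (WGen_mult D kk) hx hy)
    (fun j => hL ▸ WGen_rl D kk (empty_subset _) (j + 1)) (n - j)
    (hL ▸ WGen_rl D kk subset_rfl j : (gam D {none} j, phi 𝕜 {none} ∘ₗ gl L j) ∈ WGen_rel D kk)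
  have := (h univ (rename some f)).2
  rw [hWW] at this
  exact this.symm

end Pool.Agent.Work.MP_849ab0_ag.W
end
end

-- merged part: Pool.Agent.Work.MP_849ab0_ag.WFin
section
/-! Summing over positions: the states become monopole operators, with flavours. -/

noncomputable section

set_option linter.unusedSectionVars false

namespace Pool.Agent.Work.MP_849ab0_ag.W

open MvPolynomial Finset

variable {k n : ℕ} {E 𝕜 : Type} [Fintype E] [CommRing 𝕜] [IsDomain 𝕜] [Algebra ℚ 𝕜]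
  (D : QD k n E 𝕜)

/-- rational functions -/
abbrev K0 (n : ℕ) (𝕜 : Type) [CommRing 𝕜] : Type := FractionRing (Pol n 𝕜)

/-- the commutative abelianised ring -/
abbrev TF (n : ℕ) (𝕜 : Type) [CommRing 𝕜] : Type := AddMonoidAlgebra (K0 n 𝕜) (Fin n → ℤ)

/-- leading coefficient -/
def c0 (μ : Fin n → ℤ) : K0 n 𝕜 :=
  algebraMap _ (K0 n 𝕜) (D.mm μ) / algebraMap _ (K0 n 𝕜) (D.ee μ)

/-- monopole operator in the commutative ring -/
def mon0 (μ : Fin n → ℤ) (g : Pol n 𝕜) : TF n 𝕜 := ∑ w : stab D.col,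
  AddMonoidAlgebra.single (μ ∘ w.1.symm)
    (algebraMap _ (K0 n 𝕜) (rename w.1 g) * c0 D (μ ∘ w.1.symm))

variable (𝕜) in
/-- positions of the points of `U` -/
def pos0 (U : Finset (Option (Fin n))) (b : Option (Fin n)) : K0 n 𝕜 :=
  if b ∈ U then algebraMap (Pol n 𝕜) (K0 n 𝕜) (xv b) else 0

/-- a monomial in the weights and the roots -/
def wfinG (e : E × Option (Fin n) × Option (Fin n) → ℤ) (f : Fin n × Fin n → ℤ) : K0 n 𝕜 :=
  (∏ p ∈ D.W2, algebraMap (Pol n 𝕜) (K0 n 𝕜) (D.chi p) ^ e p) *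
    ∏ q ∈ D.Rt with q.1 ≠ q.2, algebraMap (Pol n 𝕜) (K0 n 𝕜) (X q.1 - X q.2) ^ f q

theorem wfin_chi_ne {p : E × Option (Fin n) × Option (Fin n)} (hp : p ∈ D.W2) :
    algebraMap (Pol n 𝕜) (K0 n 𝕜) (D.chi p) ≠ 0 := by
  refine (map_ne_zero_iff _ (IsFractionRing.injective _ _)).2 fun e => ?_
  have h := isUnit_form (RingHom.id 𝕜) 1 (D.mem_W2.1 hp).2.symm (D.t p.1)
  change IsUnit (expand _ _ (D.chi p)) at h
  rw [e, map_zero] at h
  exact not_isUnit_zero h

theorem wfin_rt_ne {a b : Fin n} (h : a ≠ b) :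
    algebraMap (Pol n 𝕜) (K0 n 𝕜) (X a - X b) ≠ 0 :=
  (map_ne_zero_iff _ (IsFractionRing.injective _ _)).2
    (sub_ne_zero.2 fun e => h (X_injective e))

theorem wfinG_mul (e e' : E × Option (Fin n) × Option (Fin n) → ℤ) (f f' : Fin n × Fin n → ℤ) :
    wfinG D e f * wfinG D e' f' = wfinG D (fun p => e p + e' p) (fun q => f q + f' q) := by
  unfold wfinG
  rw [mul_mul_mul_comm, ← prod_mul_distrib, ← prod_mul_distrib]
  congr 1
  · exact prod_congr rfl fun p hp => (zpow_add₀ (wfin_chi_ne D hp) _ _).symm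
  · exact prod_congr rfl fun q hq => (zpow_add₀ (wfin_rt_ne (mem_filter.1 hq).2) _ _).symm

theorem wfinG_congr {e e' : E × Option (Fin n) × Option (Fin n) → ℤ} {f f' : Fin n × Fin n → ℤ}
    (h1 : ∀ p ∈ D.W2, e p = e' p) (h2 : ∀ q : Fin n × Fin n, q.1 ≠ q.2 → f q = f' q) :
    wfinG D e f = wfinG D e' f' := by
  unfold wfinG
  congr 1
  · exact prod_congr rfl fun p hp => by rw [h1 p hp]
  · exact prod_congr rfl fun q hq => by rw [h2 q (mem_filter.1 hq).2]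

theorem wfinG_prod (S : Finset (Fin n))
    (e : Fin n → E × Option (Fin n) × Option (Fin n) → ℤ) (f : Fin n → Fin n × Fin n → ℤ) :
    ∏ a ∈ S, wfinG D (e a) (f a) =
      wfinG D (fun p => ∑ a ∈ S, e a p) (fun q => ∑ a ∈ S, f a q) := by
  induction S using Finset.induction_on with
  | empty => simp [wfinG]
  | insert a S ha ih =>
    rw [prod_insert ha, ih, wfinG_mul]
    exact wfinG_congr D (fun p _ => by rw [sum_insert ha]) fun q _ => by rw [sum_insert ha]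

theorem wfin_c0 (hh : D.h = 0) (μ : Fin n → ℤ) :
    c0 D μ = wfinG D (fun p => max (ov μ p.2.1 - ov μ p.2.2) 0)
      (fun q => -max (μ q.1 - μ q.2) 0) := by
  unfold c0 wfinG QD.ee
  rw [QD.mm_W2, div_eq_mul_inv, map_prod, map_prod, ← prod_inv_distrib, prod_filter]
  congr 1
  · refine prod_congr rfl fun p _ => ?_
    simp only [hh, map_zero, mul_zero, add_zero, prod_const, Int.card_Ico, map_pow]
    rw [← zpow_natCast]
    congr 1
    omega
  · refine prod_congr rfl fun q _ => ?_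
    simp only [hh, map_zero, mul_zero, add_zero, prod_const, Int.card_Ico, map_pow]
    split_ifs with h
    · rw [← zpow_natCast, ← zpow_neg]
      congr 1
      omega
    · rw [not_not.1 h]; simp

theorem wfin_KS (U : Finset (Option (Fin n))) :
    (vd D).KS (algebraMap 𝕜 (K0 n 𝕜)) U (pos0 𝕜 U) =
      wfinG D (fun p => if p.2.1 ∈ U ∧ p.2.2 ∈ U then -1 else 0)
        (fun q => if some q.1 ∈ U ∧ some q.2 ∈ U then 1 else 0) := by
  classical
  have key : ∀ F : Option (Fin n) → Option (Fin n) → K0 n 𝕜,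
      ∏ a ∈ U, ∏ b ∈ U.erase a, F a b =
        ∏ a, ∏ b, if a ∈ U ∧ b ∈ U ∧ b ≠ a then F a b else 1 := by
    intro F
    rw [← Fintype.prod_ite_mem U]
    refine prod_congr rfl fun a _ => ?_
    split_ifs with h
    · rw [← Fintype.prod_ite_mem (U.erase a)]
      refine prod_congr rfl fun b _ => ?_
      simp only [mem_erase, h, true_and, and_comm]
    · simp [h]
  unfold VD.KS VD.kap wfinG
  simp only [prod_mul_distrib]
  rw [mul_comm]
  congr 1
  · rw [key, QD.W2, QD.Wt, filter_filter, prod_filter, Fintype.prod_prod_type, prod_comm]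
    conv_rhs => rw [prod_comm, Fintype.prod_prod_type]
    refine prod_congr rfl fun b _ => prod_congr rfl fun a _ => ?_
    simp only [vd]
    rw [Multiset.map_map, ← prod_eq_multiset_prod, prod_filter]
    by_cases h : a ∈ U ∧ b ∈ U ∧ b ≠ a
    · rw [if_pos h]
      refine prod_congr rfl fun e _ => ?_
      simp only [h.1, h.2.1, and_self, if_true, zpow_neg, zpow_one, Ring.inverse_eq_inv', pos0,
        QD.chi, map_add, map_sub, Function.comp_apply]
      by_cases h' : D.tgt e = a.map D.col ∧ D.src e = b.map D.col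
      · rw [if_pos h', if_pos ⟨⟨h'.2.symm, h'.1.symm⟩, h.2.2⟩,
          IsScalarTower.algebraMap_apply 𝕜 (Pol n 𝕜) (K0 n 𝕜), algebraMap_eq]
      · rw [if_neg h', if_neg fun h'' => h' ⟨h''.1.2.symm, h''.1.1.symm⟩]
    · rw [if_neg h]
      symm
      refine prod_eq_one fun e _ => ?_
      split_ifs with h1 h2
      · exact absurd ⟨h2.2, h2.1, h1.2⟩ h
      · exact zpow_zero _
      · rfl
  · rw [key, QD.Rt, filter_filter, prod_filter, Fintype.prod_prod_type, Fintype.prod_option]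
    have h1 : ∏ b : Option (Fin n), (if none ∈ U ∧ b ∈ U ∧ b ≠ none then
        (pos0 𝕜 U none - pos0 𝕜 U b) ^ (vd D).pp none b else 1) = 1 := by
      refine prod_eq_one fun b _ => ?_
      cases b <;> simp [vd]
    rw [h1, one_mul]
    refine prod_congr rfl fun a _ => ?_
    rw [Fintype.prod_option]
    have h2 : (if some a ∈ U ∧ none ∈ U ∧ none ≠ some a then
        (pos0 𝕜 U (some a) - pos0 𝕜 U none) ^ (vd D).pp (some a) none else 1) = 1 := by simp [vd]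
    rw [h2, one_mul]
    refine prod_congr rfl fun b _ => ?_
    by_cases h3 : some a ∈ U <;> by_cases h4 : some b ∈ U <;> by_cases h5 : a = b <;>
      by_cases h6 : D.col a = D.col b <;> simp [vd, pos0, h3, h4, h5, h6, Ne.symm]

theorem wfin_ov (S : Finset (Fin n)) (o : Option (Fin n)) :
    ov (ind S) o = if o ∈ S.image some then 1 else 0 := by
  cases o <;> simp [ind]

theorem wfin_sum (S : Finset (Fin n)) {o o' : Option (Fin n)} (h : o ≠ o') :
    ∑ a ∈ S, max (ov (-ind {a}) o - ov (-ind {a}) o') 0 = ov (ind S) o' := by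
  have : ∀ a : Fin n, max (ov (-ind {a}) o - ov (-ind {a}) o') 0 = if o' = some a then 1 else 0 := by
    intro a
    simp only [ov_neg, wfin_ov, image_singleton, mem_singleton]
    split_ifs with h1 h2
    · exact absurd (h1.trans h2.symm) h
    all_goals simp
  rw [sum_congr rfl fun a _ => this a]
  cases o' <;> simp [ind]

theorem wfin_prod (hh : D.h = 0) (S : Finset (Fin n)) :
    ∏ a ∈ S, c0 D (-ind {a}) = wfinG D (fun p => ov (ind S) p.2.2) (fun q => -ind S q.2) := by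
  rw [prod_congr rfl fun a _ => wfin_c0 D hh _, wfinG_prod]
  refine wfinG_congr D (fun p hp => wfin_sum S (D.mem_W2.1 hp).2) fun q hq => ?_
  rw [sum_neg_distrib]
  exact congrArg Neg.neg
    (wfin_sum S (o := some q.1) (o' := some q.2) fun e => hq (Option.some.inj e))

theorem c0_neg (hh : D.h = 0) (S : Finset (Fin n)) :
    (∏ a ∈ S, c0 D (-ind {a})) *
      (vd D).KS (algebraMap 𝕜 (K0 n 𝕜)) (S.image some) (pos0 𝕜 (S.image some)) =
      c0 D (-ind S) := by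
    rw [wfin_prod D hh, wfin_KS, wfinG_mul, wfin_c0 D hh]
    refine wfinG_congr D (fun p _ => ?_) fun q _ => ?_
    · simp only [ov_neg, wfin_ov]
      by_cases h1 : p.2.1 ∈ S.image some <;> by_cases h2 : p.2.2 ∈ S.image some <;> simp [h1, h2]
    · by_cases h1 : q.1 ∈ S <;> by_cases h2 : q.2 ∈ S <;> simp [ind, h1, h2]

theorem c0_pos (hh : D.h = 0) (S : Finset (Fin n)) :
    c0 D (ind univ) * (∏ a ∈ S, c0 D (-ind {a})) *
      (vd D).KS (algebraMap 𝕜 (K0 n 𝕜)) (insert none (S.image some))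
        (pos0 𝕜 (insert none (S.image some))) = c0 D (ind Sᶜ) := by
    rw [wfin_prod D hh, wfin_KS, wfin_c0 D hh, wfin_c0 D hh, wfinG_mul, wfinG_mul]
    refine wfinG_congr D (fun p hp => ?_) fun q _ => ?_
    · have := (D.mem_W2.1 hp).2
      obtain ⟨e, _ | a, _ | b⟩ := p
      · exact absurd rfl this
      · by_cases h2 : b ∈ S <;> simp [ind, h2]
      · by_cases h1 : a ∈ S <;> simp [ind, h1]
      · by_cases h1 : a ∈ S <;> by_cases h2 : b ∈ S <;> simp [ind, h1, h2]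
    · by_cases h1 : q.1 ∈ S <;> by_cases h2 : q.2 ∈ S <;> simp [ind, h1, h2]

end Pool.Agent.Work.MP_849ab0_ag.W
end
end

-- merged part: Pool.Agent.Work.MP_849ab0_ag.WTwo
section
/-! The radical of the residue pairing lies in the ideal of the monopole operators,
with flavours and loops. -/

noncomputable section

set_option linter.unusedSectionVars false

namespace Pool.Agent.Work.MP_849ab0_ag.W

open MvPolynomial Finset

variable {k n : ℕ} {E 𝕜 : Type} [Fintype E] [CommRing 𝕜] [IsDomain 𝕜] [Algebra ℚ 𝕜]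
  (D : QD k n E 𝕜)

/-- `φ` if it preserves colours, else the identity -/
def twCp (φ : Fin n → Fin n) : Fin n → Fin n := if ∀ a, D.col (φ a) = D.col a then φ else id

theorem twCp_col (φ : Fin n → Fin n) (o : Option (Fin n)) :
    (o.map (twCp D φ)).map D.col = o.map D.col := by
  cases o with
  | none => rfl
  | some a =>
    unfold twCp
    split_ifs with h
    · simp [h a]
    · simp

theorem tw_xv_ne {a b : Option (Fin n)} (h : a ≠ b) (c : 𝕜) :
    (xv a - xv b + C c : Pol n 𝕜) ≠ 0 := fun e => by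
  have := isUnit_form (RingHom.id 𝕜) 1 h c
  rw [e, map_zero] at this
  exact not_isUnit_zero this

omit [IsDomain 𝕜] in
theorem tw_unit {N : ℕ} (hN : N ≠ 0) : IsUnit (N : 𝕜) := by
  rw [← map_natCast (algebraMap ℚ 𝕜)]
  exact (IsUnit.mk0 _ (Nat.cast_ne_zero.2 hN)).map _

theorem tw_chi_ne (hl : D.LG) (φ : Fin n → Fin n) {p : E × Option (Fin n) × Option (Fin n)}
    (hp : p ∈ D.W2) : rename (twCp D φ) (D.chi p) ≠ 0 := by
  obtain ⟨h1, h2⟩ := D.mem_Wt.1 (D.mem_W2.1 hp).1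
  rw [QD.chi, map_add, map_sub, rename_xv, rename_xv, rename_C]
  by_cases e : p.2.2.map (twCp D φ) = p.2.1.map (twCp D φ)
  · rw [e, sub_self, zero_add]
    exact C_ne_zero.2 (hl _ (by rw [← h1, ← h2, ← twCp_col D φ p.2.1, ← e, twCp_col]))
  · exact tw_xv_ne e _

/-- specialisation of generic positions -/
def twSp (hl : D.LG) (φ : Fin n → Fin n) : (TG D) →ₐ[𝕜] K0 n 𝕜 :=
  IsLocalization.liftAlgHom (M := (GS D))
    (f := (IsScalarTower.toAlgHom 𝕜 (Pol n 𝕜) (K0 n 𝕜)).comp (rename (twCp D φ))) (by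
      rintro ⟨y, hy⟩
      induction hy using Submonoid.closure_induction with
      | mem x hx =>
        obtain ⟨p, hp, rfl⟩ := hx
        exact IsUnit.mk0 _ ((map_ne_zero_iff _ (IsFractionRing.injective (Pol n 𝕜) (K0 n 𝕜))).2
          (tw_chi_ne D hl φ hp))
      | one => simp
      | mul x y _ _ hx hy => simpa using hx.mul hy)

theorem twSp_al (hl : D.LG) {φ : Fin n → Fin n} (h : ∀ a, D.col (φ a) = D.col a) (g : Pol n 𝕜) :
    twSp D hl φ (algebraMap _ _ g) = algebraMap _ (K0 n 𝕜) (rename φ g) := by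
  rw [twSp, IsLocalization.liftAlgHom_apply, IsLocalization.lift_eq, twCp, if_pos h]; rfl

/-- the ordinary points of a label -/
def twX (S : Finset (Option (Fin n))) : Finset (Fin n) := univ.filter fun a => some a ∈ S

theorem mem_twX {S : Finset (Option (Fin n))} {a : Fin n} : a ∈ twX S ↔ some a ∈ S := by
  simp [twX]

/-- the one-point weight -/
def twB (a : Fin n) : TF n 𝕜 := AddMonoidAlgebra.single (-ind {a}) (c0 D (-ind {a}))

/-- one term of the sum over positions -/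
def twT (hl : D.LG) (S : Finset (Option (Fin n))) (φ : Fin n → Fin n) : (TG D) →ₗ[𝕜] TF n 𝕜 :=
  LinearMap.mulLeft 𝕜 (∏ a ∈ twX S, twB D (φ a)) ∘ₗ
    ((IsScalarTower.toAlgHom 𝕜 (K0 n 𝕜) (TF n 𝕜)).comp (twSp D hl φ)).toLinearMap

theorem twT_apply (hl : D.LG) (S : Finset (Option (Fin n))) (φ : Fin n → Fin n) (x : (TG D)) :
    twT D hl S φ x = (∏ a ∈ twX S, twB D (φ a)) * algebraMap _ (TF n 𝕜) (twSp D hl φ x) := rfl

/-- summing over positions -/
def twM (hl : D.LG) : VD.Mult 𝕜 (Option (Fin n)) (TG D) (TF n 𝕜) where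
  Q S :=
    { carrier := {x | ∀ φ ψ : Fin n → Fin n, (∀ a, D.col (φ a) = D.col a) →
        (∀ a, D.col (ψ a) = D.col a) → (∀ a, some a ∈ S → φ a = ψ a) → twSp D hl φ x = twSp D hl ψ x}
      add_mem' := fun hx hy φ ψ h1 h2 h3 => by
        rw [map_add, map_add, hx φ ψ h1 h2 h3, hy φ ψ h1 h2 h3]
      zero_mem' := fun φ ψ _ _ _ => by rw [map_zero, map_zero]
      smul_mem' := fun c x hx φ ψ h1 h2 h3 => by rw [map_smul, map_smul, hx φ ψ h1 h2 h3] }
  L S := ∑ φ ∈ Maps D.col (twX S), twT D hl S φ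
  mul_mem S U _ x hx y hy φ ψ h1 h2 h3 := by
    rw [map_mul, map_mul, hx φ ψ h1 h2 fun a ha => h3 a (mem_union_left _ ha),
      hy φ ψ h1 h2 fun a ha => h3 a (mem_union_right _ ha)]
  map_mul S U h x hx y hy := by
    have e : twX (S ∪ U) = twX S ∪ twX U := by ext a; simp [mem_twX]
    have d : Disjoint (twX S) (twX U) := disjoint_left.2 fun a h1 h2 =>
      disjoint_left.1 h (mem_twX.1 h1) (mem_twX.1 h2)
    have k : ∀ (S : Finset (Option (Fin n))) (φ : Fin n → Fin n), (∀ a, D.col (φ a) = D.col a) →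
        (∀ a, D.col ((twX S).piecewise φ id a) = D.col a) ∧
        (∀ a, some a ∈ S → (twX S).piecewise φ id a = φ a) := fun S φ hφ =>
      ⟨fun a => by by_cases ha : a ∈ twX S <;> simp [ha, hφ],
        fun a ha => piecewise_eq_of_mem _ _ _ (mem_twX.2 ha)⟩
    simp only [LinearMap.sum_apply]
    rw [sum_mul_sum, ← sum_Maps_union D.col d fun φ ψ => twT D hl S φ x * twT D hl U ψ y, e]
    refine sum_congr rfl fun φ hφ => ?_
    have h1 := (mem_Maps.1 hφ).1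
    rw [twT_apply, twT_apply, twT_apply, e, prod_union d, map_mul, map_mul,
      hx _ φ (k S φ h1).1 h1 (k S φ h1).2, hy _ φ (k U φ h1).1 h1 (k U φ h1).2,
      prod_congr rfl fun a ha => congrArg (twB D) ((k S φ h1).2 a (mem_twX.1 ha)),
      prod_congr rfl fun a ha => congrArg (twB D) ((k U φ h1).2 a (mem_twX.1 ha))]
    ring

variable (𝕜) in
/-- specialised positions -/
def twP (S : Finset (Option (Fin n))) (φ : Fin n → Fin n) (b : Option (Fin n)) : K0 n 𝕜 :=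
  if b ∈ S then algebraMap (Pol n 𝕜) (K0 n 𝕜) (xv (b.map φ)) else 0

theorem twP_congr {S : Finset (Option (Fin n))} {φ ψ : Fin n → Fin n}
    (h : ∀ a, some a ∈ S → φ a = ψ a) : twP 𝕜 S φ = twP 𝕜 S ψ := by
  funext b
  unfold twP
  split_ifs with hb
  · cases b with
    | none => rfl
    | some a => rw [Option.map_some, Option.map_some, h a hb]
  · rfl

theorem twSp_evG (hl : D.LG) {φ : Fin n → Fin n} (h : ∀ a, D.col (φ a) = D.col a)
    (S : Finset (Option (Fin n))) (p : AA 𝕜 (Option (Fin n))) :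
    twSp D hl φ (evG D S p) = (vd D).KS (algebraMap 𝕜 (K0 n 𝕜)) S (twP 𝕜 S φ) * aeval (twP 𝕜 S φ) p := by
  have e : ∀ b, twSp D hl φ (posG D S b) = twP 𝕜 S φ b := fun b => by
    unfold posG twP
    split_ifs
    · rw [twSp_al D hl h, rename_xv]
    · exact map_zero _
  change twSp D hl φ ((vd D).KS (algebraMap 𝕜 (TG D)) S (posG D S) * aeval (posG D S) p) = _
  rw [map_mul, ← AlgHom.comp_apply (twSp D hl φ) (aeval _), comp_aeval, funext e, VD.KS, VD.KS,
    map_prod]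
  congr 1
  refine prod_congr rfl fun a ha => ?_
  rw [map_prod]
  refine prod_congr rfl fun b hb => ?_
  rw [← e, ← e, ← map_sub]
  refine ((vd D).map_kap (twSp D hl φ : TG D →+* K0 n 𝕜) _ fun c hc => unit_pos D ha hb hc).trans ?_
  rw [AlgHom.comp_algebraMap]; rfl

/-- the states after summation -/
def twG (hl : D.LG) (S₀ : Finset (Option (Fin n))) (j : ℕ) : MM 𝕜 (Option (Fin n)) →ₗ[𝕜] TF n 𝕜 :=
  ∑ S ∈ univ.filter fun S => S ∩ {none} = S₀ ∧ (S.erase none).card = j,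
    (twM D hl).L S ∘ₗ evG D S ∘ₗ LinearMap.proj S

theorem twG_apply (hl : D.LG) (S₀ : Finset (Option (Fin n))) (j : ℕ) (F : MM 𝕜 (Option (Fin n))) :
    twG D hl S₀ j F = ∑ S ∈ univ.filter fun S => S ∩ {none} = S₀ ∧ (S.erase none).card = j,
      (twM D hl).L S (evG D S (F S)) := LinearMap.sum_apply _ _ _

theorem cpt_twG (hl : D.LG) (S₀ S : Finset (Option (Fin n))) (j : ℕ) (f : AA 𝕜 (Option (Fin n))) :
    cpt (twG D hl S₀ j) S f =
      if S ∩ {none} = S₀ ∧ (S.erase none).card = j then (twM D hl).L S (evG D S f) else 0 := by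
  change twG D hl S₀ j (Pi.single S f) = _
  rw [twG_apply, sum_filter, sum_eq_single S (fun U _ h => by simp [Pi.single_eq_of_ne h])
    (by simp), Pi.single_eq_same]

theorem twG_rl (hl : D.LG) (S₀ : Finset (Option (Fin n))) (j : ℕ) :
    (twM D hl).Rl (gam D S₀ j) (twG D hl S₀ j) := fun S f => by
  rw [cpt_gam, cpt_twG]
  split_ifs
  · exact ⟨fun φ ψ h1 h2 h3 => by rw [twSp_evG D hl h1, twSp_evG D hl h2, twP_congr h3], rfl⟩
  · exact ⟨zero_mem _, (map_zero _).symm⟩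

theorem tw_zero (hl : D.LG) (f : Pol n 𝕜)
    (hf : ∀ π g, D.r0 π (f * g) = 0) :
    ∑ j ∈ range (n + 1), WW 𝕜 (vd D).star (twG D hl ∅) (n - j) (twG D hl {none} j)
      (Pi.single univ (rename some f)) = 0 := by
  let N : Submodule 𝕜 ((MM 𝕜 (Option (Fin n)) →ₗ[𝕜] (TG D)) × (MM 𝕜 (Option (Fin n)) →ₗ[𝕜] TF n 𝕜)) :=
    { carrier := {x | (twM D hl).Rl x.1 x.2}
      add_mem' := fun {x y} hx hy S f => ⟨add_mem (hx S f).1 (hy S f).1,
        (congrArg₂ (· + ·) (hx S f).2 (hy S f).2).trans (map_add _ _ _).symm⟩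
      zero_mem' := fun S f => ⟨zero_mem _, (map_zero _).symm⟩
      smul_mem' := fun c x hx S f => ⟨Submodule.smul_mem _ c (hx S f).1,
        (congrArg (c • ·) (hx S f).2).trans (map_smul _ _ _).symm⟩ }
  have h := congrArg ((twM D hl).L univ) (gen_zero D f hf)
  rw [map_zero, map_sum] at h
  rw [← h]
  refine sum_congr rfl fun j _ => ?_
  have h2 : (twM D hl).Rl _ _ := WW_rel (γ := gam D ∅) (γ' := twG D hl ∅) (ψ := gam D {none} j)
    (ψ' := twG D hl {none} j) N (fun x hx y hy => (vd D).star_rl (twM D hl) hx hy)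
    (fun j => twG_rl D hl ∅ _) (n - j) (twG_rl D hl {none} j)
  exact (h2 univ (rename some f)).2

theorem tw_KS (w : stab D.col) (S : Finset (Option (Fin n))) :
    (vd D).KS (algebraMap 𝕜 (K0 n 𝕜)) S (twP 𝕜 S w.1) = (vd D).KS (algebraMap 𝕜 (K0 n 𝕜)) (S.image (Option.map w.1)) (pos0 𝕜 (S.image (Option.map w.1))) := by
  have i : Function.Injective (Option.map w.1) := Option.map_injective w.1.injective
  have c : ∀ o : Option (Fin n), (o.map w.1).map D.col = o.map D.col := fun o => by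
    cases o <;> simp [w.2 _]
  have e : ∀ b ∈ S, pos0 𝕜 (S.image (Option.map w.1)) (b.map w.1) = twP 𝕜 S w.1 b := fun b hb => by
    rw [pos0, twP, if_pos hb, if_pos (mem_image_of_mem _ hb)]
  rw [VD.KS, VD.KS, prod_image i.injOn]
  refine prod_congr rfl fun a ha => ?_
  rw [← image_erase i, prod_image i.injOn]
  refine prod_congr rfl fun b hb => ?_
  rw [e a ha, e b (mem_of_mem_erase hb)]
  simp only [VD.kap, vd, c]

variable (𝕜) in
/-- the polynomial with the variables outside the label killed -/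
def twZ (S : Finset (Option (Fin n))) : AA 𝕜 (Option (Fin n)) →ₐ[𝕜] Pol n 𝕜 :=
  aeval fun b => if b ∈ S then xv b else 0

theorem tw_sum (hl : D.LG) (S : Finset (Option (Fin n))) : ∃ c : 𝕜, IsUnit c ∧ ∀ p,
    (twM D hl).L S (evG D S p) = c • ∑ w : stab D.col, AddMonoidAlgebra.single
      (-ind ((twX S).image w.1)) (algebraMap _ (K0 n 𝕜) (rename w.1 (twZ 𝕜 S p)) *
        ((∏ a ∈ (twX S).image w.1, c0 D (-ind {a})) *
          (vd D).KS (algebraMap 𝕜 (K0 n 𝕜)) (S.image (Option.map w.1)) (pos0 𝕜 (S.image (Option.map w.1))))) := by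
  obtain ⟨N, hN, h⟩ := sum_restrict D.col (twX S)
  obtain ⟨u, hu⟩ : IsUnit (N : 𝕜) := tw_unit hN
  refine ⟨((u⁻¹ : 𝕜ˣ) : 𝕜), Units.isUnit _, fun p => ?_⟩
  rw [← Units.smul_def, eq_inv_smul_iff, Units.smul_def, hu, Nat.cast_smul_eq_nsmul]
  have h1 := h fun φ => (∏ a ∈ twX S, twB D (φ a)) *
    algebraMap _ (TF n 𝕜) ((vd D).KS (algebraMap 𝕜 (K0 n 𝕜)) S (twP 𝕜 S φ) * aeval (twP 𝕜 S φ) p)
  rw [sum_filter_of_ne] at h1
  · change N • (∑ φ ∈ Maps D.col (twX S), twT D hl S φ) _ = _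
    rw [LinearMap.sum_apply, sum_congr rfl fun φ hφ => by
      rw [twT_apply, twSp_evG D hl (mem_Maps.1 hφ).1], ← h1]
    refine sum_congr rfl fun w _ => ?_
    have e : aeval (twP 𝕜 S w.1) p = algebraMap _ (K0 n 𝕜) (rename w.1 (twZ 𝕜 S p)) := by
      refine AlgHom.congr_fun (?_ : aeval (twP 𝕜 S w.1) = (IsScalarTower.toAlgHom 𝕜 (Pol n 𝕜)
        (K0 n 𝕜)).comp ((rename w.1).comp (twZ 𝕜 S))) p
      refine algHom_ext fun b => ?_
      by_cases hb : b ∈ S <;> simp [twP, twZ, hb, rename_xv]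
    have e2 : ∑ a ∈ (twX S).image w.1, -ind {a} = -ind ((twX S).image w.1) := by
      funext b
      simp only [ind, Finset.sum_apply, Pi.neg_apply, mem_singleton, sum_neg_distrib, sum_ite_eq]
    rw [twP_congr (ψ := w.1) fun a ha => piecewise_eq_of_mem _ _ _ (mem_twX.2 ha),
      prod_congr rfl fun a ha => congrArg (twB D) ((twX S).piecewise_eq_of_mem w.1 id ha),
      ← prod_image (f := twB D) w.1.injective.injOn, e, tw_KS]
    simp only [twB]
    rw [AddMonoidAlgebra.prod_single, e2, AddMonoidAlgebra.coe_algebraMap, Function.comp_apply,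
      AddMonoidAlgebra.single_mul_single, add_zero, Algebra.algebraMap_self, RingHom.id_apply]
    congr 1
    ring
  · intro φ hφ h0 a ha b hb e
    by_contra ne
    have c : D.col a = D.col b := by rw [← (mem_Maps.1 hφ).1 a, e, (mem_Maps.1 hφ).1 b]
    have ha' := mem_twX.1 ha
    have hb' := mem_twX.1 hb
    refine h0 ?_
    rw [VD.KS, prod_eq_zero ha' (prod_eq_zero (i := some b) (mem_erase.2 ⟨by simpa using Ne.symm ne,
      hb'⟩) (by simp [VD.kap, vd, twP, ha', hb', e, c])), zero_mul, map_zero, mul_zero]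

theorem tw_ind (w : Equiv.Perm (Fin n)) (S : Finset (Fin n)) :
    ind S ∘ w.symm = ind (S.image w) := by
  funext a
  obtain ⟨b, rfl⟩ := w.surjective a
  simp [ind]

theorem tw_val (hl : D.LG) (hh : D.h = 0) (S : Finset (Option (Fin n))) :
    ∃ c : 𝕜, IsUnit c ∧ ∀ p, (none ∉ S → (twM D hl).L S (evG D S p) = c • mon0 D (-ind (twX S)) (twZ 𝕜 S p)) ∧
      (none ∈ S → AddMonoidAlgebra.single (ind univ) (c0 D (ind univ)) * (twM D hl).L S (evG D S p) =
        c • mon0 D (ind (twX S)ᶜ) (twZ 𝕜 S p)) := by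
  obtain ⟨c, hc, h⟩ := tw_sum D hl S
  refine ⟨c, hc, fun p => ⟨fun hS => ?_, fun hS => ?_⟩⟩
  · rw [h, mon0]
    refine congrArg _ (sum_congr rfl fun w _ => ?_)
    have e : S.image (Option.map w.1) = ((twX S).image w.1).image some := by
      ext b
      cases b <;> simp [mem_twX, hS]
    rw [e, c0_neg D hh, ← tw_ind]; rfl
  · rw [h, mon0, mul_smul_comm, mul_sum]
    refine congrArg _ (sum_congr rfl fun w _ => ?_)
    have e : S.image (Option.map w.1) = insert none (((twX S).image w.1).image some) := by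
      ext b
      cases b <;> simp [mem_twX, hS]
    have e2 : ∀ U : Finset (Fin n), ind univ + -ind U = ind Uᶜ := fun U => by
      funext a
      by_cases ha : a ∈ U <;> simp [ind, ha]
    have e3 : (twX S)ᶜ.image w.1 = ((twX S).image w.1)ᶜ := by
      ext a
      obtain ⟨b, rfl⟩ := w.1.surjective a
      simp
    rw [e, AddMonoidAlgebra.single_mul_single, e2, tw_ind, e3, ← c0_pos D hh]
    congr 1
    ring

theorem smul_mon0 (c : 𝕜) (μ : Fin n → ℤ) (g : Pol n 𝕜) : c • mon0 D μ g = mon0 D μ (c • g) := by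
  simp only [mon0, smul_sum, AddMonoidAlgebra.smul_single, map_smul, ← smul_mul_assoc]
  refine sum_congr rfl fun w _ => ?_
  exact congrArg (fun x => AddMonoidAlgebra.single _ (x * _))
    (map_smul (IsScalarTower.toAlgHom 𝕜 (Pol n 𝕜) (K0 n 𝕜)) c (rename w.1 g)).symm

/-- functionals with values in a subspace -/
def twF (Q : Submodule 𝕜 (TF n 𝕜)) : Submodule 𝕜 (MM 𝕜 (Option (Fin n)) →ₗ[𝕜] TF n 𝕜) where
  carrier := {α | ∀ F, α F ∈ Q}
  add_mem' hx hy F := add_mem (hx F) (hy F)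
  zero_mem' _ := zero_mem _
  smul_mem' c _ hx F := Q.smul_mem c (hx F)

theorem twF_star {Q₁ Q₂ Q₃ : Submodule 𝕜 (TF n 𝕜)} (h : ∀ x ∈ Q₁, ∀ y ∈ Q₂, x * y ∈ Q₃) :
    ∀ x ∈ twF Q₁, ∀ y ∈ twF Q₂, (vd D).star x y ∈ twF Q₃ := fun _ hx _ hy => (vd D).star_val h hx hy

theorem two (hl : D.LG) (hh : D.h = 0) {f : Pol n 𝕜}
    (hf : f ∈ Inv 𝕜 D.col) (hr : ∀ π g, D.r0 π (f * g) = 0) :
    (AddMonoidAlgebra.single 0 (algebraMap _ (K0 n 𝕜) f) : TF n 𝕜) ∈ AddSubgroup.closure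
      {x | ∃ (S : Finset (Fin n)) (g : Pol n 𝕜) (y : TF n 𝕜) (S' : Finset (Fin n)) (g' : Pol n 𝕜),
        S.Nonempty ∧ y ∈ Subring.closure {z | ∃ U p, z = mon0 D (-ind U) p} ∧
        x = mon0 D (-ind S) g * (y * mon0 D (ind S') g')} := by
  set B := Subring.closure {z | ∃ U p, z = mon0 D (-ind U) p} with hB
  set sT := {x | ∃ (S : Finset (Fin n)) (g : Pol n 𝕜) (y : TF n 𝕜) (S' : Finset (Fin n))
    (g' : Pol n 𝕜), S.Nonempty ∧ y ∈ B ∧ x = mon0 D (-ind S) g * (y * mon0 D (ind S') g')}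
  set sN := {x | ∃ (S : Finset (Fin n)) (g : Pol n 𝕜) (y : TF n 𝕜), S.Nonempty ∧ y ∈ B ∧
    x = mon0 D (-ind S) g * y}
  set sQ := {x | ∃ (y : TF n 𝕜) (S' : Finset (Fin n)) (g' : Pol n 𝕜), y ∈ B ∧
    x = y * mon0 D (ind S') g'}
  set Cf : TF n 𝕜 := AddMonoidAlgebra.single (ind univ) (c0 D (ind univ)) with hCf
  have mB : ∀ U p, mon0 D (-ind U) p ∈ B := fun U p => Subring.subset_closure ⟨U, p, rfl⟩
  have key : ∀ {s t u : Set (TF n 𝕜)}, (∀ x ∈ s, ∀ y ∈ t, x * y ∈ u) → ∀ x ∈ Submodule.span 𝕜 s,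
      ∀ y ∈ Submodule.span 𝕜 t, x * y ∈ Submodule.span 𝕜 u := fun h x hx y hy => by
    have := Submodule.mul_mem_mul hx hy
    rw [Submodule.span_mul_span] at this
    exact Submodule.span_mono (Set.mul_subset_iff.2 h) this
  have k1 := key (s := sN) (t := sN) (u := sN) (by
    rintro _ ⟨S, g, y, h1, h2, rfl⟩ _ ⟨S', g', y', -, h4, rfl⟩
    exact ⟨S, g, _, h1, mul_mem h2 (mul_mem (mB S' g') h4), mul_assoc _ _ _⟩)
  have k2 := key (s := sN) (t := sQ) (u := sQ) (by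
    rintro _ ⟨S, g, y, h1, h2, rfl⟩ _ ⟨y', S', g', h4, rfl⟩
    exact ⟨_, S', g', mul_mem (mul_mem (mB S g) h2) h4, (mul_assoc _ _ _).symm⟩)
  have k3 := key (s := sN) (t := sQ) (u := sT) (by
    rintro _ ⟨S, g, y, h1, h2, rfl⟩ _ ⟨y', S', g', h4, rfl⟩
    exact ⟨S, g, _, S', g', h1, mul_mem h2 h4, by ring⟩)
  have k4 : ∀ m j, WW 𝕜 (vd D).star (twG D hl ∅) (m + 1) (twG D hl {none} j) ∈
      twF ((Submodule.span 𝕜 sT).comap (LinearMap.mulLeft 𝕜 Cf)) := fun m j => by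
    refine WW_val (twF (Submodule.span 𝕜 sN))
      (twF ((Submodule.span 𝕜 sQ).comap (LinearMap.mulLeft 𝕜 Cf))) _
      (twF_star D k1) (fun x hx y hy => ⟨twF_star D ?_ x hx y hy, twF_star D ?_ x hx y hy⟩)
      (fun j => ?_) m ?_
    · exact fun x hx y hy => Submodule.mem_comap.2 (by
        rw [LinearMap.mulLeft_apply, mul_left_comm]; exact k2 x hx _ hy)
    · exact fun x hx y hy => Submodule.mem_comap.2 (by
        rw [LinearMap.mulLeft_apply, mul_left_comm]; exact k3 x hx _ hy)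
    · intro F
      rw [twG_apply]
      refine sum_mem fun S hS => ?_
      obtain ⟨h1, h2⟩ := (mem_filter.1 hS).2
      obtain ⟨c, -, h⟩ := tw_val D hl hh S
      obtain ⟨b, hb⟩ := card_pos.1 (h2.symm ▸ j.succ_pos : 0 < (S.erase none).card)
      obtain ⟨a, rfl⟩ := Option.ne_none_iff_exists'.1 (ne_of_mem_erase hb)
      rw [(h _).1 fun h0 => notMem_empty none (h1 ▸ mem_inter.2 ⟨h0, mem_singleton_self _⟩)]
      exact Submodule.smul_mem _ _ (Submodule.subset_span ⟨_, _, 1,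
        ⟨a, mem_twX.2 (mem_of_mem_erase hb)⟩, one_mem _, (mul_one _).symm⟩)
    · intro F
      rw [twG_apply]
      refine sum_mem fun S hS => ?_
      obtain ⟨c, -, h⟩ := tw_val D hl hh S
      rw [Submodule.mem_comap, LinearMap.mulLeft_apply, (h _).2
        (mem_inter.1 ((mem_filter.1 hS).2.1 ▸ mem_singleton_self _)).1]
      exact Submodule.smul_mem _ _ (Submodule.subset_span ⟨1, _, _, one_mem _, (one_mul _).symm⟩)
  have h0 := tw_zero D hl f hr
  rw [sum_range_succ, Nat.sub_self, WW_zero] at h0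
  have h1 : Cf * cpt (twG D hl {none} n) univ (rename some f) ∈ Submodule.span 𝕜 sT := by
    refine Submodule.mem_comap.1 (show _ ∈ (Submodule.span 𝕜 sT).comap (LinearMap.mulLeft 𝕜 Cf) from
      eq_neg_of_add_eq_zero_right h0 ▸ neg_mem (sum_mem fun j hj => ?_))
    rw [show n - j = n - j - 1 + 1 by have := mem_range.1 hj; omega]
    exact k4 _ _ _
  obtain ⟨c, hc, h⟩ := tw_val D hl hh univ
  have e1 : ind (twX (univ : Finset (Option (Fin n))))ᶜ = 0 := by funext a; simp [ind, twX]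
  have e2 : twZ 𝕜 univ (rename some f) = f := by
    rw [twZ, aeval_rename, show ((fun b => if b ∈ univ then xv b else 0) ∘ some) =
      (X : Fin n → Pol n 𝕜) from funext fun a => by simp, aeval_X_left_apply]
  have e3 : mon0 D 0 f = (Fintype.card (stab D.col) : 𝕜) •
      AddMonoidAlgebra.single 0 (algebraMap _ (K0 n 𝕜) f) := by
    rw [Nat.cast_smul_eq_nsmul, ← card_univ, ← sum_const]
    refine sum_congr rfl fun w _ => ?_
    rw [hf w.1 w.2, show (0 : Fin n → ℤ) ∘ w.1.symm = 0 from rfl, c0, QD.mm_zero, QD.ee_zero, map_one,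
      div_one, mul_one]
  rw [cpt_twG, if_pos ⟨univ_inter _, by simp [card_erase_of_mem]⟩, (h _).2 (mem_univ _), e1, e2, e3,
    Submodule.smul_mem_iff_of_isUnit _ hc,
    Submodule.smul_mem_iff_of_isUnit _ (tw_unit Fintype.card_ne_zero),
    ← Submodule.mem_toAddSubmonoid, Submodule.span_eq_closure] at h1
  refine (AddSubmonoid.closure_le (S := (AddSubgroup.closure sT).toAddSubmonoid)).2 ?_ h1
  rintro _ ⟨c, -, _, ⟨S, g, y, S', g', h1, h2, rfl⟩, rfl⟩
  exact AddSubgroup.subset_closure ⟨S, c • g, y, S', g', h1, h2, by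
    rw [← smul_mon0, smul_mul_assoc]⟩

end Pool.Agent.Work.MP_849ab0_ag.W
end
end

-- merged part: Pool.Agent.Work.MP_849ab0_ag.Dec2
section
/-! Reduction to invariant polynomials for a generic character. -/

noncomputable section

set_option linter.unusedSectionVars false

namespace Pool.Agent.Work.MP_849ab0_ag

open MvPolynomial Finset

namespace QD

variable {k n : ℕ} {E R : Type} [Fintype E] [CommRing R] [IsDomain R] [Algebra ℚ R]
  (D : QD k n E R)

/-- removing the leading term -/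
theorem dec2_step (𝔎 : Ideal D.Om)
    (h𝔎 : ∀ l g, D.al g * D.cc l ∈ 𝔎 → ∀ m, D.al (C (coeff m g)) ∈ 𝔎)
    (J : AddSubgroup (D.Op D.Om)) (hJ : ∀ r, ∀ x ∈ J, D.cst D.Om (C r) * x ∈ J)
    (T : Finset (Fin n → ℤ))
    (hex : ∀ l ∈ T, l ≠ 0 → Dom D.col l → ∀ g ∈ Inv R fun a => (D.col a, l a),
      ∃ r ∈ D.Alg D.Om, (∀ μ, D.co r μ ≠ 0 → μ ∈ T) ∧ D.Lead r l (D.al g * D.cc l) ∧ r ∈ J)
    {l : Fin n → ℤ} (hT : l ∈ T) (hd : Dom D.col l) {g : Pol n R}
    (hg : g ∈ Inv R fun a => (D.col a, l a)) (hk : D.al g * D.cc l ∈ 𝔎) :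
    ∃ r ∈ D.Alg D.Om, (∀ μ, D.co r μ ≠ 0 → μ ∈ T) ∧ D.Lead r l (D.al g * D.cc l) ∧
      (∀ μ, D.co r μ ∈ 𝔎) ∧ ∃ f ∈ Inv R D.col, D.al f ∈ 𝔎 ∧ r - D.cst D.Om f ∈ J := by
  by_cases hl0 : l = 0
  · subst hl0
    rw [dec_cc_zero, mul_one] at hk ⊢
    have hg' : g ∈ Inv R D.col := fun w hw => hg w fun a => Prod.ext (hw a) rfl
    have hz : ∀ μ, D.co (D.cst D.Om g) μ ≠ 0 → μ = 0 := by
      intro μ h
      rw [dec_co_cst] at h
      by_contra e
      exact h (if_neg (Ne.symm e))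
    refine ⟨D.cst D.Om g, D.cst_mem hg', ?_, ⟨?_, ?_⟩, ?_, g, hg', hk, ?_⟩
    · intro μ h
      rw [hz μ h]; exact hT
    · rw [dec_co_cst, if_pos rfl]
    · intro μ h
      rw [hz μ h]
    · intro μ
      rw [dec_co_cst]
      split_ifs
      · exact hk
      · exact zero_mem _
    · rw [sub_self]; exact zero_mem _
  · have hG : ∀ m : Fin n →₀ ℕ, (C (algebraMap ℚ R
        (Fintype.card (stab fun a => (D.col a, l a)) : ℚ)⁻¹) *
        Av (fun a => (D.col a, l a)) (monomial m 1) : Pol n R) ∈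
          Inv R fun a => (D.col a, l a) := fun m =>
      mul_mem ((Inv R _).algebraMap_mem _) (Av_mem _ _)
    choose r hr1 hr2 hr4 hr5 using fun m => hex l hT hl0 hd _ (hG m)
    have hco : ∀ μ, D.co (∑ m ∈ g.support, D.cst D.Om (C (coeff m g)) * r m) μ =
        ∑ m ∈ g.support, D.al (C (coeff m g)) * D.co (r m) μ := by
      intro μ
      rw [co_sum]
      exact sum_congr rfl fun m _ => D.dec_co_cst_mul _ _ _
    have hne : ∀ μ, D.co (∑ m ∈ g.support, D.cst D.Om (C (coeff m g)) * r m) μ ≠ 0 →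
        ∃ m, D.co (r m) μ ≠ 0 := by
      intro μ h
      rw [hco] at h
      obtain ⟨m, -, hm⟩ := exists_ne_zero_of_sum_ne_zero h
      exact ⟨m, right_ne_zero_of_mul hm⟩
    refine ⟨∑ m ∈ g.support, D.cst D.Om (C (coeff m g)) * r m, ?_, ?_, ⟨?_, ?_⟩, ?_,
      0, zero_mem _, by rw [map_zero]; exact zero_mem _, ?_⟩
    · exact sum_mem fun m _ => mul_mem (D.cst_mem ((Inv R _).algebraMap_mem _)) (hr1 m)
    · intro μ h
      obtain ⟨m, hm⟩ := hne μ h
      exact hr2 m μ hm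
    · rw [hco]
      conv_rhs => rw [inv_decomp _ hg, map_sum, sum_mul]
      refine sum_congr rfl fun m _ => ?_
      rw [(hr4 m).1, map_mul D.al (C (coeff m g)), mul_assoc]
    · intro μ h
      obtain ⟨m, hm⟩ := hne μ h
      exact (hr4 m).2 μ hm
    · intro μ
      rw [hco]
      exact sum_mem fun m _ => Ideal.mul_mem_right _ _ (h𝔎 l g hk m)
    · rw [← cstHom_apply, map_zero, sub_zero]
      exact sum_mem fun m _ => hJ _ _ (hr5 m)

theorem dec2 (hl : D.GN) (hh : D.h ≠ 0) (𝔎 : Ideal D.Om)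
    (h𝔎 : ∀ l g, D.al g * D.cc l ∈ 𝔎 → ∀ m, D.al (C (coeff m g)) ∈ 𝔎)
    (J : AddSubgroup (D.Op D.Om)) (hJ : ∀ r, ∀ x ∈ J, D.cst D.Om (C r) * x ∈ J)
    (T : Finset (Fin n → ℤ))
    (hex : ∀ l ∈ T, l ≠ 0 → Dom D.col l → ∀ g ∈ Inv R fun a => (D.col a, l a),
      ∃ r ∈ D.Alg D.Om, (∀ μ, D.co r μ ≠ 0 → μ ∈ T) ∧ D.Lead r l (D.al g * D.cc l) ∧ r ∈ J)
    (x : D.Op D.Om) (hx : x ∈ D.Alg D.Om) (hT : ∀ μ, D.co x μ ≠ 0 → μ ∈ T)
    (hk : ∀ μ, D.co x μ ∈ 𝔎) :
    ∃ f ∈ Inv R D.col, D.al f ∈ 𝔎 ∧ x - D.cst D.Om f ∈ J := by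
  classical
  have : CharZero R := algebraRat.charZero R
  obtain ⟨N, hN⟩ : ∃ N, (T.filter fun μ => ∃ μ', D.co x μ' ≠ 0 ∧ toLex μ ≤ toLex μ').card = N :=
    ⟨_, rfl⟩
  induction N using Nat.strong_induction_on generalizing x with
  | _ N ih =>
    rcases (D.sup x).eq_empty_or_nonempty with he | he
    · have : x = 0 := D.op_ext fun μ => by
        by_contra h
        have := D.mem_sup.2 h
        rw [he] at this
        simp at this
      refine ⟨0, zero_mem _, by rw [map_zero]; exact zero_mem _, ?_⟩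
      rw [this, ← cstHom_apply, map_zero, sub_zero]
      exact zero_mem _
    · obtain ⟨l, hl1, hl2⟩ := exists_max_image (D.sup x) (fun μ => toLex μ) he
      have hl1' := D.mem_sup.1 hl1
      have hm : ∀ μ, D.co x μ ≠ 0 → toLex μ ≤ toLex l := fun μ h => hl2 μ (D.mem_sup.2 h)
      obtain ⟨hd, g, hg, hco⟩ := D.lc2 hl hh (D.good_of_mem hh hx) hl1' hm
      obtain ⟨r, r1, r2, r4, r5, f, f1, f2, f3⟩ :=
        D.dec2_step 𝔎 h𝔎 J hJ T hex (hT l hl1') hd hg (hco ▸ hk l)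
      have hne : ∀ μ, D.co (x - r) μ ≠ 0 → D.co x μ ≠ 0 ∨ D.co r μ ≠ 0 := by
        intro μ h
        by_contra h'
        push Not at h'
        rw [co_sub, h'.1, h'.2, sub_zero] at h
        exact h rfl
      have hlt : ∀ μ, D.co (x - r) μ ≠ 0 → toLex μ < toLex l := by
        intro μ h
        refine lt_of_le_of_ne ((hne μ h).elim (hm μ) (r4.2 μ)) fun e => ?_
        have e' : μ = l := toLex.injective e
        rw [e', co_sub, r4.1, hco, sub_self] at h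
        exact h rfl
      have c1 : (T.filter fun μ => ∃ μ', D.co (x - r) μ' ≠ 0 ∧ toLex μ ≤ toLex μ').card < N := by
        rw [← hN]
        refine card_lt_card ⟨?_, fun hsub => ?_⟩
        · intro μ hμ
          obtain ⟨h1, μ', h2, h3⟩ := mem_filter.1 hμ
          exact mem_filter.2 ⟨h1, l, hl1', h3.trans (hlt μ' h2).le⟩
        · obtain ⟨-, μ', h2, h3⟩ := mem_filter.1
            (hsub (mem_filter.2 ⟨hT l hl1', l, hl1', le_rfl⟩))
          exact absurd (hlt μ' h2) (not_lt.2 h3)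
      have c2 : ∀ μ, D.co (x - r) μ ≠ 0 → μ ∈ T := fun μ h => (hne μ h).elim (hT μ) (r2 μ)
      have c4 : ∀ μ, D.co (x - r) μ ∈ 𝔎 := fun μ => by
        rw [co_sub]
        exact sub_mem (hk μ) (r5 μ)
      obtain ⟨f', g1, g2, g3⟩ := ih _ c1 (x - r) (sub_mem hx r1) c2 c4 rfl
      refine ⟨f + f', add_mem f1 g1, by rw [map_add]; exact add_mem f2 g2, ?_⟩
      have : x - D.cst D.Om (f + f') =
          (x - r - D.cst D.Om f') + (r - D.cst D.Om f) := by
        rw [← cstHom_apply, map_add, cstHom_apply, cstHom_apply]; abel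
      rw [this]
      exact add_mem g3 f3

theorem dec2_fin (M c : ℤ) (Q : (Fin n → ℤ) → Prop) : ∃ T : Finset (Fin n → ℤ),
    ∀ μ, μ ∈ T ↔ (∀ a, μ a ≤ M) ∧ c ≤ D.dg 1 μ ∧ Q μ := by
  classical
  refine ⟨(Fintype.piFinset fun _ => Icc (M - n * M + c) M).filter
    fun μ => (∀ a, μ a ≤ M) ∧ c ≤ D.dg 1 μ ∧ Q μ, fun μ => ⟨fun h => (mem_filter.1 h).2,
      fun h => mem_filter.2 ⟨Fintype.mem_piFinset.2 fun a => mem_Icc.2 ⟨?_, h.1 a⟩, h⟩⟩⟩
  have h1 : M - μ a ≤ ∑ b, (M - μ b) :=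
    single_le_sum (f := fun b => M - μ b) (fun b _ => sub_nonneg.2 (h.1 b)) (mem_univ a)
  have h2 : ∑ b, (M - μ b) = n * M - D.dg 1 μ := by
    simp [dg, sum_sub_distrib]
  have h3 := h.2.1
  omega

theorem dec2_hom (ν : Fin k → ℤ) (l μ : Fin n → ℤ) (g : Pol n R) {a : D.Op D.Om}
    (h : D.Hom D.Om ν (D.dg ν (l - μ)) a) : D.Hom D.Om ν (D.dg ν l) (D.mon D.Om μ g * a) := by
  have := (D.hom_mon ν μ g).mul D h
  rwa [← dg_add, add_sub_cancel] at this

theorem dec2_level {ν : Fin k → ℤ} (hν : Gen (ν ∘ D.col)) {l : Fin n → ℤ} (hl0 : l ≠ 0)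
    (hd : Dom D.col l) (h0 : D.dg ν l = 0) {M : ℤ} (hM : 0 ≤ M) (hle : ∀ a, l a ≤ M) {g : Pol n R}
    (hg : g ∈ Inv R fun a => (D.col a, l a)) (P : AddSubgroup (D.Op D.Om))
    (h1 : ∀ S g' a, a ∈ D.Alg D.Om → D.dg ν (ind S) < 0 → D.Le (M - 1) a →
      D.Hom D.Om ν (D.dg ν (l - ind S)) a → D.Hom D.Om 1 (D.dg 1 (l - ind S)) a →
      D.mon D.Om (ind S) g' * a ∈ P)
    (h2 : ∀ S g' a, a ∈ D.Alg D.Om → 0 < D.dg ν (ind S) → D.Le M a →
      D.Hom D.Om ν (D.dg ν (l - -ind S)) a → D.Hom D.Om 1 (D.dg 1 (l - -ind S)) a →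
      D.mon D.Om (-ind S) g' * a ∈ P) :
    ∃ r ∈ P, D.Lead r l (D.al g * D.cc l) := by
  obtain ⟨j, hj, h | h⟩ := level_exists hν hl0 h0
  · obtain ⟨b, hb, -⟩ := exists_ne_zero_of_sum_ne_zero h.ne
    have hb' := ((mem_filter.1 hb).2).trans (hle b)
    obtain ⟨r, hr, hr'⟩ := D.ex_level ν l hd (s := 1) (Or.inl rfl) hj
      (ind (univ.filter fun a => j ≤ l a)) (fun a => by simp [ind]) (M - 1) (by omega)
      (fun a => by
        have := hle a
        simp only [Pi.sub_apply, ind, mem_filter, mem_univ, true_and]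
        split_ifs <;> omega) g hg
    refine ⟨r, (AddSubgroup.closure_le P).2 ?_ hr, hr'⟩
    rintro _ ⟨g', a, a1, a2, a3, a4, rfl⟩
    exact h1 _ g' a a1 (by rw [dg_ind]; exact h) a4 a2 a3
  · obtain ⟨r, hr, hr'⟩ := D.ex_level ν l hd (s := -1) (Or.inr rfl) hj
      (-ind (univ.filter fun a => j ≤ -l a)) (fun a => by
        simp only [Pi.neg_apply, ind, mem_filter, mem_univ, true_and, neg_one_mul]
        split_ifs <;> simp) M hM
      (fun a => by
        have := hle a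
        simp only [Pi.sub_apply, Pi.neg_apply, ind, mem_filter, mem_univ, true_and]
        split_ifs <;> omega) g hg
    refine ⟨r, (AddSubgroup.closure_le P).2 ?_ hr, hr'⟩
    rintro _ ⟨g', a, a1, a2, a3, a4, rfl⟩
    exact h2 _ g' a a1 (by rw [dg_ind]; exact h) a4 a2 a3

/-- elements of the algebra in `J` with support in `T` -/
def dec2P (J : AddSubgroup (D.Op D.Om)) (T : Finset (Fin n → ℤ)) : AddSubgroup (D.Op D.Om) where
  carrier := {x | x ∈ D.Alg D.Om ∧ (∀ μ, D.co x μ ≠ 0 → μ ∈ T) ∧ x ∈ J}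
  zero_mem' := ⟨zero_mem _, fun _ h => absurd rfl h, zero_mem _⟩
  add_mem' {x y} hx hy := ⟨add_mem hx.1 hy.1, fun μ h => by
    by_cases e : D.co x μ = 0
    · rw [co_add, e, zero_add] at h
      exact hy.2.1 μ h
    · exact hx.2.1 μ e, add_mem hx.2.2 hy.2.2⟩
  neg_mem' {x} hx := ⟨neg_mem hx.1, fun μ h => hx.2.1 μ (by rwa [co_neg, neg_ne_zero] at h),
    neg_mem hx.2.2⟩

theorem dec_JM2 (hl : D.GN) (hh : D.h ≠ 0) {ν : Fin k → ℤ} (hν : Gen (ν ∘ D.col))
    (𝔎 : Ideal D.Om) (h𝔎 : ∀ l g, D.al g * D.cc l ∈ 𝔎 → ∀ m, D.al (C (coeff m g)) ∈ 𝔎)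
    (x : D.Op D.Om) (hx : x ∈ D.Alg D.Om) (h0 : D.Hom D.Om ν 0 x) (h1 : D.Hom D.Om 1 0 x)
    (hle : D.Le 1 x) (hk : ∀ μ, D.co x μ ∈ 𝔎) :
    ∃ f ∈ Inv R D.col, D.al f ∈ 𝔎 ∧ x - D.cst D.Om f ∈ D.JM2 D.Om ν := by
  obtain ⟨T, hT⟩ := D.dec2_fin 1 0 fun μ => D.dg 1 μ = 0 ∧ D.dg ν μ = 0
  have key : ∀ y : D.Op D.Om, D.Hom D.Om ν 0 y → D.Hom D.Om 1 0 y → D.Le 1 y →
      ∀ μ, D.co y μ ≠ 0 → μ ∈ T := fun y y0 y1 y2 μ h =>
    (hT μ).2 ⟨y2 μ h, (D.hom_iff.1 y1 μ h).ge, D.hom_iff.1 y1 μ h, D.hom_iff.1 y0 μ h⟩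
  refine D.dec2 hl hh 𝔎 h𝔎 _ (fun r y hy => D.C_mul_mem_JM2 ν r hy) T ?_ x hx
    (key x h0 h1 hle) hk
  intro l hlT hl0 hd g hg
  obtain ⟨t1, -, t2, t3⟩ := (hT l).1 hlT
  obtain ⟨r, hr, hr'⟩ := D.dec2_level hν hl0 hd t3 zero_le_one t1 hg (D.JM2 D.Om ν)
    (fun S g' a a1 a2 a3 a4 a5 => AddSubgroup.subset_closure ⟨S, g', a, a1,
      t3 ▸ D.dec2_hom ν l _ g' a4, t2 ▸ D.dec2_hom 1 l _ g' a5,
      Or.inr ⟨a2, by rwa [sub_self] at a3, rfl⟩⟩)
    (fun S g' a a1 a2 a3 a4 a5 => AddSubgroup.subset_closure ⟨S, g', a, a1,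
      t3 ▸ D.dec2_hom ν l _ g' a4, t2 ▸ D.dec2_hom 1 l _ g' a5, Or.inl ⟨a2, a3, rfl⟩⟩)
  obtain ⟨m1, m2, m3, m4⟩ := D.JM2_mem hr
  exact ⟨r, m1, key r m2 m3 m4, hr', hr⟩

theorem dec_JJ (hl : D.GN) (hh : D.h ≠ 0) {ν : Fin k → ℤ} (hν : Gen (ν ∘ D.col))
    (𝔎 : Ideal D.Om) (h𝔎 : ∀ l g, D.al g * D.cc l ∈ 𝔎 → ∀ m, D.al (C (coeff m g)) ∈ 𝔎)
    (x : D.Op D.Om) (hx : x ∈ D.Alg D.Om) (h0 : D.Hom D.Om ν 0 x) (hk : ∀ μ, D.co x μ ∈ 𝔎) :
    ∃ f ∈ Inv R D.col, D.al f ∈ 𝔎 ∧ x - D.cst D.Om f ∈ D.JJ D.Om ν := by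
  obtain ⟨M, hM, hle⟩ := D.exists_le x
  obtain ⟨c, hc⟩ : ∃ c : ℤ, ∀ μ, D.co x μ ≠ 0 → c ≤ D.dg 1 μ :=
    ⟨-∑ μ ∈ D.sup x, |D.dg 1 μ|, fun μ h => neg_le.2 ((neg_le_abs _).trans
      (single_le_sum (f := fun μ => |D.dg 1 μ|) (fun _ _ => abs_nonneg _) (D.mem_sup.2 h)))⟩
  obtain ⟨T, hT⟩ := D.dec2_fin M c fun μ => D.dg ν μ = 0
  refine D.dec2 hl hh 𝔎 h𝔎 _ (fun r y hy => D.C_mul_mem_JJ ν r hy) T ?_ x hx
    (fun μ h => (hT μ).2 ⟨hle μ h, hc μ h, D.hom_iff.1 h0 μ h⟩) hk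
  intro l hlT hl0 hd g hg
  obtain ⟨t1, t2, t3⟩ := (hT l).1 hlT
  have key : ∀ μ g' a, ((∀ b, μ b = 0 ∨ μ b = 1) ∨ ∀ b, μ b = 0 ∨ μ b = -1) → a ∈ D.Alg D.Om →
      D.dg ν μ < 0 → D.Le M (D.mon D.Om μ g' * a) → D.Hom D.Om ν (D.dg ν (l - μ)) a →
      D.Hom D.Om 1 (D.dg 1 (l - μ)) a → D.mon D.Om μ g' * a ∈ D.dec2P (D.JJ D.Om ν) T := by
    intro μ g' a hμ a1 a2 a3 a4 a5
    refine ⟨mul_mem (D.mon_mem hμ g') a1, fun κ h => (hT κ).2 ⟨a3 κ h, ?_, ?_⟩,
      AddSubgroup.subset_closure ⟨_, a2, _, D.mon_mem hμ g', a, a1, D.hom_mon ν μ g', ?_, rfl⟩⟩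
    · rwa [D.hom_iff.1 (D.dec2_hom 1 l μ g' a5) κ h]
    · rwa [D.hom_iff.1 (D.dec2_hom ν l μ g' a4) κ h]
    · rwa [sub_eq_add_neg, dg_add, dg_neg, t3, zero_add] at a4
  obtain ⟨r, hr, hr'⟩ := D.dec2_level hν hl0 hd t3 hM t1 hg (D.dec2P (D.JJ D.Om ν) T)
    (fun S g' a a1 a2 a3 a4 a5 => key _ g' a (Or.inl fun b => by
      unfold ind
      split_ifs <;> simp) a1 a2 (by
        have := (D.le_mon (K := D.Om) (M := 1) (μ := ind S) (fun b => by
          unfold ind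
          split_ifs <;> simp) g').mul D a3
        rwa [add_sub_cancel] at this) a4 a5)
    (fun S g' a a1 a2 a3 a4 a5 => key _ g' a (Or.inr fun b => by
      simp only [Pi.neg_apply, ind]
      split_ifs <;> simp) a1 (by rw [dg_neg]; omega) (by
        have := (D.le_mon (K := D.Om) (M := 0) (μ := -ind S) (fun b => by
          simp only [Pi.neg_apply, ind]
          split_ifs <;> simp) g').mul D a3
        rwa [zero_add] at this) a4 a5)
  exact ⟨r, hr.1, hr.2.1, hr', hr.2.2⟩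

end QD

end Pool.Agent.Work.MP_849ab0_ag
end
end
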