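import Pool.Agent.Work.MP_849ab0_ag.Gen
import Pool.Agent.Work.MP_849ab0_ag.Inv
import Pool.Agent.Work.MP_849ab0_ag.Forms

/-! Summing over positions: the states become monopole operators. -/

noncomputable section

set_option linter.unusedSectionVars false

namespace Pool.Agent.Work.MP_849ab0_ag

open MvPolynomial Finset

namespace QD

variable {k n : ℕ} {E : Type} [Fintype E] (D : QD k n E ℂ)

/-- rational functions -/
abbrev K0 (n : ℕ) : Type := FractionRing (Pol n ℂ)

/-- the commutative abelianised ring -/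
abbrev TF (n : ℕ) : Type := AddMonoidAlgebra (K0 n) (Fin n → ℤ)

/-- leading coefficient -/
def c0 (μ : Fin n → ℤ) : K0 n := algebraMap _ (K0 n) (D.mm μ) / algebraMap _ (K0 n) (D.ee μ)

/-- monopole operator in the commutative ring -/
def mon0 (μ : Fin n → ℤ) (g : Pol n ℂ) : TF n := ∑ w : stab D.col,
  AddMonoidAlgebra.single (μ ∘ w.1.symm) (algebraMap _ (K0 n) (rename w.1 g) * D.c0 (μ ∘ w.1.symm))

/-- positions of the points of `U` -/
def pos0 (U : Finset (Option (Fin n))) (b : Option (Fin n)) : K0 n :=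
  if b ∈ U then algebraMap (Pol n ℂ) (K0 n) (xv b) else 0

/-- a monomial in the weights and the roots -/
def finaG (e : E × Option (Fin n) × Option (Fin n) → ℤ) (f : Fin n × Fin n → ℤ) : K0 n :=
  (∏ p ∈ D.Wt, algebraMap (Pol n ℂ) (K0 n) (D.chi p) ^ e p) *
    ∏ q ∈ D.Rt with q.1 ≠ q.2, algebraMap (Pol n ℂ) (K0 n) (X q.1 - X q.2) ^ f q

theorem fina_chi_ne (hl : D.NL) {p : E × Option (Fin n) × Option (Fin n)} (hp : p ∈ D.Wt) :
    algebraMap (Pol n ℂ) (K0 n) (D.chi p) ≠ 0 := by
  have := D.chi_add_ne_zero hl hp 0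
  rw [map_zero, add_zero] at this
  exact (map_ne_zero_iff _ (IsFractionRing.injective _ _)).2 this

theorem fina_rt_ne {a b : Fin n} (h : a ≠ b) :
    algebraMap (Pol n ℂ) (K0 n) (X a - X b) ≠ 0 :=
  (map_ne_zero_iff _ (IsFractionRing.injective _ _)).2
    (sub_ne_zero.2 fun e => h (X_injective e))

theorem fina_ne (hl : D.NL) {p : E × Option (Fin n) × Option (Fin n)} (hp : p ∈ D.Wt) :
    p.2.1 ≠ p.2.2 := fun e => by
  obtain ⟨h1, h2⟩ := D.mem_Wt.1 hp
  exact hl p.1 (by rw [← h1, ← h2, e])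

theorem finaG_mul (hl : D.NL) (e e' : E × Option (Fin n) × Option (Fin n) → ℤ)
    (f f' : Fin n × Fin n → ℤ) :
    D.finaG e f * D.finaG e' f' = D.finaG (fun p => e p + e' p) (fun q => f q + f' q) := by
  unfold finaG
  rw [mul_mul_mul_comm, ← prod_mul_distrib, ← prod_mul_distrib]
  congr 1
  · exact prod_congr rfl fun p hp => (zpow_add₀ (D.fina_chi_ne hl hp) _ _).symm
  · exact prod_congr rfl fun q hq => (zpow_add₀ (fina_rt_ne (mem_filter.1 hq).2) _ _).symm

theorem finaG_congr {e e' : E × Option (Fin n) × Option (Fin n) → ℤ} {f f' : Fin n × Fin n → ℤ}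
    (h1 : ∀ p ∈ D.Wt, e p = e' p) (h2 : ∀ q : Fin n × Fin n, q.1 ≠ q.2 → f q = f' q) :
    D.finaG e f = D.finaG e' f' := by
  unfold finaG
  congr 1
  · exact prod_congr rfl fun p hp => by rw [h1 p hp]
  · exact prod_congr rfl fun q hq => by rw [h2 q (mem_filter.1 hq).2]

theorem finaG_prod (hl : D.NL) (S : Finset (Fin n))
    (e : Fin n → E × Option (Fin n) × Option (Fin n) → ℤ) (f : Fin n → Fin n × Fin n → ℤ) :
    ∏ a ∈ S, D.finaG (e a) (f a) =
      D.finaG (fun p => ∑ a ∈ S, e a p) (fun q => ∑ a ∈ S, f a q) := by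
  induction S using Finset.induction_on with
  | empty => simp [finaG]
  | insert a S ha ih =>
    rw [prod_insert ha, ih, D.finaG_mul hl]
    exact D.finaG_congr (fun p _ => by rw [sum_insert ha]) fun q _ => by rw [sum_insert ha]

theorem fina_c0 (hh : D.h = 0) (μ : Fin n → ℤ) :
    D.c0 μ = D.finaG (fun p => max (ov μ p.2.1 - ov μ p.2.2) 0)
      (fun q => -max (μ q.1 - μ q.2) 0) := by
  unfold c0 finaG mm ee
  rw [div_eq_mul_inv, map_prod, map_prod, ← prod_inv_distrib, prod_filter]
  congr 1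
  · refine prod_congr rfl fun p _ => ?_
    simp only [hh, map_zero, mul_zero, add_zero, prod_const, Int.card_Ico, map_pow]
    rw [← zpow_natCast]
    congr 1
    omega
  · refine prod_congr rfl fun q _ => ?_
    simp only [hh, map_zero, mul_zero, add_zero, prod_const, Int.card_Ico, map_pow]
    split_ifs with h
    · rw [← zpow_natCast, ← zpow_neg]
      congr 1
      omega
    · rw [not_not.1 h]; simp

theorem fina_KS (hl : D.NL) (ht : ∀ e, D.t e = 0) (U : Finset (Option (Fin n))) :
    D.vd.KS U (pos0 U) = D.finaG (fun p => if p.2.1 ∈ U ∧ p.2.2 ∈ U then -1 else 0)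
      (fun q => if some q.1 ∈ U ∧ some q.2 ∈ U then 1 else 0) := by
  classical
  have key : ∀ F : Option (Fin n) → Option (Fin n) → K0 n,
      ∏ a ∈ U, ∏ b ∈ U.erase a, F a b =
        ∏ a, ∏ b, if a ∈ U ∧ b ∈ U ∧ b ≠ a then F a b else 1 := by
    intro F
    rw [← Fintype.prod_ite_mem U]
    refine prod_congr rfl fun a _ => ?_
    split_ifs with h
    · rw [← Fintype.prod_ite_mem (U.erase a)]
      refine prod_congr rfl fun b _ => ?_
      simp only [mem_erase, h, true_and, and_comm]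
    · simp [h]
  unfold VD.KS VD.kap finaG
  simp only [prod_mul_distrib]
  rw [mul_comm]
  congr 1
  · rw [key, Wt, prod_filter, Fintype.prod_prod_type, prod_comm]
    conv_rhs => rw [prod_comm, Fintype.prod_prod_type]
    refine prod_congr rfl fun b _ => prod_congr rfl fun a _ => ?_
    simp only [vd]
    rw [← prod_const, prod_filter]
    by_cases h : a ∈ U ∧ b ∈ U ∧ b ≠ a
    · rw [if_pos h]
      refine prod_congr rfl fun e _ => ?_
      simp only [h.1, h.2.1, and_self, if_true, zpow_neg, zpow_one, Ring.inverse_eq_inv', pos0,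
        chi, ht, map_zero, add_zero, map_sub]
      by_cases h' : D.tgt e = a.map D.col ∧ D.src e = b.map D.col
      · rw [if_pos h', if_pos ⟨h'.2.symm, h'.1.symm⟩]
      · rw [if_neg h', if_neg fun h'' => h' ⟨h''.2.symm, h''.1.symm⟩]
    · rw [if_neg h]
      symm
      refine prod_eq_one fun e _ => ?_
      split_ifs with h1 h2
      · exact absurd ⟨h2.2, h2.1, D.fina_ne hl (p := (e, b, a)) (D.mem_Wt.2 h1)⟩ h
      · exact zpow_zero _
      · rfl
  · rw [key, Rt, filter_filter, prod_filter, Fintype.prod_prod_type, Fintype.prod_option]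
    have h1 : ∏ b : Option (Fin n), (if none ∈ U ∧ b ∈ U ∧ b ≠ none then
        (pos0 U none - pos0 U b) ^ D.vd.pp none b else 1) = 1 := by
      refine prod_eq_one fun b _ => ?_
      cases b <;> simp [vd]
    rw [h1, one_mul]
    refine prod_congr rfl fun a _ => ?_
    rw [Fintype.prod_option]
    have h2 : (if some a ∈ U ∧ none ∈ U ∧ none ≠ some a then
        (pos0 U (some a) - pos0 U none) ^ D.vd.pp (some a) none else 1) = 1 := by simp [vd]
    rw [h2, one_mul]
    refine prod_congr rfl fun b _ => ?_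
    by_cases h3 : some a ∈ U <;> by_cases h4 : some b ∈ U <;> by_cases h5 : a = b <;>
      by_cases h6 : D.col a = D.col b <;> simp [vd, pos0, h3, h4, h5, h6, Ne.symm]

theorem fina_ov (S : Finset (Fin n)) (o : Option (Fin n)) :
    ov (ind S) o = if o ∈ S.image some then 1 else 0 := by
  cases o <;> simp [ind]

theorem fina_sum (S : Finset (Fin n)) {o o' : Option (Fin n)} (h : o ≠ o') :
    ∑ a ∈ S, max (ov (-ind {a}) o - ov (-ind {a}) o') 0 = ov (ind S) o' := by
  have : ∀ a : Fin n, max (ov (-ind {a}) o - ov (-ind {a}) o') 0 = if o' = some a then 1 else 0 := by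
    intro a
    simp only [ov_neg, fina_ov, image_singleton, mem_singleton]
    split_ifs with h1 h2
    · exact absurd (h1.trans h2.symm) h
    all_goals simp
  rw [sum_congr rfl fun a _ => this a]
  cases o' <;> simp [ind]

theorem fina_prod (hl : D.NL) (hh : D.h = 0) (S : Finset (Fin n)) :
    ∏ a ∈ S, D.c0 (-ind {a}) = D.finaG (fun p => ov (ind S) p.2.2) (fun q => -ind S q.2) := by
  rw [prod_congr rfl fun a _ => D.fina_c0 hh _, D.finaG_prod hl]
  refine D.finaG_congr (fun p hp => fina_sum S (D.fina_ne hl hp)) fun q hq => ?_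
  rw [sum_neg_distrib]
  exact congrArg Neg.neg
    (fina_sum S (o := some q.1) (o' := some q.2) fun e => hq (Option.some.inj e))

theorem c0_neg (hl : D.NL) (ht : ∀ e, D.t e = 0) (hh : D.h = 0) (S : Finset (Fin n)) :
    (∏ a ∈ S, D.c0 (-ind {a})) * D.vd.KS (S.image some) (pos0 (S.image some)) = D.c0 (-ind S) := by
  rw [D.fina_prod hl hh, D.fina_KS hl ht, D.finaG_mul hl, D.fina_c0 hh]
  refine D.finaG_congr (fun p _ => ?_) fun q _ => ?_
  · simp only [ov_neg, fina_ov]
    by_cases h1 : p.2.1 ∈ S.image some <;> by_cases h2 : p.2.2 ∈ S.image some <;> simp [h1, h2]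
  · by_cases h1 : q.1 ∈ S <;> by_cases h2 : q.2 ∈ S <;> simp [ind, h1, h2]

theorem c0_pos (hl : D.NL) (ht : ∀ e, D.t e = 0) (hh : D.h = 0) (S : Finset (Fin n)) :
    D.c0 (ind univ) * (∏ a ∈ S, D.c0 (-ind {a})) *
      D.vd.KS (insert none (S.image some)) (pos0 (insert none (S.image some))) = D.c0 (ind Sᶜ) := by
  rw [D.fina_prod hl hh, D.fina_KS hl ht, D.fina_c0 hh, D.fina_c0 hh, D.finaG_mul hl,
    D.finaG_mul hl]
  refine D.finaG_congr (fun p hp => ?_) fun q _ => ?_
  · have := D.fina_ne hl hp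
    obtain ⟨e, _ | a, _ | b⟩ := p
    · exact absurd rfl this
    · by_cases h2 : b ∈ S <;> simp [ind, h2]
    · by_cases h1 : a ∈ S <;> simp [ind, h1]
    · by_cases h1 : a ∈ S <;> by_cases h2 : b ∈ S <;> simp [ind, h1, h2]
  · by_cases h1 : q.1 ∈ S <;> by_cases h2 : q.2 ∈ S <;> simp [ind, h1, h2]

end QD

end Pool.Agent.Work.MP_849ab0_ag
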