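import Pool.Agent.Work.MP_849ab0_ag.JI
import Pool.Agent.Work.MP_849ab0_ag.Dec2

-- merged part: Pool.Agent.Work.MP_849ab0_ag.Grd2
section
/-! Gradings and the graded Nakayama lemma. -/

noncomputable section

set_option linter.unusedSectionVars false

namespace Pool.Agent.Work.MP_849ab0_ag

open MvPolynomial Finset
open scoped Polynomial

/-- a grading of the base ring -/
structure Grd2 (R : Type) [CommRing R] where
  g : R →+* R[X]
  eval_one : ∀ r, (g r).eval 1 = r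
  g_two : ∀ r, g ((g r).eval 2) = (g r).comp (Polynomial.C 2 * Polynomial.X)

namespace Grd2

variable {n : ℕ} {R : Type} [CommRing R] (G : Grd2 R)

/-- the grading on polynomials -/
def Gr : Pol n R →+* (Pol n R)[X] :=
  eval₂Hom ((Polynomial.mapRingHom C).comp G.g) fun a => Polynomial.C (X a) * Polynomial.X

theorem Gr_C (r : R) : G.Gr (C r : Pol n R) = (G.g r).map C := by simp [Gr]

theorem Gr_X (a : Fin n) : G.Gr (X a : Pol n R) = Polynomial.C (X a) * Polynomial.X := by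
  simp [Gr]

/-- scaling by two -/
def sc : Pol n R →+* Pol n R := (Polynomial.evalRingHom 2).comp G.Gr

theorem sc_C (r : R) : G.sc (C r : Pol n R) = C ((G.g r).eval 2) := by
  simp only [sc, RingHom.comp_apply, Gr_C, Polynomial.coe_evalRingHom]
  rw [show (2 : Pol n R) = C 2 from rfl, Polynomial.eval_map, Polynomial.eval₂_at_apply]

theorem sc_X (a : Fin n) : G.sc (X a : Pol n R) = 2 * X a := by
  rw [sc, RingHom.comp_apply, Gr_X, Polynomial.coe_evalRingHom, Polynomial.eval_mul,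
    Polynomial.eval_C, Polynomial.eval_X, mul_comm]

theorem eval_Gr (p : Pol n R) : (G.Gr p).eval 1 = p := by
  induction p using MvPolynomial.induction_on with
  | C r =>
    rw [Gr_C, show (1 : Pol n R) = C 1 from rfl, Polynomial.eval_map, Polynomial.eval₂_at_apply,
      G.eval_one]
  | add p q hp hq => simp [hp, hq]
  | mul_X p a hp => simp [hp, Gr_X]

theorem Gr_sc (p : Pol n R) :
    G.Gr (G.sc p) = (G.Gr p).comp (Polynomial.C 2 * Polynomial.X) := by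
  induction p using MvPolynomial.induction_on with
  | C r => rw [sc_C, Gr_C, Gr_C, G.g_two, Polynomial.map_comp]; simp [map_ofNat]
  | add p q hp hq => simp [hp, hq]
  | mul_X p a hp =>
    rw [map_mul, map_mul, hp, sc_X, map_mul, map_mul, Gr_X, Polynomial.mul_comp]
    simp [map_ofNat]; ring

theorem Gr_rename (w : Fin n → Fin n) (p : Pol n R) :
    G.Gr (rename w p) = (G.Gr p).map (rename w : Pol n R →ₐ[R] Pol n R) := by
  induction p using MvPolynomial.induction_on with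
  | C r =>
    rw [rename_C, Gr_C, Polynomial.map_map]
    congr 1; ext1 c; simp
  | add p q hp hq => simp [hp, hq]
  | mul_X p a hp => simp [hp, Gr_X]

theorem sc_rename (w : Fin n → Fin n) (p : Pol n R) : G.sc (rename w p) = rename w (G.sc p) := by
  induction p using MvPolynomial.induction_on with
  | C r => simp [sc_C]
  | add p q hp hq => simp [hp, hq]
  | mul_X p a hp => simp [hp, sc_X, map_ofNat]

theorem coeff_Gr_mem {J : Type} {c : Fin n → J} {p : Pol n R} (hp : p ∈ Inv R c) (d : ℕ) :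
    (G.Gr p).coeff d ∈ Inv R c := by
  intro w hw
  have := congrArg (fun q => Polynomial.coeff q d) (G.Gr_rename w p)
  simp only [hp w hw, Polynomial.coeff_map] at this
  exact this.symm

theorem sc_monomial (m : Fin n →₀ ℕ) :
    G.sc (monomial m 1 : Pol n R) = 2 ^ m.degree * monomial m 1 := by
  rw [monomial_eq, C_1, one_mul, map_finsuppProd, Finsupp.degree_apply, Finsupp.prod, Finsupp.prod,
    ← prod_pow_eq_pow_sum, ← prod_mul_distrib]
  simp only [map_pow, sc_X, mul_pow]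

/-- a subspace stable under scaling contains the homogeneous parts of its elements -/
theorem coeff_mem [Algebra ℚ R] (U : Submodule R (Pol n R)) (hU : ∀ p ∈ U, G.sc p ∈ U)
    {p : Pol n R} (hp : p ∈ U) (d : ℕ) : (G.Gr p).coeff d ∈ U := by
  have key : ∀ N : ℕ, ∀ p ∈ U, (∀ d, N ≤ d → (G.Gr p).coeff d = 0) →
      ∀ d, (G.Gr p).coeff d ∈ U := by
    intro N
    induction N with
    | zero => intro p _ h d; rw [h d (Nat.zero_le _)]; exact zero_mem _
    | succ N ih =>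
      intro p hp h
      have hc : ∀ d, (G.Gr (G.sc p - (2 : R) ^ N • p)).coeff d =
          ((2 : R) ^ d - 2 ^ N) • (G.Gr p).coeff d := by
        intro d
        rw [map_sub, Gr_sc, Polynomial.coeff_sub, Polynomial.comp_C_mul_X_coeff, smul_eq_C_mul,
          smul_eq_C_mul]
        simp only [map_mul, map_pow, map_ofNat, map_sub]
        rw [show ((2 : (Pol n R)[X])) = Polynomial.C 2 from rfl, ← map_pow,
          Polynomial.coeff_C_mul]
        ring
      have h1 := ih _ (sub_mem (hU p hp) (U.smul_mem ((2 : R) ^ N) hp)) fun d hd => by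
        rw [hc]
        rcases hd.eq_or_lt with e | e
        · rw [e, sub_self, zero_smul]
        · rw [h d e, smul_zero]
      have h2 : ∀ d, d ≠ N → (G.Gr p).coeff d ∈ U := by
        intro d hd
        have hne : ((2 : ℚ) ^ d - 2 ^ N) ≠ 0 :=
          sub_ne_zero.2 fun e => hd (pow_right_injective₀ (by norm_num) (by norm_num) e)
        have := U.smul_mem (algebraMap ℚ R ((2 : ℚ) ^ d - 2 ^ N)⁻¹) (h1 d)
        rw [hc, smul_smul, show ((2 : R) ^ d - 2 ^ N) = algebraMap ℚ R (2 ^ d - 2 ^ N) by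
          simp [map_ofNat], ← map_mul, inv_mul_cancel₀ hne, map_one, one_smul] at this
        exact this
      intro d
      by_cases hd : d = N
      · have e := G.eval_Gr p
        rw [Polynomial.eval_eq_sum_range' (n := max (G.Gr p).natDegree N + 1) (by omega),
          ← add_sum_erase _ _ (mem_range.2 (show N < max (G.Gr p).natDegree N + 1 by omega))] at e
        simp only [one_pow, mul_one] at e
        rw [hd, eq_sub_of_add_eq e]
        exact sub_mem hp (sum_mem fun i hi => h2 i (ne_of_mem_erase hi))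
      · exact h2 d hd
  exact key ((G.Gr p).natDegree + 1) p hp
    (fun d hd => Polynomial.coeff_eq_zero_of_natDegree_lt hd) d

/-- graded Nakayama lemma -/
theorem nak2 [Algebra ℚ R] {x : R} (hx : G.g x = Polynomial.C x * Polynomial.X)
    (U : Submodule R (Pol n R)) (hU : ∀ p ∈ U, G.sc p ∈ U) (P : Pol n R → Prop)
    (h : ∀ p, P p → ∃ p', P p' ∧ p - C x * p' ∈ U) (p : Pol n R) (hp : P p) : p ∈ U := by
  have key : ∀ d, ∀ p, P p → (G.Gr p).coeff d ∈ U := by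
    intro d
    induction d with
    | zero =>
      intro p hp
      obtain ⟨p', -, h2⟩ := h p hp
      have := G.coeff_mem U hU h2 0
      rwa [map_sub, map_mul, G.Gr_C, hx, Polynomial.map_mul, Polynomial.map_X, mul_right_comm,
        Polynomial.coeff_sub, Polynomial.mul_coeff_zero, Polynomial.coeff_X_zero, mul_zero,
        sub_zero] at this
    | succ d ih =>
      intro p hp
      obtain ⟨p', h1, h2⟩ := h p hp
      have := G.coeff_mem U hU h2 (d + 1)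
      rw [map_sub, map_mul, G.Gr_C, hx, Polynomial.map_mul, Polynomial.map_X, mul_right_comm,
        Polynomial.coeff_sub, Polynomial.coeff_mul_X, Polynomial.map_C, Polynomial.coeff_C_mul,
        ← smul_eq_C_mul] at this
      simpa using add_mem this (U.smul_mem x (ih p' h1))
  rw [← G.eval_Gr p, Polynomial.eval_eq_sum_range]
  exact sum_mem fun d _ => by rw [one_pow, mul_one]; exact key d p hp

end Grd2

namespace QD

variable {k n : ℕ} {E R : Type} [Fintype E] [CommRing R] [IsDomain R] [Algebra ℚ R]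
  (D : QD k n E R)

section Scale

variable (G : Grd2 R) (ht : ∀ e, G.g (D.t e) = Polynomial.C (D.t e) * Polynomial.X)
  (hg : G.g D.h = Polynomial.C D.h * Polynomial.X)

include hg in
theorem sc_h2 : G.sc (C D.h : Pol n R) = 2 * C D.h := by
  rw [G.sc_C, hg, Polynomial.eval_mul, Polynomial.eval_C, Polynomial.eval_X, map_mul, mul_comm]
  rfl

include hg in
theorem sc_rt2 (a b : Fin n) (j : ℤ) : G.sc (D.rt a b j) = C 2 * D.rt a b j := by
  simp only [rt, map_add, map_sub, map_mul, map_intCast, G.sc_X, D.sc_h2 G hg, map_ofNat]; ring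

theorem isUnit_two2 : IsUnit (2 : R) := by
  simpa [map_ofNat] using (IsUnit.mk0 (2 : ℚ) two_ne_zero).map (algebraMap ℚ R)

include hg in
theorem sc_sh2 (μ : Fin n → ℤ) (f : Pol n R) : G.sc (D.sh μ f) = D.sh μ (G.sc f) := by
  induction f using MvPolynomial.induction_on with
  | C r => rw [sh_C, G.sc_C, sh_C]
  | add p q hp hq => simp [hp, hq]
  | mul_X p a hp =>
    simp only [map_mul, hp, sh_X, map_add, G.sc_X, map_intCast, D.sc_h2 G hg, map_ofNat]; ring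

theorem sc_prod2 {ι : Type} (s : Finset ι) (f : ι → Pol n R)
    (h : ∀ i ∈ s, ∃ c : R, IsUnit c ∧ G.sc (f i) = C c * f i) :
    ∃ c : R, IsUnit c ∧ G.sc (∏ i ∈ s, f i) = C c * ∏ i ∈ s, f i := by
  refine prod_induction _ (fun p => ∃ c : R, IsUnit c ∧ G.sc p = C c * p) ?_ ⟨1, by simp⟩ h
  rintro p q ⟨c, h1, h2⟩ ⟨d, h3, h4⟩
  exact ⟨c * d, h1.mul h3, by rw [map_mul, h2, h4, map_mul]; ring⟩

/-- scaling on `Om` -/
def scO2 : D.Om →+* D.Om := D.lift (D.al.comp G.sc) fun a b j h1 h2 => by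
  rw [RingHom.comp_apply, D.sc_rt2 G hg, map_mul]
  exact ((isUnit_two2.map C).map D.al).mul (D.isUnit_rt j h1 h2)

theorem scO_al2 (f : Pol n R) : D.scO2 G hg (D.al f) = D.al (G.sc f) := D.lift_al _ _ _

theorem scO_act2 (μ : Fin n → ℤ) (c : D.Om) :
    D.scO2 G hg (D.act _ μ c) = D.act _ μ (D.scO2 G hg c) := by
  have : (D.scO2 G hg).comp (D.act _ μ) = (D.act _ μ).comp (D.scO2 G hg) :=
    D.om_ext fun f => by simp only [RingHom.comp_apply, act_alg, scO_al2, D.sc_sh2 G hg]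
  exact RingHom.congr_fun this c

/-- scaling on operators -/
def scOp2 : D.Op D.Om →+* D.Op D.Om := D.opMap D (D.scO2 G hg) (D.scO_act2 G hg)

theorem scOp_cst2 (f : Pol n R) : D.scOp2 G hg (D.cst _ f) = D.cst _ (G.sc f) := by
  rw [cst_eq, cst_eq, scOp2, opMap_sg, scO_al2]

include ht in
theorem scOp_mon2 (μ : Fin n → ℤ) (g : Pol n R) :
    ∃ g', D.scOp2 G hg (D.mon _ μ g) = D.mon _ μ g' := by
  obtain ⟨c, -, hc⟩ : ∃ c : R, IsUnit c ∧ G.sc (D.mm μ) = C c * D.mm μ := by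
    refine sc_prod2 G _ _ fun p _ => sc_prod2 G _ _ fun j _ => ⟨2, isUnit_two2, ?_⟩
    have hx : ∀ o : Option (Fin n), G.sc (xv o : Pol n R) = 2 * xv o := by
      intro o; cases o <;> simp [G.sc_X]
    simp only [chi, map_add, map_sub, map_mul, map_intCast, D.sc_h2 G hg, hx, G.sc_C, ht,
      Polynomial.eval_mul, Polynomial.eval_C, Polynomial.eval_X, map_ofNat]
    ring
  obtain ⟨d, ⟨d, rfl⟩, hd⟩ : ∃ c : R, IsUnit c ∧ G.sc (D.ee μ) = C c * D.ee μ :=
    sc_prod2 G _ _ fun p _ => sc_prod2 G _ _ fun j _ => ⟨2, isUnit_two2, D.sc_rt2 G hg _ _ _⟩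
  refine ⟨C (c * ↑d⁻¹) * G.sc g, ?_⟩
  unfold mon
  rw [map_sum]
  refine sum_congr rfl fun w _ => ?_
  have hu : IsUnit (D.al (rename w.1 (D.ee μ))) := by rw [rename_ee]; exact D.isUnit_ee _
  have hd' : Ring.inverse (D.al (C (d : R))) = D.al (C (↑d⁻¹ : R)) := by
    rw [← map_inverse _ (d.isUnit.map C), ← map_inverse _ d.isUnit, Ring.inverse_unit]
  change D.opMap D _ _ (D.sg _ _) = D.sg _ _
  rw [opMap_sg, map_mul, map_inverse _ hu, scO_al2, scO_al2, G.sc_rename, G.sc_rename, map_mul G.sc,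
    hc, hd]
  simp only [map_mul, rename_C, inverse_mul', hd']
  congr 1; ring

include ht in
theorem scOp_mem2 {x : D.Op D.Om} (hx : x ∈ D.Alg _) : D.scOp2 G hg x ∈ D.Alg _ := by
  have : D.Alg _ ≤ (D.Alg _).comap (D.scOp2 G hg) := by
    refine Subring.closure_le.2 ?_
    rintro x (⟨f, hf, rfl⟩ | ⟨μ, g, hμ, rfl⟩)
    · rw [SetLike.mem_coe, Subring.mem_comap, scOp_cst2]
      exact D.cst_mem fun w hw => by rw [← G.sc_rename, hf w hw]
    · obtain ⟨g', hg'⟩ := D.scOp_mon2 G ht hg μ g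
      rw [SetLike.mem_coe, Subring.mem_comap, hg']; exact D.mon_mem hμ _
  exact this hx

include ht in
theorem scOp_JM2 {ν : Fin k → ℤ} {x : D.Op D.Om} (hx : x ∈ D.JM2 _ ν) :
    D.scOp2 G hg x ∈ D.JM2 _ ν := by
  induction hx using AddSubgroup.closure_induction with
  | mem x hx =>
    obtain ⟨S, g, a, ha, h1, h2, h3⟩ := hx
    obtain ⟨g₁, e₁⟩ := D.scOp_mon2 G ht hg (-ind S) g
    obtain ⟨g₂, e₂⟩ := D.scOp_mon2 G ht hg (ind S) g
    have k1 : D.Hom _ ν 0 (D.scOp2 G hg x) := fun μ hμ => h1 μ (D.co_opMap_ne _ _ _ hμ)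
    have k2 : D.Hom _ 1 0 (D.scOp2 G hg x) := fun μ hμ => h2 μ (D.co_opMap_ne _ _ _ hμ)
    rcases h3 with ⟨h3, h4, h5⟩ | ⟨h3, h4, h5⟩
    · exact AddSubgroup.subset_closure ⟨S, g₁, _, D.scOp_mem2 G ht hg ha, k1, k2,
        Or.inl ⟨h3, h4.opMap D D _ _, by rw [h5, map_mul, e₁]⟩⟩
    · exact AddSubgroup.subset_closure ⟨S, g₂, _, D.scOp_mem2 G ht hg ha, k1, k2,
        Or.inr ⟨h3, h4.opMap D D _ _, by rw [h5, map_mul, e₂]⟩⟩
  | zero => simp
  | add y z _ _ hy hz => rw [map_add]; exact add_mem hy hz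
  | neg y _ hy => rw [map_neg]; exact neg_mem hy

end Scale

/-- polynomials whose operator lies in the one step ideal -/
def UJ (ν : Fin k → ℤ) : Submodule R (Pol n R) where
  carrier := {p | D.cst D.Om p ∈ D.JM2 D.Om ν}
  add_mem' := fun {p q} hp hq => by
    simpa only [Set.mem_ofPred_eq, ← cstHom_apply, map_add] using add_mem hp hq
  zero_mem' := by simp only [Set.mem_ofPred_eq, ← cstHom_apply, map_zero]; exact zero_mem _
  smul_mem' := fun c p hp => by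
    simpa only [Set.mem_ofPred_eq, ← cstHom_apply, map_mul, smul_eq_C_mul] using
      D.C_mul_mem_JM2 ν c hp

theorem mem_UJ {ν : Fin k → ℤ} {p : Pol n R} : p ∈ D.UJ ν ↔ D.cst D.Om p ∈ D.JM2 D.Om ν := Iff.rfl

theorem sc_UJ (G : Grd2 R) (ht : ∀ e, G.g (D.t e) = Polynomial.C (D.t e) * Polynomial.X)
    (hg : G.g D.h = Polynomial.C D.h * Polynomial.X) (ν : Fin k → ℤ) :
    ∀ p ∈ D.UJ ν, G.sc p ∈ D.UJ ν := fun p hp => by
  have := D.scOp_JM2 G ht hg (D.mem_UJ.1 hp)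
  rwa [scOp_cst2] at this

end QD

end Pool.Agent.Work.MP_849ab0_ag
end
end

-- merged part: Pool.Agent.Work.MP_849ab0_ag.Lift2
section
/-! Lifting the identity at `ħ = 0`. -/

noncomputable section

set_option linter.unusedSectionVars false

namespace Pool.Agent.Work.MP_849ab0_ag

open MvPolynomial Finset
open scoped Polynomial

namespace QD

variable {k n : ℕ} {E R : Type} [Fintype E] [CommRing R] [IsDomain R] [Algebra ℚ R]
  (D : QD k n E R)

theorem lift2_cast {A : Type} [AddGroup A] {s : AddSubgroup A} {x y : A} (h : x ∈ s) (e : x = y) :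
    y ∈ s := e ▸ h

/-- elements of the algebra with a condition on the support -/
def lift2S (P : (Fin n → ℤ) → Prop) : AddSubgroup (D.Op D.Om) where
  carrier := {x | x ∈ D.Alg D.Om ∧ ∀ μ, D.co x μ ≠ 0 → P μ}
  zero_mem' := ⟨zero_mem _, fun _ h => absurd rfl h⟩
  add_mem' {x y} hx hy := ⟨add_mem hx.1 hy.1, fun μ h => by
    by_cases e : D.co x μ = 0
    · rw [co_add, e, zero_add] at h
      exact hy.2 μ h
    · exact hx.2 μ e⟩
  neg_mem' {x} hx := ⟨neg_mem hx.1, fun μ h => hx.2 μ (by rwa [co_neg, neg_ne_zero] at h)⟩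

theorem lift2_mul {P P' P'' : (Fin n → ℤ) → Prop} {x y : D.Op D.Om} (hx : x ∈ D.lift2S P)
    (hy : y ∈ D.lift2S P') (h : ∀ μ μ', P μ → P' μ' → P'' (μ + μ')) : x * y ∈ D.lift2S P'' :=
  ⟨mul_mem hx.1 hy.1, fun κ hκ => by
    obtain ⟨μ, μ', h1, h2, rfl⟩ := D.co_mul_ne hκ
    exact h μ μ' (hx.2 μ h1) (hy.2 μ' h2)⟩

theorem lift2_one {P : (Fin n → ℤ) → Prop} (h : P 0) : 1 ∈ D.lift2S P :=
  ⟨one_mem _, fun κ hκ => by
    rw [← sg_zero_one, co_sg] at hκ
    have : (0 : Fin n → ℤ) = κ := by by_contra e; exact hκ (if_neg e)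
    exact this ▸ h⟩

theorem lift2_pos (S : Finset (Fin n)) (g : Pol n R) (ν : Fin k → ℤ) :
    D.mon D.Om (ind S) g ∈ D.lift2S fun μ =>
      (∀ a, μ a ≤ 1) ∧ D.dg ν μ = D.dg ν (ind S) ∧ D.dg 1 μ = D.dg 1 (ind S) :=
  ⟨D.mon_mem (ind_min S) g, fun μ h => ⟨D.le_mon (fun a => by
    simp only [ind]; split_ifs <;> simp) g μ h, D.hom_mon ν _ g μ h, D.hom_mon 1 _ g μ h⟩⟩

theorem lift2_neg (S : Finset (Fin n)) (g : Pol n R) (ν : Fin k → ℤ) :
    D.mon D.Om (-ind S) g ∈ D.lift2S fun μ =>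
      (∀ a, μ a ≤ 0) ∧ D.dg ν μ = -D.dg ν (ind S) ∧ D.dg 1 μ = -D.dg 1 (ind S) :=
  ⟨D.mon_mem (neg_ind_min S) g, fun μ h => ⟨D.le_mon (fun a => by
    simp only [Pi.neg_apply, ind]; split_ifs <;> simp) g μ h,
    (D.hom_mon ν _ g μ h).trans (D.dg_neg _ _), (D.hom_mon 1 _ g μ h).trans (D.dg_neg _ _)⟩⟩

theorem lift2_hom (ν : Fin k → ℤ) (x : D.Op D.Om) : D.Hom D.Om 1 0 (D.cmp ν 0 (D.cmp 1 0 x)) :=
  D.hom_iff.2 fun μ h => D.hom_iff.1 (D.hom_cmp 1 0 x) μ fun e => h (by rw [co_cmp, e, ite_self])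

theorem lift2_JM (ν : Fin k → ℤ) (S : Finset (Fin n)) (g : Pol n R) {a x : D.Op D.Om}
    (ha : a ∈ D.Alg D.Om) (h : (0 < D.dg ν (ind S) ∧ D.Le 1 a ∧ x = D.mon D.Om (-ind S) g * a) ∨
      (D.dg ν (ind S) < 0 ∧ D.Le 0 a ∧ x = D.mon D.Om (ind S) g * a)) :
    D.cmp ν 0 (D.cmp 1 0 x) ∈ D.JM2 D.Om ν := by
  have key : ∀ μ, D.cmp ν 0 (D.cmp 1 0 (D.mon D.Om μ g * a)) =
      D.mon D.Om μ g * D.cmp ν (0 - D.dg ν μ) (D.cmp 1 (0 - D.dg 1 μ) a) := fun μ => by
    rw [D.cmp_mul (D.hom_mon 1 μ g), D.cmp_mul (D.hom_mon ν μ g)]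
  rcases h with ⟨h1, h2, rfl⟩ | ⟨h1, h2, rfl⟩
  · exact AddSubgroup.subset_closure ⟨S, g, _, D.cmp_mem ν (D.cmp_mem 1 ha _) _, D.hom_cmp ν 0 _,
      D.lift2_hom ν _, Or.inl ⟨h1, (h2.cmp D 1 _).cmp D ν _, key _⟩⟩
  · exact AddSubgroup.subset_closure ⟨S, g, _, D.cmp_mem ν (D.cmp_mem 1 ha _) _, D.hom_cmp ν 0 _,
      D.lift2_hom ν _, Or.inr ⟨h1, (h2.cmp D 1 _).cmp D ν _, key _⟩⟩

/-- operators whose part of degree zero lies in the one step ideal -/
def lift2Q (ν : Fin k → ℤ) : AddSubgroup (D.Op D.Om) :=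
  D.lift2S (fun μ => ∀ a, μ a ≤ 1) ⊓ (D.JM2 D.Om ν).comap ((D.cmp ν 0).comp (D.cmp 1 0))

theorem lift2_Q1 {ν : Fin k → ℤ} {U : Finset (Fin n)} (hU : 0 < D.dg ν (ind U)) (p : Pol n R)
    {x : D.Op D.Om} (hx : x ∈ D.lift2S fun μ => ∀ a, μ a ≤ 0) (S : Finset (Fin n)) (g : Pol n R) :
    D.mon D.Om (-ind U) p * (x * D.mon D.Om (ind S) g) ∈ D.lift2Q ν := by
  have h1 : x * D.mon D.Om (ind S) g ∈ D.lift2S fun μ => ∀ a, μ a ≤ 1 :=
    D.lift2_mul hx (D.lift2_pos S g ν) fun μ μ' h h' a => add_le_add (h a) (h'.1 a)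
  exact ⟨D.lift2_mul (D.lift2_neg U p ν) h1 fun μ μ' h h' a => add_le_add (h.1 a) (h' a),
    D.lift2_JM ν U p h1.1 (Or.inl ⟨hU, h1.2, rfl⟩)⟩

theorem lift2_Q2 {ν : Fin k → ℤ} (hν : Gen (ν ∘ D.col)) {x : D.Op D.Om}
    (hx : x ∈ D.lift2S fun μ => (∀ a, μ a ≤ 0) ∧ 0 ≤ D.dg ν μ ∧ D.dg 1 μ ≤ -1) (S : Finset (Fin n))
    (g : Pol n R) : D.mon D.Om (ind S) g * x ∈ D.lift2Q ν := by
  refine ⟨D.lift2_mul (D.lift2_pos S g ν) hx fun μ μ' h h' a => add_le_add (h.1 a) (h'.1 a), ?_⟩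
  change D.cmp ν 0 (D.cmp 1 0 _) ∈ D.JM2 D.Om ν
  by_cases hS : D.dg ν (ind S) < 0
  · exact D.lift2_JM ν S g hx.1 (Or.inr ⟨hS, fun μ h => (hx.2 μ h).1, rfl⟩)
  have h1 : D.mon D.Om (ind S) g * x ∈ D.lift2S fun μ => D.dg ν μ ≠ 0 ∨ D.dg 1 μ ≠ 0 := by
    refine D.lift2_mul (D.lift2_pos S g ν) hx fun μ μ' h h' => ?_
    rw [dg_add, dg_add, h.2.1, h.2.2]
    rcases S.eq_empty_or_nonempty with rfl | hn
    · right
      rw [dg_ind, sum_empty]
      omega
    · left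
      have : D.dg ν (ind S) ≠ 0 := by rw [dg_ind]; exact hν S hn
      omega
  have h2 : D.cmp ν 0 (D.cmp 1 0 (D.mon D.Om (ind S) g * x)) = 0 := D.op_ext fun μ => by
    rw [co_cmp, co_cmp, co_zero]
    split_ifs with e1 e2
    · by_contra e
      exact (h1.2 μ e).elim (· e1) (· e2)
    · rfl
    · rfl
  rw [h2]
  exact zero_mem _

section Origin

variable {R' : Type} [CommRing R'] [IsDomain R'] [Algebra ℚ R'] (χ : R →+* R') (hh0 : χ D.h = 0)

/-- specialisation to the commutative ring -/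
def lift2sp : D.Op D.Om →+* W.TF n R' :=
  SkewMonoidAlgebra.liftNCRingHom (AddMonoidAlgebra.singleZeroRingHom.comp (D.sp χ))
    (AddMonoidAlgebra.of (W.K0 n R') (Fin n → ℤ) : D.Lat →* W.TF n R') (by
      intro x y
      have : D.sp χ (y • x) = D.sp χ x :=
        (D.sp_act χ y x).trans ((D.map χ).act_of_h_zero hh0 _ _)
      rw [RingHom.comp_apply, this, mul_comm]; rfl)

theorem lift2sp_sg (μ : Fin n → ℤ) (c : D.Om) :
    D.lift2sp χ hh0 (D.sg μ c) = AddMonoidAlgebra.single μ (D.sp χ c) := by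
  have : D.lift2sp χ hh0 (D.sg μ c) =
      AddMonoidAlgebra.single 0 (D.sp χ c) * AddMonoidAlgebra.single μ 1 :=
    SkewMonoidAlgebra.liftNC_single _ _ _ _
  rw [this, AddMonoidAlgebra.single_mul_single, zero_add, mul_one]

theorem lift2sp_mon (μ : Fin n → ℤ) (g : Pol n R) :
    D.lift2sp χ hh0 (D.mon _ μ g) = W.mon0 (D.map χ) μ (MvPolynomial.map χ g) := by
  rw [mon_om, W.mon0, map_sum]
  refine sum_congr rfl fun w _ => ?_
  rw [lift2sp_sg, map_mul, sp_al, sp_cc, map_rename, W.c0, Ring.inverse_eq_inv', div_eq_mul_inv]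

theorem lift2sp_eq_zero {x : D.Op D.Om} (h : D.lift2sp χ hh0 x = 0) (μ : Fin n → ℤ) :
    D.sp χ (D.co x μ) = 0 := by
  by_cases hμ : μ ∈ D.sup x
  · rw [← D.sum_sg x, map_sum] at h
    have := congrArg (fun y : W.TF n R' => y.coeff μ) h
    simp only [lift2sp_sg, AddMonoidAlgebra.coeff_sum, AddMonoidAlgebra.coeff_single,
      Finsupp.finsetSum_apply, Finsupp.single_apply, sum_ite_eq', if_pos hμ] at this
    simpa using this
  · rw [mem_sup, not_not] at hμ; rw [hμ, map_zero]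

/-- elements whose products with the positive operators lift -/
def lift2N (ν : Fin k → ℤ) : AddSubgroup (W.TF n R') where
  carrier := {y | ∀ x ∈ D.lift2S fun μ => ∀ a, μ a ≤ 0, ∀ S g, y * D.lift2sp χ hh0
    (x * D.mon D.Om (ind S) g) ∈ (D.lift2Q ν).map (D.lift2sp χ hh0).toAddMonoidHom}
  zero_mem' x _ S g := by rw [zero_mul]; exact zero_mem _
  add_mem' hy hz x hx S g := by rw [add_mul]; exact add_mem (hy x hx S g) (hz x hx S g)
  neg_mem' hy x hx S g := lift2_cast (neg_mem (hy x hx S g)) (by ring)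

theorem lift2N_mul {ν : Fin k → ℤ} {y : W.TF n R'} (hy : y ∈ D.lift2N χ hh0 ν) {x : D.Op D.Om}
    (hx : x ∈ D.lift2S fun μ => ∀ a, μ a ≤ 0) : y * D.lift2sp χ hh0 x ∈ D.lift2N χ hh0 ν :=
  fun x' hx' S g => by
    rw [mul_assoc, ← map_mul, ← mul_assoc]
    exact hy _ (D.lift2_mul hx hx' fun μ μ' h h' a => add_nonpos (h a) (h' a)) S g

/-- the decomposition -/
def lift2R (ν : Fin k → ℤ) (c : ℤ) (y : W.TF n R') : Prop :=
  ∃ x ∈ D.lift2S fun μ => ∀ a, μ a ≤ 0,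
    ∃ z ∈ D.lift2S fun μ => (∀ a, μ a ≤ 0) ∧ 0 ≤ D.dg ν μ ∧ D.dg 1 μ ≤ c,
      D.lift2sp χ hh0 x = y ∧ y - D.lift2sp χ hh0 z ∈ D.lift2N χ hh0 ν

theorem lift2R_mul {ν : Fin k → ℤ} {c c' : ℤ} {y y' : W.TF n R'} (h : D.lift2R χ hh0 ν c y)
    (h' : D.lift2R χ hh0 ν c' y') : D.lift2R χ hh0 ν (c + c') (y * y') := by
  obtain ⟨x, h1, z, h2, rfl, h3⟩ := h
  obtain ⟨x', k1, z', k2, rfl, k3⟩ := h'
  refine ⟨x * x', D.lift2_mul h1 k1 fun μ μ' h h' a => add_nonpos (h a) (h' a), z * z',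
    D.lift2_mul h2 k2 fun μ μ' h h' => ⟨fun a => add_nonpos (h.1 a) (h'.1 a), ?_, ?_⟩,
    map_mul _ _ _, ?_⟩
  · rw [dg_add]; exact add_nonneg h.2.1 h'.2.1
  · rw [dg_add]; exact add_le_add h.2.2 h'.2.2
  · have := add_mem (D.lift2N_mul χ hh0 h3 k1)
      (D.lift2N_mul χ hh0 k3 (x := z) ⟨h2.1, fun μ h => (h2.2 μ h).1⟩)
    rw [map_mul]
    exact lift2_cast this (by ring)

theorem lift2R_mon (ν : Fin k → ℤ) {c : ℤ} {S : Finset (Fin n)} (hc : -D.dg 1 (ind S) ≤ c)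
    (g : Pol n R) : D.lift2R χ hh0 ν c (D.lift2sp χ hh0 (D.mon D.Om (-ind S) g)) := by
  have h := D.lift2_neg S g ν
  refine ⟨_, ⟨h.1, fun μ e => (h.2 μ e).1⟩, ?_⟩
  by_cases hS : 0 < D.dg ν (ind S)
  · refine ⟨0, zero_mem _, rfl, fun x hx S' g' => ⟨_, D.lift2_Q1 hS g hx S' g', ?_⟩⟩
    rw [map_zero, sub_zero]
    exact map_mul (D.lift2sp χ hh0) _ _
  · refine ⟨_, ⟨h.1, fun μ e => ⟨(h.2 μ e).1, ?_, (h.2 μ e).2.2.trans_le hc⟩⟩, rfl, ?_⟩
    · rw [(h.2 μ e).2.1]; omega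
    · rw [sub_self]; exact zero_mem _

include hh0 in
theorem lift2_main (hl : D.GN) (hh : D.h ≠ 0) (hl' : (D.map χ).LG) {ν : Fin k → ℤ}
    (hν : Gen (ν ∘ D.col)) (s : R' →+* R) (hs : ∀ c, χ (s c) = c) {f : Pol n R'}
    (hf : f ∈ Inv R' D.col) (hr : ∀ π g, (D.map χ).r0 π (f * g) = 0) :
    ∃ f' ∈ Inv R D.col, MvPolynomial.map χ f' = 0 ∧ MvPolynomial.map s f - f' ∈ D.UJ ν := by
  have hm : ∀ μ p, W.mon0 (D.map χ) μ p = D.lift2sp χ hh0 (D.mon D.Om μ (MvPolynomial.map s p)) :=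
    fun μ p => by rw [lift2sp_mon, map_map_sec χ s hs]
  have hN : ∀ y ∈ Subring.closure {z | ∃ U p, z = W.mon0 (D.map χ) (-ind U) p},
      D.lift2R χ hh0 ν 0 y := by
    intro y hy
    induction hy using Subring.closure_induction with
    | mem y hy =>
      obtain ⟨U, p, rfl⟩ := hy
      rw [hm]
      refine D.lift2R_mon χ hh0 ν ?_ _
      rw [dg_ind, neg_nonpos]
      exact sum_nonneg fun _ _ => zero_le_one
    | zero => exact ⟨0, zero_mem _, 0, zero_mem _, map_zero _, by simp⟩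
    | one => exact ⟨1, D.lift2_one fun _ => le_rfl, 1, D.lift2_one ⟨fun _ => le_rfl, by simp [dg]⟩,
        map_one _, by simp⟩
    | add y z _ _ hy hz =>
      obtain ⟨x, h1, z, h2, rfl, h3⟩ := hy
      obtain ⟨x', k1, z', k2, rfl, k3⟩ := hz
      refine ⟨x + x', add_mem h1 k1, z + z', add_mem h2 k2, map_add _ _ _, ?_⟩
      rw [map_add, add_sub_add_comm]
      exact add_mem h3 k3
    | neg y _ hy =>
      obtain ⟨x, h1, z, h2, rfl, h3⟩ := hy
      refine ⟨-x, neg_mem h1, -z, neg_mem h2, map_neg _ _, ?_⟩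
      rw [map_neg, ← neg_sub']
      exact neg_mem h3
    | mul y z _ _ hy hz => exact D.lift2R_mul χ hh0 hy hz
  obtain ⟨x, hx, hx'⟩ : (AddMonoidAlgebra.single 0 (algebraMap _ (W.K0 n R') f) : W.TF n R') ∈
      (D.lift2Q ν).map (D.lift2sp χ hh0).toAddMonoidHom := by
    refine (AddSubgroup.closure_le _).2 ?_ (W.two (D.map χ) hl' hh0 hf hr)
    rintro _ ⟨S, g, y, S', g', hS, hy, rfl⟩
    have h0 := D.dg_ind_pos (ν := 1) (fun _ => one_pos) hS
    rw [hm, hm, ← mul_assoc]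
    obtain ⟨-, -, z, h2, -, h3⟩ := D.lift2R_mul χ hh0
      (D.lift2R_mon χ hh0 ν (c := -1) (S := S) (by omega) (MvPolynomial.map s g)) (hN y hy)
    have h4 := add_mem (h3 1 (D.lift2_one fun _ => le_rfl) S' (MvPolynomial.map s g'))
      (AddSubgroup.mem_map_of_mem (D.lift2sp χ hh0).toAddMonoidHom
        (D.lift2_Q2 hν h2 S' (MvPolynomial.map s g')))
    rw [one_mul, RingHom.toAddMonoidHom_eq_coe, AddMonoidHom.coe_coe, map_mul] at h4
    exact lift2_cast h4 (by ring)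
  have h0 : D.lift2sp χ hh0 (D.cst D.Om (MvPolynomial.map s f) - x) = 0 := by
    rw [map_sub, show D.lift2sp χ hh0 x = _ from hx', cst_eq, lift2sp_sg, sp_al, map_map_sec χ s hs,
      sub_self]
  obtain ⟨f', hf', h3, h4⟩ := D.dec_JM2 hl hh hν (RingHom.ker (D.sp χ)) (D.sp_ker2 χ)
    (D.cmp ν 0 (D.cmp 1 0 (D.cst D.Om (MvPolynomial.map s f) - x)))
    (D.cmp_mem ν (D.cmp_mem 1 (sub_mem (D.cst_mem (map_mem_Inv s hf)) hx.1.1) 0) 0)
    (D.hom_cmp ν 0 _) (D.lift2_hom ν _)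
    ((((D.le_cst zero_le_one _).sub D hx.1.2).cmp D 1 0).cmp D ν 0) fun μ => by
      rw [co_cmp, co_cmp]
      split_ifs
      · exact D.lift2sp_eq_zero χ hh0 h0 μ
      · exact zero_mem _
      · exact zero_mem _
  refine ⟨f', hf', ?_, ?_⟩
  · rw [RingHom.mem_ker, sp_al] at h3
    exact (map_eq_zero_iff _ (IsFractionRing.injective _ _)).1 h3
  · have h5 : D.cmp ν 0 (D.cmp 1 0 x) ∈ D.JM2 D.Om ν := hx.2
    have h6 := add_mem h4 h5
    rw [map_sub, map_sub, D.cmp_of_hom (D.hom_cst 1 _), D.cmp_of_hom (D.hom_cst ν _),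
      sub_right_comm, sub_add_cancel] at h6
    rw [mem_UJ, ← cstHom_apply, map_sub]
    exact h6

end Origin

theorem two_lift2 (hl : D.LG) (hh : D.h = 0) {ν : Fin k → ℤ} (hν : Gen (ν ∘ D.col))
    {p : Pol n R[X]} (hp : p ∈ Inv R[X] D.col)
    (hr : ∀ π g, D.r0 π (MvPolynomial.map (Polynomial.evalRingHom 0) p * g) = 0) :
    ∃ p' ∈ Inv R[X] D.col, p - C Polynomial.X * p' ∈ D.up.UJ ν := by
  have : CharZero R := algebraRat.charZero R
  have hs : ∀ c : R, Polynomial.evalRingHom 0 (Polynomial.C c) = c := fun _ => Polynomial.eval_C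
  obtain ⟨f', h1, h2, h3⟩ := D.up.lift2_main (Polynomial.evalRingHom 0) Polynomial.eval_X
    (D.up_GN hl) Polynomial.X_ne_zero (by rwa [D.up_map hh]) hν Polynomial.C hs
    (map_mem_Inv _ hp) (by rwa [D.up_map hh])
  obtain ⟨q, hq⟩ : ∃ q, q = MvPolynomial.map Polynomial.C
    (MvPolynomial.map (Polynomial.evalRingHom 0) p) := ⟨_, rfl⟩
  have h4 : p - q + f' ∈ Inv R[X] D.col :=
    add_mem (sub_mem hp (hq ▸ map_mem_Inv _ (map_mem_Inv _ hp))) h1
  have h5 : MvPolynomial.map (Polynomial.evalRingHom 0) (p - q + f') = 0 := by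
    rw [map_add, map_sub, h2, hq, map_map_sec _ _ hs, sub_self, add_zero]
  obtain ⟨p', hp'⟩ : C Polynomial.X ∣ p - q + f' := by
    refine (C_dvd_iff_dvd_coeff _ _).2 fun m => Polynomial.X_dvd_iff.2 ?_
    rw [Polynomial.coeff_zero_eq_eval_zero]
    exact (coeff_map (Polynomial.evalRingHom 0) _ m).symm.trans (by rw [h5, coeff_zero])
  refine ⟨p', fun w hw => mul_left_cancel₀ (C_ne_zero.2 Polynomial.X_ne_zero) ?_, ?_⟩
  · rw [← hp', ← h4 w hw, hp', map_mul, rename_C]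
  · rw [← hp', show p - (p - q + f') = q - f' by ring, hq]
    exact h3

end QD

end Pool.Agent.Work.MP_849ab0_ag
end
end
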