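import Pool.Agent.Work.MP_849ab0_ag.Grade
import Pool.Agent.Work.MP_849ab0_ag.Count
import Pool.Agent.Work.MP_849ab0_ag.JI
import Pool.Agent.Work.MP_849ab0_ag.Lift2

-- merged part: Pool.Agent.Work.MP_849ab0_ag.Lin2
section
/-! Linear algebra over domains. -/

noncomputable section

namespace Pool.Agent.Work.MP_849ab0_ag

open Finset
open scoped Polynomial

theorem lin2_det {F S ι : Type} [Field F] [Fintype ι] [DecidableEq ι] (v : S → ι → F)
    (h : ∀ c : ι → F, (∀ s, ∑ i, c i * v s i = 0) → c = 0) :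
    ∃ l : ι → S, (Matrix.of fun j i => v (l j) i).det ≠ 0 := by
  have hs : Submodule.span F (Set.range v) = ⊤ := by
    by_contra hne
    obtain ⟨φ, hφ, hle⟩ := Submodule.exists_le_ker_of_lt_top _ (lt_top_iff_ne_top.2 hne)
    have := h (fun i => φ fun j => if i = j then 1 else 0) fun s => by
      have h1 : φ (v s) = 0 := hle (Submodule.subset_span ⟨s, rfl⟩)
      rw [LinearMap.pi_apply_eq_sum_univ] at h1
      simpa only [smul_eq_mul, mul_comm] using h1
    refine hφ (LinearMap.ext fun x => ?_)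
    rw [LinearMap.pi_apply_eq_sum_univ]
    exact sum_eq_zero fun i _ => by rw [congrFun this i]; simp
  obtain ⟨κ, a, -, h1, h2⟩ := exists_linearIndependent' F v
  let b := Module.Basis.mk h2 (by rw [h1, hs])
  let e : ι ≃ κ := (Pi.basisFun F ι).indexEquiv b
  refine ⟨a ∘ e, ?_⟩
  have h3 : LinearIndependent F (Matrix.of fun j i => v ((a ∘ e) j) i).row :=
    h2.comp e e.injective
  exact ((Matrix.isUnit_iff_isUnit_det _).1 (Matrix.linearIndependent_rows_iff_isUnit.1 h3)).ne_zero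

theorem inj_of_indep {R A S ι : Type} [CommRing R] [IsDomain R] [CommRing A] [IsDomain A]
    [Fintype ι] (v : S → ι → R) (h : ∀ c : ι → R, (∀ s, ∑ i, c i * v s i = 0) → c = 0)
    (φ : R →+* A) (hφ : Function.Injective φ) (c : ι → A)
    (hc : ∀ s, ∑ i, c i * φ (v s i) = 0) : c = 0 := by
  classical
  have hinj := IsFractionRing.injective R (FractionRing R)
  obtain ⟨l, hl⟩ := lin2_det (fun s i => algebraMap R (FractionRing R) (v s i)) fun d hd => by
    obtain ⟨b, hb⟩ := IsLocalization.exist_integer_multiples_of_finite (nonZeroDivisors R) d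
    choose e he using hb
    have h1 := h e fun s => hinj (by
      rw [map_sum, map_zero]
      have := congrArg (fun x => (b : R) • x) (hd s)
      simp only [smul_sum, smul_zero] at this
      rw [← this]
      exact sum_congr rfl fun i _ => by rw [map_mul, he, smul_mul_assoc])
    funext i
    have h2 := he i
    rw [h1, Pi.zero_apply, map_zero, Algebra.smul_def, eq_comm, mul_eq_zero] at h2
    exact h2.resolve_left ((map_ne_zero_iff _ hinj).2 (nonZeroDivisors.coe_ne_zero b))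
  let M : Matrix ι ι R := Matrix.of fun j i => v (l j) i
  have h1 : M.det ≠ 0 := fun e => hl (by
    have := congrArg (algebraMap R (FractionRing R)) e
    rwa [RingHom.map_det, map_zero] at this)
  have h2 : (φ.mapMatrix M).det ≠ 0 := by
    rw [← RingHom.map_det]; exact (map_ne_zero_iff _ hφ).2 h1
  refine Matrix.eq_zero_of_mulVec_eq_zero h2 (funext fun j => ?_)
  rw [Pi.zero_apply, ← hc (l j)]
  exact sum_congr rfl fun i _ => mul_comm _ _

theorem det_trick {R M κ : Type} [CommRing R] [IsDomain R] [AddCommGroup M] [Module R[X] M]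
    [Fintype κ] (V : Submodule R[X] M) (u : κ → M) (s : κ → R) (hs : ∀ j, s j ≠ 0)
    (h : ∀ j, ∃ a : κ → R[X],
      Polynomial.C (s j) • u j - (Polynomial.X : R[X]) • ∑ i, a i • u i ∈ V) :
    ∃ t : R[X], t ≠ 0 ∧ ∀ j, t • u j ∈ V := by
  classical
  choose a ha using h
  let A : Matrix κ κ R[X] :=
    Matrix.diagonal (fun j => Polynomial.C (s j)) - Matrix.of fun j i => Polynomial.X * a j i
  have h1 : ∀ k, ∑ i, A k i • u i ∈ V := fun k => by
    convert ha k using 1
    simp only [A, Matrix.sub_apply, Matrix.of_apply, sub_smul, sum_sub_distrib, smul_sum,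
      mul_smul, Matrix.diagonal_apply, ite_smul, zero_smul, sum_ite_eq, mem_univ, if_true]
  refine ⟨A.det, fun e => ?_, fun j => ?_⟩
  · have h2 := congrArg (Polynomial.evalRingHom (0 : R)) e
    rw [RingHom.map_det, map_zero, show (Polynomial.evalRingHom (0 : R)).mapMatrix A =
      Matrix.diagonal s from ?_, Matrix.det_diagonal] at h2
    · exact prod_ne_zero_iff.2 (fun j _ => hs j) h2
    · ext j i
      by_cases k : j = i <;> simp [A, k]
  · have h2 : A.det • u j = ∑ k, A.adjugate j k • ∑ i, A k i • u i := by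
      simp only [smul_sum, smul_smul]
      rw [sum_comm]
      simp only [← sum_smul, ← Matrix.mul_apply, Matrix.adjugate_mul, Matrix.smul_apply,
        Matrix.one_apply, smul_eq_mul, mul_ite, mul_one, mul_zero, ite_smul, zero_smul,
        sum_ite_eq, mem_univ, if_true]
    rw [h2]
    exact V.sum_mem fun k _ => V.smul_mem _ (h1 k)

theorem exists_max_indep {R S κ : Type} [CommRing R] [IsDomain R] [Fintype κ] (v : S → κ → R) :
    ∃ T : Finset κ, (∀ c : T → R, (∀ s, ∑ i, c i * v s i.1 = 0) → c = 0) ∧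
      ∀ j, ∃ a : R, a ≠ 0 ∧ ∃ c : T → R, ∀ s, a * v s j = ∑ i, c i * v s i.1 := by
  classical
  obtain ⟨T, h1, h2⟩ := exists_maximal_linearIndepOn R fun j s => v s j
  obtain ⟨T, rfl⟩ : ∃ T' : Finset κ, (T' : Set κ) = T := ⟨T.toFinset, Set.coe_toFinset T⟩
  refine ⟨T, fun c hc => funext (Fintype.linearIndependent_iff.1
    (show LinearIndependent R fun (i : T) s => v s i.1 from h1) c (funext fun s => ?_)), fun j => ?_⟩
  · rw [Finset.sum_apply]
    exact hc s
  have h3 : ∃ a : R, a ≠ 0 ∧ (a • fun s => v s j) ∈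
      Submodule.span R ((fun j s => v s j) '' (T : Set κ)) := by
    by_cases k : j ∈ (T : Set κ)
    · exact ⟨1, one_ne_zero, Submodule.smul_mem _ _ (Submodule.subset_span ⟨j, k, rfl⟩)⟩
    · exact h2 j k
  obtain ⟨a, ha, h4⟩ := h3
  rw [Set.image_eq_range] at h4
  obtain ⟨c, hc⟩ := (Submodule.mem_span_range_iff_exists_fun R
    (v := fun (i : T) s => v s i.1)).1 h4
  refine ⟨a, ha, c, fun s => ?_⟩
  have := congrFun hc s
  rw [Finset.sum_apply] at this
  exact this.symm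

end Pool.Agent.Work.MP_849ab0_ag
end
end

-- merged part: Pool.Agent.Work.MP_849ab0_ag.Deep2
section
/-! Regular lattice points recover the iterated residues. -/

noncomputable section

set_option linter.unusedSectionVars false

namespace Pool.Agent.Work.MP_849ab0_ag

open MvPolynomial Finset

open scoped Polynomial

namespace QD

variable {k n : ℕ} {E R F : Type} [Fintype E] [CommRing R] [IsDomain R] [Algebra ℚ R] [Field F]
  [Algebra ℚ F] (D : QD k n E R) {i1 : R →+* LS F}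

omit [IsDomain R] [Algebra ℚ R] in
theorem Deep2_aeval (φ : Pol n R[X] →ₐ[R[X]] Pol n R[X]) (y : Pol n R[X]) (P : R[X]) :
    φ (Polynomial.aeval y P) = Polynomial.aeval (φ y) P :=
  (Polynomial.aeval_algHom_apply (φ.restrictScalars R) y P).symm

theorem Deep2_sh (μ : Fin n → ℤ) (a : Fin n) (j : ℤ) (P : R[X]) :
    D.up.sh μ (Polynomial.aeval (X a + ((-j : ℤ) : Pol n R[X]) * C Polynomial.X) P) =
      Polynomial.aeval (X a + ((μ a - j : ℤ) : Pol n R[X]) * C Polynomial.X) P := by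
  rw [Deep2_aeval]
  congr 2
  rw [map_add, map_mul, sh_X, sh_C, map_intCast]
  change _ + _ * C Polynomial.X + _ = _
  push_cast
  ring

theorem Deep2_jk (ν : Fin n → ℤ) {s : Option (Fin n) → ℤ} (hs : Function.Injective s)
    {q : Fin n → ℤ} (hq : ∀ o, ov q o = s none - s o) (w : Equiv.Perm (Fin n)) {r : Fin n → ℤ}
    (hr : r ∈ box n) (π : Equiv.Perm (Fin n)) :
    jk ν (key (q ∘ w.symm) r) π = jk ν (s ∘ Option.map w.symm) π := by
  have h0 : ∀ o, ov (q ∘ w.symm) o = s none - s (o.map w.symm) := by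
    intro o
    rw [← hq]
    cases o <;> rfl
  have h1 : ∀ o o', s (o.map w.symm) < s (o'.map w.symm) →
      key (q ∘ w.symm) r o < key (q ∘ w.symm) r o' := fun o o' h =>
    key_lt (mem_box.1 hr) (Or.inl (by rw [h0, h0]; omega))
  refine jk_congr ν (fun o o' => ⟨fun h => ?_, h1 o o'⟩) π
  rcases lt_trichotomy (s (o.map w.symm)) (s (o'.map w.symm)) with e | e | e
  · exact e
  · have := Option.map_injective w.symm.injective (hs e)
    rw [this] at h
    exact absurd h (lt_irrefl _)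
  · exact absurd h (h1 o' o e).not_gt

theorem Deep2_tau {ν : Fin k → ℤ} {s : Option (Fin n) → ℤ} (hs : Function.Injective s)
    {q : Fin n → ℤ} (hq : ∀ o, ov q o = s none - s o) (hd : q ∈ D.Qd2 ν (D.dg ν q)) {P : R[X]}
    (hP : ∀ a, Polynomial.aeval (X a : Pol n R[X]) P ∈ D.QQ2 i1) {θ : Pol n R}
    (hθ : θ ∈ Inv R D.col) (G U : Pol n R[X])
    (hU : U = ∏ a, ∏ j ∈ (Icc (-D.dg ν q) (D.dg ν q)).erase (q a),
      Polynomial.aeval (X a + ((-j : ℤ) : Pol n R[X]) * C Polynomial.X) P) :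
    D.tau2 i1 ν (D.dg ν q) θ (D.up.cst _ (Av D.col (D.up.sh (-q) G * U))) =
      (Fintype.card (stab D.col) : LS (LS F)) * ∑ π, jk (ν ∘ D.col) s π • ∑ r ∈ box n,
        D.kL i1 r π (G * D.up.sh q U * MvPolynomial.map Polynomial.C (θ * D.NUM)) := by
  classical
  have h1 : ∀ q' : Fin n → ℤ, ∑ r ∈ box n, ∑ π : Equiv.Perm (Fin n),
      jk (ν ∘ D.col) (key q' r) π • D.kL i1 r π (D.up.sh q' (Av D.col (D.up.sh (-q) G * U)) *
        MvPolynomial.map Polynomial.C (θ * D.NUM)) =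
      ∑ w : stab D.col, ∑ r ∈ box n, ∑ π : Equiv.Perm (Fin n),
        jk (ν ∘ D.col) (key q' r) π • D.kL i1 r π (rename w.1 (D.up.sh (q' ∘ w.1)
          (D.up.sh (-q) G * U)) * MvPolynomial.map Polynomial.C (θ * D.NUM)) := by
    intro q'
    rw [sum_comm (s := univ)]
    refine sum_congr rfl fun r _ => ?_
    rw [sum_comm (s := univ)]
    refine sum_congr rfl fun π _ => ?_
    rw [← smul_sum, Av, map_sum, sum_mul, map_sum]
    refine congrArg (jk (ν ∘ D.col) (key q' r) π • ·) (sum_congr rfl fun w _ => ?_)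
    have : (q' ∘ w.1) ∘ w.1.symm = q' := by funext a; simp
    rw [rename_sh, this]
  rw [tau2_cst]
  simp only [h1]
  rw [sum_comm, ← nsmul_eq_mul, ← card_univ, ← sum_const]
  refine sum_congr rfl fun w _ => ?_
  rw [sum_eq_single_of_mem (q ∘ w.1.symm)]
  · have e1 : (q ∘ w.1.symm) ∘ w.1 = q := by funext a; simp
    have e3 : MvPolynomial.map Polynomial.C (θ * D.NUM) =
        rename w.1 (MvPolynomial.map Polynomial.C (θ * D.NUM)) := by
      rw [← map_rename, map_mul (rename w.1), hθ w.1 w.2, rename_NUM]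
    rw [sum_congr rfl fun r hr => sum_congr rfl fun π _ => by
      rw [Deep2_jk (ν ∘ D.col) hs hq w.1 hr π], sum_comm,
      ← Equiv.sum_comp (Equiv.mulRight w.1⁻¹)]
    refine sum_congr rfl fun π _ => ?_
    rw [← smul_sum, Equiv.coe_mulRight, jk_perm (ν ∘ D.col) w.1 fun a => congrArg ν (w.2 a), e1]
    refine congrArg (jk (ν ∘ D.col) s π • ·) ?_
    conv_lhs => rw [e3]
    simp only [← map_mul (rename w.1)]
    rw [kL_rename, map_mul (D.up.sh q), sh_sh, add_neg_cancel, sh_zero']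
  · rw [mem_Qd2] at hd ⊢
    exact ⟨fun a => hd.1 _, D.dg_perm ν q w⟩
  · intro q' hq' hne
    obtain ⟨a, ha⟩ : ∃ a, q' (w.1 a) ≠ q a := by
      by_contra hh
      push Not at hh
      exact hne (funext fun b => by simpa using hh (w.1.symm b))
    have hj : q' (w.1 a) ∈ (Icc (-D.dg ν q) (D.dg ν q)).erase (q a) :=
      mem_erase.2 ⟨ha, Fintype.mem_piFinset.1 (mem_filter.1 hq').1 _⟩
    have hd : Polynomial.aeval (X a + ((-q' (w.1 a) : ℤ) : Pol n R[X]) * C Polynomial.X) P ∣ U := by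
      rw [hU]
      exact (dvd_prod_of_mem (fun j : ℤ => Polynomial.aeval
        (X a + ((-j : ℤ) : Pol n R[X]) * C Polynomial.X) P) hj).trans
        (dvd_prod_of_mem (fun a => ∏ j ∈ (Icc (-D.dg ν q) (D.dg ν q)).erase (q a),
          Polynomial.aeval (X a + ((-j : ℤ) : Pol n R[X]) * C Polynomial.X) P) (mem_univ a))
    obtain ⟨V, hV⟩ := hd
    have hm : rename w.1 (D.up.sh (q' ∘ w.1) (D.up.sh (-q) G * U)) ∈ D.QQ2 i1 := by
      rw [hV, map_mul, map_mul, map_mul, map_mul, Deep2_sh, Function.comp_apply, sub_self,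
        Int.cast_zero, zero_mul, add_zero, Deep2_aeval, rename_X]
      exact Ideal.mul_mem_left _ _ (Ideal.mul_mem_right _ _ (hP _))
    refine sum_eq_zero fun r _ => sum_eq_zero fun π _ => ?_
    rw [(D.mem_QQ2 i1).1 hm, smul_zero]

theorem deep2 (ht : D.Tau i1) (hi : Function.Injective i1) {ν : Fin k → ℤ}
    (hν : Gen (ν ∘ D.col)) {ι : Type} [Fintype ι] (f : ι → Pol n R) (hf : ∀ i, f i ∈ Inv R D.col)
    (c : ι → LS (LS F))
    (hc : ∀ d, ∀ p ∈ Inv R[X] D.col, ∑ i, c i * D.tau2 i1 ν d (f i) (D.up.cst _ p) = 0)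
    (π : Equiv.Perm (Fin n)) (g : Pol n R) :
    ∑ i, c i * HahnSeries.C (i1 (D.r0 π (g * f i))) = 0 := by
  classical
  have : CharZero R := algebraRat.charZero R
  choose Pa hPa hPq using fun a : Fin n => D.kill2 ht (X a)
  have hP : (∏ a, Pa a).Monic := Polynomial.monic_prod_of_monic _ _ fun a _ => hPa a
  have hPQ : ∀ a, Polynomial.aeval (X a : Pol n R[X]) (∏ a, Pa a) ∈ D.QQ2 i1 := by
    intro a
    obtain ⟨V, hV⟩ := dvd_prod_of_mem Pa (mem_univ a)
    have := hPq a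
    rw [map_X] at this
    rw [hV, map_mul]
    exact Ideal.mul_mem_right _ _ this
  generalize ∏ a, Pa a = P at hP hPQ
  refine jk_inj (ν ∘ D.col) (fun π => ∑ i, c i * HahnSeries.C (i1 (D.r0 π (g * f i))))
    (fun s hs => ?_) π
  obtain ⟨q, hq⟩ : ∃ q : Fin n → ℤ, ∀ o, ov q o = s none - s o :=
    ⟨fun a => s none - s (some a), by rintro (_ | a) <;> simp⟩
  by_cases hd : q ∈ D.Qd2 ν (D.dg ν q)
  swap
  · refine sum_eq_zero fun π _ => ?_
    have h0 : jk (ν ∘ D.col) s π = 0 := by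
      by_contra h0
      refine hd (D.mem_Qd2.2 ⟨jk_bound hν (fun o o' h => ?_) h0, rfl⟩)
      rw [hq, hq] at h
      omega
    rw [h0, zero_smul]
  obtain ⟨U, hU⟩ : ∃ U : Pol n R[X], U = ∏ a, ∏ j ∈ (Icc (-D.dg ν q) (D.dg ν q)).erase (q a),
      Polynomial.aeval (X a + ((-j : ℤ) : Pol n R[X]) * C Polynomial.X) P := ⟨_, rfl⟩
  obtain ⟨r, hr, hrU⟩ : ∃ r : R[X], r ≠ 0 ∧ C r ∈ D.QQ2 i1 ⊔ Ideal.span {D.up.sh q U} := by
    rw [hU, map_prod]
    refine sep_prod _ _ _ fun a _ => ?_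
    rw [map_prod]
    refine sep_prod _ _ _ fun j hj => ?_
    obtain ⟨r, hr, h⟩ := sep hP (X a : Pol n R[X]) (i := 0) (j := q a - j)
      (fun e => (mem_erase.1 hj).1 (by omega))
    refine ⟨r, hr, ?_⟩
    rw [Deep2_sh]
    rw [Ideal.span_insert] at h
    refine (sup_le_sup_right (b := D.QQ2 i1) ?_ _ :) h
    rw [Ideal.span_singleton_le_iff_mem, Int.cast_zero, zero_mul, add_zero]
    exact hPQ a
  obtain ⟨x, hx, y, hy, hxy⟩ := Submodule.mem_sup.1 hrU
  obtain ⟨u, rfl⟩ := Ideal.mem_span_singleton'.1 hy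
  have h1 := hc (D.dg ν q) _
    (Av_mem D.col (D.up.sh (-q) (MvPolynomial.map Polynomial.C g * u) * U))
  have h2 : ∀ i π, ∑ ρ ∈ box n, D.kL i1 ρ π (MvPolynomial.map Polynomial.C g * u * D.up.sh q U *
      MvPolynomial.map Polynomial.C (f i * D.NUM)) =
      i2 i1 r * HahnSeries.C (i1 (D.r0 π (g * f i))) := by
    intro i π
    have e : MvPolynomial.map Polynomial.C g * u * D.up.sh q U *
        MvPolynomial.map Polynomial.C (f i * D.NUM) =
        C r * MvPolynomial.map Polynomial.C (g * f i * D.NUM) -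
          x * MvPolynomial.map Polynomial.C (g * f i * D.NUM) := by
      rw [← hxy]
      simp only [map_mul]
      ring
    rw [← kL_glob D ht, mul_sum]
    refine sum_congr rfl fun ρ _ => ?_
    rw [e, map_sub, (D.mem_QQ2 i1).1 hx, sub_zero, kL_C_mul]
  have h3 : i2 i1 ((Fintype.card (stab D.col) : R[X]) * r) * ∑ π, jk (ν ∘ D.col) s π •
      ∑ i, c i * HahnSeries.C (i1 (D.r0 π (g * f i))) = 0 := by
    rw [← h1]
    simp only [smul_sum, mul_sum]
    rw [sum_comm]
    refine sum_congr rfl fun i _ => ?_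
    rw [D.Deep2_tau hs hq hd hPQ (hf i) _ U hU, mul_sum, mul_sum]
    refine sum_congr rfl fun π _ => ?_
    rw [h2, map_mul, map_natCast, zsmul_eq_mul, zsmul_eq_mul]
    ring
  refine (mul_eq_zero.1 h3).resolve_left fun h0 => ?_
  exact mul_ne_zero (Nat.cast_ne_zero.2 Fintype.card_ne_zero) hr
    (i2_injective hi (h0.trans (map_zero _).symm))

end QD

end Pool.Agent.Work.MP_849ab0_ag
end
end

-- merged part: Pool.Agent.Work.MP_849ab0_ag.Count2
section
/-! The dimension count for all quivers. -/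

noncomputable section

set_option linter.unusedSectionVars false

namespace Pool.Agent.Work.MP_849ab0_ag

open MvPolynomial Finset

open scoped Polynomial

namespace QD

variable {k n : ℕ} {E R F : Type} [Fintype E] [CommRing R] [IsDomain R] [Algebra ℚ R] [Field F]
  [Algebra ℚ F] (D : QD k n E R) {i1 : R →+* LS F}

theorem count2_add (i1 : R →+* LS F) (ν : Fin k → ℤ) (d : ℤ) (θ : Pol n R)
    (x y : D.up.Op D.up.Om) :
    D.tau2 i1 ν d θ (x + y) = D.tau2 i1 ν d θ x + D.tau2 i1 ν d θ y := by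
  simp only [tau2, co_add, map_add, sum_add_distrib]

theorem count2_smul (i1 : R →+* LS F) (ν : Fin k → ℤ) (d : ℤ) (θ : Pol n R) (r : R[X])
    (p : Pol n R[X]) :
    D.tau2 i1 ν d θ (D.up.cst _ (r • p)) = i2 i1 r * D.tau2 i1 ν d θ (D.up.cst _ p) := by
  rw [tau2_cst, tau2_cst, mul_sum]
  refine sum_congr rfl fun q _ => ?_
  rw [mul_sum]
  refine sum_congr rfl fun s _ => ?_
  rw [mul_sum]
  refine sum_congr rfl fun π _ => ?_
  rw [mul_smul_comm, ← kL_C_mul, smul_eq_C_mul, map_mul (D.up.sh q), sh_C, mul_assoc (C r)]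

/-- the combination of traces -/
def count2_T (i1 : R →+* LS F) (ν : Fin k → ℤ) {ι : Type} [Fintype ι] (f : ι → Pol n R) (d : ℤ)
    (c : ι → LS (LS F)) : D.up.Op D.up.Om →+ LS (LS F) :=
  AddMonoidHom.mk' (fun x => ∑ i, c i * D.tau2 i1 ν d (f i) x) fun x y => by
    simp only [count2_add, mul_add, sum_add_distrib]

theorem count2_T_apply (i1 : R →+* LS F) (ν : Fin k → ℤ) {ι : Type} [Fintype ι]
    (f : ι → Pol n R) (d : ℤ) (c : ι → LS (LS F)) (x : D.up.Op D.up.Om) :
    D.count2_T i1 ν f d c x = ∑ i, c i * D.tau2 i1 ν d (f i) x := rfl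

theorem count2_JJ (ht : D.Tau i1) {ν : Fin k → ℤ} (hν : Gen (ν ∘ D.col)) {ι : Type} [Fintype ι]
    (f : ι → Pol n R) (d : ℕ) (c : ι → LS (LS F))
    (h : ∀ d' < d, ∀ a ∈ D.up.Alg D.up.Om, D.up.Hom _ ν 0 a →
      D.count2_T i1 ν f (d' : ℕ) c a = 0)
    {x : D.up.Op D.up.Om} (hx : x ∈ D.up.JJ _ ν) : D.count2_T i1 ν f d c x = 0 := by
  have : CharZero R := algebraRat.charZero R
  refine (AddSubgroup.closure_le (D.count2_T i1 ν f d c).ker).2 ?_ hx
  rintro _ ⟨m, hm, b, hb, a, ha, h1, h2, rfl⟩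
  have h3 : D.count2_T i1 ν f d c (b * a) = D.count2_T i1 ν f (d - -m) c (a * b) :=
    sum_congr rfl fun i _ => congrArg (c i * ·) (D.trace2 ht hν
      (D.up.good_of_mem Polynomial.X_ne_zero ha) (D.up.good_of_mem Polynomial.X_ne_zero hb) h2 d _)
  change D.count2_T i1 ν f d c (b * a) = 0
  rw [h3]
  rcases lt_or_ge ((d : ℤ) - -m) 0 with h4 | h4
  · exact sum_eq_zero fun i _ => by rw [D.tau2_neg i1 ν h4, mul_zero]
  · obtain ⟨d', h5⟩ := Int.eq_ofNat_of_zero_le h4
    rw [h5]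
    have h6 := Hom.mul D.up h2 h1
    rw [neg_add_cancel] at h6
    exact h d' (by omega) _ (mul_mem ha hb) h6

theorem count2_p_sh (ν : Fin k → ℤ) (q : Fin n → ℤ) :
    D.up.sh q (MvPolynomial.map Polynomial.C (D.count_p ν)) =
      MvPolynomial.map Polynomial.C (D.count_p ν) + (D.dg ν q : Pol n R[X]) * C Polynomial.X := by
  simp only [count_p, dg, map_sum, map_mul, map_intCast, map_X, sh_X, Int.cast_sum, Int.cast_mul,
    sum_mul, ← sum_add_distrib, mul_add, mul_assoc]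
  rfl

theorem count2_kill {ν : Fin k → ℤ} {P : R[X]}
    (hP : Polynomial.aeval (MvPolynomial.map Polynomial.C (D.count_p ν)) P ∈ D.QQ2 i1) (d : ℤ)
    (θ : Pol n R) (p : Pol n R[X]) :
    D.tau2 i1 ν d θ (D.up.cst _ (Polynomial.aeval (MvPolynomial.map Polynomial.C (D.count_p ν) +
      ((-d : ℤ) : Pol n R[X]) * C Polynomial.X) P * p)) = 0 := by
  rw [tau2_cst]
  refine sum_eq_zero fun q hq => sum_eq_zero fun s _ => sum_eq_zero fun π _ => ?_
  have h1 := Polynomial.aeval_algHom_apply ((D.up.sh q).restrictScalars R)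
    (MvPolynomial.map Polynomial.C (D.count_p ν) + ((-d : ℤ) : Pol n R[X]) * C Polynomial.X) P
  rw [AlgHom.restrictScalars_apply, AlgHom.restrictScalars_apply, map_add, map_mul, map_intCast,
    sh_C, count2_p_sh, (D.mem_Qd2.1 hq).2, add_assoc, ← add_mul, ← Int.cast_add,
    add_neg_cancel, Int.cast_zero, zero_mul, add_zero] at h1
  rw [map_mul (D.up.sh q), ← h1, mul_assoc, (D.mem_QQ2 i1).1 hP, smul_zero]

theorem count2 (ht : D.Tau i1) (hi : Function.Injective i1) {ν : Fin k → ℤ}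
    (hν : Gen (ν ∘ D.col)) {ι : Type} [Fintype ι] (f : ι → Pol n R) (hf : ∀ i, f i ∈ Inv R D.col)
    (hinj : ∀ c : ι → LS (LS F),
      (∀ π g, ∑ i, c i * HahnSeries.C (i1 (D.r0 π (g * f i))) = 0) → c = 0)
    (hgen : ∀ p ∈ Inv R[X] D.col, ∃ s : R[X], s ≠ 0 ∧ ∃ r : ι → R[X], D.up.cst D.up.Om
      (C s * p - ∑ i, C (r i) * MvPolynomial.map Polynomial.C (f i)) ∈ D.up.JJ _ ν)
    (hdec : ∀ a ∈ D.up.Alg D.up.Om, D.up.Hom _ ν 0 a →
      ∃ p ∈ Inv R[X] D.col, a - D.up.cst _ p ∈ D.up.JJ _ ν)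
    (r : ι → R[X])
    (hr : D.up.cst D.up.Om (∑ i, C (r i) * MvPolynomial.map Polynomial.C (f i)) ∈ D.up.JJ _ ν) :
    r = 0 := by
  obtain ⟨P, hP, hk⟩ := D.kill2 ht (D.count_p ν)
  let ev : ι → Inv R[X] D.col := fun i => ⟨_, map_mem_Inv Polynomial.C (hf i)⟩
  let φ : Pol 1 R[X] →ₐ[R[X]] Inv R[X] D.col :=
    aeval fun _ => ⟨_, map_mem_Inv Polynomial.C (D.count_p_mem ν)⟩
  let y : ℕ → Inv R[X] D.col := fun d =>
    φ (Polynomial.aeval (X 0 + ((-d : ℤ) : Pol 1 R[X]) * C Polynomial.X) P)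
  have hy : ∀ d, (y d).1 = Polynomial.aeval (MvPolynomial.map Polynomial.C (D.count_p ν) +
      ((-d : ℤ) : Pol n R[X]) * C Polynomial.X) P := fun d => by
    have h := Polynomial.aeval_algHom_apply (((Inv R[X] D.col).val.comp φ).restrictScalars R)
      (X 0 + ((-d : ℤ) : Pol 1 R[X]) * C Polynomial.X) P
    refine h.symm.trans (congrArg (fun z => Polynomial.aeval z P) ?_)
    rw [AlgHom.restrictScalars_apply, map_add, map_mul, map_intCast, AlgHom.comp_apply,
      AlgHom.comp_apply, aeval_X, aeval_C, AlgHom.commutes]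
    rfl
  have hev : ∀ s : ι → R[X], (∑ i, s i • ev i).1 =
      ∑ i, C (s i) * MvPolynomial.map Polynomial.C (f i) := fun s => by
    rw [AddSubmonoidClass.coe_finsetSum]
    exact sum_congr rfl fun i _ => smul_eq_C_mul _ _
  let τ : ℕ → (ι → LS (LS F)) →ₗ[LS (LS F)]
      ({a // a ∈ D.up.Alg D.up.Om ∧ D.up.Hom _ ν 0 a} → LS (LS F)) :=
    fun d => Fintype.linearCombination (LS (LS F)) fun i a => D.tau2 i1 ν d (f i) a.1
  have hτ : ∀ (d : ℕ) c a, τ d c a = D.count2_T i1 ν f d c a.1 := fun d c a => by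
    simp only [τ, Fintype.linearCombination_apply, Finset.sum_apply, Pi.smul_apply, smul_eq_mul,
      count2_T_apply]
  have hJ : ∀ (d : ℕ) c, (∀ d' < d, τ d' c = 0) → ∀ x ∈ D.up.JJ _ ν,
      D.count2_T i1 ν f d c x = 0 :=
    fun d c h x hx => D.count2_JJ ht hν f d c
      (fun d' hd a h1 h2 => (hτ d' c ⟨a, h1, h2⟩).symm.trans (congrFun (h d' hd) _)) hx
  have key := count_abs τ
    (fun p : Inv R[X] D.col => ⟨D.up.cst _ p.1, D.up.cst_mem p.2, D.up.hom_cst ν _⟩) ev
    (count_S (i2 i1) {p | D.up.cst _ p.1 ∈ D.up.JJ D.up.Om ν})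
    (fun d => count_S (i2 i1) {x | y d ∣ x}) (fun d c h => ?_) (fun d c h h0 => ?_)
    (count_indep (i2_injective hi) y (count_sep hP φ)) (fun c h => ?_) (fun l h h0 => ?_)
    (fun i => i2 i1 (r i)) fun l h => ?_
  · funext i
    exact i2_injective hi ((congrFun key i).trans (map_zero _).symm)
  · have h1 : ∀ p q : Inv R[X] D.col, D.count2_T i1 ν f d c (D.up.cst _ (p + q).1) =
        D.count2_T i1 ν f d c (D.up.cst _ p.1) + D.count2_T i1 ν f d c (D.up.cst _ q.1) :=
        fun p q => by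
      rw [← map_add]
      exact congrArg _ (map_add (D.up.cstHom D.up.Om) p.1 q.1)
    have h2 : ∀ (s : R[X]) (p : Inv R[X] D.col), D.count2_T i1 ν f d c (D.up.cst _ (s • p).1) =
        i2 i1 s * D.count2_T i1 ν f d c (D.up.cst _ p.1) := fun s p => by
      rw [count2_T_apply, count2_T_apply, mul_sum]
      exact sum_congr rfl fun i _ => by
        rw [mul_left_comm, ← count2_smul]
        rfl
    refine ⟨⟨fun p q => ?_, fun s p => ?_, fun p hp => ?_⟩, fun p q => ?_, fun s p => ?_, ?_⟩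
    · simp only [Function.comp_apply, hτ, h1]
    · simp only [Function.comp_apply, hτ, h2]
    · exact (hτ d c _).trans (hJ d c h _ hp)
    · simp only [Function.comp_apply, hτ, h1]
    · simp only [Function.comp_apply, hτ, h2]
    · rintro _ ⟨p, rfl⟩
      refine (hτ d c _).trans (sum_eq_zero fun i _ => mul_eq_zero_of_right _ ?_)
      have h3 := D.count2_kill hk d (f i) p.1
      rw [← hy] at h3
      exact h3
  · funext a
    obtain ⟨p, h1, h2⟩ := hdec a.1 a.2.1 a.2.2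
    have h3 := hJ d c h _ h2
    have h4 : D.count2_T i1 ν f d c (D.up.cst _ p) = 0 :=
      (hτ d c ⟨_, D.up.cst_mem h1, D.up.hom_cst ν _⟩).symm.trans (congrFun h0 ⟨p, h1⟩)
    rw [map_sub, h4, sub_zero] at h3
    exact (hτ d c a).trans h3
  · refine hinj c (D.deep2 ht hi hν f hf c fun d p hp => ?_)
    rcases lt_or_ge d 0 with h1 | h1
    · exact sum_eq_zero fun i _ => by rw [D.tau2_neg i1 ν h1, mul_zero]
    · obtain ⟨d', rfl⟩ := Int.eq_ofNat_of_zero_le h1
      exact (hτ d' c ⟨_, D.up.cst_mem hp, D.up.hom_cst ν _⟩).symm.trans (congrFun (h d') _)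
  · funext p
    obtain ⟨t, ht0, s, hs⟩ := hgen p.1 p.2
    have h1 := h.1 (t • p - ∑ i, s i • ev i) (∑ i, s i • ev i)
    rw [← hev, ← smul_eq_C_mul] at hs
    rw [sub_add_cancel, count_sum h, h.2.2 (t • p - ∑ i, s i • ev i) hs, zero_add, h.2.1,
      sum_eq_zero fun i _ => by rw [h0, mul_zero]] at h1
    exact (mul_eq_zero.1 h1).resolve_left fun e => ht0 (i2_injective hi (e.trans (map_zero _).symm))
  · rw [← count_sum h]
    refine h.2.2 _ ?_
    rw [← hev] at hr
    exact hr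

end QD

end Pool.Agent.Work.MP_849ab0_ag
end
end

-- merged part: Pool.Agent.Work.MP_849ab0_ag.JI2
section
/-! The one step ideal is killed by the Jeffrey-Kirwan residues. -/

noncomputable section

set_option linter.unusedSectionVars false

namespace Pool.Agent.Work.MP_849ab0_ag

open MvPolynomial Finset

/-- free pairs for moving `S` inside (`ε = 1`) or outside (`ε = -1`) -/
def FrS {n : ℕ} (ε : ℤ) (s : Option (Fin n) → ℤ) (S : Finset (Fin n)) (o o' : Option (Fin n)) :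
    Prop := ε * (s o - s o') * (ov (ind S) o - ov (ind S) o') < 0

theorem ji2_ov {n : ℕ} (S : Finset (Fin n)) (o : Option (Fin n)) :
    (ov (ind S) o = 1 ∧ ∃ a ∈ S, o = some a) ∨ (ov (ind S) o = 0 ∧ ∀ b ∈ S, o ≠ some b) := by
  cases o with
  | none => exact Or.inr ⟨rfl, fun _ _ => nofun⟩
  | some a =>
    by_cases h : a ∈ S
    · exact Or.inl ⟨if_pos h, a, h, rfl⟩
    · exact Or.inr ⟨if_neg h, fun b hb e => h (Option.some.inj e ▸ hb)⟩

theorem ji2_smul {n : ℕ} (ε : ℤ) (μ : Fin n → ℤ) (o : Option (Fin n)) :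
    ov (ε • μ) o = ε * ov μ o := by cases o <;> simp

theorem ji2_kill {n : ℕ} {R : Type} [CommRing R] {ν : Fin n → ℤ} {s : Option (Fin n) → ℤ}
    (hs : Function.Injective s) {S : Finset (Fin n)} {ε : ℤ}
    (hε : (ε = 1 ∧ 0 < ∑ a ∈ S, ν a) ∨ (ε = -1 ∧ ∑ a ∈ S, ν a < 0)) {z : O2 n R}
    (hz : z ∈ AF R (FrS ε s S)) : ∑ π, jk ν s π • (exF π z).coeff (toLex fun _ => 1) = 0 := by
  have hsy : ∀ o o', FrS ε s S o o' → FrS ε s S o' o := fun o o' h =>
    lt_of_eq_of_lt (by ring) h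
  rcases hε with ⟨rfl, h0⟩ | ⟨rfl, h0⟩
  · obtain ⟨s', h1, h2, h3⟩ := exists_inner s hs S
    rw [fp ν hsy hz hs h1 fun o o' hn => ?_]
    · refine sum_eq_zero fun π _ => ?_
      rw [not_not.1 fun h => h0.not_gt (jk_inner h (nonempty_of_sum_ne_zero h0.ne') h2), zero_smul]
    rcases ji2_ov S o with ⟨e, a, ha, rfl⟩ | ⟨e, ho⟩ <;>
      rcases ji2_ov S o' with ⟨e', b, hb, rfl⟩ | ⟨e', ho'⟩
    · exact h3 _ _ (e.trans e'.symm)
    · have := h2 a ha _ ho'
      rw [FrS, e, e'] at hn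
      omega
    · have := h2 b hb _ ho
      have := hs.ne (ho b hb)
      rw [FrS, e, e'] at hn
      omega
    · exact h3 _ _ (e.trans e'.symm)
  · obtain ⟨s', h1, h2, h3⟩ := exists_outer s hs S
    rw [fp ν hsy hz hs h1 fun o o' hn => ?_]
    · refine sum_eq_zero fun π _ => ?_
      rw [not_not.1 fun h => h0.not_ge (jk_outer h h2), zero_smul]
    rcases ji2_ov S o with ⟨e, a, ha, rfl⟩ | ⟨e, ho⟩ <;>
      rcases ji2_ov S o' with ⟨e', b, hb, rfl⟩ | ⟨e', ho'⟩
    · exact h3 _ _ (e.trans e'.symm)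
    · have := h2 a ha _ ho'
      have := hs.ne (ho' a ha)
      rw [FrS, e, e'] at hn
      omega
    · have := h2 b hb _ ho
      rw [FrS, e, e'] at hn
      omega
    · exact h3 _ _ (e.trans e'.symm)

theorem ji2_al {n : ℕ} {R : Type} [CommRing R] {Fr : Option (Fin n) → Option (Fin n) → Prop}
    (f : Pol n R) : algebraMap _ (O2 n R) f ∈ AF R Fr := Subring.subset_closure (Or.inl ⟨f, rfl⟩)

theorem ji2_inv {n : ℕ} {R : Type} [CommRing R] {Fr : Option (Fin n) → Option (Fin n) → Prop}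
    {o o' : Option (Fin n)} (h : o ≠ o') (hn : ¬ Fr o o') (c : R) :
    Ring.inverse (algebraMap (Pol n R) (O2 n R) (xv o - xv o' + C c)) ∈ AF R Fr :=
  Subring.subset_closure (Or.inr ⟨o, o', c, h, hn, rfl⟩)

namespace QD

variable {k n : ℕ} {E R : Type} [Fintype E] [CommRing R] [IsDomain R] [CharZero R]
  (D : QD k n E R)

/-- poles on roots are poles on forms -/
def toO2 : D.Om →+* O2 n R :=
  D.lift (algebraMap _ _) fun a b j h _ => by
    have := isUnit_O2 (o := some a) (o' := some b) (fun e => h (Option.some.inj e)) ((j : R) * D.h)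
    rwa [map_mul, map_intCast] at this

theorem ji2_toO2 (f : Pol n R) : D.toO2 (D.al f) = algebraMap _ _ f := D.lift_al _ _ _

theorem ji2_rt (a b : Fin n) (j : ℤ) : D.rt a b j = xv (some a) - xv (some b) + C (j * D.h) := by
  rw [map_mul, map_intCast]; rfl

theorem ji2_den (s : Option (Fin n) → ℤ) (p : E × Option (Fin n) × Option (Fin n)) :
    ∃ c, D.den2 s p = xv p.2.2 - xv p.2.1 + C c := by
  unfold den2
  split_ifs
  · exact ⟨_, rfl⟩
  · exact ⟨D.t p.1 - D.h, by rw [chi, map_sub, add_sub_assoc]⟩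

theorem ji2_unit {s : Option (Fin n) → ℤ} {p : E × Option (Fin n) × Option (Fin n)}
    (hp : p ∈ D.W2) : IsUnit (algebraMap _ (O2 n R) (D.den2 s p)) := by
  obtain ⟨c, hc⟩ := D.ji2_den s p
  rw [hc]
  exact isUnit_O2 (D.mem_W2.1 hp).2.symm c

variable {s : Option (Fin n) → ℤ} {μ : Fin n → ℤ} {T : Finset (Fin n)} {M : ℤ}
  {Fr : Option (Fin n) → Option (Fin n) → Prop}

theorem ji2_pole (hl : D.GN) (hh : D.h ≠ 0) (hμ : ∀ a, μ a = ind T a + (M - 1)) {x : D.Op D.Om}
    (hx : D.Good x) (hle : D.Le M x) :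
    ∃ p, D.co x μ * D.al (∏ q ∈ D.Rt, D.jiQ T q) = D.al (D.mm μ * p) := by
  refine D.pole2 hl hh hx _ _ fun a b i hab hc hi h => ?_
  have h1 := hle _ h a
  have h2 := hle _ h b
  rw [Pi.sub_apply, Pi.add_apply, Pi.single_eq_same, Pi.single_eq_of_ne hab] at h1
  rw [Pi.sub_apply, Pi.add_apply, Pi.single_eq_same, Pi.single_eq_of_ne hab.symm] at h2
  have key : (b ∉ T ∧ μ a - μ b + i = 1 - ind T a) ∨ (a ∉ T ∧ μ a - μ b + i = -(1 - ind T b)) := by
    simp only [hμ] at h1 h2 ⊢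
    unfold ind at h1 h2 ⊢
    by_cases ha : a ∈ T <;> by_cases hb : b ∈ T <;>
      simp only [ha, hb, if_true, if_false, not_true, not_false_iff, true_and, false_and,
        or_false, false_or] at h1 h2 ⊢ <;> omega
  rcases key with ⟨hb, e⟩ | ⟨ha, e⟩
  · refine Dvd.dvd.trans (dvd_of_eq ?_) (dvd_prod_of_mem _ (a := (a, b)) (D.mem_Rt.2 hc))
    rw [e, jiQ, if_neg (not_or.2 ⟨hb, hab⟩)]
  · rw [e, rt_swap, neg_dvd]
    refine Dvd.dvd.trans (dvd_of_eq ?_) (dvd_prod_of_mem _ (a := (b, a)) (D.mem_Rt.2 hc.symm))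
    rw [jiQ, if_neg (not_or.2 ⟨ha, hab.symm⟩)]

theorem ji2_pair (hμ : ∀ a, μ a = ind T a + (M - 1))
    (hF : ∀ o o', Fr o o' ↔ (s o - s o') * (ov μ o - ov μ o') < 0) (b c : Fin n) :
    algebraMap _ (O2 n R) (if s (some b) < s (some c) then (X b - X c) * (X c - X b + C D.h)
      else 1 : Pol n R) *
      (Ring.inverse (algebraMap _ (O2 n R) (∏ j ∈ Ico 0 ((-μ) c - (-μ) b), D.rt c b j)) *
      Ring.inverse (algebraMap _ (O2 n R) (D.sh (-μ) (D.jiQ T (b, c))))) ∈ AF R Fr := by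
  have hone : Ring.inverse (algebraMap _ (O2 n R) (1 : Pol n R)) ∈ AF R Fr := by
    rw [map_one, Ring.inverse_one]; exact one_mem _
  have hrt : ∀ {a a' : Fin n} (j : ℤ), a ≠ a' → 0 ≤ (s (some a) - s (some a')) * (μ a - μ a') →
      Ring.inverse (algebraMap _ (O2 n R) (D.rt a a' j)) ∈ AF R Fr := fun j h h' => by
    rw [ji2_rt]
    exact ji2_inv (fun e => h (Option.some.inj e)) (fun k => h'.not_gt ((hF _ _).1 k)) _
  by_cases hc : c ∈ T
  · rw [Ico_eq_empty (by simp only [Pi.neg_apply, hμ, ind, if_pos hc]; split_ifs <;> omega),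
      prod_empty, jiQ, if_pos (Or.inl hc), map_one (D.sh _)]
    exact mul_mem (ji2_al _) (mul_mem hone hone)
  by_cases hb : b ∈ T
  · have hbc : b ≠ c := fun e => hc (e ▸ hb)
    have e0 : μ b - μ c = 1 := by simp [hμ, ind, hb, hc]
    have e1 : (-μ) c - (-μ) b = 1 := by simp [hμ, ind, hb, hc]
    have e2 : 1 - ind T b + ((-μ) b - (-μ) c) = -1 := by
      rw [show ind T b = 1 from if_pos hb]; omega
    rw [e1, show Ico (0 : ℤ) 1 = {0} from rfl, prod_singleton, jiQ, if_neg (not_or.2 ⟨hc, hbc⟩),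
      sh_rt, e2]
    by_cases h : s (some b) < s (some c)
    · have e3 : (X b - X c) * (X c - X b + C D.h) = D.rt c b 0 * D.rt b c (-1) := by
        simp only [rt, Int.cast_zero, Int.cast_neg, Int.cast_one]; ring
      have u : ∀ {a a' : Fin n} (j : ℤ), a ≠ a' → algebraMap _ (O2 n R) (D.rt a a' j) *
          Ring.inverse (algebraMap _ (O2 n R) (D.rt a a' j)) = 1 := fun j h => by
        rw [ji2_rt]
        exact Ring.mul_inverse_cancel _ (isUnit_O2 (fun e => h (Option.some.inj e)) _)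
      rw [if_pos h, e3, map_mul, mul_mul_mul_comm, u _ hbc, u _ hbc.symm, one_mul]
      exact one_mem _
    · exact mul_mem (ji2_al _) (mul_mem
        (hrt (a := c) (a' := b) _ hbc.symm (by rw [← neg_sub (μ b), e0]; omega))
        (hrt (a := b) (a' := c) _ hbc (by rw [e0]; omega)))
  · rw [Ico_eq_empty (by simp [hμ, ind, hb, hc]), prod_empty]
    refine mul_mem (ji2_al _) (mul_mem hone ?_)
    unfold jiQ
    split_ifs with h
    · rw [map_one (D.sh _)]; exact hone
    · rw [sh_rt]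
      exact hrt _ (not_or.1 h).2 (by simp [hμ, ind, hb, hc])

theorem ji2_wt (hd : ∀ o o', ov μ o - ov μ o' ≤ 1)
    (hF : ∀ o o', Fr o o' ↔ (s o - s o') * (ov μ o - ov μ o') < 0)
    {p : E × Option (Fin n) × Option (Fin n)} (hp : p ∈ D.W2) :
    algebraMap _ (O2 n R)
      ((∏ j ∈ Ico (ov (-μ) p.2.2 - ov (-μ) p.2.1) 0, (D.chi p + (j : Pol n R) * C D.h)) *
        D.sh (-μ) (∏ j ∈ Ico (ov μ p.2.2 - ov μ p.2.1) 0, (D.chi p + (j : Pol n R) * C D.h))) *
      Ring.inverse (algebraMap _ (O2 n R) (D.den2 s p)) ∈ AF R Fr := by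
  by_cases h : Fr p.2.2 p.2.1
  · refine (congrArg (fun z => algebraMap _ (O2 n R) z * _ ∈ AF R Fr) (?_ : _ = D.den2 s p)).mpr
      (by rw [Ring.mul_inverse_cancel _ (D.ji2_unit hp)]; exact one_mem _)
    have h1 := hd p.2.2 p.2.1
    have h2 := hd p.2.1 p.2.2
    have h3 : ov (-μ) p.2.2 - ov (-μ) p.2.1 = -(ov μ p.2.2 - ov μ p.2.1) := by
      rw [ov_neg, ov_neg]; ring
    rw [hF] at h
    obtain e | e | e : ov μ p.2.2 - ov μ p.2.1 = 1 ∨ ov μ p.2.2 - ov μ p.2.1 = 0 ∨
      ov μ p.2.2 - ov μ p.2.1 = -1 := by omega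
    all_goals rw [e] at h h3
    · rw [h3, e, den2, if_neg (by omega), show Ico (-1 : ℤ) 0 = {-1} from rfl,
        show Ico (1 : ℤ) 0 = ∅ from rfl, prod_empty, prod_singleton, map_one]
      simp [sub_eq_add_neg]
    · omega
    · rw [h3, e, den2, if_pos (by omega), show Ico (-1 : ℤ) 0 = {-1} from rfl,
        show Ico (- -1 : ℤ) 0 = ∅ from rfl, prod_empty, prod_singleton, map_add, sh_chi, h3, map_mul,
        sh_C, map_intCast]
      simp
  · obtain ⟨c, hc⟩ := D.ji2_den s p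
    rw [hc]
    exact mul_mem (ji2_al _) (ji2_inv (D.mem_W2.1 hp).2.symm h c)

theorem ji2_gen (hl : D.GN) (hh : D.h ≠ 0) (hμ : ∀ a, μ a = ind T a + (M - 1))
    (hd : ∀ o o', ov μ o - ov μ o' ≤ 1)
    (hF : ∀ o o', Fr o o' ↔ (s o - s o') * (ov μ o - ov μ o') < 0) {x : D.Op D.Om}
    (hx : D.Good x) (hle : D.Le M x) :
    D.toO2 (D.cc (-μ) * D.act _ (-μ) (D.co x μ)) * (algebraMap _ _ (D.num2 s) *
      Ring.inverse (algebraMap _ (O2 n R) (∏ p ∈ D.W2, D.den2 s p))) ∈ AF R Fr := by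
  obtain ⟨p, hp⟩ := D.ji2_pole hl hh hμ hx hle
  have hu := D.ji_unit T (-μ)
  have h1 : D.act _ (-μ) (D.co x μ) = D.al (D.sh (-μ) (D.mm μ * p)) *
      Ring.inverse (D.al (D.sh (-μ) (∏ q ∈ D.Rt, D.jiQ T q))) := by
    rw [← act_alg, ← hp, map_mul, act_alg, mul_assoc, Ring.mul_inverse_cancel _ hu, mul_one]
  have hA := prod_mem fun p hp => D.ji2_wt hd hF (p := p) hp
  have hB := prod_mem (t := D.Rt) fun q _ => D.ji2_pair hμ hF q.1 q.2
  rw [prod_mul_distrib, ← inverse_prod, ← map_prod, ← map_prod, prod_mul_distrib, ← map_prod,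
    ← mm_W2, ← mm_W2] at hA
  rw [prod_mul_distrib, prod_mul_distrib, ← inverse_prod, ← inverse_prod, ← map_prod, ← map_prod,
    ← map_prod, ← map_prod, ← ji_ee, ← prod_filter, ← num2] at hB
  have := mul_mem (ji2_al (D.sh (-μ) p)) (mul_mem hA hB)
  convert this using 1
  rw [h1, cc, map_mul, map_mul, map_mul, map_inverse _ hu, map_inverse _ (D.isUnit_ee _), ji2_toO2,
    ji2_toO2, ji2_toO2, ji2_toO2, map_mul (D.sh _), map_mul, map_mul]
  ring

theorem ji2_term (hl : D.GN) (hh : D.h ≠ 0) {s : Option (Fin n) → ℤ} (hs : Function.Injective s)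
    (S : Finset (Fin n)) {ε : ℤ} {x : D.Op D.Om} (hx : D.Good x)
    (hle : (ε = 1 ∧ D.Le 1 x) ∨ (ε = -1 ∧ D.Le 0 x)) :
    D.toO2 (D.cc (-(ε • ind S)) * D.act _ (-(ε • ind S)) (D.co x (ε • ind S))) *
      (algebraMap _ _ (D.num2 s) *
        Ring.inverse (algebraMap _ (O2 n R) (∏ p ∈ D.W2, D.den2 s p))) ∈ AF R (FrS ε s S) := by
  have hF : ∀ o o', FrS ε s S o o' ↔
      (s o - s o') * (ov (ε • ind S) o - ov (ε • ind S) o') < 0 := fun o o' => by
    rw [FrS, ji2_smul, ji2_smul, ← mul_sub, mul_left_comm, mul_assoc]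
  have hd : ∀ o o', ov (ε • ind S) o - ov (ε • ind S) o' ≤ 1 := fun o o' => by
    have h1 := (ji2_ov S o).imp And.left And.left
    have h2 := (ji2_ov S o').imp And.left And.left
    rw [ji2_smul, ji2_smul]
    rcases hle with ⟨rfl, -⟩ | ⟨rfl, -⟩ <;> omega
  rcases hle with ⟨rfl, hle⟩ | ⟨rfl, hle⟩
  · exact D.ji2_gen hl hh (T := S) (fun a => by simp) hd hF hx hle
  · exact D.ji2_gen hl hh (T := Sᶜ) (fun a => by by_cases h : a ∈ S <;> simp [ind, h]) hd hF hx hle

theorem ji2 (hl : D.GN) (hh : D.h ≠ 0) (ν : Fin k → ℤ) {f : Pol n R}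
    (hf : D.cst D.Om f ∈ D.JM2 D.Om ν) {s : Option (Fin n) → ℤ} (hs : Function.Injective s)
    (g : Pol n R) : D.res2 ν s (f * g) = 0 := by
  obtain ⟨Ψ, hΨ⟩ : ∃ Ψ : O2 n R →+ R,
      ∀ z, Ψ z = ∑ π, jk (ν ∘ D.col) s π • (exF π z).coeff (toLex fun _ => 1) :=
    ⟨AddMonoidHom.mk' (fun z => ∑ π, jk (ν ∘ D.col) s π • (exF π z).coeff (toLex fun _ => 1))
      fun a b => by
      simp only [map_add, HahnSeries.coeff_add, smul_add, sum_add_distrib], fun _ => rfl⟩
  have gen : ∀ (ε : ℤ) (S : Finset (Fin n)) (g' : Pol n R), ∀ y ∈ D.Alg D.Om,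
      (ε = 1 ∧ 0 < D.dg ν (ind S) ∧ D.Le 1 y) ∨ (ε = -1 ∧ D.dg ν (ind S) < 0 ∧ D.Le 0 y) →
      Ψ (D.toO2 (D.co (D.mon D.Om (-(ε • ind S)) g' * y) 0) * (algebraMap _ _ g *
        (algebraMap _ _ (D.num2 s) *
          Ring.inverse (algebraMap _ (O2 n R) (∏ p ∈ D.W2, D.den2 s p))))) = 0 := by
    intro ε S g' y hy h
    rw [mon_om, sum_mul, co_sum, map_sum, sum_mul, map_sum]
    refine sum_eq_zero fun w _ => ?_
    have e0 : ind S ∘ w.1.symm = ind (S.map w.1.toEmbedding) := neg_injective (ji_ind S w.1)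
    have e1 : (-(ε • ind S)) ∘ w.1.symm = -(ε • ind (S.map w.1.toEmbedding)) := by
      rw [← e0]; rfl
    rw [← D.dg_perm ν _ w, e0, dg_ind] at h
    have := mul_mem (mul_mem (ji2_al (rename w.1 g')) (ji2_al g))
      (D.ji2_term hl hh hs (S.map w.1.toEmbedding) (D.good_of_mem hh hy)
        (h.imp (And.imp_right And.right) (And.imp_right And.right)))
    rw [hΨ]
    refine ji2_kill hs (h.imp (And.imp_right And.left) (And.imp_right And.left)) ?_
    convert this using 1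
    rw [co_sg_mul, e1, zero_sub, neg_neg, mul_assoc (D.al _), map_mul, ji2_toO2]
    ring
  have key : ∀ x ∈ D.JM2 D.Om ν, Ψ (D.toO2 (D.co x 0) * (algebraMap _ _ g *
      (algebraMap _ _ (D.num2 s) *
        Ring.inverse (algebraMap _ (O2 n R) (∏ p ∈ D.W2, D.den2 s p))))) = 0 := by
    intro x hx
    induction hx using AddSubgroup.closure_induction with
    | mem x hx =>
      obtain ⟨S, g', y, hy, -, -, ⟨h1, h2, rfl⟩ | ⟨h1, h2, rfl⟩⟩ := hx
      · simpa only [one_smul] using gen 1 S g' y hy (Or.inl ⟨rfl, h1, h2⟩)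
      · simpa only [neg_smul, one_smul, neg_neg] using gen (-1) S g' y hy (Or.inr ⟨rfl, h1, h2⟩)
    | zero => simp
    | add x y _ _ hx hy => rw [co_add, map_add, add_mul, map_add, hx, hy, add_zero]
    | neg x _ hx =>
      rw [co_neg, map_neg, show ∀ a b : O2 n R, -a * b = -(a * b) from fun a b => by ring, map_neg,
        hx, neg_zero]
  have hu : IsUnit (algebraMap _ (O2 n R) (∏ p ∈ D.W2, D.den2 s p)) := by
    rw [map_prod]
    exact Finset.prod_induction _ IsUnit (fun _ _ => IsUnit.mul) isUnit_one fun p => D.ji2_unit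
  have := key _ hf
  rw [cst_eq, co_sg, if_pos rfl, ji2_toO2, hΨ] at this
  simpa only [res2, map_mul, map_inverse _ hu, exF_al, mul_assoc] using this

end QD

end Pool.Agent.Work.MP_849ab0_ag
end
end

-- merged part: Pool.Agent.Work.MP_849ab0_ag.Main2
section
/-! Assembly over a graded base. -/

noncomputable section

set_option linter.unusedSectionVars false

namespace Pool.Agent.Work.MP_849ab0_ag

open MvPolynomial Finset
open scoped Polynomial

namespace QD

variable {k n : ℕ} {E R : Type} [Fintype E] [CommRing R] [IsDomain R] [Algebra ℚ R]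
  (D : QD k n E R) (hl : D.LG) (hh : D.h = 0) {ν : Fin k → ℤ} (hν : Gen (ν ∘ D.col))
  (G : Grd2 R[X])
  (ht : ∀ e, G.g (Polynomial.C (D.t e)) = Polynomial.C (Polynomial.C (D.t e)) * Polynomial.X)
  (hX : G.g Polynomial.X = Polynomial.C Polynomial.X * Polynomial.X)

include hl in
theorem UJ_IT {p : Pol n R[X]} (hp : p ∈ Inv R[X] D.col) (h : p ∈ D.up.UJ ν) : p ∈ D.up.IT ν := by
  have : CharZero R := algebraRat.charZero R
  exact ⟨hp, fun s hs g => D.up.ji2 (D.up_GN hl) Polynomial.X_ne_zero ν h hs g⟩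

theorem main2_ev (f : Pol n R) :
    MvPolynomial.map (Polynomial.evalRingHom 0) (MvPolynomial.map Polynomial.C f) = f :=
  map_map_sec _ _ (fun _ => Polynomial.eval_C) f

theorem IT_tf {p : Pol n R[X]} (hp : p ∈ Inv R[X] D.col) {s : R[X]} (hs : s ≠ 0)
    (h : C s * p ∈ D.up.IT ν) : p ∈ D.up.IT ν := by
  refine ⟨hp, fun t ht g => ?_⟩
  have := h.2 t ht g
  rw [mul_assoc, res2_C_mul] at this
  exact (mul_eq_zero.1 this).resolve_left hs

include hh in
theorem IT_zero {p : Pol n R[X]} (h : p ∈ D.up.IT ν) (π : Equiv.Perm (Fin n)) (g : Pol n R) :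
    D.r0 π (MvPolynomial.map (Polynomial.evalRingHom 0) p * g) = 0 := by
  refine jk_inj (ν ∘ D.col) (fun π => D.r0 π _) (fun s hs => ?_) π
  have := D.up.res2_map (Polynomial.evalRingHom 0) ν s (p * MvPolynomial.map Polynomial.C g)
  rwa [h.2 s hs, map_zero, D.up_map hh, D.res2_zero hh ν hs, map_mul, main2_ev] at this

include hl hh hν ht hX in
theorem IT_UJ {p : Pol n R[X]} (h : p ∈ D.up.IT ν) : p ∈ D.up.UJ ν := by
  refine G.nak2 hX _ (D.up.sc_UJ G ht hX ν) (· ∈ D.up.IT ν) (fun p hp => ?_) p h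
  obtain ⟨p', h1, h2⟩ := D.two_lift2 hl hh hν hp.1 (D.IT_zero hh hp)
  have h0 : C Polynomial.X * p' ∈ Inv R[X] D.col := mul_mem (Subalgebra.algebraMap_mem _ _) h1
  refine ⟨p', D.IT_tf h1 Polynomial.X_ne_zero ⟨h0, fun s hs g => ?_⟩, h2⟩
  have h4 := D.up.res2_add ν s ((p - C Polynomial.X * p') * g) (C Polynomial.X * p' * g)
  rw [← add_mul, sub_add_cancel, hp.2 s hs, (D.UJ_IT hl (sub_mem hp.1 h0) h2).2 s hs,
    zero_add] at h4
  exact h4.symm

include hl hh hν ht hX in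
theorem exists_fg : ∃ M : Finset (Fin n →₀ ℕ),
    (∀ f ∈ Inv R D.col, ∃ c : (Fin n →₀ ℕ) → R,
      ∀ π g, D.r0 π ((f - ∑ m ∈ M, C (c m) * Av D.col (monomial m 1)) * g) = 0) ∧
    ∀ p ∈ Inv R[X] D.col, ∃ c : M → R[X],
      p - ∑ m, c m • MvPolynomial.map Polynomial.C (Av D.col (monomial m.1 (1 : R))) ∈
        D.up.UJ ν := by
  obtain ⟨M, hM⟩ := D.finite_r0
  refine ⟨M, hM, fun p hp => ?_⟩
  let v : M → Pol n R[X] := fun m => MvPolynomial.map Polynomial.C (Av D.col (monomial m.1 (1 : R)))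
  have hv : ∀ m, G.sc (v m) = (2 : R[X]) ^ m.1.degree • v m := fun m => by
    simp only [v, Av, map_sum, map_rename, map_monomial, map_one, G.sc_rename, G.sc_monomial,
      smul_eq_C_mul, mul_sum, map_mul, map_pow, map_ofNat]
  have h1 : p ∈ D.up.UJ ν ⊔ Submodule.span R[X] (Set.range v) := by
    refine G.nak2 hX _ (fun q hq => ?_) (· ∈ Inv R[X] D.col) (fun q hq => ?_) p hp
    · obtain ⟨a, ha, b, hb, rfl⟩ := Submodule.mem_sup.1 hq
      rw [map_add]
      refine Submodule.add_mem_sup (D.up.sc_UJ G ht hX ν a ha) ?_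
      clear hq
      induction hb using Submodule.span_induction with
      | mem x hx =>
        obtain ⟨m, rfl⟩ := hx
        exact hv m ▸ Submodule.smul_mem _ _ (Submodule.subset_span ⟨m, rfl⟩)
      | zero => rw [map_zero]; exact zero_mem _
      | add x y _ _ hx hy => rw [map_add]; exact add_mem hx hy
      | smul c x _ hx =>
        rw [smul_eq_C_mul, map_mul, G.sc_C, ← smul_eq_C_mul]
        exact Submodule.smul_mem _ _ hx
    · obtain ⟨c, hc⟩ := hM _ (map_mem_Inv (Polynomial.evalRingHom 0) hq)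
      obtain ⟨p', h1, h2⟩ := D.two_lift2 hl hh hν (p := q - ∑ m, Polynomial.C (c m.1) • v m)
        (sub_mem hq (sum_mem fun m _ => Subalgebra.smul_mem _ (map_mem_Inv _ (Av_mem _ _)) _))
        fun π g => by
          refine Eq.trans ?_ (hc π g)
          rw [← sum_coe_sort M]
          simp only [v, map_sub, map_sum, smul_eq_C_mul, map_mul, map_C, Polynomial.coe_evalRingHom,
            Polynomial.eval_C, main2_ev]
      refine ⟨p', h1, ?_⟩
      rw [← sub_add_cancel (q - _) (∑ m, Polynomial.C (c m.1) • v m), sub_right_comm]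
      exact Submodule.add_mem_sup h2
        (sum_mem fun m _ => Submodule.smul_mem _ _ (Submodule.subset_span ⟨m, rfl⟩))
  obtain ⟨a, ha, b, hb, rfl⟩ := Submodule.mem_sup.1 h1
  obtain ⟨c, rfl⟩ := (Submodule.mem_span_range_iff_exists_fun _).1 hb
  exact ⟨c, by rwa [add_sub_cancel_right]⟩

include hl hh hν ht hX in
theorem exists_gen : ∃ (ι : Type) (_ : Fintype ι) (f : ι → Pol n R), (∀ i, f i ∈ Inv R D.col) ∧
    (∀ c : ι → R, (∀ π g, ∑ i, c i * D.r0 π (g * f i) = 0) → c = 0) ∧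
    ∀ p ∈ Inv R[X] D.col, ∃ s : R[X], s ≠ 0 ∧ ∃ r : ι → R[X],
      C s * p - ∑ i, C (r i) * MvPolynomial.map Polynomial.C (f i) ∈ D.up.UJ ν := by
  obtain ⟨M, -, hM⟩ := D.exists_fg hl hh hν G ht hX
  let u : M → Pol n R := fun m => Av D.col (monomial m.1 1)
  have hu : ∀ m, u m ∈ Inv R D.col := fun m => Av_mem _ _
  obtain ⟨T, h1, h2⟩ := exists_max_indep fun (s : Equiv.Perm (Fin n) × Pol n R) (m : M) =>
    D.r0 s.1 (s.2 * u m)
  refine ⟨T, inferInstance, fun i => u i.1, fun i => hu _, fun c hc => h1 c fun s => hc s.1 s.2,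
    fun p hp => ?_⟩
  choose a ha c hc using h2
  let V := D.up.UJ ν ⊔ Submodule.span R[X]
    (Set.range fun i : T => MvPolynomial.map Polynomial.C (u i.1))
  obtain ⟨t, h3, h4⟩ := det_trick V (fun m => MvPolynomial.map Polynomial.C (u m)) a ha fun j => by
    obtain ⟨p', k1, k2⟩ := D.two_lift2 hl hh hν (map_mem_Inv Polynomial.C
      (f := C (a j) * u j - ∑ i, C (c j i) * u i.1) (sub_mem
        (mul_mem (Subalgebra.algebraMap_mem _ _) (hu _))
        (sum_mem fun i _ => mul_mem (Subalgebra.algebraMap_mem _ _) (hu _)))) fun π g => by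
      have k := D.r0_add π ((C (a j) * u j - ∑ i, C (c j i) * u i.1) * g)
        ((∑ i, C (c j i) * u i.1) * g)
      rw [← add_mul, sub_add_cancel, mul_assoc, r0_C_mul, mul_comm _ g, hc j (π, g), sum_mul,
        r0_sum] at k
      simp only [mul_assoc, r0_C_mul, mul_comm (u _) g] at k
      rw [main2_ev]
      exact right_eq_add.1 k
    obtain ⟨d, k3⟩ := hM p' k1
    refine ⟨d, ?_⟩
    have k4 : _ ∈ V := Submodule.add_mem_sup
      (add_mem k2 (Submodule.smul_mem _ Polynomial.X k3)) (sum_mem (t := univ) fun i _ =>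
        Submodule.smul_mem _ (Polynomial.C (c j i)) (Submodule.subset_span ⟨i, rfl⟩))
    convert k4 using 1
    simp only [u, map_sub, map_sum, map_mul, map_C, smul_eq_C_mul]
    ring
  obtain ⟨d, h5⟩ := hM p hp
  have h6 : t • p ∈ V := by
    rw [← sub_add_cancel p (∑ m, d m • MvPolynomial.map Polynomial.C (u m)), smul_add, smul_sum]
    exact add_mem (Submodule.mem_sup_left (Submodule.smul_mem _ _ h5))
      (sum_mem fun m _ => by rw [smul_comm]; exact Submodule.smul_mem _ _ (h4 m))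
  obtain ⟨x, hx, b, hb, e⟩ := Submodule.mem_sup.1 h6
  obtain ⟨r, rfl⟩ := (Submodule.mem_span_range_iff_exists_fun _).1 hb
  refine ⟨t, h3, r, ?_⟩
  simp only [← smul_eq_C_mul]
  rwa [← e, add_sub_cancel_right]

include hh hν ht hX in
theorem main_up {F : Type} [Field F] [Algebra ℚ F] {i1 : R →+* LS F} (hT : D.Tau i1)
    (hi : Function.Injective i1) {p : Pol n R[X]} (hp : p ∈ Inv R[X] D.col) :
    D.up.cst D.up.Om p ∈ D.up.JJ D.up.Om ν ↔ p ∈ D.up.IT ν := by
  have : CharZero R := algebraRat.charZero R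
  have hJ : ∀ q ∈ D.up.UJ ν, D.up.cst D.up.Om q ∈ D.up.JJ D.up.Om ν := fun q hq =>
    D.up.JM2_le ν (D.up.mem_UJ.1 hq)
  refine ⟨fun h => ?_, fun h => hJ _ (D.IT_UJ hT.lg hh hν G ht hX h)⟩
  obtain ⟨ι, _, f, hf, h1, h2⟩ := D.exists_gen hT.lg hh hν G ht hX
  obtain ⟨s, hs, r, hr⟩ := h2 p hp
  have h3 : r = 0 := by
    refine D.count2 hT hi hν f hf (fun c hc => ?_) (fun p hp => ?_) (fun a ha h0 => ?_) r ?_
    · refine inj_of_indep (fun (s : Equiv.Perm (Fin n) × Pol n R) i => D.r0 s.1 (s.2 * f i))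
        (fun c hc => h1 c fun π g => hc (π, g)) (HahnSeries.C.comp i1)
        (HahnSeries.C_injective.comp hi) c fun s => ?_
      simpa only [RingHom.comp_apply] using hc s.1 s.2
    · obtain ⟨s, hs, r, hr⟩ := h2 p hp
      exact ⟨s, hs, r, hJ _ hr⟩
    · obtain ⟨q, k1, -, k2⟩ := D.up.dec_JJ (D.up_GN hT.lg) Polynomial.X_ne_zero hν ⊤
        (fun _ _ _ _ => trivial) a ha h0 fun _ => trivial
      exact ⟨q, k1, k2⟩
    · have := sub_mem (D.up.C_mul_mem_JJ ν s h) (hJ _ hr)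
      simp only [← cstHom_apply, map_sub, map_mul] at this ⊢
      rwa [sub_sub_cancel] at this
  simp only [h3, Pi.zero_apply, map_zero, zero_mul, sum_const_zero, sub_zero] at hr
  exact D.IT_tf hp hs (D.UJ_IT hT.lg (mul_mem (Subalgebra.algebraMap_mem _ _) hp) hr)

end QD

end Pool.Agent.Work.MP_849ab0_ag
end
end

-- merged part: Pool.Agent.Work.MP_849ab0_ag.Uni2
section
/-! The universal flavour ring and base change. -/

noncomputable section

set_option linter.unusedSectionVars false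

namespace Pool.Agent.Work.MP_849ab0_ag

open MvPolynomial Finset
open scoped Polynomial

section Base

variable (σ R : Type) [CommRing R]

/-- grading of the universal flavour ring -/
def uniR : MvPolynomial σ R →+* (MvPolynomial σ R)[X] :=
  eval₂Hom (Polynomial.C.comp C) fun s => Polynomial.C (X s) * Polynomial.X

/-- grading of the deformed universal flavour ring -/
def uniD : (MvPolynomial σ R)[X] →+* (MvPolynomial σ R)[X][X] :=
  Polynomial.eval₂RingHom (S := (MvPolynomial σ R)[X][X])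
    ((Polynomial.mapRingHom Polynomial.C).comp (uniR σ R))
    (Polynomial.C Polynomial.X * Polynomial.X)

variable {σ R}

theorem uniD_C (r : MvPolynomial σ R) :
    uniD σ R (Polynomial.C r) = (uniR σ R r).map Polynomial.C := by
  simp [uniD]

theorem uniD_X : uniD σ R Polynomial.X = Polynomial.C Polynomial.X * Polynomial.X := by
  simp [uniD]

theorem uniD_CC (c : R) : uniD σ R (Polynomial.C (C c)) = Polynomial.C (Polynomial.C (C c)) := by
  simp [uniD_C, uniR]

theorem uniD_CX (s : σ) :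
    uniD σ R (Polynomial.C (X s)) = Polynomial.C (Polynomial.C (X s)) * Polynomial.X := by
  simp [uniD_C, uniR]

theorem uni_ext {A : Type} [CommRing A] {φ ψ : (MvPolynomial σ R)[X] →+* A}
    (h1 : ∀ c, φ (Polynomial.C (C c)) = ψ (Polynomial.C (C c)))
    (h2 : ∀ s, φ (Polynomial.C (X s)) = ψ (Polynomial.C (X s)))
    (h3 : φ Polynomial.X = ψ Polynomial.X) (r : (MvPolynomial σ R)[X]) : φ r = ψ r :=
  RingHom.congr_fun (Polynomial.ringHom_ext' (MvPolynomial.ringHom_ext h1 h2) h3) r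

theorem uniD_two (r : (MvPolynomial σ R)[X]) :
    uniD σ R ((uniD σ R r).eval 2) = (uniD σ R r).comp (Polynomial.C 2 * Polynomial.X) := by
  refine uni_ext (A := (MvPolynomial σ R)[X][X])
    (φ := (uniD σ R).comp ((Polynomial.evalRingHom (2 : (MvPolynomial σ R)[X])).comp (uniD σ R)))
    (ψ := (Polynomial.compRingHom (Polynomial.C (2 : (MvPolynomial σ R)[X]) * Polynomial.X)).comp
      (uniD σ R)) (fun c => ?_) (fun s => ?_) ?_ r
  all_goals simp only [RingHom.comp_apply, uniD_CC, uniD_CX, uniD_X, Polynomial.coe_evalRingHom,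
    Polynomial.coe_compRingHom_apply, Polynomial.eval_C, Polynomial.eval_X,
    Polynomial.C_comp, Polynomial.X_comp, map_mul, map_ofNat]
  all_goals ring

end Base

theorem exists_grd2 (σ R : Type) [CommRing R] : ∃ G : Grd2 (MvPolynomial σ R)[X],
    (∀ e, G.g (Polynomial.C (X e)) = Polynomial.C (Polynomial.C (X e)) * Polynomial.X) ∧
      G.g Polynomial.X = Polynomial.C Polynomial.X * Polynomial.X :=
  ⟨⟨uniD σ R, uni_ext (φ := (Polynomial.evalRingHom 1).comp (uniD σ R)) (ψ := RingHom.id _)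
    (fun c => by simp [uniD_CC]) (fun s => by simp [uniD_CX]) (by simp [uniD_X]), uniD_two⟩,
    uniD_CX, uniD_X⟩

theorem exists_tau (σ R : Type) [CommRing R] [IsDomain R] :
    ∃ i1 : MvPolynomial σ R →+* LS (FractionRing (MvPolynomial σ R)), Function.Injective i1 ∧
      ∀ e, ∃ c, i1 (X e) = lv _ + HahnSeries.C c := by
  let j : MvPolynomial σ R →+* (MvPolynomial σ R)[X] :=
    eval₂Hom (Polynomial.C.comp C) fun e => Polynomial.X + Polynomial.C (X e)
  have hj : (Polynomial.evalRingHom 0).comp j = RingHom.id _ :=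
    MvPolynomial.ringHom_ext (fun c => by simp [j]) fun e => by simp [j]
  have hj' : Function.Injective j := Function.LeftInverse.injective (RingHom.congr_fun hj)
  refine ⟨(i0 _).comp j, (i0_injective _).comp hj',
    fun e => ⟨algebraMap (MvPolynomial σ R) _ (X e), ?_⟩⟩
  simp [j, i0]

namespace QD

variable {k n : ℕ} {E R : Type} [Fintype E] [CommRing R] [IsDomain R] [Algebra ℚ R]
  (D : QD k n E R)

/-- universal flavours at `ħ = 0` -/
def uni0 : QD k n E (MvPolynomial E R) := ⟨D.col, D.src, D.tgt, fun e => X e, 0⟩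

theorem uni_eq : D.uni = D.uni0.up := rfl

theorem uni_map : D.uni.map D.ev = D := by
  cases D; simp [uni, map, ev]

theorem main_uni {ν : Fin k → ℤ} (hν : Gen (ν ∘ D.col)) {p : Pol n (MvPolynomial E R)[X]}
    (hp : p ∈ Inv _ D.col) : D.uni.cst D.uni.Om p ∈ D.uni.JJ D.uni.Om ν ↔ p ∈ D.uni.IT ν := by
  obtain ⟨G, h1, h2⟩ := exists_grd2 E R
  obtain ⟨i1, h3, h4⟩ := exists_tau E R
  exact D.uni0.main_up rfl hν G h1 h2 h4 h3 hp

theorem stmt2 {ν : Fin k → ℤ} (hν : Gen (ν ∘ D.col)) :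
    (∀ a ∈ D.Alg (FractionRing (Pol n R)), D.Hom _ ν 0 a →
      ∃ f ∈ Inv R D.col, a - D.cst _ f ∈ D.JJ _ ν) ∧
    ∀ f ∈ Inv R D.col, (D.cst (FractionRing (Pol n R)) f ∈ D.JJ _ ν ↔ f ∈ D.IU ν) := by
  have : CharZero (MvPolynomial E R) := algebraRat.charZero _
  let s : R →+* (MvPolynomial E R)[X] := Polynomial.C.comp C
  have hχ : ∀ r, D.ev (s r) = r := fun r => by simp [s, ev]
  have hl : D.uni.GN := D.uni0.up_GN fun e _ => X_ne_zero e
  have hX : D.uni.h ≠ 0 := Polynomial.X_ne_zero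
  have hdec := D.uni.dec_JJ hl hX (ν := ν) hν
  suffices h : (∀ a ∈ (D.uni.map D.ev).Alg (FractionRing (Pol n R)),
      (D.uni.map D.ev).Hom _ ν 0 a → ∃ f ∈ Inv R D.col,
        a - (D.uni.map D.ev).cst _ f ∈ (D.uni.map D.ev).JJ _ ν) ∧
      ∀ f ∈ Inv R D.col, ((D.uni.map D.ev).cst (FractionRing (Pol n R)) f ∈
        (D.uni.map D.ev).JJ _ ν ↔ f ∈ D.IU ν) by
    rwa [D.uni_map] at h
  refine ⟨fun a ha h0 => ?_, fun p hp => ⟨fun h => ?_, ?_⟩⟩
  · obtain ⟨x, hx, h1, rfl⟩ := D.uni.lift_hom D.ev s hχ ha h0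
    obtain ⟨p, hp, -, h2⟩ := hdec ⊤ (fun _ _ _ _ => trivial) x hx h1 fun _ => trivial
    exact ⟨_, map_mem_Inv D.ev hp, by
      simpa only [map_sub, spOp_cst] using D.uni.spOp_JJ D.ev h2⟩
  · obtain ⟨x, hx, h1⟩ := D.uni.lift_JJ D.ev s hχ h
    have hp' := map_mem_Inv s hp
    obtain ⟨p', hp'', h2, h3⟩ := hdec _ (D.uni.sp_ker2 D.ev)
      (D.uni.cst _ (MvPolynomial.map s p) - x)
      (sub_mem (D.uni.cst_mem hp') (D.uni.JJ_mem hx).1)
      ((D.uni.hom_cst ν _).sub D.uni (D.uni.JJ_mem hx).2) fun μ => by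
        rw [RingHom.mem_ker, ← co_spOp, map_sub, h1, spOp_cst, map_map_sec D.ev _ hχ, sub_self,
          co_zero]
    rw [RingHom.mem_ker, sp_al] at h2
    have h5 := (map_eq_zero_iff _ (IsFractionRing.injective _ _)).1 h2
    have h4 : D.uni.cst D.uni.Om (MvPolynomial.map s p - p') ∈ D.uni.JJ _ ν := by
      have := add_mem h3 hx
      simp only [← cstHom_apply, map_sub] at this ⊢
      rwa [sub_right_comm, sub_add_cancel] at this
    refine ⟨_, (D.main_uni hν (sub_mem hp' hp'')).1 h4, ?_⟩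
    rw [map_sub, h5, map_map_sec D.ev _ hχ, sub_zero]
  · rintro ⟨q, hq, rfl⟩
    simpa only [spOp_cst] using D.uni.spOp_JJ D.ev ((D.main_uni hν hq.1).2 hq)

end QD

end Pool.Agent.Work.MP_849ab0_ag
end
end
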