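import Pool.Agent.Work.MP_849ab0_ag.Dec2
import Pool.Agent.Work.MP_849ab0_ag.Grade
import Pool.Agent.Work.MP_849ab0_ag.Lift2

-- merged part: Pool.Agent.Work.MP_849ab0_ag.ZB
section
-- merged part: Pool.Agent.Work.MP_849ab0_ag.ZD
section
/-! The right ideal of the monopole operators of negative degree. -/

noncomputable section

set_option linter.unusedSectionVars false

namespace Pool.Agent.Work.MP_849ab0_ag

open MvPolynomial Finset

/-- fundamental coweights -/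
def Mn {n : ℕ} (μ : Fin n → ℤ) : Prop := (∀ a, μ a = 0 ∨ μ a = 1) ∨ ∀ a, μ a = 0 ∨ μ a = -1

/-- perturbed character -/
def per {k : ℕ} (n : ℕ) (ν : Fin k → ℤ) (ε : ℤ) : Fin k → ℤ := fun i => (n + 1) * ν i + ε

theorem Mn_iff {n : ℕ} {μ : Fin n → ℤ} : Mn μ ↔ ∃ S, μ = ind S ∨ μ = -ind S := by
  refine ⟨?_, ?_⟩
  · rintro (h | h)
    · refine ⟨univ.filter fun a => μ a = 1, Or.inl (funext fun a => ?_)⟩
      rcases h a with e | e <;> simp [ind, e]
    · refine ⟨univ.filter fun a => μ a = -1, Or.inr (funext fun a => ?_)⟩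
      rcases h a with e | e <;> simp [ind, e]
  · rintro ⟨S, rfl | rfl⟩
    · exact QD.ind_min S
    · exact QD.neg_ind_min S

theorem zd_sum {k n : ℕ} (c : Fin n → Fin k) (ν : Fin k → ℤ) {S : Finset (Fin n)}
    (hS : S.Nonempty) : (∑ a ∈ S, (ν ∘ c) a < 0 → ∑ a ∈ S, (per n ν 1 ∘ c) a < 0) ∧
      (0 ≤ ∑ a ∈ S, (ν ∘ c) a → 0 < ∑ a ∈ S, (per n ν 1 ∘ c) a) := by
  have h1 : ∑ a ∈ S, (per n ν 1 ∘ c) a = (n + 1) * ∑ a ∈ S, (ν ∘ c) a + S.card := by
    simp [per, sum_add_distrib, mul_sum]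
  have h2 : (S.card : ℤ) ≤ n := by simpa using card_le_univ S
  have h3 : (0 : ℤ) < S.card := by exact_mod_cast hS.card_pos
  rw [h1]
  exact ⟨fun h => by nlinarith, fun h => by positivity⟩

theorem gen_per {k n : ℕ} (c : Fin n → Fin k) (ν : Fin k → ℤ) : Gen (per n ν 1 ∘ c) := by
  intro S hS
  have h := zd_sum c ν hS
  omega

theorem jk_per {k n : ℕ} (c : Fin n → Fin k) (ν : Fin k → ℤ) (s : Option (Fin n) → ℤ)
    (π : Equiv.Perm (Fin n)) : jk (per n ν 1 ∘ c) s π = jk (ν ∘ c) s π := by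
  refine prod_congr rfl fun a _ => congrArg _ (if_congr ?_ rfl rfl)
  have h := zd_sum c ν (S := univ.filter fun b => π b ≤ π a) ⟨a, by simp⟩
  omega

namespace QD

variable {k n : ℕ} {E R : Type} [Fintype E] [CommRing R] [IsDomain R] [Algebra ℚ R]
  (D : QD k n E R)

theorem IT_per (ν : Fin k → ℤ) : D.IT (per n ν 1) = D.IT ν := by
  simp only [IT, res2, jk_per]

theorem mon_add (μ : Fin n → ℤ) (g g' : Pol n R) :
    D.mon D.Om μ (g + g') = D.mon D.Om μ g + D.mon D.Om μ g' := by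
  refine D.op_ext fun κ => ?_
  simp only [mon_om, co_add, co_sum, co_sg, ← sum_add_distrib]
  refine sum_congr rfl fun w _ => ?_
  split_ifs
  · rw [map_add, map_add, add_mul]
  · rw [add_zero]

theorem mon_neg (μ : Fin n → ℤ) (g : Pol n R) : D.mon D.Om μ (-g) = -D.mon D.Om μ g := by
  refine D.op_ext fun κ => ?_
  simp only [mon_om, co_neg, co_sum, co_sg, ← sum_neg_distrib]
  refine sum_congr rfl fun w _ => ?_
  split_ifs
  · rw [map_neg, map_neg]
    ring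
  · rw [neg_zero]

theorem mon_nil (μ : Fin n → ℤ) : D.mon D.Om μ 0 = 0 := by
  have h := D.mon_add μ 0 0
  rw [add_zero] at h
  exact left_eq_add.1 h

theorem mon_rename (μ : Fin n → ℤ) (g : Pol n R) (w : stab D.col) :
    D.mon D.Om (μ ∘ w.1.symm) (rename w.1 g) = D.mon D.Om μ g := by
  rw [mon_om, mon_om, ← Equiv.sum_comp (Equiv.mulRight w)
    fun w' : stab D.col => D.sg (μ ∘ w'.1.symm) (D.al (rename w'.1 g) * D.cc (μ ∘ w'.1.symm))]
  refine sum_congr rfl fun w' _ => ?_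
  rw [rename_rename]
  rfl

theorem dg_per (ν : Fin k → ℤ) (ε : ℤ) (μ : Fin n → ℤ) :
    D.dg (per n ν ε) μ = (n + 1) * D.dg ν μ + ε * D.dg 1 μ := by
  simp only [dg, per, mul_sum, ← sum_add_distrib, Pi.one_apply]
  exact sum_congr rfl fun a _ => by ring

theorem sum_cmp (ν : Fin k → ℤ) (x : D.Op D.Om) :
    ∑ m ∈ (D.sup x).image (D.dg ν), D.cmp ν m x = x := by
  refine D.op_ext fun μ => ?_
  simp only [co_sum, co_cmp, sum_ite_eq]
  split_ifs with h
  · rfl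
  · by_contra e
    exact h (mem_image_of_mem _ (D.mem_sup.2 (Ne.symm e)))

theorem zd_step (𝔎 : Ideal D.Om)
    (h𝔎 : ∀ l g, D.al g * D.cc l ∈ 𝔎 → ∀ m, D.al (C (coeff m g)) ∈ 𝔎)
    (J : Set (D.Op D.Om)) (T : Finset (Fin n → ℤ)) {l : Fin n → ℤ}
    (hex : ∀ g ∈ Inv R fun a => (D.col a, l a),
      ∃ r ∈ D.Alg D.Om, (∀ μ, D.co r μ ≠ 0 → μ ∈ T) ∧ D.Lead r l (D.al g * D.cc l) ∧ r ∈ J)
    {g : Pol n R} (hg : g ∈ Inv R fun a => (D.col a, l a)) (hk : D.al g * D.cc l ∈ 𝔎) :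
    ∃ r ∈ D.Alg D.Om, (∀ μ, D.co r μ ≠ 0 → μ ∈ T) ∧ D.Lead r l (D.al g * D.cc l) ∧
      (∀ μ, D.co r μ ∈ 𝔎) ∧ r ∈ AddSubgroup.closure
        {y | ∃ c r, D.al (C c) ∈ 𝔎 ∧ r ∈ J ∧ y = D.cst D.Om (C c) * r} := by
  have hG : ∀ m : Fin n →₀ ℕ, (C (algebraMap ℚ R
      (Fintype.card (stab fun a => (D.col a, l a)) : ℚ)⁻¹) *
      Av (fun a => (D.col a, l a)) (monomial m 1) : Pol n R) ∈
        Inv R fun a => (D.col a, l a) := fun m =>
    mul_mem ((Inv R _).algebraMap_mem _) (Av_mem _ _)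
  choose r hr1 hr2 hr4 hr5 using fun m => hex _ (hG m)
  have hco : ∀ μ, D.co (∑ m ∈ g.support, D.cst D.Om (C (coeff m g)) * r m) μ =
      ∑ m ∈ g.support, D.al (C (coeff m g)) * D.co (r m) μ := by
    intro μ
    rw [co_sum]
    exact sum_congr rfl fun m _ => D.dec_co_cst_mul _ _ _
  have hne : ∀ μ, D.co (∑ m ∈ g.support, D.cst D.Om (C (coeff m g)) * r m) μ ≠ 0 →
      ∃ m, D.co (r m) μ ≠ 0 := by
    intro μ h
    rw [hco] at h
    obtain ⟨m, -, hm⟩ := exists_ne_zero_of_sum_ne_zero h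
    exact ⟨m, right_ne_zero_of_mul hm⟩
  refine ⟨∑ m ∈ g.support, D.cst D.Om (C (coeff m g)) * r m, ?_, ?_, ⟨?_, ?_⟩, ?_,
    sum_mem fun m _ => AddSubgroup.subset_closure ⟨_, _, h𝔎 l g hk m, hr5 m, rfl⟩⟩
  · exact sum_mem fun m _ => mul_mem (D.cst_mem ((Inv R _).algebraMap_mem _)) (hr1 m)
  · intro μ h
    obtain ⟨m, hm⟩ := hne μ h
    exact hr2 m μ hm
  · rw [hco]
    conv_rhs => rw [inv_decomp _ hg, map_sum, sum_mul]
    refine sum_congr rfl fun m _ => ?_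
    rw [(hr4 m).1, map_mul D.al (C (coeff m g)), mul_assoc]
  · intro μ h
    obtain ⟨m, hm⟩ := hne μ h
    exact (hr4 m).2 μ hm
  · intro μ
    rw [hco]
    exact sum_mem fun m _ => Ideal.mul_mem_right _ _ (h𝔎 l g hk m)

theorem dec3 (hl : D.GN) (hh : D.h ≠ 0) (𝔎 : Ideal D.Om)
    (h𝔎 : ∀ l g, D.al g * D.cc l ∈ 𝔎 → ∀ m, D.al (C (coeff m g)) ∈ 𝔎)
    (J : Set (D.Op D.Om)) (T : Finset (Fin n → ℤ))
    (hex : ∀ l ∈ T, Dom D.col l → ∀ g ∈ Inv R fun a => (D.col a, l a),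
      ∃ r ∈ D.Alg D.Om, (∀ μ, D.co r μ ≠ 0 → μ ∈ T) ∧ D.Lead r l (D.al g * D.cc l) ∧ r ∈ J)
    (x : D.Op D.Om) (hx : x ∈ D.Alg D.Om) (hT : ∀ μ, D.co x μ ≠ 0 → μ ∈ T)
    (hk : ∀ μ, D.co x μ ∈ 𝔎) : x ∈ AddSubgroup.closure
      {y | ∃ c r, D.al (C c) ∈ 𝔎 ∧ r ∈ J ∧ y = D.cst D.Om (C c) * r} := by
  classical
  have : CharZero R := algebraRat.charZero R
  obtain ⟨N, hN⟩ : ∃ N, (T.filter fun μ => ∃ μ', D.co x μ' ≠ 0 ∧ toLex μ ≤ toLex μ').card = N :=
    ⟨_, rfl⟩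
  induction N using Nat.strong_induction_on generalizing x with
  | _ N ih =>
    rcases (D.sup x).eq_empty_or_nonempty with he | he
    · rw [← D.sum_sg x, he, sum_empty]
      exact zero_mem _
    · obtain ⟨l, hl1, hl2⟩ := exists_max_image (D.sup x) (fun μ => toLex μ) he
      have hl1' := D.mem_sup.1 hl1
      have hm : ∀ μ, D.co x μ ≠ 0 → toLex μ ≤ toLex l := fun μ h => hl2 μ (D.mem_sup.2 h)
      obtain ⟨hd, g, hg, hco⟩ := D.lc2 hl hh (D.good_of_mem hh hx) hl1' hm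
      obtain ⟨r, r1, r2, r4, r5, r6⟩ := D.zd_step 𝔎 h𝔎 J T (hex l (hT l hl1') hd) hg (hco ▸ hk l)
      have hne : ∀ μ, D.co (x - r) μ ≠ 0 → D.co x μ ≠ 0 ∨ D.co r μ ≠ 0 := by
        intro μ h
        by_contra h'
        push Not at h'
        rw [co_sub, h'.1, h'.2, sub_zero] at h
        exact h rfl
      have hlt : ∀ μ, D.co (x - r) μ ≠ 0 → toLex μ < toLex l := by
        intro μ h
        refine lt_of_le_of_ne ((hne μ h).elim (hm μ) (r4.2 μ)) fun e => ?_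
        have e' : μ = l := toLex.injective e
        rw [e', co_sub, r4.1, hco, sub_self] at h
        exact h rfl
      have c1 : (T.filter fun μ => ∃ μ', D.co (x - r) μ' ≠ 0 ∧ toLex μ ≤ toLex μ').card < N := by
        rw [← hN]
        refine card_lt_card ⟨?_, fun hsub => ?_⟩
        · intro μ hμ
          obtain ⟨h1, μ', h2, h3⟩ := mem_filter.1 hμ
          exact mem_filter.2 ⟨h1, l, hl1', h3.trans (hlt μ' h2).le⟩
        · obtain ⟨-, μ', h2, h3⟩ := mem_filter.1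
            (hsub (mem_filter.2 ⟨hT l hl1', l, hl1', le_rfl⟩))
          exact absurd (hlt μ' h2) (not_lt.2 h3)
      have h := add_mem (ih _ c1 (x - r) (sub_mem hx r1)
        (fun μ h => (hne μ h).elim (hT μ) (r2 μ)) (fun μ => by
          rw [co_sub]
          exact sub_mem (hk μ) (r5 μ)) rfl) r6
      rwa [sub_add_cancel] at h

/-- the right ideal -/
def RI (ν : Fin k → ℤ) : AddSubgroup (D.Op D.Om) := AddSubgroup.closure
  {x | ∃ μ p y, Mn μ ∧ D.dg ν μ < 0 ∧ y ∈ D.Alg D.Om ∧ x = D.mon D.Om μ p * y}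

/-- nontrivial monopole operators of degree zero lie in the right ideal -/
def HZ (ν : Fin k → ℤ) : Prop :=
  ∀ μ, Mn μ → μ ≠ 0 → D.dg ν μ = 0 → ∀ g, D.mon D.Om μ g ∈ D.RI ν

theorem RI_mul {ν : Fin k → ℤ} {x y : D.Op D.Om} (hx : x ∈ D.RI ν) (hy : y ∈ D.Alg D.Om) :
    x * y ∈ D.RI ν := by
  induction hx using AddSubgroup.closure_induction with
  | mem x hx =>
    obtain ⟨μ, p, z, h1, h2, h3, rfl⟩ := hx
    exact AddSubgroup.subset_closure ⟨μ, p, z * y, h1, h2, mul_mem h3 hy, mul_assoc _ _ _⟩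
  | zero => rw [zero_mul]; exact zero_mem _
  | add x z _ _ hx hz => rw [add_mul]; exact add_mem hx hz
  | neg x _ hx => rw [neg_mul]; exact neg_mem hx

theorem RI_C {ν : Fin k → ℤ} (c : R) {x : D.Op D.Om} (hx : x ∈ D.RI ν) :
    D.cst D.Om (C c) * x ∈ D.RI ν := by
  induction hx using AddSubgroup.closure_induction with
  | mem x hx =>
    obtain ⟨μ, p, z, h1, h2, h3, rfl⟩ := hx
    exact AddSubgroup.subset_closure
      ⟨μ, C c * p, z, h1, h2, h3, by rw [← mul_assoc, cst_C_mul_mon]⟩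
  | zero => rw [mul_zero]; exact zero_mem _
  | add x z _ _ hx hz => rw [mul_add]; exact add_mem hx hz
  | neg x _ hx => rw [mul_neg]; exact neg_mem hx

theorem RI_JJ {ν : Fin k → ℤ} {x : D.Op D.Om} (hx : x ∈ D.RI ν) (h0 : D.Hom D.Om ν 0 x) :
    x ∈ D.JJ D.Om ν := by
  rw [← D.cmp_of_hom h0]
  refine (AddSubgroup.closure_le ((D.JJ D.Om ν).comap (D.cmp ν 0))).2 ?_ hx
  rintro _ ⟨μ, p, z, h1, h2, h3, rfl⟩
  refine AddSubgroup.subset_closure ⟨_, h2, _, D.mon_mem h1 p, _, D.cmp_mem ν h3 _,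
    D.hom_mon ν μ p, D.hom_cmp ν _ _, ?_⟩
  rw [D.cmp_mul (D.hom_mon ν μ p), zero_sub]

theorem zd_level {ν : Fin k → ℤ} {l : Fin n → ℤ} (hd : Dom D.col l) (h0 : D.dg ν l < 0) {M : ℤ}
    (hM : 0 ≤ M) (hle : ∀ a, l a ≤ M) {g : Pol n R}
    (hg : g ∈ Inv R fun a => (D.col a, l a)) (P : AddSubgroup (D.Op D.Om))
    (h1 : ∀ S g' a, a ∈ D.Alg D.Om → D.dg ν (ind S) < 0 → D.Le (M - 1) a →
      D.Hom D.Om ν (D.dg ν (l - ind S)) a → D.Hom D.Om 1 (D.dg 1 (l - ind S)) a →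
      D.mon D.Om (ind S) g' * a ∈ P)
    (h2 : ∀ S g' a, a ∈ D.Alg D.Om → 0 < D.dg ν (ind S) → D.Le M a →
      D.Hom D.Om ν (D.dg ν (l - -ind S)) a → D.Hom D.Om 1 (D.dg 1 (l - -ind S)) a →
      D.mon D.Om (-ind S) g' * a ∈ P) :
    ∃ r ∈ P, D.Lead r l (D.al g * D.cc l) := by
  obtain ⟨j, hj, h3⟩ := exists_lt_of_sum_lt (g := fun _ => 0)
    (((level_sum (ν ∘ D.col) l _ (JK_abs_le l)).symm.trans_lt h0).trans_eq sum_const_zero.symm)
  replace hj := (mem_Icc.1 hj).1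
  rcases lt_or_ge (∑ a with j ≤ l a, (ν ∘ D.col) a) 0 with h | h
  · obtain ⟨b, hb, -⟩ := exists_ne_zero_of_sum_ne_zero h.ne
    have hb' := ((mem_filter.1 hb).2).trans (hle b)
    obtain ⟨r, hr, hr'⟩ := D.ex_level ν l hd (s := 1) (Or.inl rfl) hj
      (ind (univ.filter fun a => j ≤ l a)) (fun a => by simp [ind]) (M - 1) (by omega)
      (fun a => by
        have := hle a
        simp only [Pi.sub_apply, ind, mem_filter, mem_univ, true_and]
        split_ifs <;> omega) g hg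
    refine ⟨r, (AddSubgroup.closure_le P).2 ?_ hr, hr'⟩
    rintro _ ⟨g', a, a1, a2, a3, a4, rfl⟩
    exact h1 _ g' a a1 (by rw [dg_ind]; exact h) a4 a2 a3
  · obtain ⟨r, hr, hr'⟩ := D.ex_level ν l hd (s := -1) (Or.inr rfl) hj
      (-ind (univ.filter fun a => j ≤ -l a)) (fun a => by
        simp only [Pi.neg_apply, ind, mem_filter, mem_univ, true_and, neg_one_mul]
        split_ifs <;> simp) M hM
      (fun a => by
        have := hle a
        simp only [Pi.sub_apply, Pi.neg_apply, ind, mem_filter, mem_univ, true_and]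
        split_ifs <;> omega) g hg
    refine ⟨r, (AddSubgroup.closure_le P).2 ?_ hr, hr'⟩
    rintro _ ⟨g', a, a1, a2, a3, a4, rfl⟩
    exact h2 _ g' a a1 (by rw [dg_ind]; exact h.trans_lt (sub_neg.1 h3)) a4 a2 a3

theorem neg_RI (hl : D.GN) (hh : D.h ≠ 0) {ν : Fin k → ℤ} {m : ℤ} (hm : m < 0) {x : D.Op D.Om}
    (hx : x ∈ D.Alg D.Om) (h0 : D.Hom D.Om ν m x) : x ∈ D.RI ν := by
  obtain ⟨M, hM, hle⟩ := D.exists_le x
  obtain ⟨c, hc⟩ : ∃ c : ℤ, ∀ μ, D.co x μ ≠ 0 → c ≤ D.dg 1 μ :=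
    ⟨-∑ μ ∈ D.sup x, |D.dg 1 μ|, fun μ h => neg_le.2 ((neg_le_abs _).trans
      (single_le_sum (f := fun μ => |D.dg 1 μ|) (fun _ _ => abs_nonneg _) (D.mem_sup.2 h)))⟩
  obtain ⟨T, hT⟩ := D.dec2_fin M c fun μ => D.dg ν μ = m
  refine (AddSubgroup.closure_le (D.RI ν)).2 ?_ (D.dec3 hl hh ⊤ (fun _ _ _ _ => trivial)
    (D.RI ν) T ?_ x hx (fun μ h => (hT μ).2 ⟨hle μ h, hc μ h, D.hom_iff.1 h0 μ h⟩)
    fun _ => trivial)
  · rintro _ ⟨a, r, -, hr, rfl⟩
    exact D.RI_C a hr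
  intro l hlT hd g hg
  obtain ⟨t1, t2, t3⟩ := (hT l).1 hlT
  have key : ∀ μ g' a, Mn μ → a ∈ D.Alg D.Om →
      D.dg ν μ < 0 → D.Le M (D.mon D.Om μ g' * a) → D.Hom D.Om ν (D.dg ν (l - μ)) a →
      D.Hom D.Om 1 (D.dg 1 (l - μ)) a → D.mon D.Om μ g' * a ∈ D.dec2P (D.RI ν) T := by
    intro μ g' a hμ a1 a2 a3 a4 a5
    refine ⟨mul_mem (D.mon_mem hμ g') a1, fun κ h => (hT κ).2 ⟨a3 κ h, ?_, ?_⟩,
      AddSubgroup.subset_closure ⟨μ, g', a, hμ, a2, a1, rfl⟩⟩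
    · rwa [D.hom_iff.1 (D.dec2_hom 1 l μ g' a5) κ h]
    · rwa [D.hom_iff.1 (D.dec2_hom ν l μ g' a4) κ h]
  obtain ⟨r, hr, hr'⟩ := D.zd_level hd (t3.trans_lt hm) hM t1 hg (D.dec2P (D.RI ν) T)
    (fun S g' a a1 a2 a3 a4 a5 => key _ g' a (ind_min S) a1 a2 (by
        have := (D.le_mon (K := D.Om) (M := 1) (μ := ind S) (fun b => by
          unfold ind
          split_ifs <;> simp) g').mul D a3
        rwa [add_sub_cancel] at this) a4 a5)
    (fun S g' a a1 a2 a3 a4 a5 => key _ g' a (neg_ind_min S) a1 (by rw [dg_neg]; omega) (by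
        have := (D.le_mon (K := D.Om) (M := 0) (μ := -ind S) (fun b => by
          simp only [Pi.neg_apply, ind]
          split_ifs <;> simp) g').mul D a3
        rwa [zero_add] at this) a4 a5)
  exact ⟨r, hr.1, hr.2.1, hr', hr.2.2⟩

theorem JJ_RI (hl : D.GN) (hh : D.h ≠ 0) (ν : Fin k → ℤ) : D.JJ D.Om ν ≤ D.RI ν := by
  refine (AddSubgroup.closure_le _).2 ?_
  rintro _ ⟨m, hm, b, hb, a, ha, h1, -, rfl⟩
  exact D.RI_mul (D.neg_RI hl hh hm hb h1) ha

theorem RI_per {ν : Fin k → ℤ} (hZ : D.HZ ν) {ε : ℤ} (hε : ε = 1 ∨ ε = -1) :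
    D.RI (per n ν ε) = D.RI ν := by
  have key : ∀ μ, Mn μ → (D.dg ν μ < 0 → D.dg (per n ν ε) μ < 0) ∧
      (D.dg (per n ν ε) μ < 0 → D.dg ν μ ≤ 0) := fun μ hμ => by
    have h1 : -(n : ℤ) ≤ ε * D.dg 1 μ ∧ ε * D.dg 1 μ ≤ n := by
      obtain ⟨S, h⟩ := Mn_iff.1 hμ
      have h2 : D.dg 1 (ind S) = S.card := by simp [dg_ind]
      have h3 : S.card ≤ n := by simpa using card_le_univ S
      rcases h with rfl | rfl <;> rcases hε with rfl | rfl <;> simp only [dg_neg, h2] <;> omega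
    rw [dg_per]
    exact ⟨fun h => by nlinarith, fun h => by nlinarith⟩
  refine le_antisymm ((AddSubgroup.closure_le _).2 ?_) ((AddSubgroup.closure_le _).2 ?_)
  · rintro _ ⟨μ, p, y, h1, h2, h3, rfl⟩
    rcases ((key μ h1).2 h2).lt_or_eq with h4 | h4
    · exact AddSubgroup.subset_closure ⟨μ, p, y, h1, h4, h3, rfl⟩
    · refine D.RI_mul (hZ μ h1 ?_ h4 p) h3
      rintro rfl
      simp [dg] at h2
  · rintro _ ⟨μ, p, y, h1, h2, h3, rfl⟩
    exact AddSubgroup.subset_closure ⟨μ, p, y, h1, (key μ h1).1 h2, h3, rfl⟩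

theorem cst_JJ_per (hl : D.GN) (hh : D.h ≠ 0) {ν : Fin k → ℤ} (hZ : D.HZ ν) (p : Pol n R) :
    D.cst D.Om p ∈ D.JJ D.Om ν ↔ D.cst D.Om p ∈ D.JJ D.Om (per n ν 1) := by
  have h := D.RI_per hZ (Or.inl rfl)
  exact ⟨fun h1 => D.RI_JJ (h.ge (D.JJ_RI hl hh ν h1)) (D.hom_cst _ p),
    fun h1 => D.RI_JJ (h.le (D.JJ_RI hl hh _ h1)) (D.hom_cst _ p)⟩

theorem dec_JJ3 (hl : D.GN) (hh : D.h ≠ 0) {ν : Fin k → ℤ} (hZ : D.HZ ν)
    (𝔎 : Ideal D.Om) (h𝔎 : ∀ l g, D.al g * D.cc l ∈ 𝔎 → ∀ m, D.al (C (coeff m g)) ∈ 𝔎)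
    (x : D.Op D.Om) (hx : x ∈ D.Alg D.Om) (h0 : D.Hom D.Om ν 0 x) (hk : ∀ μ, D.co x μ ∈ 𝔎) :
    ∃ f ∈ Inv R D.col, D.al f ∈ 𝔎 ∧ x - D.cst D.Om f ∈ D.JJ D.Om ν := by
  have h1 : ∀ ε m, D.Hom D.Om (per n ν ε) (ε * m) (D.cmp 1 m x) := fun ε m =>
    D.hom_iff.2 fun μ h => by
      rw [co_cmp] at h
      obtain ⟨h2, h3⟩ := ite_ne_right_iff.1 h
      rw [dg_per, D.hom_iff.1 h0 μ fun e => h3 e, h2, mul_zero, zero_add]
  obtain ⟨f, f1, f2, f3⟩ := D.dec_JJ hl hh (gen_per D.col ν) 𝔎 h𝔎 _ (D.cmp_mem 1 hx 0) (h1 1 0)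
    fun μ => by
      rw [co_cmp]
      split_ifs
      · exact hk μ
      · exact zero_mem _
  refine ⟨f, f1, f2, D.RI_JJ ?_ (h0.sub D (D.hom_cst ν f))⟩
  rw [← sub_add_sub_cancel x (D.cmp 1 0 x)]
  refine add_mem ?_ ((D.RI_per hZ (Or.inl rfl)).le (D.JJ_RI hl hh _ f3))
  rw [← D.sum_cmp 1 (x - D.cmp 1 0 x)]
  refine sum_mem fun m _ => ?_
  rw [map_sub]
  rcases lt_trichotomy m 0 with h | rfl | h
  · rw [D.cmp_of_hom_ne (D.hom_cmp 1 0 x) h.ne', sub_zero]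
    exact (D.RI_per hZ (Or.inl rfl)).le
      (D.neg_RI hl hh (by omega) (D.cmp_mem 1 hx m) (h1 1 m))
  · rw [D.cmp_of_hom (D.hom_cmp 1 0 x), sub_self]
    exact zero_mem _
  · rw [D.cmp_of_hom_ne (D.hom_cmp 1 0 x) h.ne, sub_zero]
    exact (D.RI_per hZ (Or.inr rfl)).le
      (D.neg_RI hl hh (by omega) (D.cmp_mem 1 hx m) (h1 (-1) m))

end QD

end Pool.Agent.Work.MP_849ab0_ag
end
end

-- merged part: Pool.Agent.Work.MP_849ab0_ag.ZO
section
/-! The opposite quiver. -/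

noncomputable section

set_option linter.unusedSectionVars false

namespace Pool.Agent.Work.MP_849ab0_ag

open MvPolynomial Finset

variable (R : Type) [CommRing R] in
/-- the sign change of the variables -/
def ng (n : ℕ) : Pol n R →ₐ[R] Pol n R := aeval fun a => -X a

section Ng

variable {R : Type} [CommRing R] {n : ℕ}

theorem zo_ng_X (a : Fin n) : ng R n (X a) = -X a := by simp [ng]

theorem zo_ng_C (r : R) : ng R n (C r) = C r := (ng R n).commutes r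

theorem zo_ng_xv (o : Option (Fin n)) : ng R n (xv o) = -xv o := by
  cases o <;> simp [zo_ng_X]

theorem zo_ng_ng (f : Pol n R) : ng R n (ng R n f) = f := by
  have : (ng R n).comp (ng R n) = AlgHom.id R _ := by
    apply MvPolynomial.algHom_ext; intro a; simp [zo_ng_X]
  exact AlgHom.congr_fun this f

theorem zo_ng_rename (w : Fin n → Fin n) (f : Pol n R) :
    ng R n (rename w f) = rename w (ng R n f) := by
  have : (ng R n).comp (rename w) = (rename w).comp (ng R n) := by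
    apply MvPolynomial.algHom_ext; intro a; simp [zo_ng_X]
  exact AlgHom.congr_fun this f

theorem zo_ng_inv {J : Type} {c : Fin n → J} {f : Pol n R} (hf : f ∈ Inv R c) :
    ng R n f ∈ Inv R c := by
  intro w hw
  rw [← zo_ng_rename, hf w hw]

theorem zo_Mn_neg {μ : Fin n → ℤ} (h : Mn μ) : Mn (-μ) := by
  rcases h with h | h
  · refine Or.inr fun a => ?_
    rcases h a with e | e <;> simp [e]
  · refine Or.inl fun a => ?_
    rcases h a with e | e <;> simp [e]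

end Ng

namespace QD

variable {k n : ℕ} {E R : Type} [Fintype E] [CommRing R] [IsDomain R] [Algebra ℚ R]
  (D : QD k n E R)

/-- the opposite quiver -/
def op : QD k n E R := ⟨D.col, D.tgt, D.src, D.t, D.h⟩

theorem zo_ng_rt (a b : Fin n) (j : ℤ) : ng R n (D.op.rt a b j) = D.rt b a j := by
  simp only [rt, map_add, map_sub, map_mul, zo_ng_X, zo_ng_C, map_intCast]
  change -X a - -X b + (j : Pol n R) * C D.h = _
  ring

theorem zo_ng_sh (μ : Fin n → ℤ) (f : Pol n R) :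
    ng R n (D.op.sh μ f) = D.sh (-μ) (ng R n f) := by
  have : (ng R n).comp (D.op.sh μ) = (D.sh (-μ)).comp (ng R n) := by
    apply MvPolynomial.algHom_ext; intro a
    simp only [AlgHom.comp_apply, sh_X, map_add, map_mul, zo_ng_X, zo_ng_C, map_intCast, map_neg,
      Pi.neg_apply, Int.cast_neg]
    change -X a + (μ a : Pol n R) * C D.h = _
    ring
  exact AlgHom.congr_fun this f

/-- reversal of a weight -/
def zoSw : (E × Option (Fin n) × Option (Fin n)) ≃ (E × Option (Fin n) × Option (Fin n)) :=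
  (Equiv.refl E).prodCongr (Equiv.prodComm _ _)

theorem ng_mm (μ : Fin n → ℤ) : ng R n (D.op.mm μ) = D.mm (-μ) := by
  simp only [mm, map_prod, map_add, map_mul, map_intCast, zo_ng_C]
  refine prod_equiv zoSw ?_ ?_
  · intro p
    rw [mem_Wt, mem_Wt]
    exact and_comm
  · intro p _
    have e : ov (-μ) (zoSw p).2.2 - ov (-μ) (zoSw p).2.1 = ov μ p.2.2 - ov μ p.2.1 := by
      rw [ov_neg, ov_neg]
      change -ov μ p.2.1 - -ov μ p.2.2 = _
      ring
    rw [e]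
    refine prod_congr rfl fun j _ => ?_
    simp only [chi, map_add, map_sub, zo_ng_xv, zo_ng_C]
    change -xv p.2.2 - -xv p.2.1 + C (D.t p.1) + (j : Pol n R) * C D.h =
      xv p.2.1 - xv p.2.2 + C (D.t p.1) + (j : Pol n R) * C D.h
    ring

theorem ng_ee (μ : Fin n → ℤ) : ng R n (D.op.ee μ) = D.ee (-μ) := by
  simp only [ee_eq, map_prod, zo_ng_rt]
  refine prod_equiv (Equiv.prodComm _ _) ?_ ?_
  · intro q
    rw [mem_Rt, mem_Rt]
    exact eq_comm
  · intro q _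
    have e : (-μ) (Equiv.prodComm _ _ q).1 - (-μ) (Equiv.prodComm _ _ q).2 = μ q.1 - μ q.2 := by
      change -μ q.2 - -μ q.1 = _
      ring
    rw [e]
    rfl

/-- the map of coefficient rings -/
def zoPsi : D.op.Om →+* D.Om :=
  D.op.lift (D.al.comp (ng R n : Pol n R →+* Pol n R)) fun a b j h1 h2 => by
    have := D.isUnit_rt (a := b) (b := a) j h1.symm h2.symm
    rw [← zo_ng_rt] at this
    exact this

theorem zoPsi_al (f : Pol n R) : D.zoPsi (D.op.al f) = D.al (ng R n f) := D.op.lift_al _ _ _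

theorem zoPsi_act (μ : Fin n → ℤ) (c : D.op.Om) :
    D.zoPsi (D.op.act _ μ c) = D.act _ (-μ) (D.zoPsi c) := by
  have : D.zoPsi.comp (D.op.act _ μ) = (D.act _ (-μ)).comp D.zoPsi :=
    D.op.om_ext fun f => by
      simp only [RingHom.comp_apply, act_alg, zoPsi_al, zo_ng_sh]
  exact RingHom.congr_fun this c

theorem zoPsi_cc (μ : Fin n → ℤ) : D.zoPsi (D.op.cc μ) = D.cc (-μ) := by
  rw [cc, map_mul, map_inverse _ (D.op.isUnit_ee μ), zoPsi_al, zoPsi_al, ng_mm, ng_ee, cc]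

/-- inversion of the lattice -/
def zoInv : D.op.Lat →* D.Op D.Om where
  toFun γ := D.sg (-Multiplicative.toAdd γ) 1
  map_one' := by
    change D.sg (-0) 1 = 1
    rw [neg_zero, sg_zero_one]
  map_mul' γ δ := by
    change D.sg (-(Multiplicative.toAdd γ + Multiplicative.toAdd δ)) 1 = _
    rw [sg_mul_sg, map_one, mul_one, neg_add]

/-- the map of operator rings -/
def zoTh : D.op.Op D.op.Om →+* D.Op D.Om :=
  SkewMonoidAlgebra.liftNCRingHom (SkewMonoidAlgebra.singleOneRingHom.comp D.zoPsi)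
    D.zoInv (by
      intro x y
      have key : ∀ μ : Fin n → ℤ, D.sg 0 (D.zoPsi (D.op.act _ μ x)) * D.sg (-μ) 1 =
          D.sg (-μ) 1 * D.sg 0 (D.zoPsi x) := fun μ => by
        rw [sg_mul_sg, sg_mul_sg, zoPsi_act, map_one, mul_one, one_mul, zero_add, add_zero]
      exact key (Multiplicative.toAdd y))

theorem zoTh_sg (μ : Fin n → ℤ) (c : D.op.Om) :
    D.zoTh (D.op.sg μ c) = D.sg (-μ) (D.zoPsi c) := by
  have : D.zoTh (D.op.sg μ c) = D.sg 0 (D.zoPsi c) * D.sg (-μ) 1 :=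
    SkewMonoidAlgebra.liftNC_single _ _ _ _
  rw [this, sg_mul_sg, map_one, mul_one, zero_add]

theorem exists_op : ∃ Θ : D.op.Op D.op.Om →+* D.Op D.Om,
    (∀ μ g, Θ (D.op.mon _ μ g) = D.mon _ (-μ) (ng R n g)) ∧
      ∀ f, Θ (D.op.cst _ f) = D.cst _ (ng R n f) := by
  refine ⟨D.zoTh, fun μ g => ?_, fun f => ?_⟩
  · rw [mon_om, mon_om, map_sum]
    refine sum_congr rfl fun w _ => ?_
    rw [zoTh_sg, map_mul, zoPsi_al, zoPsi_cc, zo_ng_rename]
    rfl
  · rw [cst_eq, cst_eq, zoTh_sg, neg_zero, zoPsi_al]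

theorem HZ_of_neg {ν : Fin k → ℤ}
    (h1 : ∀ S : Finset (Fin n), S.Nonempty → D.dg ν (ind S) = 0 → ∀ g,
      D.mon D.Om (-ind S) g ∈ D.RI ν)
    (h2 : ∀ S : Finset (Fin n), S.Nonempty → D.dg ν (ind S) = 0 → ∀ g,
      D.op.mon D.op.Om (-ind S) g ∈ D.op.RI (-ν)) : D.HZ ν := by
  obtain ⟨Θ, hm, hc⟩ := D.exists_op
  have hA : ∀ y ∈ D.op.Alg D.op.Om, Θ y ∈ D.Alg D.Om := by
    have : D.op.Alg D.op.Om ≤ (D.Alg D.Om).comap Θ := by
      refine Subring.closure_le.2 ?_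
      rintro x (⟨f, hf, rfl⟩ | ⟨μ, g, hμ, rfl⟩)
      · change Θ _ ∈ D.Alg D.Om
        rw [hc]
        exact D.cst_mem (zo_ng_inv hf)
      · change Θ _ ∈ D.Alg D.Om
        rw [hm]
        exact D.mon_mem (zo_Mn_neg hμ) _
    exact fun y hy => this hy
  have hR : ∀ x ∈ D.op.RI (-ν), Θ x ∈ D.RI ν := by
    have : D.op.RI (-ν) ≤ (D.RI ν).comap Θ.toAddMonoidHom := by
      refine (AddSubgroup.closure_le _).2 ?_
      rintro x ⟨μ, p, y, hμ, hd, hy, rfl⟩
      change Θ _ ∈ D.RI ν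
      rw [map_mul, hm]
      refine AddSubgroup.subset_closure ⟨-μ, _, _, zo_Mn_neg hμ, ?_, hA y hy, rfl⟩
      have e : D.op.dg (-ν) μ = D.dg ν (-μ) := by
        unfold dg
        refine sum_congr rfl fun a _ => ?_
        change -ν (D.col a) * μ a = ν (D.col a) * -μ a
        ring
      rwa [e] at hd
    exact fun x hx => this hx
  intro μ hμ h0 hd g
  obtain ⟨S, rfl | rfl⟩ := Mn_iff.1 hμ
  · have hS : S.Nonempty := by
      rw [nonempty_iff_ne_empty]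
      rintro rfl
      exact h0 (by funext a; simp [ind])
    have := hR _ (h2 S hS hd (ng R n g))
    rwa [hm, neg_neg, zo_ng_ng] at this
  · have hS : S.Nonempty := by
      rw [nonempty_iff_ne_empty]
      rintro rfl
      exact h0 (by funext a; simp [ind])
    rw [dg_neg, neg_eq_zero] at hd
    exact h1 S hS hd g

end QD

end Pool.Agent.Work.MP_849ab0_ag
end
end

-- merged part: Pool.Agent.Work.MP_849ab0_ag.ZB
section
/-! If all modes vanish on a label, its monopole operators are decomposable. -/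

noncomputable section

set_option linter.unusedSectionVars false

namespace Pool.Agent.Work.MP_849ab0_ag.W

open MvPolynomial Finset

section Birk

variable {𝕜 : Type} [CommRing 𝕜] [Algebra ℚ 𝕜]

theorem birk2 {M : Type} [AddCommGroup M] [Module 𝕜 M] (ε : M →ₗ[𝕜] 𝕜)
    (σ : (M →ₗ[𝕜] 𝕜) →ₗ[𝕜] Module.End 𝕜 M) (J : Module.End 𝕜 M)
    (hε : ∀ α, ε ∘ₗ σ α = α ∘ₗ J) (hσ : ∀ α, σ α * J = σ α)
    (𝔫 : Submodule 𝕜 (Module.End 𝕜 M))
    (hbr : ∀ x ∈ 𝔫, ∀ y ∈ 𝔫, x * y - y * x ∈ 𝔫) (hπ : ∀ x ∈ 𝔫, σ (ε ∘ₗ x) ∈ 𝔫)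
    (L : List (Module.End 𝕜 M))
    (hL : ∀ e ∈ L, e ∈ 𝔫 ∧ e * J = e ∧ e * e = 0 ∧ ∀ x ∈ 𝔫, e * x * e = 0)
    (W : ℕ → Module.End 𝕜 M) (b : ℕ → M →ₗ[𝕜] 𝕜) (hW0 : W 0 = 1)
    (hW : ∀ m, ((m + 1 : ℕ) : 𝕜) • W (m + 1) = -∑ j ∈ range (m + 1), W (m - j) * σ (b (j + 1)))
    (hb : ∀ m, b (m + 1) =
      ∑ i ∈ range (m + 1), ((i + 1 : ℕ) : 𝕜) • (ε ∘ₗ gl L (i + 1) ∘ₗ W (m - i))) (m : ℕ) :
    ∃ ξ ∈ 𝔫, b (m + 1) = ε ∘ₗ ξ := by
  obtain ⟨c, hc0, hc, hgc⟩ := gl_th_Birk 𝔫 hbr L fun e he =>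
    ⟨(hL e he).1, (hL e he).2.2.1, (hL e he).2.2.2⟩
  set g : PowerSeries (Module.End 𝕜 M) := PowerSeries.mk (gl L) with hg
  set Wp : PowerSeries (Module.End 𝕜 M) := PowerSeries.mk W with hWp
  set sg : PowerSeries (Module.End 𝕜 M) :=
    PowerSeries.X * PowerSeries.mk fun j => σ (b (j + 1)) with hsg
  have hsg0 : PowerSeries.coeff 0 sg = 0 := PowerSeries.coeff_zero_X_mul _
  have hsg1 : ∀ j, PowerSeries.coeff (j + 1) sg = σ (b (j + 1)) := fun j => by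
    rw [hsg, PowerSeries.coeff_succ_X_mul, PowerSeries.coeff_mk]
  have hW0' : PowerSeries.coeff 0 Wp = 1 := by rw [hWp, PowerSeries.coeff_mk, hW0]
  have hg0 : PowerSeries.coeff 0 g = 1 := by rw [hg, PowerSeries.coeff_mk, gl_zero_Birk]
  have hthW : thBirk Wp = -(Wp * sg) := by
    ext1 n
    rw [coeff_thBirk, map_neg]
    cases n with
    | zero => rw [zero_smul, coeff_zero_mul_Birk, hsg0, mul_zero, neg_zero]
    | succ n =>
      rw [hWp, PowerSeries.coeff_mk, ← Nat.cast_smul_eq_nsmul 𝕜, hW, PowerSeries.coeff_mul,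
        Finset.Nat.sum_antidiagonal_succ', hsg0, mul_zero, zero_add,
        ← Finset.Nat.sum_antidiagonal_swap, Finset.Nat.sum_antidiagonal_eq_sum_range_succ_mk]
      simp only [Prod.fst_swap, Prod.snd_swap, PowerSeries.coeff_mk, hsg1]
  have hu : PowerSeries.constantCoeff Wp = ((1 : (Module.End 𝕜 M)ˣ) : Module.End 𝕜 M) := by
    rw [← PowerSeries.coeff_zero_eq_constantCoeff_apply, hW0', Units.val_one]
  have hG1 := PowerSeries.mul_invOfUnit Wp 1 hu
  have hG2 := PowerSeries.invOfUnit_mul Wp 1 hu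
  have hG0 : PowerSeries.coeff 0 (PowerSeries.invOfUnit Wp 1) = 1 := by
    rw [PowerSeries.coeff_zero_eq_constantCoeff_apply, PowerSeries.constantCoeff_invOfUnit]
    simp
  generalize PowerSeries.invOfUnit Wp 1 = G at hG1 hG2 hG0
  have hthG : thBirk G = sg * G := by
    have h1 : thBirk (Wp * G) = 0 := by rw [hG1, thBirk_one]
    rw [thBirk_mul, hthW] at h1
    have h2 : G * (-(Wp * sg) * G + Wp * thBirk G) = 0 := by rw [h1, mul_zero]
    have h3 : G * (-(Wp * sg) * G + Wp * thBirk G) =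
        -((G * Wp) * sg * G) + (G * Wp) * thBirk G := by noncomm_ring
    rw [h3, hG2, one_mul, one_mul] at h2
    exact (neg_add_eq_zero.1 h2).symm
  have hWJ : ∀ k, W (k + 1) * J = W (k + 1) := fun k => by
    have h1 : ((k + 1 : ℕ) : 𝕜) • (W (k + 1) * J) = ((k + 1 : ℕ) : 𝕜) • W (k + 1) := by
      rw [← smul_mul_assoc, hW, neg_mul, sum_mul]
      simp only [mul_assoc, hσ]
    exact sub_eq_zero.1 (birk_cancel (⊥ : Submodule 𝕜 _) k
      (by rw [smul_sub, h1, sub_self]; exact zero_mem _))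
  have hgJ := gl_J_Birk J L fun e he => (hL e he).2.1
  have hbJ : ∀ k, b (k + 1) ∘ₗ J = b (k + 1) := fun k => by
    refine LinearMap.ext fun x => ?_
    rw [LinearMap.comp_apply, hb]
    simp only [LinearMap.coe_sum, Finset.sum_apply, LinearMap.smul_apply, LinearMap.comp_apply]
    refine sum_congr rfl fun i _ => ?_
    congr 2
    cases hk : k - i with
    | zero =>
      rw [hW0]
      exact LinearMap.congr_fun (hgJ i) x
    | succ r => exact congrArg _ (LinearMap.congr_fun (hWJ r) x)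
  have hb' : ∀ k x, b (k + 1) x = ε (PowerSeries.coeff (k + 1) (thBirk g * Wp) x) := fun k x => by
    rw [hb, PowerSeries.coeff_mul, Finset.Nat.sum_antidiagonal_succ, coeff_thBirk, zero_smul,
      zero_mul, zero_add, Finset.Nat.sum_antidiagonal_eq_sum_range_succ_mk]
    simp only [LinearMap.coe_sum, Finset.sum_apply, LinearMap.smul_apply, LinearMap.comp_apply,
      map_sum, coeff_thBirk, hg, hWp, PowerSeries.coeff_mk, Module.End.mul_apply,
      Nat.cast_smul_eq_nsmul, map_nsmul]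
  have hP0 : PowerSeries.coeff 0 (g * Wp) = 1 := by rw [coeff_zero_mul_Birk, hg0, hW0', mul_one]
  have hthP : thBirk (g * Wp) = thBirk g * Wp - g * Wp * sg := by
    rw [thBirk_mul, hthW]
    noncomm_ring
  have hεP : ∀ k x, ε (PowerSeries.coeff (k + 1) (g * Wp) x) = 0 := by
    intro k
    induction k using Nat.strong_induction_on with
    | _ k ih =>
      intro x
      have h1 := congrArg (fun f : PowerSeries (Module.End 𝕜 M) =>
        ε (PowerSeries.coeff (k + 1) f x)) hthP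
      simp only [coeff_thBirk, map_sub, LinearMap.sub_apply, LinearMap.smul_apply, map_nsmul] at h1
      rw [← hb', PowerSeries.coeff_mul (k + 1) (g * Wp) sg, Finset.Nat.sum_antidiagonal_succ,
        hP0, one_mul, hsg1] at h1
      have h2 : ε (σ (b (k + 1)) x) = b (k + 1) x := by
        have h3 := LinearMap.congr_fun (hε (b (k + 1))) x
        rw [hbJ] at h3
        exact h3
      have h4 : ε ((∑ p ∈ antidiagonal k, PowerSeries.coeff (p.1 + 1) (g * Wp) *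
          PowerSeries.coeff p.2 sg) x) = 0 := by
        simp only [LinearMap.coe_sum, Finset.sum_apply, map_sum, Module.End.mul_apply]
        refine sum_eq_zero fun p hp => ?_
        have h5 := mem_antidiagonal.1 hp
        by_cases h6 : p.2 = 0
        · rw [h6, hsg0]
          simp
        · exact ih _ (by omega) _
      rw [LinearMap.add_apply, map_add, h2, h4, add_zero, sub_self] at h1
      exact birk_zero k h1
  have hξ : thBirk g * Wp = g * Wp * (G * c * Wp) := by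
    have h1 : g * Wp * (G * c * Wp) = g * (Wp * G) * c * Wp := by noncomm_ring
    rw [h1, hG1, mul_one, hgc]
  have hbξ : ∀ k, b (k + 1) = ε ∘ₗ PowerSeries.coeff (k + 1) (G * c * Wp) := fun k => by
    refine LinearMap.ext fun x => ?_
    rw [hb', hξ, PowerSeries.coeff_mul (k + 1) (g * Wp), Finset.Nat.sum_antidiagonal_succ, hP0,
      one_mul, LinearMap.add_apply, map_add]
    simp only [LinearMap.coe_sum, Finset.sum_apply, map_sum, Module.End.mul_apply, hεP,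
      sum_const_zero, add_zero, LinearMap.comp_apply]
  obtain ⟨c', rfl⟩ : ∃ c', c = PowerSeries.X * c' :=
    ⟨_, by
      have h1 := PowerSeries.eq_X_mul_shift_add_const c
      rwa [← PowerSeries.coeff_zero_eq_constantCoeff_apply, hc0, map_zero, add_zero] at h1⟩
  have hc' : ∀ n, PowerSeries.coeff n c' ∈ 𝔫 := fun n => by
    have h1 := hc (n + 1)
    rwa [PowerSeries.coeff_succ_X_mul] at h1
  have hX : G * (PowerSeries.X * c') * Wp = PowerSeries.X * (G * c' * Wp) := by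
    rw [← mul_assoc G, ← PowerSeries.X_mul]
    simp only [mul_assoc]
  have hsgn : ∀ k, PowerSeries.coeff k sg ∈ 𝔫 := by
    intro k
    induction k using Nat.strong_induction_on with
    | _ k ih =>
      cases k with
      | zero =>
        rw [hsg0]
        exact 𝔫.zero_mem
      | succ k =>
        rw [hsg1, hbξ, hX, PowerSeries.coeff_succ_X_mul]
        exact hπ _ (conj_Birk 𝔫 hbr hG0 hW0' hsg0 hthG hthW k (fun j hj => ih j (by omega)) c' hc')
  have hξn : ∀ k, PowerSeries.coeff k (G * (PowerSeries.X * c') * Wp) ∈ 𝔫 := fun k =>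
    conj_Birk 𝔫 hbr hG0 hW0' hsg0 hthG hthW k (fun j _ => hsgn j) _ hc
  exact ⟨_, hξn (m + 1), hbξ m⟩

theorem bb_rel {U U' : Type} [AddCommGroup U] [Module 𝕜 U] [AddCommGroup U'] [Module 𝕜 U']
    {st : U → U → U} {st' : U' → U' → U'} {γ : ℕ → U} {γ' : ℕ → U'}
    (N : Submodule 𝕜 (U × U')) (hst : ∀ x ∈ N, ∀ y ∈ N, (st x.1 y.1, st' x.2 y.2) ∈ N)
    (hγ : ∀ j, (γ (j + 1), γ' (j + 1)) ∈ N) (m : ℕ) :
    (bb 𝕜 st γ m, bb 𝕜 st' γ' m) ∈ N := by
  rw [bb, bb, prod_mk_sum]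
  exact N.sum_mem fun i _ => N.smul_mem ((i + 1 : ℕ) : 𝕜) (WW_rel N hst hγ (m - i) (hγ i))

end Birk

variable {k n : ℕ} {E 𝕜 : Type} [Fintype E] [CommRing 𝕜] [IsDomain 𝕜] [Algebra ℚ 𝕜]
  (D : QD k n E 𝕜)

theorem gen_zero2 {S : Finset (Option (Fin n))} (h : (vd D).Van (Set.range some) S) (m : ℕ)
    (f : AA 𝕜 (Option (Fin n))) : cpt (bb 𝕜 (vd D).star (gam D ∅) m) S f = 0 := by
  apply WGen_io_inj D
  rw [map_zero]
  ext γ
  rw [HahnSeries.coeff_zero]
  obtain ⟨kk, hkk⟩ : ∃ kk : Fin n → ℤ, kk = fun a => ofLex γ a - 1 := ⟨_, rfl⟩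
  obtain ⟨L, hL⟩ : ∃ L, L = (List.finRange n).map fun a => (vd D).eM (some a) (kk a) := ⟨_, rfl⟩
  have hr := bb_rel (st := (vd D).star) (st' := (vd D).star) (γ := gam D ∅)
    (γ' := fun j => phi 𝕜 ∅ ∘ₗ gl L j) (WGen_rel D kk)
    (fun x hx y hy => (vd D).star_rl (WGen_mult D kk) hx hy)
    (fun j => hL ▸ WGen_rl D kk (empty_subset _) (j + 1)) m
  obtain ⟨hr1, hr2⟩ := hr S f
  by_contra hne
  have hγ : γ = expo 1 kk S := by
    funext i
    change ofLex γ i = if some i ∈ S then kk i + 1 else 0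
    split_ifs with hi
    · rw [hkk, sub_add_cancel]
    · exact link_mem_HS.1 hr1 γ hne i hi
  obtain ⟨W, hW0, hW, hWW⟩ := exists_W (vd D).sigL (vd D).star (vd D).comp_sig
    fun j => phi 𝕜 ∅ ∘ₗ gl L j
  obtain ⟨h1, h2, h3, h5, h6⟩ := (vd D).lieN_props (Set.range some)
  obtain ⟨ξ, hξ, hB⟩ := birk2 (phi 𝕜 ∅) (vd D).sigL (JK 𝕜) (vd D).phi_sig ((vd D).sig_JK (-1))
    ((vd D).lieN (Set.range some)) h1 h3 L (by
      intro e he
      rw [hL] at he
      obtain ⟨a, -, rfl⟩ := List.mem_map.1 he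
      refine ⟨h2 _ ⟨a, rfl⟩ _, ?_, h6 _ _ _, fun x hx => h5 x hx _ _ _⟩
      rw [← (vd D).sig_phi, (vd D).sig_JK]) W
    (fun m => bb 𝕜 (vd D).star (fun j => phi 𝕜 ∅ ∘ₗ gl L j) (m - 1)) hW0 hW (fun m => by
      simp only [Nat.add_sub_cancel, bb, hWW, LinearMap.comp_assoc]) m
  rw [Nat.add_sub_cancel] at hB
  refine hne ?_
  rw [hγ]
  refine hr2.symm.trans ?_
  change cpt (bb 𝕜 (vd D).star (fun j => phi 𝕜 ∅ ∘ₗ gl L j) m) S f = 0
  rw [hB]
  exact h ξ hξ f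

theorem tw_zero2 (hl : D.LG) {S : Finset (Option (Fin n))} (h : (vd D).Van (Set.range some) S)
    (m : ℕ) (f : AA 𝕜 (Option (Fin n))) : cpt (bb 𝕜 (vd D).star (twG D hl ∅) m) S f = 0 := by
  let N : Submodule 𝕜 ((MM 𝕜 (Option (Fin n)) →ₗ[𝕜] (TG D)) × (MM 𝕜 (Option (Fin n)) →ₗ[𝕜] TF n 𝕜)) :=
    { carrier := {x | (twM D hl).Rl x.1 x.2}
      add_mem' := fun {x y} hx hy S f => ⟨add_mem (hx S f).1 (hy S f).1,
        (congrArg₂ (· + ·) (hx S f).2 (hy S f).2).trans (map_add _ _ _).symm⟩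
      zero_mem' := fun S f => ⟨zero_mem _, (map_zero _).symm⟩
      smul_mem' := fun c x hx S f => ⟨Submodule.smul_mem _ c (hx S f).1,
        (congrArg (c • ·) (hx S f).2).trans (map_smul _ _ _).symm⟩ }
  have h2 : (twM D hl).Rl _ _ := bb_rel (γ := gam D ∅) (γ' := twG D hl ∅) N
    (fun x hx y hy => (vd D).star_rl (twM D hl) hx hy) (fun j => twG_rl D hl ∅ _) m
  have h3 := (h2 S f).2
  rw [gen_zero2 D h m f, map_zero] at h3
  exact h3

/-- the ring of the negative monopole operators -/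
def NB : Subring (TF n 𝕜) := Subring.closure {z | ∃ U p, z = mon0 D (-ind U) p}

/-- products of two nontrivial negative monopole operators -/
def sNN : Set (TF n 𝕜) := {x | ∃ (U : Finset (Fin n)) (p : Pol n 𝕜) (U' : Finset (Fin n))
  (p' : Pol n 𝕜) (y : TF n 𝕜), U.Nonempty ∧ U'.Nonempty ∧ y ∈ NB D ∧
    x = mon0 D (-ind U) p * (mon0 D (-ind U') p' * y)}

theorem negsq_kl (hl : D.LG) (hh : D.h = 0) {S : Finset (Fin n)} (hS : S.Nonempty)
    (h : (vd D).Van (Set.range some) (S.image some)) (g : Pol n 𝕜) :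
    mon0 D (-ind S) (kl 𝕜 S g) ∈ Submodule.span 𝕜 (sNN D) := by
  set sN : Set (TF n 𝕜) := {x | ∃ (S : Finset (Fin n)) (g : Pol n 𝕜) (y : TF n 𝕜),
    S.Nonempty ∧ y ∈ NB D ∧ x = mon0 D (-ind S) g * y} with hsN
  have mB : ∀ U p, mon0 D (-ind U) p ∈ NB D := fun U p => Subring.subset_closure ⟨U, p, rfl⟩
  have key : ∀ {s t u : Set (TF n 𝕜)}, (∀ x ∈ s, ∀ y ∈ t, x * y ∈ u) → ∀ x ∈ Submodule.span 𝕜 s,
      ∀ y ∈ Submodule.span 𝕜 t, x * y ∈ Submodule.span 𝕜 u := fun h x hx y hy => by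
    have := Submodule.mul_mem_mul hx hy
    rw [Submodule.span_mul_span] at this
    exact Submodule.span_mono (Set.mul_subset_iff.2 h) this
  have k1 := key (s := sN) (t := sN) (u := sN) (by
    rintro _ ⟨S, g, y, h1, h2, rfl⟩ _ ⟨S', g', y', -, h4, rfl⟩
    exact ⟨S, g, _, h1, mul_mem h2 (mul_mem (mB S' g') h4), mul_assoc _ _ _⟩)
  have k3 := key (s := sN) (t := sN) (u := sNN D) (by
    rintro _ ⟨S, g, y, h1, h2, rfl⟩ _ ⟨S', g', y', h3, h4, rfl⟩
    exact ⟨S, g, S', g', _, h1, h3, mul_mem h2 h4, by ring⟩)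
  have k0 : ∀ j, twG D hl ∅ (j + 1) ∈ twF (Submodule.span 𝕜 sN) := fun j F => by
    rw [twG_apply]
    refine sum_mem fun S hS => ?_
    obtain ⟨h1, h2⟩ := (mem_filter.1 hS).2
    obtain ⟨c, -, h⟩ := tw_val D hl hh S
    obtain ⟨b, hb⟩ := card_pos.1 (h2.symm ▸ j.succ_pos : 0 < (S.erase none).card)
    obtain ⟨a, rfl⟩ := Option.ne_none_iff_exists'.1 (ne_of_mem_erase hb)
    rw [(h _).1 fun h0 => notMem_empty none (h1 ▸ mem_inter.2 ⟨h0, mem_singleton_self _⟩)]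
    exact Submodule.smul_mem _ _ (Submodule.subset_span ⟨_, _, 1,
      ⟨a, mem_twX.2 (mem_of_mem_erase hb)⟩, one_mem _, (mul_one _).symm⟩)
  have k4 : ∀ m j, WW 𝕜 (vd D).star (twG D hl ∅) (m + 1) (twG D hl ∅ (j + 1)) ∈
      twF (Submodule.span 𝕜 (sNN D)) := fun m j =>
    WW_val (twF (Submodule.span 𝕜 sN)) (twF (Submodule.span 𝕜 sN)) _ (twF_star D k1)
      (fun x hx y hy => ⟨twF_star D k1 x hx y hy, twF_star D k3 x hx y hy⟩) k0 m (k0 j)
  obtain ⟨m, hm⟩ : ∃ m, S.card = m + 1 := ⟨S.card - 1, by have := card_pos.2 hS; omega⟩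
  have h0 := tw_zero2 D hl h m (rename some g)
  rw [bb, sum_range_succ, Nat.sub_self, WW_zero] at h0
  have h0' : (∑ i ∈ range m, ((i + 1 : ℕ) : 𝕜) • WW 𝕜 (vd D).star (twG D hl ∅) (m - i)
      (twG D hl ∅ (i + 1))) (Pi.single (S.image some) (rename some g)) +
      ((m + 1 : ℕ) : 𝕜) • cpt (twG D hl ∅ (m + 1)) (S.image some) (rename some g) = 0 := h0
  have h1 : ((m + 1 : ℕ) : 𝕜) • cpt (twG D hl ∅ (m + 1)) (S.image some) (rename some g) ∈
      Submodule.span 𝕜 (sNN D) := by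
    rw [eq_neg_of_add_eq_zero_right h0']
    refine neg_mem ?_
    refine (show _ ∈ twF (Submodule.span 𝕜 (sNN D)) from sum_mem fun j hj => ?_) _
    rw [show m - j = m - j - 1 + 1 by have := mem_range.1 hj; omega]
    exact Submodule.smul_mem _ _ (k4 _ _)
  obtain ⟨c, hc, hv⟩ := tw_val D hl hh (S.image some)
  have hn : none ∉ S.image some := by simp
  have e1 : twX (S.image some) = S := by ext a; simp [mem_twX]
  have e2 : twZ 𝕜 (S.image some) (rename some g) = kl 𝕜 S g := by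
    rw [twZ, aeval_rename, kl]
    congr 2
    funext a
    by_cases ha : a ∈ S <;> simp [ha]
  rwa [cpt_twG, if_pos ⟨by ext b; cases b <;> simp, by
      rw [erase_eq_of_notMem hn, card_image_of_injective _ (Option.some_injective _), hm]⟩,
    (hv _).1 hn, e1, e2, Submodule.smul_mem_iff_of_isUnit _ (tw_unit (Nat.succ_ne_zero m)),
    Submodule.smul_mem_iff_of_isUnit _ hc] at h1

/-- the monopole operator as a linear map of the polynomial -/
def ZB_mon (μ : Fin n → ℤ) : Pol n 𝕜 →ₗ[𝕜] TF n 𝕜 where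
  toFun := mon0 D μ
  map_add' f g := by
    simp only [mon0, map_add, add_mul, AddMonoidAlgebra.single_add, sum_add_distrib]
  map_smul' c g := (smul_mon0 D c μ g).symm

theorem ZB_mon_apply (μ : Fin n → ℤ) (g : Pol n 𝕜) : ZB_mon D μ g = mon0 D μ g := rfl

theorem ZB_mul {f : Pol n 𝕜} (hf : f ∈ Inv 𝕜 D.col) (μ : Fin n → ℤ) (g : Pol n 𝕜) :
    mon0 D μ (f * g) =
      (AddMonoidAlgebra.single 0 (algebraMap _ (K0 n 𝕜) f) : TF n 𝕜) * mon0 D μ g := by
  rw [mon0, mon0, mul_sum]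
  refine sum_congr rfl fun w _ => ?_
  rw [AddMonoidAlgebra.single_mul_single, zero_add, map_mul, hf w.1 w.2, map_mul, mul_assoc]

theorem ZB_zero {f : Pol n 𝕜} (hf : f ∈ Inv 𝕜 D.col) :
    mon0 D 0 f = (Fintype.card (stab D.col) : 𝕜) •
      (AddMonoidAlgebra.single 0 (algebraMap _ (K0 n 𝕜) f) : TF n 𝕜) := by
  rw [Nat.cast_smul_eq_nsmul, ← card_univ, ← sum_const]
  refine sum_congr rfl fun w _ => ?_
  rw [hf w.1 w.2, show (0 : Fin n → ℤ) ∘ w.1.symm = 0 from rfl, c0, QD.mm_zero, QD.ee_zero, map_one,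
    div_one, mul_one]

theorem ZB_NB {y x : TF n 𝕜} (hy : y ∈ NB D) (hx : x ∈ Submodule.span 𝕜 (sNN D)) :
    y * x ∈ Submodule.span 𝕜 (sNN D) := by
  induction hx using Submodule.span_induction with
  | mem x hx =>
    obtain ⟨U, p, U', p', z, h1, h2, h3, rfl⟩ := hx
    exact Submodule.subset_span ⟨U, p, U', p', y * z, h1, h2, mul_mem hy h3, by ring⟩
  | zero => rw [mul_zero]; exact zero_mem _
  | add x x' _ _ h h' => rw [mul_add]; exact add_mem h h'
  | smul c x _ h => rw [mul_smul_comm]; exact Submodule.smul_mem _ _ h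

theorem ZB_rename {μ : Fin n → ℤ} (w : stab D.col) (hw : ∀ a, μ (w.1 a) = μ a) (g : Pol n 𝕜) :
    mon0 D μ (rename w.1 g) = mon0 D μ g := by
  rw [mon0, mon0, ← Equiv.sum_comp (Equiv.mulRight w) fun u : stab D.col =>
    (AddMonoidAlgebra.single (μ ∘ u.1.symm)
      (algebraMap _ (K0 n 𝕜) (rename u.1 g) * c0 D (μ ∘ u.1.symm)) : TF n 𝕜)]
  refine sum_congr rfl fun u _ => ?_
  have e : μ ∘ (Equiv.mulRight w u).1.symm = μ ∘ u.1.symm := by
    funext a
    change μ (w.1.symm (u.1.symm a)) = μ (u.1.symm a)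
    rw [← hw, Equiv.apply_symm_apply]
  rw [e, rename_rename]
  rfl

theorem negsq (hl : D.LG) (hh : D.h = 0) {S : Finset (Fin n)} (hS : S.Nonempty)
    (h : (vd D).Van (Set.range some) (S.image some)) (g : Pol n 𝕜) :
    mon0 D (-ind S) g ∈ AddSubgroup.closure (sNN D) := by
  have h1 : mon0 D (-ind S) g ∈ Submodule.span 𝕜 (sNN D) := by
    refine all_of_supp D.col S ((Submodule.span 𝕜 (sNN D)).comap (ZB_mon D (-ind S))) ?_
      (fun g => negsq_kl D hl hh hS h g) ?_ g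
    · intro f hf g hg
      rw [Submodule.mem_comap, ZB_mon_apply] at hg ⊢
      rw [ZB_mul D hf, ← Submodule.smul_mem_iff_of_isUnit _
        (tw_unit (Fintype.card_ne_zero (α := stab D.col))), ← smul_mul_assoc, ← ZB_zero D hf]
      exact ZB_NB D (Subring.subset_closure ⟨∅, f, congrArg (fun μ => mon0 D μ f)
        (funext fun a => by simp [ind])⟩) hg
    · intro g w hw
      rw [Submodule.mem_comap, map_sub, ZB_mon_apply, ZB_mon_apply,
        ZB_rename D ⟨w, fun a => congrArg Prod.fst (hw a)⟩ (fun a => by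
          have := congrArg Prod.snd (hw a)
          exact congrArg Neg.neg this), sub_self]
      exact zero_mem _
  rw [← Submodule.mem_toAddSubmonoid, Submodule.span_eq_closure] at h1
  refine (AddSubmonoid.closure_le (S := (AddSubgroup.closure (sNN D)).toAddSubmonoid)).2 ?_ h1
  rintro _ ⟨c, -, _, ⟨U, p, U', p', y, h1, h2, h3, rfl⟩, rfl⟩
  exact AddSubgroup.subset_closure ⟨U, c • p, U', p', y, h1, h2, h3, by
    rw [← smul_mon0, smul_mul_assoc]⟩

end Pool.Agent.Work.MP_849ab0_ag.W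
end
end
end

-- merged part: Pool.Agent.Work.MP_849ab0_ag.ZLift
section
/-! Lifting decomposability from `ħ = 0`. -/

noncomputable section

set_option linter.unusedSectionVars false

namespace Pool.Agent.Work.MP_849ab0_ag

open MvPolynomial Finset
open scoped Polynomial

namespace QD

variable {k n : ℕ} {E R : Type} [Fintype E] [CommRing R] [IsDomain R] [Algebra ℚ R]
  (D : QD k n E R)

/-- products starting with a smaller operator of nonpositive degree -/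
def PS (ν : Fin k → ℤ) (N : ℕ) : AddSubgroup (D.Op D.Om) := AddSubgroup.closure
  {x | ∃ (U : Finset (Fin n)) (p : Pol n R) (y : D.Op D.Om), U.Nonempty ∧ U.card < N ∧
    0 ≤ D.dg ν (ind U) ∧ y ∈ D.Alg D.Om ∧ x = D.mon D.Om (-ind U) p * y}

theorem PS_C {ν : Fin k → ℤ} {N : ℕ} (c : R) {x : D.Op D.Om} (hx : x ∈ D.PS ν N) :
    D.cst D.Om (C c) * x ∈ D.PS ν N := by
  induction hx using AddSubgroup.closure_induction with
  | mem x hx =>
    obtain ⟨U, p, y, h1, h2, h3, h4, rfl⟩ := hx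
    rw [← mul_assoc, cst_C_mul_mon]
    exact AddSubgroup.subset_closure ⟨U, _, y, h1, h2, h3, h4, rfl⟩
  | zero => rw [mul_zero]; exact zero_mem _
  | add y z _ _ hy hz => rw [mul_add]; exact add_mem hy hz
  | neg y _ hy => rw [mul_neg]; exact neg_mem hy

/-- the supports that occur -/
def TS (ρ : Fin k → ℤ) (S : Finset (Fin n)) (μ : Fin n → ℤ) : Prop :=
  (∀ a, μ a ≤ 0) ∧ D.dg 1 μ = -S.card ∧ D.dg ρ μ = D.dg ρ (-ind S)

theorem zlift_card (S : Finset (Fin n)) : D.dg 1 (ind S) = S.card := by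
  rw [dg_ind]; simp

theorem zlift_le (S : Finset (Fin n)) (a : Fin n) : (-ind S) a ≤ 0 := by
  simp only [Pi.neg_apply, ind]
  split_ifs <;> simp

theorem zlift_np {μ : Fin n → ℤ} (h : ∀ a, μ a ≤ 0) : D.dg 1 μ ≤ 0 :=
  sum_nonpos fun a _ => by simpa using h a

theorem zlift_level {ν : Fin k → ℤ} {l : Fin n → ℤ} (hl : ∀ a, l a ≤ 0) (h0 : D.dg ν l = 0)
    {b : Fin n} (hb : l b < 0) : ∃ j : ℤ, 1 ≤ j ∧ (univ.filter fun a => j ≤ -l a).Nonempty ∧
      0 ≤ D.dg ν (ind (univ.filter fun a => j ≤ -l a)) := by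
  by_contra hcon
  push Not at hcon
  have h1 := level_sum (ν ∘ D.col) l _ (JK_abs_le l)
  have h2 : ∑ a, (ν ∘ D.col) a * l a = 0 := h0
  have h3 : ∀ j : ℤ, 1 ≤ j → ∑ a with j ≤ l a, (ν ∘ D.col) a = 0 := fun j hj =>
    sum_eq_zero fun a ha => by
      have := (mem_filter.1 ha).2
      have := hl a
      omega
  have h4 : ∀ j : ℤ, ∑ a with j ≤ -l a, (ν ∘ D.col) a =
      D.dg ν (ind (univ.filter fun a => j ≤ -l a)) := fun j => (D.dg_ind ν _).symm
  rw [h2] at h1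
  refine absurd h1 (ne_of_lt (sum_pos' (fun j hj => ?_) ⟨1, mem_Icc.2 ⟨le_rfl, ?_⟩, ?_⟩))
  · have hj1 := (mem_Icc.1 hj).1
    rw [h3 j hj1, h4]
    rcases (univ.filter fun a => j ≤ -l a).eq_empty_or_nonempty with e | e
    · rw [e, dg_ind, sum_empty, sub_zero]
    · have := hcon j hj1 e
      omega
  · have := JK_abs_le l b
    have := neg_le_abs (l b)
    omega
  · rw [h3 1 le_rfl, h4]
    have := hcon 1 le_rfl ⟨b, mem_filter.2 ⟨mem_univ _, by omega⟩⟩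
    omega

theorem ex_orbit {ν ρ : Fin k → ℤ} {S : Finset (Fin n)} (h0 : D.dg ν (ind S) = 0)
    (hρ : ∀ μ, D.TS ρ S μ → ∀ ν', D.dg ν' μ = D.dg ν' (-ind S)) {l : Fin n → ℤ}
    (hT : D.TS ρ S l) (hd : Dom D.col l) {g : Pol n R} (hg : g ∈ Inv R fun a => (D.col a, l a)) :
    ∃ r ∈ D.Alg D.Om, (∀ μ, D.co r μ ≠ 0 → D.TS ρ S μ) ∧ D.Lead r l (D.al g * D.cc l) ∧
      ∃ g', r - D.mon D.Om (-ind S) g' ∈ D.PS ν S.card := by
  by_cases hA : ∀ a, l a = 0 ∨ l a = -1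
  · have e1 : l = -ind (univ.filter fun a => l a = -1) := by
      funext a
      simp only [Pi.neg_apply, ind, mem_filter, mem_univ, true_and]
      split_ifs with h
      · exact h
      · exact (hA a).resolve_right h
    have hc : ∀ (U : Finset (Fin n)) (i : Fin k), D.dg (Pi.single i 1) (ind U) =
        (U.filter fun a => D.col a = i).card := by
      intro U i
      rw [dg_ind, card_filter]
      push_cast
      exact sum_congr rfl fun a _ => by rw [Pi.single_apply]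
    obtain ⟨w, hw⟩ := exists_conj D.col (S := S) (S' := univ.filter fun a => l a = -1) fun i => by
      have h1 := hρ l hT (Pi.single i 1)
      rw [e1, dg_neg, dg_neg, hc, hc] at h1
      omega
    obtain ⟨g1, hg1⟩ := D.lead_mon hd hg
    have e2 : l = (-ind S) ∘ w.1.symm := by
      rw [e1, hw]
      rfl
    refine ⟨D.mon D.Om l g1, D.mon_mem (Or.inr hA) g1, fun μ hμ => ?_, hg1,
      rename w.1.symm g1, ?_⟩
    · obtain ⟨u, rfl⟩ := D.co_mon_ne hμ
      exact ⟨fun a => hT.1 _, (D.dg_perm 1 l u).trans hT.2.1, (D.dg_perm ρ l u).trans hT.2.2⟩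
    · rw [← D.mon_rename (-ind S) _ w, ← e2, rename_rename, Equiv.self_comp_symm, rename_id_apply,
        sub_self]
      exact zero_mem _
  · push Not at hA
    obtain ⟨b, hb0, hb1⟩ := hA
    have hb2 := hT.1 b
    have h1 : D.dg ν l = 0 := by rw [hρ l hT ν, dg_neg, h0, neg_zero]
    obtain ⟨j, hj, hne, hpos⟩ := D.zlift_level hT.1 h1 (b := b) (by omega)
    obtain ⟨U, hU⟩ : ∃ U, U = univ.filter fun a => j ≤ -l a := ⟨_, rfl⟩
    rw [← hU] at hne hpos
    have hm : ∀ a, a ∈ U ↔ j ≤ -l a := fun a => by simp [hU]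
    have hle : ∀ a, ind U a ≤ -l a := fun a => by
      have := hT.1 a
      have := hm a
      simp only [ind]
      split_ifs with h
      · have := (hm a).1 h
        omega
      · omega
    have hcard : U.card < S.card := by
      have h2 : D.dg 1 (ind U) < D.dg 1 (-l) := by
        refine sum_lt_sum (fun a _ => by simpa using hle a) ⟨b, mem_univ _, ?_⟩
        simp only [Pi.one_apply, one_mul, Pi.neg_apply, ind]
        split_ifs <;> omega
      rw [zlift_card, dg_neg, hT.2.1] at h2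
      omega
    obtain ⟨r, hr, hr'⟩ := D.ex_level ρ l hd (s := -1) (Or.inr rfl) hj (-ind U) (fun a => by
      simp only [Pi.neg_apply, ind, hm, neg_one_mul]
      split_ifs <;> simp) 0 le_rfl (fun a => by
        have := hle a
        simp only [Pi.sub_apply, Pi.neg_apply]
        omega) g hg
    have h3 : r ∈ D.lift2S (D.TS ρ S) ⊓ D.PS ν S.card := by
      refine (AddSubgroup.closure_le _).2 ?_ hr
      rintro _ ⟨g', a, a1, a2, a3, a4, rfl⟩
      refine ⟨⟨mul_mem (D.mon_mem (neg_ind_min U) g') a1, fun μ hμ => ⟨?_, ?_, ?_⟩⟩,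
        AddSubgroup.subset_closure ⟨U, g', a, hne, hcard, hpos, a1, rfl⟩⟩
      · exact (D.le_mon (K := D.Om) (zlift_le U) g').mul D a4 μ hμ
      · exact (D.hom_iff.1 (D.dec2_hom 1 l _ g' a3) μ hμ).trans hT.2.1
      · exact (D.hom_iff.1 (D.dec2_hom ρ l _ g' a2) μ hμ).trans hT.2.2
    refine ⟨r, h3.1.1, h3.1.2, hr', 0, ?_⟩
    rw [mon_nil, sub_zero]
    exact h3.2

/-- operators whose part in the degree of `S` is decomposable -/
def zliftQ (ν ρ : Fin k → ℤ) (S : Finset (Fin n)) : AddSubgroup (D.Op D.Om) :=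
  D.lift2S (fun μ => ∀ a, μ a ≤ 0) ⊓
    (D.PS ν S.card).comap ((D.cmp ρ (D.dg ρ (-ind S))).comp (D.cmp 1 (-S.card)))

theorem zlift_Q1 {ν : Fin k → ℤ} (ρ : Fin k → ℤ) (S : Finset (Fin n)) {U : Finset (Fin n)}
    (hU : U.Nonempty) (h1 : 0 ≤ D.dg ν (ind U)) (p : Pol n R) {x : D.Op D.Om}
    (hx : x ∈ D.lift2S fun μ => (∀ a, μ a ≤ 0) ∧ D.dg 1 μ ≤ -1) :
    D.mon D.Om (-ind U) p * x ∈ D.zliftQ ν ρ S := by
  refine ⟨D.lift2_mul (D.lift2_neg U p ν) hx fun μ μ' h h' a => add_nonpos (h.1 a) (h'.1 a), ?_⟩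
  change D.cmp ρ _ (D.cmp 1 _ _) ∈ D.PS ν S.card
  rw [D.cmp_mul (D.hom_mon 1 _ p), D.cmp_mul (D.hom_mon ρ _ p)]
  by_cases hc : U.card < S.card
  · exact AddSubgroup.subset_closure ⟨U, p, _, hU, hc, h1, D.cmp_mem ρ (D.cmp_mem 1 hx.1 _) _, rfl⟩
  · have h2 : D.cmp 1 (-S.card - D.dg 1 (-ind U)) x = 0 := D.op_ext fun μ => by
      rw [co_cmp, co_zero]
      split_ifs with e
      · by_contra e'
        have := (hx.2 μ e').2
        rw [dg_neg, zlift_card] at e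
        omega
      · rfl
    rw [h2, map_zero, mul_zero]
    exact zero_mem _

theorem zlift_Q2 {ν ρ : Fin k → ℤ} {S : Finset (Fin n)} (h0 : D.dg ν (ind S) = 0)
    (hρ : ∀ μ, D.TS ρ S μ → ∀ ν', D.dg ν' μ = D.dg ν' (-ind S)) {x : D.Op D.Om}
    (hx : x ∈ D.lift2S fun μ => (∀ a, μ a ≤ 0) ∧ 0 < D.dg ν μ) : x ∈ D.zliftQ ν ρ S := by
  refine ⟨⟨hx.1, fun μ h => (hx.2 μ h).1⟩, ?_⟩
  change D.cmp ρ _ (D.cmp 1 _ _) ∈ D.PS ν S.card
  have h2 : D.cmp ρ (D.dg ρ (-ind S)) (D.cmp 1 (-S.card) x) = 0 := D.op_ext fun μ => by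
    rw [co_cmp, co_cmp, co_zero]
    split_ifs with e1 e2
    · by_contra e
      have h1 := hρ μ ⟨(hx.2 μ e).1, e2, e1⟩ ν
      have := (hx.2 μ e).2
      rw [dg_neg] at h1
      omega
    · rfl
    · rfl
  rw [h2]
  exact zero_mem _

section Origin

variable {R' : Type} [CommRing R'] [IsDomain R'] [Algebra ℚ R'] (χ : R →+* R') (hh0 : χ D.h = 0)

/-- elements whose products with the negative operators lift -/
def zliftN (ν ρ : Fin k → ℤ) (S : Finset (Fin n)) : AddSubgroup (W.TF n R') where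
  carrier := {y | ∀ x ∈ D.lift2S fun μ => (∀ a, μ a ≤ 0) ∧ D.dg 1 μ ≤ -1,
    y * D.lift2sp χ hh0 x ∈ (D.zliftQ ν ρ S).map (D.lift2sp χ hh0).toAddMonoidHom}
  zero_mem' x _ := by rw [zero_mul]; exact zero_mem _
  add_mem' hy hz x hx := by rw [add_mul]; exact add_mem (hy x hx) (hz x hx)
  neg_mem' hy x hx := lift2_cast (neg_mem (hy x hx)) (by ring)

theorem zliftN_mul {ν ρ : Fin k → ℤ} {S : Finset (Fin n)} {y : W.TF n R'}
    (hy : y ∈ D.zliftN χ hh0 ν ρ S) {x : D.Op D.Om} (hx : x ∈ D.lift2S fun μ => ∀ a, μ a ≤ 0) :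
    y * D.lift2sp χ hh0 x ∈ D.zliftN χ hh0 ν ρ S := fun x' hx' => by
  rw [mul_assoc, ← map_mul]
  refine hy _ (D.lift2_mul hx hx' fun μ μ' h h' => ⟨fun a => add_nonpos (h a) (h'.1 a), ?_⟩)
  have := D.zlift_np h
  have := h'.2
  rw [dg_add]
  omega

theorem zlift_NB (s : R' →+* R) (hs : ∀ c, χ (s c) = c) (ν ρ : Fin k → ℤ) (S : Finset (Fin n))
    {y : W.TF n R'} (hy : y ∈ W.NB (D.map χ)) :
    ∃ x ∈ D.lift2S fun μ => ∀ a, μ a ≤ 0, ∃ z ∈ D.lift2S fun μ => (∀ a, μ a ≤ 0) ∧ 0 ≤ D.dg ν μ,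
      D.lift2sp χ hh0 x = y ∧ y - D.lift2sp χ hh0 z ∈ D.zliftN χ hh0 ν ρ S := by
  induction hy using Subring.closure_induction with
  | mem y hy =>
    obtain ⟨U, p, rfl⟩ := hy
    have h := D.lift2_neg U (MvPolynomial.map s p) ν
    have e : D.lift2sp χ hh0 (D.mon D.Om (-ind U) (MvPolynomial.map s p)) =
        W.mon0 (D.map χ) (-ind U) p := by rw [lift2sp_mon, map_map_sec χ s hs]
    refine ⟨_, ⟨h.1, fun μ e => (h.2 μ e).1⟩, ?_⟩
    by_cases hU : 0 < D.dg ν (ind U)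
    · have hne : U.Nonempty := by
        rcases U.eq_empty_or_nonempty with e1 | e1
        · rw [e1, dg_ind, sum_empty] at hU
          exact absurd hU (lt_irrefl _)
        · exact e1
      refine ⟨0, zero_mem _, e, fun x hx =>
        ⟨_, D.zlift_Q1 ρ S hne hU.le (MvPolynomial.map s p) hx, ?_⟩⟩
      rw [map_zero, sub_zero, ← e]
      exact map_mul (D.lift2sp χ hh0) _ _
    · refine ⟨_, ⟨h.1, fun μ e => ⟨(h.2 μ e).1, ?_⟩⟩, e, ?_⟩
      · rw [(h.2 μ e).2.1]; omega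
      · rw [e, sub_self]; exact zero_mem _
  | zero => exact ⟨0, zero_mem _, 0, zero_mem _, map_zero _, by simp⟩
  | one => exact ⟨1, D.lift2_one fun _ => le_rfl, 1, D.lift2_one ⟨fun _ => le_rfl, by simp [dg]⟩,
      map_one _, by simp⟩
  | add y z _ _ hy hz =>
    obtain ⟨x, h1, z, h2, rfl, h3⟩ := hy
    obtain ⟨x', k1, z', k2, rfl, k3⟩ := hz
    refine ⟨x + x', add_mem h1 k1, z + z', add_mem h2 k2, map_add _ _ _, ?_⟩
    rw [map_add, add_sub_add_comm]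
    exact add_mem h3 k3
  | neg y _ hy =>
    obtain ⟨x, h1, z, h2, rfl, h3⟩ := hy
    refine ⟨-x, neg_mem h1, -z, neg_mem h2, map_neg _ _, ?_⟩
    rw [map_neg, ← neg_sub']
    exact neg_mem h3
  | mul y z _ _ hy hz =>
    obtain ⟨x, h1, z, h2, rfl, h3⟩ := hy
    obtain ⟨x', k1, z', k2, rfl, k3⟩ := hz
    refine ⟨x * x', D.lift2_mul h1 k1 fun μ μ' h h' a => add_nonpos (h a) (h' a), z * z',
      D.lift2_mul h2 k2 fun μ μ' h h' => ⟨fun a => add_nonpos (h.1 a) (h'.1 a), ?_⟩,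
      map_mul _ _ _, ?_⟩
    · rw [dg_add]; exact add_nonneg h.2 h'.2
    · have := add_mem (D.zliftN_mul χ hh0 h3 k1)
        (D.zliftN_mul χ hh0 k3 (x := z) ⟨h2.1, fun μ h => (h2.2 μ h).1⟩)
      rw [map_mul]
      exact lift2_cast this (by ring)

theorem zlift_sq (s : R' →+* R) (hs : ∀ c, χ (s c) = c) {ν ρ : Fin k → ℤ} {S : Finset (Fin n)}
    (h0 : D.dg ν (ind S) = 0) (hρ : ∀ μ, D.TS ρ S μ → ∀ ν', D.dg ν' μ = D.dg ν' (-ind S))
    {y : W.TF n R'} (hy : y ∈ AddSubgroup.closure (W.sNN (D.map χ))) :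
    ∃ x ∈ D.Alg D.Om, D.Le 0 x ∧ D.lift2sp χ hh0 x = y ∧
      D.cmp ρ (D.dg ρ (-ind S)) (D.cmp 1 (-S.card) x) ∈ D.PS ν S.card := by
  have hm : ∀ μ p, W.mon0 (D.map χ) μ p = D.lift2sp χ hh0 (D.mon D.Om μ (MvPolynomial.map s p)) :=
    fun μ p => by rw [lift2sp_mon, map_map_sec χ s hs]
  have hneg : ∀ (U : Finset (Fin n)) (p : Pol n R), U.Nonempty → ∀ x ∈ D.lift2S
      fun μ => ∀ a, μ a ≤ 0, D.mon D.Om (-ind U) p * x ∈
        D.lift2S fun μ => (∀ a, μ a ≤ 0) ∧ D.dg 1 μ ≤ -1 := by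
    intro U p hU x hx
    refine D.lift2_mul (D.lift2_neg U p ν) hx fun μ μ' h h' =>
      ⟨fun a => add_nonpos (h.1 a) (h' a), ?_⟩
    have := D.dg_ind_pos (ν := 1) (fun _ => one_pos) hU
    have := D.zlift_np h'
    rw [dg_add, h.2.2]
    omega
  obtain ⟨x, hx, hx'⟩ : y ∈ (D.zliftQ ν ρ S).map (D.lift2sp χ hh0).toAddMonoidHom := by
    refine (AddSubgroup.closure_le _).2 ?_ hy
    rintro _ ⟨U, p, U', p', y, hU, hU', hy, rfl⟩
    obtain ⟨x, h1, z, h2, rfl, h3⟩ := D.zlift_NB χ hh0 s hs ν ρ S hy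
    rw [hm, hm]
    by_cases c1 : 0 ≤ D.dg ν (ind U)
    · refine ⟨_, D.zlift_Q1 ρ S hU c1 (MvPolynomial.map s p)
        (hneg U' (MvPolynomial.map s p') hU' x h1), ?_⟩
      rw [RingHom.toAddMonoidHom_eq_coe, AddMonoidHom.coe_coe, map_mul, map_mul]
    by_cases c2 : 0 ≤ D.dg ν (ind U')
    · refine ⟨_, D.zlift_Q1 ρ S hU' c2 (MvPolynomial.map s p')
        (hneg U (MvPolynomial.map s p) hU x h1), ?_⟩
      rw [RingHom.toAddMonoidHom_eq_coe, AddMonoidHom.coe_coe, map_mul, map_mul, mul_left_comm]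
    have k1 := D.lift2_neg U (MvPolynomial.map s p) ν
    have k2 := D.lift2_neg U' (MvPolynomial.map s p') ν
    have h4 := h3 _ (hneg U (MvPolynomial.map s p) hU _ ⟨k2.1, fun μ h => (k2.2 μ h).1⟩)
    have h5 : D.mon D.Om (-ind U') (MvPolynomial.map s p') * z ∈
        D.lift2S fun μ => (∀ a, μ a ≤ 0) ∧ 0 ≤ D.dg ν μ :=
      D.lift2_mul k2 h2 fun μ μ' h h' => ⟨fun a => add_nonpos (h.1 a) (h'.1 a), by
        have := h'.2
        rw [dg_add, h.2.1]
        omega⟩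
    have h6 := AddSubgroup.mem_map_of_mem (D.lift2sp χ hh0).toAddMonoidHom
      (D.zlift_Q2 h0 hρ (D.lift2_mul k1 h5 fun μ μ' h h' =>
        ⟨fun a => add_nonpos (h.1 a) (h'.1 a), by
          have := h'.2
          rw [dg_add, h.2.1]
          omega⟩))
    have h7 := add_mem h4 h6
    rw [RingHom.toAddMonoidHom_eq_coe, AddMonoidHom.coe_coe, map_mul, map_mul, map_mul] at h7
    exact lift2_cast h7 (by ring)
  exact ⟨x, hx.1.1, hx.1.2, hx', hx.2⟩

include hh0 in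
theorem zlift_main (hl : D.GN) (hh : D.h ≠ 0) (s : R' →+* R) (hs : ∀ c, χ (s c) = c)
    {ν : Fin k → ℤ} {S : Finset (Fin n)} (h0 : D.dg ν (ind S) = 0)
    (H : ∀ g, W.mon0 (D.map χ) (-ind S) g ∈ AddSubgroup.closure (W.sNN (D.map χ))) (g : Pol n R) :
    ∃ x ∈ AddSubgroup.closure {y | ∃ c g', χ c = 0 ∧ y = D.mon D.Om (-ind S) (C c * g')},
      D.mon D.Om (-ind S) g - x ∈ D.PS ν S.card := by
  obtain ⟨ρ, hstar⟩ := D.exists_star
  have hS : D.dg 1 (-ind S) = -S.card := by rw [dg_neg, zlift_card]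
  have hn : -(n : ℤ) ≤ -S.card := by
    have := card_le_univ S
    rw [Fintype.card_fin] at this
    omega
  have hρ : ∀ μ, D.TS ρ S μ → ∀ ν', D.dg ν' μ = D.dg ν' (-ind S) := fun μ h =>
    hstar μ (-ind S) h.1 (zlift_le S) (h.2.1 ▸ hn) (hS ▸ hn) h.2.2
  obtain ⟨x, x1, x2, x3, x4⟩ := D.zlift_sq χ hh0 s hs h0 hρ (H (MvPolynomial.map χ g))
  obtain ⟨T, hT⟩ := D.dec2_fin 0 (-S.card)
    fun μ => D.dg 1 μ = -S.card ∧ D.dg ρ μ = D.dg ρ (-ind S)
  have hT' : ∀ μ, μ ∈ T ↔ D.TS ρ S μ := fun μ =>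
    (hT μ).trans ⟨fun h => ⟨h.1, h.2.2⟩, fun h => ⟨h.1, h.2.1.ge, h.2⟩⟩
  have h1 : D.lift2sp χ hh0 (D.mon D.Om (-ind S) g - x) = 0 := by
    rw [map_sub, x3, lift2sp_mon, sub_self]
  have h2 := D.dec3 hl hh (RingHom.ker (D.sp χ)) (D.sp_ker2 χ)
    {r | ∃ g', r - D.mon D.Om (-ind S) g' ∈ D.PS ν S.card} T (fun l hlT hd g hg => by
      obtain ⟨r, r1, r2, r3, r4⟩ := D.ex_orbit h0 hρ ((hT' l).1 hlT) hd hg
      exact ⟨r, r1, fun μ h => (hT' μ).2 (r2 μ h), r3, r4⟩)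
    (D.cmp ρ (D.dg ρ (-ind S)) (D.cmp 1 (-S.card) (D.mon D.Om (-ind S) g - x)))
    (D.cmp_mem ρ (D.cmp_mem 1 (sub_mem (D.mon_mem (neg_ind_min S) g) x1) _) _)
    (fun μ h => by
      rw [co_cmp, co_cmp] at h
      split_ifs at h with e1 e2
      · exact (hT' μ).2 ⟨(D.le_mon (K := D.Om) (zlift_le S) g).sub D x2 μ h, e2, e1⟩
      · exact absurd rfl h
      · exact absurd rfl h)
    (fun μ => by
      rw [co_cmp, co_cmp]
      split_ifs
      · exact D.lift2sp_eq_zero χ hh0 h1 μ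
      · exact zero_mem _
      · exact zero_mem _)
  have h3 : ∀ Y ∈ AddSubgroup.closure {y | ∃ c r, D.al (C c) ∈ RingHom.ker (D.sp χ) ∧
      r ∈ {r | ∃ g', r - D.mon D.Om (-ind S) g' ∈ D.PS ν S.card} ∧ y = D.cst D.Om (C c) * r},
      ∃ x ∈ AddSubgroup.closure {y | ∃ c g', χ c = 0 ∧ y = D.mon D.Om (-ind S) (C c * g')},
        Y - x ∈ D.PS ν S.card := by
    intro Y hY
    induction hY using AddSubgroup.closure_induction with
    | mem Y hY =>
      obtain ⟨c, r, c1, ⟨g', c2⟩, rfl⟩ := hY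
      rw [RingHom.mem_ker, sp_al, map_C, map_eq_zero_iff _ (IsFractionRing.injective _ _),
        C_eq_zero] at c1
      refine ⟨_, AddSubgroup.subset_closure ⟨c, g', c1, rfl⟩, ?_⟩
      rw [← cst_C_mul_mon, ← mul_sub]
      exact D.PS_C c c2
    | zero => exact ⟨0, zero_mem _, by rw [sub_zero]; exact zero_mem _⟩
    | add y z _ _ hy hz =>
      obtain ⟨a, a1, a2⟩ := hy
      obtain ⟨b, b1, b2⟩ := hz
      exact ⟨a + b, add_mem a1 b1, by rw [add_sub_add_comm]; exact add_mem a2 b2⟩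
    | neg y _ hy =>
      obtain ⟨a, a1, a2⟩ := hy
      exact ⟨-a, neg_mem a1, by rw [← neg_sub']; exact neg_mem a2⟩
  obtain ⟨x', y1, y2⟩ := h3 _ h2
  refine ⟨x', y1, ?_⟩
  have h6 := add_mem y2 x4
  have h7 := D.hom_mon (K := D.Om) 1 (-ind S) g
  rw [hS] at h7
  rw [map_sub, map_sub, D.cmp_of_hom h7,
    D.cmp_of_hom (D.hom_mon ρ (-ind S) g), sub_right_comm, sub_add_cancel] at h6
  exact h6

end Origin

theorem scOp_mon3 (G : Grd2 R) (ht : ∀ e, G.g (D.t e) = Polynomial.C (D.t e) * Polynomial.X)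
    (hg : G.g D.h = Polynomial.C D.h * Polynomial.X) (μ : Fin n → ℤ) : ∃ c : R, IsUnit c ∧
      ∀ g, D.scOp2 G hg (D.mon _ μ g) = D.mon _ μ (C c * G.sc g) := by
  obtain ⟨c, hcu, hc⟩ : ∃ c : R, IsUnit c ∧ G.sc (D.mm μ) = C c * D.mm μ := by
    refine sc_prod2 G _ _ fun p _ => sc_prod2 G _ _ fun j _ => ⟨2, isUnit_two2, ?_⟩
    have hx : ∀ o : Option (Fin n), G.sc (xv o : Pol n R) = 2 * xv o := by
      intro o; cases o <;> simp [G.sc_X]
    simp only [chi, map_add, map_sub, map_mul, map_intCast, D.sc_h2 G hg, hx, G.sc_C, ht,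
      Polynomial.eval_mul, Polynomial.eval_C, Polynomial.eval_X, map_ofNat]
    ring
  obtain ⟨d, ⟨d, rfl⟩, hd⟩ : ∃ c : R, IsUnit c ∧ G.sc (D.ee μ) = C c * D.ee μ :=
    sc_prod2 G _ _ fun p _ => sc_prod2 G _ _ fun j _ => ⟨2, isUnit_two2, D.sc_rt2 G hg _ _ _⟩
  refine ⟨c * ↑d⁻¹, hcu.mul d⁻¹.isUnit, fun g => ?_⟩
  unfold mon
  rw [map_sum]
  refine sum_congr rfl fun w _ => ?_
  have hu : IsUnit (D.al (rename w.1 (D.ee μ))) := by rw [rename_ee]; exact D.isUnit_ee _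
  have hd' : Ring.inverse (D.al (C (d : R))) = D.al (C (↑d⁻¹ : R)) := by
    rw [← map_inverse _ (d.isUnit.map C), ← map_inverse _ d.isUnit, Ring.inverse_unit]
  change D.opMap D _ _ (D.sg _ _) = D.sg _ _
  rw [opMap_sg, map_mul, map_inverse _ hu, scO_al2, scO_al2, G.sc_rename, G.sc_rename, map_mul G.sc,
    hc, hd]
  simp only [map_mul, rename_C, inverse_mul', hd']
  congr 1; ring

theorem zlift_sc (G : Grd2 R) (ht : ∀ e, G.g (D.t e) = Polynomial.C (D.t e) * Polynomial.X)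
    (hg : G.g D.h = Polynomial.C D.h * Polynomial.X) {ν : Fin k → ℤ} {N : ℕ} {x : D.Op D.Om}
    (hx : x ∈ D.PS ν N) : D.scOp2 G hg x ∈ D.PS ν N := by
  induction hx using AddSubgroup.closure_induction with
  | mem x hx =>
    obtain ⟨U, p, y, h1, h2, h3, h4, rfl⟩ := hx
    obtain ⟨p', e⟩ := D.scOp_mon2 G ht hg (-ind U) p
    rw [map_mul, e]
    exact AddSubgroup.subset_closure ⟨U, p', _, h1, h2, h3, D.scOp_mem2 G ht hg h4, rfl⟩
  | zero => rw [map_zero]; exact zero_mem _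
  | add y z _ _ hy hz => rw [map_add]; exact add_mem hy hz
  | neg y _ hy => rw [map_neg]; exact neg_mem hy

/-- the dressings whose monopole operator is decomposable -/
def zliftU (ν : Fin k → ℤ) (S : Finset (Fin n)) : Submodule R (Pol n R) where
  carrier := {g | D.mon D.Om (-ind S) g ∈ D.PS ν S.card}
  add_mem' := fun {p q} hp hq => by
    change D.mon D.Om (-ind S) (p + q) ∈ D.PS ν S.card
    rw [mon_add]
    exact add_mem hp hq
  zero_mem' := by
    change D.mon D.Om (-ind S) 0 ∈ D.PS ν S.card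
    rw [mon_nil]
    exact zero_mem _
  smul_mem' := fun c p hp => by
    change D.mon D.Om (-ind S) (c • p) ∈ D.PS ν S.card
    rw [smul_eq_C_mul, ← cst_C_mul_mon]
    exact D.PS_C c hp

theorem zliftU_sc (G : Grd2 R) (ht : ∀ e, G.g (D.t e) = Polynomial.C (D.t e) * Polynomial.X)
    (hg : G.g D.h = Polynomial.C D.h * Polynomial.X) (ν : Fin k → ℤ) (S : Finset (Fin n)) :
    ∀ p ∈ D.zliftU ν S, G.sc p ∈ D.zliftU ν S := by
  intro p hp
  obtain ⟨c, ⟨c, rfl⟩, hc⟩ := D.scOp_mon3 G ht hg (-ind S)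
  have h1 : C (c : R) * G.sc p ∈ D.zliftU ν S := by
    have := D.zlift_sc G ht hg (x := D.mon D.Om (-ind S) p) hp
    rwa [hc] at this
  have h2 := (D.zliftU ν S).smul_mem (↑c⁻¹ : R) h1
  rwa [← smul_eq_C_mul, smul_smul, Units.inv_mul, one_smul] at h2

theorem zlift (hl : D.LG) (hh : D.h = 0) (G : Grd2 R[X])
    (ht : ∀ e, G.g (Polynomial.C (D.t e)) = Polynomial.C (Polynomial.C (D.t e)) * Polynomial.X)
    (hX : G.g Polynomial.X = Polynomial.C Polynomial.X * Polynomial.X)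
    {ν : Fin k → ℤ} {S : Finset (Fin n)} (h0 : D.dg ν (ind S) = 0)
    (H : ∀ g, W.mon0 D (-ind S) g ∈ AddSubgroup.closure (W.sNN D)) (g : Pol n R[X]) :
    D.up.mon D.up.Om (-ind S) g ∈ D.up.PS ν S.card := by
  have : CharZero R := algebraRat.charZero R
  have hs : ∀ c : R, Polynomial.evalRingHom 0 (Polynomial.C c) = c := fun _ => Polynomial.eval_C
  refine G.nak2 hX (D.up.zliftU ν S) (D.up.zliftU_sc G ht hX ν S) (fun _ => True)
    (fun p _ => ?_) g trivial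
  obtain ⟨x, x1, x2⟩ := D.up.zlift_main (Polynomial.evalRingHom 0) Polynomial.eval_X
    (D.up_GN hl) Polynomial.X_ne_zero Polynomial.C hs h0 (by rwa [D.up_map hh]) p
  obtain ⟨p', rfl⟩ : ∃ p', x = D.up.mon D.up.Om (-ind S) (C Polynomial.X * p') := by
    clear x2
    induction x1 using AddSubgroup.closure_induction with
    | mem y hy =>
      obtain ⟨c, g', hc, rfl⟩ := hy
      obtain ⟨c', rfl⟩ : Polynomial.X ∣ c := by
        rw [Polynomial.X_dvd_iff, Polynomial.coeff_zero_eq_eval_zero]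
        exact hc
      exact ⟨C c' * g', by rw [map_mul, mul_assoc]⟩
    | zero => exact ⟨0, by rw [mul_zero, mon_nil]⟩
    | add y z _ _ hy hz =>
      obtain ⟨a, rfl⟩ := hy
      obtain ⟨b, rfl⟩ := hz
      exact ⟨a + b, by rw [mul_add, mon_add]⟩
    | neg y _ hy =>
      obtain ⟨a, rfl⟩ := hy
      exact ⟨-a, by rw [mul_neg, mon_neg]⟩
  refine ⟨p', trivial, ?_⟩
  change D.up.mon D.up.Om (-ind S) (p - C Polynomial.X * p') ∈ D.up.PS ν S.card
  rw [sub_eq_add_neg, mon_add, mon_neg, ← sub_eq_add_neg]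
  exact x2

end QD

end Pool.Agent.Work.MP_849ab0_ag
end
end
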