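import Pool.Agent.Work.MP_849ab0_ag.VOps
import Pool.Agent.Work.MP_849ab0_ag.VComm

/-! The Lie algebra of modes and its triangular decomposition. -/

noncomputable section

set_option linter.unusedSectionVars false

namespace Pool.Agent.Work.MP_849ab0_ag

open MvPolynomial Finset

section LieCl

variable {M : Type} [AddCommGroup M] [Module ℂ M]

/-- pointwise closure -/
def lieCl (Q : Submodule ℂ (Module.End ℂ M)) : Submodule ℂ (Module.End ℂ M) where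
  carrier := {x | ∀ s : Finset M, ∃ x' ∈ Q, ∀ F ∈ s, x F = x' F}
  add_mem' := fun {x y} hx hy s => by
    obtain ⟨x', h1, h2⟩ := hx s
    obtain ⟨y', h3, h4⟩ := hy s
    exact ⟨x' + y', Q.add_mem h1 h3, fun F hF => by
      rw [LinearMap.add_apply, LinearMap.add_apply, h2 F hF, h4 F hF]⟩
  zero_mem' := fun _ => ⟨0, Q.zero_mem, fun _ _ => rfl⟩
  smul_mem' := fun c x hx s => by
    obtain ⟨x', h1, h2⟩ := hx s
    exact ⟨c • x', Q.smul_mem c h1, fun F hF => by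
      rw [LinearMap.smul_apply, LinearMap.smul_apply, h2 F hF]⟩

variable {Q : Submodule ℂ (Module.End ℂ M)} {x : Module.End ℂ M}

theorem lieCl_le (hx : x ∈ Q) : x ∈ lieCl Q := fun _ => ⟨x, hx, fun _ _ => rfl⟩

theorem lieCl_cl (h : ∀ s : Finset M, ∃ x' ∈ lieCl Q, ∀ F ∈ s, x F = x' F) : x ∈ lieCl Q :=
  fun s => by
    obtain ⟨x', h1, h2⟩ := h s
    obtain ⟨y, h3, h4⟩ := h1 s
    exact ⟨y, h3, fun F hF => (h2 F hF).trans (h4 F hF)⟩

theorem lieCl_map (T : Module.End ℂ M →ₗ[ℂ] Module.End ℂ M) {G : Set (Module.End ℂ M)}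
    (hT : ∀ F, ∃ s : Finset M, ∀ x x', (∀ H ∈ s, x H = x' H) → T x F = T x' F)
    (h : ∀ y ∈ G, T y ∈ lieCl Q) (hx : x ∈ lieCl (Submodule.span ℂ G)) : T x ∈ lieCl Q := by
  classical
  choose t ht using hT
  refine lieCl_cl fun s => ?_
  obtain ⟨x', h1, h2⟩ := hx (s.biUnion t)
  exact ⟨T x', (Submodule.span_le.2 h : _ ≤ (lieCl Q).comap T) h1,
    fun F hF => ht F _ _ fun H hH => h2 H (mem_biUnion.2 ⟨F, hF, hH⟩)⟩

theorem lieCl_ad (y : Module.End ℂ M) {G : Set (Module.End ℂ M)}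
    (h : ∀ z ∈ G, z * y - y * z ∈ lieCl Q) (hx : x ∈ lieCl (Submodule.span ℂ G)) :
    x * y - y * x ∈ lieCl Q := by
  classical
  refine lieCl_map (LinearMap.mulRight ℂ y - LinearMap.mulLeft ℂ y)
    (fun F => ⟨{F, y F}, fun x x' h1 => ?_⟩) h hx
  show x (y F) - y (x F) = x' (y F) - y (x' F)
  rw [h1 F (by simp), h1 (y F) (by simp)]

theorem lieCl_val (T : Module.End ℂ M →ₗ[ℂ] M) {G : Set (Module.End ℂ M)} (N : Submodule ℂ M)
    (hT : ∃ s : Finset M, ∀ x x', (∀ H ∈ s, x H = x' H) → T x = T x')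
    (h : ∀ y ∈ G, T y ∈ N) (hx : x ∈ lieCl (Submodule.span ℂ G)) : T x ∈ N := by
  obtain ⟨s, hs⟩ := hT
  obtain ⟨x', h1, h2⟩ := hx s
  rw [hs _ _ h2]
  exact (Submodule.span_le.2 h : _ ≤ N.comap T) h1

theorem lie_mod (x A B : M) (ε : ℂ) : x - ε • B + ε • A = x - -ε • (A - B) := by module

theorem lie_jac {A : Type} [Ring A] (x s e : A) :
    (x * s - s * x) * e - e * (x * s - s * x) - ((x * e - e * x) * s - s * (x * e - e * x)) =
      x * (s * e - e * s) - (s * e - e * s) * x := by noncomm_ring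

theorem lie_sub {A : Type} [Ring A] (x a b : A) :
    x * a - a * x - (x * b - b * x) = x * (a - b) - (a - b) * x := by noncomm_ring

end LieCl

namespace VD

variable {P : Type} [Fintype P] [DecidableEq P] (V : VD P)

/-- states generated by the points of `X₀` -/
inductive LieS (X₀ : Set P) : (MM P →ₗ[ℂ] ℂ) → Prop
  | pt (a : P) : a ∈ X₀ → LieS X₀ (phi {a})
  | step (a : P) (j : ℕ) (α : MM P →ₗ[ℂ] ℂ) : a ∈ X₀ → LieS X₀ α → LieS X₀ (α ∘ₗ V.eM a j)

/-- modes of the generated states -/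
def lieG (X₀ : Set P) : Set (Module.End ℂ (MM P)) := {x | ∃ m α, V.LieS X₀ α ∧ x = V.sig m α}

/-- the closed span of the modes -/
def lieN (X₀ : Set P) : Submodule ℂ (Module.End ℂ (MM P)) := lieCl (Submodule.span ℂ (V.lieG X₀))

variable {V} {X₀ : Set P} {α : MM P →ₗ[ℂ] ℂ} {a : P}

theorem lie_sig (h : V.LieS X₀ α) (m : ℤ) : V.sig m α ∈ V.lieN X₀ :=
  lieCl_le (Submodule.subset_span ⟨m, α, h, rfl⟩)

theorem lie_OO (ha : a ∈ X₀) (h : V.LieS X₀ α) (i : ℤ) : ∀ j m, V.OO a α j i m ∈ V.lieN X₀ := by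
  induction i using Int.induction_on with
  | zero => exact fun j m => by rw [OO_eq]; exact lie_sig (.step a j α ha h) m
  | succ i ih =>
    intro j m
    have h1 := add_mem (ih (j + 1) m) (ih j (m + 1))
    rwa [OO, sub_add_cancel] at h1
  | pred i ih =>
    intro j m
    have key : ∀ L : ℕ, ∃ ε : ℂ, V.OO a α j (-i - 1) m - ε • V.OO a α (j + L) (-i - 1) (m - L)
        ∈ V.lieN X₀ := fun L => by
      induction L with
      | zero => exact ⟨1, by simp⟩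
      | succ L ihL =>
        obtain ⟨ε, hε⟩ := ihL
        refine ⟨-ε, ?_⟩
        have h1 := add_mem hε (Submodule.smul_mem _ ε (ih (j + L) (m - (L + 1 : ℕ))))
        rw [← add_assoc, OO, sub_add_cancel, show m - (L + 1 : ℕ) + 1 = m - L by push_cast; ring]
        exact (congrArg (· ∈ V.lieN X₀) (lie_mod _ _ _ _)).mp h1
    choose L hL using V.OO_vanish a α
    refine lieCl_cl fun s => ?_
    obtain ⟨ε, hε⟩ := key (s.sup fun F => (-i - 1 + m - L F).toNat)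
    refine ⟨_, hε, fun F hF => ?_⟩
    have h1 := le_sup (f := fun F => (-i - 1 + m - L F).toNat) hF
    rw [LinearMap.sub_apply, LinearMap.smul_apply, hL F (j + _) _ _ (by omega), smul_zero, sub_zero]

theorem lie_ad (h : V.LieS X₀ α) : ∀ m, ∀ x ∈ V.lieN X₀,
    x * V.sig m α - V.sig m α * x ∈ V.lieN X₀ := by
  have h0 : ∀ a ∈ X₀, ∀ i, ∀ x ∈ V.lieN X₀, x * V.eM a i - V.eM a i * x ∈ V.lieN X₀ :=
    fun a ha i x hx => lieCl_ad _ (by rintro _ ⟨m, β, hβ, rfl⟩; exact lie_OO ha hβ i 0 m) hx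
  induction h with
  | pt a ha => exact fun m => by rw [sig_phi]; exact h0 a ha m
  | step a j α ha _ ih =>
    intro m x hx
    rw [← OO_eq]
    generalize (0 : ℤ) = i
    induction j generalizing i m with
    | zero =>
      exact (congrArg (· ∈ V.lieN X₀) (lie_jac _ _ _)).mp
        (sub_mem (h0 a ha i _ (ih m x hx)) (ih m _ (h0 a ha i x hx)))
    | succ j ihj =>
      exact (congrArg (· ∈ V.lieN X₀) (lie_sub _ _ _)).mp
        (sub_mem (ihj m (i + 1)) (ihj (m + 1) i))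

theorem lie_pr (S₀ : Finset P) (h : V.LieS X₀ α) : ∀ m, 0 ≤ m → ∀ F ∈ V.II X₀ S₀,
    V.sig m α F ∈ V.II X₀ S₀ := by
  have h0 : ∀ a ∈ X₀, ∀ i, 0 ≤ i → ∀ F ∈ V.II X₀ S₀, V.eM a i F ∈ V.II X₀ S₀ := by
    intro a ha i hi F hF L hL
    obtain ⟨i, rfl⟩ := Int.eq_ofNat_of_zero_le hi
    exact hF ((a, i) :: L) (List.forall_mem_cons.2 ⟨ha, hL⟩)
  induction h with
  | pt a ha => exact fun m => by rw [sig_phi]; exact h0 a ha m
  | step a j α ha _ ih =>
    intro m hm F hF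
    rw [← OO_eq]
    suffices H : ∀ (j : ℕ) (i m : ℤ), 0 ≤ i → 0 ≤ m → V.OO a α j i m F ∈ V.II X₀ S₀ from
      H j 0 m le_rfl hm
    intro j
    induction j with
    | zero =>
      exact fun i m hi hm => sub_mem (ih m hm _ (h0 a ha i hi F hF)) (h0 a ha i hi _ (ih m hm F hF))
    | succ j ihj =>
      exact fun i m hi hm => sub_mem (ihj (i + 1) m (by omega) hm) (ihj i (m + 1) hi (by omega))

theorem lie_kill {F : MM P} (h : ∀ S, a ∈ S → F S = 0) (i : ℤ) : V.eM a i F = 0 := by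
  funext Z
  rw [eM_apply, h _ (mem_insert_self _ _), map_zero, ite_self, Pi.zero_apply]

theorem lie_lab (j : ℤ) (F : MM P) (S : Finset P) (h : a ∈ S) : V.eM a j F S = 0 := by
  rw [eM_apply, if_pos h]

theorem lie_pi (m : ℤ) (α : MM P →ₗ[ℂ] ℂ) :
    V.sig (-1) (phi ∅ ∘ₗ V.sig m α) = if m < 0 then V.sig m α else 0 := by
  split_ifs with h
  · exact V.sig_phi_sig h α
  · rw [V.phi_sig_nonneg (not_lt.1 h)]
    exact map_zero V.sigL

theorem lie_cont (F : MM P) : ∃ s : Finset (MM P), ∀ x x' : Module.End ℂ (MM P),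
    (∀ H ∈ s, x H = x' H) → V.sig (-1) (phi ∅ ∘ₗ x) F = V.sig (-1) (phi ∅ ∘ₗ x') F := by
  obtain ⟨s, hs⟩ := V.sig_finite (-1) F
  exact ⟨s, fun x x' h => hs _ _ fun G hG => congrArg (phi ∅) (h G hG)⟩

variable (V)

theorem exists_lie (X₀ : Set P) (S₀ : Finset P) : ∃ 𝔫 : Submodule ℂ (Module.End ℂ (MM P)),
    (∀ x ∈ 𝔫, ∀ y ∈ 𝔫, x * y - y * x ∈ 𝔫) ∧ (∀ a ∈ X₀, ∀ j, V.eM a j ∈ 𝔫) ∧
    (∀ x ∈ 𝔫, V.sig (-1) (phi ∅ ∘ₗ x) ∈ 𝔫) ∧
    (∀ x ∈ 𝔫, ∀ F ∈ V.II X₀ S₀, x F - V.sig (-1) (phi ∅ ∘ₗ x) F ∈ V.II X₀ S₀) ∧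
    (∀ x ∈ 𝔫, ∀ a i j, V.eM a i * x * V.eM a j = 0) ∧ ∀ a i j, V.eM a i * V.eM a j = 0 := by
  classical
  let T : Module.End ℂ (MM P) →ₗ[ℂ] Module.End ℂ (MM P) :=
    V.sigL ∘ₗ LinearMap.llcomp ℂ (MM P) (MM P) ℂ (phi ∅)
  refine ⟨V.lieN X₀, fun x hx y hy => ?_, fun a ha j => V.sig_phi a j ▸ lie_sig (.pt a ha) j,
    fun x hx => lieCl_map T lie_cont ?_ hx, fun x hx F hF => ?_, fun x hx a i j => ?_,
    fun a i j => LinearMap.ext fun F => lie_kill (lie_lab j F) i⟩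
  · refine lieCl_ad y ?_ hx
    rintro _ ⟨m, α, hα, rfl⟩
    rw [← neg_sub]
    exact neg_mem (lie_ad hα m y hy)
  · rintro _ ⟨m, α, hα, rfl⟩
    refine (congrArg (· ∈ V.lieN X₀) (lie_pi m α)).mpr ?_
    split_ifs
    · exact lie_sig hα m
    · exact zero_mem _
  · refine lieCl_val (LinearMap.applyₗ F ∘ₗ (LinearMap.id - T)) _ ?_ ?_ hx
    · obtain ⟨s, hs⟩ := lie_cont (V := V) F
      exact ⟨insert F s, fun x x' h => congrArg₂ (· - ·) (h F (mem_insert_self _ _))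
        (hs x x' fun H hH => h H (mem_insert_of_mem hH))⟩
    · rintro _ ⟨m, α, hα, rfl⟩
      show V.sig m α F - V.sig (-1) (phi ∅ ∘ₗ V.sig m α) F ∈ _
      rw [lie_pi]
      split_ifs with h
      · rw [sub_self]
        exact zero_mem _
      · rw [LinearMap.zero_apply, sub_zero]
        exact lie_pr S₀ hα m (not_lt.1 h) F hF
  · refine LinearMap.ext fun F => ?_
    refine lieCl_val (V.eM a i ∘ₗ LinearMap.applyₗ (V.eM a j F)) ⊥
      ⟨{V.eM a j F}, fun x x' h => congrArg (V.eM a i) (h _ (mem_singleton_self _))⟩ ?_ hx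
    rintro _ ⟨m, α, -, rfl⟩
    exact lie_kill (V.sig_label m α a _ (lie_lab j F)) i

end VD

end Pool.Agent.Work.MP_849ab0_ag
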