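import Pool.Agent.Work.MP_849ab0_ag.Link
import Pool.Agent.Work.MP_849ab0_ag.Lie

/-! The identity for generic positions of the points. -/

noncomputable section

set_option linter.unusedSectionVars false

namespace Pool.Agent.Work.MP_849ab0_ag

open MvPolynomial Finset

namespace QD

variable {k n : ℕ} {E : Type} [Fintype E] (D : QD k n E ℂ)

/-- the pair kernel of a quiver -/
def vd : VD (Option (Fin n)) where
  pp a b := if a.map D.col = b.map D.col then 1 else 0
  rr a b := open Classical in
    (univ.filter fun e => D.tgt e = a.map D.col ∧ D.src e = b.map D.col).card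

/-- differences of points of different colours -/
def GS : Submonoid (Pol n ℂ) :=
  Submonoid.closure {x | ∃ a b : Option (Fin n), a.map D.col ≠ b.map D.col ∧ x = xv a - xv b}

/-- the ring of generic positions -/
abbrev TG : Type := Localization D.GS

/-- generic positions -/
def posG (S : Finset (Option (Fin n))) (b : Option (Fin n)) : D.TG :=
  if b ∈ S then algebraMap (Pol n ℂ) D.TG (xv b) else 0

/-- `f ↦ KS S * f (pos S)` -/
def evG (S : Finset (Option (Fin n))) : AA (Option (Fin n)) →ₗ[ℂ] D.TG :=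
  LinearMap.mulLeft ℂ (D.vd.KS S (D.posG S)) ∘ₗ (aeval (D.posG S)).toLinearMap

/-- the generic states with `j` points -/
def gam (S₀ : Finset (Option (Fin n))) (j : ℕ) : MM (Option (Fin n)) →ₗ[ℂ] D.TG :=
  ∑ S ∈ univ.filter fun S => S ∩ {none} = S₀ ∧ (S.erase none).card = j,
    D.evG S ∘ₗ LinearMap.proj S

theorem cpt_gam (S₀ S : Finset (Option (Fin n))) (j : ℕ) (f : AA (Option (Fin n))) :
    cpt (D.gam S₀ j) S f =
      if S ∩ {none} = S₀ ∧ (S.erase none).card = j then D.evG S f else 0 := by
  unfold cpt gam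
  rw [LinearMap.comp_apply, LinearMap.sum_apply, sum_filter, sum_eq_single S]
  · simp
  · intro U _ hU
    simp [Pi.single_eq_of_ne hU]
  · simp

theorem gen_num : ∏ a : Option (Fin n), ∏ b ∈ univ.erase a,
    (xv a - xv b : Pol n ℂ) ^ D.vd.pp a b = D.NUM := by
  simp only [NUM, Rt, vd, ← filter_ne', prod_filter, Fintype.prod_prod_type, Fintype.prod_option]
  simp only [Option.map_none, Option.map_some, reduceCtorEq, if_false, pow_zero, ite_self,
    prod_const_one, mul_one, one_mul, xv_some, Option.some.injEq, ne_eq, not_true_eq_false]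
  refine prod_congr rfl fun a _ => prod_congr rfl fun b _ => ?_
  by_cases h1 : D.col a = D.col b <;> by_cases h2 : a = b <;> simp [h1, h2, eq_comm]

theorem gen_den (hl : D.NL) {M : Type} [CommMonoid M] (φ : Option (Fin n) → Option (Fin n) → M) :
    ∏ a : Option (Fin n), ∏ b ∈ univ.erase a, φ a b ^ D.vd.rr a b =
      ∏ p ∈ D.Wt, φ p.2.2 p.2.1 := by
  classical
  have h1 : ∀ a : Option (Fin n), ∏ b ∈ univ.erase a, φ a b ^ D.vd.rr a b =
      ∏ b, φ a b ^ D.vd.rr a b := fun a => by
    refine prod_erase _ ?_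
    have : D.vd.rr a a = 0 := by
      simp only [vd, card_eq_zero, filter_eq_empty_iff]
      exact fun e _ h => hl e (h.2.trans h.1.symm)
    rw [this, pow_zero]
  have h2 : ∀ a b : Option (Fin n), φ a b ^ D.vd.rr a b =
      ∏ e, if (e, b, a) ∈ D.Wt then φ a b else 1 := fun a b => by
    rw [← prod_filter, prod_const]
    refine congrArg (φ a b ^ card ·) (Finset.ext fun e => ?_)
    simp only [mem_filter, mem_univ, true_and, mem_Wt]
    exact ⟨fun h => ⟨h.2.symm, h.1.symm⟩, fun h => ⟨h.2.symm, h.1.symm⟩⟩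
  have h3 : ∏ p ∈ D.Wt, φ p.2.2 p.2.1 = ∏ p, if p ∈ D.Wt then φ p.2.2 p.2.1 else 1 := by
    rw [prod_ite_mem, univ_inter]
  rw [prod_congr rfl fun a _ => h1 a, h3, Fintype.prod_prod_type_right, Fintype.prod_prod_type_right]
  exact prod_congr rfl fun a _ => prod_congr rfl fun b _ => h2 a b

theorem gen_mono (π : Equiv.Perm (Fin n)) (kk : Fin n → ℕ) :
    expand (RingHom.id ℂ) π (∏ a, X a ^ kk a) =
      HahnSeries.single (toLex fun i => -(kk (π.symm i) : ℤ)) 1 := by
  have h : ∀ s : Finset (Fin n), expand (RingHom.id ℂ) π (∏ a ∈ s, X a ^ kk a) =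
      HahnSeries.single (∑ a ∈ s, kk a • toLex (-Pi.single (π a) 1 : Fin n → ℤ)) 1 := by
    intro s
    induction s using Finset.induction_on with
    | empty => simp
    | insert a s ha ih =>
      rw [prod_insert ha, sum_insert ha, map_mul, ih, map_pow, expand_X, vv, HahnSeries.single_pow,
        HahnSeries.single_mul_single, one_pow, mul_one]
  rw [h]
  congr 2
  funext i
  obtain ⟨c, rfl⟩ := π.surjective i
  change (∑ a, kk a • (-Pi.single (π a) 1 : Fin n → ℤ)) (π c) = -(kk (π.symm (π c)) : ℤ)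
  rw [Finset.sum_apply, sum_eq_single c]
  · simp
  · intro b _ hb
    simp [Pi.single_eq_of_ne (π.injective.ne hb.symm)]
  · simp

/-- the kernel of all points is the kernel of the residue pairing -/
theorem serH_univ (hl : D.NL) (ht : ∀ e, D.t e = 0) (hh : D.h = 0) (π : Equiv.Perm (Fin n))
    (kk : Fin n → ℕ) (f : Pol n ℂ) :
    (serH D.vd π univ (rename some f)).coeff (expo π (fun a => kk a) univ) =
      D.res (RingHom.id ℂ) π (f * ∏ a, X a ^ kk a) := by
  have h0 : posH π univ = fun b => expand (RingHom.id ℂ) π (xv b) := by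
    funext b; simp [posH]
  have h1 : eval₂Hom HahnSeries.C (posH π univ) (rename some f) = expand (RingHom.id ℂ) π f := by
    rw [h0]
    induction f using MvPolynomial.induction_on with
    | C r => simp
    | add p q hp hq => rw [map_add, map_add, map_add, hp, hq]
    | mul_X p a hp => rw [map_mul, map_mul, map_mul, hp, rename_X, eval₂Hom_X', xv_some]
  have h2 : D.vd.KS univ (posH π univ) = expand (RingHom.id ℂ) π (D.num π) *
      Ring.inverse (expand (RingHom.id ℂ) π (∏ p ∈ D.Wt, D.den π p)) := by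
    rw [D.num_eq hh, ← gen_num, map_prod, map_prod, inverse_prod, h0]
    simp only [VD.KS, VD.kap, prod_mul_distrib, map_prod, map_pow, map_sub]
    rw [D.gen_den hl fun a b => Ring.inverse (expand (RingHom.id ℂ) π (xv a) -
      expand (RingHom.id ℂ) π (xv b))]
    congr 1
    refine prod_congr rfl fun p _ => ?_
    rw [D.den_eq hh, chi, ht, C_0, add_zero, map_sub]
  have h3 : expo π (fun a => kk a) univ =
      (toLex fun _ => 1) - toLex fun i => -(kk (π.symm i) : ℤ) := by
    funext i
    change (if some (π.symm i) ∈ univ then (kk (π.symm i) : ℤ) + 1 else 0) =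
      1 - -(kk (π.symm i) : ℤ)
    rw [if_pos (mem_univ _)]
    ring
  rw [serH, h1, h2, h3, res, map_mul, map_mul, gen_mono, ← one_mul (HahnSeries.coeff _ (_ - _)),
    ← coeff_single_mul']
  congr 1
  ring

theorem gen_unit (π : Equiv.Perm (Fin n)) {a b : Option (Fin n)} (h : a ≠ b) :
    IsUnit (expand (RingHom.id ℂ) π (xv a - xv b)) := by
  have key : ∀ (c : Fin n) (o : Option (Fin n)), outer π (some c) o →
      IsUnit (expand (RingHom.id ℂ) π (xv (some c) - xv o)) ∧
      IsUnit (expand (RingHom.id ℂ) π (xv o - xv (some c))) := fun c o ho =>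
    ⟨Fm.isUnit (a := c) ⟨o, 0, ho, Or.inl (by simp)⟩ _,
      Fm.isUnit (a := c) ⟨o, 0, ho, Or.inr (by simp)⟩ _⟩
  cases a with
  | none =>
    cases b with
    | none => exact absurd rfl h
    | some b => exact (key b none trivial).2
  | some a =>
    cases b with
    | none => exact (key a none trivial).1
    | some b =>
      rcases lt_or_gt_of_ne (π.injective.ne fun e : a = b => h (congrArg some e)) with h1 | h1
      · exact (key a (some b) h1).1
      · exact (key b (some a) h1).2

theorem gen_units (y : D.GS) : IsUnit (expand (RingHom.id ℂ) 1 y.1) := by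
  obtain ⟨y, hy⟩ := y
  induction hy using Submonoid.closure_induction with
  | mem x hx =>
    obtain ⟨a, b, h, rfl⟩ := hx
    exact gen_unit 1 fun e => h (by rw [e])
  | one => simp
  | mul x y _ _ hx hy => simpa using hx.mul hy

/-- expansion of generic positions -/
def genIo : D.TG →+* HahnSeries (Gam n) ℂ := IsLocalization.lift D.gen_units

theorem genIo_al (f : Pol n ℂ) :
    D.genIo (algebraMap (Pol n ℂ) D.TG f) = expand (RingHom.id ℂ) 1 f := IsLocalization.lift_eq _ _

theorem genIo_injective : Function.Injective D.genIo :=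
  (IsLocalization.lift_injective_iff D.gen_units).2 fun x y =>
    ⟨fun h => by rw [← D.genIo_al, ← D.genIo_al, h],
      fun h => by rw [expand_injective (φ := RingHom.id ℂ) Function.injective_id 1 h]⟩

theorem genIo_C (c : ℂ) : D.genIo (algebraMap ℂ D.TG c) = HahnSeries.C c := by
  rw [IsScalarTower.algebraMap_apply ℂ (Pol n ℂ) D.TG, genIo_al, algebraMap_eq, expand_C]
  rfl

theorem genIo_smul (c : ℂ) (x : D.TG) : D.genIo (c • x) = HahnSeries.C c * D.genIo x := by
  rw [Algebra.smul_def, map_mul, genIo_C]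

theorem genIo_pos (S : Finset (Option (Fin n))) (b : Option (Fin n)) :
    D.genIo (D.posG S b) = posH 1 S b := by
  unfold posG posH
  split_ifs
  · exact D.genIo_al _
  · exact map_zero _

theorem genIo_evG (hl : D.NL) (S : Finset (Option (Fin n))) (f : AA (Option (Fin n))) :
    D.genIo (D.evG S f) = serH D.vd 1 S f := by
  have h1 : D.genIo (aeval (D.posG S) f) = eval₂Hom HahnSeries.C (posH 1 S) f := by
    induction f using MvPolynomial.induction_on with
    | C r => rw [aeval_C, genIo_C, eval₂Hom_C]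
    | add p q hp hq => rw [map_add, map_add, map_add, hp, hq]
    | mul_X p a hp => rw [map_mul, map_mul, map_mul, hp, aeval_X, eval₂Hom_X', genIo_pos]
  have h2 : D.genIo (D.vd.KS S (D.posG S)) = D.vd.KS S (posH 1 S) := by
    unfold VD.KS
    rw [map_prod]
    refine prod_congr rfl fun a ha => ?_
    rw [map_prod]
    refine prod_congr rfl fun b hb => ?_
    rw [D.vd.map_kap, map_sub, genIo_pos, genIo_pos]
    intro h
    obtain ⟨e, he⟩ := card_ne_zero.1 h
    replace he : D.tgt e = a.map D.col ∧ D.src e = b.map D.col := by simpa using he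
    rw [posG, posG, if_pos ha, if_pos (mem_of_mem_erase hb), ← map_sub]
    exact IsLocalization.map_units D.TG (⟨_, Submonoid.subset_closure
      ⟨a, b, fun h' => hl e (he.2.trans (h'.symm.trans he.1.symm)), rfl⟩⟩ : D.GS)
  change D.genIo (D.vd.KS S (D.posG S) * aeval (D.posG S) f) = _
  rw [map_mul, h1, h2, serH]

/-- coefficient extraction is multiplicative -/
def genMult (kk : Fin n → ℤ) : VD.Mult (Option (Fin n)) D.TG ℂ where
  Q S :=
    { carrier := {x | D.genIo x ∈ HS 1 S}
      add_mem' := fun {x y} hx hy => by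
        change D.genIo (x + y) ∈ HS 1 S
        rw [map_add]; exact add_mem hx hy
      zero_mem' := by
        change D.genIo 0 ∈ HS 1 S
        rw [map_zero]; exact zero_mem _
      smul_mem' := fun c x hx => by
        change D.genIo (c • x) ∈ HS 1 S
        rw [genIo_smul]; exact mul_mem (C_mem_SR _ c) hx }
  L S :=
    { toFun := fun x => (D.genIo x).coeff (expo 1 kk S)
      map_add' := fun x y => by rw [map_add, HahnSeries.coeff_add]
      map_smul' := fun c x => by rw [genIo_smul, coeff_C_mul']; rfl }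
  mul_mem S U _ x hx y hy := by
    have mono : ∀ {A B : Finset (Option (Fin n))}, A ⊆ B → ∀ z ∈ HS 1 A, z ∈ HS 1 B :=
      fun h z hz => link_mem_HS.2 fun γ hγ a ha => link_mem_HS.1 hz γ hγ a fun e => ha (h e)
    change D.genIo (x * y) ∈ HS 1 (S ∪ U)
    rw [map_mul]
    exact mul_mem (mono subset_union_left _ hx) (mono subset_union_right _ hy)
  map_mul S U h x hx y hy := by
    change (D.genIo (x * y)).coeff _ = _
    rw [map_mul]
    exact coeff_mul_HS 1 kk h hx hy

/-- related pairs of functionals -/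
def genRel (kk : Fin n → ℤ) :
    Submodule ℂ ((MM (Option (Fin n)) →ₗ[ℂ] D.TG) × (MM (Option (Fin n)) →ₗ[ℂ] ℂ)) where
  carrier := {x | (D.genMult kk).Rl x.1 x.2}
  add_mem' := fun {x y} hx hy S f =>
    ⟨add_mem (hx S f).1 (hy S f).1, by
      change cpt x.2 S f + cpt y.2 S f = (D.genMult kk).L S (cpt x.1 S f + cpt y.1 S f)
      rw [map_add, (hx S f).2, (hy S f).2]⟩
  zero_mem' := fun S f => ⟨zero_mem _, (map_zero ((D.genMult kk).L S)).symm⟩
  smul_mem' := fun c x hx S f =>
    ⟨Submodule.smul_mem _ c (hx S f).1, by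
      change c • cpt x.2 S f = (D.genMult kk).L S (c • cpt x.1 S f)
      rw [map_smul, (hx S f).2]⟩

theorem gen_rl (hl : D.NL) (kk : Fin n → ℤ) {S₀ : Finset (Option (Fin n))} (hS₀ : S₀ ⊆ {none})
    (j : ℕ) : (D.gam S₀ j, phi S₀ ∘ₗ
      gl ((List.finRange n).map fun a => D.vd.eM (some a) (kk a)) j) ∈ D.genRel kk := by
  intro S f
  have h := link_gl D.vd kk hS₀ S j f
  refine ⟨?_, h.trans ?_⟩
  · change D.genIo (cpt (D.gam S₀ j) S f) ∈ HS 1 S
    rw [cpt_gam]
    split_ifs
    · rw [D.genIo_evG hl]; exact serH_mem _ _ _ _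
    · rw [map_zero]; exact zero_mem _
  · change _ = (D.genIo (cpt (D.gam S₀ j) S f)).coeff _
    rw [cpt_gam]
    split_ifs
    · rw [D.genIo_evG hl]
    · rw [map_zero, HahnSeries.coeff_zero]

theorem gen_zero (hl : D.NL) (ht : ∀ e, D.t e = 0) (hh : D.h = 0) (f : Pol n ℂ)
    (hf : ∀ π g, D.res (RingHom.id ℂ) π (f * g) = 0) :
    ∑ j ∈ range (n + 1), WW D.vd.star (D.gam ∅) (n - j) (D.gam {none} j)
      (Pi.single univ (rename some f)) = 0 := by
  apply D.genIo_injective
  rw [map_zero]
  ext γ
  obtain ⟨kk, rfl⟩ : ∃ kk : Fin n → ℤ, γ = expo 1 kk univ :=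
    ⟨fun a => ofLex γ a - 1, by
      funext i
      change ofLex γ i = if some i ∈ univ then ofLex γ i - 1 + 1 else 0
      rw [if_pos (mem_univ _), sub_add_cancel]⟩
  obtain ⟨L, hL⟩ : ∃ L, L = (List.finRange n).map fun a => D.vd.eM (some a) (kk a) := ⟨_, rfl⟩
  obtain ⟨W, hW0, hW, hWW⟩ := exists_W D.vd.sigL D.vd.star D.vd.comp_sig fun j => phi ∅ ∘ₗ gl L j
  obtain ⟨𝔫, h1, h2, h3, h4, h5, h6⟩ := D.vd.exists_lie (Set.range some) {none}
  have hB := birk (phi ∅) D.vd.sigL JK D.vd.phi_sig (D.vd.sig_JK (-1)) 𝔫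
    (D.vd.II (Set.range some) {none}) h1 h3 h4 L (by
      intro e he
      rw [hL] at he
      obtain ⟨a, -, rfl⟩ := List.mem_map.1 he
      refine ⟨h2 _ ⟨a, rfl⟩ _, ?_, h6 _ _ _, fun x hx => h5 x hx _ _ _⟩
      rw [← D.vd.sig_phi, D.vd.sig_JK]) W
    (fun m => bb D.vd.star (fun j => phi ∅ ∘ₗ gl L j) (m - 1)) hW0 hW (fun m => by
      simp only [Nat.add_sub_cancel, bb, hWW, LinearMap.comp_assoc]) (phi {none})
    (fun F hF => hF [] (by simp)) n (Pi.single univ (rename some f))
    (link_II D.vd _ fun π kk => by rw [D.serH_univ hl ht hh, hf])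
  rw [HahnSeries.coeff_zero, ← hB]
  change (D.genMult kk).L univ _ = _
  rw [map_sum]
  refine sum_congr rfl fun j _ => ?_
  have h := WW_rel (st := D.vd.star) (st' := D.vd.star) (γ := D.gam ∅)
    (γ' := fun j => phi ∅ ∘ₗ gl L j) (D.genRel kk)
    (fun x hx y hy => D.vd.star_rl (D.genMult kk) hx hy)
    (fun j => hL ▸ D.gen_rl hl kk (empty_subset _) (j + 1)) (n - j)
    (hL ▸ D.gen_rl hl kk subset_rfl j : (D.gam {none} j, phi {none} ∘ₗ gl L j) ∈ D.genRel kk)
  have := (h univ (rename some f)).2
  rw [hWW] at this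
  exact this.symm

end QD

end Pool.Agent.Work.MP_849ab0_ag
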