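import Pool.Agent.Work.MP_849ab0_ag.Grade

/-! The deformation with a large parameter, residue functionals, integrality. -/

noncomputable section

set_option linter.unusedSectionVars false

namespace Pool.Agent.Work.MP_849ab0_ag

open MvPolynomial Finset

open scoped Polynomial

variable {n : ℕ}

theorem kill_int {R A : Type} [CommRing R] [CommRing A] [Algebra R A] {x : A} (s : Multiset A)
    (h0 : s.prod = 0) (h : ∀ l ∈ s, ∃ c, IsIntegral R c ∧ l ∣ x - c) : IsIntegral R x := by
  have key : ∃ P : (integralClosure R A)[X], P.Monic ∧ s.prod ∣ Polynomial.aeval x P := by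
    clear h0
    induction s using Multiset.induction_on with
    | empty => exact ⟨1, Polynomial.monic_one, by simp⟩
    | cons l s ih =>
      obtain ⟨P, h1, h2⟩ := ih fun l hl => h l (Multiset.mem_cons_of_mem hl)
      obtain ⟨c, h3, h4⟩ := h l (Multiset.mem_cons_self _ _)
      refine ⟨(Polynomial.X - Polynomial.C ⟨c, h3⟩) * P, (Polynomial.monic_X_sub_C _).mul h1, ?_⟩
      rw [Multiset.prod_cons, map_mul, map_sub, Polynomial.aeval_X, Polynomial.aeval_C]
      exact mul_dvd_mul h4 h2
  obtain ⟨P, h1, h2⟩ := key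
  rw [h0, zero_dvd_iff] at h2
  exact isIntegral_trans (A := integralClosure R A) x ⟨P, h1, h2⟩

theorem kill_mem {R A : Type} [CommRing R] [CommRing A] [Algebra R A] (q : Ideal A) {x : A}
    (h : IsIntegral R (Ideal.Quotient.mkₐ R q x)) :
    ∃ P : R[X], P.Monic ∧ Polynomial.aeval x P ∈ q := by
  obtain ⟨P, h1, h2⟩ := h
  refine ⟨P, h1, Ideal.Quotient.eq_zero_iff_mem.1 ?_⟩
  rw [← Polynomial.aeval_def, Polynomial.aeval_algHom_apply] at h2
  exact h2

theorem kill_of_mem {R A : Type} [CommRing R] [CommRing A] [Algebra R A] (q : Ideal A) {x : A}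
    {P : R[X]} (h1 : P.Monic) (h2 : Polynomial.aeval x P ∈ q) :
    IsIntegral R (Ideal.Quotient.mkₐ R q x) := by
  refine ⟨P, h1, ?_⟩
  rw [← Polynomial.aeval_def, Polynomial.aeval_algHom_apply]
  exact Ideal.Quotient.eq_zero_iff_mem.2 h2

/-- the radical of an additive functional -/
def killRad {A M : Type} [CommRing A] [AddCommGroup M] (L : A →+ M) : Ideal A where
  carrier := {p | ∀ g, L (p * g) = 0}
  add_mem' := fun ha hb g => by rw [add_mul, map_add, ha g, hb g, add_zero]
  zero_mem' := fun g => by rw [zero_mul, map_zero]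
  smul_mem' := fun c p hp g => by rw [smul_eq_mul, mul_comm c, mul_assoc, hp]

/-- triangular monic systems: the variables are integral -/
theorem integral_of_forms {R R' : Type} [CommRing R] [CommRing R'] [Algebra R R']
    (q : Ideal (Pol n R')) (π : Equiv.Perm (Fin n))
    (h : ∀ a, ∃ s : Multiset (Pol n R'), s.prod ∈ q ∧ ∀ l ∈ s, ∃ o r, outer π (some a) o ∧
      (l = X a - xv o + C (algebraMap R R' r) ∨ l = -(X a - xv o + C (algebraMap R R' r)))) (a : Fin n) :
    ∃ P : R[X], P.Monic ∧ Polynomial.aeval (X a : Pol n R') P ∈ q := by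
  have key : ∀ m : ℕ, ∀ a : Fin n, n - π a ≤ m →
      IsIntegral R (Ideal.Quotient.mkₐ R q (X a)) := by
    intro m
    induction m with
    | zero => intro a ha; have := (π a).2; omega
    | succ m ih =>
      intro a ha
      obtain ⟨s, h1, h2⟩ := h a
      refine kill_int (s.map (Ideal.Quotient.mkₐ R q)) ?_ fun l hl => ?_
      · rw [← map_multiset_prod]
        exact Ideal.Quotient.eq_zero_iff_mem.2 h1
      · obtain ⟨l, hl', rfl⟩ := Multiset.mem_map.1 hl
        obtain ⟨o, r, ho, e⟩ := h2 l hl'
        have h3 : IsIntegral R (Ideal.Quotient.mkₐ R q (xv o)) := by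
          cases o with
          | none => rw [xv_none, map_zero]; exact isIntegral_zero
          | some b =>
            have h4 : (π a : ℕ) < π b := ho
            exact ih b (by omega)
        have h4 : IsIntegral R (Ideal.Quotient.mkₐ R q (C (algebraMap R R' r))) := by
          rw [← MvPolynomial.algebraMap_apply, AlgHom.commutes]
          exact isIntegral_algebraMap
        refine ⟨_, h3.sub h4, ?_⟩
        rw [← map_sub, ← map_sub, ← sub_add]
        refine map_dvd _ ?_
        rcases e with rfl | rfl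
        · exact dvd_rfl
        · exact neg_dvd.2 dvd_rfl
  exact kill_mem q (key _ a le_rfl)

/-- shifted monic polynomials generate a nonzero scalar -/
theorem sep {R : Type} [CommRing R] [IsDomain R] [Algebra ℚ R] {P : R[X]} (hP : P.Monic)
    (y : Pol n R[X]) {i j : ℤ} (hij : i ≠ j) :
    ∃ r : R[X], r ≠ 0 ∧ C r ∈ Ideal.span
      {Polynomial.aeval (y + (i : Pol n R[X]) * C Polynomial.X) P,
        Polynomial.aeval (y + (j : Pol n R[X]) * C Polynomial.X) P} := by
  have h1 := kill_of_mem (Ideal.span {Polynomial.aeval (y + (i : Pol n R[X]) * C Polynomial.X) P,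
    Polynomial.aeval (y + (j : Pol n R[X]) * C Polynomial.X) P}) hP
    (Ideal.subset_span (Set.mem_insert _ _))
  have h2 := kill_of_mem (Ideal.span {Polynomial.aeval (y + (i : Pol n R[X]) * C Polynomial.X) P,
    Polynomial.aeval (y + (j : Pol n R[X]) * C Polynomial.X) P}) hP
    (Ideal.subset_span (Set.mem_insert_of_mem _ rfl))
  have h3 := (h1.sub h2).smul (algebraMap ℚ R ((i - j : ℤ) : ℚ)⁻¹)
  have e : algebraMap ℚ R ((i - j : ℤ) : ℚ)⁻¹ * ((i - j : ℤ) : R) = 1 := by
    rw [← map_intCast (algebraMap ℚ R), ← map_mul,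
      inv_mul_cancel₀ (Int.cast_ne_zero.2 (sub_ne_zero.2 hij)), map_one]
  rw [← map_sub, ← map_smul, add_sub_add_left_eq_sub, ← sub_mul, ← Int.cast_sub,
    ← map_intCast (algebraMap R (Pol n R[X])) (i - j), Algebra.smul_def, ← mul_assoc, ← map_mul, e,
    map_one, one_mul] at h3
  obtain ⟨r, h4, h5⟩ := kill_mem _ h3
  refine ⟨r, h4.ne_zero, ?_⟩
  have e2 := Polynomial.aeval_algHom_apply (IsScalarTower.toAlgHom R R[X] (Pol n R[X]))
    Polynomial.X r
  rw [Polynomial.aeval_X_left_apply] at e2
  exact e2 ▸ h5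

theorem kill_all {R R' : Type} [CommRing R] [CommRing R'] [Algebra R R']
    (q : Equiv.Perm (Fin n) → Ideal (Pol n R'))
    (h : ∀ π a, ∃ s : Multiset (Pol n R), (∀ l ∈ s, Fm π a l) ∧
      MvPolynomial.map (algebraMap R R') s.prod ∈ q π) (y : Pol n R) :
    IsIntegral R (Ideal.Quotient.mkₐ R (⨅ π, q π) (MvPolynomial.map (algebraMap R R') y)) := by
  induction y using MvPolynomial.induction_on with
  | C r =>
    rw [map_C, ← MvPolynomial.algebraMap_apply, AlgHom.commutes]
    exact isIntegral_algebraMap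
  | add p p' hp hp' =>
    rw [map_add, map_add]
    exact hp.add hp'
  | mul_X p a hp =>
    rw [map_mul, map_mul, map_X]
    refine hp.mul ?_
    choose P h1 h2 using fun π => integral_of_forms (R := R) (q π) π (fun a => by
      obtain ⟨s, h1, h2⟩ := h π a
      refine ⟨s.map (MvPolynomial.map (algebraMap R R')), by rwa [← map_multiset_prod],
        fun l hl => ?_⟩
      obtain ⟨l, hl', rfl⟩ := Multiset.mem_map.1 hl
      obtain ⟨o, r, ho, e⟩ := h1 l hl'
      refine ⟨o, r, ho, e.imp (fun e => ?_) fun e => ?_⟩ <;>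
        simp only [e, map_neg, map_add, map_sub, map_X, map_C, QD.map_xv]) a
    refine kill_of_mem _ (Polynomial.monic_prod_of_monic univ P fun π _ => h1 π)
      (Ideal.mem_iInf.2 fun π => ?_)
    rw [map_prod]
    exact Ideal.prod_mem _ (mem_univ π) (h2 π)

theorem kill_form {k : ℕ} {E R F : Type} [Fintype E] [CommRing R] [CommRing F] (D : QD k n E R)
    (hl : D.NL) (φ : R →+* F) (π : Equiv.Perm (Fin n)) (a : Fin n) :
    ∃ s : Multiset (Pol n R), (∀ l ∈ s, Fm π a l) ∧
      expand φ π s.prod * Ring.inverse (expand φ π (∏ p ∈ D.Wt, D.chi p)) ∈ PP F (π a) := by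
  classical
  refine ⟨(D.Wt.filter fun p => Fm π a (D.chi p)).val.map D.chi, fun l hl => ?_, ?_⟩
  · obtain ⟨p, hp, rfl⟩ := Multiset.mem_map.1 hl
    exact (mem_filter.1 hp).2
  · have hu : IsUnit (expand φ π (∏ p ∈ D.Wt with Fm π a (D.chi p), D.chi p)) := by
      rw [map_prod]
      exact IsUnit.prod_iff.2 fun p hp => (mem_filter.1 hp).2.isUnit φ
    rw [← prod_eq_multiset_prod, ← prod_filter_mul_prod_filter_not D.Wt fun p => Fm π a (D.chi p),
      map_mul, inverse_mul', ← mul_assoc, Ring.mul_inverse_cancel _ hu, one_mul, map_prod,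
      inverse_prod]
    refine prod_mem fun p hp => ?_
    obtain ⟨h1, h2⟩ := mem_filter.1 hp
    obtain ⟨b, hb⟩ : ∃ b, Fm π b (D.chi p) := by
      rcases D.wt_cases hl π h1 with ⟨b, h3, h4⟩ | ⟨b, h3, h4, -⟩
      · exact ⟨b, p.2.2, _, h3 ▸ h4, Or.inr (by
          simpa only [map_zero, add_zero (D.chi p)] using D.chi_src h3 0)⟩
      · exact ⟨b, p.2.1, _, h3 ▸ h4, Or.inl (by simpa using D.chi_tgt h3 0)⟩
    exact hb.inv_mem φ fun e => h2 (e ▸ hb)

theorem kill_mono {R B : Type} [CommRing R] [CommRing B] (φ : R →+* B) (m : ℕ) (a : R) :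
    Polynomial.eval₂RingHom (HahnSeries.C.comp φ) (lv B) (Polynomial.monomial m a) =
      HahnSeries.single (-(m : ℤ)) (φ a) := by
  simp [lv, HahnSeries.single_pow, HahnSeries.C_apply, HahnSeries.single_mul_single]

theorem sep_prod {R ι : Type} [CommRing R] [IsDomain R] (s : Finset ι) (q : Ideal (Pol n R))
    (f : ι → Pol n R) (h : ∀ i ∈ s, ∃ r : R, r ≠ 0 ∧ C r ∈ q ⊔ Ideal.span {f i}) :
    ∃ r : R, r ≠ 0 ∧ C r ∈ q ⊔ Ideal.span {∏ i ∈ s, f i} := by
  classical
  induction s using Finset.induction_on with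
  | empty => exact ⟨1, one_ne_zero, by simp⟩
  | insert a s ha ih =>
    obtain ⟨r, h1, h2⟩ := ih fun i hi => h i (mem_insert_of_mem hi)
    obtain ⟨r', h3, h4⟩ := h a (mem_insert_self _ _)
    obtain ⟨u, hu, v, hv, e⟩ := Submodule.mem_sup.1 h2
    obtain ⟨u', hu', v', hv', e'⟩ := Submodule.mem_sup.1 h4
    refine ⟨r' * r, mul_ne_zero h3 h1, Submodule.mem_sup.2 ⟨u' * (u + v) + v' * u,
      q.add_mem (q.mul_mem_right _ hu') (q.mul_mem_left _ hu), v' * v, ?_, ?_⟩⟩
    · rw [prod_insert ha, Ideal.mem_span_singleton]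
      exact mul_dvd_mul (Ideal.mem_span_singleton.1 hv') (Ideal.mem_span_singleton.1 hv)
    · rw [map_mul, ← e, ← e']
      ring

namespace QD

variable {k : ℕ} {E R : Type} [Fintype E] [CommRing R] [IsDomain R] (D : QD k n E R)

/-- order of the vertices, the framing vertex last -/
def rk (o : Option (Fin k)) : ℕ := o.elim k fun i => i.1

/-- the shift of the flavour of an arrow -/
def cs (e : E) : ℤ := if rk (D.src e) < rk (D.tgt e) then 0 else 1

/-- flavours moved to `ħ = 0` -/
def fl : QD k n E R := ⟨D.col, D.src, D.tgt, fun e => D.t e - (D.cs e : R) * D.h, 0⟩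

/-- the deformation over `R[X]` with `ħ = X` -/
def df : QD k n E R[X] :=
  ⟨D.col, D.src, D.tgt, fun e => Polynomial.C (D.fl.t e) + (D.cs e : R[X]) * Polynomial.X,
    Polynomial.X⟩

theorem df_map : D.df.map (Polynomial.evalRingHom D.h) = D := by
  cases D; simp [df, map, fl]

theorem df_chi (p : E × Option (Fin n) × Option (Fin n)) : D.df.chi p =
    MvPolynomial.map Polynomial.C (D.fl.chi p) + (D.cs p.1 : Pol n R[X]) * C Polynomial.X := by
  simp only [chi, df, map_add, map_sub, map_xv, map_C, map_mul, map_intCast]; ring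

end QD

variable (n) (R : Type) [CommRing R] [IsDomain R]

/-- iterated Laurent series in the variables over the fraction field -/
abbrev H0 : Type := HahnSeries (Gam n) (FractionRing R)

/-- the field of values -/
abbrev FF : Type := LS (FractionRing R)

/-- `R[X] → FF`, `X` large -/
def i0 : R[X] →+* FF R :=
  Polynomial.eval₂RingHom (HahnSeries.C.comp (algebraMap R (FractionRing R))) (lv _)

theorem i0_injective : Function.Injective (i0 R) := by
  have key : ∀ (r : R[X]) (m : ℕ),
      (i0 R r).coeff (-(m : ℤ)) = algebraMap R (FractionRing R) (r.coeff m) := fun r m => by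
    induction r using Polynomial.induction_on' with
    | add p q hp hq => rw [map_add, HahnSeries.coeff_add, hp, hq, Polynomial.coeff_add, map_add]
    | monomial j a =>
      rw [i0, kill_mono, HahnSeries.coeff_single, Polynomial.coeff_monomial]
      by_cases h : j = m
      · simp [h]
      · simp [h, Ne.symm h]
  intro p q h
  ext m
  apply IsFractionRing.injective R (FractionRing R)
  rw [← key, ← key, h]

variable {n R}

/-- expansion with `ħ` larger than all variables -/
def ex2 (π : Equiv.Perm (Fin n)) : Pol n R[X] →+* LS (H0 n R) :=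
  eval₂Hom (Polynomial.eval₂RingHom
    (HahnSeries.C.comp (HahnSeries.C.comp (algebraMap R (FractionRing R)))) (lv _))
    fun a => HahnSeries.C (vv _ (π a))

theorem ex2_X (π : Equiv.Perm (Fin n)) (a : Fin n) :
    ex2 (R := R) π (X a : Pol n R[X]) = HahnSeries.C (vv _ (π a)) := by simp [ex2]

theorem ex2_h (π : Equiv.Perm (Fin n)) : ex2 (R := R) π (C Polynomial.X : Pol n R[X]) = lv _ := by
  simp [ex2]

theorem ex2_map (π : Equiv.Perm (Fin n)) (f : Pol n R) :
    ex2 (R := R) π (MvPolynomial.map Polynomial.C f) =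
      HahnSeries.C (expand (algebraMap R (FractionRing R)) π f) := by
  induction f using MvPolynomial.induction_on with
  | C r => simp [ex2]
  | add p q hp hq => simp only [map_add, hp, hq]
  | mul_X p a hp => simp only [map_mul, hp, map_X, ex2_X, expand_X]

theorem ex2_rename (π w : Equiv.Perm (Fin n)) (f : Pol n R[X]) :
    ex2 (R := R) π (rename w f) = ex2 (R := R) (π * w) f := by
  induction f using MvPolynomial.induction_on with
  | C r => simp [ex2]
  | add p q hp hq => simp only [map_add, hp, hq]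
  | mul_X p a hp => simp only [map_mul, hp, rename_X, ex2_X, Equiv.Perm.mul_apply]

theorem ex2_mem_PP (π : Equiv.Perm (Fin n)) (i : Fin n) (f : Pol n R[X]) :
    ex2 (R := R) π f ∈ CoefIn (PP (FractionRing R) i) := by
  induction f using MvPolynomial.induction_on with
  | C r =>
    induction r using Polynomial.induction_on with
    | C a =>
      rw [← map_C, ex2_map]
      exact C_mem_CoefIn (expand_mem_PP _ π i _)
    | add p q hp hq =>
      rw [map_add, map_add]
      exact add_mem hp hq
    | monomial m a h =>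
      rw [pow_succ, ← mul_assoc, map_mul, map_mul, ex2_h]
      exact mul_mem h (lv_mem_CoefIn _)
  | add p q hp hq =>
    rw [map_add]
    exact add_mem hp hq
  | mul_X p a hp =>
    rw [map_mul, ex2_X, ← expand_X (algebraMap R (FractionRing R))]
    exact mul_mem hp (C_mem_CoefIn (expand_mem_PP _ π i _))

/-- residue in the variables -/
def Res : LS (H0 n R) →+ FF R where
  toFun G := G.map (HahnSeries.coeff.addMonoidHom (toLex fun _ => 1))
  map_zero' := by ext; simp
  map_add' _ _ := HahnSeries.map_add _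

theorem Res_coeff (G : LS (H0 n R)) (j : ℤ) :
    (Res G).coeff j = (G.coeff j).coeff (toLex fun _ => 1) := rfl

theorem Res_C (G : H0 n R) : Res (HahnSeries.C G) = HahnSeries.C (G.coeff (toLex fun _ => 1)) := by
  ext j
  rw [Res_coeff, HahnSeries.C_apply, HahnSeries.C_apply, HahnSeries.coeff_single,
    HahnSeries.coeff_single]
  split_ifs <;> rfl

theorem Res_ex2_C (π : Equiv.Perm (Fin n)) (r : R[X]) (G : LS (H0 n R)) :
    Res (ex2 (R := R) π (C r) * G) = i0 R r * Res G := by
  induction r using Polynomial.induction_on' with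
  | add p q hp hq => rw [map_add, map_add, add_mul, map_add, hp, hq, map_add, add_mul]
  | monomial m a =>
    ext j
    rw [ex2, eval₂Hom_C, i0, kill_mono, kill_mono, Res_coeff, coeff_single_mul', coeff_single_mul',
      RingHom.comp_apply, coeff_C_mul', Res_coeff]

theorem Res_eq_zero {i : Fin n} {G : LS (H0 n R)} (h : G ∈ CoefIn (PP (FractionRing R) i)) :
    Res G = 0 := by
  ext j
  exact PP.coeff_one (CoefIn.coeff_mem h j)

namespace QD

variable {k : ℕ} {E : Type} [Fintype E] (D : QD k n E R)

/-- inverse of the product of all weights at `ħ = 0` -/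
def Kz (π : Equiv.Perm (Fin n)) : LS (H0 n R) :=
  HahnSeries.C (Ring.inverse (expand (algebraMap R (FractionRing R)) π (∏ p ∈ D.Wt, D.fl.chi p)))

/-- polynomials killed by all residue functionals -/
def QQ : Ideal (Pol n R[X]) where
  carrier := {p | ∀ π g, Res (ex2 (R := R) π (p * g) * D.Kz π) = 0}
  add_mem' := fun ha hb π g => by
    rw [add_mul, map_add, add_mul, map_add, ha π g, hb π g, add_zero]
  zero_mem' := fun π g => by rw [zero_mul, map_zero, zero_mul, map_zero]
  smul_mem' := fun c p hp π g => by rw [smul_eq_mul, mul_comm c, mul_assoc p, hp]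

theorem mem_QQ {p : Pol n R[X]} : p ∈ D.QQ ↔ ∀ π g, Res (ex2 (R := R) π (p * g) * D.Kz π) = 0 := Iff.rfl

/-- one residue functional -/
def killL (π : Equiv.Perm (Fin n)) : Pol n R[X] →+ FF R where
  toFun p := Res (ex2 (R := R) π p * D.Kz π)
  map_zero' := by rw [map_zero, zero_mul, map_zero]
  map_add' p q := by rw [map_add, add_mul, map_add]

theorem killL_apply (π : Equiv.Perm (Fin n)) (p : Pol n R[X]) :
    D.killL π p = Res (ex2 (R := R) π p * D.Kz π) := rfl

theorem kill (hl : D.NL) (y : Pol n R) :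
    ∃ P : R[X], P.Monic ∧ Polynomial.aeval (MvPolynomial.map Polynomial.C y) P ∈ D.QQ := by
  have h := kill_all (R := R) (fun π => killRad (D.killL π)) (fun π a => by
      obtain ⟨s, h1, h2⟩ := kill_form D.fl hl (algebraMap R (FractionRing R)) π a
      refine ⟨s, h1, fun g => ?_⟩
      rw [Polynomial.algebraMap_eq, killL_apply, map_mul (ex2 (R := R) π), ex2_map,
        mul_right_comm, Kz, ← map_mul HahnSeries.C]
      exact Res_eq_zero (mul_mem (C_mem_CoefIn h2) (ex2_mem_PP π _ g))) y
  rw [Polynomial.algebraMap_eq] at h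
  obtain ⟨P, h1, h2⟩ := kill_mem _ h
  exact ⟨P, h1, D.mem_QQ.2 fun π g => Ideal.mem_iInf.1 h2 π g⟩

theorem Res_fl (π : Equiv.Perm (Fin n)) (f : Pol n R) :
    Res (ex2 (R := R) π (MvPolynomial.map Polynomial.C (f * D.NUM)) * D.Kz π) =
      HahnSeries.C (D.fl.res (algebraMap R (FractionRing R)) π f) := by
  rw [ex2_map, Kz, ← map_mul, Res_C, res, D.fl.num_eq rfl]
  simp only [D.fl.den_eq rfl]
  rfl

end QD

/-- finiteness of the residue pairing over a field at `ħ = 0` -/
theorem finite_res {k : ℕ} {E F : Type} [Fintype E] [Field F] (D : QD k n E F) (hl : D.NL)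
    (hh : D.h = 0) : ∃ q : Ideal (Pol n F), Module.Finite F (Pol n F ⧸ q) ∧
      ∀ p ∈ q, ∀ π, D.res (RingHom.id F) π p = 0 := by
  have h := kill_all (R := F) (fun π => killRad
    (AddMonoidHom.mk' (D.res (RingHom.id F) π) (D.res_add _ π))) fun π a => by
      obtain ⟨s, h1, h2⟩ := kill_form D hl (RingHom.id F) π a
      refine ⟨s, h1, fun g => ?_⟩
      change D.res (RingHom.id F) π (MvPolynomial.map (RingHom.id F) s.prod * g) = 0
      rw [MvPolynomial.map_id, QD.res, mul_assoc s.prod, map_mul, mul_right_comm]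
      simp only [D.den_eq hh]
      exact PP.coeff_one (mul_mem h2 (expand_mem_PP _ π _ _))
  refine ⟨⨅ π, killRad (AddMonoidHom.mk' (D.res (RingHom.id F) π) (D.res_add _ π)),
    @Algebra.IsIntegral.finite _ _ _ _ _ ⟨fun x => ?_⟩ _, fun p hp π => ?_⟩
  · obtain ⟨y, rfl⟩ := Ideal.Quotient.mk_surjective x
    have h1 := h y
    rw [Algebra.algebraMap_self, MvPolynomial.map_id] at h1
    exact h1
  · have h1 := Ideal.mem_iInf.1 hp π 1
    rwa [mul_one] at h1

end Pool.Agent.Work.MP_849ab0_ag
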