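import Pool.Agent.Work.MP_849ab0_ag.JI
import Pool.Agent.Work.MP_849ab0_ag.Kill

-- merged part: Pool.Agent.Work.MP_849ab0_ag.GL0
section
/-! Local expansions around lattice multiples of a large parameter: one variable lemmas. -/

noncomputable section

set_option linter.unusedSectionVars false

namespace Pool.Agent.Work.MP_849ab0_ag

open MvPolynomial Finset

variable {n : ℕ} {R F : Type} [CommRing R] [CommRing F]

/-- series in the large parameter over series in the variables -/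
abbrev H1 (n : ℕ) (F : Type) [CommRing F] : Type := LS (HahnSeries (Gam n) F)

/-- coefficient of one exponent of the variables -/
def cfL (γ : Gam n) : H1 n F →+ LS F where
  toFun G := G.map (HahnSeries.coeff.addMonoidHom γ)
  map_zero' := by ext; simp
  map_add' _ _ := HahnSeries.map_add _

theorem cfL_coeff (γ : Gam n) (G : H1 n F) (j : ℤ) :
    (cfL γ G).coeff j = (G.coeff j).coeff γ := rfl

/-- expansion around the point `r · lv` -/
def eL (i1 : R →+* LS F) (r : Fin n → ℤ) (π : Equiv.Perm (Fin n)) : Pol n R →+* H1 n F :=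
  eval₂Hom ((hmap ℤ HahnSeries.C).comp i1) fun a =>
    (r a : H1 n F) * lv _ + HahnSeries.C (vv F (π a))

/-- series not involving the variable number `i` -/
def ZZ (F : Type) [CommRing F] (i : Fin n) : Subring (HahnSeries (Gam n) F) :=
  SR F
    { carrier := {γ | ofLex γ i = 0}
      add_mem' := fun {x y} hx hy => show ofLex x i + ofLex y i = 0 by rw [hx, hy, add_zero]
      zero_mem' := rfl }

theorem cfL_C (γ : Gam n) (G : HahnSeries (Gam n) F) :
    cfL γ (HahnSeries.C G) = HahnSeries.C (G.coeff γ) := by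
  ext j
  rw [cfL_coeff, HahnSeries.C_apply, HahnSeries.C_apply, HahnSeries.coeff_single,
    HahnSeries.coeff_single]
  split_ifs
  exacts [rfl, rfl]

theorem cfL_hmap (γ : Gam n) (c : LS F) (G : H1 n F) :
    cfL γ (hmap ℤ HahnSeries.C c * G) = c * cfL γ G := by
  ext j
  rw [cfL_coeff, HahnSeries.coeff_mul_left' c.isPWO_support fun i hi k => hi (by
      rw [hmap_coeff, k, map_zero]),
    HahnSeries.coeff_mul_right' G.isPWO_support fun i hi k => hi (by
      rw [cfL_coeff, k, HahnSeries.coeff_zero]), HahnSeries.coeff_sum]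
  exact sum_congr rfl fun q _ => coeff_C_mul' _ _ _

theorem cfL_PP {i : Fin n} {γ : Gam n} (hγ : 0 < ofLex γ i) {G : H1 n F}
    (h : G ∈ CoefIn (PP F i)) : cfL γ G = 0 := by
  ext j
  by_contra k
  exact hγ.not_ge (CoefIn.coeff_mem h j γ k)

theorem ZZ_le (i : Fin n) : ZZ F i ≤ PP F i := by
  exact fun x hx γ h => le_of_eq (hx γ h)

theorem eL_X (i1 : R →+* LS F) (r : Fin n → ℤ) (π : Equiv.Perm (Fin n)) (a : Fin n) :
    eL i1 r π (X a) = (r a : H1 n F) * lv _ + HahnSeries.C (vv F (π a)) := by simp [eL]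

theorem eL_C (i1 : R →+* LS F) (r : Fin n → ℤ) (π : Equiv.Perm (Fin n)) (c : R) :
    eL i1 r π (C c) = hmap ℤ HahnSeries.C (i1 c) := by simp [eL]

theorem GL0_xv (i1 : R →+* LS F) (r : Fin n → ℤ) (π : Equiv.Perm (Fin n)) (o : Option (Fin n)) :
    eL i1 r π (xv o) =
      (ov r o : H1 n F) * lv _ + HahnSeries.C (expand (RingHom.id F) π (xv o)) := by
  cases o with
  | none => simp
  | some a => rw [xv_some, xv_some, eL_X, expand_X, ov_some]

theorem eL_form {i1 : R →+* LS F} (r : Fin n → ℤ) (π : Equiv.Perm (Fin n))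
    (o o' : Option (Fin n)) {c : R} {m : ℤ} {c₀ : F}
    (h : i1 c = (m : LS F) * lv F + HahnSeries.C c₀) :
    eL i1 r π (xv o - xv o' + C c) = ((ov r o - ov r o' + m : ℤ) : H1 n F) * lv _ +
      HahnSeries.C (expand (RingHom.id F) π (xv o - xv o' + C c₀)) := by
  simp only [map_add, map_sub, GL0_xv, eL_C, h, map_mul, map_intCast, hmap_lv, hmap_C, expand_C,
    RingHom.id_apply, Int.cast_add, Int.cast_sub]
  ring

/-- values of `eL` have coefficients in any subring containing the variables and constants -/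
theorem eL_mem (i1 : R →+* LS F) (r : Fin n → ℤ) (π : Equiv.Perm (Fin n))
    {S : Subring (HahnSeries (Gam n) F)} (hC : ∀ c, HahnSeries.C c ∈ S) {A : Set (Fin n)}
    (hA : ∀ a ∈ A, vv F (π a) ∈ S) {f : Pol n R} (hf : f ∈ supported R A) :
    eL i1 r π f ∈ CoefIn S := by
  rw [supported_eq_adjoin_X] at hf
  induction hf using Algebra.adjoin_induction with
  | mem x hx =>
    obtain ⟨a, ha, rfl⟩ := hx
    rw [eL_X]
    exact add_mem (mul_mem (intCast_mem _ _) (lv_mem_CoefIn S)) (C_mem_CoefIn (hA a ha))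
  | algebraMap c =>
    rw [algebraMap_eq, eL_C]
    exact mem_CoefIn_of_coeff fun j => hC _
  | add x y _ _ h1 h2 => rw [map_add]; exact add_mem h1 h2
  | mul x y _ _ h1 h2 => rw [map_mul]; exact mul_mem h1 h2

theorem eL_congr (i1 : R →+* LS F) {r r' : Fin n → ℤ} (π : Equiv.Perm (Fin n)) {A : Set (Fin n)}
    (hA : ∀ a ∈ A, r a = r' a) {f : Pol n R} (hf : f ∈ supported R A) :
    eL i1 r π f = eL i1 r' π f := by
  rw [supported_eq_adjoin_X] at hf
  induction hf using Algebra.adjoin_induction with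
  | mem x hx =>
    obtain ⟨a, ha, rfl⟩ := hx
    rw [eL_X, eL_X, hA a ha]
  | algebraMap c => rw [algebraMap_eq, eL_C, eL_C]
  | add x y _ _ h1 h2 => rw [map_add, map_add, h1, h2]
  | mul x y _ _ h1 h2 => rw [map_mul, map_mul, h1, h2]

theorem GL0_mul_C (γ : Gam n) (G : H1 n F) (P : HahnSeries (Gam n) F) (j : ℤ) :
    (cfL γ (G * HahnSeries.C P)).coeff j = (G.coeff j * P).coeff γ := by
  rw [cfL_coeff, mul_comm, coeff_C_mul', mul_comm]

theorem eL_zero (i1 : R →+* LS F) (π : Equiv.Perm (Fin n)) (γ : Gam n) (f : Pol n R) :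
    cfL γ (eL i1 0 π f) = i1 ((expand (RingHom.id R) π f).coeff γ) := by
  induction f using MvPolynomial.induction_on generalizing γ with
  | C c =>
    rw [eL_C, expand_C, ← mul_one (hmap _ _ _), cfL_hmap, ← map_one HahnSeries.C, cfL_C,
      HahnSeries.C_apply (RingHom.id R c), HahnSeries.coeff_single, HahnSeries.coeff_one]
    split_ifs <;> simp
  | add p q hp hq => rw [map_add, map_add, map_add, HahnSeries.coeff_add, map_add, hp, hq]
  | mul_X p a hp =>
    rw [map_mul (eL _ _ _), map_mul (expand _ _), eL_X, expand_X, mul_comm (expand _ _ _), vv, vv, coeff_single_mul',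
      one_mul, ← hp, Pi.zero_apply, Int.cast_zero, zero_mul, zero_add]
    ext j
    rw [GL0_mul_C, mul_comm, coeff_single_mul', one_mul, cfL_coeff]

/-- all exponents of the variable number `i` are at least `k` -/
def GL0_ge (i : Fin n) (k : ℤ) (x : HahnSeries (Gam n) F) : Prop :=
  ∀ γ, x.coeff γ ≠ 0 → k ≤ ofLex γ i

theorem GL0_ge.mul {i : Fin n} {k l : ℤ} {x y : HahnSeries (Gam n) F} (hx : GL0_ge i k x)
    (hy : GL0_ge i l y) : GL0_ge i (k + l) (x * y) := fun _ h =>
  let ⟨a, b, ha, hb, e⟩ := Laur_mul h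
  e ▸ add_le_add (hx a ha) (hy b hb)

theorem GL0_c (φ : R →+* F) {π : Equiv.Perm (Fin n)} {a : Fin n} {o : Option (Fin n)}
    (ho : outer π (some a) o) (r : R) : Hahn_c φ π o r ∈ ZZ F (π a) := fun γ h => by
  rcases Hahn_c_supp h with rfl | ⟨b, rfl, rfl⟩
  · rfl
  · show -(Pi.single (π b) 1 : Fin n → ℤ) (π a) = 0
    rw [Pi.single_eq_of_ne (ne_of_lt ho), neg_zero]

theorem GL0_inv (φ : R →+* F) {π : Equiv.Perm (Fin n)} {a : Fin n} {o : Option (Fin n)}
    (ho : outer π (some a) o) (r : R) :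
    GL0_ge (π a) 1 (Ring.inverse (expand φ π (X a - xv o + C r))) := fun γ h => by
  have := Hahn_supp φ ho r (M :=
    { carrier := {γ | 0 ≤ ofLex γ (π a)}
      add_mem' := fun {x y} hx hy =>
        show 0 ≤ ofLex x (π a) + ofLex y (π a) from add_nonneg (a := ofLex x (π a)) hx hy
      zero_mem' := le_refl (0 : ℤ) })
    (show 0 ≤ (Pi.single (π a) 1 : Fin n → ℤ) (π a) by simp) (fun c _ => by
      show 0 ≤ (Pi.single (π a) 1 : Fin n → ℤ) (π a) - (Pi.single (π c) 1 : Fin n → ℤ) (π a)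
      rw [Pi.single_eq_same, Pi.single_apply]
      split_ifs <;> simp) h
  have h2 : 0 ≤ ofLex γ (π a) - (Pi.single (π a) 1 : Fin n → ℤ) (π a) := this
  rwa [Pi.single_eq_same, sub_nonneg] at h2

theorem GL0_prod (φ : R →+* F) (π : Equiv.Perm (Fin n)) (a : Fin n)
    (L : List (Option (Fin n) × R)) (hL : ∀ x ∈ L, outer π (some a) x.1) :
    GL0_ge (π a) L.length
      (L.map fun x => Ring.inverse (expand φ π (X a - xv x.1 + C x.2))).prod := by
  induction L with
  | nil => exact fun γ h => Laur_single (γ := 0) h ▸ le_rfl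
  | cons x L ih =>
    rw [List.map_cons, List.prod_cons, List.length_cons, Nat.cast_succ, add_comm]
    exact (GL0_inv φ (hL x List.mem_cons_self) _).mul
      (ih fun y hy => hL y (List.mem_cons_of_mem _ hy))

theorem GL0_one {i : Fin n} {γ : Gam n} (hγ : ofLex γ i = 0) :
    ofLex (γ + toLex (Pi.single i 1) : Gam n) i = 1 := by
  show ofLex γ i + (Pi.single i 1 : Fin n → ℤ) i = 1
  rw [hγ, Pi.single_eq_same, zero_add]

theorem slice (φ : R →+* F) (π : Equiv.Perm (Fin n)) (a : Fin n)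
    (L : List (Option (Fin n) × R)) (hL : ∀ x ∈ L, outer π (some a) x.1)
    {G : HahnSeries (Gam n) F} (hG : G ∈ ZZ F (π a)) {γ : Gam n} (hγ : ofLex γ (π a) = 0) :
    (G * (L.map fun x => Ring.inverse (expand φ π (X a - xv x.1 + C x.2))).prod).coeff
      (γ + toLex (Pi.single (π a) 1)) = if L.length = 1 then G.coeff γ else 0 := by
  have h0 : GL0_ge (π a) 0 G := fun δ h => (hG δ h).ge
  rcases L with _ | ⟨x, _ | ⟨y, L⟩⟩
  · rw [List.map_nil, List.prod_nil, mul_one, if_neg (by simp)]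
    by_contra h
    exact one_ne_zero ((GL0_one hγ).symm.trans (hG _ h))
  · have ho := hL x List.mem_cons_self
    have h1 := h0.mul (GL0_inv φ ho x.2)
    have h2 := Ring.mul_inverse_cancel _ (Hahn_unit φ ho x.2)
    rw [List.map_singleton, List.prod_singleton, if_pos (by simp)]
    generalize Ring.inverse (expand φ π (X a - xv x.1 + C x.2)) = I at h1 h2
    have h3 : G = HahnSeries.single (-toLex (Pi.single (π a) 1)) 1 * (G * I) +
        Hahn_c φ π x.1 x.2 * (G * I) := by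
      rw [← add_mul, ← Hahn_form, mul_left_comm, h2, mul_one]
    have h4 : (Hahn_c φ π x.1 x.2 * (G * I)).coeff γ = 0 := by
      by_contra k
      have := GL0_ge.mul (fun δ h => (GL0_c φ ho x.2 δ h).ge) h1 γ k
      omega
    have h5 := congrArg (HahnSeries.coeff · γ) h3
    simp only [HahnSeries.coeff_add, h4, coeff_single_mul', one_mul, sub_neg_eq_add,
      add_zero] at h5
    exact h5.symm
  · rw [if_neg (by simp)]
    by_contra h
    have := h0.mul (GL0_prod φ π a _ hL) _ h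
    rw [GL0_one hγ, List.length_cons, List.length_cons] at this
    omega

variable [Algebra ℚ F]

theorem GL0_int {m : ℤ} (hm : m ≠ 0) : (HahnSeries.C (m : F) : HahnSeries (Gam n) F) *
    HahnSeries.C (algebraMap ℚ F (m : ℚ)⁻¹) = 1 := by
  rw [← map_mul, ← map_intCast (algebraMap ℚ F), ← map_mul, mul_inv_cancel₀ (by exact_mod_cast hm),
    map_one, map_one]

theorem GL0_cast (m : ℤ) : (m : H1 n F) = HahnSeries.C (HahnSeries.C (m : F)) := by
  rw [map_intCast, map_intCast]

theorem isUnit_loc {m : ℤ} (hm : m ≠ 0) (c : HahnSeries (Gam n) F) :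
    IsUnit ((m : H1 n F) * lv _ + HahnSeries.C c) := by
  rw [GL0_cast]
  exact isUnit_lv_add (.of_mul_eq_one _ (GL0_int hm)) c

theorem inv_loc_mem {S : Subring (HahnSeries (Gam n) F)} (hC : ∀ c, HahnSeries.C c ∈ S) {m : ℤ}
    (hm : m ≠ 0) {c : HahnSeries (Gam n) F} (hc : c ∈ S) :
    Ring.inverse ((m : H1 n F) * lv _ + HahnSeries.C c) ∈ CoefIn S := by
  rw [GL0_cast]
  exact inverse_mem_CoefIn (hC _) (hC _) (GL0_int hm) hc

theorem isUnit_eL {i1 : R →+* LS F} (r : Fin n → ℤ) (π : Equiv.Perm (Fin n))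
    {o o' : Option (Fin n)} (ho : o ≠ o') {c : R} {m : ℤ} {c₀ : F}
    (h : i1 c = (m : LS F) * lv F + HahnSeries.C c₀) : IsUnit (eL i1 r π (xv o - xv o' + C c)) := by
  rw [eL_form r π o o' h]
  by_cases k : ov r o - ov r o' + m = 0
  · rw [k, Int.cast_zero, zero_mul, zero_add]
    exact (isUnit_form _ π ho c₀).map _
  · exact isUnit_loc k _

theorem inv_eL_mem {i1 : R →+* LS F} (r : Fin n → ℤ) (π : Equiv.Perm (Fin n))
    {o o' : Option (Fin n)} {c : R} {m : ℤ} {c₀ : F}
    (h : i1 c = (m : LS F) * lv F + HahnSeries.C c₀) {S : Subring (HahnSeries (Gam n) F)}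
    (hC : ∀ c, HahnSeries.C c ∈ S) (ho : o ≠ o')
    (hf : expand (RingHom.id F) π (xv o - xv o' + C c₀) ∈ S)
    (hi : ov r o - ov r o' + m = 0 →
      Ring.inverse (expand (RingHom.id F) π (xv o - xv o' + C c₀)) ∈ S) :
    Ring.inverse (eL i1 r π (xv o - xv o' + C c)) ∈ CoefIn S := by
  rw [eL_form r π o o' h]
  by_cases k : ov r o - ov r o' + m = 0
  · rw [k, Int.cast_zero, zero_mul, zero_add, ← map_inverse _ (isUnit_form _ π ho c₀)]
    exact C_mem_CoefIn (hi k)
  · exact inv_loc_mem hC k hf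

theorem GL0_pf {A : Type} [CommRing A] {x y d : A} (hx : IsUnit x) (hy : IsUnit y)
    (hd : IsUnit d) (h : d = y - x) (G P : A) : G * (Ring.inverse x * (Ring.inverse y * P)) =
      G * Ring.inverse d * (Ring.inverse x * P) - G * Ring.inverse d * (Ring.inverse y * P) := by
  have e1 := Ring.mul_inverse_cancel _ hx
  have e2 := Ring.mul_inverse_cancel _ hy
  have e3 := Ring.mul_inverse_cancel _ hd
  generalize Ring.inverse d = d' at *
  rw [h] at e3
  linear_combination G * P * (-(Ring.inverse x * Ring.inverse y) * e3 +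
    d' * Ring.inverse x * e2 - d' * Ring.inverse y * e1)

theorem GL0_mono {S T : Subring (HahnSeries (Gam n) F)} (h : S ≤ T) {G : H1 n F}
    (hG : G ∈ CoefIn S) : G ∈ CoefIn T := mem_CoefIn_of_coeff fun j => h (CoefIn.coeff_mem hG j)

theorem GL0_unit {π : Equiv.Perm (Fin n)} {a : Fin n} {o : Option (Fin n)}
    (ho : outer π (some a) o) (m : ℤ) (c : F) : IsUnit ((m : H1 n F) * lv _ +
      HahnSeries.C (expand (RingHom.id F) π (X a - xv o + C c))) := by
  by_cases k : m = 0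
  · rw [k, Int.cast_zero, zero_mul, zero_add]
    exact (Hahn_unit _ ho c).map _
  · exact isUnit_loc k _

theorem GL0_same (π : Equiv.Perm (Fin n)) (a : Fin n) (L : List (ℤ × Option (Fin n) × F))
    (hL : ∀ x ∈ L, outer π (some a) x.2.1) (Z : Finset ℤ) (hZ : ∀ x ∈ L, x.1 ∈ Z)
    {G : H1 n F} (hG : G ∈ CoefIn (ZZ F (π a))) {γ : Gam n} (hγ : ofLex γ (π a) = 0)
    {m : ℤ} (hm : ∀ x ∈ L, x.1 = m) :
    ∑ ρ ∈ Z, cfL (γ + toLex (Pi.single (π a) 1)) (G * (L.map fun x => Ring.inverse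
      (((ρ - x.1 : ℤ) : H1 n F) * lv _ +
        HahnSeries.C (expand (RingHom.id F) π (X a - xv x.2.1 + C x.2.2)))).prod) =
      if L.length = 1 then cfL γ G else 0 := by
  have h1 : cfL (γ + toLex (Pi.single (π a) 1)) (G * (L.map fun x => Ring.inverse
      (((m - x.1 : ℤ) : H1 n F) * lv _ +
        HahnSeries.C (expand (RingHom.id F) π (X a - xv x.2.1 + C x.2.2)))).prod) =
      if L.length = 1 then cfL γ G else 0 := by
    have h2 : (L.map fun x => Ring.inverse (((m - x.1 : ℤ) : H1 n F) * lv _ +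
        HahnSeries.C (expand (RingHom.id F) π (X a - xv x.2.1 + C x.2.2)))).prod =
        HahnSeries.C ((L.map Prod.snd).map fun x =>
          Ring.inverse (expand (RingHom.id F) π (X a - xv x.1 + C x.2))).prod := by
      rw [map_list_prod, List.map_map, List.map_map]
      refine congrArg _ (List.map_congr_left fun x hx => ?_)
      rw [hm x hx, sub_self, Int.cast_zero, zero_mul, zero_add,
        ← map_inverse _ (Hahn_unit _ (hL x hx) _)]
      rfl
    ext j
    rw [h2, GL0_mul_C, slice _ π a _ (List.forall_mem_map.2 hL) (CoefIn.coeff_mem hG j) hγ,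
      List.length_map]
    split_ifs
    exacts [rfl, rfl]
  rw [sum_eq_single m (fun ρ _ hρ => ?_) fun h => ?_, h1]
  · refine cfL_PP (i := π a) (by rw [GL0_one hγ]; exact one_pos)
      (mul_mem (GL0_mono (ZZ_le _) hG) (list_prod_mem fun y hy => ?_))
    obtain ⟨x, hx, rfl⟩ := List.mem_map.1 hy
    exact inv_loc_mem (C_mem_SR _) (by rw [hm x hx]; exact sub_ne_zero.2 hρ)
      (expand_mem_PP _ _ _ _)
  · rw [h1, if_neg fun k => h ?_]
    obtain ⟨x, rfl⟩ := List.length_eq_one_iff.1 k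
    exact hm x List.mem_cons_self ▸ hZ x List.mem_cons_self

theorem sliceL (π : Equiv.Perm (Fin n)) (a : Fin n) (L : List (ℤ × Option (Fin n) × F))
    (hL : ∀ x ∈ L, outer π (some a) x.2.1) (Z : Finset ℤ) (hZ : ∀ x ∈ L, x.1 ∈ Z)
    {G : H1 n F} (hG : G ∈ CoefIn (ZZ F (π a))) {γ : Gam n} (hγ : ofLex γ (π a) = 0) :
    ∑ ρ ∈ Z, cfL (γ + toLex (Pi.single (π a) 1)) (G * (L.map fun x => Ring.inverse
      (((ρ - x.1 : ℤ) : H1 n F) * lv _ +
        HahnSeries.C (expand (RingHom.id F) π (X a - xv x.2.1 + C x.2.2)))).prod) =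
      if L.length = 1 then cfL γ G else 0 := by
  classical
  induction hN : L.length using Nat.strong_induction_on generalizing L G with
  | _ N ih =>
  subst hN
  by_cases h : ∃ x ∈ L, ∃ y ∈ L, x.1 ≠ y.1
  swap
  · push Not at h
    rcases L with _ | ⟨x, L⟩
    · exact GL0_same π a _ hL Z hZ hG hγ (m := 0) (by simp)
    · exact GL0_same π a _ hL Z hZ hG hγ fun y hy => h y hy x List.mem_cons_self
  obtain ⟨x, hx, y, hy, hxy⟩ := h
  have hy' : y ∈ L.erase x := (List.mem_erase_of_ne fun k => hxy (by rw [k])).2 hy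
  have hp := (List.perm_cons_erase hx).trans ((List.perm_cons_erase hy').cons x)
  generalize (L.erase x).erase y = L' at hp
  have hl := hp.length_eq
  rw [List.length_cons, List.length_cons] at hl
  have hs : ∀ z ∈ L', z ∈ L := fun z hz => hp.mem_iff.2 (by simp [hz])
  have hd := sub_ne_zero.2 hxy
  have hG' := mul_mem hG (inv_loc_mem (C_mem_SR _) hd (sub_mem
    (GL0_c (RingHom.id F) (hL y hy) y.2.2) (GL0_c (RingHom.id F) (hL x hx) x.2.2)))
  have h1 := fun z (hz : z ∈ L) => ih (z :: L').length (by rw [List.length_cons]; omega) (z :: L')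
    (List.forall_mem_cons.2 ⟨hL z hz, fun w hw => hL w (hs w hw)⟩)
    (List.forall_mem_cons.2 ⟨hZ z hz, fun w hw => hZ w (hs w hw)⟩) hG' rfl
  rw [if_neg (by omega), ← sub_self (if L'.length + 1 = 1 then _ else 0)]
  refine Eq.trans ?_ (congrArg₂ _ (h1 x hx) (h1 y hy))
  rw [← sum_sub_distrib]
  refine sum_congr rfl fun ρ _ => ?_
  rw [← map_sub, (hp.map _).prod_eq]
  simp only [List.map_cons, List.prod_cons]
  refine congrArg _ (GL0_pf (GL0_unit (hL x hx) _ _) (GL0_unit (hL y hy) _ _)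
    (isUnit_loc hd _) ?_ _ _)
  rw [Hahn_form, Hahn_form]
  simp only [map_add, map_sub, Int.cast_sub]
  ring

end Pool.Agent.Work.MP_849ab0_ag
end
end

-- merged part: Pool.Agent.Work.MP_849ab0_ag.GL
section
/-! The global residue is the sum of the local residues. -/

noncomputable section

set_option linter.unusedSectionVars false

namespace Pool.Agent.Work.MP_849ab0_ag

open MvPolynomial Finset

variable {n : ℕ} {R F : Type} [CommRing R] [CommRing F] [Algebra ℚ F]

/-- the box of cluster centres -/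
def box (n : ℕ) : Finset (Fin n → ℤ) := Fintype.piFinset fun _ => Icc (-(n : ℤ)) n

/-- the centres at the positions from `i` on -/
def Box (π : Equiv.Perm (Fin n)) (i : ℕ) : Finset (Fin n → ℤ) :=
  Fintype.piFinset fun a =>
    if (π a).1 < i then {0} else Icc (-((n : ℤ) - (π a).1)) ((n : ℤ) - (π a).1)

/-- the exponent with `1` at the positions from `i` on -/
def ei (n i : ℕ) : Gam n := toLex fun j => if i ≤ j.1 then 1 else 0

/-- admissible forms -/
def Adm (i1 : R →+* LS F) (π : Equiv.Perm (Fin n)) (x : Fin n × Option (Fin n) × R) : Prop :=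
  outer π (some x.1) x.2.1 ∧
    ∃ (m : ℤ) (c : F), |m| ≤ 1 ∧ i1 x.2.2 = (m : LS F) * lv F + HahnSeries.C c

/-- a form -/
def fm (x : Fin n × Option (Fin n) × R) : Pol n R := X x.1 - xv x.2.1 + C x.2.2

/-- product of the inverses of the images of a list of forms -/
def pinv {B : Type} [CommRing B] (e : Pol n R →+* B) (L : List (Fin n × Option (Fin n) × R)) : B :=
  (L.map fun x => Ring.inverse (e (fm x))).prod

theorem mem_box {r : Fin n → ℤ} : r ∈ box n ↔ ∀ a, |r a| ≤ n := by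
  simp [box, abs_le]

theorem GL_ne {π : Equiv.Perm (Fin n)} {a : Fin n} {o : Option (Fin n)}
    (h : outer π (some a) o) : some a ≠ o := by
  rintro rfl
  exact lt_irrefl (π a) h

theorem GL_cons {B : Type} [CommRing B] (e : Pol n R →+* B) (x : Fin n × Option (Fin n) × R)
    (L : List (Fin n × Option (Fin n) × R)) :
    pinv e (x :: L) = Ring.inverse (e (fm x)) * pinv e L := by simp [pinv]

theorem GL_app {B : Type} [CommRing B] (e : Pol n R →+* B)
    (L L' : List (Fin n × Option (Fin n) × R)) : pinv e (L ++ L') = pinv e L * pinv e L' := by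
  simp [pinv]

theorem GL_mem {B : Type} [CommRing B] (e : Pol n R →+* B) (S : Subring B)
    (L : List (Fin n × Option (Fin n) × R)) (h : ∀ x ∈ L, Ring.inverse (e (fm x)) ∈ S) :
    pinv e L ∈ S :=
  S.list_prod_mem fun y hy => by
    obtain ⟨x, hx, rfl⟩ := List.mem_map.1 hy
    exact h x hx

theorem GL_Box {π : Equiv.Perm (Fin n)} {i : ℕ} {r : Fin n → ℤ} : r ∈ Box π i ↔
    ∀ a, ((π a).1 < i → r a = 0) ∧ (i ≤ (π a).1 → |r a| ≤ (n : ℤ) - (π a).1) := by
  rw [Box, Fintype.mem_piFinset]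
  refine forall_congr' fun a => ?_
  split_ifs with h
  · simp [h]
  · simp only [h, not_lt.1 h, mem_Icc, abs_le, false_imp_iff, true_and, true_imp_iff]

theorem GL_box {M : Type} [AddCommMonoid M] (π : Equiv.Perm (Fin n)) {i : ℕ} {a : Fin n}
    (ha : (π a).1 = i) (T : (Fin n → ℤ) → M) :
    ∑ r ∈ Box π i, T r = ∑ r ∈ Box π (i + 1), ∑ ρ ∈ Icc (-((n : ℤ) - i)) ((n : ℤ) - i),
      T (Function.update r a ρ) := by
  have hb : ∀ b, b ≠ a → (π b).1 ≠ i := fun b hb e => hb (π.injective (Fin.ext (e.trans ha.symm)))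
  rw [← sum_product']
  refine sum_nbij' (fun r => (Function.update r a 0, r a)) (fun p => Function.update p.1 a p.2)
    (fun r hr => ?_) (fun p hp => ?_) (fun r _ => by simp) (fun p hp => ?_) fun r _ => by simp
  · rw [GL_Box] at hr
    refine mem_product.2 ⟨GL_Box.2 fun b => ?_, mem_Icc.2 (abs_le.1 (ha ▸ (hr a).2 ha.ge))⟩
    obtain rfl | h := eq_or_ne b a
    · exact ⟨fun _ => by simp, fun h => by omega⟩
    · have := hb b h
      simp only [Function.update_of_ne h]
      exact ⟨fun k => (hr b).1 (by omega), fun k => (hr b).2 (by omega)⟩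
  · obtain ⟨h1, h2⟩ := mem_product.1 hp
    rw [GL_Box] at h1 ⊢
    intro b
    obtain rfl | h := eq_or_ne b a
    · simp only [Function.update_self]
      exact ⟨fun h => by omega, fun _ => ha ▸ abs_le.2 (mem_Icc.1 h2)⟩
    · have := hb b h
      simp only [Function.update_of_ne h]
      exact ⟨fun k => (h1 b).1 (by omega), fun k => (h1 b).2 (by omega)⟩
  · have h1 := ((GL_Box.1 (mem_product.1 hp).1) a).1 (by omega)
    refine Prod.ext ?_ (by simp)
    simp only [Function.update_idem]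
    rw [← h1, Function.update_eq_self]

theorem GL_ei {π : Equiv.Perm (Fin n)} {i : ℕ} {a : Fin n} (ha : (π a).1 = i) :
    ei n i = ei n (i + 1) + toLex (Pi.single (π a) 1) := by
  funext j
  change (if i ≤ j.1 then (1 : ℤ) else 0) = (if i + 1 ≤ j.1 then 1 else 0) +
    (Pi.single (π a) 1 : Fin n → ℤ) j
  obtain rfl | h := eq_or_ne j (π a)
  · rw [Pi.single_eq_same, if_pos ha.ge, if_neg (by omega), zero_add]
  · have : j.1 ≠ i := fun e => h (Fin.ext (e.trans ha.symm))
    rw [Pi.single_eq_of_ne h, add_zero]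
    exact if_congr (by omega) rfl rfl

theorem GL_xv {a : Fin n} {o : Option (Fin n)} (h : some a ≠ o) :
    (xv o : Pol n R) ∈ supported R {a}ᶜ := by
  cases o with
  | none => exact zero_mem _
  | some b =>
    rw [supported_eq_adjoin_X]
    exact Algebra.subset_adjoin ⟨b, fun e => h (congrArg some e.symm), rfl⟩

theorem GL_C {A : Set (Fin n)} (c : R) : (C c : Pol n R) ∈ supported R A :=
  (supported R A).algebraMap_mem c

theorem GL_div {x : Fin n × Option (Fin n) × R} (h : some x.1 ≠ x.2.1) (f : Pol n R) :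
    ∃ g f0, f0 ∈ supported R {x.1}ᶜ ∧ f = fm x * g + f0 := by
  induction f using MvPolynomial.induction_on with
  | C c => exact ⟨0, C c, GL_C c, by ring⟩
  | add f f' h1 h2 =>
    obtain ⟨g, f0, h0, rfl⟩ := h1
    obtain ⟨g', f0', h0', rfl⟩ := h2
    exact ⟨g + g', f0 + f0', add_mem h0 h0', by ring⟩
  | mul_X f b h1 =>
    obtain ⟨g, f0, h0, rfl⟩ := h1
    obtain rfl | hb := eq_or_ne b x.1
    · exact ⟨g * X x.1 + f0, f0 * (xv x.2.1 - C x.2.2),
        mul_mem h0 (sub_mem (GL_xv h) (GL_C _)), by rw [fm]; ring⟩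
    · exact ⟨g * X b, f0 * X b,
        mul_mem h0 (GL_xv (o := some b) fun e => hb (Option.some.inj e).symm), by ring⟩

theorem GL_vv (F : Type) [CommRing F] {π : Equiv.Perm (Fin n)} {a b : Fin n} (h : b ≠ a) :
    vv F (π b) ∈ ZZ F (π a) :=
  single_mem_SR (show (-Pi.single (π b) 1 : Fin n → ℤ) (π a) = 0 by
    rw [Pi.neg_apply, Pi.single_eq_of_ne (π.injective.ne h.symm), neg_zero]) 1

theorem GL_exp {F : Type} [CommRing F] (φ : R →+* F) (π : Equiv.Perm (Fin n)) {a : Fin n}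
    {f : Pol n R} (hf : f ∈ supported R {a}ᶜ) : expand φ π f ∈ ZZ F (π a) := by
  rw [supported_eq_adjoin_X] at hf
  induction hf using Algebra.adjoin_induction with
  | mem x hx =>
    obtain ⟨b, hb, rfl⟩ := hx
    rw [expand_X]
    exact GL_vv F hb
  | algebraMap c =>
    rw [algebraMap_eq, expand_C]
    exact C_mem_SR _ _
  | add x y _ _ h1 h2 => rw [map_add]; exact add_mem h1 h2
  | mul x y _ _ h1 h2 => rw [map_mul]; exact mul_mem h1 h2

theorem GL_sup {a b : Fin n} {o : Option (Fin n)} (h1 : a ≠ b) (h2 : some a ≠ o) (c : R) :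
    (X b - xv o + C c : Pol n R) ∈ supported R {a}ᶜ :=
  add_mem (sub_mem (GL_xv (o := some b) fun e => h1 (Option.some.inj e)) (GL_xv h2)) (GL_C c)

theorem GL_inv {F : Type} [CommRing F] (φ : R →+* F) {π : Equiv.Perm (Fin n)} {a b : Fin n}
    {o : Option (Fin n)} (ho : outer π (some b) o) (h1 : a ≠ b) (h2 : some a ≠ o) (c : R) :
    Ring.inverse (expand φ π (X b - xv o + C c)) ∈ ZZ F (π a) :=
  inv_mem_SR φ π ho c _
    (show (Pi.single (π b) 1 : Fin n → ℤ) (π a) = 0 from Pi.single_eq_of_ne (π.injective.ne h1) _)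
    fun e he => show (Pi.single (π b) 1 - Pi.single (π e) 1 : Fin n → ℤ) (π a) = 0 by
      rw [Pi.sub_apply, Pi.single_eq_of_ne (π.injective.ne h1),
        Pi.single_eq_of_ne (π.injective.ne fun k => h2 (he ▸ congrArg some k)), sub_zero]

theorem GL_PP {i1 : R →+* LS F} (r : Fin n → ℤ) {π : Equiv.Perm (Fin n)}
    {x : Fin n × Option (Fin n) × R} (hx : Adm i1 π x) {a : Fin n}
    (h : a = x.1 → ∀ m : ℤ, |m| ≤ 1 → r x.1 - ov r x.2.1 + m ≠ 0) :
    Ring.inverse (eL i1 r π (fm x)) ∈ CoefIn (PP F (π a)) := by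
  obtain ⟨ho, m, c, hm, hc⟩ := hx
  exact inv_eL_mem (o := some x.1) r π hc (C_mem_SR _) (GL_ne ho) (expand_mem_PP _ _ _ _)
    fun h0 => Fm.inv_mem (a := x.1) ⟨_, _, ho, Or.inl rfl⟩ _ fun e => h e m hm h0

theorem GL_all (i1 : R →+* LS F) (r : Fin n → ℤ) (π : Equiv.Perm (Fin n)) (i : Fin n)
    (f : Pol n R) : eL i1 r π f ∈ CoefIn (PP F i) :=
  eL_mem i1 r π (A := Set.univ) (C_mem_SR _)
    (fun a _ => expand_X (RingHom.id F) π a ▸ expand_mem_PP _ π i (X a))
    (by rw [supported_univ]; trivial)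

theorem GL_out {π : Equiv.Perm (Fin n)} {a b : Fin n} {o : Option (Fin n)}
    (ho : outer π (some b) o) (h : π a < π b) : a ≠ b ∧ some a ≠ o :=
  ⟨fun e => h.ne (congrArg π e), by rintro rfl; exact lt_asymm h ho⟩

theorem GL_step (i1 : R →+* LS F) {π : Equiv.Perm (Fin n)} {i : ℕ} {a : Fin n}
    (ha : (π a).1 = i) {L L' : List (Fin n × Option (Fin n) × R)}
    (hL : ∀ x ∈ L, x.1 = a ∧ Adm i1 π x) (hL' : ∀ x ∈ L', π a < π x.1 ∧ Adm i1 π x)
    {f : Pol n R} (hf : f ∈ supported R {a}ᶜ)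
    (ih : ∑ r ∈ Box π (i + 1), cfL (ei n (i + 1)) (eL i1 r π f * pinv (eL i1 r π) L') =
      i1 ((expand (RingHom.id R) π f * pinv (expand (RingHom.id R) π) L').coeff (ei n (i + 1)))) :
    ∑ r ∈ Box π i, cfL (ei n i) (eL i1 r π f * pinv (eL i1 r π) (L ++ L')) =
      i1 ((expand (RingHom.id R) π f * pinv (expand (RingHom.id R) π) (L ++ L')).coeff
        (ei n i)) := by
  choose! m c hm hc using fun x hx => (hL x hx).2.2
  have ho : ∀ x ∈ L, outer π (some a) x.2.1 := fun x hx => (hL x hx).1 ▸ (hL x hx).2.1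
  have hγ : ofLex (ei n (i + 1)) (π a) = 0 := if_neg (by omega)
  have hi := (π a).2
  have e1 : expand (RingHom.id R) π f * pinv (expand (RingHom.id R) π) (L ++ L') =
      expand (RingHom.id R) π f * pinv (expand (RingHom.id R) π) L' *
        ((L.map Prod.snd).map fun x =>
          Ring.inverse (expand (RingHom.id R) π (X a - xv x.1 + C x.2))).prod := by
    rw [GL_app, mul_comm (pinv _ L), ← mul_assoc, List.map_map]
    exact congrArg (_ * List.prod ·) (List.map_congr_left fun x hx => by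
      rw [fm, (hL x hx).1]; rfl)
  rw [e1, GL_box π ha, GL_ei ha, slice _ π a _
    (fun y hy => by obtain ⟨x, hx, rfl⟩ := List.mem_map.1 hy; exact ho x hx)
    (mul_mem (GL_exp _ π hf) (GL_mem _ _ _ fun x hx => GL_inv _ (hL' x hx).2.1
      (GL_out (hL' x hx).2.1 (hL' x hx).1).1 (GL_out (hL' x hx).2.1 (hL' x hx).1).2 _)) hγ,
    List.length_map, apply_ite i1, map_zero, ← ih, ← sum_const_zero (s := Box π (i + 1)),
    ← sum_ite_irrel]
  refine sum_congr rfl fun r hr => ?_
  have hs : ∀ x ∈ L', fm x ∈ supported R {a}ᶜ := fun x hx =>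
    GL_sup (GL_out (hL' x hx).2.1 (hL' x hx).1).1 (GL_out (hL' x hx).2.1 (hL' x hx).1).2 _
  have hu : ∀ ρ, ∀ b ∈ ({a}ᶜ : Set (Fin n)), Function.update r a ρ b = r b := fun ρ b hb =>
    Function.update_of_ne hb _ _
  have hG : eL i1 r π f * pinv (eL i1 r π) L' ∈ CoefIn (ZZ F (π a)) := by
    refine mul_mem (eL_mem i1 r π (C_mem_SR _) (fun b hb => GL_vv F hb) hf)
      (GL_mem _ _ _ fun x hx => ?_)
    obtain ⟨h0, k, m', c', -, hc'⟩ := hL' x hx
    obtain ⟨h1, h2⟩ := GL_out k h0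
    exact inv_eL_mem (o := some x.1) r π hc' (C_mem_SR _) (GL_ne k) (GL_exp _ π (GL_sup h1 h2 _))
      fun _ => GL_inv _ k h1 h2 _
  have key := sliceL π a (L.map fun x => (ov r x.2.1 - m x, x.2.1, c x))
    (fun y hy => by obtain ⟨x, hx, rfl⟩ := List.mem_map.1 hy; exact ho x hx)
    (Icc (-((n : ℤ) - i)) ((n : ℤ) - i)) (fun y hy => by
      obtain ⟨x, hx, rfl⟩ := List.mem_map.1 hy
      have h1 := abs_le.1 (hm x hx)
      have h2 := ho x hx
      rw [mem_Icc]
      rcases h : x.2.1 with _ | b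
      · simp only [ov_none]
        omega
      · rw [h] at h2
        have h3 : (π a).1 < (π b).1 := h2
        have h4 := abs_le.1 ((GL_Box.1 hr b).2 (by omega))
        simp only [ov_some]
        omega) hG hγ
  rw [List.length_map] at key
  rw [← key]
  refine sum_congr rfl fun ρ _ => congrArg _ ?_
  have e2 : pinv (eL i1 (Function.update r a ρ) π) L' = pinv (eL i1 r π) L' :=
    congrArg List.prod (List.map_congr_left fun x hx => by rw [eL_congr i1 π (hu ρ) (hs x hx)])
  rw [GL_app, mul_comm (pinv _ L), ← mul_assoc, List.map_map, eL_congr i1 π (hu ρ) hf, e2]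
  refine congrArg (_ * List.prod ·) (List.map_congr_left fun x hx => ?_)
  have e3 : ov (Function.update r a ρ) x.2.1 = ov r x.2.1 := by
    have h2 := GL_ne (ho x hx)
    rcases h : x.2.1 with _ | b
    · rfl
    · exact hu ρ b fun e => h2 (h ▸ congrArg some e.symm)
  have e4 := eL_form (Function.update r a ρ) π (some a) x.2.1 (hc x hx)
  rw [ov_some, Function.update_self, e3,
    show ρ - ov r x.2.1 + m x = ρ - (ov r x.2.1 - m x) by ring] at e4
  rw [fm, (hL x hx).1]
  exact congrArg Ring.inverse e4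

theorem gl_ind (i1 : R →+* LS F) (π : Equiv.Perm (Fin n)) (d : ℕ) {i : ℕ} (hi : i + d = n)
    (L : List (Fin n × Option (Fin n) × R)) (hL : ∀ x ∈ L, i ≤ (π x.1).1 ∧ Adm i1 π x)
    (f : Pol n R) :
    ∑ r ∈ Box π i, cfL (ei n i) (eL i1 r π f * pinv (eL i1 r π) L) =
      i1 ((expand (RingHom.id R) π f * pinv (expand (RingHom.id R) π) L).coeff (ei n i)) := by
  induction d generalizing i L f with
  | zero =>
    obtain rfl : L = [] := List.eq_nil_iff_forall_not_mem.2 fun x hx => by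
      have h1 := (hL x hx).1
      have h2 := (π x.1).2
      omega
    have hB : Box π i = {0} := by
      ext r
      rw [GL_Box, mem_singleton]
      refine ⟨fun h => funext fun a => (h a).1 (by have := (π a).2; omega), ?_⟩
      rintro rfl a
      exact ⟨fun _ => rfl, fun h => by have := (π a).2; omega⟩
    rw [hB, sum_singleton]
    simp only [pinv, List.map_nil, List.prod_nil, mul_one]
    exact eL_zero i1 π _ f
  | succ d ih =>
    obtain ⟨a, ha⟩ : ∃ a, (π a).1 = i := ⟨π.symm ⟨i, by omega⟩, by simp⟩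
    have hp := List.filter_append_perm (fun x => decide (x.1 = a)) L
    have e : ∀ {B : Type} [CommRing B] (e : Pol n R →+* B), pinv e L = pinv e
        (L.filter (fun x => decide (x.1 = a)) ++ L.filter fun x => !decide (x.1 = a)) :=
      fun e => (hp.map _).prod_eq.symm
    have h1 : ∀ x ∈ L.filter (fun x => decide (x.1 = a)), x.1 = a ∧ Adm i1 π x := fun x hx =>
      ⟨by simpa using (List.mem_filter.1 hx).2, (hL x (List.mem_filter.1 hx).1).2⟩
    have h2 : ∀ x ∈ L.filter (fun x => !decide (x.1 = a)), π a < π x.1 ∧ Adm i1 π x :=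
      fun x hx => by
        obtain ⟨k1, k2⟩ := List.mem_filter.1 hx
        have k3 : x.1 ≠ a := by simpa using k2
        exact ⟨lt_of_le_of_ne (Fin.le_def.2 (ha ▸ (hL x k1).1)) (π.injective.ne k3.symm),
          (hL x k1).2⟩
    simp only [e]
    generalize L.filter (fun x => decide (x.1 = a)) = L1 at h1
    generalize L.filter (fun x => !decide (x.1 = a)) = L2 at h2
    have ih' := ih (i := i + 1) (by omega) L2
      fun x hx => ⟨by have : (π a).1 < (π x.1).1 := (h2 x hx).1; omega, (h2 x hx).2⟩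
    have hγ : 0 < ofLex (ei n i) (π a) := by
      rw [show ofLex (ei n i) (π a) = 1 from if_pos ha.ge]
      exact one_pos
    clear e hp hL
    induction L1 generalizing f with
    | nil =>
      rw [List.nil_append, sum_eq_zero fun r _ => cfL_PP hγ (mul_mem (GL_all i1 r π _ f)
        (GL_mem _ _ _ fun x hx => GL_PP r (h2 x hx).2 fun e =>
          ((h2 x hx).1.ne (congrArg π e)).elim))]
      have hm : expand (RingHom.id R) π f * pinv (expand (RingHom.id R) π) L2 ∈ PP R (π a) :=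
        mul_mem (expand_mem_PP _ _ _ _) (GL_mem _ _ _ fun x hx =>
          Fm.inv_mem (a := x.1) ⟨_, _, (h2 x hx).2.1, Or.inl rfl⟩ _
            fun e => (h2 x hx).1.ne (congrArg π e))
      rw [not_not.1 fun h => hγ.not_ge (hm _ h), map_zero]
    | cons x L1 ih1 =>
      obtain ⟨hx, ho, m, c, -, hc⟩ := h1 x List.mem_cons_self
      obtain ⟨g, f0, h0, rfl⟩ := GL_div (GL_ne ho) f
      have can : ∀ {B : Type} [CommRing B] (e : Pol n R →+* B), IsUnit (e (fm x)) →
          e (fm x * g + f0) * pinv e (x :: L1 ++ L2) =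
            e g * pinv e (L1 ++ L2) + e f0 * pinv e (x :: L1 ++ L2) := fun e hu => by
        rw [map_add, map_mul, add_mul, List.cons_append, GL_cons]
        linear_combination (e g * pinv e (L1 ++ L2)) * Ring.mul_inverse_cancel _ hu
      rw [can _ (Hahn_unit _ ho _), HahnSeries.coeff_add, map_add,
        ← ih1 g fun y hy => h1 y (List.mem_cons_of_mem _ hy),
        ← GL_step i1 ha h1 h2 (hx ▸ h0) (ih' f0), ← sum_add_distrib]
      refine sum_congr rfl fun r _ => ?_
      rw [can _ (isUnit_eL (o := some x.1) r π (GL_ne ho) hc), map_add]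

theorem gl_van (i1 : R →+* LS F) (π : Equiv.Perm (Fin n))
    (L : List (Fin n × Option (Fin n) × R)) (hL : ∀ x ∈ L, Adm i1 π x) (f : Pol n R)
    {r : Fin n → ℤ} (hr : r ∉ Box π 0) :
    cfL (toLex fun _ => 1) (eL i1 r π f * pinv (eL i1 r π) L) = 0 := by
  have hr' : ∃ a, (n : ℤ) - (π a).1 < |r a| := by
    by_contra h
    exact hr (GL_Box.2 fun a => ⟨fun k => by omega, fun _ => not_lt.1 fun k => h ⟨a, k⟩⟩)
  obtain ⟨a, ha, hmax⟩ := exists_max_image (univ.filter fun a => (n : ℤ) - (π a).1 < |r a|)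
    (fun a => π a) (hr'.imp fun a h => mem_filter.2 ⟨mem_univ _, h⟩)
  have ha' := (mem_filter.1 ha).2
  refine cfL_PP (i := π a) one_pos (mul_mem (GL_all i1 r π _ f)
    (GL_mem _ _ _ fun x hx => GL_PP r (hL x hx) ?_))
  rintro rfl m hm h0
  have h1 := abs_le.1 hm
  have h2 := (hL x hx).1
  have h3 := (π x.1).2
  rw [lt_abs] at ha'
  rcases h : x.2.1 with _ | b
  · rw [h, ov_none] at h0
    omega
  · rw [h] at h2
    rw [h, ov_some] at h0
    have h4 : (π x.1).1 < (π b).1 := h2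
    have h5 : |r b| ≤ (n : ℤ) - (π b).1 :=
      not_lt.1 fun k => (hmax b (mem_filter.2 ⟨mem_univ _, k⟩)).not_gt h2
    rw [abs_le] at h5
    omega

namespace QD

variable {k : ℕ} {E : Type} [Fintype E] (D : QD k n E R)

/-- every flavour is the large parameter plus a constant -/
def Tau (i1 : R →+* LS F) : Prop := ∀ e, ∃ c, i1 (D.t e) = lv F + HahnSeries.C c

theorem isUnit_eL_chi {i1 : R →+* LS F} (ht : D.Tau i1) (r : Fin n → ℤ) (π : Equiv.Perm (Fin n))
    {p : E × Option (Fin n) × Option (Fin n)} (hp : p ∈ D.W2) : IsUnit (eL i1 r π (D.chi p)) := by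
  obtain ⟨c, hc⟩ := ht p.1
  exact isUnit_eL (m := 1) (c₀ := c) r π (D.mem_W2.1 hp).2.symm (by rw [hc]; simp)

theorem GL_list {i1 : R →+* LS F} (ht : D.Tau i1) (π : Equiv.Perm (Fin n))
    (s : Finset (E × Option (Fin n) × Option (Fin n))) (hs : s ⊆ D.W2) :
    ∃ (L : List (Fin n × Option (Fin n) × R)) (ε : Pol n R), (∀ x ∈ L, Adm i1 π x) ∧
      ∀ {B : Type} [CommRing B] (e : Pol n R →+* B),
        Ring.inverse (e (∏ p ∈ s, D.chi p)) = e ε * pinv e L := by
  induction s using Finset.cons_induction with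
  | empty => exact ⟨[], 1, fun _ h => absurd h List.not_mem_nil, fun e => by simp [pinv]⟩
  | cons p s hp ih =>
    obtain ⟨L, ε, hL, he⟩ := ih ((subset_cons hp).trans hs)
    obtain ⟨c, hc⟩ := ht p.1
    rcases FP_total π (D.mem_W2.1 (hs (mem_cons_self p s))).2 with k | k
    · obtain ⟨a, ha⟩ := FP_some k
      refine ⟨(a, p.2.2, -D.t p.1) :: L, -ε, List.forall_mem_cons.2
        ⟨⟨ha ▸ k, -1, -c, by simp, by simp [hc, add_comm]⟩, hL⟩, fun e => ?_⟩
      rw [prod_cons, map_mul, inverse_mul', he, GL_cons, chi, ha, FP_neg, map_neg e, map_neg e,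
        inverse_neg', fm]
      ring
    · obtain ⟨a, ha⟩ := FP_some k
      refine ⟨(a, p.2.1, D.t p.1) :: L, ε, List.forall_mem_cons.2
        ⟨⟨ha ▸ k, 1, c, by simp, by simp [hc]⟩, hL⟩, fun e => ?_⟩
      rw [prod_cons, map_mul, inverse_mul', he, GL_cons, chi, ha, xv_some, fm]
      ring

theorem glob {i1 : R →+* LS F} (ht : D.Tau i1) (π : Equiv.Perm (Fin n)) (f : Pol n R) :
    ∑ r ∈ box n, cfL (toLex fun _ => 1)
      (eL i1 r π f * Ring.inverse (eL i1 r π (∏ p ∈ D.W2, D.chi p))) =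
    i1 ((expand (RingHom.id R) π f *
      Ring.inverse (expand (RingHom.id R) π (∏ p ∈ D.W2, D.chi p))).coeff (toLex fun _ => 1)) := by
  obtain ⟨L, ε, hL, he⟩ := D.GL_list ht π D.W2 Subset.rfl
  have h := gl_ind i1 π n (zero_add n) L (fun x hx => ⟨Nat.zero_le _, hL x hx⟩) (f * ε)
  have h0 : ei n 0 = toLex fun _ => 1 := congrArg toLex (funext fun j => if_pos (Nat.zero_le j.1))
  rw [h0] at h
  simp only [he, ← mul_assoc, ← map_mul]
  rw [← h]
  refine (sum_subset (fun r hr => mem_box.2 fun a => ?_) fun r _ hr => gl_van i1 π L hL _ hr).symm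
  have := (GL_Box.1 hr a).2 (Nat.zero_le _)
  omega

end QD

end Pool.Agent.Work.MP_849ab0_ag
end
end

-- merged part: Pool.Agent.Work.MP_849ab0_ag.TDefs
section
/-! Twisted traces supported at lattice points. -/

noncomputable section

set_option linter.unusedSectionVars false

namespace Pool.Agent.Work.MP_849ab0_ag

open MvPolynomial Finset

open scoped Polynomial

namespace QD

variable {k n : ℕ} {E R : Type} [Fintype E] [CommRing R] [IsDomain R] [Algebra ℚ R]
  (D : QD k n E R)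

theorem exists_ord (q : Fin n → ℤ) : ∃ π : Equiv.Perm (Fin n), ∀ a b, π a < π b ↔
    toLex (-q a, toLex (D.col a, a)) < toLex (-q b, toLex (D.col b, b)) := by
  have h := (Tuple.monotone_sort fun a => toLex (-q a, toLex (D.col a, a))).strictMono_of_injective
    (Function.Injective.comp (fun a b h => congrArg (fun z => (ofLex (ofLex z).2).2) h)
      (Equiv.injective _))
  refine ⟨(Tuple.sort fun a => toLex (-q a, toLex (D.col a, a))).symm, fun a b => ?_⟩
  rw [← h.lt_iff_lt]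
  simp only [Function.comp_apply, Equiv.apply_symm_apply]

/-- the order attached to a lattice point: larger `q a` is outside, ties by colour -/
def ordq (q : Fin n → ℤ) : Equiv.Perm (Fin n) := (D.exists_ord q).choose

theorem ordq_lt (q : Fin n → ℤ) (a b : Fin n) : D.ordq q a < D.ordq q b ↔
    toLex (-q a, toLex (D.col a, a)) < toLex (-q b, toLex (D.col b, b)) :=
  (D.exists_ord q).choose_spec a b

theorem isUnit_ex2_rt (π : Equiv.Perm (Fin n)) {a b : Fin n} (h : a ≠ b) (j : ℤ) :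
    IsUnit (ex2 (R := R) π (D.df.rt a b j)) := by
  by_cases hj : j = 0
  · have e : D.df.rt a b j = MvPolynomial.map Polynomial.C (D.fl.rt a b 0) := by simp [rt, hj]
    rw [e, ex2_map]
    exact (D.fl.isUnit_expand_rt _ π h 0).map _
  · have : CharZero R := algebraRat.charZero R
    have : CharZero (FractionRing R) :=
      charZero_of_injective_algebraMap (IsFractionRing.injective R _)
    have hu : IsUnit (j : H0 n R) := by
      have := (Int.cast_ne_zero (α := FractionRing R).2 hj).isUnit.map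
        (HahnSeries.C (Γ := Gam n))
      rwa [map_intCast] at this
    have h1 := isUnit_lv_add hu (vv (FractionRing R) (π a) - vv _ (π b))
    have e : D.df.h = Polynomial.X := rfl
    rw [rt, e, map_add, map_sub, map_mul, ex2_X, ex2_X, ex2_h, map_intCast, add_comm]
    rwa [map_intCast, map_sub] at h1

/-- expansion on `Om` -/
def LO (π : Equiv.Perm (Fin n)) : D.df.Om →+* LS (H0 n R) :=
  D.df.lift (ex2 (R := R) π) fun _ _ j h _ => D.isUnit_ex2_rt π h j

theorem LO_al (π : Equiv.Perm (Fin n)) (f : Pol n R[X]) : D.LO π (D.df.al f) = ex2 (R := R) π f :=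
  D.df.lift_al _ _ _

/-- the local functional for the order `π` -/
def tl (π : Equiv.Perm (Fin n)) (θ : Pol n R) (c : D.df.Om) : FF R :=
  Res (D.LO π c * ex2 (R := R) π (MvPolynomial.map Polynomial.C (θ * D.NUM)) * D.Kz π)

theorem tl_add (π : Equiv.Perm (Fin n)) (θ : Pol n R) (c c' : D.df.Om) :
    D.tl π θ (c + c') = D.tl π θ c + D.tl π θ c' := by
  simp only [tl, map_add, add_mul]

theorem tl_zero (π : Equiv.Perm (Fin n)) (θ : Pol n R) : D.tl π θ 0 = 0 := by simp [tl]

theorem tl_sum {ι : Type} (s : Finset ι) (π : Equiv.Perm (Fin n)) (θ : Pol n R)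
    (c : ι → D.df.Om) : D.tl π θ (∑ i ∈ s, c i) = ∑ i ∈ s, D.tl π θ (c i) := by
  simp only [tl, map_sum, sum_mul]

theorem tl_al (π : Equiv.Perm (Fin n)) (θ : Pol n R) (f : Pol n R[X]) :
    D.tl π θ (D.df.al f) =
      Res (ex2 (R := R) π (f * MvPolynomial.map Polynomial.C (θ * D.NUM)) * D.Kz π) := by
  rw [tl, LO_al, map_mul (ex2 (R := R) π)]

/-- lattice points of degree `d` -/
def Qd (ν : Fin k → ℤ) (d : ℤ) : Finset (Fin n → ℤ) :=
  (Fintype.piFinset fun _ => Icc 0 d).filter fun q => D.dg ν q = d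

theorem mem_Qd {ν : Fin k → ℤ} (hν : ∀ i, 0 < ν i) {d : ℤ} {q : Fin n → ℤ} :
    q ∈ D.Qd ν d ↔ (∀ a, 0 ≤ q a) ∧ D.dg ν q = d := by
  simp only [Qd, mem_filter, Fintype.mem_piFinset, mem_Icc]
  refine ⟨fun h => ⟨fun a => (h.1 a).1, h.2⟩, fun h => ⟨fun a => ⟨h.1 a, ?_⟩, h.2⟩⟩
  rw [← h.2]
  exact (le_mul_of_one_le_left (h.1 a) (hν _)).trans
    (single_le_sum (f := fun a => ν (D.col a) * q a)
      (fun b _ => mul_nonneg (hν _).le (h.1 b)) (mem_univ a))

/-- the trace of degree `d` -/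
def tau (ν : Fin k → ℤ) (d : ℤ) (θ : Pol n R) (x : D.df.Op D.df.Om) : FF R :=
  ∑ q ∈ D.Qd ν d, D.tl (D.ordq q) θ (D.df.act _ q (D.df.co x 0))

/-- factor of one weight in `mm μ * sh μ (mm (-μ))`, shifted by `q` -/
def wf (μ q : Fin n → ℤ) (p : E × Option (Fin n) × Option (Fin n)) : Pol n R[X] :=
  D.df.sh q ((∏ j ∈ Ico (ov μ p.2.2 - ov μ p.2.1) 0, (D.df.chi p + (j : Pol n R[X]) * C D.df.h)) *
    D.df.sh μ (∏ j ∈ Ico (ov (-μ) p.2.2 - ov (-μ) p.2.1) 0,
      (D.df.chi p + (j : Pol n R[X]) * C D.df.h)))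

/-- the side of a weight at a lattice point -/
def side (q : Fin n → ℤ) (p : E × Option (Fin n) × Option (Fin n)) : Prop :=
  1 ≤ ov q p.2.2 - ov q p.2.1 + D.cs p.1

theorem chi_dvd_wf (μ q : Fin n → ℤ) (p : E × Option (Fin n) × Option (Fin n))
    (h : ¬ (D.side q p ↔ D.side (q + μ) p)) :
    MvPolynomial.map Polynomial.C (D.fl.chi p) ∣ D.wf μ q p := by
  have e : D.df.h = Polynomial.X := rfl
  simp only [side, ov_add] at h
  by_cases h1 : 1 ≤ ov q p.2.2 - ov q p.2.1 + D.cs p.1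
  · refine (dvd_of_eq ?_).trans (map_dvd _ ((dvd_prod_of_mem _
      (a := -(ov q p.2.2 - ov q p.2.1 + D.cs p.1)) (mem_Ico.2 (by omega))).mul_right _))
    rw [map_add, map_mul, map_intCast, sh_C, sh_chi, df_chi, e]
    push_cast
    ring
  · refine (dvd_of_eq ?_).trans (map_dvd _ ((map_dvd _ (dvd_prod_of_mem _
      (a := -(ov q p.2.2 - ov q p.2.1 + D.cs p.1 + (ov μ p.2.2 - ov μ p.2.1)))
      (mem_Ico.2 (by simp only [ov_neg]; omega)))).mul_left _))
    rw [sh_sh, map_add, map_mul, map_intCast, sh_C, sh_chi, df_chi, e, ov_add, ov_add]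
    push_cast
    ring

theorem tdefs_split {S : Type} [CommRing S] (D : QD k n E S) {Z : Finset (Fin n × Fin n × ℤ)}
    (hZ : ∀ z ∈ Z, z.1 < z.2.1 ∧ D.col z.1 = D.col z.2.1) (μ : Fin n → ℤ) :
    ∃ (s : Multiset (Fin n × Fin n × ℤ)) (u : Pol n S), (∀ z ∈ s, z.2.2 ≠ 0 ∧ z.1 ≠ z.2.1) ∧
      D.sh μ (∏ z ∈ Z, D.rt z.1 z.2.1 z.2.2) = u * (s.map fun z => D.rt z.1 z.2.1 z.2.2).prod ∧
      u ∣ ∏ q ∈ D.Rt with q.1 < q.2, (X q.1 - X q.2) := by
  refine ⟨(Z.filter fun z => ¬ z.2.2 + (μ z.1 - μ z.2.1) = 0).1.map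
      fun z => (z.1, z.2.1, z.2.2 + (μ z.1 - μ z.2.1)),
    ∏ z ∈ Z with z.2.2 + (μ z.1 - μ z.2.1) = 0, (X z.1 - X z.2.1), fun z hz => ?_, ?_, ?_⟩
  · obtain ⟨y, hy, rfl⟩ := Multiset.mem_map.1 hz
    exact ⟨(mem_filter.1 hy).2, (hZ y (mem_filter.1 hy).1).1.ne⟩
  · simp only [map_prod, sh_rt, Multiset.map_map]
    rw [← prod_filter_mul_prod_filter_not Z fun z => z.2.2 + (μ z.1 - μ z.2.1) = 0]
    refine congrArg₂ (· * ·) (prod_congr rfl fun z hz => ?_) rfl
    rw [(mem_filter.1 hz).2, rt, Int.cast_zero, zero_mul, add_zero]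
  · rw [← prod_image (g := fun z : Fin n × Fin n × ℤ => (z.1, z.2.1))
      (f := fun q => (X q.1 - X q.2 : Pol n S))]
    · refine prod_dvd_prod_of_subset _ _ _ fun q hq => ?_
      obtain ⟨z, hz, rfl⟩ := mem_image.1 hq
      exact mem_filter.2 ⟨D.mem_Rt.2 (hZ z (mem_filter.1 hz).1).2, (hZ z (mem_filter.1 hz).1).1⟩
    · rintro ⟨a, b, i⟩ h1 ⟨c, d, j⟩ h2 h3
      obtain ⟨rfl, rfl⟩ := Prod.mk.inj h3
      have h4 := (mem_filter.1 h1).2
      have h5 := (mem_filter.1 h2).2
      simp only at h4 h5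
      rw [show i = j by omega]

theorem tdefs_alg {A : Type} [CommRing A] {c c' u u' S S' T T' m m' p p' θ v K : A}
    (h1 : c * (u * S) = m * p) (h2 : c' * (u' * S') = m' * p') (k1 : T * S = 1) (k2 : T' * S' = 1) :
    c * c' * (θ * (u * u' * v)) * K = p * p' * θ * v * (T * T') * (m * m' * K) := by
  have k3 : c * u = T * (m * p) := by linear_combination T * h1 - c * u * k1
  have k4 : c' * u' = T' * (m' * p') := by linear_combination T' * h2 - c' * u' * k2
  linear_combination θ * v * K * congrArg₂ (· * ·) k3 k4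

theorem tdefs_num {S : Type} [CommRing S] (D : QD k n E S) :
    (∏ q ∈ D.Rt with q.1 < q.2, (X q.1 - X q.2)) * (∏ q ∈ D.Rt with q.1 < q.2, (X q.1 - X q.2))
      ∣ D.NUM := by
  have h : (∏ q ∈ D.Rt with q.1 < q.2, (X q.2 - X q.1) : Pol n S) =
      ∏ q ∈ D.Rt with q.2 < q.1, (X q.1 - X q.2) :=
    prod_equiv (Equiv.prodComm _ _) (fun q => by simp [mem_Rt, eq_comm]) fun _ _ => rfl
  refine (mul_dvd_mul_left _ (prod_dvd_prod_of_dvd _ (fun q : Fin n × Fin n => X q.2 - X q.1)
    fun q _ => by rw [← neg_sub (X q.1)]; exact dvd_rfl.neg_right)).trans ?_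
  rw [h, ← prod_union (disjoint_left.2 fun q h1 h2 =>
    lt_asymm (mem_filter.1 h1).2 (mem_filter.1 h2).2)]
  refine prod_dvd_prod_of_subset _ _ _ fun q hq => ?_
  rcases mem_union.1 hq with h1 | h1
  · exact mem_filter.2 ⟨(mem_filter.1 h1).1, (mem_filter.1 h1).2.ne⟩
  · exact mem_filter.2 ⟨(mem_filter.1 h1).1, (mem_filter.1 h1).2.ne'⟩

/-- normal form of the integrand -/
theorem integrand (hl : D.NL) {a b : D.df.Op D.df.Om} (ha : D.df.Good a) (hb : D.df.Good b)
    (μ q : Fin n → ℤ) (θ : Pol n R) :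
    ∃ (g : Pol n R[X]) (s : Multiset (Fin n × Fin n × ℤ)), (∀ z ∈ s, z.2.2 ≠ 0) ∧ ∀ π,
      D.tl π θ (D.df.act _ q (D.df.co a μ * D.df.act _ μ (D.df.co b (-μ)))) =
        Res (ex2 (R := R) π g * (s.map fun z => Ring.inverse (ex2 (R := R) π (D.df.rt z.1 z.2.1 z.2.2))).prod *
          ∏ p ∈ D.Wt, (ex2 (R := R) π (D.wf μ q p) * HahnSeries.C (Ring.inverse
            (expand (algebraMap R (FractionRing R)) π (D.fl.chi p))))) := by
  have : CharZero R := algebraRat.charZero R
  obtain ⟨Z, p, hZ, h1⟩ := D.df.simple hl Polynomial.X_ne_zero ha μ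
  obtain ⟨Z', p', hZ', h2⟩ := D.df.simple hl Polynomial.X_ne_zero hb (-μ)
  obtain ⟨s, u, hs, e1, d1⟩ := D.df.tdefs_split hZ q
  obtain ⟨s', u', hs', e2, d2⟩ := D.df.tdefs_split hZ' (q + μ)
  obtain ⟨v, hv⟩ := (mul_dvd_mul d1 d2).trans D.df.tdefs_num
  have e3 : MvPolynomial.map Polynomial.C D.NUM = D.df.NUM := by
    simp only [NUM, map_prod, map_sub, map_X]
    rfl
  have e4 : ∏ p ∈ D.Wt, D.wf μ q p = D.df.sh q (D.df.mm μ) * D.df.sh (q + μ) (D.df.mm (-μ)) := by
    rw [← sh_sh, ← map_mul, mm, mm, map_prod (D.df.sh μ), ← prod_mul_distrib, map_prod]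
    rfl
  have h3 := congrArg (D.df.act _ q) h1
  have h4 := congrArg (D.df.act _ (q + μ)) h2
  rw [map_mul, act_alg, act_alg, e1, map_mul (D.df.sh _)] at h3
  rw [map_mul, act_alg, act_alg, e2, map_mul (D.df.sh _)] at h4
  refine ⟨D.df.sh q p * D.df.sh (q + μ) p' * MvPolynomial.map Polynomial.C θ * v, s + s',
    fun z hz => (Multiset.mem_add.1 hz).elim (fun h => (hs z h).1) fun h => (hs' z h).1,
    fun π => congrArg Res ?_⟩
  have key : ∀ t : Multiset (Fin n × Fin n × ℤ), (∀ z ∈ t, z.2.2 ≠ 0 ∧ z.1 ≠ z.2.1) →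
      (t.map fun z => Ring.inverse (ex2 (R := R) π (D.df.rt z.1 z.2.1 z.2.2))).prod *
        ex2 (R := R) π (t.map fun z => D.df.rt z.1 z.2.1 z.2.2).prod = 1 := fun t ht => by
    rw [map_multiset_prod, Multiset.map_map, ← Multiset.prod_map_mul]
    refine Multiset.prod_eq_one fun y hy => ?_
    obtain ⟨z, hz, rfl⟩ := Multiset.mem_map.1 hy
    exact Ring.inverse_mul_cancel _ (D.isUnit_ex2_rt π (ht z hz).2 _)
  have h5 := congrArg (D.LO π) h3
  have h6 := congrArg (D.LO π) h4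
  have k1 := key s hs
  have k2 := key s' hs'
  rw [map_mul, LO_al, LO_al, map_mul, map_mul] at h5 h6
  rw [prod_mul_distrib, ← map_prod, ← map_prod, ← inverse_prod, ← map_prod, ← Kz, e4,
    Multiset.map_add, Multiset.prod_add, map_mul (MvPolynomial.map _), e3, hv,
    map_mul (D.df.act _ q), act_act]
  simp only [map_mul]
  exact tdefs_alg h5 h6 k1 k2

end QD

end Pool.Agent.Work.MP_849ab0_ag
end
end

-- merged part: Pool.Agent.Work.MP_849ab0_ag.Trace
section
/-! The trace identity. -/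

noncomputable section

set_option linter.unusedSectionVars false

namespace Pool.Agent.Work.MP_849ab0_ag

open MvPolynomial Finset

open scoped Polynomial

namespace QD

variable {k n : ℕ} {E R : Type} [Fintype E] [CommRing R] [IsDomain R] [Algebra ℚ R]
  (D : QD k n E R)

section Aux

variable {B B' : Type} [CommRing B] [CommRing B']

/-- expansion attached to a map of the polynomials without `ħ` -/
def trEx (e : Pol n R →+* B) : Pol n R[X] →+* LS B :=
  eval₂Hom (Polynomial.eval₂RingHom (HahnSeries.C.comp (e.comp C)) (lv B))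
    fun a => HahnSeries.C (e (X a))

theorem trEx_map (e : Pol n R →+* B) (f : Pol n R) :
    trEx e (MvPolynomial.map Polynomial.C f) = HahnSeries.C (e f) := by
  induction f using MvPolynomial.induction_on with
  | C r => simp [trEx]
  | add p q hp hq => rw [map_add, map_add, hp, hq, map_add, map_add]
  | mul_X p a hp => rw [map_mul, map_mul, hp, map_mul, map_mul]; simp [trEx]

theorem trEx_h (e : Pol n R →+* B) : trEx e (C Polynomial.X) = lv B := by simp [trEx]

theorem trEx_ex2 (π : Equiv.Perm (Fin n)) :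
    trEx (expand (algebraMap R (FractionRing R)) π) = ex2 (R := R) π := by
  refine MvPolynomial.ringHom_ext' (Polynomial.ringHom_ext' ?_ ?_) fun a => ?_
  · ext1 r
    simp [trEx, ex2]
  · simp [trEx, ex2]
  · simp [trEx, ex2]

theorem trEx_hmap (ψ : B →+* B') (e : Pol n R →+* B) (f : Pol n R[X]) :
    hmap ℤ ψ (trEx e f) = trEx (ψ.comp e) f := by
  refine RingHom.congr_fun (f := (hmap ℤ ψ).comp (trEx e))
    (MvPolynomial.ringHom_ext' (Polynomial.ringHom_ext' ?_ ?_) fun a => ?_) f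
  · ext1 r
    simp [trEx]
  · simp [trEx]
  · simp [trEx]

theorem trEx_mem {S : Subring B} {e : Pol n R →+* B} (he : ∀ f, e f ∈ S) (f : Pol n R[X]) :
    trEx e f ∈ CoefIn S := by
  induction f using MvPolynomial.induction_on with
  | C r =>
    induction r using Polynomial.induction_on with
    | C s =>
      rw [← map_C, trEx_map]
      exact C_mem_CoefIn (he _)
    | add p q hp hq => rw [map_add, map_add]; exact add_mem hp hq
    | monomial m s h =>
      rw [pow_succ, ← mul_assoc, map_mul, map_mul, trEx_h]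
      exact mul_mem h (lv_mem_CoefIn S)
  | add p q hp hq => rw [map_add]; exact add_mem hp hq
  | mul_X p a hp =>
    rw [map_mul, ← map_X Polynomial.C a, trEx_map]
    exact mul_mem hp (C_mem_CoefIn (he _))

theorem trEx_rt (e : Pol n R →+* B) (a b : Fin n) (j : ℤ) : trEx e (D.df.rt a b j) =
    HahnSeries.C (j : B) * lv B + HahnSeries.C (e (X a - X b)) := by
  rw [← trEx_map, ← trEx_h e, map_intCast, ← map_intCast (trEx e), ← map_mul, ← map_add]
  congr 1
  simp only [rt, df, map_sub, map_X]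
  ring

/-- the integrand -/
def trI (e : Pol n R →+* B) (g : Pol n R[X]) (s : Multiset (Fin n × Fin n × ℤ))
    (μ q : Fin n → ℤ) : LS B :=
  trEx e g * (s.map fun z => Ring.inverse (trEx e (D.df.rt z.1 z.2.1 z.2.2))).prod *
    ∏ p ∈ D.Wt, (trEx e (D.wf μ q p) * HahnSeries.C (Ring.inverse (e (D.fl.chi p))))

theorem trI_hmap (ψ : B →+* B') {e : Pol n R →+* B} (g : Pol n R[X])
    {s : Multiset (Fin n × Fin n × ℤ)} (μ q : Fin n → ℤ) (hs : ∀ z ∈ s, IsUnit (z.2.2 : B))
    (hu : ∀ p ∈ D.Wt, IsUnit (e (D.fl.chi p))) :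
    hmap ℤ ψ (D.trI e g s μ q) = D.trI (ψ.comp e) g s μ q := by
  rw [trI, trI, map_mul, map_mul, map_multiset_prod, map_prod, Multiset.map_map, trEx_hmap]
  refine congrArg₂ _ (congrArg _ (congrArg Multiset.prod
    (Multiset.map_congr rfl fun z hz => ?_))) ?_
  · rw [Function.comp_apply, map_inverse, trEx_hmap]
    rw [trEx_rt]
    exact isUnit_lv_add (hs z hz) _
  · refine prod_congr rfl fun p hp => ?_
    rw [map_mul, trEx_hmap, hmap_C, map_inverse _ (hu p hp), RingHom.comp_apply]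

theorem trI_mem {S : Subring B} {e : Pol n R →+* B} (he : ∀ f, e f ∈ S) (g : Pol n R[X])
    {s : Multiset (Fin n × Fin n × ℤ)} (μ q : Fin n → ℤ)
    (hs : ∀ z ∈ s, ∃ u ∈ S, (z.2.2 : B) * u = 1) (hu : ∀ p ∈ D.Wt, IsUnit (e (D.fl.chi p)))
    (hw : ∀ p ∈ D.Wt, (D.side q p ↔ D.side (q + μ) p) → Ring.inverse (e (D.fl.chi p)) ∈ S) :
    D.trI e g s μ q ∈ CoefIn S := by
  refine mul_mem (mul_mem (trEx_mem he g) (multiset_prod_mem _ fun x hx => ?_))
    (prod_mem fun p hp => ?_)
  · obtain ⟨z, hz, rfl⟩ := Multiset.mem_map.1 hx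
    obtain ⟨u, h1, h2⟩ := hs z hz
    rw [trEx_rt]
    exact inverse_mem_CoefIn (intCast_mem S _) h1 h2 (he _)
  · by_cases h : D.side q p ↔ D.side (q + μ) p
    · exact mul_mem (trEx_mem he _) (C_mem_CoefIn (hw p hp h))
    · obtain ⟨w, hw⟩ := D.chi_dvd_wf μ q p h
      rw [hw, map_mul, trEx_map, mul_right_comm, ← map_mul, Ring.mul_inverse_cancel _ (hu p hp),
        map_one, one_mul]
      exact trEx_mem he w

end Aux

theorem tr_inv {j : ℤ} (hj : j ≠ 0) :
    (j : H0 n R) * HahnSeries.C (j : FractionRing R)⁻¹ = 1 := by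
  have : CharZero R := algebraRat.charZero R
  have : CharZero (FractionRing R) :=
    charZero_of_injective_algebraMap (IsFractionRing.injective R (FractionRing R))
  rw [← map_intCast (HahnSeries.C : FractionRing R →+* H0 n R), ← map_mul,
    mul_inv_cancel₀ (Int.cast_ne_zero.2 hj), map_one]

theorem tr_unit (hl : D.NL) (π : Equiv.Perm (Fin n)) {p : E × Option (Fin n) × Option (Fin n)}
    (hp : p ∈ D.Wt) : IsUnit (expand (algebraMap R (FractionRing R)) π (D.fl.chi p)) := by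
  simpa using D.fl.isUnit_expand_chi hl (algebraMap R (FractionRing R)) π hp 0

theorem tr_side (hl : D.NL) (q : Fin n → ℤ) {e : E} {a b : Fin n}
    (hp : (e, some a, some b) ∈ D.Wt) :
    (D.ordq q b < D.ordq q a ↔ D.side q (e, some a, some b)) ∧
      (D.ordq q a < D.ordq q b ↔ ¬ D.side q (e, some a, some b)) := by
  obtain ⟨h1, h2⟩ := D.mem_Wt.1 hp
  have h3 := hl e
  simp only [Option.map_some] at h1 h2
  have h4 : (D.col a : ℕ) ≠ D.col b := fun h => h3 (by rw [← h1, ← h2, Fin.ext h])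
  have h5 : D.col a ≠ D.col b := fun h => h4 (congrArg _ h)
  rw [ordq_lt, ordq_lt]
  simp only [Prod.Lex.toLex_lt_toLex, side, cs, ← h1, ← h2, rk, Option.elim_some, ov_some,
    h5, h5.symm, false_and, or_false, Fin.lt_def]
  split_ifs <;> omega

theorem tr_out (hl : D.NL) {q q' : Fin n → ℤ} {p : E × Option (Fin n) × Option (Fin n)}
    (hp : p ∈ D.Wt) (h : D.side q p ↔ D.side q' p) :
    (outer (D.ordq q) p.2.1 p.2.2 → outer (D.ordq q') p.2.1 p.2.2) ∧
      (outer (D.ordq q) p.2.2 p.2.1 → outer (D.ordq q') p.2.2 p.2.1) := by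
  obtain ⟨e, _ | a, _ | b⟩ := p
  · exact ⟨id, id⟩
  · exact ⟨id, id⟩
  · exact ⟨id, id⟩
  · exact ⟨fun h' => (D.tr_side hl q' hp).2.2 fun h'' => (D.tr_side hl q hp).2.1 h' (h.2 h''),
      fun h' => (D.tr_side hl q' hp).1.2 (h.1 ((D.tr_side hl q hp).1.1 h'))⟩

/-- shape of a weight as a linear form -/
theorem tr_form (hl : D.NL) (π : Equiv.Perm (Fin n)) {p : E × Option (Fin n) × Option (Fin n)}
    (hp : p ∈ D.Wt) :
    (∃ a r, p.2.1 = some a ∧ outer π p.2.1 p.2.2 ∧ D.fl.chi p = -(X a - xv p.2.2 + C r)) ∨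
      ∃ b r, p.2.2 = some b ∧ outer π p.2.2 p.2.1 ∧ D.fl.chi p = X b - xv p.2.1 + C r := by
  rcases D.wt_cases hl π hp with ⟨a, h1, h2⟩ | ⟨b, h1, h2, -⟩
  · exact Or.inl ⟨a, _, h1, h2, by rw [← D.fl.chi_src h1 0, map_zero, add_zero]⟩
  · exact Or.inr ⟨b, _, h1, h2, by rw [← D.fl.chi_tgt h1 0, map_zero, add_zero]⟩

theorem tl_ord (hl : D.NL) {a b : D.df.Op D.df.Om} (ha : D.df.Good a) (hb : D.df.Good b)
    (μ q : Fin n → ℤ) (θ : Pol n R) :
    D.tl (D.ordq q) θ (D.df.act _ q (D.df.co a μ * D.df.act _ μ (D.df.co b (-μ)))) =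
    D.tl (D.ordq (q + μ)) θ (D.df.act _ q (D.df.co a μ * D.df.act _ μ (D.df.co b (-μ)))) := by
  obtain ⟨g, s, hs, h⟩ := D.integrand hl ha hb μ q θ
  rw [h, h, ← trEx_ex2, ← trEx_ex2]
  set π := D.ordq q
  set π' := D.ordq (q + μ)
  let e := (expand (algebraMap R (FractionRing R)) π).prod
    (expand (algebraMap R (FractionRing R)) π')
  have hs' : ∀ z ∈ s, ∃ u ∈ Rel (FractionRing R) π π', (z.2.2 : H0 n R × H0 n R) * u = 1 :=
    fun z hz => ⟨(HahnSeries.C (z.2.2 : FractionRing R)⁻¹, HahnSeries.C (z.2.2 : FractionRing R)⁻¹),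
      by simpa using expand_mem_Rel (RingHom.id _) π π' (C (z.2.2 : FractionRing R)⁻¹),
      Prod.ext (tr_inv (hs z hz)) (tr_inv (hs z hz))⟩
  have hu : ∀ p ∈ D.Wt, IsUnit (e (D.fl.chi p)) := fun p hp =>
    Prod.isUnit_iff.2 ⟨D.tr_unit hl π hp, D.tr_unit hl π' hp⟩
  have hm := D.trI_mem (S := Rel (FractionRing R) π π') (e := e) (expand_mem_Rel _ π π') g μ q hs'
    hu fun p hp hd => by
      have e1 : Ring.inverse (e (D.fl.chi p)) =
          (Ring.inverse (expand (algebraMap R (FractionRing R)) π (D.fl.chi p)),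
            Ring.inverse (expand (algebraMap R (FractionRing R)) π' (D.fl.chi p))) :=
        Prod.ext (map_inverse (RingHom.fst _ _) (hu p hp)) (map_inverse (RingHom.snd _ _) (hu p hp))
      obtain ⟨o1, o2⟩ := D.tr_out hl hp hd
      rw [e1]
      rcases D.tr_form hl π hp with ⟨a, r, h1, h2, h3⟩ | ⟨b, r, h1, h2, h3⟩
      · rw [h3, map_neg, map_neg, inverse_neg', inverse_neg']
        exact neg_mem (inv_mem_Rel _ (h1 ▸ h2) (h1 ▸ o1 h2) r)
      · rw [h3]
        exact inv_mem_Rel _ (h1 ▸ h2) (h1 ▸ o2 h2) r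
  have hs'' : ∀ z ∈ s, IsUnit (z.2.2 : H0 n R × H0 n R) := fun z hz =>
    let ⟨_, _, h⟩ := hs' z hz; IsUnit.of_mul_eq_one _ h
  have h1 := D.trI_hmap (RingHom.fst _ _) g μ q hs'' hu
  have h2 := D.trI_hmap (RingHom.snd _ _) g μ q hs'' hu
  rw [RingHom.fst_comp_prod] at h1
  rw [RingHom.snd_comp_prod] at h2
  change Res (D.trI _ g s μ q) = Res (D.trI _ g s μ q)
  rw [← h1, ← h2]
  ext1
  funext j
  exact Rel.coeff_one (CoefIn.coeff_mem hm j)

theorem tr_van (hl : D.NL) {a b : D.df.Op D.df.Om} (ha : D.df.Good a) (hb : D.df.Good b)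
    (μ q : Fin n → ℤ) (θ : Pol n R) {o o' : Fin n → ℤ}
    (hd : ∀ p, (D.side q p ↔ D.side (q + μ) p) → (D.side o p ↔ D.side o' p))
    (ho : ¬ ∀ c, 0 ≤ o c) (ho' : ∀ c, 0 ≤ o' c) :
    D.tl (D.ordq o) θ (D.df.act _ q (D.df.co a μ * D.df.act _ μ (D.df.co b (-μ)))) = 0 := by
  obtain ⟨g, s, hs, h⟩ := D.integrand hl ha hb μ q θ
  obtain ⟨c, hc⟩ := not_forall.1 ho
  obtain ⟨x, -, hx⟩ := exists_max_image univ (D.ordq o) ⟨c, mem_univ c⟩
  have h1 : o x < 0 := by
    rcases (hx c (mem_univ c)).eq_or_lt with e | e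
    · rw [← (D.ordq o).injective e]; omega
    · rw [ordq_lt, Prod.Lex.toLex_lt_toLex] at e
      simp only at e
      omega
  have h2 := ho' x
  have h3 : ∀ y, outer (D.ordq o) (some x) y → y = none := by
    rintro (_ | y) hy
    · rfl
    · exact absurd hy (not_lt.2 (hx y (mem_univ y)))
  rw [h, ← trEx_ex2]
  refine Res_eq_zero (i := D.ordq o x) (D.trI_mem (expand_mem_PP _ _ _) g μ q
    (fun z hz => ⟨_, C_mem_SR _ _, tr_inv (hs z hz)⟩) (fun p hp => D.tr_unit hl _ hp)
    fun p hp hp' => ?_)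
  have h4 := hd p hp'
  obtain ⟨h5, h6⟩ := D.mem_Wt.1 hp
  rcases D.tr_form hl (D.ordq o) hp with ⟨y, r, a1, a2, a3⟩ | ⟨y, r, a1, a2, a3⟩
  · rw [a1] at a2
    refine Fm.inv_mem (a := y) ⟨_, r, a2, Or.inr a3⟩ _ ?_
    rintro rfl
    have a4 := h3 _ a2
    simp only [side, cs, ← h5, ← h6, a1, a4, rk, Option.map_some, Option.map_none, Option.elim_some,
      Option.elim_none, Fin.is_lt, if_true, ov_some, ov_none] at h4
    omega
  · rw [a1] at a2
    refine Fm.inv_mem (a := y) ⟨_, r, a2, Or.inl a3⟩ _ ?_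
    rintro rfl
    have a4 := h3 _ a2
    simp only [side, cs, ← h5, ← h6, a1, a4, rk, Option.map_some, Option.map_none, Option.elim_some,
      Option.elim_none, (Fin.is_lt _).not_gt, if_false, ov_some, ov_none] at h4
    omega

theorem tl_vanish (hl : D.NL) {a b : D.df.Op D.df.Om} (ha : D.df.Good a) (hb : D.df.Good b)
    (μ q : Fin n → ℤ) (θ : Pol n R) (h : ¬ ((∀ c, 0 ≤ q c) ↔ ∀ c, 0 ≤ (q + μ) c)) :
    D.tl (D.ordq q) θ (D.df.act _ q (D.df.co a μ * D.df.act _ μ (D.df.co b (-μ)))) = 0 := by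
  by_cases h1 : ∀ c, 0 ≤ q c
  · rw [D.tl_ord hl ha hb]
    exact D.tr_van hl ha hb μ q θ (fun _ => Iff.symm) (fun h2 => h (iff_of_true h1 h2)) h1
  · exact D.tr_van hl ha hb μ q θ (fun _ => id) h1 (by_contra fun h2 => h (iff_of_false h1 h2))

theorem trace (hl : D.NL) {ν : Fin k → ℤ} (hν : ∀ i, 0 < ν i) {a b : D.df.Op D.df.Om}
    (ha : D.df.Good a) (hb : D.df.Good b) {m : ℤ} (hm : D.df.Hom _ ν m a) (d : ℤ) (θ : Pol n R) :
    D.tau ν d θ (b * a) = D.tau ν (d - m) θ (a * b) := by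
  classical
  have h1 : D.df.co (b * a) 0 =
      ∑ μ ∈ D.df.sup a, D.df.co b (-μ) * D.df.act _ (-μ) (D.df.co a μ) := by
    rw [D.df.co_mul_of_subset b a 0 (s := D.df.sup b ∪ (D.df.sup a).image Neg.neg)
      subset_union_left, ← sum_subset subset_union_right, sum_image fun _ _ _ _ => neg_injective.eq_iff.1]
    · simp
    · intro κ _ hκ
      have : D.df.co a (0 - κ) = 0 := by_contra fun h =>
        hκ (mem_image.2 ⟨_, D.df.mem_sup.2 h, by simp⟩)
      rw [this, map_zero, mul_zero]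
  have h2 : ∀ μ q, D.df.act _ q (D.df.co b (-μ) * D.df.act _ (-μ) (D.df.co a μ)) =
      D.df.act _ (q - μ) (D.df.co a μ * D.df.act _ μ (D.df.co b (-μ))) := fun μ q => by
    rw [map_mul, map_mul, act_act, act_act, sub_add_cancel, sub_eq_add_neg, mul_comm]
  rw [tau, tau, h1, co_mul]
  simp only [map_sum, tl_sum, h2, zero_sub]
  rw [sum_comm, sum_comm (s := D.Qd ν (d - m))]
  refine sum_congr rfl fun μ hμ => ?_
  have h3 : D.dg ν μ = m := D.df.hom_iff.1 hm μ (D.df.mem_sup.1 hμ)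
  have h4 : ∀ q, D.tl (D.ordq q) θ
      (D.df.act _ (q - μ) (D.df.co a μ * D.df.act _ μ (D.df.co b (-μ)))) = D.tl (D.ordq (q - μ)) θ
        (D.df.act _ (q - μ) (D.df.co a μ * D.df.act _ μ (D.df.co b (-μ)))) := fun q => by
    rw [D.tl_ord hl ha hb, sub_add_cancel]
  have h5 : ∀ q, D.tl (D.ordq q) θ
      (D.df.act _ q (D.df.co a μ * D.df.act _ μ (D.df.co b (-μ)))) ≠ 0 →
      ((∀ c, 0 ≤ q c) ↔ ∀ c, 0 ≤ (q + μ) c) := fun q h =>
    by_contra fun h' => h (D.tl_vanish hl ha hb μ q θ h')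
  simp only [h4]
  refine sum_bij_ne_zero (fun q _ _ => q - μ) (fun q hq h => ?_)
    (fun _ _ _ _ _ _ => sub_left_injective.eq_iff.1) (fun q hq h => ?_) fun _ _ _ => rfl
  · obtain ⟨a1, a2⟩ := (D.mem_Qd hν).1 hq
    refine (D.mem_Qd hν).2 ⟨(h5 _ h).2 (by rwa [sub_add_cancel]), ?_⟩
    rw [sub_eq_add_neg, dg_add, dg_neg, a2, h3, sub_eq_add_neg]
  · obtain ⟨a1, a2⟩ := (D.mem_Qd hν).1 hq
    refine ⟨q + μ, (D.mem_Qd hν).2 ⟨(h5 _ h).1 a1, ?_⟩, ?_, add_sub_cancel_right q μ⟩
    · rw [dg_add, a2, h3, sub_add_cancel]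
    · rwa [add_sub_cancel_right]

end QD

end Pool.Agent.Work.MP_849ab0_ag
end
end

-- merged part: Pool.Agent.Work.MP_849ab0_ag.Kill2
section
/-! Three scales: residue functionals and integrality. -/

noncomputable section

set_option linter.unusedSectionVars false

namespace Pool.Agent.Work.MP_849ab0_ag

open MvPolynomial Finset

open scoped Polynomial

variable {n : ℕ} {R F : Type} [CommRing R] [IsDomain R] [Algebra ℚ R] [Field F] [Algebra ℚ F]

/-- `R[X] → LS (LS F)`, `X` large -/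
def i2 (i1 : R →+* LS F) : R[X] →+* LS (LS F) :=
  Polynomial.eval₂RingHom (HahnSeries.C.comp i1) (lv _)

theorem i2_injective {i1 : R →+* LS F} (h : Function.Injective i1) :
    Function.Injective (i2 i1) := by
  have key : ∀ (r : R[X]) (m : ℕ), (i2 i1 r).coeff (-(m : ℤ)) = i1 (r.coeff m) := fun r m => by
    induction r using Polynomial.induction_on' with
    | add p q hp hq => rw [map_add, HahnSeries.coeff_add, hp, hq, Polynomial.coeff_add, map_add]
    | monomial j a =>
      rw [i2, kill_mono, HahnSeries.coeff_single, Polynomial.coeff_monomial]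
      by_cases h : j = m
      · simp [h]
      · simp [h, Ne.symm h]
  intro p q e
  ext m
  apply h
  rw [← key, ← key, e]

/-- expansion with `ħ` larger than the parameter -/
def ex3 (i1 : R →+* LS F) (r : Fin n → ℤ) (π : Equiv.Perm (Fin n)) :
    Pol n R[X] →+* LS (H1 n F) := QD.trEx (eL i1 r π)

/-- residue in the variables -/
def Res2 : LS (H1 n F) →+ LS (LS F) where
  toFun G := G.map (cfL (toLex fun _ => 1))
  map_zero' := by ext; simp
  map_add' _ _ := HahnSeries.map_add _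

theorem Res2_coeff (G : LS (H1 n F)) (j : ℤ) :
    (Res2 G).coeff j = cfL (toLex fun _ => 1) (G.coeff j) := rfl

theorem Res2_C (G : H1 n F) :
    Res2 (HahnSeries.C G) = HahnSeries.C (cfL (toLex fun _ => 1) G) := by
  ext1
  funext j
  rw [Res2_coeff, HahnSeries.C_apply, HahnSeries.C_apply, HahnSeries.coeff_single,
    HahnSeries.coeff_single]
  split_ifs
  · rfl
  · exact map_zero _

theorem Res2_ex3_C (i1 : R →+* LS F) (r : Fin n → ℤ) (π : Equiv.Perm (Fin n)) (c : R[X])
    (G : LS (H1 n F)) : Res2 (ex3 i1 r π (C c) * G) = i2 i1 c * Res2 G := by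
  induction c using Polynomial.induction_on' with
  | add p q hp hq => rw [map_add, map_add, add_mul, map_add, hp, hq, map_add, add_mul]
  | monomial m a =>
    ext1
    funext j
    rw [ex3, QD.trEx, eval₂Hom_C, i2, kill_mono, kill_mono, Res2_coeff, coeff_single_mul',
      coeff_single_mul', RingHom.comp_apply, eL_C, cfL_hmap, Res2_coeff]

theorem Res2_eq_zero {i : Fin n} {G : LS (H1 n F)} (h : G ∈ CoefIn (CoefIn (PP F i))) :
    Res2 G = 0 := by
  ext1
  funext j
  exact cfL_PP (i := i) (show (0 : ℤ) < 1 from one_pos) (CoefIn.coeff_mem h j)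

theorem ex3_mem_PP (i1 : R →+* LS F) (r : Fin n → ℤ) (π : Equiv.Perm (Fin n)) (i : Fin n)
    (f : Pol n R[X]) : ex3 i1 r π f ∈ CoefIn (CoefIn (PP F i)) := by
  refine QD.trEx_mem (fun g => eL_mem i1 r π (C_mem_SR _) (A := Set.univ) (fun a _ => ?_) ?_) f
  · rw [← expand_X (RingHom.id F)]
    exact expand_mem_PP _ π i _
  · rw [supported_univ]
    trivial

namespace QD

variable {k : ℕ} {E : Type} [Fintype E] (D : QD k n E R) (i1 : R →+* LS F)

theorem Tau.lg {D : QD k n E R} {i1 : R →+* LS F} (ht : D.Tau i1) : D.LG := by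
  intro e _ h
  obtain ⟨c, hc⟩ := ht e
  rw [h, map_zero] at hc
  exact (isUnit_lv_add' c).ne_zero hc.symm

/-- inverse of the product of the weights -/
def Kz2 (r : Fin n → ℤ) (π : Equiv.Perm (Fin n)) : LS (H1 n F) :=
  HahnSeries.C (Ring.inverse (eL i1 r π (∏ p ∈ D.W2, D.chi p)))

/-- one residue functional -/
def kL (r : Fin n → ℤ) (π : Equiv.Perm (Fin n)) : Pol n R[X] →+ LS (LS F) where
  toFun p := Res2 (ex3 i1 r π p * D.Kz2 i1 r π)
  map_zero' := by rw [map_zero, zero_mul, map_zero]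
  map_add' p q := by rw [map_add, add_mul, map_add]

theorem kL_apply (r : Fin n → ℤ) (π : Equiv.Perm (Fin n)) (p : Pol n R[X]) :
    D.kL i1 r π p = Res2 (ex3 i1 r π p * D.Kz2 i1 r π) := rfl

theorem kL_C_mul (r : Fin n → ℤ) (π : Equiv.Perm (Fin n)) (c : R[X]) (p : Pol n R[X]) :
    D.kL i1 r π (C c * p) = i2 i1 c * D.kL i1 r π p := by
  rw [kL_apply, kL_apply, map_mul (ex3 i1 r π), mul_assoc, Res2_ex3_C]

/-- polynomials killed by all residue functionals -/
def QQ2 : Ideal (Pol n R[X]) where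
  carrier := {p | ∀ r π g, D.kL i1 r π (p * g) = 0}
  add_mem' := fun ha hb r π g => by rw [add_mul, map_add, ha r π g, hb r π g, add_zero]
  zero_mem' := fun r π g => by rw [zero_mul, map_zero]
  smul_mem' := fun c p hp r π g => by rw [smul_eq_mul, mul_comm c, mul_assoc p, hp]

theorem mem_QQ2 {p : Pol n R[X]} : p ∈ D.QQ2 i1 ↔ ∀ r π g, D.kL i1 r π (p * g) = 0 := Iff.rfl

theorem kill2_fm {π : Equiv.Perm (Fin n)} {a : Fin n} {p : E × Option (Fin n) × Option (Fin n)}
    (hp : p ∈ D.W2) (h : ¬ Fm π a (D.chi p)) {B : Type} [CommRing B] (c : B) :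
    Ring.inverse (expand (RingHom.id B) π (xv p.2.2 - xv p.2.1 + C c)) ∈ PP B (π a) := by
  refine form_PP _ π (D.mem_W2.1 hp).2.symm c a (fun e k => h ?_) fun e k => h ?_
  · exact ⟨p.2.1, D.t p.1, e ▸ k, Or.inl (by rw [chi, e, xv_some])⟩
  · exact ⟨p.2.2, -D.t p.1, e ▸ k, Or.inr (by rw [chi, e, FP_neg])⟩

theorem kill2_form (π : Equiv.Perm (Fin n)) (a : Fin n) : ∃ s : Multiset (Pol n R),
    (∀ l ∈ s, Fm π a l) ∧ ∀ {B : Type} [CommRing B] (e : Pol n R →+* B) (S : Subring B),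
      (∀ p ∈ D.W2, IsUnit (e (D.chi p))) →
      (∀ p ∈ D.W2, ¬ Fm π a (D.chi p) → Ring.inverse (e (D.chi p)) ∈ S) →
      e s.prod * Ring.inverse (e (∏ p ∈ D.W2, D.chi p)) ∈ S := by
  classical
  refine ⟨(D.W2.filter fun p => Fm π a (D.chi p)).val.map D.chi, fun l hl => ?_,
    fun e S h1 h2 => ?_⟩
  · obtain ⟨p, hp, rfl⟩ := Multiset.mem_map.1 hl
    exact (mem_filter.1 hp).2
  · have hu : IsUnit (e (∏ p ∈ D.W2 with Fm π a (D.chi p), D.chi p)) := by
      rw [map_prod]
      exact IsUnit.prod_iff.2 fun p hp => h1 p (mem_filter.1 hp).1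
    rw [← prod_eq_multiset_prod, ← prod_filter_mul_prod_filter_not D.W2 fun p => Fm π a (D.chi p),
      map_mul, inverse_mul', ← mul_assoc, Ring.mul_inverse_cancel _ hu, one_mul, map_prod,
      inverse_prod]
    exact prod_mem fun p hp => h2 p (mem_filter.1 hp).1 (mem_filter.1 hp).2

variable {i1}

theorem kill2 (ht : D.Tau i1) (y : Pol n R) :
    ∃ P : R[X], P.Monic ∧ Polynomial.aeval (MvPolynomial.map Polynomial.C y) P ∈ D.QQ2 i1 := by
  have h := kill_all (R := R) (fun π => ⨅ r, killRad (D.kL i1 r π)) (fun π a => by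
      obtain ⟨s, h1, h2⟩ := D.kill2_form π a
      refine ⟨s, h1, Ideal.mem_iInf.2 fun r g => ?_⟩
      have h3 := h2 (eL i1 r π) (CoefIn (PP F (π a))) (fun p hp => D.isUnit_eL_chi ht r π hp)
        fun p hp h4 => by
          obtain ⟨c, hc⟩ := ht p.1
          exact inv_eL_mem (m := 1) (c₀ := c) r π (by rw [hc]; simp) (C_mem_SR _)
            (D.mem_W2.1 hp).2.symm (expand_mem_PP _ π _ _) fun _ => D.kill2_fm hp h4 c
      rw [Polynomial.algebraMap_eq, kL_apply, map_mul (ex3 i1 r π), mul_right_comm, Kz2, ex3,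
        trEx_map, ← map_mul HahnSeries.C]
      exact Res2_eq_zero (mul_mem (C_mem_CoefIn h3) (ex3_mem_PP i1 r π _ g))) y
  rw [Polynomial.algebraMap_eq] at h
  obtain ⟨P, h1, h2⟩ := kill_mem _ h
  exact ⟨P, h1, (D.mem_QQ2 i1).2 fun r π g => Ideal.mem_iInf.1 (Ideal.mem_iInf.1 h2 π) r g⟩

/-- the local functionals add up to the global one -/
theorem kL_glob (ht : D.Tau i1) (π : Equiv.Perm (Fin n)) (f : Pol n R) :
    ∑ r ∈ box n, D.kL i1 r π (MvPolynomial.map Polynomial.C (f * D.NUM)) =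
      HahnSeries.C (i1 (D.r0 π f)) := by
  rw [r0, ← D.glob ht π, map_sum]
  refine sum_congr rfl fun r _ => ?_
  rw [kL_apply, Kz2, ex3, trEx_map, ← map_mul, Res2_C]

theorem kill2_eL (r : Fin n → ℤ) (π w : Equiv.Perm (Fin n)) (f : Pol n R) :
    eL i1 r (π * w⁻¹) (rename w f) = eL i1 (r ∘ w) π f := by
  induction f using MvPolynomial.induction_on with
  | C c => rw [rename_C, eL_C, eL_C]
  | add p q hp hq => simp only [map_add, hp, hq]
  | mul_X p a hp =>
    rw [map_mul, map_mul, map_mul, hp, rename_X, eL_X, eL_X]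
    simp

theorem kill2_ex3 (r : Fin n → ℤ) (π w : Equiv.Perm (Fin n)) (f : Pol n R[X]) :
    ex3 i1 r (π * w⁻¹) (rename w f) = ex3 i1 (r ∘ w) π f := by
  induction f using MvPolynomial.induction_on with
  | C c =>
    have e : (eL i1 r (π * w⁻¹)).comp C = (eL i1 (r ∘ w) π).comp C := by
      ext1 c
      rw [RingHom.comp_apply, RingHom.comp_apply, eL_C, eL_C]
    rw [rename_C, ex3, ex3, trEx, trEx, eval₂Hom_C, eval₂Hom_C, e]
  | add p q hp hq => simp only [map_add, hp, hq]
  | mul_X p a hp =>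
    rw [map_mul, map_mul, map_mul, hp, rename_X, ← map_X Polynomial.C a,
      ← map_X Polynomial.C (w a), ex3, ex3, trEx_map, trEx_map, ← kill2_eL, rename_X]

theorem kL_rename (π : Equiv.Perm (Fin n)) (w : stab D.col) (p : Pol n R[X]) :
    ∑ r ∈ box n, D.kL i1 r (π * w.1⁻¹) (rename w.1 p) = ∑ r ∈ box n, D.kL i1 r π p := by
  refine sum_nbij' (fun r => r ∘ w.1) (fun r => r ∘ w.1.symm) (fun r hr => ?_) (fun r hr => ?_)
    (fun r _ => ?_) (fun r _ => ?_) fun r _ => ?_
  · exact mem_box.2 fun a => mem_box.1 hr _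
  · exact mem_box.2 fun a => mem_box.1 hr _
  · funext a
    simp
  · funext a
    simp
  · rw [kL_apply, kL_apply, kill2_ex3, Kz2, Kz2, ← kill2_eL, rename_prod_chi2]

/-- finiteness of the residue pairing -/
theorem finite_r0 : ∃ M : Finset (Fin n →₀ ℕ), ∀ f ∈ Inv R D.col, ∃ c : (Fin n →₀ ℕ) → R,
    ∀ π g, D.r0 π ((f - ∑ m ∈ M, C (c m) * Av D.col (monomial m 1)) * g) = 0 := by
  classical
  have h := kill_all (R := R) (fun π => killRad
    (AddMonoidHom.mk' (D.r0 π) (D.r0_add π))) fun π a => by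
      obtain ⟨s, h1, h2⟩ := D.kill2_form π a
      refine ⟨s, h1, fun g => ?_⟩
      change D.r0 π (MvPolynomial.map (RingHom.id R) s.prod * g) = 0
      rw [MvPolynomial.map_id, r0, mul_assoc s.prod, map_mul, mul_right_comm]
      exact PP.coeff_one (mul_mem (h2 _ _
        (fun p hp => isUnit_form _ π (D.mem_W2.1 hp).2.symm _)
        fun p hp h4 => D.kill2_fm hp h4 _) (expand_mem_PP _ π _ _))
  set q := ⨅ π, killRad (AddMonoidHom.mk' (D.r0 π) (D.r0_add π)) with hq
  have hfin : Module.Finite R (Pol n R ⧸ q) := by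
    refine @Algebra.IsIntegral.finite _ _ _ _ _ ⟨fun x => ?_⟩ _
    obtain ⟨y, rfl⟩ := Ideal.Quotient.mk_surjective x
    have h1 := h y
    rw [Algebra.algebraMap_self, MvPolynomial.map_id] at h1
    exact h1
  obtain ⟨S, hS⟩ := hfin.fg_top
  choose rep hrep using Ideal.Quotient.mkₐ_surjective R q
  refine ⟨S.biUnion fun x => (rep x).support, fun f hf => ?_⟩
  set M := S.biUnion fun x => (rep x).support with hM
  have key : ∀ y ∈ Submodule.span R (S : Set (Pol n R ⧸ q)), ∃ c : (Fin n →₀ ℕ) → R,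
      y = Ideal.Quotient.mkₐ R q (∑ m ∈ M, C (c m) * monomial m 1) := fun y hy => by
    induction hy using Submodule.span_induction with
    | mem x hx =>
      refine ⟨fun m => coeff m (rep x), ?_⟩
      conv_lhs => rw [← hrep x, (rep x).as_sum]
      simp only [C_mul_monomial, mul_one]
      rw [sum_subset (subset_biUnion_of_mem (fun x => (rep x).support) hx)]
      intro m _ hm
      rw [notMem_support_iff.1 hm, map_zero]
    | zero => exact ⟨0, by simp⟩
    | add x y _ _ hx hy =>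
      obtain ⟨c, rfl⟩ := hx
      obtain ⟨c', rfl⟩ := hy
      exact ⟨c + c', by simp only [Pi.add_apply, add_mul, sum_add_distrib, map_add]⟩
    | smul a x _ hx =>
      obtain ⟨c, rfl⟩ := hx
      refine ⟨fun m => a * c m, ?_⟩
      rw [← map_smul, smul_eq_C_mul, mul_sum]
      simp only [C_mul, mul_assoc]
  obtain ⟨c, hc⟩ := key (Ideal.Quotient.mkₐ R q f) (hS ▸ Submodule.mem_top)
  have hx : f - ∑ m ∈ M, C (c m) * monomial m 1 ∈ q := Ideal.Quotient.eq.1 hc
  set u : R := algebraMap ℚ R (Fintype.card (stab D.col) : ℚ)⁻¹ with hu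
  have h1 : (C u : Pol n R) * (Fintype.card (stab D.col) : Pol n R) = 1 :=
    inv_C_inv_mul _ Fintype.card_ne_zero
  refine ⟨fun m => u * c m, fun π g => ?_⟩
  have h2 : f - ∑ m ∈ M, C (u * c m) * Av D.col (monomial m 1) =
      C u * ∑ w : stab D.col, rename w.1 (f - ∑ m ∈ M, C (c m) * monomial m 1) := by
    simp only [map_sub, sum_sub_distrib]
    change _ = C u * (Av D.col f - Av D.col _)
    rw [Av_of_mem _ hf, inv_Av_sum, mul_sub, ← mul_assoc, h1, one_mul, mul_sum]
    refine congrArg _ (sum_congr rfl fun m _ => ?_)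
    rw [Av_mul _ (inv_C_mem _ _), C_mul, mul_assoc]
  rw [h2, mul_assoc, r0_C_mul, sum_mul, r0_sum, sum_eq_zero, mul_zero]
  intro w _
  have h3 : g = rename w.1 (rename w.1.symm g) := by
    rw [rename_rename, Equiv.self_comp_symm, rename_id, AlgHom.id_apply]
  rw [h3, ← map_mul, r0_rename]
  exact Ideal.mem_iInf.1 hx _ _

end QD

end Pool.Agent.Work.MP_849ab0_ag
end
end
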