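import Pool.Agent.Work.MP_849ab0_ag.VDefs
import Pool.Agent.Work.MP_849ab0_ag.Hahn
import Pool.Agent.Work.MP_849ab0_ag.Birk

/-! Words in the modes are coefficients of iterated Laurent expansions. -/

noncomputable section

set_option linter.unusedSectionVars false

namespace Pool.Agent.Work.MP_849ab0_ag

open MvPolynomial Finset

variable {n : ℕ} (V : VD (Option (Fin n)))

/-- positions in iterated Laurent series; points outside `S` and the framing point sit at `0` -/
def posH (π : Equiv.Perm (Fin n)) (S : Finset (Option (Fin n))) (b : Option (Fin n)) :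
    HahnSeries (Gam n) ℂ := if b ∈ S then expand (RingHom.id ℂ) π (xv b) else 0

/-- the series `KS S * f (pos S)` -/
def serH (π : Equiv.Perm (Fin n)) (S : Finset (Option (Fin n))) (f : AA (Option (Fin n))) :
    HahnSeries (Gam n) ℂ := V.KS S (posH π S) * eval₂Hom HahnSeries.C (posH π S) f

/-- the exponent attached to modes `kk` on the points of `S` -/
def expo (π : Equiv.Perm (Fin n)) (kk : Fin n → ℤ) (S : Finset (Option (Fin n))) : Gam n :=
  toLex fun i => if some (π.symm i) ∈ S then kk (π.symm i) + 1 else 0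

/-- series involving only the variables of `S` -/
def HS (π : Equiv.Perm (Fin n)) (S : Finset (Option (Fin n))) : Subring (HahnSeries (Gam n) ℂ) :=
  SR ℂ
    { carrier := {γ | ∀ a, some a ∉ S → ofLex γ (π a) = 0}
      add_mem' := fun {x y} hx hy a ha =>
        show ofLex x (π a) + ofLex y (π a) = 0 by rw [hx a ha, hy a ha, add_zero]
      zero_mem' := fun _ _ => rfl }

theorem link_mem_HS {π : Equiv.Perm (Fin n)} {S : Finset (Option (Fin n))}
    {x : HahnSeries (Gam n) ℂ} :
    x ∈ HS π S ↔ ∀ γ, x.coeff γ ≠ 0 → ∀ a, some a ∉ S → ofLex γ (π a) = 0 := Iff.rfl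

theorem link_single_ne (π : Equiv.Perm (Fin n)) {S : Finset (Option (Fin n))} {a c : Fin n}
    (ha : some a ∈ S) (hc : some c ∉ S) (m : ℤ) :
    (Pi.single (π a) m : Fin n → ℤ) (π c) = 0 :=
  Pi.single_eq_of_ne (fun e => hc (by rw [π.injective e]; exact ha)) _

theorem link_pos_mem (π : Equiv.Perm (Fin n)) (S : Finset (Option (Fin n)))
    (b : Option (Fin n)) : posH π S b ∈ HS π S := by
  unfold posH
  split_ifs with hb
  · cases b with
    | none => rw [xv_none, map_zero]; exact zero_mem _
    | some b =>
      rw [xv_some, expand_X]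
      refine single_mem_SR (fun c hc => ?_) _
      show -(Pi.single (π b) 1 : Fin n → ℤ) (π c) = 0
      rw [link_single_ne π hb hc, neg_zero]
  · exact zero_mem _

theorem link_pos_sub (π : Equiv.Perm (Fin n)) {S : Finset (Option (Fin n))} {a : Fin n}
    {b : Option (Fin n)} (ha : some a ∈ S) (hb : b ∈ S) :
    posH π S (some a) - posH π S b = expand (RingHom.id ℂ) π (X a - xv b + C 0) := by
  simp [posH, ha, hb]

theorem link_inv_mem_aux (π : Equiv.Perm (Fin n)) {S : Finset (Option (Fin n))} {a : Fin n}
    {b : Option (Fin n)} (ha : some a ∈ S) (hb : b ∈ S) (ho : outer π (some a) b) :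
    Ring.inverse (posH π S (some a) - posH π S b) ∈ HS π S := by
  rw [link_pos_sub π ha hb]
  refine inv_mem_SR _ π ho 0 _ (fun c hc => link_single_ne π ha hc 1) ?_
  rintro b rfl c hc
  show (Pi.single (π a) 1 : Fin n → ℤ) (π c) - (Pi.single (π b) 1 : Fin n → ℤ) (π c) = 0
  rw [link_single_ne π ha hc, link_single_ne π hb hc, sub_zero]

theorem link_inv_mem (π : Equiv.Perm (Fin n)) {S : Finset (Option (Fin n))}
    {a b : Option (Fin n)} (ha : a ∈ S) (hb : b ∈ S) (hab : b ≠ a) :
    Ring.inverse (posH π S a - posH π S b) ∈ HS π S := by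
  have key : ∀ c, b = some c → outer π (some c) a →
      Ring.inverse (posH π S a - posH π S b) ∈ HS π S := by
    rintro c rfl ho
    rw [← neg_sub, inverse_neg']
    exact neg_mem (link_inv_mem_aux π hb ha ho)
  cases a with
  | none =>
    cases b with
    | none => exact absurd rfl hab
    | some c => exact key c rfl trivial
  | some a =>
    cases b with
    | none => exact link_inv_mem_aux π ha hb trivial
    | some c =>
      rcases lt_trichotomy (π a) (π c) with h | h | h
      · exact link_inv_mem_aux π ha hb h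
      · exact absurd (by rw [π.injective h]) hab
      · exact key c rfl h

theorem link_KS_mem (π : Equiv.Perm (Fin n)) (S : Finset (Option (Fin n))) :
    V.KS S (posH π S) ∈ HS π S := by
  refine prod_mem fun a ha => prod_mem fun b hb => mul_mem (pow_mem ?_ _) (pow_mem ?_ _)
  · exact sub_mem (link_pos_mem π S a) (link_pos_mem π S b)
  · exact link_inv_mem π ha (mem_of_mem_erase hb) (ne_of_mem_erase hb)

theorem serH_mem (π : Equiv.Perm (Fin n)) (S : Finset (Option (Fin n)))
    (f : AA (Option (Fin n))) : serH V π S f ∈ HS π S := by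
  refine mul_mem (link_KS_mem V π S) ?_
  induction f using MvPolynomial.induction_on with
  | C r => rw [eval₂Hom_C]; exact C_mem_SR _ r
  | add p q hp hq => rw [map_add]; exact add_mem hp hq
  | mul_X p b hp => rw [map_mul, eval₂Hom_X']; exact mul_mem hp (link_pos_mem π S b)

theorem coeff_mul_HS (π : Equiv.Perm (Fin n)) (kk : Fin n → ℤ) {S U : Finset (Option (Fin n))}
    (h : Disjoint S U) {x y : HahnSeries (Gam n) ℂ} (hx : x ∈ HS π S) (hy : y ∈ HS π U) :
    (x * y).coeff (expo π kk (S ∪ U)) = x.coeff (expo π kk S) * y.coeff (expo π kk U) := by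
  have hsum : expo π kk S + expo π kk U = expo π kk (S ∪ U) := by
    funext i
    show (if _ then _ else _) + (if _ then _ else _) = (if _ then _ else _ : ℤ)
    by_cases h1 : some (π.symm i) ∈ S
    · have h2 : some (π.symm i) ∉ U := disjoint_left.1 h h1
      simp [h1, h2]
    · by_cases h2 : some (π.symm i) ∈ U <;> simp [h1, h2]
  rw [HahnSeries.coeff_mul, sum_eq_single (expo π kk S, expo π kk U)]
  · rintro ⟨i, j⟩ hij hne
    rw [Finset.mem_antidiagonal] at hij
    obtain ⟨hi, hj, e⟩ := hij
    have hi' := link_mem_HS.1 hx i hi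
    have hj' := link_mem_HS.1 hy j hj
    have e1 : i = expo π kk S := by
      funext c
      obtain ⟨c, rfl⟩ := π.surjective c
      have e2 : ofLex i (π c) + ofLex j (π c) =
          if some (π.symm (π c)) ∈ S ∪ U then kk (π.symm (π c)) + 1 else 0 := congrFun e (π c)
      show ofLex i (π c) = if some (π.symm (π c)) ∈ S then kk (π.symm (π c)) + 1 else 0
      rw [Equiv.symm_apply_apply] at e2 ⊢
      split_ifs with h1
      · rw [hj' c (disjoint_left.1 h h1), add_zero, if_pos (mem_union_left _ h1)] at e2
        exact e2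
      · exact hi' c h1
    refine absurd ?_ hne
    subst e1
    rw [← hsum] at e
    exact Prod.ext rfl (add_left_cancel e)
  · intro hn
    by_contra hne
    exact hn (Finset.mem_antidiagonal.2 ⟨left_ne_zero_of_mul hne, right_ne_zero_of_mul hne, hsum⟩)

section Slice

variable (K : HahnSeries (Gam n) ℂ) (ev : AA (Option (Fin n)) →+* HahnSeries (Gam n) ℂ)
  (i : Fin n)

/-- the slice of `G` at level `m` of the variable `i` is read off from `Φ` -/
def LinkAt (m : ℤ) (G : HahnSeries (Gam n) ℂ) (Φ : LS (AA (Option (Fin n)))) : Prop :=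
  ∀ γ : Gam n, ofLex γ i = 0 →
    G.coeff (γ + toLex (Pi.single i m)) = (K * ev (Φ.coeff m)).coeff γ

/-- pairs of multipliers preserving the slice relation -/
def LinkGd (x : HahnSeries (Gam n) ℂ) (y : LS (AA (Option (Fin n)))) : Prop :=
  ∀ G Φ, (∀ m, LinkAt K ev i m G Φ) → ∀ m, LinkAt K ev i m (x * G) (y * Φ)

variable {K ev i}

theorem LinkAt.add {m : ℤ} {G G' : HahnSeries (Gam n) ℂ} {Φ Φ' : LS (AA (Option (Fin n)))}
    (h : LinkAt K ev i m G Φ) (h' : LinkAt K ev i m G' Φ') :
    LinkAt K ev i m (G + G') (Φ + Φ') := fun γ hγ => by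
  rw [HahnSeries.coeff_add, HahnSeries.coeff_add, map_add, mul_add, HahnSeries.coeff_add, h γ hγ,
    h' γ hγ]

theorem LinkAt.single {m : ℤ} {G : HahnSeries (Gam n) ℂ} {Φ : LS (AA (Option (Fin n)))}
    (h : LinkAt K ev i m G Φ) {x : AA (Option (Fin n))} {δ : Gam n} {c : ℂ}
    (hx : ev x = HahnSeries.single δ c) (hδ : ofLex δ i = 0) :
    LinkAt K ev i m (ev x * G) (HahnSeries.C x * Φ) := fun γ hγ => by
  rw [coeff_C_mul', map_mul, mul_left_comm, hx, coeff_single_mul', coeff_single_mul',
    add_sub_right_comm, h (γ - δ) (show ofLex γ i - ofLex δ i = 0 by rw [hγ, hδ, sub_zero])]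

theorem LinkAt.shift {m : ℤ} {G : HahnSeries (Gam n) ℂ} {Φ : LS (AA (Option (Fin n)))} :
    LinkAt K ev i m (vv ℂ i * G) (lv _ * Φ) ↔ LinkAt K ev i (m + 1) G Φ := by
  refine forall_congr' fun γ => forall_congr' fun _ => ?_
  have e : γ + toLex (Pi.single i m) - toLex (-Pi.single i 1) =
      γ + toLex (Pi.single i (m + 1) : Fin n → ℤ) := by
    rw [Pi.single_add, toLex_add, toLex_neg, sub_neg_eq_add, add_assoc]
  rw [vv, lv, coeff_single_mul', coeff_single_mul', one_mul, one_mul, e, sub_neg_eq_add]

theorem LinkGd.zero : LinkGd K ev i 0 0 := fun G Φ _ m γ _ => by simp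

theorem LinkGd.one : LinkGd K ev i 1 1 := fun G Φ h m => by simpa using h m

theorem LinkGd.add {x x' : HahnSeries (Gam n) ℂ} {y y' : LS (AA (Option (Fin n)))}
    (h : LinkGd K ev i x y) (h' : LinkGd K ev i x' y') : LinkGd K ev i (x + x') (y + y') :=
  fun G Φ hG m => by rw [add_mul, add_mul]; exact (h G Φ hG m).add (h' G Φ hG m)

theorem LinkGd.mul {x x' : HahnSeries (Gam n) ℂ} {y y' : LS (AA (Option (Fin n)))}
    (h : LinkGd K ev i x y) (h' : LinkGd K ev i x' y') : LinkGd K ev i (x * x') (y * y') :=
  fun G Φ hG m => by rw [mul_assoc, mul_assoc]; exact h _ _ (h' G Φ hG) m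

theorem LinkGd.neg {x : HahnSeries (Gam n) ℂ} {y : LS (AA (Option (Fin n)))}
    (h : LinkGd K ev i x y) : LinkGd K ev i (-x) (-y) := fun G Φ hG m γ hγ => by
  rw [neg_mul x, neg_mul y, HahnSeries.coeff_neg, HahnSeries.coeff_neg, map_neg, mul_neg K,
    HahnSeries.coeff_neg, h G Φ hG m γ hγ]

theorem LinkGd.pow {x : HahnSeries (Gam n) ℂ} {y : LS (AA (Option (Fin n)))}
    (h : LinkGd K ev i x y) (k : ℕ) : LinkGd K ev i (x ^ k) (y ^ k) := by
  induction k with
  | zero => rw [pow_zero, pow_zero]; exact LinkGd.one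
  | succ k ih => rw [pow_succ, pow_succ]; exact ih.mul h

theorem LinkGd.prod {ι : Type} (s : Finset ι) {x : ι → HahnSeries (Gam n) ℂ}
    {y : ι → LS (AA (Option (Fin n)))} (h : ∀ b ∈ s, LinkGd K ev i (x b) (y b)) :
    LinkGd K ev i (∏ b ∈ s, x b) (∏ b ∈ s, y b) := by
  classical
  induction s using Finset.induction_on with
  | empty => rw [prod_empty, prod_empty]; exact LinkGd.one
  | insert b s hb ih =>
    rw [prod_insert hb, prod_insert hb]
    exact (h b (mem_insert_self _ _)).mul (ih fun c hc => h c (mem_insert_of_mem hc))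

theorem LinkGd.vv : LinkGd K ev i (vv ℂ i) (lv _) := fun _ _ hG m => LinkAt.shift.2 (hG (m + 1))

theorem LinkGd.inv {x : AA (Option (Fin n))} {δ : Gam n} {c : ℂ}
    (hx : ev x = HahnSeries.single δ c) (hδ : ofLex δ i = 0)
    (hu : IsUnit (MP_849ab0_ag.vv ℂ i - ev x))
    (hs : ∀ γ, (Ring.inverse (MP_849ab0_ag.vv ℂ i - ev x)).coeff γ ≠ 0 → 0 ≤ ofLex γ i) :
    LinkGd K ev i (Ring.inverse (MP_849ab0_ag.vv ℂ i - ev x))
      (Ring.inverse (lv _ - HahnSeries.C x)) := by
  intro G Φ hG
  have hw : IsUnit (lv (AA (Option (Fin n))) - HahnSeries.C x) := by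
    have := isUnit_lv_add' (-x)
    rwa [map_neg, ← sub_eq_add_neg] at this
  set G' := Ring.inverse (MP_849ab0_ag.vv ℂ i - ev x) * G with hG'
  set Φ' := Ring.inverse (lv (AA (Option (Fin n))) - HahnSeries.C x) * Φ with hΦ'
  have e1 : MP_849ab0_ag.vv ℂ i * G' = G + ev x * G' := by
    have : (MP_849ab0_ag.vv ℂ i - ev x) * G' = G := by
      rw [hG', ← mul_assoc, Ring.mul_inverse_cancel _ hu, one_mul]
    rw [← this, ← add_mul, sub_add_cancel]
  have e2 : lv _ * Φ' = Φ + HahnSeries.C x * Φ' := by
    have : (lv _ - HahnSeries.C x) * Φ' = Φ := by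
      rw [hΦ', ← mul_assoc, Ring.mul_inverse_cancel _ hw, one_mul]
    rw [← this, ← add_mul, sub_add_cancel]
  have step : ∀ m, LinkAt K ev i m G' Φ' → LinkAt K ev i (m + 1) G' Φ' := fun m hm => by
    rw [← LinkAt.shift, e1, e2]
    exact (hG m).add (hm.single hx hδ)
  obtain ⟨m₁, h₁⟩ := exists_ge Φ
  obtain ⟨m₂, h₂⟩ := exists_ge Φ'
  have hGs : ∀ γ, G.coeff γ ≠ 0 → m₁ ≤ ofLex γ i := fun γ hγ => by
    refine h₁ _ fun e => hγ ?_
    have := hG (ofLex γ i) (γ - toLex (Pi.single i (ofLex γ i)))
      (show ofLex γ i - (Pi.single i (ofLex γ i) : Fin n → ℤ) i = 0 by simp)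
    rwa [sub_add_cancel, e, map_zero, mul_zero, HahnSeries.coeff_zero] at this
  have low : ∀ m, m < min m₁ m₂ → LinkAt K ev i m G' Φ' := fun m hm γ hγ => by
    have z : Φ'.coeff m = 0 := by
      by_contra e
      have := h₂ m e
      omega
    rw [z, map_zero, mul_zero, HahnSeries.coeff_zero]
    by_contra e
    obtain ⟨p, hp, q, hq, hpq⟩ := HahnSeries.support_mul_subset (show _ ∈ G'.support from e)
    have e3 : ofLex p i + ofLex q i = ofLex γ i + (Pi.single i m : Fin n → ℤ) i := congrFun hpq i
    have := hs p hp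
    have := hGs q hq
    rw [hγ, Pi.single_eq_same] at e3
    omega
  intro m
  by_cases hm : m < min m₁ m₂
  · exact low m hm
  · exact Int.leInduction (low (min m₁ m₂ - 1) (by omega)) (fun k _ => step k) m (by omega)

end Slice

/-- removing the outermost point -/
theorem link_step (π : Equiv.Perm (Fin n)) (kk : Fin n → ℤ) {S : Finset (Option (Fin n))}
    {a : Fin n} (ha : some a ∉ S) (hout : ∀ b, some b ∈ S → π a < π b)
    (f : AA (Option (Fin n))) :
    (serH V π (insert (some a) S) f).coeff (expo π kk (insert (some a) S)) =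
      (serH V π S (V.eP (some a) S (kk a) f)).coeff (expo π kk S) := by
  set ev : AA (Option (Fin n)) →+* HahnSeries (Gam n) ℂ := eval₂Hom HahnSeries.C (posH π S)
    with hev
  set K := V.KS S (posH π S) with hK
  have hne : ∀ b ∈ S, b ≠ some a := fun b hb e => ha (e ▸ hb)
  have hS : ∀ b ∈ S, posH π (insert (some a) S) b = ev (X b) := fun b hb => by
    simp [hev, posH, hb]
  have hE : ∀ b ∈ S, posE (some a) S b = HahnSeries.C (X b) := fun b hb => by
    simp [posE, hb, hne b hb]
  have ha1 : posH π (insert (some a) S) (some a) = vv ℂ (π a) := by simp [posH]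
  have ha2 : posE (some a) S (some a) = lv _ := by simp [posE]
  have hX : ∀ b ∈ S, ∃ δ c, ev (X b) = HahnSeries.single δ c ∧ ofLex δ (π a) = 0 := by
    intro b hb
    cases b with
    | none => exact ⟨0, 0, by simp [hev, posH], rfl⟩
    | some b =>
      refine ⟨toLex (-Pi.single (π b) 1), 1, by simp [hev, posH, hb, vv], ?_⟩
      show -(Pi.single (π b) 1 : Fin n → ℤ) (π a) = 0
      rw [link_single_ne π hb ha, neg_zero]
  have hpos : ∀ b, LinkGd K ev (π a) (posH π (insert (some a) S) b) (posE (some a) S b) := by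
    intro b
    by_cases hb : b ∈ S
    · obtain ⟨δ, c, h1, h2⟩ := hX b hb
      rw [hS b hb, hE b hb]
      exact fun G Φ hG m => (hG m).single h1 h2
    · by_cases e : b = some a
      · rw [e, ha1, ha2]; exact LinkGd.vv
      · have e1 : posH π (insert (some a) S) b = 0 := by simp [posH, hb, e]
        have e2 : posE (some a) S b = 0 := by simp [posE, hb, e]
        rw [e1, e2]; exact LinkGd.zero
  have hinv : ∀ b ∈ S, LinkGd K ev (π a)
      (Ring.inverse (posH π (insert (some a) S) (some a) - posH π (insert (some a) S) b))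
      (Ring.inverse (posE (some a) S (some a) - posE (some a) S b)) := by
    intro b hb
    obtain ⟨δ, c, h1, h2⟩ := hX b hb
    have ho : outer π (some a) b := by
      cases b with
      | none => trivial
      | some b => exact hout b hb
    have e := link_pos_sub π (mem_insert_self (some a) S) (mem_insert_of_mem hb)
    rw [ha1, hS b hb] at e
    rw [ha1, ha2, hS b hb, hE b hb]
    refine LinkGd.inv h1 h2 ?_ ?_
    · rw [e]; exact Fm.isUnit ⟨b, 0, ho, Or.inl rfl⟩ _
    · rw [e]
      refine inv_mem_SR _ π ho 0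
        { carrier := {γ | 0 ≤ ofLex γ (π a)}
          add_mem' := fun {x y} hx hy =>
            show 0 ≤ ofLex x (π a) + ofLex y (π a) from add_nonneg (a := ofLex x (π a)) hx hy
          zero_mem' := le_refl (0 : ℤ) } ?_ ?_
      · show 0 ≤ (Pi.single (π a) 1 : Fin n → ℤ) (π a)
        simp
      · rintro b rfl
        show 0 ≤ (Pi.single (π a) 1 : Fin n → ℤ) (π a) - (Pi.single (π b) 1 : Fin n → ℤ) (π a)
        rw [link_single_ne π hb ha]; simp
  have hKK : LinkGd K ev (π a) (V.KK {some a} S (posH π (insert (some a) S)))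
      (V.KK {some a} S (posE (some a) S)) := by
    unfold VD.KK
    rw [prod_singleton, prod_singleton]
    refine LinkGd.prod _ fun b hb => ?_
    have d := (hpos (some a)).add (hpos b).neg
    rw [← sub_eq_add_neg, ← sub_eq_add_neg] at d
    have d' := d.neg
    have i' := (hinv b hb).neg
    rw [← inverse_neg', ← inverse_neg', neg_sub, neg_sub] at i'
    rw [neg_sub, neg_sub] at d'
    exact ((d.pow _).mul ((hinv b hb).pow _)).mul ((d'.pow _).mul (i'.pow _))
  have hf : ∀ f : AA (Option (Fin n)), LinkGd K ev (π a)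
      (eval₂Hom HahnSeries.C (posH π (insert (some a) S)) f)
      (eval₂Hom (HahnSeries.C.comp (algebraMap ℂ _)) (posE (some a) S) f) := by
    intro f
    induction f using MvPolynomial.induction_on with
    | C r =>
      have h1 : ev (C r) = HahnSeries.single 0 r := by rw [hev, eval₂Hom_C]; rfl
      intro G Φ hG m
      have := (hG m).single h1 rfl
      rw [hev, eval₂Hom_C] at this
      rw [eval₂Hom_C, eval₂Hom_C]
      exact this
    | add p q hp hq => rw [map_add, map_add]; exact hp.add hq
    | mul_X p b hp => rw [map_mul, map_mul, eval₂Hom_X', eval₂Hom_X']; exact hp.mul (hpos b)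
  have hbase : ∀ m, LinkAt K ev (π a) m K 1 := by
    intro m γ hγ
    by_cases hm : m = 0
    · subst hm; simp
    · rw [HahnSeries.coeff_one, if_neg hm, map_zero, mul_zero, HahnSeries.coeff_zero]
      by_contra e
      have e1 : ofLex γ (π a) + (Pi.single (π a) m : Fin n → ℤ) (π a) = 0 :=
        link_mem_HS.1 (link_KS_mem V π S) _ e a ha
      rw [hγ, Pi.single_eq_same, zero_add] at e1
      exact hm e1
  have hexp : expo π kk (insert (some a) S) =
      expo π kk S + toLex (Pi.single (π a) (kk a + 1)) := by
    funext c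
    obtain ⟨c, rfl⟩ := π.surjective c
    show (if some (π.symm (π c)) ∈ insert (some a) S then kk (π.symm (π c)) + 1 else 0) =
      (if some (π.symm (π c)) ∈ S then kk (π.symm (π c)) + 1 else 0) +
        (Pi.single (π a) (kk a + 1) : Fin n → ℤ) (π c)
    rw [Equiv.symm_apply_apply]
    by_cases e : c = a
    · subst e; simp [ha]
    · simp [e]
  have hKS : V.KS S (posH π (insert (some a) S)) = K := by
    refine prod_congr rfl fun x hx => prod_congr rfl fun y hy => ?_
    rw [hS x hx, hS y (mem_of_mem_erase hy), hev, eval₂Hom_X', eval₂Hom_X']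
  have := ((hf f).mul hKK) K 1 hbase (kk a + 1) (expo π kk S) (by simp [expo, ha])
  rw [mul_one] at this
  rw [hexp, serH, serH, V.KS_insert ha, hKS, VD.eP, cf_apply, ← this]
  congr 1
  ring

theorem link_base (π : Equiv.Perm (Fin n)) (kk : Fin n → ℤ) {S : Finset (Option (Fin n))}
    (hS : S ⊆ {none}) (f : AA (Option (Fin n))) :
    (serH V π S f).coeff (expo π kk S) = coeff 0 f := by
  have h1 : posH π S = 0 := by
    funext b
    unfold posH
    split_ifs with hb
    · rw [mem_singleton.1 (hS hb)]; simp
    · rfl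
  have h2 : V.KS S (posH π S) = 1 := by
    refine prod_eq_one fun x hx => prod_eq_one fun y hy => ?_
    exact absurd ((mem_singleton.1 (hS (mem_of_mem_erase hy))).trans
      (mem_singleton.1 (hS hx)).symm) (ne_of_mem_erase hy)
  have h3 : expo π kk S = 0 := by
    funext c
    exact if_neg fun e => by simpa using hS e
  rw [serH, h2, h1, h3, one_mul, eval₂Hom_zero]
  simp [constantCoeff_eq]

theorem link_eM_single (a : Option (Fin n)) (j : ℤ) (S : Finset (Option (Fin n)))
    (f : AA (Option (Fin n))) : V.eM a j (Pi.single S f) =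
      if a ∈ S then Pi.single (S.erase a) (V.eP a (S.erase a) j f) else 0 := by
  funext Z
  rw [VD.eM_apply]
  by_cases hZ : a ∈ Z
  · rw [if_pos hZ]
    split_ifs with hS
    · rw [Pi.single_eq_of_ne]
      rintro rfl
      simp at hZ
    · rfl
  · rw [if_neg hZ]
    by_cases e : insert a Z = S
    · subst e
      rw [if_pos (mem_insert_self _ _), erase_insert hZ, Pi.single_eq_same, Pi.single_eq_same]
    · rw [Pi.single_eq_of_ne e, map_zero]
      split_ifs with hS
      · rw [Pi.single_eq_of_ne]
        rintro rfl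
        exact e (insert_erase hS)
      · rfl

theorem link_phi_single (S₀ S : Finset (Option (Fin n))) (f : AA (Option (Fin n))) :
    phi S₀ (Pi.single S f : MM (Option (Fin n))) = if S = S₀ then coeff 0 f else 0 := by
  show coeff 0 ((Pi.single S f : MM (Option (Fin n))) S₀) = _
  split_ifs with e
  · rw [e, Pi.single_eq_same]
  · rw [Pi.single_eq_of_ne (Ne.symm e), coeff_zero]

theorem link_gl_list (kk : Fin n → ℤ) {S₀ : Finset (Option (Fin n))} (hS₀ : S₀ ⊆ {none})
    (L : List (Fin n)) (hL : L.Pairwise (· < ·)) (S : Finset (Option (Fin n))) (j : ℕ)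
    (f : AA (Option (Fin n))) :
    phi S₀ (gl (L.map fun a => V.eM (some a) (kk a)) j (Pi.single S f)) =
      if (S ∩ {none} = S₀ ∧ (S.erase none).card = j) ∧ ∀ b, some b ∈ S → b ∈ L then
        (serH V 1 S f).coeff (expo 1 kk S) else 0 := by
  induction L generalizing S j f with
  | nil =>
    have hsub : (∀ b, some b ∈ S → b ∈ ([] : List (Fin n))) → S ⊆ {none} := fun h b hb => by
      cases b with
      | none => simp
      | some b => simpa using h b hb
    cases j with
    | zero =>
      rw [List.map_nil, gl, Module.End.one_apply, link_phi_single]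
      by_cases e : S = S₀
      · subst e
        rw [if_pos rfl, if_pos, link_base V 1 kk hS₀]
        refine ⟨⟨inter_eq_left.2 hS₀, ?_⟩, fun b hb => by simpa using hS₀ hb⟩
        rw [card_eq_zero, erase_eq_empty_iff]
        exact subset_singleton_iff.1 hS₀
      · rw [if_neg e, if_neg]
        rintro ⟨⟨h1, -⟩, h2⟩
        exact e ((inter_eq_left.2 (hsub h2)).symm.trans h1)
    | succ j =>
      rw [List.map_nil, gl, LinearMap.zero_apply, map_zero, if_neg]
      rintro ⟨⟨-, h1⟩, h2⟩
      rw [(erase_eq_empty_iff _ _).2 (subset_singleton_iff.1 (hsub h2))] at h1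
      simp at h1
  | cons a L ih =>
    rw [List.pairwise_cons] at hL
    have ih := ih hL.2
    cases j with
    | zero =>
      rw [List.map_cons, gl, ih]
      refine if_congr (and_congr_right fun h => ?_) rfl rfl
      have : ∀ b, some b ∉ S := fun b hb => by
        have : some b ∈ S.erase none := by simpa using hb
        rw [card_eq_zero.1 h.2] at this
        simp at this
      simp [this]
    | succ j =>
      rw [List.map_cons, gl, LinearMap.add_apply, map_add, Module.End.mul_apply, link_eM_single, ih]
      by_cases ha : some a ∈ S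
      · rw [if_pos ha, ih, if_neg fun h => lt_irrefl a (hL.1 a (h.2 a ha)), zero_add]
        have c1 : S.erase (some a) ∩ {none} = S ∩ {none} := by
          ext b; cases b <;> simp
        have c2 : (S.erase none).card = ((S.erase (some a)).erase none).card + 1 := by
          rw [erase_right_comm, card_erase_add_one (by simpa using ha)]
        have c3 : (∀ b, some b ∈ S.erase (some a) → b ∈ L) ↔ ∀ b, some b ∈ S → b ∈ a :: L := by
          refine forall_congr' fun b => ?_
          by_cases e : b = a
          · simp [e]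
          · simp [e]
        refine if_ctx_congr (by rw [c1, c2, c3, Nat.add_right_cancel_iff]) (fun h => ?_)
          fun _ => rfl
        have := link_step V 1 kk (notMem_erase (some a) S)
          (fun b hb => hL.1 b (c3.2 h.2 b hb)) f
        rw [insert_erase ha] at this
        exact this.symm
      · rw [if_neg ha, map_zero, map_zero, add_zero]
        refine if_congr (and_congr_right fun _ => forall_congr' fun b => ?_) rfl rfl
        by_cases e : b = a
        · simp [e, ha]
        · simp [e]

theorem link_gl (kk : Fin n → ℤ) {S₀ : Finset (Option (Fin n))} (hS₀ : S₀ ⊆ {none})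
    (S : Finset (Option (Fin n))) (j : ℕ) (f : AA (Option (Fin n))) :
    phi S₀ (gl ((List.finRange n).map fun a => V.eM (some a) (kk a)) j (Pi.single S f)) =
      if S ∩ {none} = S₀ ∧ (S.erase none).card = j then
        (serH V 1 S f).coeff (expo 1 kk S) else 0 := by
  rw [link_gl_list V kk hS₀ _ (List.pairwise_lt_finRange n)]
  simp

theorem link_word_ne (L : List (Fin n × ℕ)) (S : Finset (Option (Fin n)))
    (f : AA (Option (Fin n)))
    (h : phi {none} (V.word (L.map fun x => (some x.1, x.2)) (Pi.single S f)) ≠ 0) :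
    (L.map Prod.fst).Nodup ∧ ∀ b, some b ∈ S ↔ b ∈ L.map Prod.fst := by
  induction L generalizing S f with
  | nil =>
    rw [List.map_nil, VD.word, Module.End.one_apply, link_phi_single] at h
    have e : S = {none} := by
      by_contra e
      exact h (if_neg e)
    simp [e]
  | cons x L ih =>
    rw [List.map_cons, VD.word, Module.End.mul_apply, link_eM_single] at h
    by_cases ha : some x.1 ∈ S
    · rw [if_pos ha] at h
      obtain ⟨h1, h2⟩ := ih _ _ h
      rw [List.map_cons, List.nodup_cons]
      refine ⟨⟨fun e => notMem_erase _ _ ((h2 _).2 e), h1⟩, fun b => ?_⟩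
      rw [List.mem_cons, ← h2]
      by_cases e : b = x.1
      · simp [e, ha]
      · simp [e]
    · rw [if_neg ha, map_zero, map_zero] at h
      exact absurd rfl h

theorem link_word_eq (π : Equiv.Perm (Fin n)) (kk : Fin n → ℕ) (L : List (Fin n × ℕ))
    (hL : (L.map Prod.fst).Pairwise fun a b => π a < π b) (hk : ∀ x ∈ L, kk x.1 = x.2)
    (S : Finset (Option (Fin n))) (h0 : none ∈ S) (hS : ∀ b, some b ∈ S ↔ b ∈ L.map Prod.fst)
    (f : AA (Option (Fin n))) :
    phi {none} (V.word (L.map fun x => (some x.1, x.2)) (Pi.single S f)) =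
      (serH V π S f).coeff (expo π (fun a => kk a) S) := by
  induction L generalizing S f with
  | nil =>
    have e : S = {none} := by
      ext b
      cases b with
      | none => simp [h0]
      | some b => simp [hS]
    rw [List.map_nil, VD.word, Module.End.one_apply, link_phi_single, if_pos e,
      link_base V π _ e.subset]
  | cons x L ih =>
    rw [List.map_cons, List.pairwise_cons] at hL
    have ha : some x.1 ∈ S := (hS _).2 (by simp)
    have hS' : ∀ b, some b ∈ S.erase (some x.1) ↔ b ∈ L.map Prod.fst := fun b => by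
      rw [mem_erase, hS, List.map_cons, List.mem_cons]
      constructor
      · rintro ⟨h1, rfl | h2⟩
        · exact absurd rfl h1
        · exact h2
      · intro h
        refine ⟨fun e => ?_, Or.inr h⟩
        have := hL.1 b h
        rw [Option.some.inj e] at this
        exact lt_irrefl _ this
    rw [List.map_cons, VD.word, Module.End.mul_apply, link_eM_single, if_pos ha,
      ih hL.2 (fun y hy => hk y (List.mem_cons_of_mem _ hy)) _ (by simpa using h0) hS']
    have := link_step V π (fun a => kk a) (notMem_erase (some x.1) S)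
      (fun b hb => hL.1 b ((hS' b).1 hb)) f
    rw [insert_erase ha, hk x List.mem_cons_self] at this
    exact this.symm

theorem link_II (f : AA (Option (Fin n)))
    (h : ∀ (π : Equiv.Perm (Fin n)) (kk : Fin n → ℕ),
      (serH V π univ f).coeff (expo π (fun a => kk a) univ) = 0) :
    (Pi.single univ f : MM (Option (Fin n))) ∈ V.II (Set.range some) {none} := by
  intro L hL
  obtain ⟨L, rfl⟩ : ∃ L' : List (Fin n × ℕ), L = L'.map fun x => (some x.1, x.2) := by
    induction L with
    | nil => exact ⟨[], rfl⟩
    | cons x L ih =>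
      obtain ⟨L', rfl⟩ := ih fun y hy => hL y (List.mem_cons_of_mem _ hy)
      obtain ⟨a, ha⟩ := hL x List.mem_cons_self
      exact ⟨(a, x.2) :: L', by simp [ha]⟩
  by_contra hne
  obtain ⟨nd, hall⟩ := link_word_ne V L univ f hne
  have hall' : ∀ b, b ∈ L.map Prod.fst := fun b => (hall b).1 (mem_univ _)
  have hlen : (L.map Prod.fst).length = n := by
    simpa using Fintype.card_congr (List.Nodup.getEquivOfForallMemList _ nd hall')
  have hex : ∀ b, ∃ k, (b, k) ∈ L := fun b => by simpa using hall' b
  choose kk hkk using hex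
  refine hne ((link_word_eq V
    ((List.Nodup.getEquivOfForallMemList _ nd hall').symm.trans (finCongr hlen)) kk L ?_
    (fun x hx => ?_) univ (mem_univ _) hall f).trans (h _ kk))
  · rw [List.pairwise_iff_getElem]
    intro i j hi hj hij
    show List.idxOf _ _ < List.idxOf _ _
    rwa [nd.idxOf_getElem, nd.idxOf_getElem]
  · exact congrArg Prod.snd (List.inj_on_of_nodup_map nd (hkk x.1) hx rfl)

end Pool.Agent.Work.MP_849ab0_ag
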