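import Pool.Agent.Work.MP_849ab0_ag.Nak
import Pool.Agent.Work.MP_849ab0_ag.Count
import Pool.Agent.Work.MP_849ab0_ag.JI

/-! Assembly. -/

noncomputable section

set_option linter.unusedSectionVars false

namespace Pool.Agent.Work.MP_849ab0_ag

open MvPolynomial Finset
open scoped Polynomial

theorem exists_det {F S ι : Type} [Field F] [Fintype ι] [DecidableEq ι] (v : S → ι → F)
    (h : ∀ c : ι → F, (∀ s, ∑ i, c i * v s i = 0) → c = 0) :
    ∃ l : ι → S, (Matrix.of fun j i => v (l j) i).det ≠ 0 := by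
  have hs : Submodule.span F (Set.range v) = ⊤ := by
    by_contra hne
    obtain ⟨φ, hφ, hle⟩ := Submodule.exists_le_ker_of_lt_top _ (lt_top_iff_ne_top.2 hne)
    have := h (fun i => φ fun j => if i = j then 1 else 0) fun s => by
      have h1 : φ (v s) = 0 := hle (Submodule.subset_span ⟨s, rfl⟩)
      rw [LinearMap.pi_apply_eq_sum_univ] at h1
      simpa only [smul_eq_mul, mul_comm] using h1
    refine hφ (LinearMap.ext fun x => ?_)
    rw [LinearMap.pi_apply_eq_sum_univ]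
    exact sum_eq_zero fun i _ => by rw [congrFun this i]; simp
  obtain ⟨κ, a, -, h1, h2⟩ := exists_linearIndependent' F v
  let b := Module.Basis.mk h2 (by rw [h1, hs])
  let e : ι ≃ κ := (Pi.basisFun F ι).indexEquiv b
  refine ⟨a ∘ e, ?_⟩
  have h3 : LinearIndependent F (Matrix.of fun j i => v ((a ∘ e) j) i).row :=
    h2.comp e e.injective
  exact ((Matrix.isUnit_iff_isUnit_det _).1 (Matrix.linearIndependent_rows_iff_isUnit.1 h3)).ne_zero

namespace QD

variable {k n : ℕ} {E : Type} [Fintype E]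

theorem exists_basis (D : QD k n E ℂ) (hl : D.NL) (hh : D.h = 0) :
    ∃ (ι : Type) (_ : Fintype ι) (_ : DecidableEq ι) (f : ι → Pol n ℂ)
      (l : ι → Equiv.Perm (Fin n) × Pol n ℂ),
      (∀ i, f i ∈ Inv ℂ D.col) ∧ (∀ i, ∃ d, (f i).IsHomogeneous d) ∧
      (∀ p ∈ Inv ℂ D.col, ∃ c : ι → ℂ, ∀ π g,
        D.res (RingHom.id ℂ) π ((p - ∑ i, C (c i) * f i) * g) = 0) ∧
      (Matrix.of fun j i => D.res (RingHom.id ℂ) (l j).1 ((l j).2 * f i)).det ≠ 0 := by
  classical
  obtain ⟨q, hq, hq'⟩ := finite_res D hl hh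
  let I : Submodule ℂ (Pol n ℂ) :=
    { carrier := {p | ∀ π g, D.res (RingHom.id ℂ) π (p * g) = 0}
      add_mem' := fun {p q} hp hq π g => by rw [add_mul, res_add, hp, hq, add_zero]
      zero_mem' := fun π g => by simpa using D.res_C_mul (RingHom.id ℂ) π 0 g
      smul_mem' := fun c p hp π g => by rw [smul_eq_C_mul, mul_assoc, res_C_mul, hp, mul_zero] }
  have hle : q.restrictScalars ℂ ≤ I := fun p hp π g => hq' _ (q.mul_mem_right g hp) π
  have : Module.Finite ℂ (Pol n ℂ ⧸ q.restrictScalars ℂ) := hq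
  have : Module.Finite ℂ (Pol n ℂ ⧸ I) :=
    Module.Finite.of_surjective (Submodule.factor hle) (Submodule.factor_surjective hle)
  obtain ⟨κ, a, -, h1, h2⟩ := exists_linearIndependent' ℂ
    fun m : Fin n →₀ ℕ => I.mkQ (Av D.col (monomial m 1))
  have : Finite κ := h2.finite
  let := Fintype.ofFinite κ
  obtain ⟨l, hl⟩ := exists_det
    (fun (s : Equiv.Perm (Fin n) × Pol n ℂ) (i : κ) =>
      D.res (RingHom.id ℂ) s.1 (s.2 * Av D.col (monomial (a i) 1))) fun c hc => by
    refine funext (Fintype.linearIndependent_iff.1 h2 c ?_)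
    simp only [Function.comp_apply, ← map_smul, ← map_sum]
    refine (Submodule.Quotient.mk_eq_zero I).2 fun π g => ?_
    rw [sum_mul, res_sum, ← hc (π, g)]
    refine sum_congr rfl fun i _ => ?_
    rw [smul_eq_C_mul, mul_assoc, res_C_mul, mul_comm g]; rfl
  refine ⟨κ, inferInstance, inferInstance, fun i => Av D.col (monomial (a i) 1), l,
    fun i => Av_mem _ _, fun i => ⟨(a i).degree, ?_⟩, fun p hp => ?_, hl⟩
  · exact IsHomogeneous.sum _ _ _ fun w _ => (isHomogeneous_monomial 1 rfl).rename_isHomogeneous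
  · have : I.mkQ p ∈ Submodule.span ℂ
        (Set.range fun m : Fin n →₀ ℕ => I.mkQ (Av D.col (monomial m 1))) := by
      rw [inv_decomp D.col hp, map_sum]
      refine sum_mem fun m _ => ?_
      rw [← smul_eq_C_mul, ← smul_eq_C_mul, map_smul, map_smul]
      exact Submodule.smul_mem _ _ (Submodule.smul_mem _ _ (Submodule.subset_span ⟨m, rfl⟩))
    rw [← h1] at this
    obtain ⟨c, hc⟩ := (Submodule.mem_span_range_iff_exists_fun ℂ).1 this
    refine ⟨c, (Submodule.Quotient.mk_eq_zero I).1 ?_⟩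
    change I.mkQ _ = 0
    rw [map_sub, ← hc, map_sum, sub_eq_zero]
    exact sum_congr rfl fun i _ => by rw [← smul_eq_C_mul, map_smul]; rfl

theorem inj_of_det {R A ι : Type} [CommRing R] [CommRing A] [IsDomain A] [Fintype ι]
    [DecidableEq ι] (D : QD k n E R) (hl : D.NL) (ev : R →+* ℂ) (s : ℂ →+* R)
    (hs : ∀ c, ev (s c) = c) (f : ι → Pol n ℂ) (l : ι → Equiv.Perm (Fin n) × Pol n ℂ)
    (hdet : (Matrix.of fun j i => (D.map ev).res (RingHom.id ℂ) (l j).1 ((l j).2 * f i)).det ≠ 0)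
    (φ : R →+* A) (hφ : Function.Injective φ) (c : ι → A)
    (hc : ∀ π g, ∑ i, c i * φ (D.res (RingHom.id R) π (g * MvPolynomial.map s (f i))) = 0) :
    c = 0 := by
  let M : Matrix ι ι R := Matrix.of fun j i =>
    D.res (RingHom.id R) (l j).1 (MvPolynomial.map s (l j).2 * MvPolynomial.map s (f i))
  have h1 : M.det ≠ 0 := by
    intro e
    apply hdet
    have := congrArg ev e
    rw [RingHom.map_det, map_zero] at this
    convert this using 2
    ext j i
    simp only [M, RingHom.mapMatrix_apply, Matrix.map_apply, Matrix.of_apply]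
    rw [D.res_map hl, ← map_mul, show ev.comp (RingHom.id R) = (RingHom.id ℂ).comp ev from rfl,
      ← D.res_base, map_map_sec ev s hs]
  have h2 : (φ.mapMatrix M).det ≠ 0 := by
    rw [← RingHom.map_det]; exact (map_ne_zero_iff _ hφ).2 h1
  refine Matrix.eq_zero_of_mulVec_eq_zero h2 (funext fun j => ?_)
  rw [Pi.zero_apply, ← hc (l j).1 (MvPolynomial.map s (l j).2)]
  exact sum_congr rfl fun i _ => mul_comm _ _

end QD

section Base

variable (σ : Type)

/-- grading of the flavour ring -/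
def gR : MvPolynomial σ ℂ →+* (MvPolynomial σ ℂ)[X] :=
  eval₂Hom (Polynomial.C.comp C) fun s => Polynomial.C (X s) * Polynomial.X

/-- grading of the deformed flavour ring -/
def gD : (MvPolynomial σ ℂ)[X] →+* (MvPolynomial σ ℂ)[X][X] :=
  Polynomial.eval₂RingHom (S := (MvPolynomial σ ℂ)[X][X])
    ((Polynomial.mapRingHom Polynomial.C).comp (gR σ)) (Polynomial.C Polynomial.X * Polynomial.X)

variable {σ}

theorem gD_C (r : MvPolynomial σ ℂ) : gD σ (Polynomial.C r) = (gR σ r).map Polynomial.C := by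
  simp [gD]

theorem gD_X : gD σ Polynomial.X = Polynomial.C Polynomial.X * Polynomial.X := by simp [gD]

theorem gD_CC (c : ℂ) : gD σ (Polynomial.C (C c)) = Polynomial.C (Polynomial.C (C c)) := by
  simp [gD_C, gR]

theorem gD_CX (s : σ) :
    gD σ (Polynomial.C (X s)) = Polynomial.C (Polynomial.C (X s)) * Polynomial.X := by
  simp [gD_C, gR]

theorem gD_hom {r : MvPolynomial σ ℂ} (hr : r.IsHomogeneous 1) :
    gD σ (Polynomial.C r) = Polynomial.C (Polynomial.C r) * Polynomial.X := by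
  classical
  rw [r.as_sum]
  simp only [map_sum, sum_mul]
  refine sum_congr rfl fun m hm => ?_
  have h1 : m.degree = 1 := by
    by_contra e; exact mem_support_iff.1 hm (hr.coeff_eq_zero e)
  obtain ⟨s, rfl⟩ : ∃ s, m = Finsupp.single s 1 := by
    rw [Finsupp.degree_apply] at h1
    exact (Finsupp.sum_eq_one_iff m).1 h1
  rw [← C_mul_X_eq_monomial]
  simp only [map_mul, gD_CC, gD_CX, mul_assoc]

theorem ext_D {A : Type} [CommRing A] {φ ψ : (MvPolynomial σ ℂ)[X] →+* A}
    (h1 : ∀ c, φ (Polynomial.C (C c)) = ψ (Polynomial.C (C c)))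
    (h2 : ∀ s, φ (Polynomial.C (X s)) = ψ (Polynomial.C (X s)))
    (h3 : φ Polynomial.X = ψ Polynomial.X) (r : (MvPolynomial σ ℂ)[X]) : φ r = ψ r :=
  RingHom.congr_fun (Polynomial.ringHom_ext' (MvPolynomial.ringHom_ext h1 h2) h3) r

theorem gD_two (r : (MvPolynomial σ ℂ)[X]) :
    gD σ ((gD σ r).eval 2) = (gD σ r).comp (Polynomial.C 2 * Polynomial.X) := by
  refine ext_D (A := (MvPolynomial σ ℂ)[X][X])
    (φ := (gD σ).comp ((Polynomial.evalRingHom (2 : (MvPolynomial σ ℂ)[X])).comp (gD σ)))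
    (ψ := (Polynomial.compRingHom (Polynomial.C (2 : (MvPolynomial σ ℂ)[X]) * Polynomial.X)).comp
      (gD σ)) (fun c => ?_) (fun s => ?_) ?_ r
  all_goals simp only [RingHom.comp_apply, gD_CC, gD_CX, gD_X, Polynomial.coe_evalRingHom,
    Polynomial.coe_compRingHom_apply, Polynomial.eval_mul, Polynomial.eval_C, Polynomial.eval_X,
    Polynomial.mul_comp, Polynomial.C_comp, Polynomial.X_comp, map_mul, map_ofNat]
  all_goals ring

variable (σ) in
/-- the graded base ring of the deformation -/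
def grd : Grd (MvPolynomial σ ℂ)[X] where
  g := gD σ
  ev := constantCoeff.comp (Polynomial.evalRingHom 0)
  s := Polynomial.C.comp C
  ev_s c := by simp
  eval_one := ext_D (φ := (Polynomial.evalRingHom 1).comp (gD σ)) (ψ := RingHom.id _)
    (fun c => by simp [gD_CC]) (fun s => by simp [gD_CX]) (by simp [gD_X])
  g_two := gD_two
  coeff_zero := ext_D (φ := Polynomial.constantCoeff.comp (gD σ))
    (ψ := (Polynomial.C.comp C).comp (constantCoeff.comp (Polynomial.evalRingHom 0)))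
    (fun c => by simp [gD_CC]) (fun s => by simp [gD_CX]) (by simp [gD_X])
  g_s c := gD_CC c

end Base

namespace QD

variable {k n : ℕ} {E σ : Type} [Fintype E] (D : QD k n E (MvPolynomial σ ℂ))

/-- the statement for the data `D` and the character `ν` -/
def Stmt {R : Type} [CommRing R] [IsDomain R] (D : QD k n E R) (ν : Fin k → ℤ) : Prop :=
  (∀ a ∈ D.Alg (FractionRing (Pol n R)), D.Hom _ ν 0 a →
    ∃ f ∈ Inv R D.col, a - D.cst _ f ∈ D.JJ _ ν) ∧
  ∀ f ∈ Inv R D.col, (D.cst (FractionRing (Pol n R)) f ∈ D.JJ _ ν ↔ f ∈ D.IH)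

theorem stmt_pos (hl : D.NL) (ht : ∀ e, (D.t e).IsHomogeneous 1) (hh : D.h.IsHomogeneous 1)
    {ν : Fin k → ℤ} (hν : ∀ i, 0 < ν i) : D.Stmt ν := by
  have h00 : ∀ r : MvPolynomial σ ℂ, r.IsHomogeneous 1 → constantCoeff r = 0 := fun r hr =>
    hr.coeff_eq_zero (by simp)
  let O : QD k n E ℂ := ⟨D.col, D.src, D.tgt, fun _ => 0, 0⟩
  have e1 : D.df.map (grd σ).ev = O := by simp [map, df, fl, grd, O, h00 _ (ht _), h00 _ hh]
  have e2 : D.fl.map constantCoeff = O := by simp [map, fl, O, h00 _ (ht _), h00 _ hh]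
  have e3 : D.map constantCoeff = O := by simp [map, O, h00 _ (ht _), h00 _ hh]
  obtain ⟨ι, _, _, f, l, hf, hd, hsp, hdet⟩ := O.exists_basis hl rfl
  let χ : (MvPolynomial σ ℂ)[X] →+* MvPolynomial σ ℂ := Polynomial.evalRingHom D.h
  have hχ : ∀ r, χ (Polynomial.C r) = r := fun r => Polynomial.eval_C
  have hX : D.df.h ≠ 0 := Polynomial.X_ne_zero
  have hl' : D.df.NL := hl
  have hg : ∀ e, (grd σ).g (D.df.t e) = Polynomial.C (D.df.t e) * Polynomial.X := by
    intro e
    have : (D.fl.t e).IsHomogeneous 1 := by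
      refine (ht e).sub ?_
      simpa using (isHomogeneous_C σ (D.cs e : ℂ)).mul hh
    change gD σ (Polynomial.C (D.fl.t e) + _ * Polynomial.X) =
      Polynomial.C (Polynomial.C (D.fl.t e) + _ * Polynomial.X) * _
    rw [map_add, gD_hom this, map_mul, gD_X, map_intCast, map_add, map_mul, map_intCast]; ring
  have hnak : ∀ p ∈ Inv (MvPolynomial σ ℂ)[X] D.col, ∃ r : ι → (MvPolynomial σ ℂ)[X],
      D.df.cst D.df.Om (p - ∑ i, C (r i) *
        MvPolynomial.map Polynomial.C (MvPolynomial.map C (f i))) ∈ D.df.JM _ ν 1 := by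
    intro p hp
    simp only [MvPolynomial.map_map]
    exact D.df.nak (grd σ) hg gD_X hl' hX hν f hf hd (by rw [e1]; exact hsp) p hp
  have hdec : ∀ a ∈ D.df.Alg D.df.Om, D.df.Hom _ ν 0 a →
      ∀ 𝔎 : Ideal D.df.Om, (∀ l g, D.df.al g * D.df.cc l ∈ 𝔎 →
        ∀ m, D.df.al (C (coeff m g)) ∈ 𝔎) → (∀ μ, D.df.co a μ ∈ 𝔎) →
      ∃ p ∈ Inv (MvPolynomial σ ℂ)[X] D.col, D.df.al p ∈ 𝔎 ∧ a - D.df.cst _ p ∈ D.df.JJ _ ν := by
    intro a ha h0 𝔎 h1 h2
    obtain ⟨M, hM, hle⟩ := D.df.exists_le a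
    obtain ⟨p, hp, h3, h4⟩ := D.df.dec hl' hX hν 𝔎 h1 M hM a ha h0 hle h2
    exact ⟨p, hp, h3, D.df.JM_le hν M h4⟩
  have hdec' : ∀ a ∈ D.df.Alg D.df.Om, D.df.Hom _ ν 0 a →
      ∃ p ∈ Inv (MvPolynomial σ ℂ)[X] D.col, a - D.df.cst _ p ∈ D.df.JJ _ ν := by
    intro a ha h0
    obtain ⟨p, hp, -, h⟩ := hdec a ha h0 ⊤ (fun _ _ _ _ => trivial) fun _ => trivial
    exact ⟨p, hp, h⟩
  have hcount := D.count hl hν (fun i => MvPolynomial.map C (f i))
    (fun i => map_mem_Inv C (hf i)) (fun c hc => D.fl.inj_of_det hl constantCoeff C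
      (fun c => by simp) f l (by rw [e2]; exact hdet)
      (HahnSeries.C.comp (algebraMap _ (FractionRing (MvPolynomial σ ℂ))))
      (HahnSeries.C_injective.comp (IsFractionRing.injective _ _)) c fun π g => by
        rw [← hc π g]
        refine sum_congr rfl fun i _ => ?_
        rw [RingHom.comp_apply, D.fl.res_map hl]; rfl)
    (fun p hp => (hnak p hp).imp fun r hr => D.df.JM_le hν 1 hr) hdec'
  have hji : ∀ p, D.df.cst D.df.Om p ∈ D.df.JM _ ν 1 → ∀ π g,
      D.res (RingHom.id _) π (MvPolynomial.map χ p * g) = 0 := by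
    intro p hp π g
    have := congrArg χ (D.df.ji hl' hX ν hp π (MvPolynomial.map Polynomial.C g))
    rwa [D.df.res_map hl', map_zero, show χ.comp (RingHom.id _) = (RingHom.id _).comp χ from rfl,
      ← D.df.res_base, map_mul, map_map_sec χ _ hχ, D.df_map] at this
  have hIH : ∀ p, (∀ π g, D.res (algebraMap _ (FractionRing (MvPolynomial σ ℂ))) π (p * g) = 0) ↔
      ∀ π g, D.res (RingHom.id _) π (p * g) = 0 := by
    refine fun p => forall₂_congr fun π g => ?_
    rw [← map_eq_zero_iff (x := D.res (RingHom.id _) π (p * g)) _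
      (IsFractionRing.injective _ (FractionRing (MvPolynomial σ ℂ))), D.res_map hl]
    rfl
  suffices h : (∀ a ∈ (D.df.map χ).Alg (FractionRing (Pol n (MvPolynomial σ ℂ))),
      (D.df.map χ).Hom _ ν 0 a → ∃ f ∈ Inv _ D.col, a - (D.df.map χ).cst _ f ∈ (D.df.map χ).JJ _ ν) ∧
      ∀ f ∈ Inv _ D.col, ((D.df.map χ).cst (FractionRing (Pol n (MvPolynomial σ ℂ))) f ∈
        (D.df.map χ).JJ _ ν ↔ f ∈ D.IH) by
    have h' : (D.df.map χ).Stmt ν := ⟨h.1, fun f hf => (h.2 f hf).trans (by rw [D.df_map])⟩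
    rwa [D.df_map] at h'
  refine ⟨fun a ha h0 => ?_, fun p hp => ⟨fun h => ⟨hp, (hIH p).2 ?_⟩, fun h => ?_⟩⟩
  · obtain ⟨x, hx, h1, rfl⟩ := D.df.lift_hom χ _ hχ ha h0
    obtain ⟨p, hp, h2⟩ := hdec' x hx h1
    exact ⟨_, map_mem_Inv χ hp, by simpa only [map_sub, spOp_cst] using D.df.spOp_JJ χ h2⟩
  · obtain ⟨x, hx, h1⟩ := D.df.lift_JJ χ _ hχ h
    have hp' := map_mem_Inv (Polynomial.C : _ →+* (MvPolynomial σ ℂ)[X]) hp
    obtain ⟨p', hp'', h2, h3⟩ := hdec (D.df.cst _ (MvPolynomial.map Polynomial.C p) - x)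
      (sub_mem (D.df.cst_mem hp') (D.df.JJ_mem hx).1)
      ((D.df.hom_cst ν _).sub D.df (D.df.JJ_mem hx).2) _ (D.df.sp_ker χ hl') fun μ => by
        rw [RingHom.mem_ker, ← co_spOp, map_sub, h1, spOp_cst, map_map_sec χ _ hχ, sub_self,
          co_zero]
    obtain ⟨r, hr⟩ := hnak _ (sub_mem hp' hp'')
    have h4 : r = 0 := hcount r (by
      have := sub_mem (add_mem h3 hx) (D.df.JM_le hν 1 hr)
      simp only [← cstHom_apply, map_sub] at this ⊢
      convert this using 1; abel)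
    rw [RingHom.mem_ker, sp_al] at h2
    have h5 := (map_eq_zero_iff _ (IsFractionRing.injective _ _)).1 h2
    have := hji _ hr
    simpa only [h4, Pi.zero_apply, map_zero, zero_mul, sum_const_zero, sub_zero, map_sub, h5,
      map_map_sec χ _ hχ] using this
  · obtain ⟨r, hr⟩ := hnak _ (map_mem_Inv (Polynomial.C : _ →+* (MvPolynomial σ ℂ)[X]) hp)
    have h1 := hji _ hr
    simp only [map_sub, map_sum, map_mul, map_C, map_map_sec χ _ hχ] at h1
    have h2 : (fun i => χ (r i)) = 0 := D.inj_of_det hl constantCoeff C (fun c => by simp) f l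
      (by rw [e3]; exact hdet) (RingHom.id _) Function.injective_id _ fun π g => by
        have h3 := D.res_add (RingHom.id _) π
          ((p - ∑ i, C (χ (r i)) * MvPolynomial.map C (f i)) * g)
          ((∑ i, C (χ (r i)) * MvPolynomial.map C (f i)) * g)
        rw [← add_mul, sub_add_cancel, h1, (hIH p).1 h.2, zero_add, sum_mul, res_sum] at h3
        rw [h3]
        refine sum_congr rfl fun i _ => ?_
        rw [mul_assoc, res_C_mul, mul_comm g]; rfl
    have h3 := D.df.spOp_JJ χ (D.df.JM_le hν 1 hr)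
    have h4 : ∀ i, χ (r i) = 0 := congrFun h2
    simpa only [spOp_cst, map_sub, map_sum, map_mul, map_C, map_map_sec χ _ hχ, h4, map_zero,
      zero_mul, sum_const_zero, sub_zero] using h3

theorem stmt_zero (hl : D.NL) (ht : ∀ e, (D.t e).IsHomogeneous 1) (hh : D.h = 0)
    {ν : Fin k → ℤ} (hν : ∀ S : Finset (Fin n), S.Nonempty → ∑ a ∈ S, ν (D.col a) ≠ 0) :
    D.Stmt ν := by
  have h1 := D.stmt_pos hl ht (hh ▸ isHomogeneous_zero _ _ _) (ν := fun _ => 1) fun _ => one_pos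
  have hc := D.act_of_h_zero hh
  refine ⟨fun a ha h0 => ?_, fun f hf => Iff.trans ⟨fun h => ?_, fun h => ?_⟩ (h1.2 f hf)⟩
  · obtain ⟨f, hf, h⟩ := D.exists_AA0 hc ha
    have := D.cmp_AA0 hc hν h
    rw [map_sub, D.cmp_of_hom h0, D.cmp_of_hom (D.hom_cst ν f)] at this
    exact ⟨f, hf, this⟩
  · have := D.cmp_AA0 hc (ν := fun _ => 1) (fun S hS => by simpa using hS.ne_empty)
      (D.JJ_le_AA0 hc ν h)
    rwa [D.cmp_of_hom (D.hom_cst _ f)] at this
  · have := D.cmp_AA0 hc hν (D.JJ_le_AA0 hc _ h)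
    rwa [D.cmp_of_hom (D.hom_cst _ f)] at this

end QD

end Pool.Agent.Work.MP_849ab0_ag
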