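import Pool.Agent.Work.MP_849ab0_ag.FinA

/-! The radical of the residue pairing lies in the ideal of the monopole operators. -/

noncomputable section

set_option linter.unusedSectionVars false

namespace Pool.Agent.Work.MP_849ab0_ag

open MvPolynomial Finset

namespace QD

variable {k n : ℕ} {E : Type} [Fintype E] (D : QD k n E ℂ)

/-- `φ` if it preserves colours, else the identity -/
def twCp (φ : Fin n → Fin n) : Fin n → Fin n := if ∀ a, D.col (φ a) = D.col a then φ else id

theorem twCp_col (φ : Fin n → Fin n) (o : Option (Fin n)) :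
    (o.map (D.twCp φ)).map D.col = o.map D.col := by
  cases o with
  | none => rfl
  | some a =>
    unfold twCp
    split_ifs with h
    · simp [h a]
    · simp

theorem tw_xv_ne {a b : Option (Fin n)} (h : a ≠ b) : (xv a - xv b : Pol n ℂ) ≠ 0 := by
  rw [sub_ne_zero]
  cases a <;> cases b
  · exact absurd rfl h
  · exact (X_ne_zero _).symm
  · exact X_ne_zero _
  · exact fun e => h (congrArg some (X_injective e))

/-- specialisation of generic positions -/
def twSp (φ : Fin n → Fin n) : D.TG →ₐ[ℂ] K0 n :=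
  IsLocalization.liftAlgHom (M := D.GS)
    (f := (IsScalarTower.toAlgHom ℂ (Pol n ℂ) (K0 n)).comp (rename (D.twCp φ))) (by
      rintro ⟨y, hy⟩
      induction hy using Submonoid.closure_induction with
      | mem x hx =>
        obtain ⟨a, b, h, rfl⟩ := hx
        refine IsUnit.mk0 _ ((map_ne_zero_iff _ (IsFractionRing.injective (Pol n ℂ) (K0 n))).2
          (?_ : rename (D.twCp φ) (xv a - xv b : Pol n ℂ) ≠ 0))
        rw [map_sub, rename_xv, rename_xv]
        exact tw_xv_ne fun e => h (by rw [← D.twCp_col φ a, e, twCp_col])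
      | one => simp
      | mul x y _ _ hx hy => simpa using hx.mul hy)

theorem twSp_al {φ : Fin n → Fin n} (h : ∀ a, D.col (φ a) = D.col a) (g : Pol n ℂ) :
    D.twSp φ (algebraMap _ _ g) = algebraMap _ (K0 n) (rename φ g) := by
  rw [twSp, IsLocalization.liftAlgHom_apply, IsLocalization.lift_eq, twCp, if_pos h]; rfl

/-- the ordinary points of a label -/
def twX (S : Finset (Option (Fin n))) : Finset (Fin n) := univ.filter fun a => some a ∈ S

theorem mem_twX {S : Finset (Option (Fin n))} {a : Fin n} : a ∈ twX S ↔ some a ∈ S := by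
  simp [twX]

/-- the one-point weight -/
def twB (a : Fin n) : TF n := AddMonoidAlgebra.single (-ind {a}) (D.c0 (-ind {a}))

/-- one term of the sum over positions -/
def twT (S : Finset (Option (Fin n))) (φ : Fin n → Fin n) : D.TG →ₗ[ℂ] TF n :=
  LinearMap.mulLeft ℂ (∏ a ∈ twX S, D.twB (φ a)) ∘ₗ
    ((IsScalarTower.toAlgHom ℂ (K0 n) (TF n)).comp (D.twSp φ)).toLinearMap

theorem twT_apply (S : Finset (Option (Fin n))) (φ : Fin n → Fin n) (x : D.TG) :
    D.twT S φ x = (∏ a ∈ twX S, D.twB (φ a)) * algebraMap _ (TF n) (D.twSp φ x) := rfl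

/-- summing over positions -/
def twM : VD.Mult (Option (Fin n)) D.TG (TF n) where
  Q S :=
    { carrier := {x | ∀ φ ψ : Fin n → Fin n, (∀ a, D.col (φ a) = D.col a) →
        (∀ a, D.col (ψ a) = D.col a) → (∀ a, some a ∈ S → φ a = ψ a) → D.twSp φ x = D.twSp ψ x}
      add_mem' := fun hx hy φ ψ h1 h2 h3 => by
        rw [map_add, map_add, hx φ ψ h1 h2 h3, hy φ ψ h1 h2 h3]
      zero_mem' := fun φ ψ _ _ _ => by rw [map_zero, map_zero]
      smul_mem' := fun c x hx φ ψ h1 h2 h3 => by rw [map_smul, map_smul, hx φ ψ h1 h2 h3] }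
  L S := ∑ φ ∈ Maps D.col (twX S), D.twT S φ
  mul_mem S U _ x hx y hy φ ψ h1 h2 h3 := by
    rw [map_mul, map_mul, hx φ ψ h1 h2 fun a ha => h3 a (mem_union_left _ ha),
      hy φ ψ h1 h2 fun a ha => h3 a (mem_union_right _ ha)]
  map_mul S U h x hx y hy := by
    have e : twX (S ∪ U) = twX S ∪ twX U := by ext a; simp [mem_twX]
    have d : Disjoint (twX S) (twX U) := disjoint_left.2 fun a h1 h2 =>
      disjoint_left.1 h (mem_twX.1 h1) (mem_twX.1 h2)
    have k : ∀ (S : Finset (Option (Fin n))) (φ : Fin n → Fin n), (∀ a, D.col (φ a) = D.col a) →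
        (∀ a, D.col ((twX S).piecewise φ id a) = D.col a) ∧
        (∀ a, some a ∈ S → (twX S).piecewise φ id a = φ a) := fun S φ hφ =>
      ⟨fun a => by by_cases ha : a ∈ twX S <;> simp [ha, hφ],
        fun a ha => piecewise_eq_of_mem _ _ _ (mem_twX.2 ha)⟩
    simp only [LinearMap.sum_apply]
    rw [sum_mul_sum, ← sum_Maps_union D.col d fun φ ψ => D.twT S φ x * D.twT U ψ y, e]
    refine sum_congr rfl fun φ hφ => ?_
    have h1 := (mem_Maps.1 hφ).1
    rw [twT_apply, twT_apply, twT_apply, e, prod_union d, map_mul, map_mul,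
      hx _ φ (k S φ h1).1 h1 (k S φ h1).2, hy _ φ (k U φ h1).1 h1 (k U φ h1).2,
      prod_congr rfl fun a ha => congrArg D.twB ((k S φ h1).2 a (mem_twX.1 ha)),
      prod_congr rfl fun a ha => congrArg D.twB ((k U φ h1).2 a (mem_twX.1 ha))]
    ring

/-- specialised positions -/
def twP (S : Finset (Option (Fin n))) (φ : Fin n → Fin n) (b : Option (Fin n)) : K0 n :=
  if b ∈ S then algebraMap (Pol n ℂ) (K0 n) (xv (b.map φ)) else 0

theorem twP_congr {S : Finset (Option (Fin n))} {φ ψ : Fin n → Fin n}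
    (h : ∀ a, some a ∈ S → φ a = ψ a) : twP S φ = twP S ψ := by
  funext b
  unfold twP
  split_ifs with hb
  · cases b with
    | none => rfl
    | some a => rw [Option.map_some, Option.map_some, h a hb]
  · rfl

theorem twSp_evG (hl : D.NL) {φ : Fin n → Fin n} (h : ∀ a, D.col (φ a) = D.col a)
    (S : Finset (Option (Fin n))) (p : AA (Option (Fin n))) :
    D.twSp φ (D.evG S p) = D.vd.KS S (twP S φ) * aeval (twP S φ) p := by
  have e : ∀ b, D.twSp φ (D.posG S b) = twP S φ b := fun b => by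
    unfold posG twP
    split_ifs
    · rw [D.twSp_al h, rename_xv]
    · exact map_zero _
  change D.twSp φ (D.vd.KS S (D.posG S) * aeval (D.posG S) p) = _
  rw [map_mul, ← AlgHom.comp_apply (D.twSp φ) (aeval _), comp_aeval, funext e, VD.KS, VD.KS,
    map_prod]
  congr 1
  refine prod_congr rfl fun a ha => ?_
  rw [map_prod]
  refine prod_congr rfl fun b hb => ?_
  rw [← e, ← e, ← map_sub]
  refine D.vd.map_kap (D.twSp φ : D.TG →+* K0 n) fun hr => ?_
  obtain ⟨x, hx⟩ := card_ne_zero.1 hr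
  simp only [mem_filter, mem_univ, true_and] at hx
  rw [posG, posG, if_pos ha, if_pos (mem_of_mem_erase hb), ← map_sub]
  exact IsLocalization.map_units D.TG (⟨_, Submonoid.subset_closure ⟨a, b, fun e => hl x (by
    rw [hx.1, hx.2, e]), rfl⟩⟩ : D.GS)

/-- the states after summation -/
def twG (S₀ : Finset (Option (Fin n))) (j : ℕ) : MM (Option (Fin n)) →ₗ[ℂ] TF n :=
  ∑ S ∈ univ.filter fun S => S ∩ {none} = S₀ ∧ (S.erase none).card = j,
    D.twM.L S ∘ₗ D.evG S ∘ₗ LinearMap.proj S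

theorem twG_apply (S₀ : Finset (Option (Fin n))) (j : ℕ) (F : MM (Option (Fin n))) :
    D.twG S₀ j F = ∑ S ∈ univ.filter fun S => S ∩ {none} = S₀ ∧ (S.erase none).card = j,
      D.twM.L S (D.evG S (F S)) := LinearMap.sum_apply _ _ _

theorem cpt_twG (S₀ S : Finset (Option (Fin n))) (j : ℕ) (f : AA (Option (Fin n))) :
    cpt (D.twG S₀ j) S f =
      if S ∩ {none} = S₀ ∧ (S.erase none).card = j then D.twM.L S (D.evG S f) else 0 := by
  change D.twG S₀ j (Pi.single S f) = _
  rw [twG_apply, sum_filter, sum_eq_single S (fun U _ h => by simp [Pi.single_eq_of_ne h])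
    (by simp), Pi.single_eq_same]

theorem twG_rl (hl : D.NL) (S₀ : Finset (Option (Fin n))) (j : ℕ) :
    D.twM.Rl (D.gam S₀ j) (D.twG S₀ j) := fun S f => by
  rw [cpt_gam, cpt_twG]
  split_ifs
  · exact ⟨fun φ ψ h1 h2 h3 => by rw [D.twSp_evG hl h1, D.twSp_evG hl h2, twP_congr h3], rfl⟩
  · exact ⟨zero_mem _, (map_zero _).symm⟩

theorem tw_zero (hl : D.NL) (ht : ∀ e, D.t e = 0) (hh : D.h = 0) (f : Pol n ℂ)
    (hf : ∀ π g, D.res (RingHom.id ℂ) π (f * g) = 0) :
    ∑ j ∈ range (n + 1), WW D.vd.star (D.twG ∅) (n - j) (D.twG {none} j)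
      (Pi.single univ (rename some f)) = 0 := by
  let N : Submodule ℂ ((MM (Option (Fin n)) →ₗ[ℂ] D.TG) × (MM (Option (Fin n)) →ₗ[ℂ] TF n)) :=
    { carrier := {x | D.twM.Rl x.1 x.2}
      add_mem' := fun {x y} hx hy S f => ⟨add_mem (hx S f).1 (hy S f).1,
        (congrArg₂ (· + ·) (hx S f).2 (hy S f).2).trans (map_add _ _ _).symm⟩
      zero_mem' := fun S f => ⟨zero_mem _, (map_zero _).symm⟩
      smul_mem' := fun c x hx S f => ⟨Submodule.smul_mem _ c (hx S f).1,
        (congrArg (c • ·) (hx S f).2).trans (map_smul _ _ _).symm⟩ }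
  have h := congrArg (D.twM.L univ) (D.gen_zero hl ht hh f hf)
  rw [map_zero, map_sum] at h
  rw [← h]
  refine sum_congr rfl fun j _ => ?_
  have h2 : D.twM.Rl _ _ := WW_rel (γ := D.gam ∅) (γ' := D.twG ∅) (ψ := D.gam {none} j)
    (ψ' := D.twG {none} j) N (fun x hx y hy => D.vd.star_rl D.twM hx hy)
    (fun j => D.twG_rl hl ∅ _) (n - j) (D.twG_rl hl {none} j)
  exact (h2 univ (rename some f)).2

theorem tw_KS (w : stab D.col) (S : Finset (Option (Fin n))) :
    D.vd.KS S (twP S w.1) = D.vd.KS (S.image (Option.map w.1)) (pos0 (S.image (Option.map w.1))) := by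
  have i : Function.Injective (Option.map w.1) := Option.map_injective w.1.injective
  have c : ∀ o : Option (Fin n), (o.map w.1).map D.col = o.map D.col := fun o => by
    cases o <;> simp [w.2 _]
  have e : ∀ b ∈ S, pos0 (S.image (Option.map w.1)) (b.map w.1) = twP S w.1 b := fun b hb => by
    rw [pos0, twP, if_pos hb, if_pos (mem_image_of_mem _ hb)]
  rw [VD.KS, VD.KS, prod_image i.injOn]
  refine prod_congr rfl fun a ha => ?_
  rw [← image_erase i, prod_image i.injOn]
  refine prod_congr rfl fun b hb => ?_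
  rw [e a ha, e b (mem_of_mem_erase hb)]
  simp only [VD.kap, vd, c]

/-- the polynomial with the variables outside the label killed -/
def twZ (S : Finset (Option (Fin n))) : AA (Option (Fin n)) →ₐ[ℂ] Pol n ℂ :=
  aeval fun b => if b ∈ S then xv b else 0

theorem tw_sum (hl : D.NL) (S : Finset (Option (Fin n))) : ∃ c : ℂ, c ≠ 0 ∧ ∀ p,
    D.twM.L S (D.evG S p) = c • ∑ w : stab D.col, AddMonoidAlgebra.single
      (-ind ((twX S).image w.1)) (algebraMap _ (K0 n) (rename w.1 (twZ S p)) *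
        ((∏ a ∈ (twX S).image w.1, D.c0 (-ind {a})) *
          D.vd.KS (S.image (Option.map w.1)) (pos0 (S.image (Option.map w.1))))) := by
  obtain ⟨N, hN, h⟩ := sum_restrict D.col (twX S)
  have hN' : (N : ℂ) ≠ 0 := Nat.cast_ne_zero.2 hN
  refine ⟨(N : ℂ)⁻¹, inv_ne_zero hN', fun p => ?_⟩
  rw [eq_inv_smul_iff₀ hN', Nat.cast_smul_eq_nsmul]
  have h1 := h fun φ => (∏ a ∈ twX S, D.twB (φ a)) *
    algebraMap _ (TF n) (D.vd.KS S (twP S φ) * aeval (twP S φ) p)
  rw [sum_filter_of_ne] at h1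
  · change N • (∑ φ ∈ Maps D.col (twX S), D.twT S φ) _ = _
    rw [LinearMap.sum_apply, sum_congr rfl fun φ hφ => by
      rw [twT_apply, D.twSp_evG hl (mem_Maps.1 hφ).1], ← h1]
    refine sum_congr rfl fun w _ => ?_
    have e : aeval (twP S w.1) p = algebraMap _ (K0 n) (rename w.1 (twZ S p)) := by
      refine AlgHom.congr_fun (?_ : aeval (twP S w.1) = (IsScalarTower.toAlgHom ℂ (Pol n ℂ)
        (K0 n)).comp ((rename w.1).comp (twZ S))) p
      refine algHom_ext fun b => ?_
      by_cases hb : b ∈ S <;> simp [twP, twZ, hb, rename_xv]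
    have e2 : ∑ a ∈ (twX S).image w.1, -ind {a} = -ind ((twX S).image w.1) := by
      funext b
      simp only [ind, Finset.sum_apply, Pi.neg_apply, mem_singleton, sum_neg_distrib, sum_ite_eq]
    rw [twP_congr (ψ := w.1) fun a ha => piecewise_eq_of_mem _ _ _ (mem_twX.2 ha),
      prod_congr rfl fun a ha => congrArg D.twB ((twX S).piecewise_eq_of_mem w.1 id ha),
      ← prod_image (f := D.twB) w.1.injective.injOn, e, tw_KS]
    simp only [twB]
    rw [AddMonoidAlgebra.prod_single, e2, AddMonoidAlgebra.coe_algebraMap, Function.comp_apply,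
      AddMonoidAlgebra.single_mul_single, add_zero, Algebra.algebraMap_self, RingHom.id_apply]
    congr 1
    ring
  · intro φ hφ h0 a ha b hb e
    by_contra ne
    have c : D.col a = D.col b := by rw [← (mem_Maps.1 hφ).1 a, e, (mem_Maps.1 hφ).1 b]
    have ha' := mem_twX.1 ha
    have hb' := mem_twX.1 hb
    refine h0 ?_
    rw [VD.KS, prod_eq_zero ha' (prod_eq_zero (i := some b) (mem_erase.2 ⟨by simpa using Ne.symm ne,
      hb'⟩) (by simp [VD.kap, vd, twP, ha', hb', e, c])), zero_mul, map_zero, mul_zero]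

theorem tw_ind (w : Equiv.Perm (Fin n)) (S : Finset (Fin n)) :
    ind S ∘ w.symm = ind (S.image w) := by
  funext a
  obtain ⟨b, rfl⟩ := w.surjective a
  simp [ind]

theorem tw_val (hl : D.NL) (ht : ∀ e, D.t e = 0) (hh : D.h = 0) (S : Finset (Option (Fin n))) :
    ∃ c : ℂ, c ≠ 0 ∧ ∀ p, (none ∉ S → D.twM.L S (D.evG S p) = c • D.mon0 (-ind (twX S)) (twZ S p)) ∧
      (none ∈ S → AddMonoidAlgebra.single (ind univ) (D.c0 (ind univ)) * D.twM.L S (D.evG S p) =
        c • D.mon0 (ind (twX S)ᶜ) (twZ S p)) := by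
  obtain ⟨c, hc, h⟩ := D.tw_sum hl S
  refine ⟨c, hc, fun p => ⟨fun hS => ?_, fun hS => ?_⟩⟩
  · rw [h, mon0]
    refine congrArg _ (sum_congr rfl fun w _ => ?_)
    have e : S.image (Option.map w.1) = ((twX S).image w.1).image some := by
      ext b
      cases b <;> simp [mem_twX, hS]
    rw [e, D.c0_neg hl ht hh, ← tw_ind]; rfl
  · rw [h, mon0, mul_smul_comm, mul_sum]
    refine congrArg _ (sum_congr rfl fun w _ => ?_)
    have e : S.image (Option.map w.1) = insert none (((twX S).image w.1).image some) := by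
      ext b
      cases b <;> simp [mem_twX, hS]
    have e2 : ∀ U : Finset (Fin n), ind univ + -ind U = ind Uᶜ := fun U => by
      funext a
      by_cases ha : a ∈ U <;> simp [ind, ha]
    have e3 : (twX S)ᶜ.image w.1 = ((twX S).image w.1)ᶜ := by
      ext a
      obtain ⟨b, rfl⟩ := w.1.surjective a
      simp
    rw [e, AddMonoidAlgebra.single_mul_single, e2, tw_ind, e3, ← D.c0_pos hl ht hh]
    congr 1
    ring

theorem smul_mon0 (c : ℂ) (μ : Fin n → ℤ) (g : Pol n ℂ) : c • D.mon0 μ g = D.mon0 μ (c • g) := by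
  simp only [mon0, smul_sum, AddMonoidAlgebra.smul_single, map_smul, ← smul_mul_assoc]
  refine sum_congr rfl fun w _ => ?_
  exact congrArg (fun x => AddMonoidAlgebra.single _ (x * _))
    (map_smul (IsScalarTower.toAlgHom ℂ (Pol n ℂ) (K0 n)) c (rename w.1 g)).symm

/-- functionals with values in a subspace -/
def twF (Q : Submodule ℂ (TF n)) : Submodule ℂ (MM (Option (Fin n)) →ₗ[ℂ] TF n) where
  carrier := {α | ∀ F, α F ∈ Q}
  add_mem' hx hy F := add_mem (hx F) (hy F)
  zero_mem' _ := zero_mem _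
  smul_mem' c _ hx F := Q.smul_mem c (hx F)

theorem twF_star {Q₁ Q₂ Q₃ : Submodule ℂ (TF n)} (h : ∀ x ∈ Q₁, ∀ y ∈ Q₂, x * y ∈ Q₃) :
    ∀ x ∈ twF Q₁, ∀ y ∈ twF Q₂, D.vd.star x y ∈ twF Q₃ := fun _ hx _ hy => D.vd.star_val h hx hy

theorem two (hl : D.NL) (ht : ∀ e, D.t e = 0) (hh : D.h = 0) {f : Pol n ℂ}
    (hf : f ∈ Inv ℂ D.col) (hr : ∀ π g, D.res (RingHom.id ℂ) π (f * g) = 0) :
    (AddMonoidAlgebra.single 0 (algebraMap _ (K0 n) f) : TF n) ∈ AddSubgroup.closure
      {x | ∃ (S : Finset (Fin n)) (g : Pol n ℂ) (y : TF n) (S' : Finset (Fin n)) (g' : Pol n ℂ),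
        S.Nonempty ∧ y ∈ Subring.closure {z | ∃ U p, z = D.mon0 (-ind U) p} ∧
        x = D.mon0 (-ind S) g * (y * D.mon0 (ind S') g')} := by
  set B := Subring.closure {z | ∃ U p, z = D.mon0 (-ind U) p} with hB
  set sT := {x | ∃ (S : Finset (Fin n)) (g : Pol n ℂ) (y : TF n) (S' : Finset (Fin n))
    (g' : Pol n ℂ), S.Nonempty ∧ y ∈ B ∧ x = D.mon0 (-ind S) g * (y * D.mon0 (ind S') g')}
  set sN := {x | ∃ (S : Finset (Fin n)) (g : Pol n ℂ) (y : TF n), S.Nonempty ∧ y ∈ B ∧
    x = D.mon0 (-ind S) g * y}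
  set sQ := {x | ∃ (y : TF n) (S' : Finset (Fin n)) (g' : Pol n ℂ), y ∈ B ∧
    x = y * D.mon0 (ind S') g'}
  set Cf : TF n := AddMonoidAlgebra.single (ind univ) (D.c0 (ind univ)) with hCf
  have mB : ∀ U p, D.mon0 (-ind U) p ∈ B := fun U p => Subring.subset_closure ⟨U, p, rfl⟩
  have key : ∀ {s t u : Set (TF n)}, (∀ x ∈ s, ∀ y ∈ t, x * y ∈ u) → ∀ x ∈ Submodule.span ℂ s,
      ∀ y ∈ Submodule.span ℂ t, x * y ∈ Submodule.span ℂ u := fun h x hx y hy => by
    have := Submodule.mul_mem_mul hx hy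
    rw [Submodule.span_mul_span] at this
    exact Submodule.span_mono (Set.mul_subset_iff.2 h) this
  have k1 := key (s := sN) (t := sN) (u := sN) (by
    rintro _ ⟨S, g, y, h1, h2, rfl⟩ _ ⟨S', g', y', -, h4, rfl⟩
    exact ⟨S, g, _, h1, mul_mem h2 (mul_mem (mB S' g') h4), mul_assoc _ _ _⟩)
  have k2 := key (s := sN) (t := sQ) (u := sQ) (by
    rintro _ ⟨S, g, y, h1, h2, rfl⟩ _ ⟨y', S', g', h4, rfl⟩
    exact ⟨_, S', g', mul_mem (mul_mem (mB S g) h2) h4, (mul_assoc _ _ _).symm⟩)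
  have k3 := key (s := sN) (t := sQ) (u := sT) (by
    rintro _ ⟨S, g, y, h1, h2, rfl⟩ _ ⟨y', S', g', h4, rfl⟩
    exact ⟨S, g, _, S', g', h1, mul_mem h2 h4, by ring⟩)
  have k4 : ∀ m j, WW D.vd.star (D.twG ∅) (m + 1) (D.twG {none} j) ∈
      twF ((Submodule.span ℂ sT).comap (LinearMap.mulLeft ℂ Cf)) := fun m j => by
    refine WW_val (twF (Submodule.span ℂ sN))
      (twF ((Submodule.span ℂ sQ).comap (LinearMap.mulLeft ℂ Cf))) _
      (D.twF_star k1) (fun x hx y hy => ⟨D.twF_star ?_ x hx y hy, D.twF_star ?_ x hx y hy⟩)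
      (fun j => ?_) m ?_
    · exact fun x hx y hy => Submodule.mem_comap.2 (by
        rw [LinearMap.mulLeft_apply, mul_left_comm]; exact k2 x hx _ hy)
    · exact fun x hx y hy => Submodule.mem_comap.2 (by
        rw [LinearMap.mulLeft_apply, mul_left_comm]; exact k3 x hx _ hy)
    · intro F
      rw [twG_apply]
      refine sum_mem fun S hS => ?_
      obtain ⟨h1, h2⟩ := (mem_filter.1 hS).2
      obtain ⟨c, -, h⟩ := D.tw_val hl ht hh S
      obtain ⟨b, hb⟩ := card_pos.1 (h2.symm ▸ j.succ_pos : 0 < (S.erase none).card)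
      obtain ⟨a, rfl⟩ := Option.ne_none_iff_exists'.1 (ne_of_mem_erase hb)
      rw [(h _).1 fun h0 => notMem_empty none (h1 ▸ mem_inter.2 ⟨h0, mem_singleton_self _⟩)]
      exact Submodule.smul_mem _ _ (Submodule.subset_span ⟨_, _, 1,
        ⟨a, mem_twX.2 (mem_of_mem_erase hb)⟩, one_mem _, (mul_one _).symm⟩)
    · intro F
      rw [twG_apply]
      refine sum_mem fun S hS => ?_
      obtain ⟨c, -, h⟩ := D.tw_val hl ht hh S
      rw [Submodule.mem_comap, LinearMap.mulLeft_apply, (h _).2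
        (mem_inter.1 ((mem_filter.1 hS).2.1 ▸ mem_singleton_self _)).1]
      exact Submodule.smul_mem _ _ (Submodule.subset_span ⟨1, _, _, one_mem _, (one_mul _).symm⟩)
  have h0 := D.tw_zero hl ht hh f hr
  rw [sum_range_succ, Nat.sub_self, WW_zero] at h0
  have h1 : Cf * cpt (D.twG {none} n) univ (rename some f) ∈ Submodule.span ℂ sT := by
    refine Submodule.mem_comap.1 (show _ ∈ (Submodule.span ℂ sT).comap (LinearMap.mulLeft ℂ Cf) from
      eq_neg_of_add_eq_zero_right h0 ▸ neg_mem (sum_mem fun j hj => ?_))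
    rw [show n - j = n - j - 1 + 1 by have := mem_range.1 hj; omega]
    exact k4 _ _ _
  obtain ⟨c, hc, h⟩ := D.tw_val hl ht hh univ
  have e1 : ind (twX (univ : Finset (Option (Fin n))))ᶜ = 0 := by funext a; simp [ind, twX]
  have e2 : twZ univ (rename some f) = f := by
    rw [twZ, aeval_rename, show ((fun b => if b ∈ univ then xv b else 0) ∘ some) =
      (X : Fin n → Pol n ℂ) from funext fun a => by simp, aeval_X_left_apply]
  have e3 : D.mon0 0 f = (Fintype.card (stab D.col) : ℂ) •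
      AddMonoidAlgebra.single 0 (algebraMap _ (K0 n) f) := by
    rw [Nat.cast_smul_eq_nsmul, ← card_univ, ← sum_const]
    refine sum_congr rfl fun w _ => ?_
    rw [hf w.1 w.2, show (0 : Fin n → ℤ) ∘ w.1.symm = 0 from rfl, c0, mm_zero, ee_zero, map_one,
      div_one, mul_one]
  rw [cpt_twG, if_pos ⟨univ_inter _, by simp [card_erase_of_mem]⟩, (h _).2 (mem_univ _), e1, e2, e3,
    Submodule.smul_mem_iff _ hc, Submodule.smul_mem_iff _ (Nat.cast_ne_zero.2 Fintype.card_ne_zero),
    ← Submodule.mem_toAddSubmonoid, Submodule.span_eq_closure] at h1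
  refine (AddSubmonoid.closure_le (S := (AddSubgroup.closure sT).toAddSubmonoid)).2 ?_ h1
  rintro _ ⟨c, -, _, ⟨S, g, y, S', g', h1, h2, rfl⟩, rfl⟩
  exact AddSubgroup.subset_closure ⟨S, c • g, y, S', g', h1, h2, by
    rw [← smul_mon0, smul_mul_assoc]⟩

end QD

end Pool.Agent.Work.MP_849ab0_ag
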