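import Pool.Agent.Work.MP_849ab0_ag.Grade
import Pool.Agent.Work.MP_849ab0_ag.Dec
import Pool.Agent.Work.MP_849ab0_ag.Two

/-! Lifting the identity at the origin, and the graded Nakayama argument. -/

noncomputable section

set_option linter.unusedSectionVars false

namespace Pool.Agent.Work.MP_849ab0_ag

open MvPolynomial Finset
open scoped Polynomial

/-- a grading of the base ring with degree zero part `ℂ` -/
structure Grd (R : Type) [CommRing R] where
  g : R →+* R[X]
  ev : R →+* ℂ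
  s : ℂ →+* R
  ev_s : ∀ c, ev (s c) = c
  eval_one : ∀ r, (g r).eval 1 = r
  g_two : ∀ r, g ((g r).eval 2) = (g r).comp (Polynomial.C 2 * Polynomial.X)
  coeff_zero : ∀ r, (g r).coeff 0 = s (ev r)
  g_s : ∀ c, g (s c) = Polynomial.C (s c)

namespace Grd

variable {n : ℕ} {R : Type} [CommRing R] (G : Grd R)

/-- the grading on polynomials -/
def Gr : Pol n R →+* (Pol n R)[X] :=
  eval₂Hom ((Polynomial.mapRingHom C).comp G.g) fun a => Polynomial.C (X a) * Polynomial.X

theorem Gr_C (r : R) : G.Gr (C r : Pol n R) = (G.g r).map C := by simp [Gr]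

theorem Gr_X (a : Fin n) : G.Gr (X a : Pol n R) = Polynomial.C (X a) * Polynomial.X := by
  simp [Gr]

/-- scaling by two -/
def sc : Pol n R →+* Pol n R := (Polynomial.evalRingHom 2).comp G.Gr

theorem sc_C (r : R) : G.sc (C r : Pol n R) = C ((G.g r).eval 2) := by
  simp only [sc, RingHom.comp_apply, Gr_C, Polynomial.coe_evalRingHom]
  rw [show (2 : Pol n R) = C 2 from rfl, Polynomial.eval_map, Polynomial.eval₂_at_apply]

theorem sc_X (a : Fin n) : G.sc (X a : Pol n R) = 2 * X a := by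
  rw [sc, RingHom.comp_apply, Gr_X, Polynomial.coe_evalRingHom, Polynomial.eval_mul,
    Polynomial.eval_C, Polynomial.eval_X, mul_comm]

theorem eval_Gr (p : Pol n R) : (G.Gr p).eval 1 = p := by
  induction p using MvPolynomial.induction_on with
  | C r =>
    rw [Gr_C, show (1 : Pol n R) = C 1 from rfl, Polynomial.eval_map, Polynomial.eval₂_at_apply,
      G.eval_one]
  | add p q hp hq => simp [hp, hq]
  | mul_X p a hp => simp [hp, Gr_X]

theorem Gr_sc (p : Pol n R) :
    G.Gr (G.sc p) = (G.Gr p).comp (Polynomial.C 2 * Polynomial.X) := by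
  induction p using MvPolynomial.induction_on with
  | C r => rw [sc_C, Gr_C, Gr_C, G.g_two, Polynomial.map_comp]; simp [map_ofNat]
  | add p q hp hq => simp [hp, hq]
  | mul_X p a hp =>
    rw [map_mul, map_mul, hp, sc_X, map_mul, map_mul, Gr_X, Polynomial.mul_comp]
    simp [map_ofNat]; ring

theorem Gr_rename (w : Fin n → Fin n) (p : Pol n R) :
    G.Gr (rename w p) = (G.Gr p).map (rename w : Pol n R →ₐ[R] Pol n R) := by
  induction p using MvPolynomial.induction_on with
  | C r =>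
    rw [rename_C, Gr_C, Polynomial.map_map]
    congr 1; ext1 c; simp
  | add p q hp hq => simp [hp, hq]
  | mul_X p a hp => simp [hp, Gr_X]

theorem sc_rename (w : Fin n → Fin n) (p : Pol n R) : G.sc (rename w p) = rename w (G.sc p) := by
  induction p using MvPolynomial.induction_on with
  | C r => simp [sc_C]
  | add p q hp hq => simp [hp, hq]
  | mul_X p a hp => simp [hp, sc_X, map_ofNat]

theorem coeff_Gr_mem {J : Type} {c : Fin n → J} {p : Pol n R} (hp : p ∈ Inv R c) (d : ℕ) :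
    (G.Gr p).coeff d ∈ Inv R c := by
  intro w hw
  have := congrArg (fun q => Polynomial.coeff q d) (G.Gr_rename w p)
  simp only [hp w hw, Polynomial.coeff_map] at this
  exact this.symm

theorem Gr_hom {f : Pol n ℂ} {d : ℕ} (hf : f.IsHomogeneous d) :
    G.Gr (MvPolynomial.map G.s f) = Polynomial.C (MvPolynomial.map G.s f) * Polynomial.X ^ d := by
  conv_lhs => rw [f.as_sum]
  conv_rhs => rw [f.as_sum]
  rw [map_sum, map_sum, map_sum, sum_mul]
  refine sum_congr rfl fun m hm => ?_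
  have : m.degree = d := by
    by_contra e; exact mem_support_iff.1 hm (hf.coeff_eq_zero e)
  rw [map_monomial, monomial_eq, map_mul, Gr_C, G.g_s, Polynomial.map_C, map_finsuppProd,
    ← this, Finsupp.degree_apply, map_mul, mul_assoc, map_finsuppProd, Finsupp.prod, Finsupp.prod,
    ← prod_pow_eq_pow_sum, ← prod_mul_distrib]
  simp only [map_pow, Gr_X, mul_pow]

/-- a subspace stable under scaling contains the homogeneous parts of its elements -/
theorem coeff_mem [Algebra ℚ R] (U : Submodule R (Pol n R)) (hU : ∀ p ∈ U, G.sc p ∈ U)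
    {p : Pol n R} (hp : p ∈ U) (d : ℕ) : (G.Gr p).coeff d ∈ U := by
  have key : ∀ N : ℕ, ∀ p ∈ U, (∀ d, N ≤ d → (G.Gr p).coeff d = 0) →
      ∀ d, (G.Gr p).coeff d ∈ U := by
    intro N
    induction N with
    | zero => intro p _ h d; rw [h d (Nat.zero_le _)]; exact zero_mem _
    | succ N ih =>
      intro p hp h
      have hc : ∀ d, (G.Gr (G.sc p - (2 : R) ^ N • p)).coeff d =
          ((2 : R) ^ d - 2 ^ N) • (G.Gr p).coeff d := by
        intro d
        rw [map_sub, Gr_sc, Polynomial.coeff_sub, Polynomial.comp_C_mul_X_coeff, smul_eq_C_mul,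
          smul_eq_C_mul]
        simp only [map_mul, map_pow, map_ofNat, map_sub]
        rw [show ((2 : (Pol n R)[X])) = Polynomial.C 2 from rfl, ← map_pow,
          Polynomial.coeff_C_mul]
        ring
      have h1 := ih _ (sub_mem (hU p hp) (U.smul_mem ((2 : R) ^ N) hp)) fun d hd => by
        rw [hc]
        rcases hd.eq_or_lt with e | e
        · rw [e, sub_self, zero_smul]
        · rw [h d e, smul_zero]
      have h2 : ∀ d, d ≠ N → (G.Gr p).coeff d ∈ U := by
        intro d hd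
        have hne : ((2 : ℚ) ^ d - 2 ^ N) ≠ 0 :=
          sub_ne_zero.2 fun e => hd (pow_right_injective₀ (by norm_num) (by norm_num) e)
        have := U.smul_mem (algebraMap ℚ R ((2 : ℚ) ^ d - 2 ^ N)⁻¹) (h1 d)
        rw [hc, smul_smul, show ((2 : R) ^ d - 2 ^ N) = algebraMap ℚ R (2 ^ d - 2 ^ N) by
          simp [map_ofNat], ← map_mul, inv_mul_cancel₀ hne, map_one, one_smul] at this
        exact this
      intro d
      by_cases hd : d = N
      · have e := G.eval_Gr p
        rw [Polynomial.eval_eq_sum_range' (n := max (G.Gr p).natDegree N + 1) (by omega),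
          ← add_sum_erase _ _ (mem_range.2 (show N < max (G.Gr p).natDegree N + 1 by omega))] at e
        simp only [one_pow, mul_one] at e
        rw [hd, eq_sub_of_add_eq e]
        exact sub_mem hp (sum_mem fun i hi => h2 i (ne_of_mem_erase hi))
      · exact h2 d hd
  exact key ((G.Gr p).natDegree + 1) p hp
    (fun d hd => Polynomial.coeff_eq_zero_of_natDegree_lt hd) d

end Grd

namespace QD

variable {k n : ℕ} {E R : Type} [Fintype E] [CommRing R] [IsDomain R] [Algebra ℚ R]
  (D : QD k n E R)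

section Origin

variable (χ : R →+* ℂ) (hh0 : χ D.h = 0)

/-- specialisation to the commutative ring at the origin -/
def sp0 : D.Op D.Om →+* TF n :=
  SkewMonoidAlgebra.liftNCRingHom (AddMonoidAlgebra.singleZeroRingHom.comp (D.sp χ))
    (AddMonoidAlgebra.of (K0 n) (Fin n → ℤ) : D.Lat →* TF n) (by
      intro x y
      have : D.sp χ (y • x) = D.sp χ x :=
        (D.sp_act χ y x).trans ((D.map χ).act_of_h_zero hh0 _ _)
      rw [RingHom.comp_apply, this, mul_comm]; rfl)

theorem sp0_sg (μ : Fin n → ℤ) (c : D.Om) :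
    D.sp0 χ hh0 (D.sg μ c) = AddMonoidAlgebra.single μ (D.sp χ c) := by
  have : D.sp0 χ hh0 (D.sg μ c) =
      AddMonoidAlgebra.single 0 (D.sp χ c) * AddMonoidAlgebra.single μ 1 :=
    SkewMonoidAlgebra.liftNC_single _ _ _ _
  rw [this, AddMonoidAlgebra.single_mul_single, zero_add, mul_one]

theorem sp0_mon (μ : Fin n → ℤ) (g : Pol n R) :
    D.sp0 χ hh0 (D.mon _ μ g) = (D.map χ).mon0 μ (MvPolynomial.map χ g) := by
  rw [mon_om, mon0, map_sum]
  refine sum_congr rfl fun w _ => ?_
  rw [sp0_sg, map_mul, sp_al, sp_cc, map_rename, c0, Ring.inverse_eq_inv', div_eq_mul_inv]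

theorem sp0_eq_zero {x : D.Op D.Om} (h : D.sp0 χ hh0 x = 0) (μ : Fin n → ℤ) :
    D.sp χ (D.co x μ) = 0 := by
  by_cases hμ : μ ∈ D.sup x
  · rw [← D.sum_sg x, map_sum] at h
    have := congrArg (fun y : TF n => y.coeff μ) h
    simp only [sp0_sg, AddMonoidAlgebra.coeff_sum, AddMonoidAlgebra.coeff_single,
      Finsupp.finsetSum_apply, Finsupp.single_apply, sum_ite_eq', if_pos hμ] at this
    simpa using this
  · rw [mem_sup, not_not] at hμ; rw [hμ, map_zero]

include hh0 in
theorem two_lift (hl : D.NL) (hh : D.h ≠ 0) {ν : Fin k → ℤ} (hν : ∀ i, 0 < ν i)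
    (ht0 : ∀ e, χ (D.t e) = 0) (s : ℂ →+* R) (hs : ∀ c, χ (s c) = c) {f : Pol n ℂ}
    (hf : f ∈ Inv ℂ D.col) (hr : ∀ π g, (D.map χ).res (RingHom.id ℂ) π (f * g) = 0) :
    ∃ f' ∈ Inv R D.col, MvPolynomial.map χ f' = 0 ∧
      D.cst D.Om (MvPolynomial.map s f - f') ∈ D.JM D.Om ν 1 := by
  have h2 := (D.map χ).two hl ht0 hh0 hf hr
  have hN : ∀ y ∈ Subring.closure {z | ∃ U p, z = (D.map χ).mon0 (-ind U) p},
      ∃ x ∈ D.Alg D.Om, D.Le 0 x ∧ D.sp0 χ hh0 x = y := by
    intro y hy
    induction hy using Subring.closure_induction with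
    | mem y hy =>
      obtain ⟨U, p, rfl⟩ := hy
      refine ⟨_, D.mon_mem (neg_ind_min U) (MvPolynomial.map s p), D.le_mon (fun a => ?_) _, ?_⟩
      · simp only [Pi.neg_apply, ind]; split_ifs <;> simp
      · rw [sp0_mon, map_map_sec χ s hs]
    | zero => exact ⟨0, zero_mem _, fun μ h => absurd rfl h, map_zero _⟩
    | one => exact ⟨1, one_mem _, by simpa [← cstHom_apply] using D.le_cst (K := D.Om) le_rfl 1,
        map_one _⟩
    | add y z _ _ hy hz =>
      obtain ⟨y, h1, h2, rfl⟩ := hy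
      obtain ⟨z, h3, h4, rfl⟩ := hz
      refine ⟨y + z, add_mem h1 h3, ?_, map_add _ _ _⟩
      simpa using h2.sub D (Le.sub D (x := 0) (fun μ h => absurd rfl h) h4)
    | neg y _ hy =>
      obtain ⟨y, h1, h2, rfl⟩ := hy
      refine ⟨-y, neg_mem h1, ?_, map_neg _ _⟩
      simpa using Le.sub D (x := 0) (fun μ h => absurd rfl h) h2
    | mul y z _ _ hy hz =>
      obtain ⟨y, h1, h2, rfl⟩ := hy
      obtain ⟨z, h3, h4, rfl⟩ := hz
      exact ⟨y * z, mul_mem h1 h3, by simpa using h2.mul D h4, map_mul _ _ _⟩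
  obtain ⟨x, hx, hx'⟩ : ∃ x, (D.cmp ν 0 x ∈ D.JM D.Om ν 1 ∧ D.Le 1 x) ∧
      D.sp0 χ hh0 x = AddMonoidAlgebra.single 0 (algebraMap _ (K0 n) f) := by
    generalize (AddMonoidAlgebra.single 0 (algebraMap _ (K0 n) f) : TF n) = y at h2
    induction h2 using AddSubgroup.closure_induction with
    | mem y hy =>
      obtain ⟨S, g, y, S', g', hS, hy, rfl⟩ := hy
      obtain ⟨y, h1, h2, rfl⟩ := hN y hy
      have h3 : D.Le 1 (y * D.mon D.Om (ind S') (MvPolynomial.map s g')) := by
        simpa using h2.mul D (D.le_mon (M := 1) (μ := ind S')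
          (fun a => by simp only [ind]; split_ifs <;> simp) (MvPolynomial.map s g'))
      refine ⟨D.mon _ (-ind S) (MvPolynomial.map s g) *
        (y * D.mon _ (ind S') (MvPolynomial.map s g')), ⟨?_, ?_⟩, ?_⟩
      · rw [D.cmp_mul (D.hom_mon ν _ _), dg_neg, zero_sub, neg_neg]
        exact AddSubgroup.subset_closure ⟨S, _, _, hS,
          D.cmp_mem ν (mul_mem h1 (D.mon_mem (ind_min S') _)) _, D.hom_cmp ν _ _, h3.cmp D ν _, rfl⟩
      · simpa using (D.le_mon (M := 0) (μ := -ind S) (fun a => by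
          simp only [Pi.neg_apply, ind]; split_ifs <;> simp) (MvPolynomial.map s g)).mul D h3
      · rw [map_mul, map_mul, sp0_mon, sp0_mon, map_map_sec χ s hs, map_map_sec χ s hs]
    | zero => exact ⟨0, ⟨by simp, fun μ h => absurd rfl h⟩, map_zero _⟩
    | add y z _ _ hy hz =>
      obtain ⟨y, h1, rfl⟩ := hy
      obtain ⟨z, h3, rfl⟩ := hz
      refine ⟨y + z, ⟨by rw [map_add]; exact add_mem h1.1 h3.1, ?_⟩, map_add _ _ _⟩
      simpa using h1.2.sub D (Le.sub D (x := 0) (fun μ h => absurd rfl h) h3.2)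
    | neg y _ hy =>
      obtain ⟨y, h1, rfl⟩ := hy
      refine ⟨-y, ⟨by rw [map_neg]; exact neg_mem h1.1, ?_⟩, map_neg _ _⟩
      simpa using Le.sub D (x := 0) (fun μ h => absurd rfl h) h1.2
  have hc := D.cst_mem (K := D.Om) (map_mem_Inv s hf)
  have h0 : D.sp0 χ hh0 (D.cst D.Om (MvPolynomial.map s f) - x) = 0 := by
    rw [map_sub, hx', cst_eq, sp0_sg, sp_al, map_map_sec χ s hs, sub_self]
  obtain ⟨f', hf', h3, h4⟩ := D.dec hl hh hν (RingHom.ker (D.sp χ)) (D.sp_ker χ hl) 1 zero_le_one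
    (D.cst D.Om (MvPolynomial.map s f) - D.cmp ν 0 x)
    (sub_mem hc (D.JJ_mem (D.JM_le hν 1 hx.1)).1) ((D.hom_cst ν _).sub D (D.hom_cmp ν 0 x))
    ((D.le_cst zero_le_one _).sub D (hx.2.cmp D ν 0)) fun μ => by
      rw [← D.cmp_of_hom (D.hom_cst ν (MvPolynomial.map s f)), ← map_sub, co_cmp]
      split_ifs
      · exact D.sp0_eq_zero χ hh0 h0 μ
      · exact zero_mem _
  refine ⟨f', hf', ?_, ?_⟩
  · rw [RingHom.mem_ker, sp_al] at h3
    exact (map_eq_zero_iff _ (IsFractionRing.injective _ _)).1 h3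
  · have := add_mem h4 hx.1
    simp only [← cstHom_apply, map_sub] at this ⊢
    convert this using 1; abel

end Origin

section Scale

variable (G : Grd R) (ht : ∀ e, G.g (D.t e) = Polynomial.C (D.t e) * Polynomial.X)
  (hg : G.g D.h = Polynomial.C D.h * Polynomial.X)

include hg in
theorem sc_h : G.sc (C D.h : Pol n R) = 2 * C D.h := by
  rw [G.sc_C, hg, Polynomial.eval_mul, Polynomial.eval_C, Polynomial.eval_X, map_mul, mul_comm]
  rfl

include hg in
theorem sc_rt (a b : Fin n) (j : ℤ) : G.sc (D.rt a b j) = C 2 * D.rt a b j := by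
  simp only [rt, map_add, map_sub, map_mul, map_intCast, G.sc_X, D.sc_h G hg, map_ofNat]; ring

theorem isUnit_two : IsUnit (2 : R) := by
  simpa [map_ofNat] using (IsUnit.mk0 (2 : ℚ) two_ne_zero).map (algebraMap ℚ R)

include hg in
theorem sc_sh (μ : Fin n → ℤ) (f : Pol n R) : G.sc (D.sh μ f) = D.sh μ (G.sc f) := by
  induction f using MvPolynomial.induction_on with
  | C r => rw [sh_C, G.sc_C, sh_C]
  | add p q hp hq => simp [hp, hq]
  | mul_X p a hp =>
    simp only [map_mul, hp, sh_X, map_add, G.sc_X, map_intCast, D.sc_h G hg, map_ofNat]; ring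

theorem sc_prod {ι : Type} (s : Finset ι) (f : ι → Pol n R)
    (h : ∀ i ∈ s, ∃ c : R, IsUnit c ∧ G.sc (f i) = C c * f i) :
    ∃ c : R, IsUnit c ∧ G.sc (∏ i ∈ s, f i) = C c * ∏ i ∈ s, f i := by
  refine prod_induction _ (fun p => ∃ c : R, IsUnit c ∧ G.sc p = C c * p) ?_ ⟨1, by simp⟩ h
  rintro p q ⟨c, h1, h2⟩ ⟨d, h3, h4⟩
  exact ⟨c * d, h1.mul h3, by rw [map_mul, h2, h4, map_mul]; ring⟩

/-- scaling on `Om` -/
def scO : D.Om →+* D.Om := D.lift (D.al.comp G.sc) fun a b j h1 h2 => by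
  rw [RingHom.comp_apply, D.sc_rt G hg, map_mul]
  exact ((isUnit_two.map C).map D.al).mul (D.isUnit_rt j h1 h2)

theorem scO_al (f : Pol n R) : D.scO G hg (D.al f) = D.al (G.sc f) := D.lift_al _ _ _

theorem scO_act (μ : Fin n → ℤ) (c : D.Om) :
    D.scO G hg (D.act _ μ c) = D.act _ μ (D.scO G hg c) := by
  have : (D.scO G hg).comp (D.act _ μ) = (D.act _ μ).comp (D.scO G hg) :=
    D.om_ext fun f => by simp only [RingHom.comp_apply, act_alg, scO_al, D.sc_sh G hg]
  exact RingHom.congr_fun this c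

/-- scaling on operators -/
def scOp : D.Op D.Om →+* D.Op D.Om := D.opMap D (D.scO G hg) (D.scO_act G hg)

theorem scOp_cst (f : Pol n R) : D.scOp G hg (D.cst _ f) = D.cst _ (G.sc f) := by
  rw [cst_eq, cst_eq, scOp, opMap_sg, scO_al]

include ht in
theorem scOp_mon (μ : Fin n → ℤ) (g : Pol n R) :
    ∃ g', D.scOp G hg (D.mon _ μ g) = D.mon _ μ g' := by
  obtain ⟨c, -, hc⟩ : ∃ c : R, IsUnit c ∧ G.sc (D.mm μ) = C c * D.mm μ := by
    refine sc_prod G _ _ fun p _ => sc_prod G _ _ fun j _ => ⟨2, isUnit_two, ?_⟩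
    have hx : ∀ o : Option (Fin n), G.sc (xv o : Pol n R) = 2 * xv o := by
      intro o; cases o <;> simp [G.sc_X]
    simp only [chi, map_add, map_sub, map_mul, map_intCast, D.sc_h G hg, hx, G.sc_C, ht,
      Polynomial.eval_mul, Polynomial.eval_C, Polynomial.eval_X, map_ofNat]
    ring
  obtain ⟨d, ⟨d, rfl⟩, hd⟩ : ∃ c : R, IsUnit c ∧ G.sc (D.ee μ) = C c * D.ee μ :=
    sc_prod G _ _ fun p _ => sc_prod G _ _ fun j _ => ⟨2, isUnit_two, D.sc_rt G hg _ _ _⟩
  refine ⟨C (c * ↑d⁻¹) * G.sc g, ?_⟩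
  unfold mon
  rw [map_sum]
  refine sum_congr rfl fun w _ => ?_
  have hu : IsUnit (D.al (rename w.1 (D.ee μ))) := by rw [rename_ee]; exact D.isUnit_ee _
  have hd' : Ring.inverse (D.al (C (d : R))) = D.al (C (↑d⁻¹ : R)) := by
    rw [← map_inverse _ (d.isUnit.map C), ← map_inverse _ d.isUnit, Ring.inverse_unit]
  change D.opMap D _ _ (D.sg _ _) = D.sg _ _
  rw [opMap_sg, map_mul, map_inverse _ hu, scO_al, scO_al, G.sc_rename, G.sc_rename, map_mul G.sc,
    hc, hd]
  simp only [map_mul, rename_C, inverse_mul', hd']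
  congr 1; ring

include ht in
theorem scOp_mem {x : D.Op D.Om} (hx : x ∈ D.Alg _) : D.scOp G hg x ∈ D.Alg _ := by
  have : D.Alg _ ≤ (D.Alg _).comap (D.scOp G hg) := by
    refine Subring.closure_le.2 ?_
    rintro x (⟨f, hf, rfl⟩ | ⟨μ, g, hμ, rfl⟩)
    · rw [SetLike.mem_coe, Subring.mem_comap, scOp_cst]
      exact D.cst_mem fun w hw => by rw [← G.sc_rename, hf w hw]
    · obtain ⟨g', hg'⟩ := D.scOp_mon G ht hg μ g
      rw [SetLike.mem_coe, Subring.mem_comap, hg']; exact D.mon_mem hμ _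
  exact this hx

include ht in
theorem scOp_JM {ν : Fin k → ℤ} {M : ℤ} {x : D.Op D.Om} (hx : x ∈ D.JM _ ν M) :
    D.scOp G hg x ∈ D.JM _ ν M := by
  induction hx using AddSubgroup.closure_induction with
  | mem x hx =>
    obtain ⟨S, g, a, hS, ha, h1, h2, rfl⟩ := hx
    obtain ⟨g', hg'⟩ := D.scOp_mon G ht hg (-ind S) g
    exact AddSubgroup.subset_closure ⟨S, g', _, hS, D.scOp_mem G ht hg ha,
      fun μ hμ => h1 μ (D.co_opMap_ne _ _ _ hμ), h2.opMap D D _ _, by rw [map_mul, hg']⟩
  | zero => simp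
  | add y z _ _ hy hz => rw [map_add]; exact add_mem hy hz
  | neg y _ hy => rw [map_neg]; exact neg_mem hy

include ht hg in
theorem nak (hl : D.NL) (hh : D.h ≠ 0) {ν : Fin k → ℤ} (hν : ∀ i, 0 < ν i) {ι : Type} [Fintype ι]
    (f : ι → Pol n ℂ) (hf : ∀ i, f i ∈ Inv ℂ D.col) (hd : ∀ i, ∃ d, (f i).IsHomogeneous d)
    (hsp : ∀ p ∈ Inv ℂ D.col, ∃ c : ι → ℂ, ∀ π g,
      (D.map G.ev).res (RingHom.id ℂ) π ((p - ∑ i, C (c i) * f i) * g) = 0)
    (p : Pol n R) (hp : p ∈ Inv R D.col) :
    ∃ r : ι → R, D.cst D.Om (p - ∑ i, C (r i) * MvPolynomial.map G.s (f i)) ∈ D.JM D.Om ν 1 := by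
  have hz : ∀ r : R, G.g r = Polynomial.C r * Polynomial.X → G.ev r = 0 := by
    intro r hr
    have := congrArg G.ev (G.coeff_zero r)
    rw [hr, G.ev_s] at this
    simpa using this.symm
  let U : Submodule R (Pol n R) :=
    { carrier := {p | D.cst D.Om p ∈ D.JM D.Om ν 1}
      add_mem' := fun {p q} hp hq => by
        simpa only [Set.mem_ofPred_eq, ← cstHom_apply, map_add] using add_mem hp hq
      zero_mem' := by simp only [Set.mem_ofPred_eq, ← cstHom_apply, map_zero]; exact zero_mem _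
      smul_mem' := fun c p hp => by
        simpa only [Set.mem_ofPred_eq, ← cstHom_apply, map_mul, smul_eq_C_mul] using
          D.C_mul_mem_JM ν 1 c hp }
  have hU : ∀ p ∈ U, G.sc p ∈ U := fun p hp => by
    have := D.scOp_JM G ht hg (show D.cst D.Om p ∈ D.JM D.Om ν 1 from hp)
    rwa [scOp_cst] at this
  let N : Submodule R (Pol n R) :=
    U ⊔ Submodule.span R (Set.range fun i => MvPolynomial.map G.s (f i))
  have key : ∀ d, ∀ p ∈ Inv R D.col, (G.Gr p).coeff d ∈ N := by
    intro d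
    induction d using Nat.strong_induction_on with
    | _ d ih =>
      intro p hp
      obtain ⟨c, hc⟩ := hsp _ (map_mem_Inv G.ev hp)
      obtain ⟨f', hf', h1, h2⟩ := D.two_lift G.ev (hz _ hg) hl hh hν (fun e => hz _ (ht e)) G.s
        G.ev_s (sub_mem (map_mem_Inv G.ev hp) (sum_mem fun i _ =>
          mul_mem (Subalgebra.algebraMap_mem _ (c i)) (hf i))) hc
      set y := p - MvPolynomial.map G.s (MvPolynomial.map G.ev p) + f' with hy
      have hy1 : y ∈ Inv R D.col :=
        add_mem (sub_mem hp (map_mem_Inv G.s (map_mem_Inv G.ev hp))) hf'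
      have hy2 : MvPolynomial.map G.ev y = 0 := by
        rw [hy, map_add, map_sub, h1, map_map_sec G.ev G.s G.ev_s]; simp
      have e : p = y + (MvPolynomial.map G.s (MvPolynomial.map G.ev p - ∑ i, C (c i) * f i) - f') +
          ∑ i, C (G.s (c i)) * MvPolynomial.map G.s (f i) := by
        simp only [hy, map_sub, map_sum, map_mul, map_C]; ring
      rw [e, map_add, map_add, Polynomial.coeff_add, Polynomial.coeff_add]
      refine add_mem (add_mem ?_ (Submodule.mem_sup_left (G.coeff_mem U hU h2 d))) ?_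
      · rw [inv_decomp D.col hy1, map_sum, Polynomial.finsetSum_coeff]
        refine sum_mem fun m _ => ?_
        rw [map_mul, Polynomial.coeff_mul]
        refine sum_mem fun x hx => ?_
        rw [G.Gr_C, Polynomial.coeff_map]
        by_cases h0 : x.1 = 0
        · rw [h0, G.coeff_zero, ← coeff_map, hy2, coeff_zero, map_zero, map_zero, zero_mul]
          exact zero_mem _
        · rw [← smul_eq_C_mul]
          refine N.smul_mem _ (ih x.2 (by have := mem_antidiagonal.1 hx; omega) _ ?_)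
          exact mul_mem (Subalgebra.algebraMap_mem _ _) (Av_mem _ _)
      · rw [map_sum, Polynomial.finsetSum_coeff]
        refine sum_mem fun i _ => ?_
        obtain ⟨d', hd'⟩ := hd i
        rw [map_mul, G.Gr_C, G.g_s, Polynomial.map_C, G.Gr_hom hd', Polynomial.coeff_C_mul,
          Polynomial.coeff_C_mul_X_pow, ← smul_eq_C_mul]
        refine N.smul_mem _ ?_
        split_ifs
        · exact Submodule.mem_sup_right (Submodule.subset_span ⟨i, rfl⟩)
        · exact zero_mem _
  have hN : p ∈ N := by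
    rw [← G.eval_Gr p, Polynomial.eval_eq_sum_range]
    exact sum_mem fun d _ => by rw [one_pow, mul_one]; exact key d p hp
  obtain ⟨u, hu, v, hv, rfl⟩ := Submodule.mem_sup.1 hN
  obtain ⟨r, rfl⟩ := (Submodule.mem_span_range_iff_exists_fun R).1 hv
  refine ⟨r, ?_⟩
  simp only [smul_eq_C_mul, add_sub_cancel_right]
  exact hu

end Scale

end QD

end Pool.Agent.Work.MP_849ab0_ag
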