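import Pool.Agent.Work.MP_849ab0_ag.Laur

/-! Point removing operators and the products of functionals (a lattice vertex algebra
with one colour per point). -/

noncomputable section

set_option linter.unusedSectionVars false

namespace Pool.Agent.Work.MP_849ab0_ag

open MvPolynomial Finset

open scoped TensorProduct

/-- orders of zeros and poles of the pair kernel -/
structure VD (P : Type) where
  pp : P → P → ℕ
  rr : P → P → ℕ

/-- polynomials in all points -/
abbrev AA (P : Type) : Type := MvPolynomial P ℂ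

/-- one polynomial for each set of points -/
abbrev MM (P : Type) : Type := Finset P → AA P

variable {P : Type} [Fintype P] [DecidableEq P]

/-- evaluation of the constant term at the label `S` -/
def phi (S : Finset P) : MM P →ₗ[ℂ] ℂ := (lcoeff ℂ 0).comp (LinearMap.proj S)

/-- kill the variables outside the label -/
def JK : MM P →ₗ[ℂ] MM P :=
  LinearMap.pi fun S => (aeval fun b => if b ∈ S then X b else 0 : AA P →ₐ[ℂ] AA P).toLinearMap.comp
    (LinearMap.proj S)

/-- the component of a functional at the label `S` -/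
def cpt {T : Type} [AddCommMonoid T] [Module ℂ T] (α : MM P →ₗ[ℂ] T) (S : Finset P) :
    AA P →ₗ[ℂ] T := α.comp (LinearMap.single ℂ (fun _ => AA P) S)

/-- `f ↦ coeff j (f(pos) * K)` -/
def cf {B : Type} [CommRing B] [Algebra ℂ B] (pos : P → LS B) (K : LS B) (j : ℤ) :
    AA P →ₗ[ℂ] B where
  toFun f := (eval₂Hom (HahnSeries.C.comp (algebraMap ℂ B)) pos f * K).coeff j
  map_add' f g := by simp [add_mul]
  map_smul' c f := by
    rw [smul_eq_C_mul, map_mul, eval₂Hom_C, mul_assoc, RingHom.comp_apply, coeff_C_mul',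
      Algebra.smul_def]; rfl

theorem cf_apply {B : Type} [CommRing B] [Algebra ℂ B] (pos : P → LS B) (K : LS B) (j : ℤ)
    (f : AA P) :
    cf pos K j f = (eval₂Hom (HahnSeries.C.comp (algebraMap ℂ B)) pos f * K).coeff j := rfl

/-- one point at the large variable -/
def posE (a : P) (Z : Finset P) (b : P) : LS (AA P) :=
  if b = a then lv _ else if b ∈ Z then HahnSeries.C (X b) else 0

/-- a cluster translated by the large variable -/
def posS (T Z : Finset P) (b : P) : LS (AA P ⊗[ℂ] AA P) :=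
  if b ∈ T then lv _ + HahnSeries.C (X b ⊗ₜ 1) else if b ∈ Z then HahnSeries.C (1 ⊗ₜ X b) else 0

namespace VD

variable (V : VD P)

/-- pair kernel -/
def kap {B : Type} [CommRing B] (a b : P) (u : B) : B := u ^ V.pp a b * Ring.inverse u ^ V.rr a b

/-- cross kernel of two sets of points -/
def KK {B : Type} [CommRing B] (T Z : Finset P) (pos : P → B) : B :=
  ∏ a ∈ T, ∏ b ∈ Z, V.kap a b (pos a - pos b) * V.kap b a (pos b - pos a)

/-- kernel of a set of points -/
def KS {B : Type} [CommRing B] (S : Finset P) (pos : P → B) : B :=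
  ∏ a ∈ S, ∏ b ∈ S.erase a, V.kap a b (pos a - pos b)

theorem map_kap {B B' : Type} [CommRing B] [CommRing B'] (ψ : B →+* B') {a b : P} {u : B}
    (h : V.rr a b ≠ 0 → IsUnit u) : ψ (V.kap a b u) = V.kap a b (ψ u) := by
  by_cases h0 : V.rr a b = 0
  · simp [kap, h0]
  · simp [kap, map_inverse ψ (h h0)]

theorem map_KK {B B' : Type} [CommRing B] [CommRing B'] (ψ : B →+* B') {T Z : Finset P}
    {pos : P → B} (h : ∀ a ∈ T, ∀ b ∈ Z, IsUnit (pos a - pos b)) :
    ψ (V.KK T Z pos) = V.KK T Z (fun b => ψ (pos b)) := by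
  simp only [KK, map_prod, map_mul]
  refine prod_congr rfl fun a ha => prod_congr rfl fun b hb => ?_
  rw [V.map_kap ψ fun _ => h a ha b hb, V.map_kap ψ fun _ => by simpa using (h a ha b hb).neg,
    map_sub, map_sub]

theorem KK_congr {B : Type} [CommRing B] {T Z : Finset P} {pos pos' : P → B}
    (h1 : ∀ a ∈ T, pos a = pos' a) (h2 : ∀ a ∈ Z, pos a = pos' a) :
    V.KK T Z pos = V.KK T Z pos' :=
  prod_congr rfl fun a ha => prod_congr rfl fun b hb => by rw [h1 a ha, h2 b hb]

theorem KK_comm {B : Type} [CommRing B] (T Z : Finset P) (pos : P → B) :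
    V.KK T Z pos = V.KK Z T pos := by
  unfold KK; rw [prod_comm]; simp only [mul_comm]

theorem KK_union {B : Type} [CommRing B] (T : Finset P) {Z Z' : Finset P} (h : Disjoint Z Z')
    (pos : P → B) : V.KK T (Z ∪ Z') pos = V.KK T Z pos * V.KK T Z' pos := by
  unfold KK; rw [← prod_mul_distrib]
  exact prod_congr rfl fun a _ => prod_union h

theorem KS_insert {B : Type} [CommRing B] {a : P} {S : Finset P} (h : a ∉ S) (pos : P → B) :
    V.KS (insert a S) pos = V.KS S pos * V.KK {a} S pos := by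
  unfold KS KK
  have : ∀ x ∈ S, ∏ b ∈ (insert a S).erase x, V.kap x b (pos x - pos b) =
      V.kap x a (pos x - pos a) * ∏ b ∈ S.erase x, V.kap x b (pos x - pos b) := by
    intro x hx
    rw [erase_insert_of_ne (fun e : a = x => h (e ▸ hx)), prod_insert fun e => h (mem_of_mem_erase e)]
  rw [prod_insert h, erase_insert h, prod_singleton, prod_mul_distrib, prod_congr rfl this,
    prod_mul_distrib]
  ring

/-- remove the point `a` -/
def eP (a : P) (Z : Finset P) (j : ℤ) : AA P →ₗ[ℂ] AA P :=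
  cf (posE a Z) (V.KK {a} Z (posE a Z)) (j + 1)

/-- the mode `e_{a, j}` -/
def eM (a : P) (j : ℤ) : Module.End ℂ (MM P) :=
  LinearMap.pi fun Z => if a ∈ Z then 0 else (V.eP a Z j).comp (LinearMap.proj (insert a Z))

/-- remove the cluster `T` -/
def DP (T Z : Finset P) (j : ℤ) : AA P →ₗ[ℂ] AA P ⊗[ℂ] AA P :=
  cf (posS T Z) (V.KK T Z (posS T Z)) (j + 1)

/-- the modes of the state `α` -/
def sig (j : ℤ) (α : MM P →ₗ[ℂ] ℂ) : Module.End ℂ (MM P) :=
  LinearMap.pi fun Z => ∑ T ∈ univ.filter fun T => Disjoint T Z,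
    (TensorProduct.lid ℂ (AA P)).toLinearMap ∘ₗ (cpt α T).rTensor (AA P) ∘ₗ V.DP T Z j ∘ₗ
      LinearMap.proj (T ∪ Z)

/-- the product of functionals with values in a commutative algebra -/
def star {T : Type} [CommRing T] [Algebra ℂ T] (α ψ : MM P →ₗ[ℂ] T) : MM P →ₗ[ℂ] T :=
  ∑ S : Finset P, ∑ U ∈ S.powerset, LinearMap.mul' ℂ T ∘ₗ
    TensorProduct.map (cpt α U) (cpt ψ (S \ U)) ∘ₗ V.DP U (S \ U) (-1) ∘ₗ LinearMap.proj S

theorem eM_apply (a : P) (j : ℤ) (F : MM P) (Z : Finset P) :
    V.eM a j F Z = if a ∈ Z then 0 else V.eP a Z j (F (insert a Z)) := by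
  simp only [eM, LinearMap.pi_apply]; split_ifs <;> rfl

theorem sig_apply (j : ℤ) (α : MM P →ₗ[ℂ] ℂ) (F : MM P) (Z : Finset P) :
    V.sig j α F Z = ∑ T ∈ univ.filter fun T => Disjoint T Z,
      TensorProduct.lid ℂ (AA P) ((cpt α T).rTensor (AA P) (V.DP T Z j (F (T ∪ Z)))) := by
  simp only [sig, LinearMap.pi_apply, LinearMap.sum_apply]; rfl

theorem star_apply {T : Type} [CommRing T] [Algebra ℂ T] (α ψ : MM P →ₗ[ℂ] T) (F : MM P) :
    V.star α ψ F = ∑ S : Finset P, ∑ U ∈ S.powerset, LinearMap.mul' ℂ T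
      (TensorProduct.map (cpt α U) (cpt ψ (S \ U)) (V.DP U (S \ U) (-1) (F S))) := by
  simp only [star, LinearMap.sum_apply]; rfl

/-- iterated commutators computing `(z + u) ^ i u ^ j z ^ m` -/
def OO (a : P) (α : MM P →ₗ[ℂ] ℂ) : ℕ → ℤ → ℤ → Module.End ℂ (MM P)
  | 0, i, m => V.sig m α * V.eM a i - V.eM a i * V.sig m α
  | j + 1, i, m => OO a α j (i + 1) m - OO a α j i (m + 1)

/-- a word in the nonnegative modes; the head is applied first -/
def word : List (P × ℕ) → Module.End ℂ (MM P)
  | [] => 1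
  | x :: L => word L * V.eM x.1 x.2

/-- the radical of `phi S₀` for words in the points of `X₀` -/
def II (X₀ : Set P) (S₀ : Finset P) : Submodule ℂ (MM P) where
  carrier := {F | ∀ L : List (P × ℕ), (∀ x ∈ L, x.1 ∈ X₀) → phi S₀ (V.word L F) = 0}
  add_mem' := fun {F G} hF hG L hL => by rw [map_add, map_add, hF L hL, hG L hL, add_zero]
  zero_mem' := fun L _ => by simp
  smul_mem' := fun c F hF L hL => by rw [map_smul, map_smul, hF L hL, smul_zero]

end VD

end Pool.Agent.Work.MP_849ab0_ag
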