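import Pool.Agent.Work.MP_849ab0_ag.WLink
import Pool.Agent.Work.MP_849ab0_ag.Three

/-! Vacuum and translation properties of the modes. -/

noncomputable section

set_option linter.unusedSectionVars false

namespace Pool.Agent.Work.MP_849ab0_ag.W

variable {𝕜 : Type} [CommRing 𝕜]

open MvPolynomial Finset

open scoped TensorProduct

namespace VD

variable {P : Type} [Fintype P] [DecidableEq P] (V : VD 𝕜 P)

omit V in
theorem VOps_lift {A R : Type} [CommRing A] [Algebra 𝕜 A] [CommRing R] (f g : A →+* R)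
    (h : ∀ c : 𝕜, g (algebraMap 𝕜 A c) = f (algebraMap 𝕜 A c)) :
    ∃ J : A ⊗[𝕜] A →+* R, ∀ p q, J (p ⊗ₜ q) = f p * g q := by
  let _ := (f.comp (algebraMap 𝕜 A)).toAlgebra
  exact ⟨(Algebra.TensorProduct.lift (⟨f, fun _ => rfl⟩ : A →ₐ[𝕜] R) (⟨g, h⟩ : A →ₐ[𝕜] R)
    fun _ _ => Commute.all _ _).toRingHom, fun p q => Algebra.TensorProduct.lift_tmul ..⟩

omit V in
theorem VOps_sum {T : Type} [AddCommMonoid T] [Module 𝕜 T] (α : MM 𝕜 P →ₗ[𝕜] T) (F : MM 𝕜 P) :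
    α F = ∑ S, cpt α S (F S) := by
  conv_lhs => rw [← univ_sum_single F, map_sum]
  rfl

omit V in
theorem VOps_ev {B B' : Type} [CommRing B] [Algebra 𝕜 B] [CommRing B'] [Algebra 𝕜 B']
    (ψ : B →+* B') (h : ∀ c : 𝕜, ψ (algebraMap 𝕜 B c) = algebraMap 𝕜 B' c) (pos : P → LS B)
    (f : AA 𝕜 P) : hmap ℤ ψ (eval₂Hom (HahnSeries.C.comp (algebraMap 𝕜 B)) pos f) =
      eval₂Hom (HahnSeries.C.comp (algebraMap 𝕜 B')) (fun b => hmap ℤ ψ (pos b)) f := by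
  rw [map_eval₂Hom]
  congr 2
  ext1 c
  simp only [RingHom.comp_apply, hmap_C, h]

omit V in
theorem VOps_diff {T Z : Finset P} (h : Disjoint T Z) {a b : P} (ha : a ∈ T) (hb : b ∈ Z) :
    posS 𝕜 T Z a - posS 𝕜 T Z b = lv (AA 𝕜 P ⊗[𝕜] AA 𝕜 P) + HahnSeries.C (X a ⊗ₜ 1 - 1 ⊗ₜ X b) := by
  rw [posS, posS, if_pos ha, if_neg (disjoint_right.1 h hb), if_pos hb, map_sub, add_sub_assoc]

variable (𝕜) in
/-- a cluster translated by the large variable, one tensor factor -/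
def VOps_pos (T : Finset P) (b : P) : LS (AA 𝕜 P) :=
  if b ∈ T then lv (AA 𝕜 P) + HahnSeries.C (X b : AA 𝕜 P) else 0

omit V in
theorem VOps_inl (T : Finset P) (f : AA 𝕜 P) :
    eval₂Hom (HahnSeries.C.comp (algebraMap 𝕜 _)) (posS 𝕜 T ∅) f =
      hmap ℤ (Algebra.TensorProduct.includeLeftRingHom (R := 𝕜) (B := AA 𝕜 P))
        (eval₂Hom (HahnSeries.C.comp (algebraMap 𝕜 _)) (VOps_pos 𝕜 T) f) := by
  rw [VOps_ev (𝕜 := 𝕜) (Algebra.TensorProduct.includeLeftRingHom (R := 𝕜) (A := AA 𝕜 P) (B := AA 𝕜 P))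
    fun _ => rfl]
  congr 2
  funext b
  simp only [posS, VOps_pos, notMem_empty, if_false]
  split_ifs <;> simp

theorem VOps_phi (j : ℤ) (α : MM 𝕜 P →ₗ[𝕜] 𝕜) (F : MM 𝕜 P) :
    phi 𝕜 ∅ (V.sig j α F) = ∑ T, cpt α T (cf (VOps_pos 𝕜 T) 1 (j + 1) (F T)) := by
  change lcoeff 𝕜 0 (V.sig j α F ∅) = _
  rw [sig_apply, map_sum, filter_true_of_mem fun T _ => disjoint_empty_right T]
  refine sum_congr rfl fun T _ => ?_
  rw [DP, cf_apply, cf_apply, VOps_inl, union_empty]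
  simp [KK]

omit V in
theorem VOps_cf (T : Finset P) (f : AA 𝕜 P) : (∀ i, 0 < i → cf (VOps_pos 𝕜 T) 1 i f = 0) ∧
    cf (VOps_pos 𝕜 T) 1 0 f = aeval (fun b => if b ∈ T then X b else 0) f := by
  induction f using MvPolynomial.induction_on with
  | C c => exact ⟨fun i hi => by simp [cf_apply, hi.ne'], by simp [cf_apply]⟩
  | add f g hf hg =>
    exact ⟨fun i hi => by rw [map_add, hf.1 i hi, hg.1 i hi, add_zero],
      by rw [map_add, map_add, hf.2, hg.2]⟩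
  | mul_X f b hf =>
    have e : ∀ i, cf (VOps_pos 𝕜 T) 1 i (f * X b) = if b ∈ T then cf (VOps_pos 𝕜 T) 1 (i + 1) f +
        X b * cf (VOps_pos 𝕜 T) 1 i f else 0 := fun i => by
      simp only [cf_apply, map_mul, eval₂Hom_X', mul_one, VOps_pos]
      split_ifs
      · rw [mul_comm, add_mul, HahnSeries.coeff_add, lv, coeff_single_mul', coeff_C_mul', one_mul,
          sub_neg_eq_add]
      · simp
    refine ⟨fun i hi => by rw [e, hf.1 i hi, hf.1 _ (by omega)]; simp, ?_⟩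
    rw [e, hf.1 _ (by omega), hf.2, map_mul, aeval_X]
    split_ifs
    · rw [zero_add, mul_comm]
    · rw [mul_zero]

omit V in
theorem WOps_diff {T Z : Finset P} (h : Disjoint T Z) {a b : P} (ha : a ∈ T) (hb : b ∈ Z) (c : 𝕜) :
    posS 𝕜 T Z a - posS 𝕜 T Z b + HahnSeries.C.comp (algebraMap 𝕜 _) c =
      lv (AA 𝕜 P ⊗[𝕜] AA 𝕜 P) + HahnSeries.C (X a ⊗ₜ 1 - 1 ⊗ₜ (X b - algebraMap 𝕜 _ c)) := by
  rw [VOps_diff h ha hb, RingHom.comp_apply, add_assoc, ← map_add,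
    Algebra.TensorProduct.algebraMap_apply', TensorProduct.tmul_sub, sub_add]

theorem VOps_taylor {T Z : Finset P} (h : Disjoint T Z) {j : ℤ} (hj : j < 0) (f : AA 𝕜 P) :
    (cf (VOps_pos 𝕜 T) 1 (j + 1)).rTensor (AA 𝕜 P) (V.DP T Z (-1) f) = V.DP T Z j f := by
  obtain ⟨J, hJ⟩ := VOps_lift (A := AA 𝕜 P) (R := LS (AA 𝕜 P ⊗[𝕜] AA 𝕜 P))
    (eval₂Hom (HahnSeries.C.comp (algebraMap 𝕜 _)) (posS 𝕜 T ∅))
    (HahnSeries.C.comp (Algebra.TensorProduct.includeRight (R := 𝕜) (A := AA 𝕜 P)).toRingHom)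
    fun c => by
      rw [algebraMap_eq, eval₂Hom_C]
      exact congrArg HahnSeries.C (Algebra.TensorProduct.includeRight.commutes c)
  have h1 : ∀ t, (cf (VOps_pos 𝕜 T) 1 (j + 1)).rTensor (AA 𝕜 P) t = (J t).coeff (j + 1) := fun t => by
    induction t using TensorProduct.induction_on with
    | zero => simp
    | add s t hs ht => rw [map_add, map_add, hs, ht, HahnSeries.coeff_add]
    | tmul p q =>
      rw [hJ, mul_comm, RingHom.comp_apply, coeff_C_mul', VOps_inl]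
      simp [cf_apply]
  let R := (R2 (AA 𝕜 P ⊗[𝕜] AA 𝕜 P)).comap ((hmap ℤ J).prod (RingHom.id _))
  have hR : ∀ x, x ∈ R ↔ (hmap ℤ J x, x) ∈ R2 (AA 𝕜 P ⊗[𝕜] AA 𝕜 P) := fun _ => Iff.rfl
  have e1 : ∀ q, J (1 ⊗ₜ q) = HahnSeries.C (1 ⊗ₜ q) := fun q => by
    rw [hJ, map_one, one_mul]; rfl
  have e2 : ∀ a ∈ T, J (X a ⊗ₜ 1) = lv (AA 𝕜 P ⊗[𝕜] AA 𝕜 P) + HahnSeries.C (X a ⊗ₜ 1) :=
    fun a ha => by rw [hJ, map_one, mul_one, eval₂Hom_X', posS, if_pos ha]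
  have c1 : ∀ c, (cc2 _ c, HahnSeries.C c) ∈ R2 (AA 𝕜 P ⊗[𝕜] AA 𝕜 P) := fun c =>
    Subring.subset_closure (Or.inl (Or.inr ⟨c, rfl⟩))
  have c2 : ∀ q, HahnSeries.C (1 ⊗ₜ q) ∈ R := fun q => by
    rw [hR, hmap_C, e1]
    exact c1 _
  have c3 : ∀ b, posS 𝕜 T Z b ∈ R := fun b => by
    rw [posS]
    split_ifs with h1 h2
    · rw [hR, map_add, hmap_lv, hmap_C, e2 b h1, map_add, ← add_assoc, add_comm (lv (LS _))]
      exact add_mem (Subring.subset_closure (Or.inl (Or.inl rfl)) : _ ∈ R2 _) (c1 (X b ⊗ₜ 1))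
    · exact c2 _
    · exact zero_mem _
  have c4 : ∀ a ∈ T, ∀ b ∈ Z, ∀ c, Ring.inverse (posS 𝕜 T Z a - posS 𝕜 T Z b +
      HahnSeries.C.comp (algebraMap 𝕜 _) c) ∈ R := fun a ha b hb c => by
    rw [WOps_diff h ha hb, hR, map_inverse _ (isUnit_lv_add' _), map_add, hmap_lv, hmap_C,
      map_sub J, e2 a ha, e1, add_sub_assoc, ← map_sub, map_add, ← add_assoc,
      add_comm (lv (LS _))]
    exact Subring.subset_closure (Or.inr ⟨_, rfl⟩)
  rw [h1]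
  refine taylor (G := (hmap ℤ J _, _)) ((hR _).1 (mul_mem (eval₂_mem (fun i _ => ?_) c3)
    (V.KK_mem _ (fun a _ b _ => sub_mem (c3 a) (c3 b)) c4))) (by omega)
  rw [RingHom.comp_apply, Algebra.TensorProduct.algebraMap_apply']
  exact c2 _

theorem sig_add (j : ℤ) (α β : MM 𝕜 P →ₗ[𝕜] 𝕜) : V.sig j (α + β) = V.sig j α + V.sig j β := by
  refine LinearMap.ext fun F => ?_
  funext Z
  simp only [LinearMap.add_apply, Pi.add_apply, sig_apply, cpt, LinearMap.add_comp,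
    LinearMap.rTensor_add, map_add, sum_add_distrib]

theorem sig_smul (j : ℤ) (c : 𝕜) (α : MM 𝕜 P →ₗ[𝕜] 𝕜) : V.sig j (c • α) = c • V.sig j α := by
  refine LinearMap.ext fun F => ?_
  funext Z
  simp only [LinearMap.smul_apply, Pi.smul_apply, sig_apply, cpt, LinearMap.smul_comp,
    LinearMap.rTensor_smul, map_smul, smul_sum]

/-- `sig (-1)` as a linear map -/
def sigL : (MM 𝕜 P →ₗ[𝕜] 𝕜) →ₗ[𝕜] Module.End 𝕜 (MM 𝕜 P) where
  toFun := V.sig (-1)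
  map_add' := V.sig_add (-1)
  map_smul' := V.sig_smul (-1)

theorem sig_phi (a : P) (j : ℤ) : V.sig j (phi 𝕜 {a}) = V.eM a j := by
  refine LinearMap.ext fun F => ?_
  funext Z
  have h0 : ∀ T, T ≠ {a} → cpt (phi 𝕜 {a}) T = 0 := fun T h => LinearMap.ext fun p => by
    simp [cpt, phi, h.symm]
  rw [sig_apply, eM_apply]
  split_ifs with h
  · exact sum_eq_zero fun T hT => by
      rw [h0 T fun e => disjoint_singleton_left.1 (e ▸ (mem_filter.1 hT).2) h]; simp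
  have hd := disjoint_singleton_left.2 h
  rw [sum_eq_single_of_mem {a} (mem_filter.2 ⟨mem_univ _, hd⟩) fun T _ hT => by rw [h0 T hT]; simp]
  obtain ⟨d, hd'⟩ := VOps_lift (𝕜 := 𝕜) (A := AA 𝕜 P) (C.comp constantCoeff) (RingHom.id _)
    fun c => by simp
  have h1 : ∀ t, TensorProduct.lid 𝕜 (AA 𝕜 P) ((cpt (phi 𝕜 {a}) {a}).rTensor (AA 𝕜 P) t) = d t :=
    fun t => by
      induction t using TensorProduct.induction_on with
      | zero => simp
      | add s t hs ht => simp only [map_add, hs, ht]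
      | tmul p q => simp [hd', cpt, phi, smul_eq_C_mul, constantCoeff_eq]
  have h2 : (fun b => hmap ℤ d (posS 𝕜 {a} Z b)) = posE 𝕜 a Z := funext fun b => by
    simp only [posS, posE, mem_singleton]
    split_ifs <;> simp [hd']
  have h3 : ∀ c : 𝕜, d (algebraMap 𝕜 _ c) = algebraMap 𝕜 _ c := fun c => by
    simp [Algebra.TensorProduct.algebraMap_apply, hd']
  have h4 : (hmap ℤ d).comp (HahnSeries.C.comp (algebraMap 𝕜 _)) =
      HahnSeries.C.comp (algebraMap 𝕜 _) := RingHom.ext fun c => by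
    rw [RingHom.comp_apply, RingHom.comp_apply, hmap_C, h3, RingHom.comp_apply]
  rw [h1, DP, eP, cf_apply, cf_apply, ← hmap_coeff, map_mul,
    V.map_KK _ _ fun x hx y hy c => WOps_diff hd hx hy c ▸ isUnit_lv_add' _,
    VOps_ev d h3, h2, h4, insert_eq]

theorem comp_sig (α ψ : MM 𝕜 P →ₗ[𝕜] 𝕜) : ψ ∘ₗ V.sig (-1) α = V.star α ψ := by
  refine LinearMap.ext fun F => ?_
  have h1 : ∀ T Z t, cpt ψ Z (TensorProduct.lid 𝕜 (AA 𝕜 P) ((cpt α T).rTensor (AA 𝕜 P) t)) =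
      LinearMap.mul' 𝕜 𝕜 (TensorProduct.map (cpt α T) (cpt ψ Z) t) := fun T Z t => by
    induction t using TensorProduct.induction_on with
    | zero => simp
    | add s t hs ht => simp only [map_add, hs, ht]
    | tmul p q => simp
  rw [LinearMap.comp_apply, VOps_sum ψ, star_apply]
  simp only [sig_apply, map_sum, h1]
  rw [sum_sigma', sum_sigma']
  refine sum_nbij' (fun x => ⟨x.2 ∪ x.1, x.2⟩) (fun x => ⟨x.1 \ x.2, x.2⟩)
    (fun x _ => mem_sigma.2 ⟨mem_univ _, mem_powerset.2 subset_union_left⟩)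
    (by simp [disjoint_sdiff]) ?_ ?_ ?_
  · rintro ⟨Z, T⟩ h
    rw [union_sdiff_cancel_left (by simpa using h)]
  · rintro ⟨S, U⟩ h
    rw [union_sdiff_of_subset (by simpa using h)]
  · rintro ⟨Z, T⟩ h
    rw [union_sdiff_cancel_left (by simpa using h)]

theorem phi_sig (α : MM 𝕜 P →ₗ[𝕜] 𝕜) : phi 𝕜 ∅ ∘ₗ V.sig (-1) α = α ∘ₗ JK 𝕜 := by
  refine LinearMap.ext fun F => ?_
  rw [LinearMap.comp_apply, VOps_phi, LinearMap.comp_apply, VOps_sum α]
  exact sum_congr rfl fun T _ => congrArg _ (VOps_cf T (F T)).2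

theorem sig_JK (j : ℤ) (α : MM 𝕜 P →ₗ[𝕜] 𝕜) : V.sig j α * JK 𝕜 = V.sig j α := by
  refine LinearMap.ext fun F => ?_
  funext Z
  rw [Module.End.mul_apply, sig_apply, sig_apply]
  refine sum_congr rfl fun T _ => ?_
  have : (eval₂Hom (HahnSeries.C.comp (algebraMap 𝕜 _)) (posS 𝕜 T Z)).comp (aeval fun b =>
      if b ∈ T ∪ Z then X b else 0 : AA 𝕜 P →ₐ[𝕜] AA 𝕜 P).toRingHom =
      eval₂Hom (HahnSeries.C.comp (algebraMap 𝕜 _)) (posS 𝕜 T Z) :=
    ringHom_ext (fun c => by simp) fun b => by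
      by_cases h : b ∈ T ∪ Z
      · simp [h, -mem_union]
      · simp [posS, (not_or.1 (mem_union.not.1 h)).1, (not_or.1 (mem_union.not.1 h)).2]
  rw [DP, cf_apply, cf_apply, ← RingHom.congr_fun this (F _)]
  rfl

theorem phi_sig_nonneg {j : ℤ} (hj : 0 ≤ j) (α : MM 𝕜 P →ₗ[𝕜] 𝕜) : phi 𝕜 ∅ ∘ₗ V.sig j α = 0 := by
  refine LinearMap.ext fun F => ?_
  rw [LinearMap.comp_apply, VOps_phi]
  exact sum_eq_zero fun T _ => by rw [(VOps_cf T (F T)).1 _ (by omega), map_zero]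

theorem sig_phi_sig {j : ℤ} (hj : j < 0) (α : MM 𝕜 P →ₗ[𝕜] 𝕜) :
    V.sig (-1) (phi 𝕜 ∅ ∘ₗ V.sig j α) = V.sig j α := by
  refine LinearMap.ext fun F => ?_
  funext Z
  have h1 : ∀ T, cpt (phi 𝕜 ∅ ∘ₗ V.sig j α) T = cpt α T ∘ₗ cf (VOps_pos 𝕜 T) 1 (j + 1) := fun T =>
    LinearMap.ext fun p => (V.VOps_phi j α (Pi.single T p)).trans <| by
      rw [sum_eq_single T (fun S _ h => by simp [h]) (by simp), Pi.single_eq_same]
      rfl
  rw [sig_apply, sig_apply]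
  refine sum_congr rfl fun T hT => ?_
  rw [h1, LinearMap.rTensor_comp_apply, V.VOps_taylor (mem_filter.1 hT).2 hj]

/-- `sig j α F` depends on finitely many values of `α` -/
theorem sig_finite (j : ℤ) (F : MM 𝕜 P) : ∃ s : Finset (MM 𝕜 P), ∀ α β : MM 𝕜 P →ₗ[𝕜] 𝕜,
    (∀ G ∈ s, α G = β G) → V.sig j α F = V.sig j β F := by
  classical
  choose s hs using fun T Z => TensorProduct.exists_finset (V.DP T Z j (F (T ∪ Z)))
  refine ⟨univ.biUnion fun x : Finset P × Finset P =>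
    (s x.1 x.2).image fun i => Pi.single x.1 i.1, fun α β h => funext fun Z => ?_⟩
  rw [sig_apply, sig_apply]
  refine sum_congr rfl fun T _ => ?_
  rw [hs, map_sum, map_sum (LinearMap.rTensor _ _)]
  refine congrArg _ (sum_congr rfl fun i hi => ?_)
  rw [LinearMap.rTensor_tmul, LinearMap.rTensor_tmul]
  exact congrArg (· ⊗ₜ _) (h _ (mem_biUnion.2 ⟨(T, Z), mem_univ _, mem_image_of_mem _ hi⟩))

theorem sig_label (j : ℤ) (α : MM 𝕜 P →ₗ[𝕜] 𝕜) (a : P) (F : MM 𝕜 P) (h : ∀ S, a ∈ S → F S = 0)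
    (S : Finset P) (hS : a ∈ S) : V.sig j α F S = 0 := by
  rw [sig_apply]
  exact sum_eq_zero fun T _ => by simp [h _ (mem_union_right T hS)]

theorem star_val {T : Type} [CommRing T] [Algebra 𝕜 T] {Q₁ Q₂ Q₃ : Submodule 𝕜 T}
    (h : ∀ x ∈ Q₁, ∀ y ∈ Q₂, x * y ∈ Q₃) {α ψ : MM 𝕜 P →ₗ[𝕜] T} (hα : ∀ F, α F ∈ Q₁)
    (hψ : ∀ F, ψ F ∈ Q₂) (F : MM 𝕜 P) : V.star α ψ F ∈ Q₃ := by
  rw [star_apply]
  refine sum_mem fun S _ => sum_mem fun U _ => ?_
  induction V.DP U (S \ U) (-1) (F S) using TensorProduct.induction_on with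
  | zero => simp
  | add s t hs ht => simpa only [map_add] using add_mem hs ht
  | tmul p q => exact h _ (hα _) _ (hψ _)

/-- a family of subspaces and linear maps, multiplicative on disjoint labels -/
structure Mult (𝕜 P T T' : Type) [CommRing 𝕜] [DecidableEq P] [CommRing T] [Algebra 𝕜 T] [CommRing T']
    [Algebra 𝕜 T'] where
  Q : Finset P → Submodule 𝕜 T
  L : Finset P → T →ₗ[𝕜] T'
  mul_mem : ∀ S U, Disjoint S U → ∀ x ∈ Q S, ∀ y ∈ Q U, x * y ∈ Q (S ∪ U)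
  map_mul : ∀ S U, Disjoint S U → ∀ x ∈ Q S, ∀ y ∈ Q U, L (S ∪ U) (x * y) = L S x * L U y

/-- `α'` is obtained from `α` label by label -/
def Mult.Rl {T T' : Type} [CommRing T] [Algebra 𝕜 T] [CommRing T'] [Algebra 𝕜 T']
    (N : Mult 𝕜 P T T') (α : MM 𝕜 P →ₗ[𝕜] T) (α' : MM 𝕜 P →ₗ[𝕜] T') : Prop :=
  ∀ S f, cpt α S f ∈ N.Q S ∧ cpt α' S f = N.L S (cpt α S f)

theorem VOps_star {T : Type} [CommRing T] [Algebra 𝕜 T] (α ψ : MM 𝕜 P →ₗ[𝕜] T) (S : Finset P)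
    (f : AA 𝕜 P) : cpt (V.star α ψ) S f = ∑ U ∈ S.powerset, LinearMap.mul' 𝕜 T
      (TensorProduct.map (cpt α U) (cpt ψ (S \ U)) (V.DP U (S \ U) (-1) f)) :=
  (V.star_apply α ψ (Pi.single S f)).trans <| by
    rw [sum_eq_single S (fun S' _ h => by simp [h]) (by simp), Pi.single_eq_same]

theorem star_rl {T T' : Type} [CommRing T] [Algebra 𝕜 T] [CommRing T'] [Algebra 𝕜 T']
    (N : Mult 𝕜 P T T') {α ψ : MM 𝕜 P →ₗ[𝕜] T} {α' ψ' : MM 𝕜 P →ₗ[𝕜] T'} (hα : N.Rl α α')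
    (hψ : N.Rl ψ ψ') : N.Rl (V.star α ψ) (V.star α' ψ') := fun S f => by
  have key : ∀ U ∈ S.powerset, ∀ t,
      LinearMap.mul' 𝕜 T (TensorProduct.map (cpt α U) (cpt ψ (S \ U)) t) ∈ N.Q S ∧
      LinearMap.mul' 𝕜 T' (TensorProduct.map (cpt α' U) (cpt ψ' (S \ U)) t) =
        N.L S (LinearMap.mul' 𝕜 T (TensorProduct.map (cpt α U) (cpt ψ (S \ U)) t)) :=
    fun U hU t => by
      induction t using TensorProduct.induction_on with
      | zero => simp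
      | add s t hs ht => simpa only [map_add, hs.2, ht.2, and_true] using add_mem hs.1 ht.1
      | tmul p q =>
        have h1 := N.mul_mem U _ disjoint_sdiff _ (hα U p).1 _ (hψ (S \ U) q).1
        have h2 := N.map_mul U _ disjoint_sdiff _ (hα U p).1 _ (hψ (S \ U) q).1
        rw [union_sdiff_of_subset (mem_powerset.1 hU)] at h1 h2
        simp only [TensorProduct.map_tmul, LinearMap.mul'_apply, (hα U p).2, (hψ _ q).2]
        exact ⟨h1, h2.symm⟩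
  rw [VOps_star, VOps_star, map_sum]
  exact ⟨sum_mem fun U hU => (key U hU _).1, sum_congr rfl fun U hU => (key U hU _).2⟩

end VD

end Pool.Agent.Work.MP_849ab0_ag.W
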