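import Pool.Agent.Work.MP_849ab0_ag.Kill2
import Pool.Agent.Work.MP_849ab0_ag.Grade
import Pool.Agent.Work.MP_849ab0_ag.JI
import Pool.Agent.Work.MP_849ab0_ag.Dec2

-- merged part: Pool.Agent.Work.MP_849ab0_ag.ZA
section
/-! Integrating out points which only have poles at finitely many distinct roots. -/

noncomputable section

set_option linter.unusedSectionVars false

namespace Pool.Agent.Work.MP_849ab0_ag

open MvPolynomial Finset

section Ring

variable {n : ℕ} {R : Type} [CommRing R]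

/-- the structure map -/
abbrev a2 : Pol n R →+* O2 n R := algebraMap (Pol n R) (O2 n R)

/-- a coefficient of the expansion -/
def cE (π : Equiv.Perm (Fin n)) (γ : Fin n → ℤ) : O2 n R →+ R where
  toFun z := (exF π z).coeff (toLex (γ ∘ π.symm))
  map_zero' := by rw [map_zero, HahnSeries.coeff_zero]
  map_add' x y := by rw [map_add, HahnSeries.coeff_add]

theorem cE_apply (π : Equiv.Perm (Fin n)) (γ : Fin n → ℤ) (z : O2 n R) :
    cE π γ z = (exF π z).coeff (toLex (γ ∘ π.symm)) := rfl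

variable (R) in
/-- functions not involving the variable `a` -/
def NZ (a : Fin n) : Subring (O2 n R) := ⨅ π, (ZZ R (π a)).comap (exF π)

variable (R) in
/-- functions regular in the variable `a` in the order `π` -/
def NP (π : Equiv.Perm (Fin n)) (a : Fin n) : Subring (O2 n R) := (PP R (π a)).comap (exF π)

theorem mem_NZ {a : Fin n} {z : O2 n R} : z ∈ NZ R a ↔ ∀ π, exF π z ∈ ZZ R (π a) :=
  Subring.mem_iInf

theorem NZ_le (π : Equiv.Perm (Fin n)) (a : Fin n) : NZ R a ≤ NP R π a :=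
  fun _ h => ZZ_le _ (mem_NZ.1 h π)

theorem a2_NP (π : Equiv.Perm (Fin n)) (a : Fin n) (f : Pol n R) : a2 f ∈ NP R π a := by
  show exF π _ ∈ PP R (π a)
  rw [exF_al]
  exact expand_mem_PP _ _ _ _

theorem ZA_X {a b : Fin n} (h : b ≠ a) : a2 (X b : Pol n R) ∈ NZ R a := mem_NZ.2 fun π => by
  rw [exF_al, expand_X]
  refine single_mem_SR ?_ _
  show -(Pi.single (π b) 1 : Fin n → ℤ) (π a) = 0
  rw [Pi.single_eq_of_ne (π.injective.ne h.symm), neg_zero]

theorem ZA_C (a : Fin n) (c : R) : a2 (C c : Pol n R) ∈ NZ R a := mem_NZ.2 fun π => by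
  rw [exF_al, expand_C]
  exact C_mem_SR _ _

theorem a2_NZ {a : Fin n} {f : Pol n R} (hf : f ∈ supported R ({a}ᶜ : Set (Fin n))) :
    a2 f ∈ NZ R a := by
  rw [supported_eq_adjoin_X] at hf
  induction hf using Algebra.adjoin_induction with
  | mem x hx =>
    obtain ⟨b, hb, rfl⟩ := hx
    exact ZA_X hb
  | algebraMap c => exact ZA_C a c
  | add x y _ _ h1 h2 => rw [map_add]; exact add_mem h1 h2
  | mul x y _ _ h1 h2 => rw [map_mul]; exact mul_mem h1 h2

theorem inv_NZ {a : Fin n} {o o' : Option (Fin n)} (h : o ≠ o') (h1 : o ≠ some a)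
    (h2 : o' ≠ some a) (c : R) : Ring.inverse (a2 (xv o - xv o' + C c)) ∈ NZ R a := by
  refine mem_NZ.2 fun π => ?_
  have key : ∀ (b : Fin n) (o : Option (Fin n)) (r : R), outer π (some b) o → some b ≠ some a →
      o ≠ some a → Ring.inverse (expand (RingHom.id R) π (X b - xv o + C r)) ∈ ZZ R (π a) :=
    fun b o r ho hb h3 => by
      have e : (Pi.single (π b) 1 : Fin n → ℤ) (π a) = 0 :=
        Pi.single_eq_of_ne (π.injective.ne fun k => hb (congrArg some k.symm)) _
      refine inv_mem_SR _ π ho r _ e fun b' hb' => ?_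
      show (Pi.single (π b) 1 : Fin n → ℤ) (π a) - (Pi.single (π b') 1 : Fin n → ℤ) (π a) = 0
      rw [e, Pi.single_eq_of_ne (π.injective.ne fun k => h3 (hb'.trans (congrArg some k.symm))),
        sub_zero]
  rw [map_inverse _ (isUnit_O2 h c), exF_al]
  rcases FP_total π h with k | k <;> obtain ⟨b, rfl⟩ := FP_some k
  · exact key b o' c k h1 h2
  · rw [FP_neg, map_neg, inverse_neg']
    exact neg_mem (key b o (-c) k h2 h1)

theorem cE_NP {π : Equiv.Perm (Fin n)} {a : Fin n} {γ : Fin n → ℤ} (hγ : 0 < γ a) {z : O2 n R}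
    (hz : z ∈ NP R π a) : cE π γ z = 0 := by
  by_contra h
  have h1 : γ (π.symm (π a)) ≤ 0 := hz _ h
  rw [π.symm_apply_apply] at h1
  omega

theorem cE_X {π : Equiv.Perm (Fin n)} {a : Fin n} {γ : Fin n → ℤ} (hγ : 0 ≤ γ a) {z : O2 n R}
    (hz : z ∈ NP R π a) : cE π γ (a2 (X a) * z) = 0 := by
  rw [cE_apply, map_mul, exF_al, expand_X, vv, coeff_single_mul', one_mul]
  by_contra h
  have h1 : γ (π.symm (π a)) - -(Pi.single (π a) 1 : Fin n → ℤ) (π a) ≤ 0 := hz _ h
  rw [π.symm_apply_apply, Pi.single_eq_same] at h1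
  omega

theorem cE_C (π : Equiv.Perm (Fin n)) (γ : Fin n → ℤ) (c : R) (z : O2 n R) :
    cE π γ (a2 (C c) * z) = c * cE π γ z := by
  rw [cE_apply, map_mul, exF_al, expand_C, coeff_C_mul']
  rfl

/-- pairs not inside `Z` -/
def FrZ (Z : Finset (Fin n)) (o o' : Option (Fin n)) : Prop :=
  ¬(o ∈ Z.image some ∧ o' ∈ Z.image some)

theorem cE_AF {Z : Finset (Fin n)} {π π' : Equiv.Perm (Fin n)}
    (h : ∀ b ∈ Z, ∀ b' ∈ Z, π b < π b' → π' b < π' b') {z : O2 n R} (hz : z ∈ AF R (FrZ Z))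
    (γ : Fin n → ℤ) : cE π γ z = cE π' γ z := by
  have key : AF R (FrZ Z) ≤ (Rel R π π').comap ((exF π).prod (exF π')) := by
    refine Subring.closure_le.2 ?_
    rintro _ (⟨f, rfl⟩ | ⟨o, o', c, h1, h2, rfl⟩)
    · change (exF π _, exF π' _) ∈ Rel R π π'
      rw [exF_al, exF_al]
      exact expand_mem_Rel _ π π' f
    · change (exF π _, exF π' _) ∈ Rel R π π'
      rw [map_inverse _ (isUnit_O2 h1 c), map_inverse _ (isUnit_O2 h1 c), exF_al, exF_al]
      obtain ⟨h3, h4⟩ := not_not.1 h2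
      obtain ⟨b, hb, rfl⟩ := mem_image.1 h3
      obtain ⟨b', hb', rfl⟩ := mem_image.1 h4
      refine form_Rel _ h1 c ⟨h b hb b' hb', fun k => ?_⟩
      exact (FP_total π h1).resolve_right fun j => FP_asymm k (h b' hb' b hb j)
  exact key hz γ

/-- a root -/
def rt0 (y : Fin n × R) : Pol n R := X y.1 + C y.2

/-- substitution of roots -/
def sb (φ : Fin n → Fin n × R) : Pol n R →ₐ[R] Pol n R := aeval fun a => rt0 (φ a)

/-- the trivial substitution -/
def id0 (a : Fin n) : Fin n × R := (a, 0)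

open Classical in
/-- maps from `A` to the roots -/
def piF (Y : Finset (Fin n × R)) (A : Finset (Fin n)) : Finset (Fin n → Fin n × R) :=
  Fintype.piFinset fun a => if a ∈ A then Y else {id0 a}

open Classical in
/-- the inverse of the derivative at a root -/
def dP (Y : Finset (Fin n × R)) (y : Fin n × R) : O2 n R :=
  ∏ y' ∈ Y.erase y, Ring.inverse (a2 (rt0 y - rt0 y'))

/-- the poles of the point `a` -/
def iP (Y : Finset (Fin n × R)) (a : Fin n) : O2 n R :=
  ∏ y ∈ Y, Ring.inverse (a2 (X a - rt0 y))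

/-- weighted sum of residues -/
def UV (Y : Finset (Fin n × R)) (A : Finset (Fin n)) (ω : Fin n → Fin n → ℤ) (f : Pol n R) :
    O2 n R :=
  ∑ φ ∈ piF Y A, (∏ a ∈ A, ω a (φ a).1) • (a2 (sb φ f) * ∏ a ∈ A, dP Y (φ a))

/-- the points after `a` -/
def late (π : Equiv.Perm (Fin n)) (a b : Fin n) : ℤ := if π a < π b then 1 else 0

variable (R) in
/-- the discriminant -/
def Dl (A : Finset (Fin n)) : Pol n R := ∏ a ∈ A, ∏ b ∈ A.erase a, (X a - X b)

theorem mem_piF {Y : Finset (Fin n × R)} {A : Finset (Fin n)} {φ : Fin n → Fin n × R} :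
    φ ∈ piF Y A ↔ (∀ a ∈ A, φ a ∈ Y) ∧ ∀ a ∉ A, φ a = id0 a := by
  rw [piF, Fintype.mem_piFinset]
  refine ⟨fun h => ⟨fun a ha => ?_, fun a ha => ?_⟩, fun h a => ?_⟩
  · simpa only [if_pos ha] using h a
  · simpa only [if_neg ha, mem_singleton] using h a
  · split_ifs with ha
    · exact h.1 a ha
    · exact mem_singleton.2 (h.2 a ha)

theorem sum_piF_insert {M : Type} [AddCommMonoid M] (Y : Finset (Fin n × R)) {A : Finset (Fin n)}
    {a : Fin n} (ha : a ∉ A) (G : (Fin n → Fin n × R) → M) :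
    ∑ φ ∈ piF Y (insert a A), G φ = ∑ y ∈ Y, ∑ φ ∈ piF Y A, G (Function.update φ a y) := by
  rw [← sum_product' (f := fun y φ => G (Function.update φ a y))]
  refine sum_nbij' (fun φ => (φ a, Function.update φ a (id0 a)))
    (fun p => Function.update p.2 a p.1) (fun φ hφ => ?_) (fun p hp => ?_) (fun φ _ => ?_)
    (fun p hp => ?_) fun φ _ => ?_
  · obtain ⟨h1, h2⟩ := mem_piF.1 hφ
    refine mem_product.2 ⟨h1 a (mem_insert_self a A), mem_piF.2 ⟨fun b hb => ?_, fun b hb => ?_⟩⟩ <;>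
      dsimp only
    · rw [Function.update_of_ne (ne_of_mem_of_not_mem hb ha)]
      exact h1 b (mem_insert_of_mem hb)
    · by_cases e : b = a
      · rw [e, Function.update_self]
      · rw [Function.update_of_ne e]
        exact h2 b fun k => (mem_insert.1 k).elim e hb
  · obtain ⟨h0, h1, h2⟩ := (mem_product.1 hp).imp_right mem_piF.1
    refine mem_piF.2 ⟨fun b hb => ?_, fun b hb => ?_⟩
    · by_cases e : b = a
      · rw [e, Function.update_self]
        exact h0
      · rw [Function.update_of_ne e]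
        exact h1 b ((mem_insert.1 hb).resolve_left e)
    · rw [Function.update_of_ne fun e => hb (mem_insert.2 (Or.inl e))]
      exact h2 b fun k => hb (mem_insert_of_mem k)
  · simp only [Function.update_idem, Function.update_eq_self]
  · simp only [Function.update_idem, Function.update_self]
    rw [← (mem_piF.1 (mem_product.1 hp).2).2 a ha, Function.update_eq_self]
  · simp only [Function.update_idem, Function.update_eq_self]

theorem ZA_sbX (φ : Fin n → Fin n × R) (b : Fin n) : sb φ (X b) = rt0 (φ b) := aeval_X _ b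

theorem ZA_sbC (φ : Fin n → Fin n × R) (c : R) : sb φ (C c) = C c := aeval_C _ c

theorem ZA_id (b : Fin n) : rt0 (id0 b : Fin n × R) = X b := by
  rw [rt0, id0, C_0, add_zero]

theorem ZA_sbr {φ : Fin n → Fin n × R} {y : Fin n × R} (h : φ y.1 = id0 y.1) :
    sb φ (rt0 y) = rt0 y := by
  rw [rt0, map_add, ZA_sbX, ZA_sbC, h, ZA_id]

theorem ZA_sb {φ : Fin n → Fin n × R} {y : Fin n × R} (h : φ y.1 = id0 y.1) (a : Fin n)
    (f : Pol n R) : sb φ (sb (Function.update id0 a y) f) = sb (Function.update φ a y) f := by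
  refine AlgHom.congr_fun (φ₁ := (sb φ).comp (sb (Function.update id0 a y)))
    (φ₂ := sb (Function.update φ a y)) (algHom_ext fun b => ?_) f
  rw [AlgHom.comp_apply, ZA_sbX, ZA_sbX]
  by_cases e : b = a
  · rw [e, Function.update_self, Function.update_self, ZA_sbr h]
  · rw [Function.update_of_ne e, Function.update_of_ne e, ZA_id, ZA_sbX]

theorem ZA_sbNZ {φ : Fin n → Fin n × R} {a : Fin n} (h : ∀ b, (φ b).1 ≠ a) (f : Pol n R) :
    a2 (sb φ f) ∈ NZ R a := by
  induction f using MvPolynomial.induction_on with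
  | C c => rw [ZA_sbC]; exact ZA_C a c
  | add p q hp hq => rw [map_add, map_add]; exact add_mem hp hq
  | mul_X p b hp =>
    rw [map_mul, map_mul, ZA_sbX, rt0, map_add]
    exact mul_mem hp (add_mem (ZA_X (h b)) (ZA_C a _))

theorem ZA_div (a : Fin n) (y : Fin n × R) (f : Pol n R) :
    ∃ g, f = sb (Function.update id0 a y) f + (X a - rt0 y) * g := by
  induction f using MvPolynomial.induction_on with
  | C c => exact ⟨0, by rw [ZA_sbC, mul_zero, add_zero]⟩
  | add p q hp hq =>
    obtain ⟨g, hg⟩ := hp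
    obtain ⟨g', hg'⟩ := hq
    exact ⟨g + g', by rw [map_add]; linear_combination hg + hg'⟩
  | mul_X p b hp =>
    obtain ⟨g, hg⟩ := hp
    rw [map_mul, ZA_sbX]
    by_cases e : b = a
    · rw [e, Function.update_self]
      exact ⟨p + g * rt0 y, by linear_combination rt0 y * hg⟩
    · rw [Function.update_of_ne e, ZA_id]
      exact ⟨g * X b, by linear_combination X b * hg⟩

theorem ZA_form (y y' : Fin n × R) :
    rt0 y - rt0 y' = xv (some y.1) - xv (some y'.1) + C (y.2 - y'.2) := by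
  rw [rt0, rt0, xv_some, xv_some, map_sub]
  ring

theorem ZA_form' (a : Fin n) (y : Fin n × R) :
    X a - rt0 y = xv (some a) - xv (some y.1) + C (-y.2) := by
  rw [rt0, xv_some, xv_some, map_neg]
  ring

theorem ZA_pf {A ι : Type} [CommRing A] [DecidableEq ι] (y : ι → A) {s : Finset ι}
    (hs : s.Nonempty) (h : ∀ j ∈ s, ∀ l ∈ s, j ≠ l → IsUnit (y j - y l)) {x : A}
    (hx : ∀ j ∈ s, IsUnit (x - y j)) : ∏ j ∈ s, Ring.inverse (x - y j) =
      ∑ j ∈ s, Ring.inverse (x - y j) * ∏ l ∈ s.erase j, Ring.inverse (y j - y l) := by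
  induction hs using Finset.Nonempty.cons_induction generalizing x with
  | singleton j => simp
  | cons i s hi hs ih =>
    rw [cons_eq_insert] at *
    have h1 : ∀ j ∈ s, IsUnit (y i - y j) := fun j hj =>
      h i (mem_insert_self i s) j (mem_insert_of_mem hj) (ne_of_mem_of_not_mem hj hi).symm
    have h2 := fun j hj l hl => h j (mem_insert_of_mem hj) l (mem_insert_of_mem hl)
    rw [prod_insert hi, sum_insert hi, erase_insert hi,
      ih h2 fun j hj => hx j (mem_insert_of_mem hj), ih h2 h1, mul_sum, mul_sum, ← sum_add_distrib]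
    refine sum_congr rfl fun j hj => ?_
    rw [erase_insert_of_ne (ne_of_mem_of_not_mem hj hi).symm,
      prod_insert fun k => hi (mem_of_mem_erase k), ← neg_sub (y i) (y j), inverse_neg']
    linear_combination GL0_pf (hx i (mem_insert_self i s)) (hx j (mem_insert_of_mem hj)) (h1 j hj)
      (by ring) 1 (∏ l ∈ s.erase j, Ring.inverse (y j - y l))

theorem UV_insert {Y : Finset (Fin n × R)} {A : Finset (Fin n)} {a : Fin n} (ha : a ∉ A)
    (hY : ∀ y ∈ Y, y.1 ∉ A) (ω : Fin n → Fin n → ℤ) (f : Pol n R) :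
    UV Y (insert a A) ω f =
      ∑ y ∈ Y, ω a y.1 • (dP Y y * UV Y A ω (sb (Function.update id0 a y) f)) := by
  rw [UV, sum_piF_insert Y ha]
  refine sum_congr rfl fun y hy => ?_
  rw [UV, zsmul_eq_mul, mul_sum, mul_sum]
  refine sum_congr rfl fun φ hφ => ?_
  have e : ∀ b ∈ A, Function.update φ a y b = φ b := fun b hb =>
    Function.update_of_ne (ne_of_mem_of_not_mem hb ha) _ _
  rw [prod_insert ha, prod_insert ha, Function.update_self,
    ZA_sb ((mem_piF.1 hφ).2 _ (hY y hy)), prod_congr rfl fun b hb => by rw [e b hb],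
    prod_congr (M := O2 n R) rfl fun b hb => by rw [e b hb], zsmul_eq_mul, zsmul_eq_mul,
    Int.cast_mul]
  ring

theorem UV_congr {Y : Finset (Fin n × R)} {A : Finset (Fin n)} {ω ω' : Fin n → Fin n → ℤ}
    (h : ∀ a ∈ A, ∀ y ∈ Y, ω a y.1 = ω' a y.1) (f : Pol n R) : UV Y A ω f = UV Y A ω' f :=
  sum_congr rfl fun φ hφ => by
    rw [prod_congr rfl fun a ha => h a ha _ ((mem_piF.1 hφ).1 a ha)]

/-- multilinearity in the weights -/
theorem UV_span {Y : Finset (Fin n × R)} {A J : Finset (Fin n)} {ω c g : Fin n → Fin n → ℤ}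
    (h : ∀ a ∈ A, ∀ y ∈ Y, ω a y.1 = ∑ j ∈ J, c a j * g j y.1) (f : Pol n R) :
    UV Y A ω f ∈ AddSubgroup.closure
      {z | ∃ β : Fin n → Fin n, (∀ a ∈ A, β a ∈ J) ∧ z = UV Y A (fun a => g (β a)) f} := by
  let β : (∀ a ∈ A, Fin n) → Fin n → Fin n := fun p a => if h : a ∈ A then p a h else a
  have e : UV Y A ω f = ∑ p ∈ A.pi fun _ => J,
      (∏ a ∈ A, c a (β p a)) • UV Y A (fun a => g (β p a)) f := by
    simp only [UV, zsmul_eq_mul, mul_sum]
    rw [sum_comm]
    refine sum_congr rfl fun φ hφ => ?_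
    rw [prod_congr rfl fun a ha => h a ha _ ((mem_piF.1 hφ).1 a ha), prod_sum, Int.cast_sum, sum_mul]
    refine sum_congr rfl fun p _ => ?_
    rw [← mul_assoc ((_ : ℤ) : O2 n R) ((_ : ℤ) : O2 n R), ← Int.cast_mul, ← prod_mul_distrib,
      ← prod_attach A fun a => c a (β p a) * g (β p a) (φ a).1]
    exact congrArg (fun m : ℤ => (m : O2 n R) * _)
      (prod_congr rfl fun a _ => by simp only [β, dif_pos a.2])
  rw [e]
  refine sum_mem fun p hp => zsmul_mem (AddSubgroup.subset_closure ?_) _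
  refine ⟨β p, fun a ha => ?_, rfl⟩
  simp only [β, dif_pos ha]
  exact mem_pi.1 hp a ha

end Ring

section Field

variable {n : ℕ} {F : Type} [Field F]

theorem isUnit_rt0 {y y' : Fin n × F} (h : y ≠ y') : IsUnit (a2 (rt0 y - rt0 y')) := by
  rw [ZA_form]
  by_cases e : y.1 = y'.1
  · rw [e, sub_self, zero_add]
    exact ((IsUnit.mk0 _ (sub_ne_zero.2 fun k => h (Prod.ext e k))).map C).map a2
  · exact isUnit_O2 (fun k => e (Option.some.inj k)) _

theorem ZA_const {y y' : Fin n × F} (h : y ≠ y') (e : y.1 = y'.1) :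
    Ring.inverse (a2 (rt0 y - rt0 y')) = a2 (C (Ring.inverse (y.2 - y'.2))) := by
  rw [ZA_form, e, sub_self, zero_add]
  exact (map_inverse (a2.comp C) (IsUnit.mk0 _ (sub_ne_zero.2 fun k => h (Prod.ext e k)))).symm

theorem dP_NZ {Y : Finset (Fin n × F)} {a : Fin n} (hY : ∀ y ∈ Y, y.1 ≠ a) {y : Fin n × F}
    (hy : y ∈ Y) : dP Y y ∈ NZ F a := by
  unfold dP
  refine prod_mem fun y' hy' => ?_
  simp only [mem_erase] at hy'
  by_cases e : y.1 = y'.1
  · rw [ZA_const hy'.1.symm e]
    exact ZA_C a _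
  · rw [ZA_form]
    exact inv_NZ (fun k => e (Option.some.inj k)) (fun k => hY y hy (Option.some.inj k))
      (fun k => hY y' hy'.2 (Option.some.inj k)) _

theorem UV_AF {Y : Finset (Fin n × F)} {Z : Finset (Fin n)} (hY : ∀ y ∈ Y, y.1 ∈ Z)
    (A : Finset (Fin n)) (ω : Fin n → Fin n → ℤ) (f : Pol n F) : UV Y A ω f ∈ AF F (FrZ Z) := by
  refine sum_mem fun φ hφ => zsmul_mem (S := Subring (O2 n F)) (mul_mem ?_ ?_) _
  · exact Subring.subset_closure (Or.inl ⟨_, rfl⟩)
  refine prod_mem fun a ha => ?_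
  unfold dP
  refine prod_mem fun y' hy' => Subring.subset_closure ?_
  simp only [mem_erase] at hy'
  by_cases e : (φ a).1 = y'.1
  · exact Or.inl ⟨_, (ZA_const hy'.1.symm e).symm⟩
  · exact Or.inr ⟨_, _, _, fun k => e (Option.some.inj k), not_not.2
      ⟨mem_image_of_mem _ (hY _ ((mem_piF.1 hφ).1 a ha)),
        mem_image_of_mem _ (hY _ hy'.2)⟩, by rw [ZA_form]⟩

theorem ZA_unit {a : Fin n} {y : Fin n × F} (h : y.1 ≠ a) : IsUnit (a2 (X a - rt0 y)) := by
  rw [ZA_form']
  exact isUnit_O2 (fun k => h (Option.some.inj k).symm) _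

/-- fraction decomposition in the variable `a` -/
theorem pfrac {Y : Finset (Fin n × F)} {a : Fin n} (hY : ∀ y ∈ Y, y.1 ≠ a) (f : Pol n F) :
    ∃ Q : Pol n F, a2 f * iP Y a = a2 Q + ∑ y ∈ Y,
      a2 (sb (Function.update id0 a y) f) * dP Y y * Ring.inverse (a2 (X a - rt0 y)) := by
  classical
  induction Y using Finset.induction_on generalizing f with
  | empty => exact ⟨f, by rw [iP, prod_empty, sum_empty, mul_one, add_zero]⟩
  | insert y0 Y h0 ih =>
    obtain ⟨g, hg⟩ := ZA_div a y0 f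
    obtain ⟨Q, hQ⟩ := ih (fun y hy => hY y (mem_insert_of_mem hy)) g
    have h2 : iP (insert y0 Y) a =
        ∑ y ∈ insert y0 Y, Ring.inverse (a2 (X a - rt0 y)) * dP (insert y0 Y) y := by
      simp only [iP, dP, map_sub]
      exact ZA_pf (fun y => a2 (rt0 y)) (insert_nonempty y0 Y)
        (fun j _ l _ e => by rw [← map_sub]; exact isUnit_rt0 e) fun j hj => by
          rw [← map_sub]; exact ZA_unit (hY j hj)
    have h3 : a2 (X a - rt0 y0) * iP (insert y0 Y) a = iP Y a := by
      rw [iP, prod_insert h0, Ring.mul_inverse_cancel_left _ _ (ZA_unit (hY _ (mem_insert_self _ _)))]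
      rfl
    have h4 : ∀ y, sb (Function.update id0 a y) f = sb (Function.update id0 a y0) f +
        (rt0 y - rt0 y0) * sb (Function.update id0 a y) g := fun y => by
      have e : Function.update id0 a y y0.1 = id0 y0.1 :=
        Function.update_of_ne (hY _ (mem_insert_self _ _)) _ _
      have := congrArg (sb (Function.update id0 a y)) hg
      rwa [map_add, map_mul, map_sub, ZA_sb e, Function.update_idem, ZA_sbX, Function.update_self,
        ZA_sbr e] at this
    refine ⟨Q, ?_⟩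
    have h5 : a2 f * iP (insert y0 Y) a =
        a2 (sb (Function.update id0 a y0) f) * iP (insert y0 Y) a + a2 g * iP Y a := by
      rw [← h3]
      linear_combination iP (insert y0 Y) a * (congrArg a2 hg).trans
        ((map_add a2 _ _).trans (congrArg _ (map_mul a2 _ _)))
    rw [h5, hQ, h2, mul_sum, sum_insert h0, sum_insert h0, add_left_comm, add_assoc,
      ← sum_add_distrib, mul_assoc, mul_comm (dP _ _)]
    refine congrArg _ (congrArg _ (sum_congr rfl fun y hy => ?_))
    have hne := ne_of_mem_of_not_mem hy h0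
    have h6 : a2 (rt0 y - rt0 y0) * dP (insert y0 Y) y = dP Y y := by
      have e : dP (insert y0 Y) y = Ring.inverse (a2 (rt0 y - rt0 y0)) * dP Y y := by
        rw [dP, dP, ← prod_insert (f := fun y' => Ring.inverse (a2 (rt0 y - rt0 y')))
          fun k => h0 (mem_of_mem_erase k)]
        refine prod_congr (Finset.ext fun z => ?_) fun _ _ => rfl
        simp only [mem_erase, mem_insert]
        exact ⟨fun k => k.2.imp_right fun j => ⟨k.1, j⟩, fun k =>
          k.elim (fun j => ⟨j ▸ hne.symm, Or.inl j⟩) fun j => ⟨j.1, Or.inr j.2⟩⟩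
      rw [e, Ring.mul_inverse_cancel_left _ _ (isUnit_rt0 hne)]
    rw [h4 y, map_add, map_mul, ← h6]
    ring

theorem res_one {Y : Finset (Fin n × F)} {a : Fin n} (hY : ∀ y ∈ Y, y.1 ≠ a)
    (π : Equiv.Perm (Fin n)) {w : O2 n F} (hw : w ∈ NZ F a) {γ : Fin n → ℤ} (hγ : γ a = 0)
    (f : Pol n F) : cE π (γ + ind {a}) (a2 f * w * iP Y a) =
      ∑ y ∈ Y, late π a y.1 • cE π γ (a2 (sb (Function.update id0 a y) f) * w * dP Y y) := by
  obtain ⟨Q, hQ⟩ := pfrac hY f
  have h0 : 0 < (γ + ind {a}) a := by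
    rw [Pi.add_apply, hγ, ind, if_pos (mem_singleton_self a)]
    exact one_pos
  rw [mul_right_comm, hQ, add_mul, map_add, cE_NP h0 (mul_mem (a2_NP π a Q) (NZ_le π a hw)),
    zero_add, sum_mul, map_sum]
  refine sum_congr rfl fun y hy => ?_
  have hG : a2 (sb (Function.update id0 a y) f) * w * dP Y y ∈ NZ F a :=
    mul_mem (mul_mem (ZA_sbNZ (fun b => by
      by_cases e : b = a
      · rw [e, Function.update_self]
        exact hY y hy
      · rw [Function.update_of_ne e]
        exact e) f) hw) (dP_NZ hY hy)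
  have hne : some a ≠ some y.1 := fun k => hY y hy (Option.some.inj k).symm
  rw [mul_right_comm, mul_right_comm _ _ w, late, ZA_form']
  generalize a2 (sb (Function.update id0 a y) f) * w * dP Y y = G at hG
  split_ifs with k
  · have e : toLex ((γ + ind {a}) ∘ π.symm) =
        toLex (γ ∘ π.symm) + toLex (Pi.single (π a) 1) := by
      funext i
      show γ (π.symm i) + ind {a} (π.symm i) = γ (π.symm i) + (Pi.single (π a) 1 : Fin n → ℤ) i
      simp only [ind, mem_singleton, Pi.single_apply, Equiv.symm_apply_eq]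
    have := slice (RingHom.id F) π a [(some y.1, -y.2)]
      (fun x hx => List.mem_singleton.1 hx ▸ k) (mem_NZ.1 hG π) (γ := toLex (γ ∘ π.symm))
      ((congrArg γ (π.symm_apply_apply a)).trans hγ)
    rw [List.map_singleton, List.prod_singleton, if_pos (List.length_singleton)] at this
    rw [one_smul, cE_apply, map_mul, map_inverse _ (isUnit_O2 hne _), exF_al, e]
    exact this
  · rw [zero_smul]
    refine cE_NP h0 (mul_mem (NZ_le π a hG) ?_)
    show exF π _ ∈ PP F (π a)
    rw [map_inverse _ (isUnit_O2 hne _), exF_al]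
    exact form_PP _ π hne _ a (fun _ => k) fun j => absurd j.symm hne

theorem res_all {Y : Finset (Fin n × F)} {A : Finset (Fin n)} (hY : ∀ y ∈ Y, y.1 ∉ A)
    (π : Equiv.Perm (Fin n)) {w : O2 n F} (hw : ∀ a ∈ A, w ∈ NZ F a) {γ : Fin n → ℤ}
    (hγ : ∀ a ∈ A, γ a = 0) (f : Pol n F) :
    cE π (γ + ind A) (a2 f * w * ∏ a ∈ A, iP Y a) = cE π γ (w * UV Y A (late π) f) := by
  induction A using Finset.induction_on generalizing w γ f with
  | empty =>
    have e1 : piF Y ∅ = {id0} := Finset.ext fun φ => by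
      rw [mem_piF, mem_singleton]
      exact ⟨fun h => funext fun a => h.2 a (notMem_empty a), fun h =>
        ⟨fun a ha => absurd ha (notMem_empty a), fun a _ => congrFun h a⟩⟩
    have e2 : sb id0 f = f :=
      AlgHom.congr_fun (φ₂ := AlgHom.id F _) (algHom_ext fun b => (ZA_sbX _ b).trans (ZA_id b)) f
    have e3 : γ + ind ∅ = γ := funext fun b => by
      rw [Pi.add_apply, ind, if_neg (notMem_empty b), add_zero]
    rw [UV, e1, sum_singleton, prod_empty, prod_empty, prod_empty, one_smul, mul_one, mul_one, e2,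
      e3, mul_comm]
  | insert a A ha ih =>
    have h1 : ∀ y ∈ Y, y.1 ≠ a := fun y hy e => hY y hy (mem_insert.2 (Or.inl e))
    have h2 : ∀ y ∈ Y, y.1 ∉ A := fun y hy e => hY y hy (mem_insert_of_mem e)
    have e : γ + ind (insert a A) = γ + ind A + ind {a} := funext fun b => by
      simp only [Pi.add_apply, ind, mem_insert, mem_singleton]
      by_cases k : b = a
      · rw [if_pos (Or.inl k), if_neg (k ▸ ha), if_pos k, add_zero]
      · simp only [k, false_or, if_false, add_zero]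
    have h3 : w * ∏ b ∈ A, iP Y b ∈ NZ F a :=
      mul_mem (hw a (mem_insert_self a A)) (prod_mem fun b hb => prod_mem fun y hy => by
        rw [ZA_form']
        exact inv_NZ (fun k => ne_of_mem_of_not_mem hb (h2 y hy) (Option.some.inj k))
          (fun k => ne_of_mem_of_not_mem hb ha (Option.some.inj k))
          (fun k => h1 y hy (Option.some.inj k)) _)
    have h4 : (γ + ind A) a = 0 := by
      rw [Pi.add_apply, hγ a (mem_insert_self a A), ind, if_neg ha, add_zero]
    rw [e, prod_insert ha, mul_comm (iP Y a), ← mul_assoc, mul_assoc (a2 f), res_one h1 π h3 h4,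
      UV_insert ha h2, mul_sum, map_sum]
    refine sum_congr rfl fun y hy => ?_
    rw [mul_smul_comm, map_zsmul, ← mul_assoc w, ← ih h2
      (fun b hb => mul_mem (hw b (mem_insert_of_mem hb))
        (dP_NZ (fun y hy e => h2 y hy (e ▸ hb)) hy)) fun b hb => hγ b (mem_insert_of_mem hb)]
    exact congrArg (fun z => late π a y.1 • cE π (γ + ind A) z) (by ring)

end Field

end Pool.Agent.Work.MP_849ab0_ag
end
end

-- merged part: Pool.Agent.Work.MP_849ab0_ag.ZK
section
/-! The kernel of a set of points. -/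

noncomputable section

set_option linter.unusedSectionVars false

namespace Pool.Agent.Work.MP_849ab0_ag

open MvPolynomial Finset

namespace QD

variable {k n : ℕ} {E R : Type} [Fintype E] [CommRing R] (D : QD k n E R)

/-- roots inside `S` -/
def NS (S : Finset (Fin n)) : Pol n R :=
  ∏ q ∈ D.Rt with q.1 ≠ q.2 ∧ q.1 ∈ S ∧ q.2 ∈ S, (X q.1 - X q.2)

/-- weights inside `S` -/
def DS (S : Finset (Fin n)) : Pol n R :=
  ∏ p ∈ D.W2 with p.2.1 ∈ S.image some ∧ p.2.2 ∈ S.image some, D.chi p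

/-- the kernel of `S` -/
def Ks (S : Finset (Fin n)) : O2 n R := a2 (D.NS S) * Ring.inverse (a2 (D.DS S))

/-- the iterated residue with last point `l` -/
def cS (π : Equiv.Perm (Fin n)) (S : Finset (Fin n)) (l : Fin n) (f : Pol n R) : R :=
  cE π (ind (S.erase l)) (a2 f * D.Ks S)

/-- vanishing of the residues whose last point satisfies `P` -/
def VanC (S : Finset (Fin n)) (P : Fin n → Prop) : Prop :=
  ∀ (π : Equiv.Perm (Fin n)) l f, l ∈ S → P l → (∀ b ∈ S, π b ≤ π l) → D.cS π S l f = 0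

/-- distinct flavours -/
def DF : Prop := ∀ e e', D.t e = D.t e' ∨ D.t e = -D.t e' → e = e'

theorem isUnit_DS (S : Finset (Fin n)) : IsUnit (a2 (D.DS S)) := by
  rw [DS, map_prod]
  exact IsUnit.prod_iff.2 fun p hp => isUnit_O2 (D.mem_W2.1 (mem_filter.1 hp).1).2.symm _

theorem exF_Ks (π : Equiv.Perm (Fin n)) (S : Finset (Fin n)) : exF π (D.Ks S) =
    expand (RingHom.id R) π (D.NS S) * Ring.inverse (expand (RingHom.id R) π (D.DS S)) := by
  rw [Ks, map_mul, map_inverse _ (D.isUnit_DS S), exF_al, exF_al]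

theorem Ks_NZ {S : Finset (Fin n)} {a : Fin n} (ha : a ∉ S) : D.Ks S ∈ NZ R a := by
  have hx : ∀ b ∈ S, a2 (X b : Pol n R) ∈ NZ R a := fun b hb =>
    a2_NZ (Algebra.subset_adjoin ⟨b, fun e : b = a => ha (e ▸ hb), rfl⟩)
  have ho : ∀ o ∈ S.image some, o ≠ some a := fun o ho e => by
    obtain ⟨b, hb, rfl⟩ := mem_image.1 ho
    exact ha (Option.some.inj e ▸ hb)
  refine mul_mem ?_ ?_
  · rw [NS, map_prod]
    refine prod_mem fun q hq => ?_
    obtain ⟨-, -, h1, h2⟩ := mem_filter.1 hq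
    rw [map_sub]
    exact sub_mem (hx _ h1) (hx _ h2)
  · rw [DS, map_prod, inverse_prod]
    refine prod_mem fun p hp => ?_
    obtain ⟨h0, h1, h2⟩ := mem_filter.1 hp
    exact inv_NZ (D.mem_W2.1 h0).2.symm (ho _ h2) (ho _ h1) _

theorem Ks_AF (S : Finset (Fin n)) : D.Ks S ∈ AF R (FrZ S) := by
  refine mul_mem (Subring.subset_closure (Or.inl ⟨_, rfl⟩)) ?_
  rw [DS, map_prod, inverse_prod]
  refine prod_mem fun p hp => ?_
  obtain ⟨h0, h1, h2⟩ := mem_filter.1 hp
  exact Subring.subset_closure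
    (Or.inr ⟨p.2.2, p.2.1, D.t p.1, (D.mem_W2.1 h0).2.symm, fun h => h ⟨h2, h1⟩, rfl⟩)

theorem cS_kl (π : Equiv.Perm (Fin n)) (S : Finset (Fin n)) (l : Fin n) (f : Pol n R) :
    D.cS π S l (kl R S f) = D.cS π S l f := by
  have key : ∀ f g : Pol n R, D.cS π S l (kl R S f * g) = D.cS π S l (f * g) := by
    intro f
    induction f using MvPolynomial.induction_on with
    | C r => intro g; rw [kl, aeval_C, algebraMap_eq]
    | add p q hp hq =>
      intro g
      have h1 := hp g
      have h2 := hq g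
      unfold cS at h1 h2 ⊢
      rw [map_add (kl R S), add_mul, add_mul, map_add a2, map_add a2, add_mul, add_mul, map_add,
        map_add, h1, h2]
    | mul_X p c hp =>
      intro g
      rw [map_mul, mul_assoc, hp, mul_assoc, kl, aeval_X]
      split_ifs with hc
      · rfl
      · have h0 : 0 ≤ ind (S.erase l) c := by
          unfold ind
          split_ifs <;> simp
        have h1 := cE_X h0 (mul_mem (a2_NP π c (p * g)) (NZ_le π c (D.Ks_NZ hc)))
        rw [← mul_assoc, ← map_mul] at h1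
        rw [zero_mul, mul_zero, mul_left_comm, cS, cS, h1, map_zero, zero_mul, map_zero]
  simpa using key f 1

theorem cS_map {R' : Type} [CommRing R'] (χ : R →+* R') (π : Equiv.Perm (Fin n))
    (S : Finset (Fin n)) (l : Fin n) (f : Pol n R) :
    (D.map χ).cS π S l (MvPolynomial.map χ f) = χ (D.cS π S l f) := by
  have e : (D.map χ).DS S = MvPolynomial.map χ (D.DS S) := by
    rw [DS, DS, map_prod]
    exact prod_congr rfl fun p _ => (D.map_chi χ p).symm
  have e2 : (D.map χ).NS S = MvPolynomial.map χ (D.NS S) := by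
    simp only [NS, map_prod, map_sub, map_X]; rfl
  have u : IsUnit (expand (RingHom.id R) π (D.DS S)) := by
    rw [← exF_al]
    exact (D.isUnit_DS S).map _
  rw [cS, cS, cE_apply, cE_apply, map_mul, map_mul, exF_al, exF_al, exF_Ks, exF_Ks, ← hmap_coeff,
    map_mul (hmap (Gam n) χ), map_mul (hmap (Gam n) χ), map_inverse _ u, hmap_expand, hmap_expand,
    hmap_expand, e, e2, expand_map, expand_map, expand_map, RingHom.id_comp, RingHom.comp_id]

theorem VanC_of_map {R' : Type} [CommRing R'] {χ : R →+* R'} (hχ : Function.Injective χ)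
    {S : Finset (Fin n)} {P : Fin n → Prop} (h : (D.map χ).VanC S P) : D.VanC S P :=
  fun π l f h1 h2 h3 => hχ (by rw [← D.cS_map χ, h π l _ h1 h2 h3, map_zero])

theorem ZK_NS (S : Finset (Fin n)) : D.NS S =
    ∏ a ∈ S, ∏ b ∈ S, if D.col a = D.col b ∧ a ≠ b then X a - X b else 1 := by
  rw [← prod_product', ← prod_filter, NS]
  refine prod_congr ?_ fun _ _ => rfl
  ext q
  simp only [mem_filter, mem_Rt, mem_product]
  tauto

/-- the factor of an arrow -/
def ZK_g (e : E) (a b : Fin n) : Pol n R :=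
  if D.src e = some (D.col a) ∧ D.tgt e = some (D.col b) ∧ a ≠ b then X b - X a + C (D.t e) else 1

theorem ZK_DS (S : Finset (Fin n)) : D.DS S = ∏ e, ∏ a ∈ S, ∏ b ∈ S, D.ZK_g e a b := by
  have h : ∏ e, ∏ a ∈ S, ∏ b ∈ S, D.ZK_g e a b =
      ∏ x ∈ (univ : Finset E) ×ˢ (S ×ˢ S), D.ZK_g x.1 x.2.1 x.2.2 := by
    rw [prod_product]
    exact prod_congr rfl fun e _ => (prod_product' _ _ _).symm
  rw [h, DS]
  unfold ZK_g
  rw [← prod_filter]
  symm
  refine prod_nbij (fun x => (x.1, some x.2.1, some x.2.2)) (fun x hx => ?_) ?_ ?_ fun _ _ => rfl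
  · obtain ⟨h1, h2, h3, h4⟩ := mem_filter.1 hx
    obtain ⟨h5, h6⟩ := mem_product.1 (mem_product.1 h1).2
    exact mem_filter.2 ⟨D.mem_W2.2 ⟨D.mem_Wt.2 ⟨h2.symm, h3.symm⟩,
      fun e => h4 (Option.some.inj e)⟩, mem_image_of_mem _ h5, mem_image_of_mem _ h6⟩
  · rintro ⟨e, a, b⟩ - ⟨e', a', b'⟩ - h
    simpa using h
  · rintro ⟨e, o, o'⟩ hp
    obtain ⟨h0, h1, h2⟩ := mem_filter.1 (mem_coe.1 hp)
    obtain ⟨a, ha, rfl⟩ := mem_image.1 h1
    obtain ⟨b, hb, rfl⟩ := mem_image.1 h2
    obtain ⟨h3, h4⟩ := D.mem_W2.1 h0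
    obtain ⟨h5, h6⟩ := D.mem_Wt.1 h3
    exact ⟨(e, a, b), mem_coe.2 (mem_filter.2 ⟨mem_product.2 ⟨mem_univ _, mem_product.2 ⟨ha, hb⟩⟩,
      h5.symm, h6.symm, fun e => h4 (congrArg some e)⟩), rfl⟩

theorem ZK_union {M : Type} [CommMonoid M] {Z A : Finset (Fin n)} (h : Disjoint Z A)
    (g : Fin n → Fin n → M) : ∏ a ∈ Z ∪ A, ∏ b ∈ Z ∪ A, g a b =
      (∏ a ∈ Z, ∏ b ∈ Z, g a b) * (∏ a ∈ A, ∏ b ∈ A, g a b) *
        ∏ a ∈ A, ∏ b ∈ Z, (g b a * g a b) := by
  simp only [prod_union h, prod_mul_distrib]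
  rw [prod_comm (s := A) (t := Z) (f := fun a b => g b a)]
  ac_rfl

theorem ZK_NS_union {i : Fin k} {Z A : Finset (Fin n)} (hZ : ∀ b ∈ Z, D.col b ≠ i)
    (hA : ∀ a ∈ A, D.col a = i) : D.NS (Z ∪ A) = D.NS Z * Dl R A := by
  have hd : Disjoint Z A := disjoint_left.2 fun b h1 h2 => hZ b h1 (hA b h2)
  rw [ZK_NS, ZK_NS, ZK_union hd, prod_eq_one (s := A) (f := fun a => ∏ b ∈ Z, _), mul_one, Dl]
  · congr 1
    refine prod_congr rfl fun a ha => ?_
    rw [← filter_ne, prod_filter]
    refine prod_congr rfl fun b hb => ?_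
    simp only [hA a ha, hA b hb, true_and]
  · intro a ha
    refine prod_eq_one fun b hb => ?_
    rw [if_neg fun h => hZ b hb (h.1.trans (hA a ha)),
      if_neg fun h => hZ b hb (h.1.symm.trans (hA a ha)), one_mul]

/-- the weights joining a point of colour `i` to a point of `Z` -/
def ZK_T (i : Fin k) (Z : Finset (Fin n)) : Finset (E × Fin n) :=
  (univ ×ˢ Z).filter fun x => (D.src x.1 = some i ∧ D.tgt x.1 = some (D.col x.2)) ∨
    (D.tgt x.1 = some i ∧ D.src x.1 = some (D.col x.2))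

/-- the root of such a weight -/
def ZK_r (i : Fin k) (x : E × Fin n) : Fin n × R :=
  (x.2, if D.src x.1 = some i then D.t x.1 else -D.t x.1)

theorem ZK_inj (hf : D.DF) (i : Fin k) : Function.Injective (D.ZK_r i) := by
  rintro ⟨e, a⟩ ⟨e', a'⟩ h
  obtain ⟨h1, h2⟩ := Prod.mk.inj h
  refine Prod.ext (hf e e' ?_) h1
  dsimp only at h2
  split_ifs at h2
  · exact Or.inl h2
  · exact Or.inr h2
  · exact Or.inr (neg_eq_iff_eq_neg.1 h2)
  · exact Or.inl (neg_injective h2)

theorem ZK_card {i : Fin k} (hi : D.NLi i) (Z : Finset (Fin n)) :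
    ((D.ZK_T i Z).card : ℤ) = D.nb i Z := by
  rw [ZK_T, card_filter, sum_product, nb, Nat.cast_sum]
  refine sum_congr rfl fun e _ => ?_
  rw [← card_filter]
  by_cases h1 : D.src e = some i
  · have h2 : ¬D.tgt e = some i := fun h => hi e ⟨h1, h⟩
    rw [if_pos h1, if_neg h2, add_zero, mlt]
    congr 2
    exact filter_congr fun b _ => by simp only [h1, h2, true_and, false_and, or_false, eq_comm]
  · by_cases h2 : D.tgt e = some i
    · rw [if_neg h1, if_pos h2, zero_add, mlt]
      congr 2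
      exact filter_congr fun b _ => by
        rw [and_iff_right h2, or_iff_right fun h => h1 h.1, eq_comm]
    · rw [if_neg h1, if_neg h2, add_zero, filter_false_of_mem, card_empty, Nat.cast_zero]
      exact fun b _ h => h.elim (fun h => h1 h.1) fun h => h2 h.1

theorem ZK_DS_union {i : Fin k} (hi : D.NLi i) {Z A : Finset (Fin n)}
    (hZ : ∀ b ∈ Z, D.col b ≠ i) (hA : ∀ a ∈ A, D.col a = i) : D.DS (Z ∪ A) = D.DS Z *
      ∏ a ∈ A, ((-1) ^ ((D.ZK_T i Z).filter fun x => D.src x.1 = some i).card *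
        ∏ x ∈ D.ZK_T i Z, (X a - rt0 (D.ZK_r i x))) := by
  have hd : Disjoint Z A := disjoint_left.2 fun b h1 h2 => hZ b h1 (hA b h2)
  rw [ZK_DS, ZK_DS]
  simp only [ZK_union hd]
  rw [prod_mul_distrib, prod_mul_distrib, prod_eq_one (f := fun e => ∏ a ∈ A, ∏ b ∈ A, _), mul_one,
    prod_comm (t := A)]
  · congr 1
    refine prod_congr rfl fun a ha => ?_
    rw [← prod_const, prod_filter, ← prod_mul_distrib, ← prod_product', ZK_T, prod_filter]
    refine prod_congr rfl fun x hx => ?_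
    have hb := hZ _ (mem_product.1 hx).2
    have hne : a ≠ x.2 := fun e => hb (e ▸ hA a ha)
    unfold ZK_g ZK_r rt0
    rw [hA a ha]
    by_cases h1 : D.src x.1 = some i
    · have h2 : ¬D.tgt x.1 = some i := fun h => hi _ ⟨h1, h⟩
      rw [if_neg fun h => h2 h.2.1, one_mul, if_pos h1, if_pos h1]
      by_cases h3 : D.tgt x.1 = some (D.col x.2)
      · rw [if_pos ⟨h1, h3, hne⟩, if_pos (Or.inl ⟨h1, h3⟩)]
        ring
      · rw [if_neg fun h => h3 h.2.1, if_neg fun h => h.elim (fun h => h3 h.2) fun h => h2 h.1]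
    · rw [if_neg (c := _ ∧ _ ∧ a ≠ x.2) fun h => h1 h.1, mul_one, if_neg h1, if_neg h1]
      by_cases h3 : D.tgt x.1 = some i ∧ D.src x.1 = some (D.col x.2)
      · rw [if_pos ⟨h3.2, h3.1, hne.symm⟩, if_pos (Or.inr h3), map_neg]
        ring
      · rw [if_neg fun h => h3 ⟨h.2.1, h.1⟩, if_neg fun h => h.elim (fun h => h1 h.1) h3]
  · intro e _
    refine prod_eq_one fun a ha => prod_eq_one fun b hb => if_neg fun h => hi e ?_
    rw [hA a ha, hA b hb] at h
    exact ⟨h.1, h.2.1⟩

theorem ZK_sign {M : Type} [CommRing M] (N : ℕ) : Ring.inverse ((-1 : M) ^ N) = (-1) ^ N := by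
  rw [← Ring.inverse_pow, inverse_neg', Ring.inverse_one]

/-- the points of a loop free colour only see the roots -/
theorem exists_roots (hf : D.DF) {i : Fin k} (hi : D.NLi i) {Z : Finset (Fin n)}
    (hZ : ∀ b ∈ Z, D.col b ≠ i) : ∃ (Y : Finset (Fin n × R)) (N : ℕ), (∀ y ∈ Y, y.1 ∈ Z) ∧
      (Y.card : ℤ) = D.nb i Z ∧ ∀ A : Finset (Fin n), (∀ a ∈ A, D.col a = i) →
        D.Ks (Z ∪ A) = a2 (Dl R A * C ((-1) ^ (N * A.card))) * D.Ks Z * ∏ a ∈ A, iP Y a := by
  classical
  refine ⟨(D.ZK_T i Z).image (D.ZK_r i), ((D.ZK_T i Z).filter fun x => D.src x.1 = some i).card,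
    fun y hy => ?_, ?_, fun A hA => ?_⟩
  · obtain ⟨x, hx, rfl⟩ := mem_image.1 hy
    exact (mem_product.1 (mem_filter.1 hx).1).2
  · rw [card_image_of_injective _ (D.ZK_inj hf i), D.ZK_card hi]
  · have e : ∀ a, iP ((D.ZK_T i Z).image (D.ZK_r i)) a =
        Ring.inverse (a2 (∏ x ∈ D.ZK_T i Z, (X a - rt0 (D.ZK_r i x)))) := fun a => by
      rw [iP, prod_image (D.ZK_inj hf i).injOn, map_prod, inverse_prod]
    rw [Ks, Ks, D.ZK_NS_union hZ hA, D.ZK_DS_union hi hZ hA]
    simp only [e, map_mul, map_prod (a2) _ A, inverse_mul', inverse_prod A, map_pow, map_neg,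
      map_one, ZK_sign, prod_mul_distrib, prod_const, ← pow_mul]
    ring

end QD

end Pool.Agent.Work.MP_849ab0_ag
end
end

-- merged part: Pool.Agent.Work.MP_849ab0_ag.ZW
section
/-! Words in the modes are iterated residues. -/

noncomputable section

set_option linter.unusedSectionVars false

namespace Pool.Agent.Work.MP_849ab0_ag.W

open MvPolynomial Finset

section Link

variable {𝕜 : Type} [CommRing 𝕜] {n : ℕ} (V : VD 𝕜 (Option (Fin n)))

theorem zw_JK (S : Finset (Option (Fin n))) (g : AA 𝕜 (Option (Fin n))) :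
    JK 𝕜 (Pi.single S g : MM 𝕜 (Option (Fin n))) =
      Pi.single S (aeval (fun b => if b ∈ S then X b else 0) g) := by
  funext T
  change aeval (fun b => if b ∈ T then X b else 0)
    ((Pi.single S g : MM 𝕜 (Option (Fin n))) T) = _
  by_cases e : T = S
  · subst e
    rw [Pi.single_eq_same, Pi.single_eq_same]
  · rw [Pi.single_eq_of_ne e, Pi.single_eq_of_ne e, map_zero]

theorem zw_eP (a : Option (Fin n)) (f : AA 𝕜 (Option (Fin n))) :
    coeff 0 (V.eP a ∅ (-1) f) = coeff 0 f := by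
  have h := LinearMap.congr_fun (V.phi_sig (phi 𝕜 {a})) (Pi.single {a} f)
  rw [LinearMap.comp_apply, LinearMap.comp_apply, V.sig_phi, link_eM_single,
    if_pos (mem_singleton_self a), erase_singleton, link_phi_single, if_pos rfl, zw_JK,
    link_phi_single, if_pos rfl] at h
  rw [h]
  clear h
  change constantCoeff _ = constantCoeff f
  induction f using MvPolynomial.induction_on with
  | C r => simp
  | add p q hp hq => rw [map_add, map_add, map_add, hp, hq]
  | mul_X p b hp =>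
    rw [map_mul, map_mul, map_mul, hp, aeval_X, constantCoeff_X]
    split_ifs
    · rw [constantCoeff_X]
    · rw [map_zero]

theorem zw_ne (l : Fin n) (L : List (Fin n × ℕ)) (S : Finset (Option (Fin n)))
    (f : AA 𝕜 (Option (Fin n)))
    (h : phi 𝕜 {some l} (V.word (L.map fun x => (some x.1, x.2)) (Pi.single S f)) ≠ 0) :
    (L.map Prod.fst ++ [l]).Nodup ∧ ∀ o, o ∈ S ↔ ∃ b ∈ L.map Prod.fst ++ [l], o = some b := by
  induction L generalizing S f with
  | nil =>
    rw [List.map_nil, VD.word, Module.End.one_apply, link_phi_single] at h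
    have e : S = {some l} := by
      by_contra e
      exact h (if_neg e)
    simp [e]
  | cons x L ih =>
    rw [List.map_cons, VD.word, Module.End.mul_apply, link_eM_single] at h
    by_cases ha : some x.1 ∈ S
    · rw [if_pos ha] at h
      obtain ⟨h1, h2⟩ := ih _ _ h
      rw [List.map_cons, List.cons_append, List.nodup_cons]
      refine ⟨⟨fun e => notMem_erase _ _ ((h2 _).2 ⟨_, e, rfl⟩), h1⟩, fun o => ?_⟩
      constructor
      · intro ho
        by_cases e : o = some x.1
        · exact ⟨x.1, List.mem_cons_self, e⟩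
        · obtain ⟨b, hb, e'⟩ := (h2 o).1 (mem_erase.2 ⟨e, ho⟩)
          exact ⟨b, List.mem_cons_of_mem _ hb, e'⟩
      · rintro ⟨b, hb, rfl⟩
        rcases List.mem_cons.1 hb with rfl | hb
        · exact ha
        · exact mem_of_mem_erase ((h2 _).2 ⟨b, hb, rfl⟩)
    · rw [if_neg ha, map_zero, map_zero] at h
      exact absurd rfl h

theorem zw_eq (π : Equiv.Perm (Fin n)) (kk : Fin n → ℤ) (l : Fin n) (hl : kk l = -1)
    (L : List (Fin n × ℕ)) (hL : (L.map Prod.fst ++ [l]).Pairwise fun a b => π a < π b)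
    (hk : ∀ x ∈ L, kk x.1 = x.2) (S : Finset (Option (Fin n)))
    (hS : ∀ o, o ∈ S ↔ ∃ b ∈ L.map Prod.fst ++ [l], o = some b) (f : AA 𝕜 (Option (Fin n))) :
    phi 𝕜 {some l} (V.word (L.map fun x => (some x.1, x.2)) (Pi.single S f)) =
      (serH V π S f).coeff (expo π kk S) := by
  induction L generalizing S f with
  | nil =>
    have e : S = insert (some l) ∅ := by
      ext o
      simp [hS]
    rw [List.map_nil, VD.word, Module.End.one_apply, link_phi_single, if_pos (by simpa using e), e,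
      link_step V π kk (notMem_empty _) (fun b hb => absurd hb (notMem_empty _)),
      link_base V π kk (empty_subset _), hl, zw_eP]
  | cons x L ih =>
    rw [List.map_cons, List.cons_append, List.pairwise_cons] at hL
    have ha : some x.1 ∈ S := (hS _).2 ⟨x.1, by simp, rfl⟩
    have hS' : ∀ o, o ∈ S.erase (some x.1) ↔ ∃ b ∈ L.map Prod.fst ++ [l], o = some b := fun o => by
      rw [mem_erase, hS, List.map_cons, List.cons_append]
      constructor
      · rintro ⟨h1, b, hb, rfl⟩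
        rcases List.mem_cons.1 hb with rfl | hb
        · exact absurd rfl h1
        · exact ⟨b, hb, rfl⟩
      · rintro ⟨b, hb, rfl⟩
        refine ⟨fun e => ?_, b, List.mem_cons_of_mem _ hb, rfl⟩
        have := hL.1 b hb
        rw [Option.some.inj e] at this
        exact lt_irrefl _ this
    rw [List.map_cons, VD.word, Module.End.mul_apply, link_eM_single, if_pos ha,
      ih hL.2 (fun y hy => hk y (List.mem_cons_of_mem _ hy)) _ hS']
    have := link_step V π kk (notMem_erase (some x.1) S)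
      (fun b hb => by
        obtain ⟨c, hc, e⟩ := (hS' _).1 hb
        rw [Option.some.inj e]
        exact hL.1 c hc) f
    rw [insert_erase ha, hk x List.mem_cons_self] at this
    exact this.symm

end Link

variable {k n : ℕ} {E 𝕜 : Type} [Fintype E] [CommRing 𝕜] [IsDomain 𝕜] [Algebra ℚ 𝕜]
  (D : QD k n E 𝕜)

theorem zw_KS (π : Equiv.Perm (Fin n)) (U : Finset (Option (Fin n))) :
    (vd D).KS HahnSeries.C U (posH 𝕜 π U) =
      (∏ q ∈ D.Rt with q.1 ≠ q.2 ∧ some q.1 ∈ U ∧ some q.2 ∈ U,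
        expand (RingHom.id 𝕜) π (X q.1 - X q.2)) *
      ∏ p ∈ D.W2 with p.2.1 ∈ U ∧ p.2.2 ∈ U,
        Ring.inverse (expand (RingHom.id 𝕜) π (D.chi p)) := by
  have key : ∀ F : Option (Fin n) → Option (Fin n) → HahnSeries (Gam n) 𝕜,
      ∏ a ∈ U, ∏ b ∈ U.erase a, F a b =
        ∏ a, ∏ b ∈ univ.erase a, if b ∈ U ∧ a ∈ U then F a b else 1 := by
    intro F
    rw [← Fintype.prod_ite_mem U]
    refine prod_congr rfl fun a _ => ?_
    split_ifs with h
    · rw [← prod_filter]
      refine prod_congr (Finset.ext fun b => ?_) fun _ _ => rfl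
      simp [h]
    · simp [h]
  unfold VD.KS VD.kap
  simp only [prod_mul_distrib]
  congr 1
  · rw [key, QD.Rt, filter_filter, prod_filter, Fintype.prod_prod_type, Fintype.prod_option]
    have h1 : ∏ b ∈ univ.erase (none : Option (Fin n)), (if b ∈ U ∧ none ∈ U then
        (posH 𝕜 π U none - posH 𝕜 π U b) ^ (vd D).pp none b else 1) = 1 := by
      refine prod_eq_one fun b hb => ?_
      cases b with
      | none => exact absurd rfl (ne_of_mem_erase hb)
      | some b => simp [vd]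
    rw [h1, one_mul]
    refine prod_congr rfl fun a _ => ?_
    rw [← filter_ne', prod_filter, Fintype.prod_option]
    have h2 : (if none ≠ some a then (if none ∈ U ∧ some a ∈ U then
        (posH 𝕜 π U (some a) - posH 𝕜 π U none) ^ (vd D).pp (some a) none else 1) else 1) = 1 := by
      simp [vd]
    rw [h2, one_mul]
    refine prod_congr rfl fun b _ => ?_
    by_cases h3 : some a ∈ U <;> by_cases h4 : some b ∈ U <;> by_cases h5 : a = b <;>
      by_cases h6 : D.col a = D.col b <;> simp [vd, posH, h3, h4, h5, h6, Ne.symm]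
  · rw [key, prod_filter]
    have h := WGen_den D fun a b c => if b ∈ U ∧ a ∈ U then
      Ring.inverse (expand (RingHom.id 𝕜) π (xv a - xv b + C c)) else 1
    refine Eq.trans (prod_congr rfl fun a _ => prod_congr rfl fun b _ => ?_) h
    split_ifs with h'
    · refine congrArg _ (Multiset.map_congr rfl fun c _ => ?_)
      simp [posH, h'.1, h'.2]
    · simp

theorem serH_Ks (π : Equiv.Perm (Fin n)) (S : Finset (Fin n)) (f : AA 𝕜 (Option (Fin n))) :
    serH (vd D) π (S.image some) f = exF π (a2 (twZ 𝕜 (S.image some) f) * D.Ks S) := by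
  have h1 : eval₂Hom HahnSeries.C (posH 𝕜 π (S.image some)) f =
      expand (RingHom.id 𝕜) π (twZ 𝕜 (S.image some) f) := by
    induction f using MvPolynomial.induction_on with
    | C r => simp [twZ]
    | add p q hp hq => rw [map_add, map_add, map_add, hp, hq]
    | mul_X p a hp =>
      rw [map_mul, map_mul, map_mul, hp, eval₂Hom_X', twZ, aeval_X, posH]
      split_ifs
      · rfl
      · rw [map_zero]
  rw [serH, h1, zw_KS, map_mul, exF_al, D.exF_Ks, mul_comm, QD.NS, QD.DS, map_prod, map_prod,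
    inverse_prod]
  simp only [mem_image, Option.some.injEq, exists_eq_right]

theorem serH_cS (π : Equiv.Perm (Fin n)) (S : Finset (Fin n)) {l : Fin n} (hl : l ∈ S)
    (kk : Fin n → ℕ) (f : AA 𝕜 (Option (Fin n))) :
    (serH (vd D) π (S.image some) f).coeff
      (expo π (fun a => if a = l then -1 else kk a) (S.image some)) =
      D.cS π S l (twZ 𝕜 (S.image some) f * ∏ a ∈ S.erase l, X a ^ kk a) := by
  have h0 : ∏ a ∈ S.erase l, (X a : Pol n 𝕜) ^ kk a =
      ∏ a, X a ^ (if a ∈ S.erase l then kk a else 0) := by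
    rw [← Fintype.prod_ite_mem (S.erase l)]
    refine prod_congr rfl fun a _ => ?_
    split_ifs
    · rfl
    · rw [pow_zero]
  have h3 : expo π (fun a => if a = l then -1 else kk a) (S.image some) =
      toLex (ind (S.erase l) ∘ π.symm) -
        toLex fun i => -((if π.symm i ∈ S.erase l then kk (π.symm i) else 0 : ℕ) : ℤ) := by
    funext i
    change (if some (π.symm i) ∈ S.image some then
      (if π.symm i = l then -1 else (kk (π.symm i) : ℤ)) + 1 else 0) =
      (if π.symm i ∈ S.erase l then 1 else 0) -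
        -((if π.symm i ∈ S.erase l then kk (π.symm i) else 0 : ℕ) : ℤ)
    by_cases h1 : π.symm i = l
    · simp [h1]
    · by_cases h2 : π.symm i ∈ S
      · simp [h1, h2, add_comm]
      · simp [h2]
  rw [serH_Ks, QD.cS, cE_apply, h0, h3, map_mul a2, mul_right_comm, map_mul _ (_ * _), exF_al,
    WGen_mono, mul_comm _ (HahnSeries.single _ _), coeff_single_mul', one_mul]

theorem van_of_vanC {S : Finset (Fin n)} {P : Fin n → Prop} (hS : ∀ a, S ≠ {a})
    (hP : ∀ a b, ¬P a → ¬P b → (vd D).rr (some a) (some b) = 0) (h : D.VanC S P) :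
    (vd D).Van (Set.range some) (S.image some) := by
  refine (vd D).van_of_words (X₁ := {o | ∃ a, o = some a ∧ P a}) ?_ ?_ ?_
  · rintro _ ⟨a, rfl⟩ _ ⟨b, rfl⟩ ha hb j
    have ha' : ¬P a := fun h => ha ⟨a, rfl, h⟩
    have hb' : ¬P b := fun h => hb ⟨b, rfl, h⟩
    exact (vd D).phi_eM_zero (hP a b ha' hb') (hP b a hb' ha') j
  · intro o e
    have ho : o ∈ S.image some := by rw [e]; exact mem_singleton_self o
    obtain ⟨a, ha, rfl⟩ := mem_image.1 ho
    refine hS a (eq_singleton_iff_unique_mem.2 ⟨ha, fun b hb => ?_⟩)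
    have : some b ∈ S.image some := mem_image_of_mem _ hb
    rw [e, mem_singleton] at this
    exact Option.some.inj this
  · rintro _ - ⟨l, rfl, hPl⟩ L hL f
    obtain ⟨L, rfl⟩ : ∃ L' : List (Fin n × ℕ), L = L'.map fun x => (some x.1, x.2) := by
      induction L with
      | nil => exact ⟨[], rfl⟩
      | cons x L ih =>
        obtain ⟨L', rfl⟩ := ih fun y hy => hL y (List.mem_cons_of_mem _ hy)
        obtain ⟨a, ha⟩ := hL x List.mem_cons_self
        exact ⟨(a, x.2) :: L', by simp [ha]⟩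
    by_contra hne
    obtain ⟨nd, hall⟩ := zw_ne (vd D) l L _ f hne
    obtain ⟨π, hπ⟩ := exists_list _ nd
    have hmem : ∀ b, b ∈ S ↔ b ∈ L.map Prod.fst ++ [l] := fun b => by
      have := hall (some b)
      simpa only [mem_image, Option.some.injEq, exists_eq_right, exists_eq_right'] using this
    have hl : l ∈ S := (hmem l).2 (by simp)
    have hex : ∀ b, ∃ k, b ∈ L.map Prod.fst → (b, k) ∈ L := fun b => by
      by_cases hb : b ∈ L.map Prod.fst
      · obtain ⟨x, hx, rfl⟩ := List.mem_map.1 hb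
        exact ⟨x.2, fun _ => hx⟩
      · exact ⟨0, fun h => absurd h hb⟩
    choose kk hkk using hex
    rw [List.nodup_append] at nd
    refine hne ((zw_eq (vd D) π (fun a => if a = l then -1 else kk a) l (if_pos rfl) L hπ
      (fun x hx => ?_) _ hall f).trans ((serH_cS D π S hl kk f).trans (h π l _ hl hPl ?_)))
    · have hx' := List.mem_map_of_mem (f := Prod.fst) hx
      rw [if_neg (nd.2.2 _ hx' l (List.mem_singleton_self l))]
      exact congrArg (fun y : Fin n × ℕ => (y.2 : ℤ))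
        (List.inj_on_of_nodup_map nd.1 (hkk x.1 hx') hx rfl)
    · intro b hb
      rcases List.mem_append.1 ((hmem b).1 hb) with hb | hb
      · exact ((List.pairwise_append.1 hπ).2.2 b hb l (List.mem_singleton_self l)).le
      · rw [List.mem_singleton.1 hb]

theorem vanC_of_van {S : Finset (Fin n)} (h : (vd D).Van (Set.range some) (S.image some)) :
    D.VanC S fun _ => True := by
  intro π l f hl _ hπ
  obtain ⟨L, hL1, hL2⟩ : ∃ L : List (Fin n), (L.Pairwise fun a b => π a < π b) ∧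
      ∀ b, b ∈ L ↔ b ∈ S.erase l := by
    refine ⟨((List.finRange n).map π.symm).filter fun b => b ∈ S.erase l,
      List.Pairwise.filter _ ?_, fun b => ?_⟩
    · rw [List.pairwise_map]
      simpa only [Equiv.apply_symm_apply] using List.pairwise_lt_finRange n
    · rw [List.mem_filter, decide_eq_true_eq]
      exact and_iff_right (List.mem_map.2 ⟨π b, List.mem_finRange _, π.symm_apply_apply b⟩)
  have hm : (L.map fun b => (b, (0 : ℕ))).map Prod.fst = L := by
    rw [List.map_map]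
    exact List.map_id _
  have h1 := VD.words_of_van (vd D) h (a := some l) ⟨l, rfl⟩
    ((L.map fun b => (b, (0 : ℕ))).map fun x => (some x.1, x.2))
    (fun x hx => by
      obtain ⟨y, -, rfl⟩ := List.mem_map.1 hx
      exact ⟨y.1, rfl⟩) (rename some f)
  rw [zw_JK, zw_eq (vd D) π (fun a => if a = l then -1 else (fun _ => 0 : Fin n → ℕ) a) l
    (if_pos rfl), serH_cS D π S hl] at h1
  · simp only [pow_zero, prod_const_one, mul_one] at h1
    rw [← D.cS_kl, ← h1]
    congr 1
    have : (kl 𝕜 S : Pol n 𝕜 →ₐ[𝕜] Pol n 𝕜) = (twZ 𝕜 (S.image some)).comp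
        ((aeval fun b => if b ∈ S.image some then X b else 0 :
          AA 𝕜 (Option (Fin n)) →ₐ[𝕜] AA 𝕜 (Option (Fin n))).comp (rename some)) := by
      refine MvPolynomial.algHom_ext fun a => ?_
      by_cases ha : a ∈ S <;> simp [kl, twZ, ha]
    rw [this]
    rfl
  · rw [hm, List.pairwise_append]
    refine ⟨hL1, List.pairwise_singleton _ _, fun a ha b hb => ?_⟩
    rw [List.mem_singleton.1 hb]
    have ha' := mem_erase.1 ((hL2 a).1 ha)
    exact lt_of_le_of_ne (hπ a ha'.2) (π.injective.ne ha'.1)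
  · intro x hx
    obtain ⟨b, hb, rfl⟩ := List.mem_map.1 hx
    exact if_neg (mem_erase.1 ((hL2 b).1 hb)).1
  · intro o
    rw [hm, mem_image]
    constructor
    · rintro ⟨b, hb, rfl⟩
      refine ⟨b, ?_, rfl⟩
      by_cases e : b = l
      · simp [e]
      · exact List.mem_append_left _ ((hL2 b).2 (mem_erase.2 ⟨e, hb⟩))
    · rintro ⟨b, hb, rfl⟩
      refine ⟨b, ?_, rfl⟩
      rcases List.mem_append.1 hb with hb | hb
      · exact mem_of_mem_erase ((hL2 b).1 hb)
      · rw [List.mem_singleton.1 hb]; exact hl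

theorem rr_NLi {i : Fin k} (hi : D.NLi i) {a b : Fin n} (ha : D.col a = i) (hb : D.col b = i) :
    (vd D).rr (some a) (some b) = 0 := by
  rw [Multiset.eq_zero_iff_forall_notMem]
  intro c hc
  obtain ⟨e, he, -⟩ := (WGen_mem_rr D).1 hc
  have := D.mem_Wt.1 he
  simp only [Option.map_some, ha, hb] at this
  exact hi e ⟨this.1.symm, this.2.symm⟩

end Pool.Agent.Work.MP_849ab0_ag.W
end
end

-- merged part: Pool.Agent.Work.MP_849ab0_ag.ZT
section
/-! Duality between a set of roots and its complement. -/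

noncomputable section

set_option linter.unusedSectionVars false

namespace Pool.Agent.Work.MP_849ab0_ag

open MvPolynomial Finset

variable {n : ℕ} {F : Type} [Field F]

/-- block weights -/
def blk (β : Fin n → Fin n) (a b : Fin n) : ℤ := if b = β a then 1 else 0

open Classical in
/-- injective maps respecting the blocks -/
def PI (Y : Finset (Fin n × F)) (A : Finset (Fin n)) (β : Fin n → Fin n) :
    Finset (Fin n → Fin n × F) :=
  (piF Y A).filter fun φ => Set.InjOn φ A ∧ ∀ a ∈ A, (φ a).1 = β a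

open Classical in
/-- cross term of a set of roots and its complement -/
def Omg (Y B : Finset (Fin n × F)) : O2 n F :=
  ∏ y ∈ B, ∏ y' ∈ Y \ B, Ring.inverse (a2 (rt0 y - rt0 y'))

/-- the colouring fixed by the block permutations -/
def bc (A : Finset (Fin n)) (β : Fin n → Fin n) (a : Fin n) : Fin n ⊕ Fin n :=
  if a ∈ A then Sum.inl (β a) else Sum.inr a

open Classical in
/-- the block sum -/
def TB (Y : Finset (Fin n × F)) (A : Finset (Fin n)) (β : Fin n → Fin n) (f : Pol n F) : O2 n F :=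
  ∑ φ ∈ PI Y A β, a2 (sb φ f) * Omg Y (A.image φ)

theorem ZT_X (φ : Fin n → Fin n × F) (a : Fin n) : sb φ (X a) = rt0 (φ a) := aeval_X _ _

theorem ZT_C (φ : Fin n → Fin n × F) (c : F) : sb φ (C c) = C c := algHom_C _ _

theorem ZT_mem {Y : Finset (Fin n × F)} {A : Finset (Fin n)} {β : Fin n → Fin n}
    {φ : Fin n → Fin n × F} : φ ∈ PI Y A β ↔ ((∀ a ∈ A, φ a ∈ Y) ∧ ∀ a ∉ A, φ a = id0 a) ∧
      Set.InjOn φ A ∧ ∀ a ∈ A, (φ a).1 = β a := by
  classical
  rw [PI, mem_filter, mem_piF]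

theorem ZT_Dl (φ : Fin n → Fin n × F) (A : Finset (Fin n)) :
    sb φ (Dl F A) = ∏ a ∈ A, ∏ b ∈ A.erase a, (rt0 (φ a) - rt0 (φ b)) := by
  simp only [Dl, map_prod, map_sub, ZT_X]

theorem sb_Dl {A : Finset (Fin n)} {φ : Fin n → Fin n × F} (h : ¬Set.InjOn φ A) :
    sb φ (Dl F A) = 0 := by
  simp only [Set.InjOn, not_forall] at h
  obtain ⟨a, ha, b, hb, e, hn⟩ := h
  rw [ZT_Dl]
  exact prod_eq_zero ha (prod_eq_zero (mem_erase.2 ⟨Ne.symm hn, hb⟩) (by rw [e, sub_self]))

theorem UV_zero {Y : Finset (Fin n × F)} {A : Finset (Fin n)} (h : Y.card < A.card)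
    (ω : Fin n → Fin n → ℤ) (f : Pol n F) : UV Y A ω (Dl F A * f) = 0 := by
  refine sum_eq_zero fun φ hφ => ?_
  rw [map_mul, sb_Dl fun e => h.not_ge (card_le_card_of_injOn φ (mem_piF.1 hφ).1 e), zero_mul,
    map_zero, zero_mul, zsmul_zero]

open Classical in
theorem ZT_sub {Y : Finset (Fin n × F)} {A : Finset (Fin n)} {β : Fin n → Fin n}
    {φ : Fin n → Fin n × F} (h : φ ∈ PI Y A β) : A.image φ ⊆ Y :=
  image_subset_iff.2 (ZT_mem.1 h).1.1

open Classical in
theorem ZT_Omg {Y : Finset (Fin n × F)} {A : Finset (Fin n)} {φ : Fin n → Fin n × F}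
    (h : ∀ a ∈ A, φ a ∈ Y) (hi : Set.InjOn φ A) :
    a2 (sb φ (Dl F A)) * ∏ a ∈ A, dP Y (φ a) = Omg Y (A.image φ) := by
  rw [ZT_Dl, map_prod, ← prod_mul_distrib, Omg, prod_image hi]
  refine prod_congr rfl fun a ha => ?_
  have h1 : (A.erase a).image φ ⊆ Y.erase (φ a) := image_subset_iff.2 fun b hb =>
    mem_erase.2 ⟨fun e => (mem_erase.1 hb).1 (hi (mem_erase.1 hb).2 ha e), h b (mem_erase.1 hb).2⟩
  have h2 : Y.erase (φ a) \ (A.erase a).image φ = Y \ A.image φ := by
    ext y
    simp only [mem_sdiff, mem_erase, mem_image]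
    grind
  rw [dP, ← prod_sdiff h1, h2, prod_image (hi.mono (coe_subset.2 (erase_subset a A))), map_prod,
    mul_left_comm, ← prod_mul_distrib, prod_eq_one (s := A.erase a), mul_one]
  exact fun b hb => Ring.mul_inverse_cancel _
    (isUnit_rt0 fun e => (mem_erase.1 hb).1 (hi (mem_erase.1 hb).2 ha e.symm))

theorem UV_blk (Y : Finset (Fin n × F)) (A : Finset (Fin n)) (β : Fin n → Fin n) (f : Pol n F) :
    UV Y A (blk β) (Dl F A * f) = TB Y A β f := by
  rw [TB, PI, sum_filter]
  refine sum_congr rfl fun φ hφ => ?_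
  rw [map_mul, map_mul]
  split_ifs with h
  · rw [prod_eq_one (f := fun a => blk β a (φ a).1) fun a ha => if_pos (h.2 a ha), one_zsmul,
      ← ZT_Omg (mem_piF.1 hφ).1 h.1]
    ring
  · by_cases hi : Set.InjOn φ A
    · simp only [hi, true_and, not_forall] at h
      obtain ⟨a, ha, h⟩ := h
      rw [prod_eq_zero ha (if_neg h), zero_zsmul]
    · rw [sb_Dl hi, map_zero, zero_mul, zero_mul, zsmul_zero]

theorem TB_C (Y : Finset (Fin n × F)) (A : Finset (Fin n)) (β : Fin n → Fin n) (c : F)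
    (f : Pol n F) : TB Y A β (C c * f) = a2 (C c) * TB Y A β f := by
  simp only [TB, map_mul, ZT_C, mul_sum, mul_assoc]

theorem ZT_bc {A : Finset (Fin n)} {β : Fin n → Fin n} (w : stab (bc A β)) (a : Fin n) :
    (a ∈ A → w.1 a ∈ A ∧ β (w.1 a) = β a) ∧ (a ∉ A → w.1 a = a) := by
  have := w.2 a
  unfold bc at this
  split_ifs at this <;> simp_all

theorem ZT_perm {Y : Finset (Fin n × F)} {A : Finset (Fin n)} {β : Fin n → Fin n}
    (w : stab (bc A β)) {φ : Fin n → Fin n × F} (h : φ ∈ PI Y A β) : φ ∘ w.1 ∈ PI Y A β := by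
  obtain ⟨⟨h1, h2⟩, h3, h4⟩ := ZT_mem.1 h
  refine ZT_mem.2 ⟨⟨fun a ha => h1 _ ((ZT_bc w a).1 ha).1, fun a ha => ?_⟩,
    fun a ha b hb e => w.1.injective (h3 ((ZT_bc w a).1 ha).1 ((ZT_bc w b).1 hb).1 e),
    fun a ha => (h4 _ ((ZT_bc w a).1 ha).1).trans ((ZT_bc w a).1 ha).2⟩
  rw [Function.comp_apply, (ZT_bc w a).2 ha, h2 a ha]

theorem TB_Av (Y : Finset (Fin n × F)) (A : Finset (Fin n)) (β : Fin n → Fin n) (f : Pol n F) :
    TB Y A β (Av (bc A β) f) = Fintype.card (stab (bc A β)) • TB Y A β f := by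
  classical
  rw [← card_univ, ← sum_const, TB]
  simp only [Av, map_sum, sum_mul]
  rw [sum_comm]
  refine sum_congr rfl fun w _ => sum_nbij' (fun φ => φ ∘ w.1) (fun φ => φ ∘ (w⁻¹).1)
    (fun φ h => ZT_perm w h) (fun φ h => ZT_perm w⁻¹ h) (fun φ _ => funext fun a => by simp)
    (fun φ _ => funext fun a => by simp) fun φ _ => ?_
  rw [← image_image, eq_of_subset_of_card_le (s := A.image w.1) (t := A)
    (image_subset_iff.2 fun a ha => ((ZT_bc w a).1 ha).1)
    (card_image_of_injective _ w.1.injective).ge, sb, aeval_rename]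
  rfl

theorem PI_empty {Y : Finset (Fin n × F)} {A : Finset (Fin n)} {β : Fin n → Fin n} {b : Fin n}
    (h : (Y.filter fun y => y.1 = b).card < (A.filter fun a => β a = b).card) : PI Y A β = ∅ := by
  refine eq_empty_of_forall_notMem fun φ hφ => h.not_ge ?_
  obtain ⟨⟨h1, -⟩, h3, h4⟩ := ZT_mem.1 hφ
  refine card_le_card_of_injOn φ (fun a ha => ?_) (h3.mono (coe_subset.2 (filter_subset _ _)))
  rw [mem_coe, mem_filter] at ha ⊢
  exact ⟨h1 a ha.1, (h4 a ha.1).trans ha.2⟩

/-- the number of injective maps only depends on the block sizes -/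
theorem PI_card (A : Finset (Fin n)) (β : Fin n → Fin n) : ∃ N : ℕ, N ≠ 0 ∧
    ∀ B : Finset (Fin n × F),
      (∀ b, (B.filter fun y => y.1 = b).card = (A.filter fun a => β a = b).card) →
        (PI B A β).card = N := by
  classical
  induction A using Finset.induction_on with
  | empty => exact ⟨1, one_ne_zero, fun B _ => card_eq_one.2 ⟨id0, by
      ext φ
      simp [ZT_mem, funext_iff]⟩⟩
  | insert a A ha ih =>
    obtain ⟨N, hN, ih⟩ := ih
    refine ⟨((insert a A).filter fun c => β c = β a).card * N, mul_ne_zero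
      (card_ne_zero.2 ⟨a, mem_filter.2 ⟨mem_insert_self _ _, rfl⟩⟩) hN, fun B hB => ?_⟩
    rw [← hB, PI, card_filter, sum_piF_insert B ha, ← smul_eq_mul, ← sum_const, sum_filter]
    refine sum_congr rfl fun y hy => ?_
    have h1 : ∀ φ : Fin n → Fin n × F, ∀ c ∈ A, Function.update φ a y c = φ c := fun φ c hc =>
      Function.update_of_ne (ne_of_mem_of_not_mem hc ha) _ _
    rw [← card_filter]
    split_ifs with h
    · rw [← ih (B.erase y) fun b => ?_]
      · refine congrArg card (Finset.ext fun φ => ?_)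
        rw [mem_filter, ZT_mem, mem_piF, coe_insert, Set.injOn_insert (mt mem_coe.1 ha),
          Set.EqOn.injOn_iff (f₂ := φ) (h1 φ), Set.EqOn.image_eq (f₂ := φ) (h1 φ),
          Function.update_self, forall_mem_insert, Function.update_self]
        simp only [mem_erase, Set.mem_image, mem_coe]
        grind
      · have := hB b
        rw [filter_insert] at this
        rw [filter_erase]
        split_ifs at this with e
        · rw [card_insert_of_notMem fun k => ha (mem_filter.1 k).1] at this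
          rw [card_erase_of_mem (mem_filter.2 ⟨hy, h.trans e⟩), this, Nat.add_sub_cancel]
        · rw [erase_eq_of_notMem (a := y) fun k => e (h.symm.trans (mem_filter.1 k).2), this]
    · refine card_eq_zero.2 (filter_eq_empty_iff.2 fun φ _ k => h ?_)
      have := k.2 a (mem_insert_self _ _)
      rwa [Function.update_self] at this

open Classical in
theorem ZT_flt {Y : Finset (Fin n × F)} {A : Finset (Fin n)} {β : Fin n → Fin n}
    {φ : Fin n → Fin n × F} (h : φ ∈ PI Y A β) (b : Fin n) :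
    ((A.image φ).filter fun y => y.1 = b) = (A.filter fun a => β a = b).image φ := by
  rw [filter_image, filter_congr fun a ha => by rw [(ZT_mem.1 h).2.2 a ha]]

open Classical in
theorem ZT_blk {Y : Finset (Fin n × F)} {A : Finset (Fin n)} {β : Fin n → Fin n}
    {φ : Fin n → Fin n × F} (h : φ ∈ PI Y A β) (b : Fin n) :
    ((A.image φ).filter fun y => y.1 = b).card = (A.filter fun a => β a = b).card := by
  rw [ZT_flt h, card_image_of_injOn ((ZT_mem.1 h).2.1.mono (coe_subset.2 (filter_subset _ _)))]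

open Classical in
theorem ZT_sd (Y B : Finset (Fin n × F)) (b : Fin n) : ((Y \ B).filter fun y => y.1 = b) =
    (Y.filter fun y => y.1 = b) \ B.filter fun y => y.1 = b := by
  ext y
  simp only [mem_sdiff, mem_filter]
  tauto

open Classical in
theorem ZT_half {Y : Finset (Fin n × F)} {A A' : Finset (Fin n)} {β β' : Fin n → Fin n}
    (h : ∀ b, (A.filter fun a => β a = b).card + (A'.filter fun a => β' a = b).card =
      (Y.filter fun y => y.1 = b).card) : ∃ N : ℕ, N ≠ 0 ∧ ∀ φ ∈ PI Y A β,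
      ((PI Y A' β').filter fun φ' => A'.image φ' = Y \ A.image φ).card = N := by
  obtain ⟨N, hN, H⟩ := PI_card (F := F) A' β'
  refine ⟨N, hN, fun φ hφ => ?_⟩
  have h1 : ∀ b, ((Y \ A.image φ).filter fun y => y.1 = b).card =
      (A'.filter fun a => β' a = b).card := fun b => by
    have := h b
    rw [ZT_sd, card_sdiff_of_subset (filter_subset_filter _ (ZT_sub hφ)), ZT_blk hφ]
    omega
  rw [← H _ h1]
  refine congrArg card (Finset.ext fun φ' => ?_)
  rw [mem_filter]
  refine ⟨fun ⟨k, e⟩ => ZT_mem.2 ⟨⟨fun a ha => e ▸ mem_image_of_mem _ ha, (ZT_mem.1 k).1.2⟩,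
    (ZT_mem.1 k).2⟩, fun k => ⟨ZT_mem.2 ⟨⟨fun a ha => (mem_sdiff.1 ((ZT_mem.1 k).1.1 a ha)).1,
      (ZT_mem.1 k).1.2⟩, (ZT_mem.1 k).2⟩, (ZT_sub k).antisymm fun y hy => ?_⟩⟩
  have := eq_of_subset_of_card_le (filter_subset_filter (fun z => z.1 = y.1) (ZT_sub k))
    ((h1 _).trans (ZT_blk k _).symm).le
  exact (mem_filter.1 (this.ge (mem_filter.2 ⟨hy, rfl⟩))).1

open Classical in
theorem PI_double {Y : Finset (Fin n × F)} {A A' : Finset (Fin n)} {β β' : Fin n → Fin n}
    (h : ∀ b, (A.filter fun a => β a = b).card + (A'.filter fun a => β' a = b).card =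
      (Y.filter fun y => y.1 = b).card) : ∃ N N' : ℕ, N ≠ 0 ∧ N' ≠ 0 ∧
    ∀ G G' : (Fin n → Fin n × F) → O2 n F,
      (∀ φ ∈ PI Y A β, ∀ φ' ∈ PI Y A' β', A'.image φ' = Y \ A.image φ → G φ = G' φ') →
        N • ∑ φ ∈ PI Y A β, G φ = N' • ∑ φ' ∈ PI Y A' β', G' φ' := by
  obtain ⟨N, hN, H⟩ := ZT_half h
  obtain ⟨N', hN', H'⟩ := ZT_half (β := β') (β' := β) fun b => (add_comm _ _).trans (h b)
  refine ⟨N, N', hN, hN', fun G G' hG => ?_⟩
  rw [← sum_nsmul, ← sum_nsmul, sum_congr rfl fun φ hφ => by rw [← H φ hφ, ← sum_const, sum_filter],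
    sum_comm]
  refine sum_congr rfl fun φ' hφ' => ?_
  rw [← H' φ' hφ', ← sum_const, sum_filter]
  refine sum_congr rfl fun φ hφ => ?_
  by_cases e : A'.image φ' = Y \ A.image φ
  · rw [if_pos e, if_pos (by rw [e, Finset.sdiff_sdiff_eq_self (ZT_sub hφ)]), hG φ hφ φ' hφ' e]
  · rw [if_neg e, if_neg fun k => e (by rw [k, Finset.sdiff_sdiff_eq_self (ZT_sub hφ')])]

theorem ZT_out {Y : Finset (Fin n × F)} {A : Finset (Fin n)} {β : Fin n → Fin n}
    {φ : Fin n → Fin n × F} (h : φ ∈ PI Y A β) {a : Fin n} (ha : a ∉ A) : sb φ (X a) = X a := by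
  rw [ZT_X, (ZT_mem.1 h).1.2 a ha, rt0, id0, map_zero, add_zero]

open Classical in
theorem ZT_ps {Y : Finset (Fin n × F)} {A : Finset (Fin n)} {β : Fin n → Fin n}
    {φ : Fin n → Fin n × F} (h : φ ∈ PI Y A β) (b : Fin n) (j : ℕ) :
    sb φ (ps F (A.filter fun a => β a = b) j) =
      ∑ y ∈ (A.image φ).filter fun y => y.1 = b, rt0 y ^ j := by
  rw [ZT_flt h, sum_image ((ZT_mem.1 h).2.1.mono (coe_subset.2 (filter_subset _ _)))]
  simp only [ps, map_sum, map_pow, ZT_X]

open Classical in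
theorem sb_dual [CharZero F] {Y : Finset (Fin n × F)} {A A' : Finset (Fin n)} (hA : A' ⊆ A)
    (hY : ∀ y ∈ Y, y.1 ∉ A) (β β' : Fin n → Fin n) {g : Pol n F} (hg : g ∈ Inv F (bc A β)) :
    ∃ g', ∀ φ ∈ PI Y A β, ∀ φ' ∈ PI Y A' β', A'.image φ' = Y \ A.image φ →
      sb φ g = sb φ' g' := by
  refine Algebra.adjoin_induction ?_ (fun r => ⟨C r, fun φ _ φ' _ _ => ?_⟩) ?_ ?_
    (inv_le_adjoin _ hg)
  · rintro _ ⟨b | b, j, rfl⟩
    · refine ⟨∑ y ∈ Y.filter fun y => y.1 = b, rt0 y ^ j - ps F (A'.filter fun a => β' a = b) j,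
        fun φ h φ' h' e => ?_⟩
      rw [show (univ.filter fun a => bc A β a = Sum.inl b) = A.filter fun a => β a = b by
        ext a
        rw [mem_filter, mem_filter, bc]
        by_cases k : a ∈ A <;> simp [k], map_sub, ZT_ps h, ZT_ps h', e, ZT_sd, eq_sub_iff_add_eq',
        sum_sdiff (filter_subset_filter _ (ZT_sub h)), map_sum]
      refine sum_congr rfl fun y hy => ?_
      rw [map_pow, rt0, map_add, ZT_C, ZT_out h' fun k => hY y (mem_filter.1 hy).1 (hA k)]
    · refine ⟨ps F (univ.filter fun a => bc A β a = Sum.inr b) j, fun φ h φ' h' _ => ?_⟩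
      rw [ps, map_sum, map_sum]
      refine sum_congr rfl fun a ha => ?_
      have k : a ∉ A := fun k => by
        rw [mem_filter, bc, if_pos k] at ha
        exact Sum.inl_ne_inr ha.2
      rw [map_pow, map_pow, ZT_out h k, ZT_out h' (mt (@hA a) k)]
  · exact (ZT_C φ r).trans (ZT_C φ' r).symm
  · rintro x y - - ⟨x', hx⟩ ⟨y', hy⟩
    exact ⟨x' + y', fun φ h φ' h' e => by rw [map_add, map_add, hx φ h φ' h' e, hy φ h φ' h' e]⟩
  · rintro x y - - ⟨x', hx⟩ ⟨y', hy⟩
    exact ⟨x' * y', fun φ h φ' h' e => by rw [map_mul, map_mul, hx φ h φ' h' e, hy φ h φ' h' e]⟩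

open Classical in
theorem Omg_compl {Y B : Finset (Fin n × F)} (h : B ⊆ Y) :
    Omg Y B = (-1) ^ (B.card * (Y \ B).card) * Omg Y (Y \ B) := by
  rw [Omg, Omg, Finset.sdiff_sdiff_eq_self h, prod_comm (s := Y \ B), mul_comm B.card, pow_mul,
    ← prod_const, ← prod_mul_distrib]
  refine prod_congr rfl fun y _ => ?_
  rw [← prod_const, ← prod_mul_distrib]
  exact prod_congr rfl fun y' _ => by
    rw [← neg_sub, map_neg, inverse_neg']
    ring

theorem TB_dual [CharZero F] {Y : Finset (Fin n × F)} {A A' : Finset (Fin n)} (hA : A' ⊆ A)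
    (hY : ∀ y ∈ Y, y.1 ∉ A) (hc : A.card + A'.card = Y.card)
    (β : Fin n → Fin n) (f : Pol n F) :
    ∃ β' f', TB Y A β f = TB Y A' β' f' := by
  classical
  by_cases h : ∀ b, (A.filter fun a => β a = b).card ≤ (Y.filter fun y => y.1 = b).card
  swap
  · obtain ⟨b, hb⟩ := not_forall.1 h
    exact ⟨β, 0, by simp [TB, PI_empty (not_le.1 hb)]⟩
  obtain ⟨β', hβ⟩ := exists_fib A' (fun b => (Y.filter fun y => y.1 = b).card -
    (A.filter fun a => β a = b).card) (by
      rw [sum_tsub_distrib _ fun b _ => h b, ← card_eq_sum_card_fiberwise fun _ _ => mem_univ _,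
        ← card_eq_sum_card_fiberwise fun _ _ => mem_univ _, ← hc, Nat.add_sub_cancel_left])
  obtain ⟨N, N', hN, -, H⟩ := PI_double (Y := Y) (A := A) (A' := A') (β := β) (β' := β') fun b => by
    rw [hβ, Nat.add_sub_cancel' (h b)]
  obtain ⟨g, hg⟩ := sb_dual hA hY β β' (Av_mem (bc A β) f)
  have h1 := H (fun φ => a2 (sb φ (Av (bc A β) f)) * Omg Y (A.image φ))
    (fun φ => a2 (sb φ (C ((-1) ^ (A.card * A'.card)) * g)) * Omg Y (A'.image φ))
    fun φ k φ' k' e => by
      rw [hg φ k φ' k' e, Omg_compl (ZT_sub k), ← e, card_image_of_injOn (ZT_mem.1 k).2.1,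
        card_image_of_injOn (ZT_mem.1 k').2.1, map_mul, map_mul, ZT_C]
      simp only [map_pow, map_neg, map_one]
      ring
  change N • TB Y A β _ = N' • TB Y A' β' _ at h1
  rw [TB_Av, ← mul_smul] at h1
  have h2 : ((N * Fintype.card (stab (bc A β)) : ℕ) : F) ≠ 0 :=
    Nat.cast_ne_zero.2 (mul_ne_zero hN Fintype.card_ne_zero)
  generalize N * Fintype.card (stab (bc A β)) = M at h1 h2
  generalize C ((-1 : F) ^ (A.card * A'.card)) * g = g' at h1
  have h3 : ∀ m : ℕ, (m : O2 n F) = a2 (C (m : F)) := fun m => by rw [map_natCast, map_natCast]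
  refine ⟨β', C (M : F)⁻¹ * (C (N' : F) * g'), ?_⟩
  rw [TB_C, TB_C, ← h3, ← nsmul_eq_mul, ← h1, nsmul_eq_mul, h3, ← mul_assoc, ← map_mul, ← map_mul,
    inv_mul_cancel₀ h2, map_one, map_one, one_mul]

/-- the reflection lemma -/
theorem reflect [CharZero F] {Y : Finset (Fin n × F)} {A A' Z : Finset (Fin n)} (hA : A' ⊆ A)
    (hd : Disjoint Z A) (hZ : ∀ y ∈ Y, y.1 ∈ Z) (hc : A.card + A'.card = Y.card)
    {w : O2 n F} (hw : ∀ a ∉ Z, w ∈ NZ F a) (hw' : w ∈ AF F (FrZ Z)) {γ : Fin n → ℤ}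
    (hγ : ∀ a ∉ Z, γ a = 0) {l : Fin n} (hl : l ∈ Z)
    (H : ∀ (π : Equiv.Perm (Fin n)) (f : Pol n F), (∀ b ∈ Z ∪ A', π b ≤ π l) →
      cE π (γ + ind A') (a2 (Dl F A' * f) * w * ∏ a ∈ A', iP Y a) = 0)
    (π : Equiv.Perm (Fin n)) (f : Pol n F) (hπ : ∀ b ∈ Z, π b ≤ π l) :
    cE π (γ + ind A) (a2 (Dl F A * f) * w * ∏ a ∈ A, iP Y a) = 0 := by
  have hA0 : ∀ a ∈ A, a ∉ Z := fun a ha k => disjoint_left.1 hd k ha
  have hY : ∀ y ∈ Y, y.1 ∉ A := fun y hy k => hA0 _ k (hZ y hy)
  have hZ0 : ∀ b ∈ Z, b ∉ A' := fun b hb k => hA0 b (hA k) hb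
  have key : ∀ {S : Set (O2 n F)} {z : O2 n F}, z ∈ AddSubgroup.closure S →
      (∀ x ∈ S, cE π γ (w * x) = 0) → cE π γ (w * z) = 0 := fun hz hS =>
    (AddSubgroup.closure_le ((cE π γ).comp (AddMonoidHom.mulLeft w)).ker).2 hS hz
  rw [res_all hY π (fun a ha => hw a (hA0 a ha)) fun a ha => hγ a (hA0 a ha)]
  refine key (UV_span (J := Z) (c := late π) (g := fun j b => if b = j then 1 else 0)
    (fun a _ y hy => by simp [hZ y hy]) _) ?_
  rintro _ ⟨β, -, rfl⟩
  obtain ⟨β', f', e⟩ := TB_dual hA hY hc β f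
  choose c hc' using fun a => exists_up π Z (blk β' a)
  change cE π γ (w * UV Y A (blk β) _) = 0
  rw [UV_blk, e, ← UV_blk]
  refine key (UV_span (J := Z) (c := c) (g := fun j b => if π j ≤ π b then 1 else 0)
    (fun a _ y hy => hc' a _ (hZ y hy)) _) ?_
  rintro _ ⟨δ, hδ, rfl⟩
  obtain ⟨π', hk⟩ := exists_key fun c => if c ∈ A' then 2 * ((π (δ c)).1 : ℤ) else 2 * (π c).1 + 1
  have h1 : ∀ b ∈ Z, ∀ b' ∈ Z, π b < π b' → π' b < π' b' := fun b hb b' hb' k => hk _ _ (by
    rw [if_neg (hZ0 b hb), if_neg (hZ0 b' hb')]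
    omega)
  have h2 : ∀ a ∈ A', ∀ b ∈ Z, π (δ a) ≤ π b → π' a < π' b := fun a ha b hb k => hk _ _ (by
    rw [if_pos ha, if_neg (hZ0 b hb)]
    omega)
  have h3 : ∀ a ∈ A', ∀ b ∈ Z, π b < π (δ a) → π' b < π' a := fun a ha b hb k => hk _ _ (by
    rw [if_pos ha, if_neg (hZ0 b hb)]
    omega)
  rw [UV_congr (ω' := late π') fun a ha y hy => if_congr ⟨h2 a ha _ (hZ y hy), fun k =>
      not_lt.1 fun k' => k.not_gt (h3 a ha _ (hZ y hy) k')⟩ rfl rfl,
    cE_AF h1 (mul_mem hw' (UV_AF hZ _ _ _)), ← res_all (fun y hy => hZ0 _ (hZ y hy)) π'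
      (fun a ha => hw a (hA0 a (hA ha))) fun a ha => hγ a (hA0 a (hA ha))]
  refine H π' f' fun b hb => (mem_union.1 hb).elim (fun k => ?_)
    fun k => (h2 b k l hl (hπ _ (hδ b k))).le
  exact (hπ b k).eq_or_lt.elim (fun e => (congrArg π' (π.injective e)).le)
    fun e => (h1 b k l hl e).le

end Pool.Agent.Work.MP_849ab0_ag
end
end
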